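import Pool.Agent.H838.CFGeo

/-!
# The action on the cycles of the powers
-/

set_option autoImplicit false
set_option linter.unusedSectionVars false

open CategoryTheory AlgebraicGeometry

universe u v w

namespace Pool.Agent.H838.CF

open TensorProduct
open Pool.Agent.H914 Pool.Agent.H914.VarClass Pool.Agent.H914.VarClass.Obj Pool.Agent.W492.BB
  Pool.Agent.W550.Corr Pool.Agent.TH133

variable {k : Type u} [Field k] {𝒱 : VarClass k}

section chow

variable {C : TheoryData.{u, v, 0} 𝒱 ℚ} [hC : IsChowProj C] {X Y Z W : 𝒱.Obj}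

include hC

lemma actC_tens (a : C.A (X.prod X)) (b : C.A (Y.prod Y)) (y : C.A X) (z : C.A Y) :
    C.act (tens C a b) (C.ext y z) = C.ext (C.act a y) (C.act b z) :=
  act_tens_ext C a b (fun _ _ => ch_comm C _ _) y z

lemma act_tl (a : Cor C X) (y : C.A X) (z : C.A Y) :
    C.act (X := X.prod Y) (Y := X.prod Y) (tl C X Y a) (C.ext y z) =
      C.ext (C.act (X := X) (Y := X) a y) z := by
  have h := actC_tens (C := C) (X := X) (Y := Y) a (dg C Y) y z
  rw [act_dg] at h
  exact h

lemma act_tr (b : Cor C Y) (y : C.A X) (z : C.A Y) :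
    C.act (X := X.prod Y) (Y := X.prod Y) (tr C X Y b) (C.ext y z) =
      C.ext y (C.act (X := Y) (Y := Y) b z) := by
  have h := actC_tens (C := C) (X := X) (Y := Y) (dg C X) b y z
  rw [act_dg] at h
  exact h

lemma ext_one_right (y : C.A X) : C.ext y (1 : C.A Y) = C.pull (fst X Y) y := by
  rw [TheoryData.ext, map_one, mul_one]

lemma ext_one_left (z : C.A Y) : C.ext (1 : C.A X) z = C.pull (snd X Y) z := by
  rw [TheoryData.ext, map_one, one_mul]

lemma ext_one_one : C.ext (1 : C.A X) (1 : C.A Y) = 1 := by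
  rw [ext_one_right, map_one]

lemma pull_castSucc (n : ℕ) (i : Fin (n + 1)) (x : C.A X) :
    C.pull (pj X (n + 1) i.castSucc) x = C.ext (X := pw X n) (Y := X) (C.pull (pj X n i) x) 1 := by
  rw [pj_castSucc, C.pull_comp, ext_one_right]

lemma pull_last (n : ℕ) (x : C.A X) :
    C.pull (pj X (n + 1) (Fin.last (n + 1))) x = C.ext (X := pw X n) (Y := X) 1 x := by
  rw [pj_last, ext_one_left]

/-- A correspondence on the factor number `i` acts on the cycles pulled back from this factor. -/
lemma act_inj_self : ∀ (n : ℕ) (i : Fin (n + 1)) (a : Cor C X) (x : C.A X),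
    C.act (X := pw X n) (Y := pw X n) (inj C X n i a) (C.pull (pj X n i) x) =
      C.pull (pj X n i) (C.act (X := X) (Y := X) a x)
  | 0, i, a, x => by
    obtain rfl : i = 0 := Fin.fin_one_eq_zero i
    have e : ∀ y : C.A X, C.pull (pj X 0 0) y = y := fun y => C.pull_id y
    rw [e, e]
    rfl
  | n + 1, i, a, x => by
    induction i using Fin.lastCases with
    | last =>
      rw [inj_last_apply, pull_last, pull_last]
      exact act_tr (C := C) (X := pw X n) (Y := X) a 1 x
    | cast i =>
      rw [inj_castSucc_apply, pull_castSucc, pull_castSucc, ← act_inj_self n i a x]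
      exact act_tl (C := C) (X := pw X n) (Y := X) (inj C X n i a) _ 1

lemma act_inj_one : ∀ (n : ℕ) (i : Fin (n + 1)) (a : Cor C X),
    C.act (X := pw X n) (Y := pw X n) (inj C X n i a) 1 =
      C.pull (pj X n i) (C.act (X := X) (Y := X) a 1) := fun n i a => by
  have h := act_inj_self (C := C) (X := X) n i a 1
  rwa [map_one] at h

/-- A correspondence on the factor number `i` and the cycles pulled back from another factor. -/
lemma act_inj_ne : ∀ (n : ℕ) (i j : Fin (n + 1)) (_ : i ≠ j) (a : Cor C X) (x : C.A X),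
    C.act (X := pw X n) (Y := pw X n) (inj C X n i a) (C.pull (pj X n j) x) =
      C.pull (pj X n i) (C.act (X := X) (Y := X) a 1) * C.pull (pj X n j) x
  | 0, i, j, hij, _, _ => absurd (Subsingleton.elim (α := Fin 1) i j) hij
  | n + 1, i, j, hij, a, x => by
    induction i using Fin.lastCases with
    | last =>
      induction j using Fin.lastCases with
      | last => exact absurd rfl hij
      | cast j =>
        rw [inj_last_apply, pull_last, pull_castSucc]
        have h := act_tr (C := C) (X := pw X n) (Y := X) a (C.pull (pj X n j) x) 1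
        refine h.trans ?_
        rw [ext_one_left, ext_one_right, TheoryData.ext, ch_comm C]
    | cast i =>
      induction j using Fin.lastCases with
      | last =>
        rw [inj_castSucc_apply, pull_castSucc, pull_last]
        have h := act_tl (C := C) (X := pw X n) (Y := X) (inj C X n i a) 1 x
        refine h.trans ?_
        rw [ext_one_left, ext_one_right, TheoryData.ext, act_inj_one]
      | cast j =>
        rw [inj_castSucc_apply, pull_castSucc, pull_castSucc]
        have h := act_tl (C := C) (X := pw X n) (Y := X) (inj C X n i a) (C.pull (pj X n j) x) 1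
        refine h.trans ?_
        rw [act_inj_ne n i j (fun h => hij (by rw [h])) a x, ext_one_right, ext_one_right,
          ext_one_right, map_mul]

/-- A zero-cycle of degree one. -/
lemma exists_deg_one (X : 𝒱.Obj) : ∃ a : C.A X, a ∈ C.gr X X.dim ∧
    (∀ Z : 𝒱.Obj, C.push (fst Z X) (C.pull (snd Z X) a) = 1) ∧
    (∀ Z : 𝒱.Obj, C.push (snd X Z) (C.pull (fst X Z) a) = 1) :=
  (IsChowProj.toIsChow (C := C)).exists_deg_one X

lemma pull_fst_injective : Function.Injective (C.pull (fst X Y)) := by
  obtain ⟨ξ, -, h1, -⟩ := exists_deg_one (C := C) Y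
  intro x y h
  have h2 : ∀ x : C.A X, C.push (fst X Y) (C.pull (fst X Y) x * C.pull (snd X Y) ξ) = x := by
    intro x
    rw [C.proj_left, h1, mul_one]
  rw [← h2 x, h, h2 y]

lemma pull_snd_injective : Function.Injective (C.pull (snd X Y)) := by
  obtain ⟨ξ, -, -, h1⟩ := exists_deg_one (C := C) X
  intro x y h
  have h2 : ∀ x : C.A Y, C.push (snd X Y) (C.pull (snd X Y) x * C.pull (fst X Y) ξ) = x := by
    intro x
    rw [C.proj_left, h1, mul_one]
  rw [← h2 x, h, h2 y]

lemma pull_pj_injective : ∀ (n : ℕ) (i : Fin (n + 1)), Function.Injective (C.pull (pj X n i))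
  | 0, i => by
    obtain rfl : i = 0 := Fin.fin_one_eq_zero i
    intro x y h
    have e : ∀ y : C.A X, C.pull (pj X 0 0) y = y := fun y => C.pull_id y
    rwa [e, e] at h
  | n + 1, i => by
    induction i using Fin.lastCases with
    | last => rw [pj_last]; exact pull_snd_injective
    | cast i =>
      rw [pj_castSucc]
      intro x y h
      rw [C.pull_comp, C.pull_comp] at h
      exact pull_pj_injective n i (pull_fst_injective h)

/-- The action of the self-correspondences of degree zero on the cycles. -/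
noncomputable def alp (C : TheoryData.{u, v, 0} 𝒱 ℚ) [hC : IsChowProj C] (X : 𝒱.Obj) :
    cor0 C X →ₐ[ℚ] Module.End ℚ (C.A X) := (actC C X).toRatAlgHom.comp (cor0 C X).val

lemma alp_apply (a : cor0 C X) (x : C.A X) :
    alp C X a x = C.act (X := X) (Y := X) (a : Cor C X) x := rfl

lemma onCycle_eq (x : C.A X) : (LinearMap.applyₗ x).comp (alp C X).toLinearMap = onCycle C x := rfl

lemma actS_one (F : Type*) [CommRing F] [Algebra ℚ F] (Γ : F ⊗[ℚ] cor0 C X) (x : C.A X) :
    actS F (alp C X) Γ (1 ⊗ₜ x) = (onCycle C x).lTensor F Γ := by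
  rw [actS_one_tmul, onCycle_eq]

/-- The pull-back along the projection to the factor number `0`, as a linear map. -/
noncomputable def pb (C : TheoryData.{u, v, 0} 𝒱 ℚ) [hC : IsChowProj C] (X : 𝒱.Obj) (n : ℕ)
    (i : Fin (n + 1)) : C.A X →ₗ[ℚ] C.A (pw X n) := (C.pull (pj X n i)).toLinearMap

lemma pb_injective (n : ℕ) (i : Fin (n + 1)) : Function.Injective (pb C X n i) :=
  pull_pj_injective n i

lemma alp_inj0_self (n : ℕ) (i : Fin (n + 1)) (a : cor0 C X) (x : C.A X) :
    alp C (pw X n) (inj0 C X n i a) (pb C X n i x) = pb C X n i (alp C X a x) :=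
  act_inj_self n i (a : Cor C X) x

lemma alp_inj0_ne (n : ℕ) {i j : Fin (n + 1)} (hij : i ≠ j) (a : cor0 C X) (x : C.A X) :
    alp C (pw X n) (inj0 C X n i a) (pb C X n j x) =
      pb C X n i (alp C X a 1) * pb C X n j x :=
  act_inj_ne n i j hij (a : Cor C X) x

section tensor

variable {L : Type*} [Field L] [Algebra ℚ L]

lemma actS_self (n : ℕ) (i : Fin (n + 1)) (Γ : L ⊗[ℚ] cor0 C X) (y : L ⊗[ℚ] C.A X) :
    actS L (alp C (pw X n)) (lt L (inj0 C X n i) Γ) ((pb C X n i).lTensor L y) =
      (pb C X n i).lTensor L (actS L (alp C X) Γ y) := by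
  induction Γ with
  | zero => rw [map_zero, map_zero, map_zero, LinearMap.zero_apply, LinearMap.zero_apply, map_zero]
  | tmul r a =>
    induction y with
    | zero => rw [map_zero, map_zero, map_zero, map_zero]
    | tmul s x =>
      rw [lt_tmul, LinearMap.lTensor_tmul, actS_tmul, actS_tmul, LinearMap.lTensor_tmul,
        alp_inj0_self]
    | add y z hy hz => rw [map_add, map_add, map_add, map_add, hy, hz]
  | add Γ Δ h1 h2 =>
    rw [map_add, map_add, map_add, LinearMap.add_apply, LinearMap.add_apply, map_add, h1, h2]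

/-- Multiplication with the cycle `x` of the factor number `j`, after the pull-back from the factor
number `i`. -/
noncomputable def mulPb (C : TheoryData.{u, v, 0} 𝒱 ℚ) [hC : IsChowProj C] (X : 𝒱.Obj) (n : ℕ)
    (i j : Fin (n + 1)) (x : C.A X) : C.A X →ₗ[ℚ] C.A (pw X n) :=
  (LinearMap.mulRight ℚ (pb C X n j x)).comp (pb C X n i)

lemma actS_ne (n : ℕ) {i j : Fin (n + 1)} (hij : i ≠ j) (Γ : L ⊗[ℚ] cor0 C X) (s : L) (x : C.A X) :
    actS L (alp C (pw X n)) (lt L (inj0 C X n i) Γ) ((pb C X n j).lTensor L (s ⊗ₜ x)) =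
      s • (mulPb C X n i j x).lTensor L (actS L (alp C X) Γ (1 ⊗ₜ 1)) := by
  induction Γ with
  | zero =>
    rw [map_zero, map_zero, map_zero, LinearMap.zero_apply, LinearMap.zero_apply, map_zero,
      smul_zero]
  | tmul r a =>
    rw [lt_tmul, LinearMap.lTensor_tmul, actS_tmul, actS_tmul, LinearMap.lTensor_tmul,
      alp_inj0_ne n hij, mul_one, TensorProduct.smul_tmul', smul_eq_mul, mul_comm s]
    rfl
  | add Γ Δ h1 h2 =>
    rw [map_add, map_add, map_add, LinearMap.add_apply, LinearMap.add_apply, map_add, h1, h2,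
      smul_add]

end tensor

end chow

end Pool.Agent.H838.CF
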