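import Mathlib

/-!
# Twisting by permutations: descent of coefficients
-/

set_option autoImplicit false

namespace Pool.Agent.H838.CF

open TensorProduct

section basic

variable {A B : Type*} [Ring A] [Algebra ℚ A] [Ring B] [Algebra ℚ B] {F L : Type*} [CommRing F]
  [Algebra ℚ F] [CommRing L] [Algebra ℚ L] {M N : Type*} [AddCommGroup M] [Module ℚ M]
  [AddCommGroup N] [Module ℚ N]

/-- Change of the coefficients along `φ : F → L`. -/
noncomputable def bc (B : Type*) [Ring B] [Algebra ℚ B] (φ : F →ₐ[ℚ] L) :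
    F ⊗[ℚ] B →ₐ[ℚ] L ⊗[ℚ] B := Algebra.TensorProduct.map φ (AlgHom.id ℚ B)

/-- Change of the coefficients along `φ : F → L`, for modules. -/
noncomputable def bm (M : Type*) [AddCommGroup M] [Module ℚ M] (φ : F →ₐ[ℚ] L) :
    F ⊗[ℚ] M →ₗ[ℚ] L ⊗[ℚ] M := LinearMap.rTensor M φ.toLinearMap

/-- Extension of scalars of `f : A → B`. -/
noncomputable def lt (L : Type*) [CommRing L] [Algebra ℚ L] (f : A →ₐ[ℚ] B) :
    L ⊗[ℚ] A →ₐ[L] L ⊗[ℚ] B := Algebra.TensorProduct.map (AlgHom.id L L) f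

lemma bc_tmul (φ : F →ₐ[ℚ] L) (x : F) (b : B) : bc B φ (x ⊗ₜ b) = φ x ⊗ₜ b := by
  simp [bc]

lemma bm_tmul (φ : F →ₐ[ℚ] L) (x : F) (b : M) : bm M φ (x ⊗ₜ b) = φ x ⊗ₜ b := rfl

lemma lt_tmul (f : A →ₐ[ℚ] B) (x : L) (a : A) : lt L f (x ⊗ₜ a) = x ⊗ₜ f a := by
  simp [lt]

lemma bc_lt (φ : F →ₐ[ℚ] L) (f : A →ₐ[ℚ] B) (x : F ⊗[ℚ] A) :
    bc B φ (lt F f x) = lt L f (bc A φ x) := by
  induction x with
  | zero => simp
  | tmul x a => rw [lt_tmul, bc_tmul, bc_tmul, lt_tmul]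
  | add x y hx hy => rw [map_add, map_add, hx, hy, map_add, map_add]

lemma bm_lTensor (φ : F →ₐ[ℚ] L) (f : M →ₗ[ℚ] N) (x : F ⊗[ℚ] M) :
    bm N φ (f.lTensor F x) = f.lTensor L (bm M φ x) := by
  induction x with
  | zero => simp
  | tmul x a => rw [LinearMap.lTensor_tmul, bm_tmul, bm_tmul, LinearMap.lTensor_tmul]
  | add x y hx hy => rw [map_add, map_add, hx, hy, map_add, map_add]

lemma bc_eq_bm (φ : F →ₐ[ℚ] L) (x : F ⊗[ℚ] B) : bc B φ x = bm B φ x := by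
  induction x with
  | zero => simp
  | tmul x a => rw [bc_tmul, bm_tmul]
  | add x y hx hy => rw [map_add, map_add, hx, hy]

lemma lt_eq_lTensor (f : A →ₐ[ℚ] B) (x : L ⊗[ℚ] A) : lt L f x = f.toLinearMap.lTensor L x := by
  induction x with
  | zero => simp
  | tmul x a => rw [lt_tmul]; rfl
  | add x y hx hy => rw [map_add, map_add, hx, hy]

lemma bc_comp {M : Type*} [CommRing M] [Algebra ℚ M] (φ : F →ₐ[ℚ] L) (ψ : L →ₐ[ℚ] M)
    (x : F ⊗[ℚ] B) : bc B ψ (bc B φ x) = bc B (ψ.comp φ) x := by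
  induction x with
  | zero => simp
  | tmul x a => simp only [bc_tmul, AlgHom.comp_apply]
  | add x y hx hy => rw [map_add, map_add, hx, hy, map_add]

lemma bm_injective (φ : F →ₐ[ℚ] L) (hφ : Function.Injective φ) : Function.Injective (bm M φ) :=
  Module.Flat.rTensor_preserves_injective_linearMap _ hφ

lemma bc_injective (φ : F →ₐ[ℚ] L) (hφ : Function.Injective φ) : Function.Injective (bc B φ) := by
  intro x y h
  rw [bc_eq_bm, bc_eq_bm] at h
  exact bm_injective φ hφ h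

lemma lTensor_injective {f : M →ₗ[ℚ] N} (hf : Function.Injective f) :
    Function.Injective (f.lTensor L) := Module.Flat.lTensor_preserves_injective_linearMap f hf

lemma actS_aux (F : Type*) [CommRing F] [Algebra ℚ F] (α : A →ₐ[ℚ] Module.End ℚ M) (x : F)
    (a : A) : Commute ((Algebra.ofId F (Module.End F (F ⊗[ℚ] M))) x)
      (((Module.End.baseChangeHom ℚ F M).comp α) a) := Algebra.commutes x _

/-- The action of `F ⊗ A` on `F ⊗ M`. -/
noncomputable def actS (F : Type*) [CommRing F] [Algebra ℚ F] (α : A →ₐ[ℚ] Module.End ℚ M) :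
    F ⊗[ℚ] A →ₐ[F] Module.End F (F ⊗[ℚ] M) :=
  Algebra.TensorProduct.lift (Algebra.ofId F _) ((Module.End.baseChangeHom ℚ F M).comp α)
    (actS_aux F α)

lemma actS_tmul (α : A →ₐ[ℚ] Module.End ℚ M) (x y : F) (a : A) (m : M) :
    actS F α (x ⊗ₜ a) (y ⊗ₜ m) = (x * y) ⊗ₜ α a m := by
  rw [actS, Algebra.TensorProduct.lift_tmul, Module.End.mul_apply]
  change (algebraMap F (Module.End F (F ⊗[ℚ] M)) x) ((α a).baseChange F (y ⊗ₜ m)) = _
  rw [LinearMap.baseChange_tmul, Module.algebraMap_end_apply, TensorProduct.smul_tmul', smul_eq_mul]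

lemma actS_one_tmul (α : A →ₐ[ℚ] Module.End ℚ M) (x : F ⊗[ℚ] A) (m : M) :
    actS F α x (1 ⊗ₜ m) = (LinearMap.lTensor F ((LinearMap.applyₗ m).comp α.toLinearMap)) x := by
  induction x with
  | zero => simp
  | tmul x a => rw [actS_tmul, mul_one]; rfl
  | add x y hx hy => rw [map_add, LinearMap.add_apply, hx, hy, map_add]

lemma bm_actS (φ : F →ₐ[ℚ] L) (α : A →ₐ[ℚ] Module.End ℚ M) (x : F ⊗[ℚ] A) (y : F ⊗[ℚ] M) :
    bm M φ (actS F α x y) = actS L α (bc A φ x) (bm M φ y) := by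
  induction x with
  | zero => simp
  | tmul x a =>
    induction y with
    | zero => simp
    | tmul y m => rw [actS_tmul, bm_tmul, bc_tmul, bm_tmul, actS_tmul, map_mul]
    | add y z hy hz => rw [map_add, map_add, map_add, map_add, hy, hz]
  | add x z hx hz => rw [map_add, LinearMap.add_apply, map_add, hx, hz, map_add, map_add,
      LinearMap.add_apply]

lemma one_tmul_eq_zero (hF : Function.Injective (algebraMap ℚ F)) {m : M}
    (h : (1 ⊗ₜ m : F ⊗[ℚ] M) = 0) : m = 0 := by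
  have h1 : bm M (Algebra.ofId ℚ F) (1 ⊗ₜ m) = bm M (Algebra.ofId ℚ F) 0 := by
    rw [bm_tmul, map_one, h, map_zero]
  have h2 := bm_injective (Algebra.ofId ℚ F) hF h1
  have h3 : TensorProduct.lid ℚ M (1 ⊗ₜ m) = 0 := by rw [h2, map_zero]
  rwa [TensorProduct.lid_tmul, one_smul] at h3

lemma one_tmul_inj (hF : Function.Injective (algebraMap ℚ F)) {m n : M}
    (h : (1 ⊗ₜ m : F ⊗[ℚ] M) = 1 ⊗ₜ n) : m = n := by
  rw [← sub_eq_zero]
  apply one_tmul_eq_zero hF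
  rw [TensorProduct.tmul_sub, h, sub_self]

lemma lTensor_eq_zero_of_mem {P : Submodule ℚ M} {f : M →ₗ[ℚ] N} (hf : ∀ m ∈ P, f m = 0)
    {x : F ⊗[ℚ] M} (hx : x ∈ P.baseChange F) : f.lTensor F x = 0 := by
  obtain ⟨y, rfl⟩ := hx
  induction y with
  | zero => simp
  | tmul x a =>
    rw [LinearMap.baseChange_tmul, LinearMap.lTensor_tmul]
    rw [show f (P.subtype a) = 0 from hf _ a.2, TensorProduct.tmul_zero]
  | add y z hy hz => rw [map_add, map_add, hy, hz, add_zero]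

/-- An element of `M` belongs to a subspace if it does so after extension of the scalars. -/
lemma mem_of_mem_baseChange (hF : Function.Injective (algebraMap ℚ F)) {P : Submodule ℚ M}
    {m : M} (h : (1 ⊗ₜ m : F ⊗[ℚ] M) ∈ P.baseChange F) : m ∈ P := by
  have h1 : LinearMap.lTensor F P.mkQ (1 ⊗ₜ m) = 0 :=
    lTensor_eq_zero_of_mem (fun m hm => by simpa using hm) h
  rw [LinearMap.lTensor_tmul] at h1
  have h2 := one_tmul_eq_zero hF h1
  simpa using h2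

lemma bm_mem (φ : F →ₐ[ℚ] L) {P : Submodule ℚ M} {x : F ⊗[ℚ] M} (hx : x ∈ P.baseChange F) :
    bm M φ x ∈ P.baseChange L := by
  obtain ⟨y, rfl⟩ := hx
  induction y with
  | zero => simp
  | tmul x a =>
    rw [LinearMap.baseChange_tmul, bm_tmul]
    exact Submodule.tmul_mem_baseChange_of_mem _ a.2
  | add y z hy hz => rw [map_add, map_add]; exact Submodule.add_mem _ hy hz

/-- A linear map into `F ⊗ N` maps the extension of `P` into a submodule as soon as it maps `P`. -/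
lemma lTensor_mem {P : Submodule ℚ M} {Q : Submodule ℚ N} {f : M →ₗ[ℚ] N}
    (hf : ∀ m ∈ P, f m ∈ Q) {x : F ⊗[ℚ] M} (hx : x ∈ P.baseChange F) :
    f.lTensor F x ∈ Q.baseChange F := by
  obtain ⟨y, rfl⟩ := hx
  induction y with
  | zero => simp
  | tmul x a =>
    rw [LinearMap.baseChange_tmul, LinearMap.lTensor_tmul]
    exact Submodule.tmul_mem_baseChange_of_mem _ (hf _ a.2)
  | add y z hy hz => rw [map_add, map_add]; exact Submodule.add_mem _ hy hz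

/-- The extension of a two-sided ideal is a two-sided ideal. -/
lemma mul_mem_baseChange {P : Submodule ℚ A} (hP : ∀ a, ∀ p ∈ P, a * p ∈ P) (a : F ⊗[ℚ] A)
    {x : F ⊗[ℚ] A} (hx : x ∈ P.baseChange F) : a * x ∈ P.baseChange F := by
  obtain ⟨y, rfl⟩ := hx
  induction y with
  | zero => simp
  | tmul z p =>
    rw [LinearMap.baseChange_tmul]
    induction a with
    | zero => simp
    | tmul w a =>
      rw [Algebra.TensorProduct.tmul_mul_tmul]
      exact Submodule.tmul_mem_baseChange_of_mem _ (hP _ _ p.2)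
    | add b c hb hc => rw [add_mul]; exact Submodule.add_mem _ hb hc
  | add y z hy hz => rw [map_add, mul_add]; exact Submodule.add_mem _ hy hz

lemma mem_baseChange_mul {P : Submodule ℚ A} (hP : ∀ a, ∀ p ∈ P, p * a ∈ P) (a : F ⊗[ℚ] A)
    {x : F ⊗[ℚ] A} (hx : x ∈ P.baseChange F) : x * a ∈ P.baseChange F := by
  obtain ⟨y, rfl⟩ := hx
  induction y with
  | zero => simp
  | tmul z p =>
    rw [LinearMap.baseChange_tmul]
    induction a with
    | zero => simp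
    | tmul w a =>
      rw [Algebra.TensorProduct.tmul_mul_tmul]
      exact Submodule.tmul_mem_baseChange_of_mem _ (hP _ _ p.2)
    | add b c hb hc => rw [mul_add]; exact Submodule.add_mem _ hb hc
  | add y z hy hz => rw [map_add, add_mul]; exact Submodule.add_mem _ hy hz

lemma actS_mem {α : A →ₐ[ℚ] Module.End ℚ M} {P : Submodule ℚ M} (hP : ∀ a, ∀ m ∈ P, α a m ∈ P)
    (a : F ⊗[ℚ] A) {x : F ⊗[ℚ] M} (hx : x ∈ P.baseChange F) : actS F α a x ∈ P.baseChange F := by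
  obtain ⟨y, rfl⟩ := hx
  induction y with
  | zero => simp
  | tmul z p =>
    rw [LinearMap.baseChange_tmul]
    induction a with
    | zero => simp
    | tmul w a =>
      rw [actS_tmul]
      exact Submodule.tmul_mem_baseChange_of_mem _ (hP _ _ p.2)
    | add b c hb hc => rw [map_add, LinearMap.add_apply]; exact Submodule.add_mem _ hb hc
  | add y z hy hz => rw [map_add, map_add]; exact Submodule.add_mem _ hy hz

/-- An element of `F ⊗ A` which kills `P` kills the extension of `P`. -/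
lemma actS_eq_zero {α : A →ₐ[ℚ] Module.End ℚ M} {P : Submodule ℚ M} {a : F ⊗[ℚ] A}
    (ha : ∀ m ∈ P, actS F α a (1 ⊗ₜ m) = 0) {x : F ⊗[ℚ] M} (hx : x ∈ P.baseChange F) :
    actS F α a x = 0 := by
  obtain ⟨y, rfl⟩ := hx
  induction y with
  | zero => simp
  | tmul z p =>
    rw [LinearMap.baseChange_tmul]
    have h1 : (z ⊗ₜ (P.subtype p) : F ⊗[ℚ] M) = z • (1 ⊗ₜ (P.subtype p)) := by
      rw [TensorProduct.smul_tmul', smul_eq_mul, mul_one]
    have h2 : actS F α a (1 ⊗ₜ (P.subtype p)) = 0 := ha _ p.2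
    rw [h1, map_smul, h2, smul_zero]
  | add y z hy hz => rw [map_add, map_add, hy, hz, add_zero]

end basic

section twist

variable {B : Type*} [Ring B] [Algebra ℚ B] {L : Type*} [Field L] [Algebra ℚ L]
  [FiniteDimensional ℚ L] [IsGalois ℚ L]

omit [FiniteDimensional ℚ L] [IsGalois ℚ L] in
lemma repr_bc {ι : Type*} (b : Module.Basis ι ℚ B) (σ : L ≃ₐ[ℚ] L) (x : L ⊗[ℚ] B) (i : ι) :
    (Algebra.TensorProduct.basis L b).repr (bc B σ.toAlgHom x) i =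
      σ ((Algebra.TensorProduct.basis L b).repr x i) := by
  induction x with
  | zero => simp
  | tmul x a => 
    rw [bc_tmul]
    simp [Algebra.TensorProduct.basis_repr_tmul]
  | add x y hx hy =>
    rw [map_add, map_add, Finsupp.add_apply, hx, hy, map_add, Finsupp.add_apply, map_add]

/-- The elements which are fixed by the Galois group are rational. -/
lemma exists_of_fixed (x : L ⊗[ℚ] B) (hx : ∀ σ : L ≃ₐ[ℚ] L, bc B σ.toAlgHom x = x) :
    ∃ b : B, x = 1 ⊗ₜ b := by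
  let b := Module.Basis.ofVectorSpace ℚ B
  let c := Algebra.TensorProduct.basis L b
  have h1 : ∀ i, ∃ q : ℚ, algebraMap ℚ L q = c.repr x i := by
    intro i
    have h2 : ∀ σ : L ≃ₐ[ℚ] L, σ (c.repr x i) = c.repr x i := by
      intro σ
      rw [← repr_bc b σ x i, hx σ]
    exact (IsGalois.mem_range_algebraMap_iff_fixed (F := ℚ) (E := L) (c.repr x i)).2 h2
  choose q hq using h1
  refine ⟨∑ i ∈ (c.repr x).support, q i • b i, ?_⟩
  have h3 : x = ∑ i ∈ (c.repr x).support, c.repr x i • c i := by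
    have h4 := c.linearCombination_repr x
    rw [Finsupp.linearCombination_apply, Finsupp.sum] at h4
    exact h4.symm
  rw [TensorProduct.tmul_sum]
  refine h3.trans (Finset.sum_congr rfl fun i _ => ?_)
  rw [← hq i, Algebra.TensorProduct.basis_apply, TensorProduct.tmul_smul, algebraMap_smul]

open Classical in
/-- Elements `a`, `c` with `Tr(a σ(c)) = δ_{σ, 1}`: a normal basis and its dual basis. -/
lemma exists_normal_dual (L : Type*) [Field L] [Algebra ℚ L] [FiniteDimensional ℚ L]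
    [IsGalois ℚ L] : ∃ a c : L, ∀ κ : L ≃ₐ[ℚ] L,
      ∑ σ : L ≃ₐ[ℚ] L, σ a * σ (κ c) = if κ = 1 then 1 else 0 := by
  classical
  let b := IsGalois.normalBasis ℚ L
  let d := (Algebra.traceForm ℚ L).dualBasis (traceForm_nondegenerate ℚ L) b
  refine ⟨b 1, d 1, fun κ => ?_⟩
  have h1 : ∑ σ : L ≃ₐ[ℚ] L, σ (b 1) * σ (κ (d 1)) =
      algebraMap ℚ L (Algebra.trace ℚ L (b 1 * κ (d 1))) := by
    rw [trace_eq_sum_automorphisms]
    simp only [map_mul]
  have h2 : Algebra.trace ℚ L (b 1 * κ (d 1)) = Algebra.trace ℚ L (κ⁻¹ (b 1) * d 1) := by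
    have h3 := Algebra.trace_eq_of_algEquiv (κ⁻¹) (b 1 * κ (d 1))
    rw [← h3, map_mul]
    congr 2
    exact κ.symm_apply_apply (d 1)
  have h4 : κ⁻¹ (b 1) = b κ⁻¹ := (IsGalois.normalBasis_apply (K := ℚ) (L := L) κ⁻¹).symm
  have h5 := (Algebra.traceForm ℚ L).apply_dualBasis_right (traceForm_nondegenerate ℚ L)
    (Algebra.traceForm_isSymm ℚ) b κ⁻¹ 1
  rw [h1, h2, h4]
  rw [Algebra.traceForm_apply] at h5
  have h6 : Algebra.trace ℚ L (b κ⁻¹ * d 1) = if κ⁻¹ = 1 then 1 else 0 := h5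
  rw [h6]
  by_cases h : κ = 1
  · rw [if_pos h, if_pos (by rw [h, inv_one]), map_one]
  · rw [if_neg h, if_neg (by simpa using h), map_zero]

open Classical in
omit [IsGalois ℚ L] in
lemma normal_dual_symm {a c : L}
    (h : ∀ κ : L ≃ₐ[ℚ] L, ∑ σ : L ≃ₐ[ℚ] L, σ a * σ (κ c) = if κ = 1 then 1 else 0)
    (κ : L ≃ₐ[ℚ] L) : ∑ σ : L ≃ₐ[ℚ] L, κ (σ c) * σ a = if κ = 1 then 1 else 0 := by
  let U : Matrix (L ≃ₐ[ℚ] L) (L ≃ₐ[ℚ] L) L := fun τ ρ => ρ (τ a)
  let V : Matrix (L ≃ₐ[ℚ] L) (L ≃ₐ[ℚ] L) L := fun ρ κ => ρ (κ c)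
  have h1 : U * V = 1 := by
    ext τ κ
    rw [Matrix.mul_apply, Matrix.one_apply]
    have h2 := h (τ⁻¹ * κ)
    have h3 : ∑ ρ, U τ ρ * V ρ κ = ∑ σ : L ≃ₐ[ℚ] L, σ a * σ ((τ⁻¹ * κ) c) := by
      refine Fintype.sum_equiv (Equiv.mulRight τ) _ _ fun ρ => ?_
      change ρ (τ a) * ρ (κ c) = ρ (τ a) * ρ (τ (τ⁻¹ (κ c)))
      congr 2
      exact (τ.apply_symm_apply (κ c)).symm
    rw [h3, h2]
    by_cases h4 : τ = κ
    · rw [if_pos h4, if_pos (by rw [h4, inv_mul_cancel])]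
    · rw [if_neg h4, if_neg (by rwa [inv_mul_eq_one])]
  have h2 : V * U = 1 := mul_eq_one_comm.1 h1
  have h3 := congrFun (congrFun h2 κ) 1
  rw [Matrix.mul_apply, Matrix.one_apply] at h3
  exact h3

/-- **Descent by twisting.** Let `P` be a homomorphism from the Galois group to the units of `B`,
and let `D` be an element of `L ⊗ B` with `σ(D) = P(σ)⁻¹ D P(σ)`. Then `D` is conjugate to a
rational element, by a linear combination of the `P(σ)`. -/
theorem descent (P : (L ≃ₐ[ℚ] L) →* B) :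
    ∃ g g' : L ⊗[ℚ] B, g * g' = 1 ∧ g' * g = 1 ∧
      (∃ u : (L ≃ₐ[ℚ] L) → L, g = ∑ σ, u σ ⊗ₜ P σ) ∧
      (∃ u : (L ≃ₐ[ℚ] L) → L, g' = ∑ σ, u σ ⊗ₜ P σ) ∧
      ∀ D : L ⊗[ℚ] B, (∀ σ : L ≃ₐ[ℚ] L, (1 ⊗ₜ P σ) * bc B σ.toAlgHom D = D * (1 ⊗ₜ P σ)) →
        ∃ D₀ : B, g * D * g' = 1 ⊗ₜ D₀ := by
  classical
  obtain ⟨a, c, hac⟩ := exists_normal_dual L
  have hca := normal_dual_symm hac
  have hP : ∀ σ : L ≃ₐ[ℚ] L, P σ⁻¹ * P σ = 1 := fun σ => by
    rw [← map_mul, inv_mul_cancel, map_one]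
  have hP' : ∀ σ : L ≃ₐ[ℚ] L, P σ * P σ⁻¹ = 1 := fun σ => by
    rw [← map_mul, mul_inv_cancel, map_one]
  let g : L ⊗[ℚ] B := ∑ σ : L ≃ₐ[ℚ] L, σ a ⊗ₜ P σ⁻¹
  let g' : L ⊗[ℚ] B := ∑ σ : L ≃ₐ[ℚ] L, σ c ⊗ₜ P σ
  have hg : ∀ τ : L ≃ₐ[ℚ] L, bc B τ.toAlgHom g = g * (1 ⊗ₜ P τ) := by
    intro τ
    simp only [g, map_sum, bc_tmul, Finset.sum_mul, Algebra.TensorProduct.tmul_mul_tmul, mul_one]
    refine Fintype.sum_equiv (Equiv.mulLeft τ) _ _ fun σ => ?_
    change τ (σ a) ⊗ₜ P σ⁻¹ = τ (σ a) ⊗ₜ (P (τ * σ)⁻¹ * P τ)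
    rw [mul_inv_rev, map_mul, mul_assoc, hP, mul_one]
  have hg' : ∀ τ : L ≃ₐ[ℚ] L, (1 ⊗ₜ P τ) * bc B τ.toAlgHom g' = g' := by
    intro τ
    simp only [g', map_sum, bc_tmul, Finset.mul_sum, Algebra.TensorProduct.tmul_mul_tmul, one_mul]
    refine Fintype.sum_equiv (Equiv.mulLeft τ) _ _ fun σ => ?_
    change τ (σ c) ⊗ₜ (P τ * P σ) = τ (σ c) ⊗ₜ P (τ * σ)
    rw [map_mul]
  have e1 : g * g' = 1 := by
    have h1 : g * g' = ∑ κ : L ≃ₐ[ℚ] L, (∑ σ : L ≃ₐ[ℚ] L, σ a * σ (κ c)) ⊗ₜ[ℚ] P κ := by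
      rw [show g * g' = ∑ σ : L ≃ₐ[ℚ] L, ∑ ρ : L ≃ₐ[ℚ] L, (σ a ⊗ₜ[ℚ] P σ⁻¹) * (ρ c ⊗ₜ[ℚ] P ρ) from
        Finset.sum_mul_sum _ _ _ _]
      simp only [TensorProduct.sum_tmul]
      rw [Finset.sum_comm (s := Finset.univ) (t := Finset.univ)
        (f := fun (κ σ : L ≃ₐ[ℚ] L) => (σ a * σ (κ c)) ⊗ₜ[ℚ] P κ)]
      refine Finset.sum_congr rfl fun σ _ => ?_
      refine (Fintype.sum_equiv (Equiv.mulLeft σ) _ _ fun κ => ?_).symm
      change (σ a * σ (κ c)) ⊗ₜ P κ = (σ a ⊗ₜ[ℚ] P σ⁻¹) * (σ (κ c) ⊗ₜ[ℚ] P (σ * κ))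
      rw [Algebra.TensorProduct.tmul_mul_tmul, ← map_mul P, inv_mul_cancel_left]
    rw [h1, Finset.sum_eq_single 1]
    · rw [hac, if_pos rfl, map_one]; rfl
    · intro κ _ hκ
      rw [hac, if_neg hκ, TensorProduct.zero_tmul]
    · intro h
      exact absurd (Finset.mem_univ _) h
  have e2 : g' * g = 1 := by
    have h1 : g' * g = ∑ κ : L ≃ₐ[ℚ] L, (∑ σ : L ≃ₐ[ℚ] L, κ (σ c) * σ a) ⊗ₜ[ℚ] P κ := by
      rw [show g' * g = ∑ ρ : L ≃ₐ[ℚ] L, ∑ σ : L ≃ₐ[ℚ] L, (ρ c ⊗ₜ[ℚ] P ρ) * (σ a ⊗ₜ[ℚ] P σ⁻¹) from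
        Finset.sum_mul_sum _ _ _ _]
      simp only [TensorProduct.sum_tmul]
      rw [Finset.sum_comm, Finset.sum_comm (s := Finset.univ) (t := Finset.univ)
        (f := fun (κ σ : L ≃ₐ[ℚ] L) => (κ (σ c) * σ a) ⊗ₜ[ℚ] P κ)]
      refine Finset.sum_congr rfl fun σ _ => ?_
      refine (Fintype.sum_equiv (Equiv.mulRight σ) _ _ fun κ => ?_).symm
      change (κ (σ c) * σ a) ⊗ₜ P κ = (κ (σ c) ⊗ₜ[ℚ] P (κ * σ)) * (σ a ⊗ₜ[ℚ] P σ⁻¹)
      rw [Algebra.TensorProduct.tmul_mul_tmul, ← map_mul P, mul_inv_cancel_right]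
    rw [h1, Finset.sum_eq_single 1]
    · rw [hca, if_pos rfl, map_one]; rfl
    · intro κ _ hκ
      rw [hca, if_neg hκ, TensorProduct.zero_tmul]
    · intro h
      exact absurd (Finset.mem_univ _) h
  refine ⟨g, g', e1, e2, ⟨fun σ => σ⁻¹ a, ?_⟩, ⟨fun σ => σ c, rfl⟩, ?_⟩
  · refine Fintype.sum_equiv (Equiv.inv _) _ _ fun σ => ?_
    change σ a ⊗ₜ P σ⁻¹ = (σ⁻¹)⁻¹ a ⊗ₜ P σ⁻¹
    rw [inv_inv]
  · intro D hD
    apply exists_of_fixed
    intro τ
    calc bc B τ.toAlgHom (g * D * g')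
        = g * ((1 ⊗ₜ P τ) * bc B τ.toAlgHom D) * bc B τ.toAlgHom g' := by
          rw [map_mul, map_mul, hg]
          simp only [mul_assoc]
      _ = g * D * ((1 ⊗ₜ P τ) * bc B τ.toAlgHom g') := by
          rw [hD]
          simp only [mul_assoc]
      _ = g * D * g' := by rw [hg']

end twist

end Pool.Agent.H838.CF
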