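import Mathlib

/-!
# Degree operators and complete systems of orthogonal idempotents
-/

set_option autoImplicit false

namespace Pool.Agent.H838.CF

open Polynomial

section lag

variable {R : Type*} [Ring R] [Algebra ℚ R]

/-- The polynomial `X (X - 1) ⋯ (X - M)`. -/
noncomputable def nod (M : ℕ) : ℚ[X] := Lagrange.nodal (Finset.range (M + 1)) fun i => (i : ℚ)

/-- The Lagrange interpolation polynomials for the nodes `0, …, M`. -/
noncomputable def lag (M n : ℕ) : ℚ[X] :=
  if n ≤ M then Lagrange.basis (Finset.range (M + 1)) (fun i => (i : ℚ)) n else 0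

lemma inj_nodes (M : ℕ) : Set.InjOn (fun i : ℕ => (i : ℚ)) (Finset.range (M + 1)) :=
  fun _ _ _ _ h => Nat.cast_injective h

/-- The eigenvalues of `a` are the numbers `0, …, M`. -/
def Sp (M : ℕ) (a : R) : Prop := aeval a (nod M) = 0

lemma eval_lag {M n m : ℕ} (hm : m ≤ M) : (lag M n).eval (m : ℚ) = if m = n then 1 else 0 := by
  unfold lag
  split_ifs with h1 h2 h2
  · subst h2
    exact Lagrange.eval_basis_self (inj_nodes M) (Finset.mem_range.2 (by omega))
  · exact Lagrange.eval_basis_of_ne (v := fun i : ℕ => (i : ℚ)) (Ne.symm h2)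
      (Finset.mem_range.2 (by omega))
  · omega
  · exact eval_zero

/-- Polynomials which vanish at `0, …, M` vanish at `a`. -/
lemma aeval_eq_zero {M : ℕ} {a : R} (ha : Sp M a) {P : ℚ[X]}
    (hP : ∀ m : ℕ, m ≤ M → P.eval (m : ℚ) = 0) : aeval a P = 0 := by
  have h : nod M ∣ P := by
    unfold nod
    rw [Lagrange.nodal_eq]
    refine Finset.prod_dvd_of_coprime (fun i _ j _ hij => ?_) fun i hi => ?_
    · exact Polynomial.pairwise_coprime_X_sub_C Nat.cast_injective hij
    · rw [dvd_iff_isRoot]
      exact hP i (by rw [Finset.mem_range] at hi; omega)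
  obtain ⟨Q, rfl⟩ := h
  rw [map_mul, show aeval a (nod M) = 0 from ha, zero_mul]

lemma aeval_eq {M : ℕ} {a : R} (ha : Sp M a) {P Q : ℚ[X]}
    (hP : ∀ m : ℕ, m ≤ M → P.eval (m : ℚ) = Q.eval (m : ℚ)) : aeval a P = aeval a Q := by
  rw [← sub_eq_zero, ← map_sub]
  exact aeval_eq_zero ha fun m hm => by rw [eval_sub, hP m hm, sub_self]

/-- The idempotents attached to `a`. -/
noncomputable def idem (M : ℕ) (a : R) (n : ℕ) : R := aeval a (lag M n)

lemma idem_mul {M : ℕ} {a : R} (ha : Sp M a) (i j : ℕ) :
    idem M a i * idem M a j = if i = j then idem M a i else 0 := by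
  unfold idem
  rw [← map_mul]
  split_ifs with h
  · subst h
    refine aeval_eq ha fun m hm => ?_
    rw [eval_mul, eval_lag hm]
    split_ifs <;> simp
  · refine aeval_eq_zero ha fun m hm => ?_
    rw [eval_mul, eval_lag hm, eval_lag hm]
    split_ifs with h1 h2
    · exact absurd (h1.symm.trans h2) h
    all_goals simp

lemma idem_out {M : ℕ} {a : R} {n : ℕ} (hn : M < n) : idem M a n = 0 := by
  unfold idem lag
  rw [if_neg (by omega), map_zero]

lemma sum_idem_smul {M : ℕ} {a : R} (ha : Sp M a) (P : ℚ[X]) :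
    aeval a P = ∑ n ∈ Finset.range (M + 1), P.eval (n : ℚ) • idem M a n := by
  have h : aeval a P = aeval a (∑ n ∈ Finset.range (M + 1), P.eval (n : ℚ) • lag M n) := by
    refine aeval_eq ha fun m hm => ?_
    rw [eval_finsetSum, Finset.sum_eq_single m]
    · rw [eval_smul, eval_lag hm, if_pos rfl, smul_eq_mul, mul_one]
    · intro n _ hn
      rw [eval_smul, eval_lag hm, if_neg (Ne.symm hn), smul_zero]
    · intro h
      exact absurd (Finset.mem_range.2 (by omega)) h
  rw [h, map_sum]
  exact Finset.sum_congr rfl fun n _ => map_smul _ _ _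

lemma sum_idem {M : ℕ} {a : R} (ha : Sp M a) : ∑ n ∈ Finset.range (M + 1), idem M a n = 1 := by
  have h := sum_idem_smul ha 1
  rw [map_one] at h
  rw [h]
  exact Finset.sum_congr rfl fun n _ => by rw [eval_one, one_smul]

lemma mul_idem {M : ℕ} {a : R} (ha : Sp M a) (n : ℕ) : a * idem M a n = (n : ℚ) • idem M a n := by
  by_cases hn : n ≤ M
  · have h1 : a * idem M a n = aeval a (X * lag M n) := by
      rw [map_mul, aeval_X]; rfl
    have h2 : (n : ℚ) • idem M a n = aeval a ((n : ℚ) • lag M n) := (map_smul _ _ _).symm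
    rw [h1, h2]
    refine aeval_eq ha fun m hm => ?_
    rw [eval_mul, eval_X, eval_smul, eval_lag hm]
    split_ifs with h
    · rw [h, smul_eq_mul]
    · rw [mul_zero, smul_zero]
  · rw [idem_out (by omega), mul_zero, smul_zero]

/-- A system of orthogonal idempotents with sum one. -/
structure Sys (M : ℕ) (p : ℕ → R) : Prop where
  mul : ∀ i j, p i * p j = if i = j then p i else 0
  out : ∀ i, M < i → p i = 0
  sum : ∑ i ∈ Finset.range (M + 1), p i = 1

lemma sys_idem {M : ℕ} {a : R} (ha : Sp M a) : Sys M (idem M a) :=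
  ⟨idem_mul ha, fun _ h => idem_out h, sum_idem ha⟩

/-- The degree operator of a system. -/
noncomputable def dop (M : ℕ) (p : ℕ → R) : R := ∑ n ∈ Finset.range (M + 1), (n : ℚ) • p n

lemma Sys.aeval_dop {M : ℕ} {p : ℕ → R} (h : Sys M p) (P : ℚ[X]) :
    aeval (dop M p) P = ∑ n ∈ Finset.range (M + 1), P.eval (n : ℚ) • p n := by
  have hmul : ∀ n ∈ Finset.range (M + 1), dop M p * p n = (n : ℚ) • p n := by
    intro n hn
    rw [dop, Finset.sum_mul, Finset.sum_eq_single n]
    · rw [smul_mul_assoc, h.mul, if_pos rfl]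
    · intro m _ hm
      rw [smul_mul_assoc, h.mul, if_neg hm, smul_zero]
    · exact fun h => absurd hn h
  have hk : ∀ (P : ℚ[X]), ∀ n ∈ Finset.range (M + 1),
      aeval (dop M p) P * p n = P.eval (n : ℚ) • p n := by
    intro P n hn
    induction P using Polynomial.induction_on' with
    | add P Q hP hQ => rw [map_add, add_mul, hP, hQ, eval_add, add_smul]
    | monomial k c =>
      rw [aeval_monomial, eval_monomial]
      have h2 : dop M p ^ k * p n = ((n : ℚ) ^ k) • p n := by
        induction k with
        | zero => rw [pow_zero, pow_zero, one_mul, one_smul]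
        | succ k ih =>
          rw [pow_succ', mul_assoc, ih, mul_smul_comm, hmul n hn, smul_smul, pow_succ]
      rw [mul_assoc, h2, ← Algebra.smul_def, smul_smul]
  rw [← mul_one (aeval (dop M p) P), ← h.sum, Finset.mul_sum]
  exact Finset.sum_congr rfl fun n hn => hk P n hn

lemma Sys.sp {M : ℕ} {p : ℕ → R} (h : Sys M p) : Sp M (dop M p) := by
  rw [Sp, h.aeval_dop]
  refine Finset.sum_eq_zero fun n hn => ?_
  have h1 : (nod M).eval (n : ℚ) = 0 := by
    rw [nod]
    exact Lagrange.eval_nodal_at_node hn
  rw [h1, zero_smul]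

lemma Sys.aeval_lag {M : ℕ} {p : ℕ → R} (h : Sys M p) {M' n : ℕ} (hM : M ≤ M') :
    aeval (dop M p) (lag M' n) = p n := by
  rw [h.aeval_dop]
  by_cases hn : n ≤ M
  · rw [Finset.sum_eq_single n]
    · rw [eval_lag (by omega), if_pos rfl, one_smul]
    · intro m hm hmn
      rw [Finset.mem_range] at hm
      rw [eval_lag (by omega), if_neg hmn, zero_smul]
    · intro h1
      exact absurd (Finset.mem_range.2 (by omega)) h1
  · rw [h.out n (by omega)]
    refine Finset.sum_eq_zero fun m hm => ?_
    rw [Finset.mem_range] at hm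
    rw [eval_lag (by omega), if_neg (by omega), zero_smul]

lemma Sp.mono {M M' : ℕ} {a : R} (h : Sp M a) (hM : M ≤ M') : Sp M' a := by
  refine aeval_eq_zero h fun m hm => ?_
  rw [nod]
  exact Lagrange.eval_nodal_at_node (v := fun i : ℕ => (i : ℚ)) (Finset.mem_range.2 (by omega))

lemma comm_aeval {a b : R} (h : Commute a b) (P : ℚ[X]) : Commute (aeval a P) b := by
  induction P using Polynomial.induction_on' with
  | add P Q hP hQ => rw [map_add]; exact hP.add_left hQ
  | monomial k c =>
    rw [aeval_monomial]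
    exact (Algebra.commute_algebraMap_left c b).mul_left (h.pow_left k)

/-- The sum of commuting degree operators. -/
lemma Sp.add {M N : ℕ} {a b : R} (ha : Sp M a) (hb : Sp N b) (hab : Commute a b) :
    Sp (M + N) (a + b) := by
  have hc : ∀ n m, (a + b) * (idem M a n * idem N b m) =
      ((n + m : ℕ) : ℚ) • (idem M a n * idem N b m) := by
    intro n m
    have h1 : b * idem M a n = idem M a n * b := (comm_aeval hab (lag M n)).eq.symm
    rw [add_mul, ← mul_assoc a, mul_idem ha, ← mul_assoc b, h1, mul_assoc _ b, mul_idem hb,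
      smul_mul_assoc, mul_smul_comm, ← add_smul, Nat.cast_add]
  have hk : ∀ (P : ℚ[X]) (n m : ℕ), aeval (a + b) P * (idem M a n * idem N b m) =
      P.eval ((n + m : ℕ) : ℚ) • (idem M a n * idem N b m) := by
    intro P n m
    induction P using Polynomial.induction_on' with
    | add P Q hP hQ => rw [map_add, add_mul, hP, hQ, eval_add, add_smul]
    | monomial k c =>
      rw [aeval_monomial, eval_monomial]
      have h2 : (a + b) ^ k * (idem M a n * idem N b m) =
          (((n + m : ℕ) : ℚ) ^ k) • (idem M a n * idem N b m) := by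
        induction k with
        | zero => rw [pow_zero, pow_zero, one_mul, one_smul]
        | succ k ih => rw [pow_succ', mul_assoc, ih, mul_smul_comm, hc, smul_smul, pow_succ]
      rw [mul_assoc, h2, ← Algebra.smul_def, smul_smul]
  have h1 : (1 : R) = ∑ n ∈ Finset.range (M + 1), ∑ m ∈ Finset.range (N + 1),
      idem M a n * idem N b m := by
    rw [← Finset.sum_mul_sum, sum_idem ha, sum_idem hb, mul_one]
  rw [Sp, ← mul_one (aeval (a + b) (nod (M + N))), h1, Finset.mul_sum]
  refine Finset.sum_eq_zero fun n hn => ?_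
  rw [Finset.mul_sum]
  refine Finset.sum_eq_zero fun m hm => ?_
  rw [Finset.mem_range] at hn hm
  rw [hk]
  have h2 : (nod (M + N)).eval ((n + m : ℕ) : ℚ) = 0 := by
    rw [nod]
    exact Lagrange.eval_nodal_at_node (v := fun i : ℕ => (i : ℚ)) (Finset.mem_range.2 (by omega))
  rw [h2, zero_smul]

lemma Sp.zero : Sp (R := R) 0 0 := by
  rw [Sp, nod]
  simp [Lagrange.nodal_eq]

/-- Sums of pairwise commuting degree operators. -/
lemma Sp.sum {ι : Type*} (s : Finset ι) {M : ℕ} {a : ι → R} (ha : ∀ i, Sp M (a i))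
    (hab : ∀ i j, i ≠ j → Commute (a i) (a j)) : Sp (s.card * M) (∑ i ∈ s, a i) := by
  classical
  induction s using Finset.induction_on with
  | empty => rw [Finset.card_empty, zero_mul, Finset.sum_empty]; exact Sp.zero
  | insert i s hi ih =>
    rw [Finset.card_insert_of_notMem hi, Finset.sum_insert hi]
    have h := (ha i).add ih (Commute.sum_right _ _ _ fun j hj => hab i j fun h => hi (h ▸ hj))
    rwa [show M + s.card * M = (s.card + 1) * M by ring] at h

lemma Sp.map {R' : Type*} [Ring R'] [Algebra ℚ R'] (f : R →ₐ[ℚ] R') {M : ℕ} {a : R}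
    (h : Sp M a) : Sp M (f a) := by
  rw [Sp, Polynomial.aeval_algHom_apply, show aeval a (nod M) = 0 from h, map_zero]

lemma idem_map {R' : Type*} [Ring R'] [Algebra ℚ R'] (f : R →ₐ[ℚ] R') (M : ℕ) (a : R) (n : ℕ) :
    f (idem M a n) = idem M (f a) n := by
  rw [idem, idem, Polynomial.aeval_algHom_apply]

lemma aeval_conj {a g g' : R} (h : g' * g = 1) (h' : g * g' = 1) (P : ℚ[X]) :
    aeval (g * a * g') P = g * aeval a P * g' := by
  induction P using Polynomial.induction_on' with
  | add P Q hP hQ => rw [map_add, map_add, hP, hQ, mul_add, add_mul]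
  | monomial k c =>
    rw [aeval_monomial, aeval_monomial]
    have h2 : (g * a * g') ^ k = g * a ^ k * g' := by
      induction k with
      | zero => rw [pow_zero, pow_zero, mul_one, h']
      | succ k ih =>
        rw [pow_succ, ih, pow_succ]
        calc g * a ^ k * g' * (g * a * g') = g * a ^ k * (g' * g) * a * g' := by
              simp only [mul_assoc]
          _ = g * (a ^ k * a) * g' := by rw [h, mul_one]; simp only [mul_assoc]
    rw [h2, ← mul_assoc, ← mul_assoc, (Algebra.commutes c g), mul_assoc g, mul_assoc g]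

end lag

end Pool.Agent.H838.CF
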