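import Pool.Agent.H838.CFAlg
import Pool.Agent.H838.CFLag

/-!
# Anti-involutions and self-dual degree operators
-/

set_option autoImplicit false

namespace Pool.Agent.H838.CF

open TensorProduct Polynomial

section ring

variable {R : Type*} [Ring R] [Algebra ℚ R]

/-- The `ℚ`-linear map `t` is an anti-homomorphism of rings. -/
structure IsAnti (t : R →ₗ[ℚ] R) : Prop where
  one : t 1 = 1
  mul : ∀ a b, t (a * b) = t b * t a

lemma IsAnti.pow {t : R →ₗ[ℚ] R} (h : IsAnti t) (a : R) (n : ℕ) : t (a ^ n) = t a ^ n := by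
  induction n with
  | zero => rw [pow_zero, pow_zero, h.one]
  | succ n ih => rw [pow_succ, h.mul, ih, pow_succ']

lemma IsAnti.map_aeval {t : R →ₗ[ℚ] R} (h : IsAnti t) (a : R) (P : ℚ[X]) :
    t (aeval a P) = aeval (t a) P := by
  induction P using Polynomial.induction_on' with
  | add P Q hP hQ => rw [map_add, map_add, map_add, hP, hQ]
  | monomial k c =>
    rw [aeval_monomial, aeval_monomial, ← Algebra.smul_def, ← Algebra.smul_def, map_smul, h.pow]

lemma IsAnti.sp {t : R →ₗ[ℚ] R} (h : IsAnti t) {a : R} {M : ℕ} (ha : Sp M a) : Sp M (t a) := by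
  rw [Sp, ← h.map_aeval, show aeval a (nod M) = 0 from ha, map_zero]

/-- The polynomial `M - X`. -/
noncomputable def flip (M : ℕ) : ℚ[X] := C (M : ℚ) - X

lemma aeval_flip (M : ℕ) (a : R) : aeval a (flip M) = algebraMap ℚ R M - a := by
  rw [flip, map_sub, aeval_C, aeval_X]

lemma eval_flip {M m : ℕ} (hm : m ≤ M) : (flip M).eval (m : ℚ) = ((M - m : ℕ) : ℚ) := by
  rw [flip, eval_sub, eval_C, eval_X, Nat.cast_sub hm]

lemma Sp.flip {M : ℕ} {a : R} (ha : Sp M a) : Sp M (algebraMap ℚ R M - a) := by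
  rw [Sp, ← aeval_flip, ← aeval_comp]
  refine aeval_eq_zero ha fun m hm => ?_
  rw [eval_comp, eval_flip hm, nod]
  exact Lagrange.eval_nodal_at_node (v := fun i : ℕ => (i : ℚ)) (Finset.mem_range.2 (by omega))

lemma idem_flip {M : ℕ} {a : R} (ha : Sp M a) {n : ℕ} (hn : n ≤ M) :
    idem M (algebraMap ℚ R M - a) n = idem M a (M - n) := by
  rw [idem, idem, ← aeval_flip, ← aeval_comp]
  refine aeval_eq ha fun m hm => ?_
  rw [eval_comp, eval_flip hm, eval_lag (by omega), eval_lag hm]
  by_cases h : M - m = n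
  · rw [if_pos h, if_pos (by omega)]
  · rw [if_neg h, if_neg (by omega)]

/-- Polynomials in congruent elements are congruent. -/
lemma aeval_sub_mem {F : Type*} [CommRing F] [Module F R] {N : Submodule F R}
    (hl : ∀ b, ∀ x ∈ N, b * x ∈ N) (hr : ∀ b, ∀ x ∈ N, x * b ∈ N) {x y : R} (h : x - y ∈ N)
    (P : ℚ[X]) : aeval x P - aeval y P ∈ N := by
  induction P using Polynomial.induction_on' with
  | add P Q hP hQ =>
    rw [map_add, map_add, add_sub_add_comm]
    exact Submodule.add_mem _ hP hQ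
  | monomial k c =>
    have h1 : x ^ k - y ^ k ∈ N := by
      induction k with
      | zero => rw [pow_zero, pow_zero, sub_self]; exact Submodule.zero_mem _
      | succ k ih =>
        have h2 : x ^ (k + 1) - y ^ (k + 1) = x * (x ^ k - y ^ k) + (x - y) * y ^ k := by
          rw [pow_succ', pow_succ', mul_sub, sub_mul]
          abel
        rw [h2]
        exact Submodule.add_mem _ (hl _ _ ih) (hr _ _ h)
    rw [aeval_monomial, aeval_monomial, ← mul_sub]
    exact hl _ _ h1

/-- **Conjugation by a square root of the exchange.** Let `t D = M - τ D τ`, `τ` a symmetric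
involution, and `t S * S = S * t S = τ`. Then `D' = S D S⁻¹` satisfies `t D' = M - D'`. -/
theorem selfDual_conj {t : R →ₗ[ℚ] R} (h : IsAnti t) (htt : ∀ x, t (t x) = x) {τ : R}
    (hτ : τ * τ = 1) (htτ : t τ = τ) {S : R} (h1 : t S * S = τ) (h2 : S * t S = τ) {M : ℕ} {D : R}
    (hD : t D = algebraMap ℚ R M - τ * D * τ) :
    S * (t S * τ) = 1 ∧ (t S * τ) * S = 1 ∧
      t (S * D * (t S * τ)) = algebraMap ℚ R M - S * D * (t S * τ) := by
  have hc : τ * S = S * τ := by
    rw [← h2, mul_assoc, h1, ← h2]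
  have hc' : τ * t S = t S * τ := by
    rw [← h1, mul_assoc, h2, ← h1]
  have e1 : S * (t S * τ) = 1 := by rw [← mul_assoc, h2, hτ]
  have e2 : (t S * τ) * S = 1 := by rw [mul_assoc, hc, ← mul_assoc, h1, hτ]
  refine ⟨e1, e2, ?_⟩
  have hM : ∀ x, algebraMap ℚ R M * x = x * algebraMap ℚ R M := fun x => Algebra.commutes _ x
  rw [h.mul (S * D) (t S * τ), h.mul S D, h.mul (t S) τ, htt, htτ, hD, sub_mul, mul_sub]
  have h5 : τ * S * (algebraMap ℚ R M * t S) = algebraMap ℚ R M := by
    rw [← mul_assoc, ← hM, mul_assoc, mul_assoc, h2, hτ, mul_one]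
  have h6 : τ * S * (τ * D * τ * t S) = S * D * (t S * τ) := by
    calc τ * S * (τ * D * τ * t S) = (τ * S) * τ * D * (τ * t S) := by simp only [mul_assoc]
      _ = S * D * (t S * τ) := by rw [hc, mul_assoc S τ τ, hτ, mul_one, hc']
  rw [h5, h6]

end ring

section tensor

variable {A B : Type*} [Ring A] [Algebra ℚ A] [Ring B] [Algebra ℚ B] {F : Type*} [CommRing F]
  [Algebra ℚ F]

/-- The extension of an anti-homomorphism. -/
lemma isAnti_lTensor {t : A →ₗ[ℚ] A} (h : IsAnti t) : IsAnti (R := F ⊗[ℚ] A) (t.lTensor F) where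
  one := by
    rw [Algebra.TensorProduct.one_def, LinearMap.lTensor_tmul, h.one]
  mul x y := by
    induction x with
    | zero => rw [zero_mul, map_zero, mul_zero]
    | tmul r a =>
      induction y with
      | zero => rw [mul_zero, map_zero, zero_mul]
      | tmul s b =>
        rw [Algebra.TensorProduct.tmul_mul_tmul, LinearMap.lTensor_tmul, LinearMap.lTensor_tmul,
          LinearMap.lTensor_tmul, Algebra.TensorProduct.tmul_mul_tmul, h.mul, mul_comm r s]
      | add y z hy hz => rw [mul_add, map_add, hy, hz, map_add, add_mul]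
    | add x z hx hz => rw [add_mul, map_add, hx, hz, map_add, mul_add]

/-- Compatibility of the extensions. -/
lemma lTensor_lt {t : A →ₗ[ℚ] A} {t' : B →ₗ[ℚ] B} {f : A →ₐ[ℚ] B} (h : ∀ a, t' (f a) = f (t a))
    (x : F ⊗[ℚ] A) : t'.lTensor F (lt F f x) = lt F f (t.lTensor F x) := by
  induction x with
  | zero => rw [map_zero, map_zero, map_zero, map_zero]
  | tmul r a => rw [lt_tmul, LinearMap.lTensor_tmul, LinearMap.lTensor_tmul, lt_tmul, h]
  | add x y hx hy => rw [map_add, map_add, hx, hy, map_add, map_add]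

/-- The spectral idempotents of congruent elements are congruent. -/
lemma idem_diff {N : Submodule ℚ A} (hl : ∀ b, ∀ x ∈ N, b * x ∈ N)
    (hr : ∀ b, ∀ x ∈ N, x * b ∈ N) {D : F ⊗[ℚ] A} {Q : A} (h : D - 1 ⊗ₜ Q ∈ N.baseChange F)
    (M i : ℕ) : idem M D i - 1 ⊗ₜ aeval Q (lag M i) ∈ N.baseChange F := by
  have h1 := aeval_sub_mem (N := N.baseChange F) (fun b x hx => mul_mem_baseChange hl b hx)
    (fun b x hx => mem_baseChange_mul hr b hx) h (lag M i)
  have h2 : aeval (1 ⊗ₜ Q : F ⊗[ℚ] A) (lag M i) = 1 ⊗ₜ aeval Q (lag M i) :=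
    Polynomial.aeval_algHom_apply (Algebra.TensorProduct.includeRight : A →ₐ[ℚ] F ⊗[ℚ] A) Q _
  rw [h2] at h1
  exact h1

end tensor

end Pool.Agent.H838.CF
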