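import Pool.Agent.H838.CFThmB

/-!
# Comparison of the two forms of the definitions
-/

set_option autoImplicit false
set_option linter.unusedSectionVars false

open CategoryTheory AlgebraicGeometry

universe u v w t

namespace Pool.Agent.H838.CF

open TensorProduct
open Pool.Agent.H914 Pool.Agent.H914.VarClass Pool.Agent.H914.VarClass.Obj Pool.Agent.W492.BB
  Pool.Agent.W550.Corr Pool.Agent.TH133

variable {k : Type u} [Field k] {𝒱 : VarClass k}

section ext

variable {F : Type t} [Field F] [Algebra ℚ F] {C : TheoryData.{u, v, 0} 𝒱 ℚ} {X Y Z : 𝒱.Obj}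

/-- The element `r ⊗ a`. -/
noncomputable def pt (r : F) (a : C.A X) : (ChF F C).A X := (r ⊗ₜ a : F ⊗[ℚ] C.A X)

lemma chF_pull_pt (f : X ⟶ Y) (r : F) (a : C.A Y) :
    (ChF F C).pull f (pt r a) = pt r (C.pull f a) :=
  Algebra.TensorProduct.map_tmul _ _ _ _

lemma chF_push_pt (f : X ⟶ Y) (r : F) (a : C.A X) :
    (ChF F C).push f (pt r a) = pt r (C.push f a) :=
  LinearMap.baseChange_tmul _ _ _

lemma chF_mul_pt (r s : F) (a b : C.A X) :
    (pt r a : (ChF F C).A X) * pt s b = pt (r * s) (a * b) :=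
  Algebra.TensorProduct.tmul_mul_tmul _ _ _ _

lemma chF_comp_pt (r s : F) (a : C.A (X.prod Y)) (b : C.A (Y.prod Z)) :
    (ChF F C).comp (pt r a) (pt s b) = pt (r * s) (C.comp a b) := by
  have h1 : (ChF F C).comp (pt r a) (pt s b) =
      (ChF F C).push (t13 X Y Z) ((ChF F C).pull (t23 X Y Z) (pt s b) *
        (ChF F C).pull (fst (X.prod Y) Z) (pt r a)) := rfl
  rw [h1, chF_pull_pt, chF_pull_pt, chF_mul_pt, chF_push_pt, mul_comm s r]
  rfl

lemma chF_act_pt (r s : F) (a : C.A (X.prod Y)) (x : C.A X) :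
    (ChF F C).act (pt r a) (pt s x) = pt (r * s) (C.act a x) := by
  have h1 : (ChF F C).act (pt r a) (pt s x) =
      (ChF F C).push (snd X Y) (pt r a * (ChF F C).pull (fst X Y) (pt s x)) := rfl
  rw [h1, chF_pull_pt, chF_mul_pt, chF_push_pt]
  rfl

lemma chF_dg (X : 𝒱.Obj) : dg (ChF F C) X = pt 1 (dg C X) := by
  have h1 : dg (ChF F C) X = (ChF F C).push (Obj.lift (𝟙 X) (𝟙 X)) (pt 1 1) := rfl
  rw [h1, chF_push_pt]
  rfl

end ext

variable {C : TheoryData.{u, v, 0} 𝒱 ℚ} [hC : IsChowProj C] {X Y : 𝒱.Obj}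
  {F : Type t} [Field F] [Algebra ℚ F]

include hC

/-- The correspondences of degree zero among all. -/
noncomputable def sub (C : TheoryData.{u, v, 0} 𝒱 ℚ) [hC : IsChowProj C] (X : 𝒱.Obj) :
    cor0 C X →ₗ[ℚ] C.A (X.prod X) where
  toFun a := (a : Cor C X)
  map_add' _ _ := rfl
  map_smul' _ _ := rfl

/-- The correspondences of degree zero with coefficients in `F` among all. -/
noncomputable def io (F : Type t) [Field F] [Algebra ℚ F] (C : TheoryData.{u, v, 0} 𝒱 ℚ)
    [hC : IsChowProj C] (X : 𝒱.Obj) : F ⊗[ℚ] cor0 C X →ₗ[F] (ChF F C).A (X.prod X) :=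
  (sub C X).baseChange F

lemma io_tmul (r : F) (a : cor0 C X) :
    io F C X (r ⊗ₜ a) = pt r (sub C X a) :=
  LinearMap.baseChange_tmul _ _ _

lemma io_injective : Function.Injective (io F C X) := by
  have h1 : Function.Injective (sub C X) := fun a b h => Subtype.ext h
  exact lTensor_injective (L := F) h1

lemma io_mul (a b : F ⊗[ℚ] cor0 C X) :
    io F C X (a * b) = (ChF F C).comp (io F C X b) (io F C X a) := by
  induction a with
  | zero => rw [zero_mul, map_zero, comp_zero]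
  | tmul r a =>
    induction b with
    | zero => rw [mul_zero, map_zero, zero_comp]
    | tmul s b =>
      rw [Algebra.TensorProduct.tmul_mul_tmul, io_tmul, io_tmul, io_tmul, chF_comp_pt,
        mul_comm r s]
      rfl
    | add b c hb hc => rw [mul_add, map_add, hb, hc, map_add, add_comp]
  | add a c ha hc => rw [add_mul, map_add, ha, hc, map_add, comp_add]

lemma io_one : io F C X 1 = dg (ChF F C) X := by
  rw [chF_dg]
  exact io_tmul 1 1

lemma io_act (a : F ⊗[ℚ] cor0 C X) (y : F ⊗[ℚ] C.A X) :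
    (ChF F C).act (io F C X a) y = actS F (alp C X) a y := by
  induction a with
  | zero =>
    rw [map_zero, map_zero, LinearMap.zero_apply]
    exact TheoryData.act_zero _ _
  | tmul r a =>
    induction y with
    | zero => rw [map_zero]; exact TheoryData.act_map_zero _ _
    | tmul s x =>
      rw [io_tmul, actS_tmul]
      exact chF_act_pt r s (sub C X a) x
    | add y z hy hz =>
      rw [map_add, ← hy, ← hz]
      exact act_map_add _ _ _ _
  | add a b ha hb =>
    rw [map_add, map_add, LinearMap.add_apply, ← ha, ← hb]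
    exact TheoryData.act_add _ _ _ _

lemma mem_range_io {z : (ChF F C).A (X.prod X)} (hz : (ChF F C).Deg X.dim z) :
    ∃ a, io F C X a = z := by
  obtain ⟨y, rfl⟩ := hz
  induction y with
  | zero =>
    refine ⟨0, ?_⟩
    rw [map_zero, map_zero]
    rfl
  | tmul r a =>
    refine ⟨r ⊗ₜ ⟨(a : C.A (X.prod X)), a.2⟩, ?_⟩
    rw [io_tmul]
    rfl
  | add y z hy hz =>
    obtain ⟨a, ha⟩ := hy
    obtain ⟨b, hb⟩ := hz
    refine ⟨a + b, ?_⟩
    rw [map_add, ha, hb, map_add]
    rfl

lemma io_deg (a : F ⊗[ℚ] cor0 C X) : (ChF F C).Deg X.dim (io F C X a) := by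
  induction a with
  | zero => rw [map_zero]; exact Submodule.zero_mem _
  | tmul r a =>
    rw [io_tmul]
    exact Submodule.tmul_mem_baseChange_of_mem _ a.2
  | add a b ha hb => rw [map_add]; exact Submodule.add_mem _ ha hb

variable {K : Type w} [Field K] {H : WeilTheoryData.{u, v, w} C K}

lemma io_mem_homF {a : F ⊗[ℚ] cor0 C X} :
    io F C X a ∈ homF F (X.prod X) H X.dim ↔ a ∈ (homTriv H X).baseChange F := by
  constructor
  · intro h
    have h1 : ∀ y ∈ homF F (X.prod X) H X.dim, ∃ b ∈ (homTriv H X).baseChange F,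
        io F C X b = y := by
      intro y hy
      induction hy using Submodule.span_induction with
      | mem y hy =>
        obtain ⟨a, h1, h2, rfl⟩ := hy
        exact ⟨1 ⊗ₜ (⟨a, h1⟩ : cor0 C X), Submodule.tmul_mem_baseChange_of_mem _ h2, io_tmul _ _⟩
      | zero => exact ⟨0, Submodule.zero_mem _, map_zero _⟩
      | add y z _ _ hy hz =>
        obtain ⟨b, h1, h2⟩ := hy
        obtain ⟨c, h3, h4⟩ := hz
        exact ⟨b + c, Submodule.add_mem _ h1 h3, by rw [map_add, h2, h4]⟩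
      | smul r y _ hy =>
        obtain ⟨b, h1, h2⟩ := hy
        exact ⟨r • b, Submodule.smul_mem _ r h1, by rw [map_smul, h2]⟩
    obtain ⟨b, hb, h2⟩ := h1 _ h
    rwa [← io_injective h2]
  · rintro ⟨y, rfl⟩
    induction y with
    | zero => rw [map_zero, map_zero]; exact Submodule.zero_mem _
    | tmul r a =>
      rw [LinearMap.baseChange_tmul]
      have h1 : (r ⊗ₜ (homTriv H X).subtype a : F ⊗[ℚ] cor0 C X) =
          r • (1 ⊗ₜ (homTriv H X).subtype a) := by
        rw [TensorProduct.smul_tmul', smul_eq_mul, mul_one]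
      rw [h1, map_smul]
      apply Submodule.smul_mem
      apply Submodule.subset_span
      exact ⟨sub C X a.1, a.1.2, a.2, io_tmul _ _⟩
    | add y z hy hz => rw [map_add, map_add]; exact Submodule.add_mem _ hy hz

lemma ckf_of {p : ℕ → F ⊗[ℚ] cor0 C X} (hp : IsCKF F H X p) :
    CKF F X H fun i => io F C X (p i) where
  deg i := io_deg _
  out i hi := by rw [hp.out i hi, map_zero]
  idem i := by rw [← io_mul, hp.mul, if_pos rfl]
  orth i j hij := by rw [← io_mul, hp.mul, if_neg hij.symm, map_zero]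
  sum := by rw [← map_sum, hp.sum, io_one]
  act i := by
    obtain ⟨q, h1, h2⟩ := hp.act i
    refine ⟨sub C X q, q.2, h1, ?_⟩
    have h3 := io_mem_homF.2 h2
    rw [map_sub, io_tmul] at h3
    exact h3

lemma ckf_to {p : ℕ → (ChF F C).A (X.prod X)} (hp : CKF F X H p) :
    ∃ p' : ℕ → F ⊗[ℚ] cor0 C X, (∀ i, io F C X (p' i) = p i) ∧ IsCKF F H X p' := by
  choose p' hp' using fun i => mem_range_io (hp.deg i)
  refine ⟨p', hp', ⟨fun i j => ?_, fun i hi => ?_, ?_, fun i => ?_⟩⟩
  · apply io_injective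
    rw [io_mul, hp', hp']
    split_ifs with h
    · subst h; rw [hp.idem, hp']
    · rw [hp.orth _ _ (Ne.symm h), map_zero]
  · apply io_injective
    rw [hp', hp.out i hi, map_zero]
  · apply io_injective
    rw [map_sum, io_one, ← hp.sum]
    exact Finset.sum_congr rfl fun i _ => hp' i
  · obtain ⟨q, h1, h2, h3⟩ := hp.act i
    refine ⟨⟨q, h1⟩, h2, io_mem_homF.1 ?_⟩
    rw [map_sub, hp', io_tmul]
    exact h3

lemma exists_conv : (∃ p, CKF F X H p) ↔ ∃ p, IsCKF F H X p :=
  ⟨fun ⟨_, hp⟩ => let ⟨p', _, h⟩ := ckf_to hp; ⟨p', h⟩, fun ⟨_, hp⟩ => ⟨_, ckf_of hp⟩⟩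

variable [hH : IsWeilProj H]

include hH

/-- **One decomposition.** -/
theorem one_decomposition' {n : ℕ} (hn : Module.finrank ℚ F = n + 1)
    {p : ℕ → (ChF F C).A (X.prod X)} (hp : CKF F X H p) :
    ∃ P : ℕ → C.A ((pw X n).prod (pw X n)), IsCK H (pw X n) P ∧
      ∀ i j : ℕ, (∀ x, C.Deg i x → C.act (P j) x = 0) → ∀ x : (ChF F C).A X,
        (ChF F C).Deg i x → (ChF F C).act (p j) x = 0 := by
  have hF : FiniteDimensional ℚ F := Module.finite_of_finrank_pos (by omega)
  obtain ⟨p', hp1, hp2⟩ := ckf_to hp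
  obtain ⟨δ, hδ⟩ := main_nf (H := H) X F hn
  obtain ⟨h1, h2⟩ := hδ _ hp2
  refine ⟨_, h1, fun i j h x hx => ?_⟩
  rw [← hp1, io_act]
  refine actS_eq_zero (P := C.gr X i) (fun x hx => ?_) hx
  have h3 := h2 _ hp2 (C.gr (pw X n) i) (Stb.gr (C := C) (H := H) i) j j (fun v hv => by
    rw [map_mul, Module.End.mul_apply]
    have h4 : alp C (pw X n) (δ p' j) v = 0 := h v hv
    rw [h4, map_zero]) x (C.pull_mem _ hx)
  rwa [hp2.mul, if_pos rfl] at h3

lemma b0F_conv : B0F F X H ↔ MurreB0F F H X := by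
  rw [b0F_iff]
  constructor
  · intro h p hp i j x hx hj
    have h1 := h _ (ckf_of hp) i j (1 ⊗ₜ x : F ⊗[ℚ] C.A X)
      (Submodule.tmul_mem_baseChange_of_mem _ hx) hj
    rwa [io_act] at h1
  · intro h p hp i j x hx hj
    obtain ⟨p', hp1, hp2⟩ := ckf_to hp
    rw [← hp1, io_act]
    exact actS_eq_zero (P := C.gr X i) (fun x hx => h p' hp2 i j x hx hj) hx

lemma b1F_conv : B1F F X H ↔ MurreB1F F H X := by
  rw [b1F_iff]
  constructor
  · intro h p hp i j x hx hj
    have h1 := h _ (ckf_of hp) i j (1 ⊗ₜ x : F ⊗[ℚ] C.A X)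
      (Submodule.tmul_mem_baseChange_of_mem _ hx) hj
    rwa [io_act] at h1
  · intro h p hp i j x hx hj
    obtain ⟨p', hp1, hp2⟩ := ckf_to hp
    rw [← hp1, io_act]
    exact actS_eq_zero (P := C.gr X i) (fun x hx => h p' hp2 i j x hx hj) hx

end Pool.Agent.H838.CF
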