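import Pool.Agent.H838.CFAlg
import Pool.Agent.H838.CFLag

/-!
# Descent of degree operators from a number field to the powers
-/

set_option autoImplicit false

namespace Pool.Agent.H838.CF

open TensorProduct Polynomial

section closure

attribute [-instance] DivisionRing.toRatAlgebra in
/-- The Galois closure of a number field. -/
lemma exists_galois (F : Type*) [Field F] [Algebra ℚ F] [FiniteDimensional ℚ F] {n : ℕ}
    (hn : Module.finrank ℚ F = n + 1) :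
    ∃ L : IntermediateField ℚ (AlgebraicClosure F), FiniteDimensional ℚ L ∧ IsGalois ℚ L ∧
      Nonempty (Fin (n + 1) ≃ (F →ₐ[ℚ] L)) := by
  let L := IntermediateField.normalClosure ℚ F (AlgebraicClosure F)
  have h1 : FiniteDimensional ℚ L := inferInstance
  have h0 : Algebra.IsAlgebraic ℚ F := inferInstance
  have h00 : CharZero F := charZero_of_injective_algebraMap (algebraMap ℚ F).injective
  have h01 : Algebra.IsAlgebraic ℚ (AlgebraicClosure F) := Algebra.IsAlgebraic.trans ℚ F _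
  have h02 : IsAlgClosure ℚ (AlgebraicClosure F) := ⟨inferInstance, h01⟩
  have h03 : Normal ℚ (AlgebraicClosure F) := IsAlgClosure.normal ℚ _
  have h2 : Normal ℚ L := normalClosure.normal ℚ F (AlgebraicClosure F)
  refine ⟨L, h1, IsGalois.mk, ?_⟩
  have e : (F →ₐ[ℚ] L) ≃ (F →ₐ[ℚ] AlgebraicClosure F) :=
    { toFun := fun f => L.val.comp f
      invFun := fun f => f.codRestrict L.toSubalgebra fun x =>
        (AlgHom.fieldRange_le_normalClosure f) ⟨x, rfl⟩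
      left_inv := fun f => rfl
      right_inv := fun f => rfl }
  have h3 : Fintype.card (F →ₐ[ℚ] AlgebraicClosure F) = n + 1 := by
    rw [AlgHom.card, hn]
  exact ⟨(e.trans (Fintype.equivFinOfCardEq h3)).symm⟩

end closure

section core

variable {A B : Type*} [Ring A] [Algebra ℚ A] [Ring B] [Algebra ℚ B] {n : ℕ}
  {F L : Type*} [Field F] [Algebra ℚ F] [Field L] [Algebra ℚ L]

/-- The action of the Galois group on the embeddings. -/
noncomputable def permHom (Φ : Fin (n + 1) ≃ (F →ₐ[ℚ] L)) :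
    (L ≃ₐ[ℚ] L) →* Equiv.Perm (Fin (n + 1)) where
  toFun σ :=
    { toFun := fun i => Φ.symm (σ.toAlgHom.comp (Φ i))
      invFun := fun i => Φ.symm (σ.symm.toAlgHom.comp (Φ i))
      left_inv := fun i => by
        change Φ.symm (σ.symm.toAlgHom.comp (Φ (Φ.symm (σ.toAlgHom.comp (Φ i))))) = i
        rw [Equiv.apply_symm_apply, Equiv.symm_apply_eq]
        ext x
        exact σ.symm_apply_apply _
      right_inv := fun i => by
        change Φ.symm (σ.toAlgHom.comp (Φ (Φ.symm (σ.symm.toAlgHom.comp (Φ i))))) = i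
        rw [Equiv.apply_symm_apply, Equiv.symm_apply_eq]
        ext x
        exact σ.apply_symm_apply _ }
  map_one' := by
    ext i
    change ((Φ.symm ((1 : L ≃ₐ[ℚ] L).toAlgHom.comp (Φ i)) : Fin (n + 1)) : ℕ) = (i : ℕ)
    congr 1
    rw [Equiv.symm_apply_eq]
    rfl
  map_mul' σ τ := by
    ext i
    change ((Φ.symm ((σ * τ).toAlgHom.comp (Φ i)) : Fin (n + 1)) : ℕ) =
      ((Φ.symm (σ.toAlgHom.comp (Φ (Φ.symm (τ.toAlgHom.comp (Φ i))))) : Fin (n + 1)) : ℕ)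
    rw [Equiv.apply_symm_apply]
    rfl

lemma permHom_apply (Φ : Fin (n + 1) ≃ (F →ₐ[ℚ] L)) (σ : L ≃ₐ[ℚ] L) (i : Fin (n + 1)) :
    Φ (permHom Φ σ i) = σ.toAlgHom.comp (Φ i) := by
  change Φ (Φ.symm (σ.toAlgHom.comp (Φ i))) = _
  rw [Equiv.apply_symm_apply]

/-- The twisted sum over the factors. -/
noncomputable def tw (ι : Fin (n + 1) → (A →ₐ[ℚ] B)) (Φ : Fin (n + 1) → (F →ₐ[ℚ] L))
    (Γ : F ⊗[ℚ] A) : L ⊗[ℚ] B := ∑ i, lt L (ι i) (bc A (Φ i) Γ)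

lemma lt_conj {ι : Fin (n + 1) → (A →ₐ[ℚ] B)} {P : Equiv.Perm (Fin (n + 1)) →* B}
    (hP : ∀ σ i a, P σ * ι i a = ι (σ i) a * P σ) (σ : Equiv.Perm (Fin (n + 1)))
    (i : Fin (n + 1)) (x : L ⊗[ℚ] A) :
    (1 ⊗ₜ P σ) * lt L (ι i) x = lt L (ι (σ i)) x * (1 ⊗ₜ P σ) := by
  induction x with
  | zero => simp
  | tmul x a =>
    rw [lt_tmul, lt_tmul, Algebra.TensorProduct.tmul_mul_tmul,
      Algebra.TensorProduct.tmul_mul_tmul, hP, one_mul, mul_one]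
  | add x y hx hy => rw [map_add, mul_add, hx, hy, map_add, add_mul]

lemma lt_comm {ι : Fin (n + 1) → (A →ₐ[ℚ] B)}
    (hι : ∀ i j, i ≠ j → ∀ a b, ι i a * ι j b = ι j b * ι i a) {i j : Fin (n + 1)} (hij : i ≠ j)
    (x y : L ⊗[ℚ] A) : Commute (lt L (ι i) x) (lt L (ι j) y) := by
  induction x with
  | zero => rw [map_zero]; exact Commute.zero_left _
  | tmul x a =>
    induction y with
    | zero => rw [map_zero]; exact Commute.zero_right _
    | tmul y b =>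
      rw [Commute, SemiconjBy, lt_tmul, lt_tmul, Algebra.TensorProduct.tmul_mul_tmul,
        Algebra.TensorProduct.tmul_mul_tmul, hι i j hij, mul_comm]
    | add y z hy hz => rw [map_add]; exact hy.add_right hz
  | add x z hx hz => rw [map_add]; exact hx.add_left hz

lemma tw_conj {ι : Fin (n + 1) → (A →ₐ[ℚ] B)} {P : Equiv.Perm (Fin (n + 1)) →* B}
    (hP : ∀ σ i a, P σ * ι i a = ι (σ i) a * P σ) (Φ : Fin (n + 1) ≃ (F →ₐ[ℚ] L))
    (Γ : F ⊗[ℚ] A) (σ : L ≃ₐ[ℚ] L) :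
    (1 ⊗ₜ P (permHom Φ σ)) * bc B σ.toAlgHom (tw ι Φ Γ) =
      tw ι Φ Γ * (1 ⊗ₜ P (permHom Φ σ)) := by
  rw [tw, map_sum, Finset.mul_sum, Finset.sum_mul]
  refine Fintype.sum_equiv (permHom Φ σ) _ _ fun i => ?_
  rw [bc_lt, bc_comp, ← permHom_apply, lt_conj hP]

lemma tw_sp {ι : Fin (n + 1) → (A →ₐ[ℚ] B)}
    (hι : ∀ i j, i ≠ j → ∀ a b, ι i a * ι j b = ι j b * ι i a) (Φ : Fin (n + 1) → (F →ₐ[ℚ] L))
    {Γ : F ⊗[ℚ] A} {M : ℕ} (hΓ : Sp M Γ) : Sp ((n + 1) * M) (tw ι Φ Γ) := by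
  have h := Sp.sum (Finset.univ : Finset (Fin (n + 1))) (M := M)
    (a := fun i => lt L (ι i) (bc A (Φ i) Γ))
    (fun i => by
      have h1 := (hΓ.map (bc A (Φ i))).map ((lt L (ι i)).restrictScalars ℚ)
      exact h1)
    (fun i j hij => lt_comm hι hij _ _)
  rwa [Finset.card_univ, Fintype.card_fin] at h

lemma tw_sub_mem {ι : Fin (n + 1) → (A →ₐ[ℚ] B)} (Φ : Fin (n + 1) → (F →ₐ[ℚ] L))
    {N : Submodule ℚ A} {N' : Submodule ℚ B} (hN : ∀ i, ∀ a ∈ N, ι i a ∈ N') {Γ : F ⊗[ℚ] A}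
    {q : A} (hq : Γ - 1 ⊗ₜ q ∈ N.baseChange F) :
    tw ι Φ Γ - 1 ⊗ₜ (∑ i, ι i q) ∈ N'.baseChange L := by
  have h1 : tw ι Φ Γ - 1 ⊗ₜ (∑ i, ι i q) = ∑ i, lt L (ι i) (bc A (Φ i) (Γ - 1 ⊗ₜ q)) := by
    rw [tw, TensorProduct.tmul_sum, ← Finset.sum_sub_distrib]
    refine Finset.sum_congr rfl fun i _ => ?_
    rw [map_sub, map_sub, bc_tmul, map_one, lt_tmul]
  rw [h1]
  refine Submodule.sum_mem _ fun i _ => ?_
  rw [lt_eq_lTensor, bc_eq_bm]
  exact lTensor_mem (hN i) (bm_mem _ hq)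

/-- **Descent of degree operators.** -/
theorem core [FiniteDimensional ℚ L] [IsGalois ℚ L] {ι : Fin (n + 1) → (A →ₐ[ℚ] B)}
    {P : Equiv.Perm (Fin (n + 1)) →* B}
    (hι : ∀ i j, i ≠ j → ∀ a b, ι i a * ι j b = ι j b * ι i a)
    (hP : ∀ σ i a, P σ * ι i a = ι (σ i) a * P σ) (Φ : Fin (n + 1) ≃ (F →ₐ[ℚ] L)) :
    ∃ g g' : L ⊗[ℚ] B, g * g' = 1 ∧ g' * g = 1 ∧ ∀ Γ : F ⊗[ℚ] A, ∃ D₀ : B,
      g * tw ι Φ Γ * g' = 1 ⊗ₜ D₀ ∧ (∀ M, Sp M Γ → Sp ((n + 1) * M) D₀) ∧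
      ∀ (N : Submodule ℚ A) (N' : Submodule ℚ B), (∀ i, ∀ a ∈ N, ι i a ∈ N') →
        (∀ b, ∀ x ∈ N', b * x ∈ N') → (∀ b, ∀ x ∈ N', x * b ∈ N') →
        ∀ q : A, Γ - 1 ⊗ₜ q ∈ N.baseChange F →
          (∀ b, b * (∑ i, ι i q) - (∑ i, ι i q) * b ∈ N') → D₀ - ∑ i, ι i q ∈ N' := by
  have hinj : Function.Injective (algebraMap ℚ L) := (algebraMap ℚ L).injective
  obtain ⟨g, g', h1, h2, -, -, h3⟩ := descent (P.comp (permHom Φ))
  refine ⟨g, g', h1, h2, fun Γ => ?_⟩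
  obtain ⟨D₀, hD⟩ := h3 (tw ι Φ Γ) (tw_conj hP Φ Γ)
  refine ⟨D₀, hD, fun M hM => ?_, fun N N' hN hl hr q hq hQ => ?_⟩
  · have h4 : aeval (1 ⊗ₜ D₀ : L ⊗[ℚ] B) (nod ((n + 1) * M)) = 0 := by
      rw [← hD, aeval_conj h2 h1, show aeval (tw ι Φ Γ) (nod ((n + 1) * M)) = 0 from
        tw_sp hι Φ hM, mul_zero, zero_mul]
    have h5 : aeval (1 ⊗ₜ D₀ : L ⊗[ℚ] B) (nod ((n + 1) * M)) =
        1 ⊗ₜ aeval D₀ (nod ((n + 1) * M)) := by
      have := Polynomial.aeval_algHom_apply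
        (Algebra.TensorProduct.includeRight : B →ₐ[ℚ] L ⊗[ℚ] B) D₀ (nod ((n + 1) * M))
      exact this
    rw [h5] at h4
    exact one_tmul_eq_zero hinj h4
  · have hc : ∀ x : L ⊗[ℚ] B, x * (1 ⊗ₜ ∑ i, ι i q) - (1 ⊗ₜ ∑ i, ι i q) * x ∈
        N'.baseChange L := by
      intro x
      induction x with
      | zero => simp
      | tmul x b =>
        rw [Algebra.TensorProduct.tmul_mul_tmul, Algebra.TensorProduct.tmul_mul_tmul, one_mul,
          mul_one, ← TensorProduct.tmul_sub]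
        exact Submodule.tmul_mem_baseChange_of_mem _ (hQ b)
      | add x y hx hy =>
        rw [add_mul, mul_add, add_sub_add_comm]
        exact Submodule.add_mem _ hx hy
    have h4 := tw_sub_mem (L := L) Φ hN hq
    apply mem_of_mem_baseChange hinj
    have h5 : (1 ⊗ₜ (D₀ - ∑ i, ι i q) : L ⊗[ℚ] B) =
        g * (tw ι Φ Γ - 1 ⊗ₜ (∑ i, ι i q)) * g' +
          (g * (1 ⊗ₜ ∑ i, ι i q) - (1 ⊗ₜ ∑ i, ι i q) * g) * g' := by
      rw [TensorProduct.tmul_sub, ← hD, mul_sub, sub_mul, sub_mul, mul_assoc (1 ⊗ₜ _) g g', h1,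
        mul_one]
      abel
    rw [h5]
    exact Submodule.add_mem _ (mem_baseChange_mul hr _ (mul_mem_baseChange hl _ h4))
      (mem_baseChange_mul hr _ (hc g))

end core

end Pool.Agent.H838.CF
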