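import Pool.Agent.H838.CFStat
import Pool.Graph.R_seed8.TH133.Base

/-!
# Chow-Kunneth decompositions with coefficients in a field: definitions
-/

set_option autoImplicit false

open CategoryTheory AlgebraicGeometry

universe u v w

namespace Pool.Agent.H838.CF

open TensorProduct Pool.Agent.H914 Pool.Agent.H914.VarClass Pool.Agent.H914.VarClass.Obj
  Pool.Agent.W492.BB Pool.Agent.W550.Corr Pool.Agent.TH133

variable {k : Type u} [Field k] {𝒱 : VarClass k}

variable {C : TheoryData.{u, v, 0} 𝒱 ℚ} [hC : IsChowProj C] {K : Type w} [Field K]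

omit hC in
lemma cl_smul_zero (H : WeilTheoryData.{u, v, w} C K) {Y : 𝒱.Obj} {x : C.A Y} (hx : H.cl x = 0)
    (q : ℚ) : H.cl (q • x) = 0 := by
  rw [Algebra.smul_def, map_mul, hx, mul_zero]

omit hC in
lemma cl_add_zero (H : WeilTheoryData.{u, v, w} C K) {Y : 𝒱.Obj} {x y : C.A Y} (hx : H.cl x = 0)
    (hy : H.cl y = 0) : H.cl (x + y) = 0 := by
  rw [map_add, hx, hy, add_zero]

/-- The homologically trivial self-correspondences of `X` of degree zero. -/
noncomputable def homTriv (H : WeilTheoryData.{u, v, w} C K) (X : 𝒱.Obj) :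
    Submodule ℚ (cor0 C X) where
  carrier := {a | H.cl (X := X.prod X) (a : Cor C X) = 0}
  zero_mem' := map_zero (H.cl (X := X.prod X))
  add_mem' {a b} ha hb := cl_add_zero H (Y := X.prod X) (x := (a : Cor C X))
    (y := (b : Cor C X)) ha hb
  smul_mem' q a ha := cl_smul_zero H (Y := X.prod X) (x := (a : Cor C X)) ha q

/-- The rational self-correspondence `q` of degree zero induces the `i`-th Kunneth projector: it
acts as the identity on `H^i(X)` and as zero on `H^m(X)`, `m ≠ i`. -/
def IsProjector (H : WeilTheoryData.{u, v, w} C K) (X : 𝒱.Obj) (i : ℕ) (q : cor0 C X) : Prop :=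
  ∀ (m : ℤ) (a : H.A X), H.Deg m a →
    H.act (X := X) (Y := X) (H.cl (X := X.prod X) (q : Cor C X)) a = if m = i then a else 0

/-- A Chow-Kunneth decomposition of `X` with coefficients in the field `F`: elements `p 0, …,
p (2 dim X)` of the ring `F ⊗ CH^(dim X)(X × X)` of the self-correspondences of degree zero with
coefficients in `F` (`p i = 0` for `i > 2 dim X`) which are mutually orthogonal idempotents with sum
the diagonal, such that `p i` is the `i`-th Kunneth projector modulo the homologically trivial
correspondences with coefficients in `F`. -/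
structure IsCKF (F : Type*) [Field F] [Algebra ℚ F] (H : WeilTheoryData.{u, v, w} C K)
    (X : 𝒱.Obj) (p : ℕ → F ⊗[ℚ] cor0 C X) : Prop where
  mul : ∀ i j, p i * p j = if i = j then p i else 0
  out : ∀ i, 2 * X.dim < i → p i = 0
  sum : ∑ i ∈ Finset.range (2 * X.dim + 1), p i = 1
  act : ∀ i, ∃ q : cor0 C X, IsProjector H X i q ∧ p i - 1 ⊗ₜ q ∈ (homTriv H X).baseChange F

/-- The action of the self-correspondences of degree zero of `X` on the cycle `x`. -/
noncomputable def onCycle (C : TheoryData.{u, v, 0} 𝒱 ℚ) [IsChowProj C] {X : 𝒱.Obj} (x : C.A X) :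
    cor0 C X →ₗ[ℚ] C.A X where
  toFun a := C.act (X := X) (Y := X) (a : Cor C X) x
  map_add' a b := C.act_add (X := X) (Y := X) _ _ x
  map_smul' q a := by
    have h := LinearMap.map_smul₂ (actB C (X := X) (Y := X)) q (a : Cor C X) x
    exact h

end Pool.Agent.H838.CF
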