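import Pool.Agent.H838.CFStat

/-!
# Self-dual Chow-Kunneth decompositions with coefficients in a field: definitions
-/

set_option autoImplicit false

open CategoryTheory AlgebraicGeometry

universe u v w t

namespace Pool.Agent.H838.CF

open Pool.Agent.H914 Pool.Agent.H914.VarClass Pool.Agent.H914.VarClass.Obj
  Pool.Agent.W492.BB Pool.Agent.W550.Corr Pool.Agent.TH133

variable {k : Type u} [Field k] {𝒱 : VarClass k}

/-- The power of `X` with `2 ^ n` factors. -/
@[reducible] noncomputable def sq (X : 𝒱.Obj) : ℕ → 𝒱.Obj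
  | 0 => X
  | n + 1 => pw (sq X n) 1

/-- The transpose of the correspondence `p i` with coefficients in `F` is `p (2 dim X - i)`. -/
def SelfDualF (F : Type t) [Field F] [Algebra ℚ F] {C : TheoryData.{u, v, 0} 𝒱 ℚ} (X : 𝒱.Obj)
    (p : ℕ → (ChF F C).A (X.prod X)) : Prop :=
  ∀ i ≤ 2 * X.dim, tp (ChF F C) (p i) = p (2 * X.dim - i)

end Pool.Agent.H838.CF
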