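import Pool.Agent.H838.CFPfi
import Pool.Agent.H838.CFConv
import Pool.Agent.H838.CFDualStat
import Pool.Graph.R_seed8.TH133.SelfDual

/-!
# Self-dual Chow-Kunneth decompositions of `X × X`
-/

set_option autoImplicit false
set_option linter.unusedSectionVars false

open CategoryTheory AlgebraicGeometry

universe u v w t

namespace Pool.Agent.H838.CF

open TensorProduct Polynomial
open Pool.Agent.H914 Pool.Agent.H914.VarClass Pool.Agent.H914.VarClass.Obj Pool.Agent.W492.BB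
  Pool.Agent.W550.Corr Pool.Agent.TH133

variable {k : Type u} [Field k] {𝒱 : VarClass k}

section chow

variable {C : TheoryData.{u, v, 0} 𝒱 ℚ} [hC : IsChowProj C] {X Y : 𝒱.Obj}

include hC

/-- The transposition of self-correspondences of degree zero. -/
noncomputable def tp0 (C : TheoryData.{u, v, 0} 𝒱 ℚ) [hC : IsChowProj C] (X : 𝒱.Obj) :
    cor0 C X →ₗ[ℚ] cor0 C X where
  toFun a := ⟨tpR C X (a : Cor C X), tpR_mem a.2⟩
  map_add' a b := Subtype.ext (map_add (tpR C X) (a : Cor C X) (b : Cor C X))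
  map_smul' q a := Subtype.ext (tpR_smul q (a : Cor C X))

lemma tp0_coe (a : cor0 C X) : (tp0 C X a : Cor C X) = tpR C X (a : Cor C X) := rfl

lemma isAnti_tp0 : IsAnti (tp0 C X) :=
  ⟨Subtype.ext tpR_one, fun a b => Subtype.ext (tpR_mul (a : Cor C X) (b : Cor C X))⟩

lemma tp_tl (a : Cor C X) : tpR C (X.prod Y) (tl C X Y a) = tl C X Y (tpR C X a) := by
  have h := tp_tens (C := C) (X := X) (Y := X) (Z := Y) (W := Y) a (dg C Y)
  rw [tp_dg] at h
  exact h

lemma tp_tr (b : Cor C Y) : tpR C (X.prod Y) (tr C X Y b) = tr C X Y (tpR C Y b) := by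
  have h := tp_tens (C := C) (X := X) (Y := X) (Z := Y) (W := Y) (dg C X) b
  rw [tp_dg] at h
  exact h

lemma tp_inj : ∀ (n : ℕ) (i : Fin (n + 1)) (a : Cor C X),
    tpR C (pw X n) (inj C X n i a) = inj C X n i (tpR C X a)
  | 0, _, _ => rfl
  | n + 1, i, a => by
    induction i using Fin.lastCases with
    | last =>
      rw [inj_last_apply, inj_last_apply]
      exact tp_tr (C := C) (X := pw X n) (Y := X) a
    | cast i =>
      rw [inj_castSucc_apply, inj_castSucc_apply, ← tp_inj n i a]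
      exact tp_tl (C := C) (X := pw X n) (Y := X) _

lemma tp0_inj0 (n : ℕ) (i : Fin (n + 1)) (a : cor0 C X) :
    tp0 C (pw X n) (inj0 C X n i a) = inj0 C X n i (tp0 C X a) :=
  Subtype.ext (tp_inj (C := C) (X := X) n i (a : Cor C X))

/-- The transpose of the graph of an isomorphism is the graph of the inverse. -/
lemma tp_graph_iso (f : X ⟶ Y) (g' : Y ⟶ X) (h1 : f ≫ g' = 𝟙 X) (h2 : g' ≫ f = 𝟙 Y) :
    tp C (C.graph f) = C.graph g' := by
  have e3 : C.comp (tp C (C.graph f)) (C.graph f) = dg C Y := by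
    rw [comp_graph, tp_eq_push C (C.graph f), TheoryData.graph, ← C.push_comp, ← C.push_comp]
    have e4 : Obj.lift (𝟙 X) f ≫ sw X Y ≫ prodMap (𝟙 Y) f = f ≫ Obj.lift (𝟙 Y) (𝟙 Y) := by
      apply prod_ext <;> simp [sw, comp_lift]
    rw [e4, C.push_comp]
    have e5 : C.push f 1 = 1 := by
      have := push_pull_iso C f g' h1 h2 1
      rwa [map_one] at this
    rw [e5]
    rfl
  have e6 : C.comp (C.graph f) (C.graph g') = dg C X := by
    rw [graph_graph, h1]
    rfl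
  calc tp C (C.graph f) = C.comp (tp C (C.graph f)) (C.comp (C.graph f) (C.graph g')) := by
        rw [e6, comp_dg]
    _ = C.comp (C.comp (tp C (C.graph f)) (C.graph f)) (C.graph g') := (comp_assoc C _ _ _).symm
    _ = C.graph g' := by rw [e3, dg_comp]

lemma tp_perm (n : ℕ) (σ : Equiv.Perm (Fin (n + 1))) :
    tpR C (pw X n) (perm C X n σ) = perm C X n σ⁻¹ := by
  have h1 : pm X σ⁻¹ ≫ pm X σ = 𝟙 (pw X n) := by rw [pm_mul, inv_mul_cancel, pm_one]
  have h2 : pm X σ ≫ pm X σ⁻¹ = 𝟙 (pw X n) := by rw [pm_mul, mul_inv_cancel, pm_one]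
  have h := tp_graph_iso (C := C) (pm X σ⁻¹) (pm X σ) h1 h2
  have e : pm X (σ⁻¹)⁻¹ = pm X σ := by rw [inv_inv]
  rw [← e] at h
  exact h

lemma tp0_perm0 (n : ℕ) (σ : Equiv.Perm (Fin (n + 1))) :
    tp0 C (pw X n) (perm0 C X n σ) = perm0 C X n σ⁻¹ :=
  Subtype.ext (tp_perm (C := C) (X := X) n σ)

lemma tp0_tp0 {Y : 𝒱.Obj} (a : cor0 C Y) : tp0 C Y (tp0 C Y a) = a :=
  Subtype.ext (tpR_tpR (a : Cor C Y))

/-- The pair of embeddings of the square. -/
lemma pair_square (Y : 𝒱.Obj) : Pair (tp0 C Y) (tp0 C (pw Y 1)) (inj0 C Y 1 0) (inj0 C Y 1 1)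
    (perm0 C Y 1 (Equiv.swap 0 1)) where
  aX := isAnti_tp0
  ttX a := tp0_tp0 a
  aZ := isAnti_tp0
  h0 a := tp0_inj0 1 0 a
  h1 a := tp0_inj0 1 1 a
  comm a b := inj0_comm (C := C) 1 0 1 (by decide) a b
  ss := by
    have h : perm0 C Y 1 (Equiv.swap 0 1) * perm0 C Y 1 (Equiv.swap 0 1) = 1 := by
      rw [← map_mul, Equiv.swap_mul_self, map_one]
    exact h
  ts := by
    have h := tp0_perm0 (C := C) (X := Y) 1 (Equiv.swap 0 1)
    rw [show (Equiv.swap (0 : Fin 2) 1)⁻¹ = Equiv.swap 0 1 from Equiv.swap_inv _ _] at h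
    exact h
  s0 a := perm0_conj (C := C) 1 (Equiv.swap 0 1) 0 a
  s1 a := perm0_conj (C := C) 1 (Equiv.swap 0 1) 1 a

lemma dim_square (Y : 𝒱.Obj) : 2 * (pw Y 1).dim = 2 * Y.dim + 2 * Y.dim := by
  rw [pw_dim (C := C)]; ring

end chow

section weil

variable {C : TheoryData.{u, v, 0} 𝒱 ℚ} [hC : IsChowProj C] {K : Type w} [Field K]
  {H : WeilTheoryData.{u, v, w} C K} [hH : IsWeilProj H] {X Y : 𝒱.Obj}

include hC hH

lemma tp0_homTriv {a : cor0 C X} (ha : a ∈ homTriv H X) : tp0 C X a ∈ homTriv H X := by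
  have h1 : H.cl (X := X.prod X) (a : Cor C X) = 0 := ha
  have h2 : H.cl (tp C (X := X) (Y := X) (a : Cor C X)) = 0 := by
    rw [cl_tp, h1]
    exact map_zero (H.pull (sw X X))
  exact h2

/-- The complementary degree operator. -/
lemma degOp_flip {q : cor0 C X} (hq : DegOp H (X := X) (q : Cor C X)) :
    DegOp H (X := X) ((algebraMap ℚ (cor0 C X) (2 * X.dim : ℕ) - tp0 C X q : cor0 C X) :
      Cor C X) := by
  rw [degOp_iff] at hq ⊢
  intro m b hb
  have h1 : actH C X H ((algebraMap ℚ (cor0 C X) (2 * X.dim : ℕ) - tp0 C X q : cor0 C X) :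
      Cor C X) b = ((2 * X.dim : ℕ) : K) • b - H.act (H.cl (tp C (X := X) (Y := X)
        (q : Cor C X))) b := by
    have e : (((2 * X.dim : ℕ) : cor0 C X) : Cor C X) = ((2 * X.dim : ℕ) : Cor C X) :=
      map_natCast (cor0 C X).val _
    rw [map_natCast, Subalgebra.coe_sub, map_sub, LinearMap.sub_apply]
    congr 1
    rw [e, map_natCast, ← nsmul_one (A := Module.End K (H.A X)),
      LinearMap.smul_apply, Nat.cast_smul_eq_nsmul]
    rfl
  rw [h1]
  have h2 : H.act (H.cl (tp C (X := X) (Y := X) (q : Cor C X))) b =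
      ((2 * X.dim - m : ℤ) : K) • b := by
    rw [← sub_eq_zero]
    apply H.nondeg
    have h3 : H.tr X ∘ₗ LinearMap.mulLeft K (H.act (H.cl (tp C (X := X) (Y := X)
        (q : Cor C X))) b) = H.tr X ∘ₗ LinearMap.mulLeft K (((2 * X.dim - m : ℤ) : K) • b) := by
      apply ext_gr H
      intro j a ha
      have h4 : H.act (H.cl (X := X.prod X) (q : Cor C X)) a = (j : K) • a := hq j a ha
      rw [LinearMap.comp_apply, LinearMap.comp_apply, LinearMap.mulLeft_apply,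
        LinearMap.mulLeft_apply, tr_act' H, h4, mul_smul_comm, smul_mul_assoc, map_smul, map_smul]
      by_cases hj : m + j = 2 * X.dim
      · rw [show (2 * X.dim - m : ℤ) = j by omega]
      · rw [tr_zero H (H.mul_mem hb ha) hj, smul_zero, smul_zero]
    intro a
    have h4 := LinearMap.congr_fun h3 a
    rw [LinearMap.comp_apply, LinearMap.comp_apply, LinearMap.mulLeft_apply,
      LinearMap.mulLeft_apply] at h4
    rw [sub_mul, map_sub, h4, sub_self]
  rw [h2, ← sub_smul]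
  congr 1
  push_cast
  ring

lemma degOp_eval {Q : cor0 C X} (hQ : DegOp H (X := X) (Q : Cor C X)) {m : ℕ} {x : H.A X}
    (hx : x ∈ H.gr X m) {P : ℚ[X]} (hP : P.eval (m : ℚ) = 0) :
    actH C X H ((aeval Q P : cor0 C X) : Cor C X) x = 0 := by
  obtain ⟨P', rfl⟩ := dvd_iff_isRoot.2 hP
  rw [mul_comm, map_mul, Subalgebra.coe_mul, map_mul, Module.End.mul_apply]
  have h1 : actH C X H ((aeval Q (Polynomial.X - Polynomial.C (m : ℚ)) : cor0 C X) : Cor C X) x =
      0 := by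
    have e : (((m : ℕ) : cor0 C X) : Cor C X) = ((m : ℕ) : Cor C X) :=
      map_natCast (cor0 C X).val _
    rw [map_sub, aeval_X, aeval_C, map_natCast, Subalgebra.coe_sub, map_sub, LinearMap.sub_apply]
    have h2 : actH C X H (Q : Cor C X) x = ((m : ℤ) : K) • x := hQ m x hx
    rw [h2, e, map_natCast, ← nsmul_one (A := Module.End K (H.A X)),
      LinearMap.smul_apply, Int.cast_natCast, Nat.cast_smul_eq_nsmul]
    exact sub_self _
  rw [h1, map_zero]

variable {F : Type t} [Field F] [Algebra ℚ F]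

/-- The polynomials of a degree operator induce the Kunneth projectors. -/
lemma proj_of_degOp {Q : cor0 C X} (hQ : DegOp H (X := X) (Q : Cor C X)) {i : ℕ}
    (hi : i ≤ 2 * X.dim) {m : ℤ} {x : H.A X} (hx : x ∈ H.gr X m) (hx0 : x ≠ 0) :
    actH C X H ((aeval Q (lag (2 * X.dim) i) : cor0 C X) : Cor C X) x =
      if m = i then x else 0 := by
  obtain ⟨h1, h2⟩ := nonneg_le H hx hx0
  obtain ⟨m, rfl⟩ := Int.eq_ofNat_of_zero_le h1
  by_cases hm : m = i
  · subst hm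
    rw [if_pos rfl]
    have h3 := degOp_eval hQ hx (P := lag (2 * X.dim) m - 1) (by
      rw [eval_sub, eval_lag (by omega), if_pos rfl, eval_one, sub_self])
    rw [map_sub, map_one, Subalgebra.coe_sub, map_sub, LinearMap.sub_apply,
      Subalgebra.coe_one, map_one, sub_eq_zero] at h3
    exact h3
  · rw [if_neg (by exact_mod_cast hm)]
    exact degOp_eval hQ hx (by rw [eval_lag (by omega), if_neg hm])

lemma diff_of_degOp {D : F ⊗[ℚ] cor0 C X} {Q : cor0 C X}
    (hDQ : D - 1 ⊗ₜ Q ∈ (homTriv H X).baseChange F) (i : ℕ) :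
    idem (2 * X.dim) D i - 1 ⊗ₜ aeval Q (lag (2 * X.dim) i) ∈ (homTriv H X).baseChange F :=
  idem_diff (fun b x hx => homTriv_mul_left H b hx) (fun b x hx => homTriv_mul_right H b hx) hDQ
    (2 * X.dim) i

lemma act_of_degOp {D : F ⊗[ℚ] cor0 C X} {Q : cor0 C X} (hs : Sp (2 * X.dim) D)
    (hQ : DegOp H (X := X) (Q : Cor C X)) (hDQ : D - 1 ⊗ₜ Q ∈ (homTriv H X).baseChange F)
    (i : ℕ) : ∃ q : cor0 C X, (∀ (m : ℤ) (a : H.A X), H.Deg m a →
      actH C X H (q : Cor C X) a = if m = i then a else 0) ∧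
      idem (2 * X.dim) D i - 1 ⊗ₜ q ∈ (homTriv H X).baseChange F := by
  by_cases hi : i ≤ 2 * X.dim
  · refine ⟨aeval Q (lag (2 * X.dim) i), fun m x hx => ?_, diff_of_degOp hDQ i⟩
    by_cases hx0 : x = 0
    · subst hx0
      rw [ite_self, map_zero]
    · exact proj_of_degOp hQ hi hx hx0
  · refine ⟨0, fun m x hx => ?_, ?_⟩
    · change actH C X H 0 x = _
      rw [map_zero, LinearMap.zero_apply]
      by_cases hx0 : x = 0
      · subst hx0
        rw [ite_self]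
      · obtain ⟨h1, h2⟩ := nonneg_le H hx hx0
        rw [if_neg (by omega)]
    · rw [(sys_idem hs).out i (by omega), TensorProduct.tmul_zero, sub_self]
      exact Submodule.zero_mem _

/-- A degree operator with coefficients in `F` gives a Chow-Kunneth decomposition. -/
theorem isCKF_of_degOp {D : F ⊗[ℚ] cor0 C X} {Q : cor0 C X} (hs : Sp (2 * X.dim) D)
    (hQ : DegOp H (X := X) (Q : Cor C X)) (hDQ : D - 1 ⊗ₜ Q ∈ (homTriv H X).baseChange F) :
    IsCKF F H X (idem (2 * X.dim) D) where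
  mul := (sys_idem hs).mul
  out := (sys_idem hs).out
  sum := (sys_idem hs).sum
  act i := act_of_degOp hs hQ hDQ i

lemma homTriv_inj0 {Y : 𝒱.Obj} (i : Fin 2) (a : cor0 C Y) (ha : a ∈ homTriv H Y) :
    inj0 C Y 1 i a ∈ homTriv H (pw Y 1) := cl_inj H (X := Y) 1 i (a := (a : Cor C Y)) ha

lemma degOp_two {Y : 𝒱.Obj} {a b : cor0 C Y} (ha : DegOp H (X := Y) (a : Cor C Y))
    (hb : DegOp H (X := Y) (b : Cor C Y)) :
    DegOp H (X := pw Y 1) ((inj0 C Y 1 0 a + inj0 C Y 1 1 b : cor0 C (pw Y 1)) :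
      Cor C (pw Y 1)) := by
  have h4 := degOp_sum H (X := Y) 1 (fun i => if i = 0 then (a : Cor C Y) else (b : Cor C Y))
    (fun i => by
      by_cases hi : i = 0
      · subst hi; exact ha
      · simp only [if_neg hi]; exact hb)
  rw [Fin.sum_univ_two] at h4
  exact h4

/-- The data of a tower. -/
structure Tow (F : Type t) [Field F] [Algebra ℚ F] (H : WeilTheoryData.{u, v, w} C K) (Y : 𝒱.Obj)
    (τ : cor0 C Y) (D : F ⊗[ℚ] cor0 C Y) (Q : cor0 C Y) : Prop where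
  skew : Skew F (tp0 C Y) (2 * Y.dim) τ D
  deg : DegOp H (X := Y) (Q : Cor C Y)
  mem : D - 1 ⊗ₜ Q ∈ (homTriv H Y).baseChange F

/-- The first step of the tower. -/
theorem exists_tow {p : ℕ → F ⊗[ℚ] cor0 C X} (hp : IsCKF F H X p) :
    ∃ (τ : cor0 C (pw X 1)) (D : F ⊗[ℚ] cor0 C (pw X 1)) (Q : cor0 C (pw X 1)),
      Tow F H (pw X 1) τ D Q := by
  obtain ⟨q, hq1, hq2⟩ := IsCKF.exists_deg H hp
  have h1 := (pair_square (C := C) X).square hp.sys.sp
  have h2 := degOp_two hq1 (degOp_flip hq1)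
  have h3 := square_mem (N' := homTriv H (pw X 1)) (M := 2 * X.dim)
    (fun a ha => tp0_homTriv (H := H) (a := a) ha)
    (fun a ha => homTriv_inj0 0 a ha) (fun a ha => homTriv_inj0 1 a ha) hq2
  rw [← dim_square (C := C)] at h1
  exact ⟨_, _, _, ⟨h1, h2, h3⟩⟩

/-- The next step of the tower. -/
theorem Tow.next {Y : 𝒱.Obj} {τ : cor0 C Y} {D : F ⊗[ℚ] cor0 C Y} {Q : cor0 C Y}
    (h : Tow F H Y τ D Q) : Tow F H (pw Y 1) (inj0 C Y 1 0 τ * inj0 C Y 1 1 τ)
      (lt F (inj0 C Y 1 0) D + lt F (inj0 C Y 1 1) D) (inj0 C Y 1 0 Q + inj0 C Y 1 1 Q) := by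
  have h1 := (pair_square (C := C) Y).next h.skew
  have h2 := degOp_two h.deg h.deg
  have h3 := next_mem (N' := homTriv H (pw Y 1))
    (fun a ha => homTriv_inj0 0 a ha) (fun a ha => homTriv_inj0 1 a ha) h.mem
  rw [← dim_square (C := C)] at h1
  exact ⟨h1, h2, h3⟩

/-- The self-dual decomposition at a step of the tower. -/
theorem Tow.selfDual {Y : 𝒱.Obj} {τ : cor0 C Y} {D : F ⊗[ℚ] cor0 C Y} {Q : cor0 C Y}
    (h : Tow F H Y τ D Q) (hl : Lv F (tp0 C Y) τ (-1)) : ∃ P : ℕ → F ⊗[ℚ] cor0 C Y,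
      IsCKF F H Y P ∧ ∀ i ≤ 2 * Y.dim, (tp0 C Y).lTensor F (P i) = P (2 * Y.dim - i) := by
  obtain ⟨D', h1, h2, h3⟩ := h.skew.system isAnti_tp0 (fun a => tp0_tp0 a) hl
    (fun b x hx => homTriv_mul_left H b hx) (fun b x hx => homTriv_mul_right H b hx) h.mem
    (fun b => degOp_comm H h.deg b)
  exact ⟨_, isCKF_of_degOp h1 h.deg h2, h3⟩

/-- **The tower.** -/
theorem exists_tower {p : ℕ → F ⊗[ℚ] cor0 C X} (hp : IsCKF F H X p) : ∀ n : ℕ,
    ∃ (τ : cor0 C (sq X (n + 1))) (D : F ⊗[ℚ] cor0 C (sq X (n + 1))) (Q : cor0 C (sq X (n + 1))),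
      Tow F H (sq X (n + 1)) τ D Q ∧ ∀ c, SS n c → Lv F (tp0 C (sq X (n + 1))) τ c
  | 0 => by
    obtain ⟨τ, D, Q, h⟩ := exists_tow hp
    refine ⟨τ, D, Q, h, ?_⟩
    rintro c ⟨u, rfl⟩
    exact Lv.sq isAnti_tp0 h.skew.invol h.skew.tau u
  | n + 1 => by
    obtain ⟨τ, D, Q, h1, h2⟩ := exists_tower hp n
    refine ⟨_, _, _, h1.next, ?_⟩
    rintro c ⟨a, b, ha, hb, rfl⟩
    exact (pair_square (C := C) (sq X (n + 1))).lv h1.skew.invol h1.skew.tau (h2 a ha) (h2 b hb)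

/-- **Self-dual decompositions of powers.** -/
theorem exists_selfDual {p : ℕ → F ⊗[ℚ] cor0 C X} (hp : IsCKF F H X p) {n : ℕ}
    (hn : SS n (-1 : F)) : ∃ P : ℕ → F ⊗[ℚ] cor0 C (sq X (n + 1)), IsCKF F H (sq X (n + 1)) P ∧
      ∀ i ≤ 2 * (sq X (n + 1)).dim, (tp0 C (sq X (n + 1))).lTensor F (P i) =
        P (2 * (sq X (n + 1)).dim - i) := by
  obtain ⟨τ, D, Q, h1, h2⟩ := exists_tower hp n
  exact h1.selfDual (h2 _ hn)

end weil

end Pool.Agent.H838.CF
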