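import Pool.Agent.H838.CFDual

/-!
# Self-dual Chow-Kunneth decompositions of powers
-/

set_option autoImplicit false
set_option linter.unusedSectionVars false

open CategoryTheory AlgebraicGeometry

universe u v w t

namespace Pool.Agent.H838.CF

open TensorProduct
open Pool.Agent.H914 Pool.Agent.H914.VarClass Pool.Agent.H914.VarClass.Obj Pool.Agent.W492.BB
  Pool.Agent.W550.Corr Pool.Agent.TH133

variable {k : Type u} [Field k] {𝒱 : VarClass k}

/-- A sum of `2 ^ n` squares. -/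
lemma ss_of_sum {F : Type*} [Field F] [Algebra ℚ F] : ∀ (n : ℕ) (c : F) (x : Fin (2 ^ n) → F),
    ∑ i, x i * x i = c → SS n c
  | 0, c, x, h => ⟨x 0, by rw [← h]; exact Fin.sum_univ_one _⟩
  | n + 1, c, x, h => by
    have e : 2 ^ n + 2 ^ n = 2 ^ (n + 1) := by ring
    refine ⟨_, _, ss_of_sum n _ (fun i => x (finCongr e (Fin.castAdd _ i))) rfl,
      ss_of_sum n _ (fun i => x (finCongr e (Fin.natAdd _ i))) rfl, ?_⟩
    rw [← h, ← Fin.sum_univ_add (fun i => x (finCongr e i) * x (finCongr e i))]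
    exact (Equiv.sum_comp (finCongr e) fun i => x i * x i).symm

variable {C : TheoryData.{u, v, 0} 𝒱 ℚ} [hC : IsChowProj C] {K : Type w} [Field K]
  {H : WeilTheoryData.{u, v, w} C K} {X Y : 𝒱.Obj} {F : Type t} [Field F] [Algebra ℚ F]

include hC

lemma tp_io (a : F ⊗[ℚ] cor0 C X) :
    tp (ChF F C) (io F C X a) = io F C X ((tp0 C X).lTensor F a) := by
  induction a with
  | zero => rw [map_zero, map_zero, map_zero]; exact map_zero ((ChF F C).pull (sw X X))
  | tmul r a =>
    rw [LinearMap.lTensor_tmul, io_tmul, io_tmul]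
    exact chF_pull_pt (sw X X) r (sub C X a)
  | add a b ha hb =>
    rw [map_add, map_add, map_add, ← ha, ← hb]
    exact map_add ((ChF F C).pull (sw X X)) _ _

variable [hH : IsWeilProj H]

include hH

/-- **Self-dual decompositions of the powers.** -/
theorem selfDual_sq {n : ℕ} (hn : SS n (-1 : F)) (h : ∃ p, CKF F X H p) :
    ∃ P, CKF F (sq X (n + 1)) H P ∧ SelfDualF F (sq X (n + 1)) P := by
  rw [exists_conv] at h
  obtain ⟨p, hp⟩ := h
  obtain ⟨P, h1, h2⟩ := exists_selfDual hp hn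
  refine ⟨_, ckf_of h1, fun i hi => ?_⟩
  rw [tp_io, h2 i hi]

/-- **From any coefficient field to any other.** -/
theorem exists_pw {E : Type*} [Field E] [Algebra ℚ E] (h : ∃ p, CKF F X H p) :
    ∃ m, ∃ p, CKF E (pw X m) H p := by
  rw [exists_conv] at h
  obtain ⟨p, hp⟩ := h
  obtain ⟨L, iL, aL, fL, P, hP⟩ := exists_nf hp
  obtain ⟨m, hm⟩ := finrank_eq L
  obtain ⟨δ, hδ⟩ := main_nf (H := H) X L hm
  exact ⟨m, exists_conv.2 ⟨_, isCKF_extCK E (hδ P hP).1⟩⟩

/-- The same for a number field. -/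
theorem exists_pw_nf {E : Type*} [Field E] [Algebra ℚ E] {m : ℕ}
    (hm : Module.finrank ℚ F = m + 1) (h : ∃ p, CKF F X H p) : ∃ p, CKF E (pw X m) H p := by
  rw [exists_conv] at h
  obtain ⟨p, hp⟩ := h
  have : FiniteDimensional ℚ F := Module.finite_of_finrank_pos (by omega)
  obtain ⟨δ, hδ⟩ := main_nf (H := H) X F hm
  exact exists_conv.2 ⟨_, isCKF_extCK E (hδ p hp).1⟩

end Pool.Agent.H838.CF
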