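import Pool.Agent.H838.CFLag

/-!
# A flag of idempotents gives a degree operator
-/

set_option autoImplicit false

namespace Pool.Agent.H838.CF

open Polynomial

variable {R : Type*} [Ring R] [Algebra ℚ R]

/-- The operator `∑ (1 - E a)`, `a < M`. -/
noncomputable def flagOp (M : ℕ) (E : ℕ → R) : R := ∑ a ∈ Finset.range M, (1 - E a)

lemma flagOp_mul {M : ℕ} {E : ℕ → R} {b : ℕ} (hb : b ≤ M) {y : R}
    (hy : ∀ a, b ≤ a → a < M → E a * y = y) :
    flagOp M E * y = (b : ℚ) • y - ∑ a ∈ Finset.range b, E a * y := by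
  have h1 : flagOp M E * y = ∑ a ∈ Finset.range b, (1 - E a) * y := by
    rw [flagOp, Finset.sum_mul]
    symm
    apply Finset.sum_subset
    · intro a ha
      rw [Finset.mem_range] at *
      omega
    · intro a ha ha'
      rw [Finset.mem_range] at ha ha'
      rw [sub_mul, one_mul, hy a (by omega) ha, sub_self]
  rw [h1]
  simp only [sub_mul, one_mul]
  rw [Finset.sum_sub_distrib, Finset.sum_const, Finset.card_range, Nat.cast_smul_eq_nsmul]

lemma flagOp_step {M : ℕ} {E : ℕ → R} (hE : ∀ a b, b ≤ a → a < M → E a * E b = E b) {b : ℕ}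
    (hb : b ≤ M) {y : R} (hy : ∀ a, b ≤ a → a < M → E a * y = y) :
    ∀ a, b ≤ a + 1 → a < M → E a * ((flagOp M E - algebraMap ℚ R b) * y) =
      (flagOp M E - algebraMap ℚ R b) * y := by
  intro a ha haM
  have h1 : (flagOp M E - algebraMap ℚ R b) * y = - ∑ c ∈ Finset.range b, E c * y := by
    rw [sub_mul, flagOp_mul hb hy, ← Algebra.smul_def]
    abel
  rw [h1, mul_neg, Finset.mul_sum]
  congr 1
  refine Finset.sum_congr rfl fun c hc => ?_
  rw [Finset.mem_range] at hc
  rw [← mul_assoc, hE a c (by omega) haM]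

lemma flagOp_zero {M : ℕ} {E : ℕ → R} {y : R} (hy : ∀ a, a < M → E a * y = y) :
    flagOp M E * y = 0 := by
  have h := flagOp_mul (b := 0) (Nat.zero_le M) (E := E) (y := y) (fun a _ ha => hy a ha)
  rw [h]
  simp

/-- The operator of a flag of idempotents has the eigenvalues `0, …, M`. -/
theorem flagOp_sp {M : ℕ} {E : ℕ → R} (hE : ∀ a b, b ≤ a → a < M → E a * E b = E b) :
    Sp M (flagOp M E) := by
  have h1 : nod M = ∏ c ∈ Finset.range (M + 1), (X - C ((M - c : ℕ) : ℚ)) := by
    rw [nod, Lagrange.nodal_eq, ← Finset.prod_range_reflect]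
    refine Finset.prod_congr rfl fun c _ => ?_
    rw [show M + 1 - 1 - c = M - c by omega]
  have h2 : ∀ m, m ≤ M → ∀ a, M - m ≤ a → a < M →
      E a * aeval (flagOp M E) (∏ c ∈ Finset.range m, (X - C ((M - c : ℕ) : ℚ))) =
        aeval (flagOp M E) (∏ c ∈ Finset.range m, (X - C ((M - c : ℕ) : ℚ))) := by
    intro m
    induction m with
    | zero => intro _ a ha haM; omega
    | succ m ih =>
      intro hm a ha haM
      rw [Finset.prod_range_succ, mul_comm, map_mul, map_sub, aeval_X, aeval_C]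
      exact flagOp_step hE (b := M - m) (by omega) (ih (by omega)) a (by omega) haM
  rw [Sp, h1, Finset.prod_range_succ, mul_comm, map_mul, map_sub, aeval_X, aeval_C, Nat.sub_self,
    Nat.cast_zero, map_zero, sub_zero]
  exact flagOp_zero fun a ha => h2 M le_rfl a (by omega) ha

end Pool.Agent.H838.CF
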