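import Pool.Agent.H838.CFAct

/-!
# Murre's conjectures for Chow-Kunneth decompositions with coefficients in a field: definitions
-/

set_option autoImplicit false
set_option linter.unusedSectionVars false

open CategoryTheory AlgebraicGeometry

universe u v w

namespace Pool.Agent.H838.CF

open TensorProduct
open Pool.Agent.H914 Pool.Agent.H914.VarClass Pool.Agent.H914.VarClass.Obj Pool.Agent.W492.BB
  Pool.Agent.W550.Corr Pool.Agent.TH133

variable {k : Type u} [Field k] {𝒱 : VarClass k} {C : TheoryData.{u, v, 0} 𝒱 ℚ} {K : Type w}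
  [Field K]

/-- The step `(p_{2i-n} + ⋯ + p_0)_* (F ⊗ CH^i(X))` of the filtration of `F ⊗ CH^i(X)` attached to
the Chow-Kunneth decomposition `p` with coefficients in the field `F`. -/
noncomputable def ckFilF (F : Type*) [Field F] [Algebra ℚ F] (C : TheoryData.{u, v, 0} 𝒱 ℚ)
    [IsChowProj C] {X : 𝒱.Obj} (p : ℕ → F ⊗[ℚ] cor0 C X) (i n : ℕ) :
    Submodule F (F ⊗[ℚ] C.A X) :=
  ((C.gr X i).baseChange F).map (actS F (alp C X) (∑ j ∈ Finset.range (2 * i + 1 - n), p j))

/-- The homologically trivial cycles of codimension `i`. -/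
noncomputable def homCyc (H : WeilTheoryData.{u, v, w} C K) (X : 𝒱.Obj) (i : ℕ) :
    Submodule ℚ (C.A X) where
  carrier := {x | x ∈ C.gr X i ∧ H.cl x = 0}
  zero_mem' := ⟨Submodule.zero_mem _, map_zero _⟩
  add_mem' ha hb := ⟨Submodule.add_mem _ ha.1 hb.1, cl_add_zero H ha.2 hb.2⟩
  smul_mem' q _ ha := ⟨Submodule.smul_mem _ q ha.1, cl_smul_zero H ha.2 q⟩

variable (F : Type*) [Field F] [Algebra ℚ F] [hC : IsChowProj C]

/-- The first half of Murre's conjecture (B) for `X` and all its Chow-Kunneth decompositions with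
coefficients in `F`: `F^0` is the whole `F ⊗ CH^i(X)`. -/
def MurreB0F (H : WeilTheoryData.{u, v, w} C K) (X : 𝒱.Obj) : Prop :=
  ∀ p, IsCKF F H X p → ∀ i : ℕ, ckFilF F C p i 0 = (C.gr X i).baseChange F

/-- The second half of Murre's conjecture (B) for `X` and all its Chow-Kunneth decompositions with
coefficients in `F`: `F^(i+1)` of `F ⊗ CH^i(X)` is zero. -/
def MurreB1F (H : WeilTheoryData.{u, v, w} C K) (X : 𝒱.Obj) : Prop :=
  ∀ p, IsCKF F H X p → ∀ i : ℕ, ckFilF F C p i (i + 1) = ⊥

/-- Murre's conjecture (C) for `X` with coefficients in `F`: the filtration of `F ⊗ CH^i(X)` does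
not depend on the Chow-Kunneth decomposition with coefficients in `F`. -/
def MurreCF (H : WeilTheoryData.{u, v, w} C K) (X : 𝒱.Obj) : Prop :=
  ∀ p p', IsCKF F H X p → IsCKF F H X p' → ∀ i n : ℕ, ckFilF F C p i n = ckFilF F C p' i n

/-- Murre's conjecture (D) for `X` and all its Chow-Kunneth decompositions with coefficients in
`F`: `F^1` of `F ⊗ CH^i(X)` is spanned by the homologically trivial cycles. -/
def MurreDF (H : WeilTheoryData.{u, v, w} C K) (X : 𝒱.Obj) : Prop :=
  ∀ p, IsCKF F H X p → ∀ i : ℕ, ckFilF F C p i 1 = (homCyc H X i).baseChange F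

end Pool.Agent.H838.CF
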