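import Pool.Agent.H838.CFTrans
import Pool.Agent.H838.CFMur

/-!
# Coefficients in a number field
-/

set_option autoImplicit false
set_option linter.unusedSectionVars false

open CategoryTheory AlgebraicGeometry

universe u v w

namespace Pool.Agent.H838.CF

open TensorProduct
open Pool.Agent.H914 Pool.Agent.H914.VarClass Pool.Agent.H914.VarClass.Obj Pool.Agent.W492.BB
  Pool.Agent.W550.Corr Pool.Agent.TH133

attribute [-instance] DivisionRing.toRatAlgebra in
lemma exists_galois'.{t} (F : Type t) [Field F] [Algebra ℚ F] [FiniteDimensional ℚ F] {n : ℕ}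
    (hn : Module.finrank ℚ F = n + 1) : ∃ (L : Type t) (_ : Field L) (_ : Algebra ℚ L),
      FiniteDimensional ℚ L ∧ IsGalois ℚ L ∧ Nonempty (Fin (n + 1) ≃ (F →ₐ[ℚ] L)) := by
  obtain ⟨L, h1, h2, h3⟩ := exists_galois F hn
  exact ⟨L, inferInstance, inferInstance, h1, h2, h3⟩

variable {k : Type u} [Field k] {𝒱 : VarClass k}

variable {C : TheoryData.{u, v, 0} 𝒱 ℚ} [hC : IsChowProj C] {K : Type w} [Field K]
  {H : WeilTheoryData.{u, v, w} C K} [hH : IsWeilProj H] {X Y : 𝒱.Obj}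

include hC hH

lemma one_smul_inj {q : ℚ} (h : H.cl (q • (1 : C.A X)) = 0) : q = 0 := by
  by_contra hq
  have h1 : (1 : C.A X) = (algebraMap ℚ (C.A X) q⁻¹) * (q • (1 : C.A X)) := by
    rw [← Algebra.smul_def, smul_smul, inv_mul_cancel₀ hq, one_smul]
  have h2 : (1 : H.A X) = 0 := by rw [← map_one (H.cl (X := X)), h1, map_mul, h, mul_zero]
  exact hH.one_ne_zero X h2

lemma alp_one_eq_zero {a : cor0 C X} (h : actH C X H (a : Cor C X) 1 = 0) :
    alp C X a 1 = 0 := by
  have h1 : alp C X a 1 ∈ C.gr X 0 := act_mem0 C a.2 (C.one_mem X)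
  obtain ⟨q, hq⟩ := hC.gr_zero X _ h1
  have h2 : H.cl (alp C X a 1) = 0 := by
    rw [alp_apply, cl_act H, map_one]
    exact h
  rw [hq] at h2 ⊢
  rw [one_smul_inj (H := H) h2, zero_smul]

lemma homTriv_one {a : cor0 C X} (h : a ∈ homTriv H X) : alp C X a 1 = 0 := by
  rw [mem_homTriv] at h
  apply alp_one_eq_zero (H := H)
  rw [h]
  rfl

variable {F : Type*} [Field F] [Algebra ℚ F]

lemma IsCKF.act_one {p : ℕ → F ⊗[ℚ] cor0 C X} (h : IsCKF F H X p) :
    actS F (alp C X) (dop (2 * X.dim) p) (1 ⊗ₜ 1) = 0 := by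
  obtain ⟨q, hq1, hq2⟩ := IsCKF.exists_deg H h
  have h1 : actS F (alp C X) (1 ⊗ₜ q) (1 ⊗ₜ 1) = 0 := by
    rw [actS_tmul]
    have h2 : alp C X q 1 = 0 := by
      apply alp_one_eq_zero (H := H)
      have := hq1 0 1 (H.one_mem X)
      rw [Int.cast_zero, zero_smul] at this
      exact this
    rw [h2, TensorProduct.tmul_zero]
  have h3 : actS F (alp C X) (dop (2 * X.dim) p - 1 ⊗ₜ q) (1 ⊗ₜ 1) = 0 := by
    rw [actS_one]
    exact lTensor_eq_zero_of_mem (P := homTriv H X) (fun a ha => homTriv_one ha) hq2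
  rw [map_sub, LinearMap.sub_apply, h1, sub_zero] at h3
  exact h3

lemma IsCKF.sys {p : ℕ → F ⊗[ℚ] cor0 C X} (h : IsCKF F H X p) : Sys (2 * X.dim) p :=
  ⟨h.mul, h.out, h.sum⟩

/-- **Descent to the power.** -/
theorem main_nf (X : 𝒱.Obj) (F : Type*) [Field F] [Algebra ℚ F] [FiniteDimensional ℚ F]
    {n : ℕ} (hn : Module.finrank ℚ F = n + 1) :
    ∃ δ : (ℕ → F ⊗[ℚ] cor0 C X) → ℕ → cor0 C (pw X n), ∀ p, IsCKF F H X p →
      IsCK H (pw X n) (fun i => (δ p i : Cor C (pw X n))) ∧ ∀ p', IsCKF F H X p' →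
        ∀ V : Submodule ℚ (C.A (pw X n)), Stb C V → ∀ a b : ℕ,
          (∀ v ∈ V, alp C (pw X n) (δ p' b * δ p a) v = 0) → ∀ x : C.A X, pb C X n 0 x ∈ V →
            actS F (alp C X) (p' b * p a) (1 ⊗ₜ x) = 0 := by
  obtain ⟨L, iL, aL, hL1, hL2, ⟨Φ⟩⟩ := exists_galois' F hn
  obtain ⟨g, g', h1, h2, h3⟩ := core (ι := inj0 C X n) (P := perm0 C X n)
    (fun i j hij a b => inj0_comm (C := C) n i j hij a b)
    (fun σ i a => perm0_conj (C := C) n σ i a) Φ
  choose D hD using h3
  have hdim : (n + 1) * (2 * X.dim) = 2 * (pw X n).dim := by rw [pw_dim (C := C)]; ring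
  refine ⟨fun p i => idem (2 * (pw X n).dim) (D (dop (2 * X.dim) p)) i, fun p hp => ⟨?_, ?_⟩⟩
  · obtain ⟨q, hq1, hq2⟩ := IsCKF.exists_deg H hp
    obtain ⟨-, e2, e3⟩ := hD (dop (2 * X.dim) p)
    have hs := e2 _ hp.sys.sp
    rw [hdim] at hs
    have hQ : DegOp H (X := pw X n)
        ((∑ i, inj0 C X n i q : cor0 C (pw X n)) : Cor C (pw X n)) := by
      have h4 := degOp_sum H (X := X) n (fun _ => (q : Cor C X)) (fun _ => hq1)
      have h5 : ((∑ i, inj0 C X n i q : cor0 C (pw X n)) : Cor C (pw X n)) =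
          ∑ i, inj C X n i (q : Cor C X) := by
        rw [AddSubmonoidClass.coe_finsetSum]
        rfl
      rw [h5]
      exact h4
    have hdeg : D (dop (2 * X.dim) p) - ∑ i, inj0 C X n i q ∈ homTriv H (pw X n) :=
      e3 (homTriv H X) (homTriv H (pw X n))
        (fun i a ha => cl_inj H (X := X) n i (a := (a : Cor C X)) ha)
        (fun b x hx => homTriv_mul_left H b hx) (fun b x hx => homTriv_mul_right H b hx) q hq2
        (fun b => degOp_comm H hQ b)
    exact isCK_of_degOp H hs (degOp_congr H hQ hdeg)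
  · intro p' hp' V hV a b hkill x hx
    have e1 : p' b = Polynomial.aeval (dop (2 * X.dim) p') (lag (2 * (pw X n).dim) b) := by
      rw [hp'.sys.aeval_lag (by rw [← hdim]; nlinarith [Nat.zero_le (n * (2 * X.dim))])]
    have e2 : p a = Polynomial.aeval (dop (2 * X.dim) p) (lag (2 * (pw X n).dim) a) := by
      rw [hp.sys.aeval_lag (by rw [← hdim]; nlinarith [Nat.zero_le (n * (2 * X.dim))])]
    rw [e1, e2]
    exact transfer n 0 Φ h1 h2 hp.act_one hp'.act_one (hD _).1 (hD _).1 _ _ hV hkill hx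

/-! ### The filtration -/

lemma Stb.gr (i : ℤ) : Stb C (C.gr Y i) := fun a _ hv => act_mem0 C a.2 hv

lemma Stb.homCyc (i : ℕ) : Stb C (homCyc H Y i) := by
  intro a x hx
  refine ⟨act_mem0 C a.2 hx.1, ?_⟩
  rw [alp_apply, cl_act H, hx.2]
  exact TheoryData.act_map_zero _ _

lemma IsCKF.mem_ckFilF {p : ℕ → F ⊗[ℚ] cor0 C X} (h : IsCKF F H X p) (i n : ℕ)
    (y : F ⊗[ℚ] C.A X) : y ∈ ckFilF F C p i n ↔
      y ∈ (C.gr X i).baseChange F ∧ ∀ j, 2 * i + 1 - n ≤ j → actS F (alp C X) (p j) y = 0 := by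
  constructor
  · rintro ⟨z, hz, rfl⟩
    refine ⟨actS_mem (fun a m hm => act_mem0 C a.2 hm) _ hz, fun j hj => ?_⟩
    rw [← Module.End.mul_apply, ← map_mul, Finset.mul_sum]
    rw [Finset.sum_eq_zero, map_zero]
    · rfl
    · intro m hm
      rw [Finset.mem_range] at hm
      rw [h.mul, if_neg (by omega)]
  · rintro ⟨h1, h2⟩
    refine ⟨y, h1, ?_⟩
    have h3 : actS F (alp C X) (∑ j ∈ Finset.range (2 * X.dim + 1 + (2 * i + 1 - n)), p j) y =
        y := by
      have h4 : ∑ j ∈ Finset.range (2 * X.dim + 1 + (2 * i + 1 - n)), p j = 1 := by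
        rw [← h.sum]
        symm
        apply Finset.sum_subset
        · intro j hj
          rw [Finset.mem_range] at *
          omega
        · intro j _ hj
          rw [Finset.mem_range] at hj
          exact h.out j (by omega)
      rw [h4, map_one]
      rfl
    conv_rhs => rw [← h3]
    rw [map_sum, map_sum, LinearMap.sum_apply, LinearMap.sum_apply]
    apply Finset.sum_subset
    · intro j hj
      rw [Finset.mem_range] at *
      omega
    · intro j _ hj
      rw [Finset.mem_range] at hj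
      exact h2 j (by omega)

lemma b0F_iff : MurreB0F F H X ↔ ∀ p, IsCKF F H X p → ∀ (i j : ℕ) (x : C.A X), x ∈ C.gr X i →
    2 * i < j → actS F (alp C X) (p j) (1 ⊗ₜ x) = 0 := by
  constructor
  · intro h p hp i j x hx hj
    have h1 : (1 ⊗ₜ x : F ⊗[ℚ] C.A X) ∈ ckFilF F C p i 0 := by
      rw [h p hp i]
      exact Submodule.tmul_mem_baseChange_of_mem _ hx
    rw [hp.mem_ckFilF] at h1
    exact h1.2 j (by omega)
  · intro h p hp i
    ext y
    rw [hp.mem_ckFilF]
    refine ⟨fun h1 => h1.1, fun h1 => ⟨h1, fun j hj => ?_⟩⟩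
    exact actS_eq_zero (fun x hx => h p hp i j x hx (by omega)) h1

lemma b1F_iff : MurreB1F F H X ↔ ∀ p, IsCKF F H X p → ∀ (i j : ℕ) (x : C.A X), x ∈ C.gr X i →
    j < i → actS F (alp C X) (p j) (1 ⊗ₜ x) = 0 := by
  constructor
  · intro h p hp i j x hx hj
    have h1 : actS F (alp C X) (p j) (1 ⊗ₜ x) ∈ ckFilF F C p i (i + 1) := by
      rw [hp.mem_ckFilF]
      refine ⟨actS_mem (fun a m hm => act_mem0 C a.2 hm) _
        (Submodule.tmul_mem_baseChange_of_mem _ hx), fun m hm => ?_⟩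
      rw [← Module.End.mul_apply, ← map_mul, hp.mul, if_neg (by omega), map_zero]
      rfl
    rw [h p hp i] at h1
    exact (Submodule.mem_bot _).1 h1
  · intro h p hp i
    rw [eq_bot_iff]
    rintro _ ⟨z, hz, rfl⟩
    rw [Submodule.mem_bot, map_sum, LinearMap.sum_apply]
    refine Finset.sum_eq_zero fun j hj => ?_
    rw [Finset.mem_range] at hj
    exact actS_eq_zero (fun x hx => h p hp i j x hx (by omega)) hz

lemma b1_iff : MurreB1 H X ↔ ∀ π, IsCK H X π → ∀ (i j : ℕ) (x : C.A X), x ∈ C.gr X i →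
    j < i → C.act (π j) x = 0 := by
  constructor
  · intro h π hπ i j x hx hj
    have h1 : C.act (π j) x ∈ ckFil C π i (i + 1) := by
      rw [hπ.mem_ckFil]
      refine ⟨act_mem0 C (hπ.deg j) hx, fun m hm => ?_⟩
      rw [← C.act_comp, hπ.comp_eq, if_neg (by omega)]
      exact C.act_zero _
    rw [h π hπ i] at h1
    exact (Submodule.mem_bot _).1 h1
  · intro h π hπ i
    rw [eq_bot_iff]
    rintro _ ⟨z, hz, rfl⟩
    rw [Submodule.mem_bot, TheoryData.actL_apply, act_sum]
    refine Finset.sum_eq_zero fun j hj => ?_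
    rw [Finset.mem_range] at hj
    exact h π hπ i j z hz (by omega)

lemma cF_iff : MurreCF F H X ↔ ∀ p p', IsCKF F H X p → IsCKF F H X p' →
    ∀ (i j m : ℕ) (x : C.A X), x ∈ C.gr X i → j ≤ 2 * i → j < m →
      actS F (alp C X) (p' m * p j) (1 ⊗ₜ x) = 0 := by
  constructor
  · intro h p p' hp hp' i j m x hx hj hm
    have h1 : actS F (alp C X) (p j) (1 ⊗ₜ x) ∈ ckFilF F C p i (2 * i - j) := by
      rw [hp.mem_ckFilF]
      refine ⟨actS_mem (fun a m hm => act_mem0 C a.2 hm) _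
        (Submodule.tmul_mem_baseChange_of_mem _ hx), fun m hm => ?_⟩
      rw [← Module.End.mul_apply, ← map_mul, hp.mul, if_neg (by omega), map_zero]
      rfl
    rw [h p p' hp hp', hp'.mem_ckFilF] at h1
    rw [map_mul]
    exact h1.2 m (by omega)
  · intro h
    have key : ∀ p p', IsCKF F H X p → IsCKF F H X p' → ∀ i n : ℕ,
        ckFilF F C p i n ≤ ckFilF F C p' i n := by
      rintro p p' hp hp' i n _ ⟨z, hz, rfl⟩
      rw [hp'.mem_ckFilF]
      refine ⟨actS_mem (fun a m hm => act_mem0 C a.2 hm) _ hz, fun m hm => ?_⟩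
      rw [← Module.End.mul_apply, ← map_mul, Finset.mul_sum, map_sum, LinearMap.sum_apply]
      refine Finset.sum_eq_zero fun j hj => ?_
      rw [Finset.mem_range] at hj
      exact actS_eq_zero (fun x hx => h p p' hp hp' i j m x hx (by omega) (by omega)) hz
    intro p p' hp hp' i n
    exact le_antisymm (key p p' hp hp' i n) (key p' p hp' hp i n)

lemma c_iff : MurreC H X ↔ ∀ π π', IsCK H X π → IsCK H X π' →
    ∀ (i j m : ℕ) (x : C.A X), x ∈ C.gr X i → j ≤ 2 * i → j < m →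
      C.act (π' m) (C.act (π j) x) = 0 := by
  constructor
  · intro h p p' hp hp' i j m x hx hj hm
    have h1 : C.act (p j) x ∈ ckFil C p i (2 * i - j) := by
      rw [hp.mem_ckFil]
      refine ⟨act_mem0 C (hp.deg j) hx, fun m hm => ?_⟩
      rw [← C.act_comp, hp.comp_eq, if_neg (by omega)]
      exact C.act_zero _
    rw [h p p' hp hp', hp'.mem_ckFil] at h1
    exact h1.2 m (by omega)
  · intro h
    have key : ∀ p p', IsCK H X p → IsCK H X p' → ∀ i n : ℕ,
        ckFil C p i n ≤ ckFil C p' i n := by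
      rintro p p' hp hp' i n _ ⟨z, hz, rfl⟩
      rw [hp'.mem_ckFil, TheoryData.actL_apply, act_sum]
      refine ⟨Submodule.sum_mem _ fun j _ => act_mem0 C (hp.deg j) hz, fun m hm => ?_⟩
      rw [act_map_sum]
      refine Finset.sum_eq_zero fun j hj => ?_
      rw [Finset.mem_range] at hj
      exact h p p' hp hp' i j m z hz (by omega) (by omega)
    intro p p' hp hp' i n
    exact le_antisymm (key p p' hp hp' i n) (key p' p hp' hp i n)

end Pool.Agent.H838.CF
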