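import Pool.Agent.H838.CFSpec
import Pool.Agent.H838.CFNum

/-!
# Specialization of Chow-Kunneth decompositions
-/

set_option autoImplicit false
set_option linter.unusedSectionVars false

open CategoryTheory AlgebraicGeometry

universe u v w t

namespace Pool.Agent.H838.CF

open TensorProduct
open Pool.Agent.H914 Pool.Agent.H914.VarClass Pool.Agent.H914.VarClass.Obj Pool.Agent.W492.BB
  Pool.Agent.W550.Corr Pool.Agent.TH133

variable {k : Type u} [Field k] {𝒱 : VarClass k}

variable {C : TheoryData.{u, v, 0} 𝒱 ℚ} [hC : IsChowProj C] {K : Type w} [Field K]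
  {H : WeilTheoryData.{u, v, w} C K} [hH : IsWeilProj H] {X Y : 𝒱.Obj}

include hC hH

/-- **Specialization of finitely many Chow-Kunneth decompositions.** -/
theorem spec_CK {F : Type t} [Field F] [Algebra ℚ F] {κ : Type} [Finite κ]
    {p : κ → ℕ → F ⊗[ℚ] cor0 C X} (hp : ∀ c, IsCKF F H X (p c)) {c c' : κ} {a b : ℕ} {x : C.A X}
    (hz : actS F (alp C X) (p c' b * p c a) (1 ⊗ₜ x) ≠ 0) :
    ∃ (E : Type t) (_ : Field E) (_ : Algebra ℚ E) (_ : FiniteDimensional ℚ E)
      (P : κ → ℕ → E ⊗[ℚ] cor0 C X), (∀ c, IsCKF E H X (P c)) ∧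
        actS E (alp C X) (P c' b * P c a) (1 ⊗ₜ x) ≠ 0 := by
  classical
  have h0 : ∀ c i, ∃ q : cor0 C X, IsProjector H X i q ∧
      p c i - 1 ⊗ₜ q ∈ (homTriv H X).baseChange F := fun c => (hp c).act
  choose q hq1 hq2 using h0
  have hF : Function.Injective (algebraMap ℚ F) := (algebraMap ℚ F).injective
  obtain ⟨R, E, iE, aE, fE, φ, p', z', h1, h2, h3, h4⟩ := exists_spec (homTriv H X)
    (fun i : κ × Fin (2 * X.dim + 1) => p i.1 i.2) (fun i => q i.1 i.2)
    (fun i => hq2 i.1 i.2) _ hz
  have hval : Function.Injective (R.val) := Subtype.val_injective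
  -- the lift of the decomposition to `R`
  let r : κ → ℕ → R ⊗[ℚ] cor0 C X := fun c i =>
    if h : i < 2 * X.dim + 1 then p' (c, ⟨i, h⟩) else 0
  have hr : ∀ c i, bc _ R.val (r c i) = p c i := by
    intro c i
    simp only [r]
    split_ifs with h
    · exact h1 (c, ⟨i, h⟩)
    · rw [map_zero, (hp c).out i (by omega)]
  have hbi := bc_injective (B := cor0 C X) R.val hval
  have hrmul : ∀ c i j, r c i * r c j = if i = j then r c i else 0 := by
    intro c i j
    apply hbi
    rw [map_mul, hr, hr, (hp c).mul]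
    split_ifs
    · exact (hr c i).symm
    · exact (map_zero _).symm
  refine ⟨E, iE, aE, fE, fun c i => bc _ φ (r c i), fun c => ⟨?_, ?_, ?_, ?_⟩, ?_⟩
  · intro i j
    rw [← map_mul, hrmul]
    split_ifs
    · rfl
    · exact map_zero _
  · intro i hi
    simp only [r]
    rw [dif_neg (by omega), map_zero]
  · rw [← map_sum]
    have h5 : ∑ i ∈ Finset.range (2 * X.dim + 1), r c i = 1 := by
      apply hbi
      rw [map_sum, map_one, ← (hp c).sum]
      exact Finset.sum_congr rfl fun i _ => hr c i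
    rw [h5, map_one]
  · intro i
    refine ⟨q c i, hq1 c i, ?_⟩
    by_cases hi : i < 2 * X.dim + 1
    · have h5 : r c i - 1 ⊗ₜ q c i ∈ (homTriv H X).baseChange R := by
        simp only [r]
        rw [dif_pos hi]
        exact h3 (c, ⟨i, hi⟩)
      have h6 := bm_mem φ h5
      rw [← bc_eq_bm, map_sub, bc_tmul, map_one] at h6
      exact h6
    · have h5 : q c i ∈ homTriv H X := by
        have h6 := hq2 c i
        rw [(hp c).out i (by omega), zero_sub, neg_mem_iff] at h6
        exact mem_of_mem_baseChange hF h6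
      simp only [r]
      rw [dif_neg hi, map_zero, zero_sub, neg_mem_iff]
      exact Submodule.tmul_mem_baseChange_of_mem _ h5
  · have h5 : z' = actS R (alp C X) (r c' b * r c a) (1 ⊗ₜ x) := by
      apply bm_injective R.val hval
      rw [h2, bm_actS, map_mul (bc (cor0 C X) R.val), hr, hr, bm_tmul, map_one]
    rw [h5, bm_actS, map_mul (bc (cor0 C X) φ), bm_tmul, map_one] at h4
    exact h4

end Pool.Agent.H838.CF
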