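import Pool.Agent.H838.CFPow
import Pool.Agent.H838.CFCore

/-!
# Chow-Kunneth decompositions with coefficients in a field and rational decompositions of the powers
-/

set_option autoImplicit false
set_option linter.unusedSectionVars false

open CategoryTheory AlgebraicGeometry

universe u v w

namespace Pool.Agent.H838.CF

open TensorProduct
open Pool.Agent.H914 Pool.Agent.H914.VarClass Pool.Agent.H914.VarClass.Obj Pool.Agent.W492.BB
  Pool.Agent.W550.Corr Pool.Agent.TH133

variable {k : Type u} [Field k] {𝒱 : VarClass k}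

section weil

variable {C : TheoryData.{u, v, 0} 𝒱 ℚ} [hC : IsChowProj C] {K : Type w} [Field K]
  (H : WeilTheoryData.{u, v, w} C K) [hH : IsWeilProj H] {X Y Z W : 𝒱.Obj}

include hC hH

lemma charZero_K (X : 𝒱.Obj) : CharZero K := by
  apply charZero_of_inj_zero
  intro n hn
  by_contra h
  have h1 : (n : H.A X) = 0 := by rw [← map_natCast (algebraMap K (H.A X)), hn, map_zero]
  have h2 : (algebraMap ℚ (C.A X) (n : ℚ)⁻¹) * (n : C.A X) = 1 := by
    rw [← map_natCast (algebraMap ℚ (C.A X)) n, ← map_mul,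
      inv_mul_cancel₀ (Nat.cast_ne_zero.2 h), map_one]
  have h3 : (1 : H.A X) = 0 := by
    rw [← map_one (H.cl (X := X)), ← h2, map_mul, map_natCast, h1, mul_zero]
  exact hH.one_ne_zero X h3

lemma actH_eq_zero_iff {a : Cor C X} : actH C X H a = 0 ↔ H.cl (X := X.prod X) a = 0 := by
  constructor
  · intro h
    exact hom_zero_of_act H (X := X) (Y := X) (Γ := a) fun x => LinearMap.congr_fun h x
  · intro h
    ext x
    rw [actH_apply, h]
    exact TheoryData.act_zero _ x

lemma mem_homTriv {a : cor0 C X} : a ∈ homTriv H X ↔ actH C X H (a : Cor C X) = 0 :=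
  (actH_eq_zero_iff (C := C) (X := X) H).symm

lemma homTriv_mul_left (b : cor0 C X) {a : cor0 C X} (ha : a ∈ homTriv H X) :
    b * a ∈ homTriv H X := by
  rw [mem_homTriv] at ha ⊢
  rw [Subalgebra.coe_mul, map_mul, ha, mul_zero]

lemma homTriv_mul_right (b : cor0 C X) {a : cor0 C X} (ha : a ∈ homTriv H X) :
    a * b ∈ homTriv H X := by
  rw [mem_homTriv] at ha ⊢
  rw [Subalgebra.coe_mul, map_mul, ha, zero_mul]

lemma degOp_iff {Q : Cor C X} : DegOp H (X := X) Q ↔ ∀ (m : ℤ) (x : H.A X), x ∈ H.gr X m →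
    actH C X H Q x = (m : K) • x := Iff.rfl

lemma degOp_comm {Q : cor0 C X} (hQ : DegOp H (X := X) (Q : Cor C X)) (b : cor0 C X) :
    b * Q - Q * b ∈ homTriv H X := by
  rw [mem_homTriv]
  apply ext_gr H
  intro m x hx
  have h1 := actH_mem0 (H := H) b.2 hx
  rw [degOp_iff] at hQ
  have h2 : actH C X H ((b * Q - Q * b : cor0 C X) : Cor C X) x =
      actH C X H (b : Cor C X) (actH C X H (Q : Cor C X) x) -
        actH C X H (Q : Cor C X) (actH C X H (b : Cor C X) x) := by
    rw [Subalgebra.coe_sub, Subalgebra.coe_mul, Subalgebra.coe_mul, map_sub, map_mul, map_mul]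
    rfl
  rw [h2, hQ m x hx, hQ m _ h1, map_smul, sub_self]
  rfl

lemma degOp_congr {Q D : cor0 C X} (hQ : DegOp H (X := X) (Q : Cor C X))
    (h : D - Q ∈ homTriv H X) : DegOp H (X := X) (D : Cor C X) := by
  rw [mem_homTriv] at h
  rw [degOp_iff] at hQ ⊢
  intro m x hx
  have h1 : actH C X H ((D - Q : cor0 C X) : Cor C X) x =
      actH C X H (D : Cor C X) x - actH C X H (Q : Cor C X) x := by
    rw [Subalgebra.coe_sub, map_sub]
    rfl
  rw [h] at h1
  rw [← hQ m x hx]
  exact (sub_eq_zero.1 h1.symm)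

lemma nonneg_le {m : ℤ} {x : H.A X} (hx : x ∈ H.gr X m) (h : x ≠ 0) :
    0 ≤ m ∧ m ≤ 2 * X.dim := by
  refine ⟨nonneg_of_mem H hx h, ?_⟩
  by_contra h'
  rw [gr_top H (by omega)] at hx
  exact h ((Submodule.mem_bot _).1 hx)

/-- The degree operator of a Chow-Kunneth decomposition with coefficients in `F` is rational modulo
homologically trivial correspondences. -/
lemma IsCKF.exists_deg {F : Type*} [Field F] [Algebra ℚ F] {p : ℕ → F ⊗[ℚ] cor0 C X}
    (h : IsCKF F H X p) : ∃ q : cor0 C X, DegOp H (X := X) (q : Cor C X) ∧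
      dop (2 * X.dim) p - 1 ⊗ₜ q ∈ (homTriv H X).baseChange F := by
  choose q hq1 hq2 using h.act
  refine ⟨∑ n ∈ Finset.range (2 * X.dim + 1), (n : ℚ) • q n, ?_, ?_⟩
  · rw [degOp_iff]
    intro m x hx
    have h1 : actH C X H ((∑ n ∈ Finset.range (2 * X.dim + 1), (n : ℚ) • q n : cor0 C X) :
        Cor C X) x = ∑ n ∈ Finset.range (2 * X.dim + 1),
          (n : K) • actH C X H (q n : Cor C X) x := by
      rw [AddSubmonoidClass.coe_finsetSum, map_sum, LinearMap.sum_apply]
      refine Finset.sum_congr rfl fun n _ => ?_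
      have e1 : (((n : ℚ) • q n : cor0 C X) : Cor C X) = n • (q n : Cor C X) := by
        rw [Nat.cast_smul_eq_nsmul]
        rfl
      rw [e1, map_nsmul, LinearMap.smul_apply, Nat.cast_smul_eq_nsmul]
    rw [h1]
    by_cases hx0 : x = 0
    · subst hx0
      simp
    · obtain ⟨h2, h3⟩ := nonneg_le H hx hx0
      obtain ⟨m, rfl⟩ := Int.eq_ofNat_of_zero_le h2
      rw [Finset.sum_eq_single m]
      · have h4 := hq1 m m x hx
        rw [if_pos rfl] at h4
        rw [show actH C X H (q m : Cor C X) x = x from h4]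
        simp
      · intro n _ hn
        have h4 := hq1 n m x hx
        rw [if_neg (by exact_mod_cast (Ne.symm hn))] at h4
        rw [show actH C X H (q n : Cor C X) x = 0 from h4, smul_zero]
      · intro h4
        exact absurd (Finset.mem_range.2 (by omega)) h4
  · rw [dop, TensorProduct.tmul_sum, ← Finset.sum_sub_distrib]
    refine Submodule.sum_mem _ fun n _ => ?_
    have h1 : (n : ℚ) • p n - 1 ⊗ₜ[ℚ] ((n : ℚ) • q n) = (n : F) • (p n - 1 ⊗ₜ[ℚ] q n) := by
      have e1 : (1 : F) ⊗ₜ[ℚ] (n • q n) = n • ((1 : F) ⊗ₜ[ℚ] q n) :=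
        map_nsmul (TensorProduct.mk ℚ F (cor0 C X) 1) n (q n)
      rw [Nat.cast_smul_eq_nsmul ℚ n (p n), Nat.cast_smul_eq_nsmul ℚ n (q n),
        Nat.cast_smul_eq_nsmul F, nsmul_sub, e1]
    rw [h1]
    exact Submodule.smul_mem _ _ (hq2 n)

/-- A degree operator of degree zero with eigenvalues `0, …, 2 dim X` is the degree operator of a
rational Chow-Kunneth decomposition. -/
lemma isCK_of_degOp {D : cor0 C X} (hs : Sp (2 * X.dim) D)
    (hd : DegOp H (X := X) (D : Cor C X)) :
    IsCK H X (fun n => ((idem (2 * X.dim) D n : cor0 C X) : Cor C X)) := by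
  have hK : CharZero K := charZero_K H X
  have hsys := sys_idem hs
  have hz : ∀ (n : ℕ) (m : ℤ) (x : H.A X), x ∈ H.gr X m → m ≠ n →
      actH C X H ((idem (2 * X.dim) D n : cor0 C X) : Cor C X) x = 0 := by
    intro n m x hx hm
    have h1 := congrArg (fun a : cor0 C X => actH C X H (a : Cor C X) x) (mul_idem hs n)
    have h2 : actH C X H ((D * idem (2 * X.dim) D n : cor0 C X) : Cor C X) x =
        (m : K) • actH C X H ((idem (2 * X.dim) D n : cor0 C X) : Cor C X) x := by
      rw [Subalgebra.coe_mul, map_mul, Module.End.mul_apply]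
      exact hd m _ (actH_mem0 (H := H) (idem (2 * X.dim) D n).2 hx)
    have h3 : actH C X H (((n : ℚ) • idem (2 * X.dim) D n : cor0 C X) : Cor C X) x =
        (n : K) • actH C X H ((idem (2 * X.dim) D n : cor0 C X) : Cor C X) x := by
      have e1 : (((n : ℚ) • idem (2 * X.dim) D n : cor0 C X) : Cor C X) =
          n • ((idem (2 * X.dim) D n : cor0 C X) : Cor C X) := by
        rw [Nat.cast_smul_eq_nsmul]
        rfl
      rw [e1, map_nsmul, LinearMap.smul_apply, Nat.cast_smul_eq_nsmul]
    rw [h2, h3, ← sub_eq_zero, ← sub_smul] at h1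
    rcases smul_eq_zero.1 h1 with h4 | h4
    · exfalso
      apply hm
      rw [sub_eq_zero] at h4
      exact_mod_cast h4
    · exact h4
  refine isCK_of (H := H) (P := fun n => ((idem (2 * X.dim) D n : cor0 C X) : Cor C X))
    (fun i => (idem (2 * X.dim) D i).2) (fun i hi => ?_) (fun i j => ?_) ?_ ?_
  · simp only [hsys.out i hi]
    rfl
  · have h1 := congrArg (fun a : cor0 C X => (a : Cor C X)) (hsys.mul i j)
    simp only [Subalgebra.coe_mul] at h1
    rw [h1]
    split_ifs <;> rfl
  · have h1 := congrArg (fun a : cor0 C X => (a : Cor C X)) hsys.sum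
    simp only [AddSubmonoidClass.coe_finsetSum] at h1
    exact h1
  · intro i m x hx
    split_ifs with hm
    · subst hm
      have h1 := congrArg (fun a : cor0 C X => actH C X H (a : Cor C X) x) hsys.sum
      have h2 : actH C X H ((∑ j ∈ Finset.range (2 * X.dim + 1), idem (2 * X.dim) D j : cor0 C X) :
          Cor C X) x = ∑ j ∈ Finset.range (2 * X.dim + 1),
            actH C X H ((idem (2 * X.dim) D j : cor0 C X) : Cor C X) x := by
        rw [AddSubmonoidClass.coe_finsetSum, map_sum, LinearMap.sum_apply]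
      have h3 : actH C X H (((1 : cor0 C X)) : Cor C X) x = x := by
        rw [Subalgebra.coe_one, map_one]
        rfl
      rw [h2, h3] at h1
      by_cases hx0 : x = 0
      · rw [hx0, map_zero]
      · obtain ⟨h4, h5⟩ := nonneg_le H hx hx0
        rw [Finset.sum_eq_single i] at h1
        · exact h1
        · intro j _ hj
          exact hz j i x hx (by exact_mod_cast (Ne.symm hj))
        · intro h6
          exact absurd (Finset.mem_range.2 (by omega)) h6
    · exact hz i m x hx hm

end weil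

end Pool.Agent.H838.CF
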