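import Pool.Agent.H838.CFIndStat
import Pool.Agent.H838.CFConv

/-!
# Independence of the Chow-Kunneth filtration and coefficients
-/

set_option autoImplicit false
set_option linter.unusedSectionVars false

open CategoryTheory AlgebraicGeometry

universe u v w t

namespace Pool.Agent.H838.CF

open TensorProduct
open Pool.Agent.H914 Pool.Agent.H914.VarClass Pool.Agent.H914.VarClass.Obj Pool.Agent.W492.BB
  Pool.Agent.W550.Corr Pool.Agent.TH133

variable {k : Type u} [Field k] {𝒱 : VarClass k}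

variable {C : TheoryData.{u, v, 0} 𝒱 ℚ} [hC : IsChowProj C] {K : Type w} [Field K]
  {H : WeilTheoryData.{u, v, w} C K} {X Y : 𝒱.Obj}
  {F : Type t} [Field F] [Algebra ℚ F]

include hC

/-! ### One step of the filtrations -/

lemma stepF_io (p : ℕ → F ⊗[ℚ] cor0 C X) (i s : ℕ) :
    stepF F (fun j => io F C X (p j)) i s = ckFilF F C p i s := by
  have h1 : ∀ y : F ⊗[ℚ] C.A X, (ChF F C).act (∑ j ∈ Finset.range (2 * i + 1 - s),
      io F C X (p j)) y = actS F (alp C X) (∑ j ∈ Finset.range (2 * i + 1 - s), p j) y := by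
    intro y
    rw [← map_sum, io_act]
  apply Submodule.ext
  intro y
  constructor
  · rintro ⟨z, hz, rfl⟩
    exact ⟨z, hz, (h1 z).symm⟩
  · rintro ⟨z, hz, rfl⟩
    exact ⟨z, hz, h1 z⟩

lemma exists_io {p : ℕ → (ChF F C).A (X.prod X)} (hp : CKF F X H p) :
    ∃ p' : ℕ → F ⊗[ℚ] cor0 C X, (fun i => io F C X (p' i)) = p ∧ IsCKF F H X p' := by
  obtain ⟨p', h1, h2⟩ := ckf_to hp
  exact ⟨p', funext h1, h2⟩

variable [hH : IsWeilProj H]

include hH

lemma ckFilF_le_iff {p p' : ℕ → F ⊗[ℚ] cor0 C X} (hp : IsCKF F H X p) (hp' : IsCKF F H X p')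
    (i s : ℕ) : ckFilF F C p i s ≤ ckFilF F C p' i s ↔ ∀ (j m : ℕ) (x : C.A X), x ∈ C.gr X i →
      j < 2 * i + 1 - s → 2 * i + 1 - s ≤ m → actS F (alp C X) (p' m * p j) (1 ⊗ₜ x) = 0 := by
  constructor
  · intro h j m x hx hj hm
    have h1 : actS F (alp C X) (p j) (1 ⊗ₜ x) ∈ ckFilF F C p i s := by
      rw [hp.mem_ckFilF]
      refine ⟨actS_mem (fun a m hm => act_mem0 C a.2 hm) _
        (Submodule.tmul_mem_baseChange_of_mem _ hx), fun m hm => ?_⟩
      rw [← Module.End.mul_apply, ← map_mul, hp.mul, if_neg (by omega), map_zero]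
      rfl
    have h2 := h h1
    rw [hp'.mem_ckFilF] at h2
    rw [map_mul]
    exact h2.2 m hm
  · rintro h _ ⟨z, hz, rfl⟩
    rw [hp'.mem_ckFilF]
    refine ⟨actS_mem (fun a m hm => act_mem0 C a.2 hm) _ hz, fun m hm => ?_⟩
    rw [← Module.End.mul_apply, ← map_mul, Finset.mul_sum, map_sum, LinearMap.sum_apply]
    refine Finset.sum_eq_zero fun j hj => ?_
    rw [Finset.mem_range] at hj
    exact actS_eq_zero (fun x hx => h j m x hx hj hm) hz

lemma ckFil_le_iff {π π' : ℕ → C.A (X.prod X)} (hp : IsCK H X π) (hp' : IsCK H X π')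
    (i s : ℕ) : ckFil C π i s ≤ ckFil C π' i s ↔ ∀ (j m : ℕ) (x : C.A X), x ∈ C.gr X i →
      j < 2 * i + 1 - s → 2 * i + 1 - s ≤ m → C.act (π' m) (C.act (π j) x) = 0 := by
  constructor
  · intro h j m x hx hj hm
    have h1 : C.act (π j) x ∈ ckFil C π i s := by
      rw [hp.mem_ckFil]
      refine ⟨act_mem0 C (hp.deg j) hx, fun m hm => ?_⟩
      rw [← C.act_comp, hp.comp_eq, if_neg (by omega)]
      exact C.act_zero _
    have h2 := h h1
    rw [hp'.mem_ckFil] at h2
    exact h2.2 m hm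
  · rintro h _ ⟨z, hz, rfl⟩
    rw [hp'.mem_ckFil, TheoryData.actL_apply, act_sum]
    refine ⟨Submodule.sum_mem _ fun j _ => act_mem0 C (hp.deg j) hz, fun m hm => ?_⟩
    rw [act_map_sum]
    refine Finset.sum_eq_zero fun j hj => ?_
    rw [Finset.mem_range] at hj
    exact h j m z hz hj hm

/-! ### Number fields -/

/-- **One step of the filtration and the power.** -/
theorem step_nf (X : 𝒱.Obj) (F : Type t) [Field F] [Algebra ℚ F] [FiniteDimensional ℚ F]
    {n : ℕ} (hn : Module.finrank ℚ F = n + 1) :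
    ∃ δ : (ℕ → F ⊗[ℚ] cor0 C X) → ℕ → C.A ((pw X n).prod (pw X n)),
      (∀ p, IsCKF F H X p → IsCK H (pw X n) (δ p)) ∧ ∀ p p', IsCKF F H X p → IsCKF F H X p' →
        ∀ i s : ℕ, ckFil C (δ p) i s ≤ ckFil C (δ p') i s →
          ckFilF F C p i s ≤ ckFilF F C p' i s := by
  obtain ⟨δ, hδ⟩ := main_nf (H := H) X F hn
  refine ⟨fun p i => (δ p i : Cor C (pw X n)), fun p hp => (hδ p hp).1,
    fun p p' hp hp' i s h => ?_⟩
  rw [ckFil_le_iff (hδ p hp).1 (hδ p' hp').1] at h
  rw [ckFilF_le_iff hp hp']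
  intro j m x hx hj hm
  refine (hδ p hp).2 p' hp' (C.gr (pw X n) i) (Stb.gr (C := C) (H := H) i) j m (fun v hv => ?_) x
    (C.pull_mem _ hx)
  rw [map_mul, Module.End.mul_apply]
  exact h j m v hv hj hm

theorem step_nf' (X : 𝒱.Obj) (F : Type t) [Field F] [Algebra ℚ F]
    {n : ℕ} (hn : Module.finrank ℚ F = n + 1) :
    ∃ δ : (ℕ → (ChF F C).A (X.prod X)) → ℕ → C.A ((pw X n).prod (pw X n)),
      (∀ p, CKF F X H p → IsCK H (pw X n) (δ p)) ∧ ∀ p p', CKF F X H p → CKF F X H p' →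
        ∀ i s : ℕ, ckFil C (δ p) i s ≤ ckFil C (δ p') i s → stepF F p i s ≤ stepF F p' i s := by
  classical
  have hF : FiniteDimensional ℚ F := Module.finite_of_finrank_pos (by omega)
  obtain ⟨δ, h1, h2⟩ := step_nf (H := H) X F hn
  have h3 : ∀ p : ℕ → (ChF F C).A (X.prod X), ∃ p' : ℕ → F ⊗[ℚ] cor0 C X, CKF F X H p →
      (fun i => io F C X (p' i)) = p ∧ IsCKF F H X p' := by
    intro p
    by_cases hp : CKF F X H p
    · obtain ⟨p', h⟩ := exists_io hp
      exact ⟨p', fun _ => h⟩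
    · exact ⟨fun _ => 0, fun h => absurd h hp⟩
  choose q hq using h3
  refine ⟨fun p => δ (q p), fun p hp => h1 _ (hq p hp).2, fun p p' hp hp' i s h => ?_⟩
  have h4 := h2 _ _ (hq p hp).2 (hq p' hp').2 i s h
  rw [← stepF_io, ← stepF_io, (hq p hp).1, (hq p' hp').1] at h4
  exact h4

/-! ### Arbitrary coefficients -/

lemma indepF_iff {i s : ℕ} : IndepF F H X i s ↔ ∀ p p', IsCKF F H X p → IsCKF F H X p' →
    ckFilF F C p i s ≤ ckFilF F C p' i s := by
  constructor
  · intro h p p' hp hp'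
    have h1 := h _ _ (ckf_of hp) (ckf_of hp')
    rw [stepF_io, stepF_io] at h1
    exact h1.le
  · intro h p p' hp hp'
    obtain ⟨q, rfl, hq⟩ := exists_io hp
    obtain ⟨q', rfl, hq'⟩ := exists_io hp'
    rw [stepF_io, stepF_io]
    exact le_antisymm (h _ _ hq hq') (h _ _ hq' hq)

theorem indepF_nf {F : Type t} [Field F] [Algebra ℚ F] [FiniteDimensional ℚ F] {n : ℕ}
    (hn : Module.finrank ℚ F = n + 1) {i s : ℕ} (h : Indep H (pw X n) i s) :
    IndepF F H X i s := by
  obtain ⟨δ, h1, h2⟩ := step_nf (H := H) X F hn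
  rw [indepF_iff]
  intro p p' hp hp'
  exact h2 p p' hp hp' i s (h _ _ (h1 p hp) (h1 p' hp')).le

theorem indepF_gen (F : Type t) [Field F] [Algebra ℚ F] {i s : ℕ}
    (h : ∀ n, Indep H (pw X n) i s) : IndepF F H X i s := by
  rw [indepF_iff]
  intro p p' hp hp'
  rw [ckFilF_le_iff hp hp']
  intro j m x hx hj hm
  by_contra hz
  obtain ⟨E, iE, aE, fE, P, hP, h2⟩ := spec_CK (κ := Bool) (p := fun c => if c then p else p')
    (fun c => by cases c <;> simpa) (c := true) (c' := false) (a := j) (b := m) (x := x)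
    (by simpa using hz)
  obtain ⟨n, hn⟩ := finrank_eq E
  have h3 := (ckFilF_le_iff (hP true) (hP false) i s).1
    (indepF_iff.1 (indepF_nf (F := E) hn (h n)) _ _ (hP true) (hP false)) j m x hx hj hm
  exact h2 h3

theorem indep_of_indepF (F : Type t) [Field F] [Algebra ℚ F] {i s : ℕ} (h : IndepF F H X i s) :
    Indep H X i s := by
  have key : ∀ π π', IsCK H X π → IsCK H X π' → ckFil C π i s ≤ ckFil C π' i s := by
    intro π π' hπ hπ'
    rw [ckFil_le_iff hπ hπ']
    intro j m x hx hj hm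
    have h1 := (ckFilF_le_iff (isCKF_extCK F hπ) (isCKF_extCK F hπ') i s).1
      (indepF_iff.1 h _ _ (isCKF_extCK F hπ) (isCKF_extCK F hπ')) j m x hx hj hm
    rw [map_mul, Module.End.mul_apply, actS_extCK, actS_extCK] at h1
    exact one_tmul_eq_zero (algebraMap ℚ F).injective h1
  intro π π' hπ hπ'
  exact le_antisymm (key π π' hπ hπ') (key π' π hπ' hπ)

/-! ### Existence -/

lemma b0_of_indep {Y : 𝒱.Obj} (h : ∀ i, Indep H Y i 0) : MurreB0 H Y :=
  murreB0_of_C0 Y fun π π' hπ hπ' i => h i π π' hπ hπ'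

theorem exists_iff_nf {F : Type t} [Field F] [Algebra ℚ F] {n : ℕ}
    (hn : Module.finrank ℚ F = n + 1) (h : ∀ i, Indep H ((pw X n).prod (pw X n)) i 0) :
    (∃ p, CKF F X H p) ↔ ∃ π, IsCK H X π := by
  have : FiniteDimensional ℚ F := Module.finite_of_finrank_pos (by omega)
  rw [exists_conv]
  exact ⟨fun ⟨p, hp⟩ => exists_CK_nf hn (b0_of_indep h) hp,
    fun ⟨π, hπ⟩ => ⟨_, isCKF_extCK F hπ⟩⟩

theorem exists_iff_gen {F : Type t} [Field F] [Algebra ℚ F]
    (h : ∀ n i, Indep H ((pw X n).prod (pw X n)) i 0) :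
    (∃ p, CKF F X H p) ↔ ∃ π, IsCK H X π := by
  rw [exists_conv]
  exact ⟨fun ⟨p, hp⟩ => exists_CK_gen (fun n => b0_of_indep (h n)) hp,
    fun ⟨π, hπ⟩ => ⟨_, isCKF_extCK F hπ⟩⟩

/-! ### The filtration of a rational decomposition -/

omit hH in
lemma mem_spanF (F : Type t) [Field F] [Algebra ℚ F] (W : Submodule ℚ (C.A X))
    (y : F ⊗[ℚ] C.A X) : y ∈ W.baseChange F ↔ y ∈ spanF F W := by
  constructor
  · rintro ⟨t, rfl⟩
    induction t with
    | zero => rw [map_zero]; exact Submodule.zero_mem _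
    | tmul r a =>
      rw [LinearMap.baseChange_tmul]
      have h1 : (r ⊗ₜ W.subtype a : F ⊗[ℚ] C.A X) = r • (1 ⊗ₜ W.subtype a) := by
        rw [TensorProduct.smul_tmul', smul_eq_mul, mul_one]
      rw [h1]
      exact (spanF F W).smul_mem r (Submodule.subset_span ⟨_, a.2, rfl⟩)
    | add y z hy hz => rw [map_add]; exact Submodule.add_mem _ hy hz
  · intro h
    induction h using Submodule.span_induction with
    | mem y hy =>
      obtain ⟨a, h1, rfl⟩ := hy
      exact Submodule.tmul_mem_baseChange_of_mem _ h1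
    | zero => exact Submodule.zero_mem _
    | add y z _ _ hy hz => exact Submodule.add_mem _ hy hz
    | smul r y _ hy => exact Submodule.smul_mem _ r hy

lemma ckFilF_extCK {π : ℕ → C.A (X.prod X)} (hπ : IsCK H X π) (i s : ℕ) :
    ckFilF F C (extCK F hπ) i s = (ckFil C π i s).baseChange F := by
  have h1 : ∀ (r : F) (x : C.A X),
      actS F (alp C X) (∑ j ∈ Finset.range (2 * i + 1 - s), extCK F hπ j) (r ⊗ₜ x) =
        r ⊗ₜ C.act (∑ j ∈ Finset.range (2 * i + 1 - s), π j) x := by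
    intro r x
    rw [map_sum, LinearMap.sum_apply, act_sum, TensorProduct.tmul_sum]
    refine Finset.sum_congr rfl fun j _ => ?_
    unfold extCK
    rw [actS_tmul, one_mul, alp_apply]
  apply le_antisymm
  · rintro _ ⟨z, ⟨t, rfl⟩, rfl⟩
    induction t with
    | zero => rw [map_zero, map_zero]; exact Submodule.zero_mem _
    | tmul r a =>
      rw [LinearMap.baseChange_tmul, h1]
      exact Submodule.tmul_mem_baseChange_of_mem _ ⟨_, a.2, rfl⟩
    | add y z hy hz => rw [map_add, map_add]; exact Submodule.add_mem _ hy hz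
  · rintro _ ⟨t, rfl⟩
    induction t with
    | zero => rw [map_zero]; exact Submodule.zero_mem _
    | tmul r a =>
      rw [LinearMap.baseChange_tmul]
      obtain ⟨a, z, hz, rfl⟩ := a
      exact ⟨r ⊗ₜ z, Submodule.tmul_mem_baseChange_of_mem _ hz, h1 r z⟩
    | add y z hy hz => rw [map_add]; exact Submodule.add_mem _ hy hz

/-- **The filtration is rational.** -/
theorem rational_step {F : Type t} [Field F] [Algebra ℚ F] {p : ℕ → (ChF F C).A (X.prod X)}
    (hp : CKF F X H p) {π : ℕ → C.A (X.prod X)} (hπ : IsCK H X π) {i s : ℕ}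
    (h : IndepF F H X i s) : stepF F p i s = spanF F (ckFil C π i s) := by
  rw [h p _ hp (ckf_of (isCKF_extCK F hπ)), stepF_io, ckFilF_extCK hπ]
  apply Submodule.ext
  intro y
  exact mem_spanF F _ y

end Pool.Agent.H838.CF
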