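import Pool.Agent.H838.CFStat

/-!
# Independence of the Chow-Kunneth filtration and coefficients: the definitions used in the statements
-/

set_option autoImplicit false

open CategoryTheory AlgebraicGeometry

universe u v w t

namespace Pool.Agent.H838.CF

open TensorProduct Pool.Agent.H914 Pool.Agent.H914.VarClass Pool.Agent.H914.VarClass.Obj
  Pool.Agent.W492.BB Pool.Agent.W550.Corr Pool.Agent.TH133

variable {k : Type u} [Field k] {𝒱 : VarClass k} (F : Type t) [Field F] [Algebra ℚ F]

/-- The step `F^s = (p_{2i-s} + ⋯ + p_0)_* (F ⊗ CH^i(X))` of the filtration of `F ⊗ CH^i(X)` attached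
to the Chow-Kunneth decomposition `p` with coefficients in the field `F`; it is zero if `s > 2 i`. -/
noncomputable def stepF {C : TheoryData.{u, v, 0} 𝒱 ℚ} {X : 𝒱.Obj}
    (p : ℕ → (ChF F C).A (X.prod X)) (i s : ℕ) : Submodule F ((ChF F C).A X) :=
  ((ChF F C).gr X i).map ((ChF F C).actL (∑ j ∈ Finset.range (2 * i + 1 - s), p j))

/-- The subspace of `F ⊗ CH(X)` spanned by the subspace `W` of `CH(X)`. -/
noncomputable def spanF {C : TheoryData.{u, v, 0} 𝒱 ℚ} {X : 𝒱.Obj} (W : Submodule ℚ (C.A X)) :
    Submodule F ((ChF F C).A X) :=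
  Submodule.span F {y | ∃ a ∈ W, y = rat F a}

variable {C : TheoryData.{u, v, 0} 𝒱 ℚ} {K : Type w} [Field K] (H : WeilTheoryData.{u, v, w} C K)
  (X : 𝒱.Obj) (i s : ℕ)

/-- The step `F^s CH^i(X)` is the same for all (rational) Chow-Kunneth decompositions of `X`. -/
def Indep : Prop := ∀ π π', IsCK H X π → IsCK H X π' → ckFil C π i s = ckFil C π' i s

/-- The step `F^s (F ⊗ CH^i(X))` is the same for all Chow-Kunneth decompositions of `X` with
coefficients in the field `F`. -/
def IndepF : Prop := ∀ p p', CKF F X H p → CKF F X H p' → stepF F p i s = stepF F p' i s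

end Pool.Agent.H838.CF
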