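import Pool.Agent.H838.CFIsoStat
import Pool.Agent.H838.CFConv
import Mathlib.NumberTheory.FrobeniusNumber
import Mathlib.Algebra.MvPolynomial.Funext

/-!
# Isomorphisms of Chow motives and coefficients
-/

set_option autoImplicit false
set_option linter.unusedSectionVars false

open CategoryTheory AlgebraicGeometry

universe u v w t s

namespace Pool.Agent.H838.CF

open TensorProduct

section lin

variable {K : Type*} [Field K] [CharZero K] {V W : Type*} [AddCommGroup V] [Module K V]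
  [AddCommGroup W] [Module K W] [Module.Finite K V] [Module.Finite K W]
  {L : Type*} [Field L] [Algebra K L]

/-- Rational points of the space of bijective linear combinations. -/
theorem exists_rat_bij {n : ℕ} (a : Fin n → V →ₗ[K] W) (c : Fin n → L)
    (h : Function.Bijective (∑ i, c i • (a i).baseChange L : L ⊗[K] V →ₗ[L] L ⊗[K] W)) :
    ∃ x : Fin n → ℚ, Function.Bijective (∑ i, (x i : K) • a i : V →ₗ[K] W) := by
  classical
  let e := LinearEquiv.ofBijective _ h
  have hr : Module.finrank K V = Module.finrank K W := by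
    have := e.finrank_eq
    rwa [Module.finrank_baseChange, Module.finrank_baseChange] at this
  let bV : Module.Basis (Fin (Module.finrank K V)) K V := Module.finBasis K V
  let bW : Module.Basis (Fin (Module.finrank K V)) K W :=
    (Module.finBasis K W).reindex (finCongr hr.symm)
  let M : Fin n → Matrix (Fin (Module.finrank K V)) (Fin (Module.finrank K V)) K :=
    fun i => LinearMap.toMatrix bV bW (a i)
  let P : MvPolynomial (Fin n) K :=
    (∑ i, (MvPolynomial.X i : MvPolynomial (Fin n) K) • (M i).map MvPolynomial.C).det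
  have hP : P ≠ 0 := by
    intro h0
    have h1 : MvPolynomial.aeval c P = 0 := by rw [h0, map_zero]
    have h2 : MvPolynomial.aeval c P = (∑ i, c i • (M i).map (algebraMap K L)).det := by
      change MvPolynomial.aeval c (Matrix.det _) = _
      rw [AlgHom.map_det]
      congr 1
      ext p q
      simp [Matrix.sum_apply, AlgHom.mapMatrix_apply, Matrix.map_apply, map_sum]
    have h3 : IsUnit (LinearMap.toMatrix (Algebra.TensorProduct.basis L bV) (Algebra.TensorProduct.basis L bW)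
        (e : L ⊗[K] V →ₗ[L] L ⊗[K] W)).det := LinearEquiv.isUnit_det e _ _
    have h4 : LinearMap.toMatrix (Algebra.TensorProduct.basis L bV) (Algebra.TensorProduct.basis L bW)
        (e : L ⊗[K] V →ₗ[L] L ⊗[K] W) = ∑ i, c i • (M i).map (algebraMap K L) := by
      have h5 : (e : L ⊗[K] V →ₗ[L] L ⊗[K] W) = ∑ i, c i • (a i).baseChange L := rfl
      rw [h5, map_sum]
      refine Finset.sum_congr rfl fun i _ => ?_
      rw [map_smul, LinearMap.toMatrix_baseChange]
    rw [h4, ← h2, h1] at h3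
    exact not_isUnit_zero h3
  obtain ⟨x, hx⟩ : ∃ x : Fin n → ℚ, MvPolynomial.eval (fun i => (x i : K)) P ≠ 0 := by
    by_contra hcon
    push Not at hcon
    apply hP
    refine MvPolynomial.funext_set (fun _ => Set.range ((↑) : ℚ → K))
      (fun _ => Set.infinite_range_of_injective Rat.cast_injective) fun y hy => ?_
    choose x hx using fun i => hy i (Set.mem_univ i)
    have h1 := hcon x
    have h2 : (fun i => (x i : K)) = y := funext hx
    rw [h2] at h1
    rw [h1, map_zero]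
  refine ⟨x, ?_⟩
  have h1 : LinearMap.toMatrix bV bW (∑ i, (x i : K) • a i) = ∑ i, (x i : K) • M i := by
    rw [map_sum]
    exact Finset.sum_congr rfl fun i _ => map_smul _ _ _
  have h2 : (LinearMap.toMatrix bV bW (∑ i, (x i : K) • a i)).det =
      MvPolynomial.eval (fun i => (x i : K)) P := by
    rw [h1]
    change _ = MvPolynomial.eval (fun i => (x i : K)) (Matrix.det _)
    rw [RingHom.map_det]
    congr 1
    ext p q
    simp [Matrix.sum_apply, RingHom.mapMatrix_apply, Matrix.map_apply, map_sum]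
  have h3 : IsUnit (LinearMap.toMatrix bV bW (∑ i, (x i : K) • a i)).det := by
    rw [h2]
    exact isUnit_iff_ne_zero.2 hx
  exact (LinearEquiv.ofIsUnitDet h3).bijective

end lin

open Pool.Agent.H914 Pool.Agent.H914.VarClass Pool.Agent.H914.VarClass.Obj Pool.Agent.W492.BB
  Pool.Agent.W550.Corr Pool.Agent.TH133

variable {k : Type u} [Field k] {𝒱 : VarClass k}

section comp

variable {R : Type*} [CommRing R] [Algebra ℚ R] {E : Type*} [CommRing E] [Algebra ℚ E]
  {F : Type t} [Field F] [Algebra ℚ F] {C : TheoryData.{u, v, 0} 𝒱 ℚ} {X Y Z : 𝒱.Obj}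

/-- Composition with coefficients in the ring `R`. -/
noncomputable def cR (R : Type*) [CommRing R] [Algebra ℚ R] (C : TheoryData.{u, v, 0} 𝒱 ℚ)
    (X Y Z : 𝒱.Obj) : R ⊗[ℚ] C.A (X.prod Y) →ₗ[ℚ] R ⊗[ℚ] C.A (Y.prod Z) →ₗ[ℚ]
      R ⊗[ℚ] C.A (X.prod Z) := TensorProduct.map₂ (LinearMap.mul ℚ R) (compL C)

lemma cR_tmul (r s : R) (a : C.A (X.prod Y)) (b : C.A (Y.prod Z)) :
    cR R C X Y Z (r ⊗ₜ a) (s ⊗ₜ b) = (r * s) ⊗ₜ C.comp a b := rfl

lemma bm_cR (φ : R →ₐ[ℚ] E) (x : R ⊗[ℚ] C.A (X.prod Y)) (y : R ⊗[ℚ] C.A (Y.prod Z)) :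
    bm _ φ (cR R C X Y Z x y) = cR E C X Y Z (bm _ φ x) (bm _ φ y) := by
  induction x with
  | zero => simp only [map_zero, LinearMap.zero_apply]
  | tmul r a =>
    induction y with
    | zero => simp only [map_zero]
    | tmul s b => rw [cR_tmul, bm_tmul, bm_tmul, bm_tmul, cR_tmul, map_mul]
    | add y z hy hz => simp only [map_add, hy, hz]
  | add x z hx hz => simp only [map_add, LinearMap.add_apply, hx, hz]

lemma chF_comp (x : F ⊗[ℚ] C.A (X.prod Y)) (y : F ⊗[ℚ] C.A (Y.prod Z)) :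
    (ChF F C).comp x y = cR F C X Y Z x y := by
  induction x with
  | zero =>
    rw [map_zero, LinearMap.zero_apply]
    exact zero_comp _ _
  | tmul r a =>
    induction y with
    | zero =>
      rw [map_zero]
      exact comp_zero _ _
    | tmul s b =>
      rw [cR_tmul]
      exact chF_comp_pt r s a b
    | add y z hy hz =>
      rw [map_add, ← hy, ← hz]
      exact comp_add _ _ _ _
  | add x z hx hz =>
    rw [map_add, LinearMap.add_apply, ← hx, ← hz]
    exact add_comp _ _ _ _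

/-- **Isomorphisms are defined over finitely generated rings of coefficients.** -/
theorem motIso_model (h : MotIso (ChF F C) X Y) : ∃ R : Subalgebra ℚ F, R.FG ∧
    ∀ (E : Type s) [Field E] [Algebra ℚ E], (R →ₐ[ℚ] E) → MotIso (ChF E C) X Y := by
  classical
  obtain ⟨hd, φ, ψ, ⟨φ₀, h1⟩, ⟨ψ₀, h2⟩, h3, h4⟩ := h
  obtain ⟨S, hS⟩ := exists_finset φ₀
  obtain ⟨T, hT⟩ := exists_finset ψ₀
  let R : Subalgebra ℚ F := Algebra.adjoin ℚ ((S ∪ T : Finset F) : Set F)
  have hR : ((S ∪ T : Finset F) : Set F) ⊆ R := Algebra.subset_adjoin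
  rw [Finset.coe_union, Set.union_subset_iff] at hR
  obtain ⟨x₀, hx⟩ := hS R hR.1
  obtain ⟨y₀, hy⟩ := hT R hR.2
  have hval : Function.Injective (R.val) := Subtype.val_injective
  let x : R ⊗[ℚ] C.A (X.prod Y) := (C.gr (X.prod Y) X.dim).subtype.lTensor R x₀
  let y : R ⊗[ℚ] C.A (Y.prod X) := (C.gr (Y.prod X) X.dim).subtype.lTensor R y₀
  have ex : bm _ R.val x = φ := by
    rw [← h1]
    change bm _ R.val (LinearMap.lTensor _ _ x₀) = LinearMap.lTensor _ _ φ₀
    rw [bm_lTensor, hx]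
  have ey : bm _ R.val y = ψ := by
    rw [← h2]
    change bm _ R.val (LinearMap.lTensor _ _ y₀) = LinearMap.lTensor _ _ ψ₀
    rw [bm_lTensor, hy]
  have e1 : cR R C X Y X x y = 1 ⊗ₜ dg C X := by
    apply bm_injective R.val hval
    rw [bm_cR, ex, ey, bm_tmul, map_one, ← chF_comp, h3]
    exact chF_dg X
  have e2 : cR R C Y X Y y x = 1 ⊗ₜ dg C Y := by
    apply bm_injective R.val hval
    rw [bm_cR, ex, ey, bm_tmul, map_one, ← chF_comp, h4]
    exact chF_dg Y
  refine ⟨R, ⟨S ∪ T, rfl⟩, fun E _ _ φ' => ⟨hd, bm _ φ' x, bm _ φ' y, ?_, ?_, ?_, ?_⟩⟩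
  · refine ⟨bm _ φ' x₀, ?_⟩
    change LinearMap.lTensor _ _ (bm _ φ' x₀) = _
    rw [← bm_lTensor]
  · refine ⟨bm _ φ' y₀, ?_⟩
    change LinearMap.lTensor _ _ (bm _ φ' y₀) = _
    rw [← bm_lTensor]
  · refine (chF_comp _ _).trans ?_
    rw [← bm_cR, e1, bm_tmul, map_one]
    exact (chF_dg X).symm
  · refine (chF_comp _ _).trans ?_
    rw [← bm_cR, e2, bm_tmul, map_one]
    exact (chF_dg Y).symm

/-- The retraction `F ⊗ A(V) → A(V)` given by the linear form `ρ` on `F`. -/
noncomputable def isoRet (C : TheoryData.{u, v, 0} 𝒱 ℚ) (V : 𝒱.Obj) (ρ : F →ₗ[ℚ] ℚ) :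
    F ⊗[ℚ] C.A V →ₗ[ℚ] C.A V :=
  (TensorProduct.lid ℚ (C.A V)).toLinearMap ∘ₗ ρ.rTensor (C.A V)

lemma isoRet_tmul {V : 𝒱.Obj} (ρ : F →ₗ[ℚ] ℚ) (r : F) (a : C.A V) :
    isoRet C V ρ (r ⊗ₜ a) = ρ r • a := by
  rw [isoRet, LinearMap.comp_apply, LinearMap.rTensor_tmul]
  exact TensorProduct.lid_tmul _ _

lemma isoRet_mem {V : 𝒱.Obj} (ρ : F →ₗ[ℚ] ℚ) {i : ℤ} {z : (ChF F C).A V}
    (hz : (ChF F C).Deg i z) : C.Deg i (isoRet C V ρ z) := by
  obtain ⟨y, rfl⟩ := hz
  induction y with
  | zero => rw [map_zero, map_zero]; exact Submodule.zero_mem _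
  | tmul r a =>
    rw [LinearMap.baseChange_tmul, isoRet_tmul]
    exact Submodule.smul_mem _ _ a.2
  | add y z hy hz => rw [map_add, map_add]; exact Submodule.add_mem _ hy hz

lemma isoRet_comp {ι : Type*} [Fintype ι] (ρ σ : ι → F →ₗ[ℚ] ℚ) (τ : F →ₗ[ℚ] ℚ)
    (h : ∀ r s, ∑ j, ρ j r * σ j s = τ (r * s)) (x : F ⊗[ℚ] C.A (X.prod Y))
    (y : F ⊗[ℚ] C.A (Y.prod Z)) :
    ∑ j, C.comp (isoRet C _ (ρ j) x) (isoRet C _ (σ j) y) = isoRet C _ τ ((ChF F C).comp x y) := by
  rw [chF_comp]
  simp only [← compL_apply]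
  induction x with
  | zero => simp only [map_zero, LinearMap.zero_apply, Finset.sum_const_zero]
  | tmul r a =>
    induction y with
    | zero => simp only [map_zero, Finset.sum_const_zero]
    | tmul s b =>
      rw [cR_tmul, isoRet_tmul, ← h, Finset.sum_smul]
      refine Finset.sum_congr rfl fun j _ => ?_
      rw [isoRet_tmul, isoRet_tmul, map_smul, LinearMap.map_smul₂, smul_smul, mul_comm]
      rfl
    | add y z hy hz => simp only [map_add, Finset.sum_add_distrib, hy, hz]
  | add x z hx hz => simp only [map_add, LinearMap.add_apply, Finset.sum_add_distrib, hx, hz]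

/-- **Isomorphic over a number field of degree `n`: the sums of `n` copies are isomorphic.** -/
theorem sumIso_of_motIso [FiniteDimensional ℚ F] {n : ℕ} (hn : Module.finrank ℚ F = n)
    (h : MotIso (ChF F C) X Y) : SumIso C n X Y := by
  classical
  obtain ⟨hd, φ, ψ, h1, h2, h3, h4⟩ := h
  let b : Module.Basis (Fin n) ℚ F := Module.finBasisOfFinrankEq ℚ F hn
  let ρ : Fin n → Fin n → F →ₗ[ℚ] ℚ := fun i j =>
    { toFun := fun r => Algebra.leftMulMatrix b r i j
      map_add' := fun r s => by rw [map_add]; rfl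
      map_smul' := fun q r => by rw [map_smul]; rfl }
  have hρ : ∀ i l r s, ∑ j, ρ i j r * ρ j l s = ρ i l (r * s) := by
    intro i l r s
    change ∑ j, Algebra.leftMulMatrix b r i j * Algebra.leftMulMatrix b s j l =
      Algebra.leftMulMatrix b (r * s) i l
    rw [map_mul, Matrix.mul_apply]
  have hone : ∀ (V : 𝒱.Obj) i l, isoRet C (V.prod V) (ρ i l) (dg (ChF F C) V) =
      if i = l then dg C V else 0 := by
    intro V i l
    rw [chF_dg]
    refine (isoRet_tmul _ _ _).trans ?_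
    change (Algebra.leftMulMatrix b 1 i l) • dg C V = _
    rw [map_one, Matrix.one_apply]
    split_ifs
    · exact one_smul _ _
    · exact zero_smul _ _
  refine ⟨hd, fun i j => isoRet C _ (ρ i j) φ, fun i j => isoRet C _ (ρ i j) ψ, fun i j => isoRet_mem _ h1,
    fun i j => isoRet_mem _ h2, fun i l => ?_, fun i l => ?_⟩
  · rw [isoRet_comp (fun j => ρ i j) (fun j => ρ j l) (ρ i l) (hρ i l), h3, hone]
  · rw [isoRet_comp (fun j => ρ i j) (fun j => ρ j l) (ρ i l) (hρ i l), h4, hone]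

/-- Block matrices. -/
def blk {M : Type*} [Zero M] {m n : ℕ} (a : Fin m → Fin m → M) (b : Fin n → Fin n → M) :
    Fin (m + n) → Fin (m + n) → M := fun i j =>
  Fin.addCases (fun i => Fin.addCases (fun j => a i j) (fun _ => 0) j)
    (fun i => Fin.addCases (fun _ => 0) (fun j => b i j) j) i

lemma blk_comp {m n : ℕ} (a : Fin m → Fin m → C.A (X.prod Y)) (b : Fin n → Fin n → C.A (X.prod Y))
    (c : Fin m → Fin m → C.A (Y.prod Z)) (d : Fin n → Fin n → C.A (Y.prod Z)) (e : C.A (X.prod Z))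
    (h1 : ∀ i l, ∑ j, C.comp (a i j) (c j l) = if i = l then e else 0)
    (h2 : ∀ i l, ∑ j, C.comp (b i j) (d j l) = if i = l then e else 0) (i l : Fin (m + n)) :
    ∑ j, C.comp (blk a b i j) (blk c d j l) = if i = l then e else 0 := by
  rw [Fin.sum_univ_add]
  refine Fin.addCases (fun i => ?_) (fun i => ?_) i <;>
  refine Fin.addCases (fun l => ?_) (fun l => ?_) l
  · simp only [blk, Fin.addCases_left, Fin.addCases_right, comp_zero,
      Finset.sum_const_zero, add_zero, h1, Fin.castAdd_inj]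
  · simp only [blk, Fin.addCases_left, Fin.addCases_right, zero_comp, comp_zero,
      Finset.sum_const_zero, add_zero]
    rw [if_neg]
    intro h
    have := congrArg Fin.val h
    simp only [Fin.val_castAdd, Fin.val_natAdd] at this
    omega
  · simp only [blk, Fin.addCases_left, Fin.addCases_right, zero_comp, comp_zero,
      Finset.sum_const_zero, add_zero]
    rw [if_neg]
    intro h
    have := congrArg Fin.val h
    simp only [Fin.val_castAdd, Fin.val_natAdd] at this
    omega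
  · simp only [blk, Fin.addCases_left, Fin.addCases_right, comp_zero,
      Finset.sum_const_zero, zero_add, h2, Fin.natAdd_inj]

lemma blk_mem {m n : ℕ} {V : 𝒱.Obj} {e : ℤ} {a : Fin m → Fin m → C.A V}
    {b : Fin n → Fin n → C.A V} (h1 : ∀ i j, C.Deg e (a i j)) (h2 : ∀ i j, C.Deg e (b i j))
    (i j : Fin (m + n)) : C.Deg e (blk a b i j) := by
  refine Fin.addCases (fun i => ?_) (fun i => ?_) i <;>
  refine Fin.addCases (fun j => ?_) (fun j => ?_) j <;>
  simp only [blk, Fin.addCases_left, Fin.addCases_right]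
  · exact h1 _ _
  · exact Submodule.zero_mem _
  · exact Submodule.zero_mem _
  · exact h2 _ _

theorem SumIso.add {m n : ℕ} (h : SumIso C m X Y) (h' : SumIso C n X Y) :
    SumIso C (m + n) X Y := by
  obtain ⟨hd, a, b, h1, h2, h3, h4⟩ := h
  obtain ⟨-, a', b', h1', h2', h3', h4'⟩ := h'
  exact ⟨hd, blk a a', blk b b', blk_mem h1 h1', blk_mem h2 h2', blk_comp _ _ _ _ _ h3 h3',
    blk_comp _ _ _ _ _ h4 h4'⟩

theorem SumIso.zero (hd : X.dim = Y.dim) : SumIso C 0 X Y :=
  ⟨hd, fun i => i.elim0, fun i => i.elim0, fun i => i.elim0, fun i => i.elim0, fun i => i.elim0,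
    fun i => i.elim0⟩

/-- All large multiples of the greatest common divisor. -/
theorem sumIso_gcd (D : Set ℕ) (hd : X.dim = Y.dim) (h : ∀ n ∈ D, SumIso C n X Y) :
    ∃ N, ∀ m ≥ N, Nat.setGcd D ∣ m → SumIso C m X Y := by
  let S : AddSubmonoid ℕ :=
    { carrier := {n | SumIso C n X Y}
      add_mem' := fun h h' => SumIso.add h h'
      zero_mem' := SumIso.zero hd }
  obtain ⟨N, hN⟩ := Nat.exists_mem_closure_of_ge D
  refine ⟨N, fun m hm hg => ?_⟩
  exact (AddSubmonoid.closure_le (S := S)).2 (fun n hn => h n hn) (hN m hm hg)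

theorem SumIso.one (h : SumIso C 1 X Y) : MotIso C X Y := by
  obtain ⟨hd, a, b, h1, h2, h3, h4⟩ := h
  refine ⟨hd, a 0 0, b 0 0, h1 0 0, h2 0 0, ?_, ?_⟩
  · have := h3 0 0
    rwa [Fin.sum_univ_one, if_pos rfl] at this
  · have := h4 0 0
    rwa [Fin.sum_univ_one, if_pos rfl] at this

end comp

end Pool.Agent.H838.CF
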