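import Pool.Agent.H838.CFSpec
import Pool.Agent.H838.CFNum

/-!
# Models of Chow-Kunneth decompositions over finitely generated subalgebras of the coefficients
-/

set_option autoImplicit false
set_option linter.unusedSectionVars false

open CategoryTheory AlgebraicGeometry

universe u v w t s

namespace Pool.Agent.H838.CF

open TensorProduct
open Pool.Agent.H914 Pool.Agent.H914.VarClass Pool.Agent.H914.VarClass.Obj Pool.Agent.W492.BB
  Pool.Agent.W550.Corr Pool.Agent.TH133

/-- Elements of `F ⊗ A` and their congruences are defined over a finitely generated subalgebra. -/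
theorem exists_sub {F : Type t} [Field F] [Algebra ℚ F] {A : Type*} [Ring A] [Algebra ℚ A]
    {ι : Type*} [Finite ι] (N : Submodule ℚ A) (p : ι → F ⊗[ℚ] A) (q : ι → A)
    (hN : ∀ i, p i - 1 ⊗ₜ q i ∈ N.baseChange F) :
    ∃ R : Subalgebra ℚ F, R.FG ∧ ∃ p' : ι → R ⊗[ℚ] A, (∀ i, bc A R.val (p' i) = p i) ∧
      ∀ i, p' i - 1 ⊗ₜ q i ∈ N.baseChange R := by
  classical
  have : Fintype ι := Fintype.ofFinite ι
  choose n hn using hN
  choose Sp hSp using fun i => exists_finset (p i)
  choose Sn hSn using fun i => exists_finset (n i)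
  let S : Finset F := (Finset.univ.biUnion Sp) ∪ (Finset.univ.biUnion Sn)
  let R : Subalgebra ℚ F := Algebra.adjoin ℚ (S : Set F)
  have hS : (S : Set F) ⊆ R := Algebra.subset_adjoin
  have h1 : ∀ i, (Sp i : Set F) ⊆ R := fun i a ha => hS (by
    simp only [S, Finset.coe_union, Finset.coe_biUnion, Set.mem_union, Set.mem_iUnion]
    exact Or.inl ⟨i, by simp, ha⟩)
  have h2 : ∀ i, (Sn i : Set F) ⊆ R := fun i a ha => hS (by
    simp only [S, Finset.coe_union, Finset.coe_biUnion, Set.mem_union, Set.mem_iUnion]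
    exact Or.inr ⟨i, by simp, ha⟩)
  choose p' hp' using fun i => hSp i R (h1 i)
  choose n' hn' using fun i => hSn i R (h2 i)
  have hval : Function.Injective (R.val) := Subtype.val_injective
  refine ⟨R, ⟨S, rfl⟩, p', fun i => ?_, fun i => ?_⟩
  · rw [bc_eq_bm]; exact hp' i
  · have h5 : p' i - 1 ⊗ₜ q i = (N.subtype.baseChange R) (n' i) := by
      apply bm_injective R.val hval
      rw [map_sub, hp' i, bm_tmul, map_one, ← hn i, ← hn' i]
      exact (bm_lTensor R.val N.subtype (n' i)).symm
    rw [h5]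
    exact ⟨n' i, rfl⟩

/-- Finitely generated subalgebras of a field have points over number fields. -/
theorem exists_point {F : Type t} [Field F] [Algebra ℚ F] (R : Subalgebra ℚ F) (hR : R.FG) :
    ∃ (E : Type t) (_ : Field E) (_ : Algebra ℚ E) (_ : FiniteDimensional ℚ E),
      Nonempty (R →ₐ[ℚ] E) := by
  have hft : Algebra.FiniteType ℚ R := (Subalgebra.fg_iff_finiteType R).1 hR
  obtain ⟨𝔪, h𝔪⟩ := Ideal.exists_maximal R
  let iE : Field (R ⧸ 𝔪) := Ideal.Quotient.field 𝔪
  have hfE : Algebra.FiniteType ℚ (R ⧸ 𝔪) :=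
    hft.of_surjective (Ideal.Quotient.mkₐ ℚ 𝔪) (Ideal.Quotient.mkₐ_surjective ℚ 𝔪)
  have hE : Module.Finite ℚ (R ⧸ 𝔪) := finite_of_finite_type_of_isJacobsonRing ℚ (R ⧸ 𝔪)
  exact ⟨R ⧸ 𝔪, iE, inferInstance, hE, ⟨Ideal.Quotient.mkₐ ℚ 𝔪⟩⟩

variable {k : Type u} [Field k] {𝒱 : VarClass k}

variable {C : TheoryData.{u, v, 0} 𝒱 ℚ} [hC : IsChowProj C] {K : Type w} [Field K]
  {H : WeilTheoryData.{u, v, w} C K} {X : 𝒱.Obj}

include hC

/-- **The model.** -/
theorem exists_model {F : Type t} [Field F] [Algebra ℚ F] {p : ℕ → F ⊗[ℚ] cor0 C X}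
    (hp : IsCKF F H X p) : ∃ R : Subalgebra ℚ F, R.FG ∧ ∃ r : ℕ → R ⊗[ℚ] cor0 C X,
      (∀ i, bc _ R.val (r i) = p i) ∧ ∀ (E : Type s) [Field E] [Algebra ℚ E] (φ : R →ₐ[ℚ] E),
        IsCKF E H X (fun i => bc _ φ (r i)) := by
  classical
  choose q hq1 hq2 using hp.act
  have hF : Function.Injective (algebraMap ℚ F) := (algebraMap ℚ F).injective
  obtain ⟨R, hR, p', h1, h3⟩ := exists_sub (homTriv H X)
    (fun i : Fin (2 * X.dim + 1) => p i) (fun i => q i) (fun i => hq2 i)
  have hval : Function.Injective (R.val) := Subtype.val_injective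
  let r : ℕ → R ⊗[ℚ] cor0 C X := fun i => if h : i < 2 * X.dim + 1 then p' ⟨i, h⟩ else 0
  have hr : ∀ i, bc _ R.val (r i) = p i := by
    intro i
    simp only [r]
    split_ifs with h
    · exact h1 ⟨i, h⟩
    · rw [map_zero, hp.out i (by omega)]
  have hbi := bc_injective (B := cor0 C X) R.val hval
  have hrmul : ∀ i j, r i * r j = if i = j then r i else 0 := by
    intro i j
    apply hbi
    rw [map_mul, hr, hr, hp.mul]
    split_ifs
    · exact (hr i).symm
    · exact (map_zero _).symm
  refine ⟨R, hR, r, hr, fun E _ _ φ => ⟨?_, ?_, ?_, ?_⟩⟩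
  · intro i j
    rw [← map_mul, hrmul]
    split_ifs
    · rfl
    · exact map_zero _
  · intro i hi
    simp only [r]
    rw [dif_neg (by omega), map_zero]
  · rw [← map_sum]
    have h5 : ∑ i ∈ Finset.range (2 * X.dim + 1), r i = 1 := by
      apply hbi
      rw [map_sum, map_one, ← hp.sum]
      exact Finset.sum_congr rfl fun i _ => hr i
    rw [h5, map_one]
  · intro i
    refine ⟨q i, hq1 i, ?_⟩
    by_cases hi : i < 2 * X.dim + 1
    · have h5 : r i - 1 ⊗ₜ q i ∈ (homTriv H X).baseChange R := by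
        simp only [r]
        rw [dif_pos hi]
        exact h3 ⟨i, hi⟩
      have h6 := bm_mem φ h5
      rw [← bc_eq_bm, map_sub, bc_tmul, map_one] at h6
      exact h6
    · have h5 : q i ∈ homTriv H X := by
        have h6 := hq2 i
        rw [hp.out i (by omega), zero_sub, neg_mem_iff] at h6
        exact mem_of_mem_baseChange hF h6
      simp only [r]
      rw [dif_neg hi, map_zero, zero_sub, neg_mem_iff]
      exact Submodule.tmul_mem_baseChange_of_mem _ h5

variable [hH : IsWeilProj H]

include hH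

/-- Decompositions with coefficients in `ℚ` are rational decompositions. -/
theorem isCK_of_rat {P : ℕ → ℚ ⊗[ℚ] cor0 C X} (hP : IsCKF ℚ H X P) :
    IsCK H X (fun i => ((Algebra.TensorProduct.lid ℚ (cor0 C X) (P i) : cor0 C X) : Cor C X)) := by
  set f := Algebra.TensorProduct.lid ℚ (cor0 C X) with hf
  refine isCK_of (H := H) (fun i => (f (P i)).2) (fun i hi => ?_) (fun i j => ?_) ?_ ?_
  · rw [hP.out i hi, map_zero]
    rfl
  · rw [← Subalgebra.coe_mul, ← map_mul, hP.mul]
    split_ifs
    · rfl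
    · rw [map_zero]
      rfl
  · rw [← AddSubmonoidClass.coe_finsetSum, ← map_sum, hP.sum, map_one]
    rfl
  · intro i m x hx
    obtain ⟨q, h1, h2⟩ := hP.act i
    have h3 : f (P i) - q ∈ homTriv H X := by
      have h4 : ∀ y ∈ (homTriv H X).baseChange ℚ, f y ∈ homTriv H X := by
        rintro y ⟨y, rfl⟩
        induction y with
        | zero => rw [map_zero, map_zero]; exact Submodule.zero_mem _
        | tmul r a =>
          rw [LinearMap.baseChange_tmul, hf, Algebra.TensorProduct.lid_tmul]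
          exact Submodule.smul_mem _ _ a.2
        | add y z hy hz => rw [map_add, map_add]; exact Submodule.add_mem _ hy hz
      have h5 := h4 _ h2
      rwa [map_sub, hf, Algebra.TensorProduct.lid_tmul, one_smul] at h5
    have h4 := (mem_homTriv H).1 h3
    rw [Subalgebra.coe_sub, map_sub, sub_eq_zero] at h4
    rw [h4]
    exact h1 m x hx

end Pool.Agent.H838.CF
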