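import Pool.Agent.H838.CFIsoMain
import Pool.Agent.H838.CFModel

/-!
# Isomorphisms of Chow motives do not depend on the coefficients
-/

set_option autoImplicit false
set_option linter.unusedSectionVars false

open CategoryTheory AlgebraicGeometry

universe u v w t s

namespace Pool.Agent.H838.CF

open TensorProduct

open Pool.Agent.H914 Pool.Agent.H914.VarClass Pool.Agent.H914.VarClass.Obj Pool.Agent.W492.BB
  Pool.Agent.W550.Corr Pool.Agent.TH133

variable {k : Type u} [Field k] {𝒱 : VarClass k}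
  {C : TheoryData.{u, v, 0} 𝒱 ℚ} {K : Type w} [Field K]
  (H : WeilTheoryData.{u, v, w} C K) {X Y Z : 𝒱.Obj}

section theta

variable {F : Type t} [Field F] [Algebra ℚ F] {L : Type s} [Field L] [Algebra K L] [CharZero K]

lemma bc_rat_smul {V W : Type*} [AddCommGroup V] [Module K V] [AddCommGroup W] [Module K W]
    (q : ℚ) (r : L) (f : V →ₗ[K] W) :
    r • ((q : K) • f).baseChange L = ((q : L) * r) • f.baseChange L := by
  have h : ((q : K) • f).baseChange L = (algebraMap K L q) • f.baseChange L := by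
    rw [LinearMap.baseChange_smul]
    exact (algebraMap_smul L (q : K) (f.baseChange L)).symm
  rw [h, smul_smul, map_ratCast, mul_comm]

/-- The map `L ⊗ H(X) → L ⊗ H(Y)` induced by a correspondence, with a factor. -/
noncomputable def th0 (X Y : 𝒱.Obj) (r : L) :
    C.A (X.prod Y) →+ (L ⊗[K] H.A X →ₗ[L] L ⊗[K] H.A Y) :=
  AddMonoidHom.mk' (fun γ => r • ((ac H X Y γ).baseChange L : L ⊗[K] H.A X →ₗ[L] L ⊗[K] H.A Y))
    fun a b => by rw [map_add, LinearMap.baseChange_add, smul_add]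

lemma th0_apply (r : L) (γ : C.A (X.prod Y)) :
    th0 H X Y r γ = r • (H.actL (H.cl γ)).baseChange L := rfl

/-- The map `L ⊗ H(X) → L ⊗ H(Y)` induced by a correspondence with coefficients in `F`, for a
homomorphism `j : F → L`. -/
noncomputable def th (X Y : 𝒱.Obj) (j : F →+* L) :
    F ⊗[ℚ] C.A (X.prod Y) →+ (L ⊗[K] H.A X →ₗ[L] L ⊗[K] H.A Y) :=
  TensorProduct.liftAddHom
    (AddMonoidHom.mk' (fun r => th0 H X Y (j r)) fun r s => by
      ext1 γ
      rw [AddMonoidHom.add_apply, th0_apply, th0_apply, th0_apply, map_add, add_smul])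
    fun q r γ => by
      change j (q • r) • (ac H X Y γ).baseChange L = j r • (ac H X Y (q • γ)).baseChange L
      rw [ac_smul, bc_rat_smul, Algebra.smul_def, map_mul]
      congr 2
      exact (map_ratCast (j.comp (algebraMap ℚ F)) q)

lemma th_tmul (j : F →+* L) (r : F) (γ : C.A (X.prod Y)) :
    th H X Y j (r ⊗ₜ γ) = j r • (H.actL (H.cl γ)).baseChange L := rfl

lemma th_mem (j : F →+* L) {z : F ⊗[ℚ] C.A (X.prod Y)} (hz : (ChF F C).Deg X.dim z) :
    th H X Y j z ∈ Submodule.span L {S : L ⊗[K] H.A X →ₗ[L] L ⊗[K] H.A Y |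
      ∃ γ : C.A (X.prod Y), C.Deg X.dim γ ∧ S = (H.actL (H.cl γ)).baseChange L} := by
  obtain ⟨y, rfl⟩ := hz
  induction y with
  | zero => rw [map_zero, map_zero]; exact Submodule.zero_mem _
  | tmul r a =>
    rw [LinearMap.baseChange_tmul, th_tmul]
    exact Submodule.smul_mem _ _ (Submodule.subset_span ⟨_, a.2, rfl⟩)
  | add y z hy hz => rw [map_add, map_add]; exact Submodule.add_mem _ hy hz

lemma combBij_of_span {S : L ⊗[K] H.A X →ₗ[L] L ⊗[K] H.A Y}
    (hS : S ∈ Submodule.span L {S : L ⊗[K] H.A X →ₗ[L] L ⊗[K] H.A Y |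
      ∃ γ : C.A (X.prod Y), C.Deg X.dim γ ∧ S = (H.actL (H.cl γ)).baseChange L})
    (hb : Function.Bijective S) : CombBij H L X Y := by
  obtain ⟨n, c, g, rfl⟩ := Submodule.mem_span_set'.1 hS
  choose γ h1 h2 using fun i => (g i).2
  refine ⟨n, c, γ, h1, ?_⟩
  have h3 : ⇑(∑ i, c i • (g i : L ⊗[K] H.A X →ₗ[L] L ⊗[K] H.A Y)) =
      fun x => ∑ i, c i • actE H L (γ i) x := by
    funext x
    rw [LinearMap.sum_apply]
    refine Finset.sum_congr rfl fun i _ => ?_
    rw [h2 i]
    rfl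
  rw [← h3]
  exact hb

variable [hC : IsChowProj C] [hH : IsWeilProj H]

include hC hH

lemma th_comp (j : F →+* L) (x : F ⊗[ℚ] C.A (X.prod Y)) (y : F ⊗[ℚ] C.A (Y.prod Z)) :
    th H X Z j (cR F C X Y Z x y) = th H Y Z j y ∘ₗ th H X Y j x := by
  induction x with
  | zero => simp only [map_zero, LinearMap.zero_apply, LinearMap.comp_zero]
  | tmul r a =>
    induction y with
    | zero => simp only [map_zero, LinearMap.zero_comp]
    | tmul s b =>
      rw [cR_tmul, th_tmul, th_tmul, th_tmul, actL_comp, LinearMap.baseChange_comp, map_mul,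
        LinearMap.smul_comp, LinearMap.comp_smul, smul_smul, mul_comm]
    | add y z hy hz => rw [map_add, map_add, map_add, hy, hz, LinearMap.add_comp]
  | add x z hx hz =>
    rw [map_add, LinearMap.add_apply, map_add, map_add, hx, hz, LinearMap.comp_add]

lemma th_dg (j : F →+* L) : th H X X j (1 ⊗ₜ dg C X) = LinearMap.id := by
  rw [th_tmul, actL_dg, map_one, one_smul, LinearMap.baseChange_id]

lemma th_bij (j : F →+* L) {x : F ⊗[ℚ] C.A (X.prod Y)} {y : F ⊗[ℚ] C.A (Y.prod X)}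
    (h1 : cR F C X Y X x y = 1 ⊗ₜ dg C X) (h2 : cR F C Y X Y y x = 1 ⊗ₜ dg C Y) :
    Function.Bijective (th H X Y j x) := by
  have e1 : th H Y X j y ∘ₗ th H X Y j x = LinearMap.id := by rw [← th_comp, h1, th_dg]
  have e2 : th H X Y j x ∘ₗ th H Y X j y = LinearMap.id := by rw [← th_comp, h2, th_dg]
  exact Function.bijective_iff_has_inverse.2 ⟨th H Y X j y, fun a => LinearMap.congr_fun e1 a,
    fun a => LinearMap.congr_fun e2 a⟩

end theta

variable [hC : IsChowProj C] [hH : IsWeilProj H]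

include hC hH

/-- Isomorphisms with coefficients in `F` give bijections with coefficients in an extension. -/
theorem comb_of_motIso {F : Type t} [Field F] [Algebra ℚ F] (h : MotIso (ChF F C) X Y) :
    ∃ (L : Type (max w t)) (_ : Field L) (_ : Algebra K L), CombBij H L X Y := by
  have := charZero_K H X
  obtain ⟨-, φ, ψ, h1, -, h3, h4⟩ := h
  have hnt : Nontrivial (K ⊗[ℚ] F) :=
    (Algebra.TensorProduct.includeLeft_injective (R := ℚ) (S := ℚ) (A := K) (B := F)
      (algebraMap ℚ F).injective).nontrivial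
  obtain ⟨𝔪, h𝔪⟩ := Ideal.exists_maximal (K ⊗[ℚ] F)
  let iL : Field ((K ⊗[ℚ] F) ⧸ 𝔪) := Ideal.Quotient.field 𝔪
  let j : F →+* (K ⊗[ℚ] F) ⧸ 𝔪 := (Ideal.Quotient.mk 𝔪).comp
    (Algebra.TensorProduct.includeRight : F →ₐ[ℚ] K ⊗[ℚ] F).toRingHom
  refine ⟨(K ⊗[ℚ] F) ⧸ 𝔪, iL, inferInstance, combBij_of_span H (th_mem H j h1) ?_⟩
  apply th_bij H j (x := φ) (y := ψ)
  · rw [← chF_comp, h3]
    exact chF_dg X
  · rw [← chF_comp, h4]
    exact chF_dg Y

/-- **Isomorphisms do not depend on the coefficients if the cohomology is conservative.** -/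
theorem motIso_of_F {F : Type t} [Field F] [Algebra ℚ F] [Module.Finite K (H.A X)]
    [Module.Finite K (H.A Y)] (hX : Conserv H X) (h : MotIso (ChF F C) X Y) : MotIso C X Y := by
  have hd := h.1
  have hK := charZero_K H X
  obtain ⟨L, iL, aL, hL⟩ := comb_of_motIso H h
  obtain ⟨γ, h1, h2⟩ := exists_rat H hL
  obtain ⟨R, hR, hE⟩ := motIso_model h
  obtain ⟨E, iE, aE, fE, ⟨f⟩⟩ := exists_point R hR
  obtain ⟨-, a, b, ha, hb, -, h4⟩ := sumIso_of_motIso rfl (hE E f)
  have hn : 0 < Module.finrank ℚ E := Module.finrank_pos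
  -- a left inverse
  obtain ⟨c, hc, hc1, -⟩ := hX (C.comp γ (tp C γ)) (comp_deg H hd h1 (tp_mem C h1)) (by
    have h5 : (fun x : H.A X => H.act (H.cl (C.comp γ (tp C γ))) x) =
        H.actL (H.cl (tp C γ)) ∘ H.actL (H.cl γ) := by
      funext x
      exact actH_comp H γ (tp C γ) x
    rw [h5]
    exact (bij_tp H h2).comp h2)
  have e1 : C.comp γ (C.comp (tp C γ) c) = dg C X := by rw [← comp_assoc]; exact hc1
  have hs : C.Deg X.dim (C.comp (tp C γ) c) := by
    rw [hd]
    exact comp_deg H hd.symm (hd ▸ tp_mem C h1) (hd ▸ hc)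
  have e2 : C.comp (C.comp (C.comp (tp C γ) c) γ) (C.comp (C.comp (tp C γ) c) γ) =
      C.comp (C.comp (tp C γ) c) γ := by
    rw [comp_assoc, ← comp_assoc C γ, e1, dg_comp]
  have e3 : dg C Y - C.comp (C.comp (tp C γ) c) γ = 0 := by
    apply idem_zero H hd hX (fun m => b ⟨0, hn⟩ m) (fun m => a m ⟨0, hn⟩) (fun m => hb _ _)
      (fun m => ha _ _)
    · rw [h4, if_pos rfl]
    · rw [sub_comp, comp_sub, comp_sub, e2, dg_comp, dg_comp, comp_dg, sub_self, sub_zero]
    · apply Submodule.sub_mem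
      · rw [hd]
        exact dg_mem C Y
      · have := comp_deg H (X := Y) (Y := X) (Z := Y) hd.symm (hd ▸ hs) (hd ▸ h1)
        rwa [← hd] at this
    · intro y
      obtain ⟨x, rfl⟩ := h2.2 y
      have h6 : H.act (H.cl (C.comp (C.comp (tp C γ) c) γ)) (H.actL (H.cl γ) x) =
          H.actL (H.cl γ) x := by
        rw [actH_comp]
        have h7 : H.act (H.cl (C.comp (tp C γ) c)) (H.actL (H.cl γ) x) = x := by
          have h8 := actH_comp H γ (C.comp (tp C γ) c) x
          rw [e1, actH_dg] at h8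
          exact h8.symm
        rw [h7]
        rfl
      rw [map_sub, TheoryData.act_sub, actH_dg, h6, sub_self]
  exact ⟨hd, γ, C.comp (tp C γ) c, h1, hs, e1, (sub_eq_zero.1 e3).symm⟩

end Pool.Agent.H838.CF
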