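import Pool.Agent.H838.CFIso
import Mathlib.LinearAlgebra.Matrix.Ideal

/-!
# Isomorphisms of Chow motives and coefficients: conservative cohomology
-/

set_option autoImplicit false
set_option linter.unusedSectionVars false

open CategoryTheory AlgebraicGeometry

universe u v w t s

namespace Pool.Agent.H838.CF

open TensorProduct

open Pool.Agent.H914 Pool.Agent.H914.VarClass Pool.Agent.H914.VarClass.Obj Pool.Agent.W492.BB
  Pool.Agent.W550.Corr Pool.Agent.TH133

variable {k : Type u} [Field k] {𝒱 : VarClass k}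
  {C : TheoryData.{u, v, 0} 𝒱 ℚ} {K : Type w} [Field K]
  (H : WeilTheoryData.{u, v, w} C K) {X Y Z : 𝒱.Obj}

section lin

lemma cl_rat_smul [CharZero K] {V : 𝒱.Obj} (q : ℚ) (a : C.A V) :
    H.cl (q • a) = (q : K) • H.cl a := by
  rw [Algebra.smul_def, map_mul, Algebra.smul_def]
  congr 1
  have h : (H.cl (X := V)).comp (algebraMap ℚ (C.A V)) =
      (algebraMap K (H.A V)).comp (Rat.castHom K) := Subsingleton.elim _ _
  exact congrArg (fun g : ℚ →+* H.A V => g q) h

/-- The map induced by a correspondence, as a linear function of the correspondence. -/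
noncomputable def ac (X Y : 𝒱.Obj) : C.A (X.prod Y) →+ (H.A X →ₗ[K] H.A Y) :=
  AddMonoidHom.mk' (fun γ => H.actL (H.cl γ)) fun a b => by
    ext x
    rw [LinearMap.add_apply, map_add]
    exact TheoryData.act_add _ _ _ _

lemma ac_apply (γ : C.A (X.prod Y)) : ac H X Y γ = H.actL (H.cl γ) := rfl

lemma ac_smul [CharZero K] (q : ℚ) (γ : C.A (X.prod Y)) :
    ac H X Y (q • γ) = (q : K) • ac H X Y γ := by
  ext x
  rw [ac_apply, LinearMap.smul_apply, cl_rat_smul, ac_apply]
  exact LinearMap.map_smul₂ (actB H.toTheoryData (X := X) (Y := Y)) _ _ _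

/-- **Rational correspondences inducing bijections.** -/
theorem exists_rat {L : Type t} [Field L] [Algebra K L] [CharZero K] [Module.Finite K (H.A X)]
    [Module.Finite K (H.A Y)] (h : CombBij H L X Y) :
    ∃ γ : C.A (X.prod Y), C.Deg X.dim γ ∧ Function.Bijective (H.actL (H.cl γ)) := by
  obtain ⟨n, c, γ, h1, h2⟩ := h
  have hb : Function.Bijective (∑ i, c i • (H.actL (H.cl (γ i))).baseChange L :
      L ⊗[K] H.A X →ₗ[L] L ⊗[K] H.A Y) := by
    have h3 : ⇑(∑ i, c i • (H.actL (H.cl (γ i))).baseChange L :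
        L ⊗[K] H.A X →ₗ[L] L ⊗[K] H.A Y) = fun x => ∑ i, c i • actE H L (γ i) x := by
      funext x
      rw [LinearMap.sum_apply]
      rfl
    rw [h3]
    exact h2
  obtain ⟨x, hx⟩ := exists_rat_bij (fun i => H.actL (H.cl (γ i))) c hb
  refine ⟨∑ i, x i • γ i, Submodule.sum_mem _ fun i _ => Submodule.smul_mem _ _ (h1 i), ?_⟩
  have h4 : H.actL (H.cl (∑ i, x i • γ i)) = ∑ i, (x i : K) • H.actL (H.cl (γ i)) := by
    rw [← ac_apply, map_sum]
    exact Finset.sum_congr rfl fun i _ => ac_smul H _ _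
  rw [h4]
  exact hx

end lin

variable [hC : IsChowProj C] [hH : IsWeilProj H]

include hC hH

lemma actL_comp (Γ : C.A (X.prod Y)) (Δ : C.A (Y.prod Z)) :
    H.actL (H.cl (C.comp Γ Δ)) = H.actL (H.cl Δ) ∘ₗ H.actL (H.cl Γ) := by
  ext a
  exact actH_comp H Γ Δ a

lemma actL_dg : H.actL (H.cl (dg C X)) = LinearMap.id := by
  ext a
  exact actH_dg H a

lemma comp_deg (hd : X.dim = Y.dim) {Γ : C.A (X.prod Y)} {Δ : C.A (Y.prod Z)}
    (h1 : C.Deg X.dim Γ) (h2 : C.Deg X.dim Δ) : C.Deg X.dim (C.comp Γ Δ) := by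
  have h3 := comp_mem C (e := 0) (e' := 0) (Γ := Γ) (Δ := Δ)
    (by rw [add_zero]; exact h1) (by rw [add_zero, ← hd]; exact h2)
  rw [add_zero, add_zero] at h3
  exact h3

/-- Correspondences inducing bijections in both directions are isomorphisms. -/
theorem motIso_of_bij (hd : X.dim = Y.dim) (hX : Conserv H X) (hY : Conserv H Y)
    {γ : C.A (X.prod Y)} {δ : C.A (Y.prod X)} (h1 : C.Deg X.dim γ) (h2 : C.Deg X.dim δ)
    (h3 : Function.Bijective (H.actL (H.cl γ))) (h4 : Function.Bijective (H.actL (H.cl δ))) :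
    MotIso C X Y := by
  obtain ⟨a, ha, ha1, ha2⟩ := hX (C.comp γ δ) (comp_deg H hd h1 h2) (by
    have h5 : (fun x : H.A X => H.act (H.cl (C.comp γ δ)) x) =
        H.actL (H.cl δ) ∘ H.actL (H.cl γ) := by
      funext x
      exact actH_comp H γ δ x
    rw [h5]
    exact h4.comp h3)
  obtain ⟨b, hb, hb1, hb2⟩ := hY (C.comp δ γ)
    (by rw [← hd]; exact comp_deg H hd.symm (hd ▸ h2) (hd ▸ h1) |> fun h => by rw [hd]; exact h) (by
    have h5 : (fun x : H.A Y => H.act (H.cl (C.comp δ γ)) x) =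
        H.actL (H.cl γ) ∘ H.actL (H.cl δ) := by
      funext x
      exact actH_comp H δ γ x
    rw [h5]
    exact h3.comp h4)
  have e1 : C.comp γ (C.comp δ a) = dg C X := by rw [← comp_assoc]; exact ha1
  have e2 : C.comp (C.comp b δ) γ = dg C Y := by rw [comp_assoc]; exact hb2
  have e3 : C.comp b δ = C.comp δ a := by
    rw [← comp_dg C (C.comp b δ), ← e1, ← comp_assoc, e2, dg_comp]
  refine ⟨hd, γ, C.comp δ a, h1, ?_, e1, by rw [← e3, e2]⟩
  rw [hd]
  exact comp_deg H hd.symm (hd ▸ h2) (hd ▸ ha)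

/-- The transpose of a bijection is a bijection. -/
theorem bij_tp [Module.Finite K (H.A X)] [Module.Finite K (H.A Y)] {γ : C.A (X.prod Y)}
    (h : Function.Bijective (H.actL (H.cl γ))) :
    Function.Bijective (H.actL (H.cl (tp C γ))) := by
  have h1 : Function.Injective (H.actL (H.cl (tp C γ))) := by
    rw [← LinearMap.ker_eq_bot, LinearMap.ker_eq_bot']
    intro b hb
    apply H.nondeg
    intro c
    obtain ⟨a, ha⟩ := h.2 c
    have h2 := tr_act' H γ a b
    rw [show H.act (H.cl γ) a = c from ha, show H.act (H.cl (tp C γ)) b = 0 from hb, zero_mul,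
      map_zero] at h2
    exact h2.symm
  have h2 : Module.finrank K (H.A Y) = Module.finrank K (H.A X) :=
    (LinearEquiv.ofBijective _ h).finrank_eq.symm
  exact ⟨h1, (LinearMap.injective_iff_surjective_of_finrank_eq_finrank h2).1 h1⟩

/-- **The cohomological criterion.** -/
theorem motIso_of_comb {L : Type t} [Field L] [Algebra K L] [Module.Finite K (H.A X)]
    [Module.Finite K (H.A Y)] (hd : X.dim = Y.dim) (hX : Conserv H X) (hY : Conserv H Y)
    (h : CombBij H L X Y) : MotIso C X Y := by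
  have := charZero_K H X
  obtain ⟨γ, h1, h2⟩ := exists_rat H h
  exact motIso_of_bij H hd hX hY h1 (tp_mem C h1) h2 (bij_tp H h2)

/-- Homologically trivial correspondences of degree zero lie in the Jacobson radical if the
cohomology is conservative. -/
lemma mem_jac (hX : Conserv H X) {x : cor0 C X}
    (h : ∀ a : H.A X, H.act (H.cl (X := X.prod X) (x : Cor C X)) a = 0) :
    x ∈ (⊥ : Ideal (cor0 C X)).jacobson := by
  rw [Ideal.mem_jacobson_iff]
  intro y
  obtain ⟨δ, h1, h2, h3⟩ := hX ((1 + y * x : cor0 C X) : Cor C X) (1 + y * x : cor0 C X).2 (by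
    have h4 : (fun a : H.A X => H.act (H.cl (X := X.prod X) ((1 + y * x : cor0 C X) : Cor C X)) a) =
        id := by
      funext a
      have h5 : ((1 + y * x : cor0 C X) : Cor C X) =
          (dg C X : C.A (X.prod X)) + C.comp (X := X) (Y := X) (Z := X) (x : Cor C X)
            (y : Cor C X) := rfl
      rw [h5, map_add]
      refine (TheoryData.act_add _ _ _ _).trans ?_
      rw [actH_dg, actH_comp, h, TheoryData.act_map_zero, add_zero]
      rfl
    rw [h4]
    exact Function.bijective_id)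
  refine ⟨⟨δ, h1⟩, ?_⟩
  rw [Ideal.mem_bot]
  have h6 : (⟨δ, h1⟩ : cor0 C X) * (1 + y * x) = 1 := Subtype.ext h2
  rw [mul_add, mul_one, ← mul_assoc] at h6
  rw [← h6]
  abel

/-- Idempotents which factor through a sum of copies of `X` and are homologically trivial are
zero. -/
theorem idem_zero (hd : X.dim = Y.dim) (hX : Conserv H X) {n : ℕ} (b : Fin n → C.A (Y.prod X))
    (a : Fin n → C.A (X.prod Y)) (hb : ∀ m, C.Deg X.dim (b m)) (ha : ∀ m, C.Deg X.dim (a m))
    (h : ∑ m, C.comp (b m) (a m) = dg C Y) {e : C.A (Y.prod Y)} (he : C.comp e e = e)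
    (hdeg : C.Deg X.dim e) (h0 : ∀ x : H.A Y, H.act (H.cl e) x = 0) : e = 0 := by
  classical
  let c : Fin n → C.A (Y.prod X) := fun m => C.comp e (b m)
  let d : Fin n → C.A (X.prod Y) := fun m => C.comp (a m) e
  have hc : ∀ m, C.Deg X.dim (c m) := fun m => by
    have := comp_deg H (X := Y) (Y := Y) (Z := X) rfl (Γ := e) (Δ := b m) (hd ▸ hdeg) (hd ▸ hb m)
    rwa [← hd] at this
  have hd' : ∀ m, C.Deg X.dim (d m) := fun m => comp_deg H hd (ha m) hdeg
  have hcd : ∑ m, C.comp (c m) (d m) = e := by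
    have h1 : ∀ m, C.comp (c m) (d m) = C.comp e (C.comp (C.comp (b m) (a m)) e) := fun m => by
      change C.comp (C.comp e (b m)) (C.comp (a m) e) = _
      rw [comp_assoc, ← comp_assoc C (b m)]
    rw [Finset.sum_congr rfl fun m _ => h1 m, ← comp_sum, ← sum_comp, h, dg_comp, he]
  have hec : ∀ m, C.comp e (c m) = c m := fun m => by
    change C.comp e (C.comp e (b m)) = _
    rw [← comp_assoc, he]
  let T : Matrix (Fin n) (Fin n) (cor0 C X) := fun l i =>
    ⟨C.comp (d i) (c l), comp_deg H hd (hd' i) (hc l)⟩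
  have hT : T * T = T := by
    ext1 l
    intro i
    rw [Matrix.mul_apply]
    apply Subtype.ext
    have h1 : ((∑ m, T l m * T m i : cor0 C X) : Cor C X) =
        ∑ m, C.comp (X := X) (Y := X) (Z := X) (C.comp (d i) (c m)) (C.comp (d m) (c l)) := by
      rw [AddSubmonoidClass.coe_finsetSum]
      rfl
    rw [h1]
    have h2 : ∀ m, C.comp (C.comp (d i) (c m)) (C.comp (d m) (c l)) =
        C.comp (d i) (C.comp (C.comp (c m) (d m)) (c l)) := fun m => by
      rw [comp_assoc, ← comp_assoc C (c m)]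
    refine (Finset.sum_congr rfl fun m _ => h2 m).trans ?_
    rw [← comp_sum, ← sum_comp, hcd, hec]
  have hJ : T ∈ (Ideal.jacobson (⊥ : Ideal (cor0 C X))).matrix (Fin n) := by
    intro l i
    apply mem_jac H hX
    intro x
    have h1 : H.act (H.cl (C.comp (d i) (c l))) x = 0 := by
      change H.act (H.cl (C.comp (d i) (C.comp e (b l)))) x = 0
      rw [actH_comp, actH_comp, h0, TheoryData.act_map_zero]
    exact h1
  have hT0 : T = 0 := by
    have h1 := Ideal.matrix_jacobson_le (⊥ : Ideal (cor0 C X)) hJ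
    rw [Ideal.mem_jacobson_iff] at h1
    obtain ⟨z, hz⟩ := h1 (-1)
    have h2 : z * -1 * T + z - 1 = 0 := by
      ext1 l
      intro i
      exact hz l i
    have h3 : z * (1 - T) = 1 := by
      rw [mul_sub, mul_one, ← sub_eq_zero, ← h2]
      simp only [mul_neg, mul_one, neg_mul]
      abel
    calc T = z * (1 - T) * T := by rw [h3, one_mul]
      _ = 0 := by rw [mul_assoc, sub_mul, one_mul, hT, sub_self, mul_zero]
  have hdc : ∀ m l, C.comp (d m) (c l) = 0 := fun m l =>
    congrArg (Subtype.val) (congrFun (congrFun hT0 l) m)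
  rw [← he, ← hcd, comp_sum]
  refine Finset.sum_eq_zero fun l _ => ?_
  rw [sum_comp]
  refine Finset.sum_eq_zero fun m _ => ?_
  rw [comp_assoc, ← comp_assoc C (d m), hdc, zero_comp, comp_zero]

end Pool.Agent.H838.CF
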