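import Pool.Agent.H838.CFStat

/-!
# Isomorphisms of Chow motives and coefficients: the definitions used in the statements
-/

set_option autoImplicit false

open CategoryTheory AlgebraicGeometry

universe u v w t

namespace Pool.Agent.H838.CF

open TensorProduct Pool.Agent.H914 Pool.Agent.H914.VarClass Pool.Agent.H914.VarClass.Obj
  Pool.Agent.W492.BB Pool.Agent.W550.Corr Pool.Agent.TH133

variable {k : Type u} [Field k] {𝒱 : VarClass k}

/-- The varieties `X` and `Y` have the same dimension and their motives are isomorphic in the theory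
`T`: there are correspondences `φ : X → Y` and `ψ : Y → X` of degree zero which are inverse to each
other. For `T = C` (Chow groups with rational coefficients) these are the Chow motives, for
`T = ChF F C` the Chow motives with coefficients in `F`. -/
def MotIso {R : Type t} [Field R] (T : TheoryData.{u, v, t} 𝒱 R) (X Y : 𝒱.Obj) : Prop :=
  X.dim = Y.dim ∧ ∃ (φ : T.A (X.prod Y)) (ψ : T.A (Y.prod X)), T.Deg X.dim φ ∧ T.Deg X.dim ψ ∧
    T.comp φ ψ = dg T X ∧ T.comp ψ φ = dg T Y

/-- The Chow motives (with rational coefficients) of `X` and `Y` become isomorphic after taking the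
direct sum of `n` copies: there are `n × n` matrices of correspondences `X → Y` and `Y → X` of degree
zero which are inverse to each other. -/
def SumIso (C : TheoryData.{u, v, 0} 𝒱 ℚ) (n : ℕ) (X Y : 𝒱.Obj) : Prop :=
  X.dim = Y.dim ∧ ∃ (a : Fin n → Fin n → C.A (X.prod Y)) (b : Fin n → Fin n → C.A (Y.prod X)),
    (∀ i j, C.Deg X.dim (a i j)) ∧ (∀ i j, C.Deg X.dim (b i j)) ∧
    (∀ i l, ∑ j, C.comp (a i j) (b j l) = if i = l then dg C X else 0) ∧
    (∀ i l, ∑ j, C.comp (b i j) (a j l) = if i = l then dg C Y else 0)

/-- The Chow motives of `X` and `Y` with coefficients in some number field of degree `n` are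
isomorphic. -/
def NumberFieldIso (C : TheoryData.{u, v, 0} 𝒱 ℚ) (n : ℕ) (X Y : 𝒱.Obj) : Prop :=
  ∃ (E : Type t) (_ : Field E) (_ : Algebra ℚ E) (_ : FiniteDimensional ℚ E),
    Module.finrank ℚ E = n ∧ MotIso (ChF E C) X Y

/-- Every finitely generated subalgebra of the field `F` has a rational point (for example
`F = ℚ(t)` or `F = ℚ((t))`). -/
def RationalPoints (F : Type t) [Field F] [Algebra ℚ F] : Prop :=
  ∀ R : Subalgebra ℚ F, R.FG → Nonempty (R →ₐ[ℚ] ℚ)

variable {C : TheoryData.{u, v, 0} 𝒱 ℚ} {K : Type w} [Field K] (H : WeilTheoryData.{u, v, w} C K)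

/-- The cohomology is conservative on the endomorphisms of the Chow motive of `X`: a
self-correspondence of degree zero of `X` which induces a bijection of `H(X)` is an automorphism of
the Chow motive of `X`. (This holds if all homologically trivial self-correspondences of degree zero
are nilpotent.) -/
def Conserv (X : 𝒱.Obj) : Prop := ∀ γ : C.A (X.prod X), C.Deg X.dim γ →
  Function.Bijective (fun x : H.A X => H.act (H.cl γ) x) →
    ∃ δ : C.A (X.prod X), C.Deg X.dim δ ∧ C.comp γ δ = dg C X ∧ C.comp δ γ = dg C X

/-- The map `L ⊗ H(X) → L ⊗ H(Y)` induced by the correspondence `γ` from `X` to `Y`. -/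
noncomputable def actE (L : Type t) [Field L] [Algebra K L] {X Y : 𝒱.Obj} (γ : C.A (X.prod Y))
    (x : L ⊗[K] H.A X) : L ⊗[K] H.A Y := (H.actL (H.cl γ)).baseChange L x

/-- Some linear combination with coefficients in the extension `L` of the coefficient field `K` of the
maps `H(X) → H(Y)` induced by the correspondences of degree zero is a bijection
`L ⊗ H(X) → L ⊗ H(Y)`. -/
def CombBij (L : Type t) [Field L] [Algebra K L] (X Y : 𝒱.Obj) : Prop :=
  ∃ (n : ℕ) (c : Fin n → L) (γ : Fin n → C.A (X.prod Y)), (∀ i, C.Deg X.dim (γ i)) ∧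
    Function.Bijective fun x : L ⊗[K] H.A X => ∑ i, c i • actE H L (γ i) x

end Pool.Agent.H838.CF
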