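import Pool.Agent.H838.CFMdStat
import Pool.Agent.H838.CFInd

/-!
# Murre's conjecture (D) and coefficients
-/

set_option autoImplicit false
set_option linter.unusedSectionVars false

open CategoryTheory AlgebraicGeometry

universe u v w t

namespace Pool.Agent.H838.CF

open TensorProduct
open Pool.Agent.H914 Pool.Agent.H914.VarClass Pool.Agent.H914.VarClass.Obj Pool.Agent.W492.BB
  Pool.Agent.W550.Corr Pool.Agent.TH133

variable {k : Type u} [Field k] {𝒱 : VarClass k}

variable {C : TheoryData.{u, v, 0} 𝒱 ℚ} [hC : IsChowProj C] {K : Type w} [Field K]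
  {H : WeilTheoryData.{u, v, w} C K} [hH : IsWeilProj H] {X Y : 𝒱.Obj}
  {F : Type t} [Field F] [Algebra ℚ F]

include hC hH

/-! ### The step `F^1` -/

omit hC hH in
lemma homF_eq (i : ℕ) : homF F X H i = spanF F (homCyc H X i) := by
  unfold homF spanF
  congr 1
  ext y
  constructor
  · rintro ⟨a, h1, h2, h3⟩
    exact ⟨a, ⟨h1, h2⟩, h3⟩
  · rintro ⟨a, ⟨h1, h2⟩, h3⟩
    exact ⟨a, h1, h2, h3⟩

lemma act_homTriv_mem {a : cor0 C X} (ha : a ∈ homTriv H X) {i : ℕ} {x : C.A X}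
    (hx : x ∈ C.gr X i) : alp C X a x ∈ homCyc H X i := by
  refine ⟨act_mem0 C a.2 hx, ?_⟩
  rw [alp_apply, cl_act H]
  have h1 := (mem_homTriv H).1 ha
  exact congrFun (congrArg DFunLike.coe h1) (H.cl x)

lemma act_proj_mem {q : cor0 C X} {j : ℕ} (hq : IsProjector H X j q) {i : ℕ} (hij : j < 2 * i ∨
    2 * i < j) {x : C.A X} (hx : x ∈ C.gr X i) : alp C X q x ∈ homCyc H X i := by
  refine ⟨act_mem0 C q.2 hx, ?_⟩
  rw [alp_apply, cl_act H]
  have h1 := hq (2 * i) (H.cl x) (H.cl_mem hx)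
  rw [if_neg (by omega)] at h1
  exact h1

lemma IsCKF.act_mem_hom {p : ℕ → F ⊗[ℚ] cor0 C X} (hp : IsCKF F H X p) {i j : ℕ}
    (hij : j < 2 * i ∨ 2 * i < j) {y : F ⊗[ℚ] C.A X} (hy : y ∈ (C.gr X i).baseChange F) :
    actS F (alp C X) (p j) y ∈ (homCyc H X i).baseChange F := by
  obtain ⟨q, hq1, hq2⟩ := hp.act j
  have h1 : p j = (p j - 1 ⊗ₜ q) + 1 ⊗ₜ q := by rw [sub_add_cancel]
  rw [h1, map_add, LinearMap.add_apply]
  apply Submodule.add_mem
  · obtain ⟨s, hs⟩ := hq2
    rw [← hs]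
    clear hs
    obtain ⟨t, rfl⟩ := hy
    induction s with
    | zero => rw [map_zero, map_zero, LinearMap.zero_apply]; exact Submodule.zero_mem _
    | tmul r a =>
      rw [LinearMap.baseChange_tmul]
      induction t with
      | zero => rw [map_zero, map_zero]; exact Submodule.zero_mem _
      | tmul r' x =>
        rw [LinearMap.baseChange_tmul, actS_tmul]
        exact Submodule.tmul_mem_baseChange_of_mem _ (act_homTriv_mem a.2 x.2)
      | add y z hy hz => rw [map_add, map_add]; exact Submodule.add_mem _ hy hz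
    | add y z hy hz =>
      rw [map_add, map_add, LinearMap.add_apply]; exact Submodule.add_mem _ hy hz
  · obtain ⟨t, rfl⟩ := hy
    induction t with
    | zero => rw [map_zero, map_zero]; exact Submodule.zero_mem _
    | tmul r' x =>
      rw [LinearMap.baseChange_tmul, actS_tmul]
      exact Submodule.tmul_mem_baseChange_of_mem _ (act_proj_mem hq1 hij x.2)
    | add y z hy hz => rw [map_add, map_add]; exact Submodule.add_mem _ hy hz

lemma homCyc_le (i : ℕ) : homCyc H X i ≤ C.gr X i := fun _ h => h.1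

lemma IsCKF.d_iff {p : ℕ → F ⊗[ℚ] cor0 C X} (hp : IsCKF F H X p) (i : ℕ) :
    ckFilF F C p i 1 = (homCyc H X i).baseChange F ↔ ∀ (j : ℕ) (x : C.A X), x ∈ homCyc H X i →
      2 * i ≤ j → actS F (alp C X) (p j) (1 ⊗ₜ x) = 0 := by
  constructor
  · intro h j x hx hj
    have h1 : (1 ⊗ₜ x : F ⊗[ℚ] C.A X) ∈ ckFilF F C p i 1 := by
      rw [h]
      exact Submodule.tmul_mem_baseChange_of_mem _ hx
    rw [hp.mem_ckFilF] at h1
    exact h1.2 j (by omega)
  · intro h
    apply le_antisymm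
    · rintro _ ⟨z, hz, rfl⟩
      rw [map_sum, LinearMap.sum_apply]
      refine Submodule.sum_mem _ fun j hj => ?_
      rw [Finset.mem_range] at hj
      exact hp.act_mem_hom (by omega) hz
    · intro y hy
      rw [hp.mem_ckFilF]
      refine ⟨?_, fun j hj => actS_eq_zero (fun x hx => h j x hx (by omega)) hy⟩
      obtain ⟨t, rfl⟩ := hy
      induction t with
      | zero => rw [map_zero]; exact Submodule.zero_mem _
      | tmul r a =>
        rw [LinearMap.baseChange_tmul]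
        exact Submodule.tmul_mem_baseChange_of_mem _ a.2.1
      | add y z hy hz => rw [map_add]; exact Submodule.add_mem _ hy hz

lemma IsCK.d_iff {π : ℕ → C.A (X.prod X)} (hπ : IsCK H X π) (i : ℕ) :
    DOne H π i ↔ ∀ (j : ℕ) (x : C.A X), x ∈ homCyc H X i → 2 * i ≤ j → C.act (π j) x = 0 := by
  constructor
  · intro h j x hx hj
    have h1 := (h x).2 hx
    rw [hπ.mem_ckFil] at h1
    exact h1.2 j (by omega)
  · intro h x
    constructor
    · rintro ⟨z, hz, rfl⟩
      rw [TheoryData.actL_apply, act_sum]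
      have h1 : (∑ j ∈ Finset.range (2 * i + 1 - 1), C.act (π j) z) ∈ homCyc H X i := by
        refine Submodule.sum_mem _ fun j hj => ?_
        rw [Finset.mem_range] at hj
        refine ⟨act_mem0 C (hπ.deg j) hz, ?_⟩
        rw [cl_act H]
        exact hπ.act_ne j (2 * i) (H.cl z) (by omega) (H.cl_mem hz)
      exact h1
    · intro hx
      rw [hπ.mem_ckFil]
      exact ⟨hx.1, fun j hj => h j x hx (by omega)⟩

lemma dOneF_io {p : ℕ → F ⊗[ℚ] cor0 C X} (hp : IsCKF F H X p) (i : ℕ) :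
    DOneF F H (fun j => io F C X (p j)) i ↔ ∀ (j : ℕ) (x : C.A X), x ∈ homCyc H X i →
      2 * i ≤ j → actS F (alp C X) (p j) (1 ⊗ₜ x) = 0 := by
  rw [← hp.d_iff, DOneF, stepF_io, homF_eq]
  constructor
  · intro h
    apply Submodule.ext
    intro y
    rw [mem_spanF F, h]
    exact Iff.rfl
  · intro h
    rw [h]
    apply Submodule.ext
    intro y
    exact mem_spanF F _ y

/-! ### Descent -/

lemma pull_hom {n : ℕ} {i : ℕ} {x : C.A X} (hx : x ∈ homCyc H X i) :
    pb C X n 0 x ∈ homCyc H (pw X n) i := by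
  refine ⟨C.pull_mem _ hx.1, ?_⟩
  have h1 : H.cl (C.pull (pj X n 0) x) = H.pull (pj X n 0) (H.cl x) := H.cl_pull _ _
  exact h1.trans (by rw [hx.2, map_zero])

/-- **(D) for one decomposition.** -/
theorem d_one {F : Type t} [Field F] [Algebra ℚ F] {n : ℕ}
    (hn : Module.finrank ℚ F = n + 1) {p : ℕ → (ChF F C).A (X.prod X)} (hp : CKF F X H p) :
    ∃ P : ℕ → C.A ((pw X n).prod (pw X n)), IsCK H (pw X n) P ∧
      ∀ i : ℕ, DOne H P i → DOneF F H p i := by
  have hF : FiniteDimensional ℚ F := Module.finite_of_finrank_pos (by omega)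
  obtain ⟨p', rfl, hp2⟩ := exists_io hp
  obtain ⟨δ, hδ⟩ := main_nf (H := H) X F hn
  obtain ⟨h1, h2⟩ := hδ _ hp2
  refine ⟨_, h1, fun i h => ?_⟩
  rw [IsCK.d_iff h1] at h
  rw [dOneF_io hp2]
  intro j x hx hj
  have h3 := h2 _ hp2 (homCyc H (pw X n) i) (Stb.homCyc (C := C) (H := H) i) j j (fun v hv => by
    rw [map_mul, Module.End.mul_apply]
    have h4 : alp C (pw X n) (δ p' j) v = 0 := h j v hv hj
    rw [h4, map_zero]) x (pull_hom hx)
  rwa [hp2.mul, if_pos rfl] at h3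

lemma dAllF_iff {i : ℕ} : DAllF F H X i ↔ ∀ p, IsCKF F H X p → ∀ (j : ℕ) (x : C.A X),
    x ∈ homCyc H X i → 2 * i ≤ j → actS F (alp C X) (p j) (1 ⊗ₜ x) = 0 := by
  constructor
  · intro h p hp
    exact (dOneF_io hp i).1 (h _ (ckf_of hp))
  · intro h p hp
    obtain ⟨p', rfl, hp2⟩ := exists_io hp
    exact (dOneF_io hp2 i).2 (h p' hp2)

theorem dAllF_nf {F : Type t} [Field F] [Algebra ℚ F] {n : ℕ}
    (hn : Module.finrank ℚ F = n + 1) {i : ℕ} (h : DAll H (pw X n) i) : DAllF F H X i := by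
  intro p hp
  obtain ⟨P, h1, h2⟩ := d_one hn hp
  exact h2 i (h P h1)

theorem dAllF_gen (F : Type t) [Field F] [Algebra ℚ F] {i : ℕ} (h : ∀ n, DAll H (pw X n) i) :
    DAllF F H X i := by
  rw [dAllF_iff]
  intro p hp j x hx hj
  by_contra hz
  have hz' : actS F (alp C X) (p j * p j) (1 ⊗ₜ x) ≠ 0 := by rwa [hp.mul, if_pos rfl]
  obtain ⟨E, iE, aE, fE, P, hP, h2⟩ := spec_CK (κ := Unit) (p := fun _ => p) (fun _ => hp)
    (c := ()) (c' := ()) hz'
  obtain ⟨n, hn⟩ := finrank_eq E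
  have h3 := dAllF_iff.1 (dAllF_nf (F := E) hn (h n)) (P ()) (hP ()) j x hx hj
  rw [(hP ()).mul, if_pos rfl] at h2
  exact h2 h3

theorem dAll_of_dAllF (F : Type t) [Field F] [Algebra ℚ F] {i : ℕ} (h : DAllF F H X i) :
    DAll H X i := by
  intro π hπ
  rw [IsCK.d_iff hπ]
  intro j x hx hj
  have h1 := dAllF_iff.1 h _ (isCKF_extCK F hπ) j x hx hj
  rw [actS_extCK] at h1
  exact one_tmul_eq_zero (algebraMap ℚ F).injective h1

/-- (D) contains the first half of (B). -/
theorem b0_of_d (h : ∀ i, DAll H Y i) : MurreB0 H Y := by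
  rw [murreB0_iff]
  intro π hπ i j x hx hj
  have h1 : C.act (π j) x ∈ homCyc H Y i := by
    refine ⟨act_mem0 C (hπ.deg j) hx, ?_⟩
    rw [cl_act H]
    exact hπ.act_ne j (2 * i) (H.cl x) (by omega) (H.cl_mem hx)
  have h2 := (IsCK.d_iff hπ i).1 (h i π hπ) j _ h1 (by omega)
  rwa [← C.act_comp, hπ.idem] at h2

end Pool.Agent.H838.CF
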