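import Pool.Agent.H838.CFMd

/-!
# Conjugacy of the Chow-Kunneth decompositions with coefficients
-/

set_option autoImplicit false
set_option linter.unusedSectionVars false

open CategoryTheory AlgebraicGeometry

universe u v w t

namespace Pool.Agent.H838.CF

open TensorProduct
open Pool.Agent.H914 Pool.Agent.H914.VarClass Pool.Agent.H914.VarClass.Obj Pool.Agent.W492.BB
  Pool.Agent.W550.Corr Pool.Agent.TH133

section alg

variable {R : Type*} [Ring R] {M : ℕ} {e p : ℕ → R}

lemma strict_pow (he : Sys M e) {w : R} (hw : ∀ a b, a ≤ b → e b * w * e a = 0) (m : ℕ) :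
    ∀ a b, a < b + m → e b * w ^ m * e a = 0 := by
  induction m with
  | zero =>
    intro a b h
    rw [pow_zero, mul_one, he.mul, if_neg (by omega)]
  | succ m ih =>
    intro a b h
    have h1 : e b * w ^ (m + 1) * e a =
        ∑ c ∈ Finset.range (M + 1), (e b * w ^ m * e c) * (e c * w * e a) := by
      calc e b * w ^ (m + 1) * e a =
          e b * w ^ m * (∑ c ∈ Finset.range (M + 1), e c) * (w * e a) := by
            rw [he.sum, mul_one, pow_succ]
            simp only [mul_assoc]
        _ = _ := by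
            rw [Finset.mul_sum, Finset.sum_mul]
            refine Finset.sum_congr rfl fun c _ => ?_
            have h2 : e c = e c * e c := by rw [he.mul, if_pos rfl]
            conv_lhs => rw [h2]
            simp only [mul_assoc]
    rw [h1]
    refine Finset.sum_eq_zero fun c _ => ?_
    by_cases hc : c < b + m
    · rw [ih c b hc, zero_mul]
    · rw [hw a c (by omega), mul_zero]

lemma strict_nilp (he : Sys M e) {w : R} (hw : ∀ a b, a ≤ b → e b * w * e a = 0) :
    w ^ (M + 1) = 0 := by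
  have h1 : w ^ (M + 1) = ∑ b ∈ Finset.range (M + 1), ∑ a ∈ Finset.range (M + 1),
      e b * w ^ (M + 1) * e a := by
    simp only [← Finset.mul_sum, ← Finset.sum_mul, he.sum, one_mul, mul_one]
  rw [h1]
  refine Finset.sum_eq_zero fun b _ => Finset.sum_eq_zero fun a ha => ?_
  rw [Finset.mem_range] at ha
  exact strict_pow he hw _ a b (by omega)

/-- **Conjugacy of idempotent systems congruent modulo a strictly lowering ideal.** -/
theorem conj_of_strict (he : Sys M e) (hp : Sys M p) (N : AddSubgroup R)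
    (hN : ∀ w ∈ N, ∀ a b, a ≤ b → e b * w * e a = 0) (hl : ∀ b, ∀ x ∈ N, b * x ∈ N)
    (hr : ∀ b, ∀ x ∈ N, x * b ∈ N) (hpe : ∀ i, p i - e i ∈ N) :
    ∃ u v : R, u * v = 1 ∧ v * u = 1 ∧ u - 1 ∈ N ∧ v - 1 ∈ N ∧ ∀ i, p i = u * (e i * v) := by
  set u := ∑ j ∈ Finset.range (M + 1), p j * e j with hu
  have h1 : u - 1 = ∑ j ∈ Finset.range (M + 1), (p j - e j) * e j := by
    rw [hu, ← he.sum, ← Finset.sum_sub_distrib]
    refine Finset.sum_congr rfl fun j _ => ?_
    rw [sub_mul, he.mul, if_pos rfl]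
  have h2 : u - 1 ∈ N := by
    rw [h1]
    exact N.sum_mem fun j _ => hr _ _ (hpe j)
  have h3 : 1 - u ∈ N := by
    rw [← neg_sub]
    exact N.neg_mem h2
  have h4 : IsNilpotent (1 - u) := ⟨M + 1, strict_nilp he (hN _ h3)⟩
  have h5 : IsUnit u := by
    have := h4.isUnit_one_sub
    rwa [sub_sub_cancel] at this
  obtain ⟨U, hU⟩ := h5
  have h6 : u * (↑U⁻¹ : R) = 1 := by rw [← hU]; exact U.mul_inv
  have h7 : (↑U⁻¹ : R) * u = 1 := by rw [← hU]; exact U.inv_mul
  refine ⟨u, ↑U⁻¹, h6, h7, h2, ?_, fun i => ?_⟩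
  · have h8 := hl (↑U⁻¹ : R) _ h3
    rwa [mul_sub, h7, mul_one] at h8
  · have h8 : p i * u = u * e i := by
      by_cases hi : i < M + 1
      · rw [hu, Finset.mul_sum, Finset.sum_mul, Finset.sum_eq_single i, Finset.sum_eq_single i]
        · rw [← mul_assoc, hp.mul, if_pos rfl, mul_assoc, he.mul, if_pos rfl]
        · intro j _ hj
          rw [mul_assoc, he.mul, if_neg hj, mul_zero]
        · intro h
          exact absurd (Finset.mem_range.2 hi) h
        · intro j _ hj
          rw [← mul_assoc, hp.mul, if_neg (Ne.symm hj), zero_mul]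
        · intro h
          exact absurd (Finset.mem_range.2 hi) h
      · rw [hp.out i (by omega), he.out i (by omega), zero_mul, mul_zero]
    rw [← mul_assoc, ← h8, mul_assoc, h6, mul_one]

end alg

variable {k : Type u} [Field k] {𝒱 : VarClass k}

variable {C : TheoryData.{u, v, 0} 𝒱 ℚ} [hC : IsChowProj C] {K : Type w} [Field K]
  {H : WeilTheoryData.{u, v, w} C K} [hH : IsWeilProj H] {X Y : 𝒱.Obj}
  {F : Type t} [Field F] [Algebra ℚ F]

include hC hH

/-- (D) for `X × X` in the middle codimension: homologically trivial self-correspondences strictly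
lower the weights. -/
lemma strictly_of_d (h : DAll H (X.prod X) X.dim) : StrictlyLowers H X := by
  intro π hπ γ hγ hγ0 a b hab
  by_cases ha : a ≤ 2 * X.dim
  · apply comp_zero_of_prod (H := H) hπ hπ ha
    have h1 := hπ.dual.prod hπ
    exact (IsCK.d_iff h1 X.dim).1 (h _ h1) (2 * X.dim - a + b) γ ⟨hγ, hγ0⟩ (by omega)
  · rw [hπ.out a (by omega), zero_comp, zero_comp]

lemma strictF {π : ℕ → C.A (X.prod X)} (hπ : IsCK H X π) (h : StrictlyLowers H X)
    {w : F ⊗[ℚ] cor0 C X} (hw : w ∈ (homTriv H X).baseChange F) {a b : ℕ} (hab : a ≤ b) :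
    extCK F hπ b * w * extCK F hπ a = 0 := by
  obtain ⟨t, rfl⟩ := hw
  induction t with
  | zero => rw [map_zero, mul_zero, zero_mul]
  | tmul r γ =>
    rw [LinearMap.baseChange_tmul]
    unfold extCK
    rw [Algebra.TensorProduct.tmul_mul_tmul, Algebra.TensorProduct.tmul_mul_tmul]
    have h1 : (⟨(π b : Cor C X), hπ.deg b⟩ : cor0 C X) * (homTriv H X).subtype γ *
        ⟨(π a : Cor C X), hπ.deg a⟩ = 0 := by
      apply Subtype.ext
      have h2 := h π hπ (γ.1.1 : Cor C X) γ.1.2 γ.2 a b hab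
      let P : ℕ → Cor C X := π
      have h3 : P b * (γ.1.1 : Cor C X) * P a = 0 := by
        rw [mul_assoc]
        exact h2
      exact h3
    rw [h1, TensorProduct.tmul_zero]
  | add y z hy hz => rw [map_add, mul_add, add_mul, hy, hz, add_zero]

lemma homTrivF_mul_left (b : F ⊗[ℚ] cor0 C X) {x : F ⊗[ℚ] cor0 C X}
    (hx : x ∈ (homTriv H X).baseChange F) : b * x ∈ (homTriv H X).baseChange F := by
  obtain ⟨t, rfl⟩ := hx
  induction t with
  | zero => rw [map_zero, mul_zero]; exact Submodule.zero_mem _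
  | tmul r γ =>
    rw [LinearMap.baseChange_tmul]
    induction b with
    | zero => rw [zero_mul]; exact Submodule.zero_mem _
    | tmul s b =>
      rw [Algebra.TensorProduct.tmul_mul_tmul]
      exact Submodule.tmul_mem_baseChange_of_mem _ (homTriv_mul_left H b γ.2)
    | add y z hy hz => rw [add_mul]; exact Submodule.add_mem _ hy hz
  | add y z hy hz => rw [map_add, mul_add]; exact Submodule.add_mem _ hy hz

lemma homTrivF_mul_right (b : F ⊗[ℚ] cor0 C X) {x : F ⊗[ℚ] cor0 C X}
    (hx : x ∈ (homTriv H X).baseChange F) : x * b ∈ (homTriv H X).baseChange F := by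
  obtain ⟨t, rfl⟩ := hx
  induction t with
  | zero => rw [map_zero, zero_mul]; exact Submodule.zero_mem _
  | tmul r γ =>
    rw [LinearMap.baseChange_tmul]
    induction b with
    | zero => rw [mul_zero]; exact Submodule.zero_mem _
    | tmul s b =>
      rw [Algebra.TensorProduct.tmul_mul_tmul]
      exact Submodule.tmul_mem_baseChange_of_mem _ (homTriv_mul_right H b γ.2)
    | add y z hy hz => rw [mul_add]; exact Submodule.add_mem _ hy hz
  | add y z hy hz => rw [map_add, add_mul]; exact Submodule.add_mem _ hy hz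

/-- Two decompositions with coefficients in `F` are congruent modulo the homologically trivial
correspondences. -/
lemma IsCKF.sub_mem {p p' : ℕ → F ⊗[ℚ] cor0 C X} (hp : IsCKF F H X p) (hp' : IsCKF F H X p')
    (i : ℕ) : p i - p' i ∈ (homTriv H X).baseChange F := by
  obtain ⟨q, h1, h2⟩ := hp.act i
  obtain ⟨q', h3, h4⟩ := hp'.act i
  have h5 : q - q' ∈ homTriv H X := by
    rw [mem_homTriv, Subalgebra.coe_sub, map_sub, sub_eq_zero]
    apply ext_gr H
    intro m a ha
    exact (h1 m a ha).trans (h3 m a ha).symm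
  have h6 : p i - p' i = (p i - 1 ⊗ₜ q) + 1 ⊗ₜ (q - q') - (p' i - 1 ⊗ₜ q') := by
    rw [TensorProduct.tmul_sub]
    abel
  rw [h6]
  exact Submodule.sub_mem _ (Submodule.add_mem _ h2 (Submodule.tmul_mem_baseChange_of_mem _ h5)) h4

/-- **Conjugacy.** -/
theorem conj_F {π : ℕ → C.A (X.prod X)} (hπ : IsCK H X π) (h : StrictlyLowers H X)
    {p : ℕ → F ⊗[ℚ] cor0 C X} (hp : IsCKF F H X p) :
    ∃ u v : F ⊗[ℚ] cor0 C X, u * v = 1 ∧ v * u = 1 ∧ u - 1 ∈ (homTriv H X).baseChange F ∧
      v - 1 ∈ (homTriv H X).baseChange F ∧ ∀ i, p i = u * (extCK F hπ i * v) :=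
  conj_of_strict (isCKF_extCK F hπ).sys hp.sys ((homTriv H X).baseChange F).toAddSubgroup
    (fun _ hw _ _ hab => strictF hπ h hw hab) (fun b _ hx => homTrivF_mul_left b hx)
    (fun b _ hx => homTrivF_mul_right b hx) (fun i => hp.sub_mem (isCKF_extCK F hπ) i)

theorem conjF_of {π : ℕ → C.A (X.prod X)} (hπ : IsCK H X π) (h : StrictlyLowers H X)
    {p : ℕ → (ChF F C).A (X.prod X)} (hp : CKF F X H p) : ConjF F H X p π := by
  obtain ⟨p', rfl, hp'⟩ := exists_io hp
  obtain ⟨u, v, h1, h2, h3, -, h5⟩ := conj_F hπ h hp'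
  refine ⟨io F C X u, io F C X v, io_deg u, io_deg v, ?_, ?_, ?_, fun i => ?_⟩
  · rw [← io_mul, h2, io_one]
  · rw [← io_mul, h1, io_one]
  · rw [← io_one, ← map_sub]
    exact io_mem_homF.2 h3
  · have h6 : io F C X (extCK F hπ i) = rat F (π i) := io_tmul _ _
    beta_reduce
    rw [← h6, ← io_mul, ← io_mul, ← h5]

/-- **The filtration.** -/
theorem step_of_strict {π : ℕ → C.A (X.prod X)} (hπ : IsCK H X π) (h : StrictlyLowers H X)
    {p : ℕ → (ChF F C).A (X.prod X)} (hp : CKF F X H p) (i s : ℕ) :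
    stepF F p i s = spanF F (ckFil C π i s) := by
  obtain ⟨p', rfl, hp'⟩ := exists_io hp
  obtain ⟨u, v, h1, h2, h3, h4, h5⟩ := conj_F hπ h hp'
  have he := isCKF_extCK F hπ
  have key : ∀ x : F ⊗[ℚ] cor0 C X, x - 1 ∈ (homTriv H X).baseChange F → ∀ j m, j < m →
      extCK F hπ m * x * extCK F hπ j = 0 := by
    intro x hx j m hjm
    have h6 : extCK F hπ m * x * extCK F hπ j =
        extCK F hπ m * (x - 1) * extCK F hπ j + extCK F hπ m * extCK F hπ j := by
      rw [mul_sub, mul_one, sub_mul, sub_add_cancel]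
    rw [h6, strictF hπ h hx hjm.le, he.mul, if_neg (by omega), add_zero]
  have h6 : ckFilF F C p' i s = ckFilF F C (extCK F hπ) i s := by
    apply le_antisymm
    · rw [ckFilF_le_iff hp' he]
      intro j m x _ hj hm
      have h7 : extCK F hπ m * p' j = 0 := by
        rw [h5 j, ← mul_assoc, ← mul_assoc, key u h3 j m (by omega), zero_mul]
      rw [h7, map_zero]
      rfl
    · rw [ckFilF_le_iff he hp']
      intro j m x _ hj hm
      have h7 : p' m * extCK F hπ j = 0 := by
        rw [h5 m, mul_assoc, key v h4 j m (by omega), mul_zero]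
      rw [h7, map_zero]
      rfl
  rw [stepF_io, h6, ckFilF_extCK hπ]
  apply Submodule.ext
  intro y
  exact mem_spanF F _ y

/-- (D) for `p` and for `π`. -/
theorem dOneF_iff_dOne {π : ℕ → C.A (X.prod X)} (hπ : IsCK H X π)
    {p : ℕ → (ChF F C).A (X.prod X)} {i : ℕ} (h : stepF F p i 1 = spanF F (ckFil C π i 1)) :
    DOneF F H p i ↔ DOne H π i := by
  have hle : ckFil C π i 1 ≤ homCyc H X i := by
    rintro _ ⟨z, hz, rfl⟩
    rw [TheoryData.actL_apply, act_sum]
    refine Submodule.sum_mem _ fun j hj => ?_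
    rw [Finset.mem_range] at hj
    refine ⟨act_mem0 C (hπ.deg j) hz, ?_⟩
    rw [cl_act H]
    exact hπ.act_ne j (2 * i) (H.cl z) (by omega) (H.cl_mem hz)
  rw [DOneF, h, homF_eq]
  constructor
  · intro h1 x
    refine ⟨fun hx => hle hx, fun hx => ?_⟩
    have h2 : (1 ⊗ₜ x : F ⊗[ℚ] C.A X) ∈ (homCyc H X i).baseChange F :=
      Submodule.tmul_mem_baseChange_of_mem _ hx
    have h3 := (mem_spanF F _ _).1 h2
    rw [← h1] at h3
    exact mem_of_mem_baseChange (algebraMap ℚ F).injective ((mem_spanF F _ _).2 h3)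
  · intro h1
    congr 1
    exact Submodule.ext h1

end Pool.Agent.H838.CF
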