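import Pool.Agent.H838.CFIndStat

/-!
# Murre's conjecture (D) and coefficients: the definitions used in the statements
-/

set_option autoImplicit false

open CategoryTheory AlgebraicGeometry

universe u v w t

namespace Pool.Agent.H838.CF

open TensorProduct Pool.Agent.H914 Pool.Agent.H914.VarClass Pool.Agent.H914.VarClass.Obj
  Pool.Agent.W492.BB Pool.Agent.W550.Corr Pool.Agent.TH133

variable {k : Type u} [Field k] {𝒱 : VarClass k} (F : Type t) [Field F] [Algebra ℚ F]
  {C : TheoryData.{u, v, 0} 𝒱 ℚ} {K : Type w} [Field K] (H : WeilTheoryData.{u, v, w} C K)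

/-- (D) in codimension `i` for the rational Chow-Kunneth decomposition `π` of `X`: `F^1 CH^i(X)` is
the group of the homologically trivial cycles of codimension `i`. -/
def DOne {X : 𝒱.Obj} (π : ℕ → C.A (X.prod X)) (i : ℕ) : Prop :=
  ∀ x, x ∈ ckFil C π i 1 ↔ C.Deg i x ∧ H.cl x = 0

/-- (D) in codimension `i` for the Chow-Kunneth decomposition `p` of `X` with coefficients in `F`:
`F^1 (F ⊗ CH^i(X))` is the space of the homologically trivial cycles with coefficients in `F`. -/
def DOneF {X : 𝒱.Obj} (p : ℕ → (ChF F C).A (X.prod X)) (i : ℕ) : Prop :=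
  stepF F p i 1 = homF F X H i

variable (X : 𝒱.Obj)

/-- (D) in codimension `i` for all rational Chow-Kunneth decompositions of `X`. -/
def DAll (i : ℕ) : Prop := ∀ π, IsCK H X π → DOne H π i

/-- (D) in codimension `i` for all Chow-Kunneth decompositions of `X` with coefficients in `F`. -/
def DAllF (i : ℕ) : Prop := ∀ p, CKF F X H p → DOneF F H p i

/-- The families `p` and `q` of self-correspondences of `X` in the theory `T` are conjugate by a unit
`u` (with inverse `v`) of the ring of self-correspondences of degree zero which is congruent to the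
diagonal modulo `N`. -/
def ConjBy {R : Type t} [Field R] (T : TheoryData.{u, v, t} 𝒱 R) {X : 𝒱.Obj}
    (N : Submodule R (T.A (X.prod X))) (p q : ℕ → T.A (X.prod X)) : Prop :=
  ∃ u v : T.A (X.prod X), T.Deg X.dim u ∧ T.Deg X.dim v ∧ T.comp u v = dg T X ∧
    T.comp v u = dg T X ∧ u - dg T X ∈ N ∧ ∀ i, p i = T.comp (T.comp v (q i)) u

/-- The decomposition `p` with coefficients in `F` is conjugate to the rational decomposition `π` by
a unit of the ring of self-correspondences of degree zero with coefficients in `F` which is congruent
to the diagonal modulo the homologically trivial correspondences. -/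
def ConjF (p : ℕ → (ChF F C).A (X.prod X)) (π : ℕ → C.A (X.prod X)) : Prop :=
  ConjBy (ChF F C) (homF F (X.prod X) H X.dim) p fun i => rat F (π i)

end Pool.Agent.H838.CF
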