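import Pool.Agent.H838.CFNum
import Pool.Agent.H838.CFFlag

/-!
# The first half of (B) and rational Chow-Kunneth decompositions of direct summands
-/

set_option autoImplicit false
set_option linter.unusedSectionVars false

open CategoryTheory AlgebraicGeometry

universe u v w

namespace Pool.Agent.H838.CF

open Pool.Agent.H914 Pool.Agent.H914.VarClass Pool.Agent.H914.VarClass.Obj Pool.Agent.W492.BB
  Pool.Agent.W550.Corr Pool.Agent.TH133

variable {k : Type u} [Field k] {𝒱 : VarClass k}

section chow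

variable {C : TheoryData.{u, v, 0} 𝒱 ℚ} [hC : IsChowProj C] {X Y Z W : 𝒱.Obj}

include hC

/-- Composition with a transposed graph. -/
lemma tp_graph_comp (f : Z ⟶ X) (Γ : C.A (Z.prod W)) :
    C.comp (tp C (C.graph f)) Γ = C.push (prodMap f (𝟙 W)) Γ := by
  rw [← tp_tp C (C.comp (tp C (C.graph f)) Γ), tp_comp C (ch_comm C), tp_tp, comp_graph,
    tp_eq_push C (C.push (prodMap (𝟙 W) f) _), ← C.push_comp, tp_eq_push C Γ, ← C.push_comp]
  have e1 : sw Z W ≫ prodMap (𝟙 W) f ≫ sw W X = prodMap f (𝟙 W) := by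
    apply prod_ext <;> simp [sw, prodMap, comp_lift]
  rw [e1]

/-- A cycle on the power with push-forward one under the projection to a factor. -/
lemma exists_push_one : ∀ (n : ℕ) (i : Fin (n + 1)), ∃ ξ : C.A (pw X n),
    ξ ∈ C.gr (pw X n) ((pw X n).dim - X.dim) ∧ C.push (pj X n i) ξ = 1
  | 0, i => by
    obtain rfl : i = 0 := Fin.fin_one_eq_zero i
    refine ⟨1, ?_, C.push_id 1⟩
    rw [sub_self]
    exact C.one_mem X
  | n + 1, i => by
    induction i using Fin.lastCases with
    | last =>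
      obtain ⟨ξ, h1, -, h3⟩ := exists_deg_one (C := C) (pw X n)
      refine ⟨C.pull (fst (pw X n) X) ξ, ?_, ?_⟩
      · have h4 := C.pull_mem (fst (pw X n) X) h1
        have e1 : (((pw X n).prod X).dim : ℤ) - X.dim = (pw X n).dim := by
          rw [dim_prod]; push_cast; ring
        rw [← e1] at h4
        exact h4
      · rw [pj_last]; exact h3 X
    | cast i =>
      obtain ⟨ξ, h1, h2⟩ := exists_push_one n i
      obtain ⟨η, h3, h4, -⟩ := exists_deg_one (C := C) X
      refine ⟨C.pull (fst (pw X n) X) ξ * C.pull (snd (pw X n) X) η, ?_, ?_⟩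
      · have h5 := C.mul_mem (C.pull_mem (fst (pw X n) X) h1) (C.pull_mem (snd (pw X n) X) h3)
        have e1 : ((pw X n).dim : ℤ) - X.dim + X.dim = (((pw X n).prod X).dim : ℤ) - X.dim := by
          rw [dim_prod]; push_cast; ring
        rw [e1] at h5
        exact h5
      · rw [pj_castSucc, C.push_comp, C.proj_left, h4, mul_one]
        exact h2

/-- The motive of `X` is a direct summand of the motive of `Z`: correspondences `a` from `X` to `Z`
and `b` from `Z` to `X` of degree zero with composition the diagonal. -/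
lemma exists_retract {f : Z ⟶ X} {ξ : C.A Z} (hξ : ξ ∈ C.gr Z (Z.dim - X.dim))
    (hf : C.push f ξ = 1) : ∃ (a : C.A (X.prod Z)) (b : C.A (Z.prod X)),
      a ∈ C.gr (X.prod Z) (X.dim + 0) ∧ b ∈ C.gr (Z.prod X) (Z.dim + 0) ∧
        C.comp a b = dg C X := by
  have hgr : C.graph f ∈ C.gr (Z.prod X) X.dim := by
    have h := C.push_mem (Obj.lift (𝟙 Z) f) (C.one_mem Z)
    have e1 : (0 : ℤ) + 1 * (((Z.prod X).dim : ℤ) - (Z.dim : ℤ)) = X.dim := by
      rw [dim_prod]; push_cast; ring
    rwa [e1] at h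
  have hm : C.push (Obj.lift (𝟙 Z) (𝟙 Z)) ξ ∈ C.gr (Z.prod Z) (Z.dim + ((Z.dim : ℤ) - X.dim)) := by
    have h := C.push_mem (Obj.lift (𝟙 Z) (𝟙 Z)) hξ
    have e1 : (Z.dim : ℤ) - X.dim + 1 * (((Z.prod Z).dim : ℤ) - (Z.dim : ℤ)) =
        Z.dim + ((Z.dim : ℤ) - X.dim) := by
      rw [dim_prod]; push_cast; ring
    rwa [e1] at h
  refine ⟨tp C (C.graph f), C.comp (C.push (Obj.lift (𝟙 Z) (𝟙 Z)) ξ) (C.graph f), ?_, ?_, ?_⟩
  · rw [add_zero]
    exact tp_mem C hgr
  · have h := comp_mem C (e := (Z.dim : ℤ) - X.dim) (e' := (X.dim : ℤ) - Z.dim) hm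
      (by rw [show (Z.dim : ℤ) + ((X.dim : ℤ) - Z.dim) = X.dim by ring]; exact hgr)
    rwa [show (Z.dim : ℤ) - X.dim + ((X.dim : ℤ) - Z.dim) = 0 by ring] at h
  · rw [← comp_assoc, tp_graph_comp, comp_graph, ← C.push_comp, ← C.push_comp]
    have e1 : Obj.lift (𝟙 Z) (𝟙 Z) ≫ prodMap f (𝟙 Z) ≫ prodMap (𝟙 X) f =
        f ≫ Obj.lift (𝟙 X) (𝟙 X) := by
      apply prod_ext <;> simp [comp_lift]
    rw [e1, C.push_comp, hf]
    rfl

end chow

section weil

variable {C : TheoryData.{u, v, 0} 𝒱 ℚ} [hC : IsChowProj C] {K : Type w} [Field K]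
  {H : WeilTheoryData.{u, v, w} C K} [hH : IsWeilProj H] {X Y Z W : 𝒱.Obj}

include hC hH

/-- Under the first half of (B) for `Z × Z`, every direct summand `h(X)` of `h(Z)` has a rational
Chow-Kunneth decomposition as soon as `Z` has one. -/
theorem exists_CK_of_retract (hB : MurreB0 H (Z.prod Z)) {ρ : ℕ → C.A (Z.prod Z)}
    (hρ : IsCK H Z ρ) {a : C.A (X.prod Z)} {b : C.A (Z.prod X)}
    (ha : a ∈ C.gr (X.prod Z) (X.dim + 0)) (hb : b ∈ C.gr (Z.prod X) (Z.dim + 0))
    (hab : C.comp a b = dg C X) : ∃ π : ℕ → C.A (X.prod X), IsCK H X π := by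
  -- the partial sums
  let e : ℕ → C.A (Z.prod Z) := fun c => ∑ j ∈ Finset.range (c + 1), ρ j
  have he : ∀ c, e c ∈ C.gr (Z.prod Z) (Z.dim + 0) := fun c => by
    rw [add_zero]
    exact Submodule.sum_mem _ fun j _ => hρ.deg j
  have hflag : ∀ (c d : ℕ) (_ : d ≤ c) (γ : C.A (Z.prod Z)) (_ : γ ∈ C.gr (Z.prod Z) Z.dim),
      C.comp (C.comp (e d) γ) (e c) = C.comp (e d) γ := by
    intro c d hdc γ hγ
    have h1 : C.comp (C.comp (e d) γ) (∑ j ∈ Finset.range (2 * Z.dim + 1 + (c + 1)), ρ j) =
        C.comp (e d) γ := by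
      rw [hρ.sum_of_le (by omega), comp_dg]
    rw [comp_sum] at h1
    refine Eq.trans ?_ h1
    rw [comp_sum]
    apply Finset.sum_subset
    · intro j hj
      rw [Finset.mem_range] at *
      omega
    · intro j _ hj
      rw [Finset.mem_range] at hj
      have h2 : C.comp (C.comp (e d) γ) (ρ j) =
          ∑ i ∈ Finset.range (d + 1), C.comp (C.comp (ρ i) γ) (ρ j) := by
        simp only [e]
        rw [sum_comp, sum_comp]
      rw [h2]
      refine Finset.sum_eq_zero fun i hi => ?_
      rw [Finset.mem_range] at hi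
      exact comp_zero_of_B0 hB hρ hρ (i := Z.dim) hγ (by omega)
  -- the idempotents of `X`
  let E' : ℕ → C.A (X.prod X) := fun c => C.comp (C.comp a (e c)) b
  have hE' : ∀ c, E' c ∈ C.gr (X.prod X) X.dim := fun c => by
    have h1 := comp_mem C (comp_mem C ha (he c)) hb
    rw [add_zero, add_zero, add_zero] at h1
    exact h1
  have hba : C.comp b a ∈ C.gr (Z.prod Z) Z.dim := by
    have h1 := comp_mem C hb ha
    rw [add_zero, add_zero] at h1
    exact h1
  have hEE : ∀ c d, d ≤ c → C.comp (E' d) (E' c) = E' d := by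
    intro c d hdc
    have h1 : C.comp (E' d) (E' c) =
        C.comp (C.comp a (C.comp (C.comp (e d) (C.comp b a)) (e c))) b := by
      simp only [E', comp_assoc]
    rw [h1, hflag c d hdc _ hba]
    have h2 : C.comp (C.comp a (C.comp (e d) (C.comp b a))) b =
        C.comp (C.comp (C.comp a (e d)) b) (C.comp a b) := by
      simp only [comp_assoc]
    rw [h2, hab, comp_dg]
  -- the action on the cohomology
  have hact : ∀ (c : ℕ) (m : ℤ) (x : H.A X), x ∈ H.gr X m →
      H.act (H.cl (E' c)) x = if m ≤ c then x else 0 := by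
    intro c m x hx
    have h1 : ∀ z ∈ H.gr Z m, H.act (H.cl (e c)) z = if m ≤ c then z else 0 := by
      intro z hz
      have h2 : H.act (H.cl (e c)) z =
          ∑ j ∈ Finset.range (c + 1), H.act (H.cl (ρ j)) z := by
        simp only [e]
        rw [map_sum, act_sum]
      rw [h2]
      by_cases hz0 : z = 0
      · subst hz0
        simp only [TheoryData.act_map_zero, Finset.sum_const_zero, ite_self]
      · have h3 := nonneg_of_mem H hz hz0
        obtain ⟨m, rfl⟩ := Int.eq_ofNat_of_zero_le h3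
        have h4 : ∀ j ∈ Finset.range (c + 1), H.act (H.cl (ρ j)) z = if m = j then z else 0 := by
          intro j _
          rw [hρ.actH_eq j m hz]
          simp only [Nat.cast_inj]
        rw [Finset.sum_congr rfl h4, Finset.sum_ite_eq]
        simp only [Finset.mem_range, Nat.cast_le, Nat.lt_succ_iff]
    have h2 : H.act (H.cl (E' c)) x =
        H.act (H.cl b) (H.act (H.cl (e c)) (H.act (H.cl a) x)) := by
      simp only [E']
      rw [actH_comp, actH_comp]
    have h3 : H.act (H.cl a) x ∈ H.gr Z m := by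
      have h4 := actH_mem H ha hx
      rwa [mul_zero, add_zero] at h4
    rw [h2, h1 _ h3]
    split_ifs
    · rw [← actH_comp, hab, actH_dg]
    · exact TheoryData.act_map_zero _ _
  -- the degree operator
  let E : ℕ → cor0 C X := fun c => ⟨(E' c : Cor C X), hE' c⟩
  have hmul : ∀ c d, d ≤ c → c < 2 * X.dim → E c * E d = E d := fun c d h _ =>
    Subtype.ext (hEE c d h)
  have hs : Sp (2 * X.dim) (flagOp (2 * X.dim) E) := flagOp_sp hmul
  have hd : DegOp H (X := X) ((flagOp (2 * X.dim) E : cor0 C X) : Cor C X) := by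
    rw [degOp_iff]
    intro m x hx
    have h1 : actH C X H ((flagOp (2 * X.dim) E : cor0 C X) : Cor C X) x =
        ∑ c ∈ Finset.range (2 * X.dim), (x - if m ≤ c then x else 0) := by
      rw [flagOp, AddSubmonoidClass.coe_finsetSum, map_sum, LinearMap.sum_apply]
      refine Finset.sum_congr rfl fun c _ => ?_
      rw [Subalgebra.coe_sub, Subalgebra.coe_one, map_sub, map_one, LinearMap.sub_apply,
        ← hact c m x hx]
      rfl
    rw [h1]
    by_cases hx0 : x = 0
    · subst hx0
      simp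
    · obtain ⟨h2, h3⟩ := nonneg_le H hx hx0
      obtain ⟨m, rfl⟩ := Int.eq_ofNat_of_zero_le h2
      have h4 : ∀ c ∈ Finset.range (2 * X.dim), (x - if (m : ℤ) ≤ c then x else 0) =
          if c < m then x else 0 := by
        intro c _
        by_cases h : c < m
        · rw [if_neg (by omega), if_pos h, sub_zero]
        · rw [if_pos (by omega), if_neg h, sub_self]
      rw [Finset.sum_congr rfl h4, ← Finset.sum_filter, Finset.sum_const]
      have h5 : (Finset.range (2 * X.dim)).filter (fun c => c < m) = Finset.range m := by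
        ext c
        simp only [Finset.mem_filter, Finset.mem_range]
        omega
      rw [h5, Finset.card_range, Int.cast_natCast, Nat.cast_smul_eq_nsmul]
  exact ⟨_, isCK_of_degOp H hs hd⟩

end weil

end Pool.Agent.H838.CF
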