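import Pool.Agent.H838.CFGen
import Pool.Agent.H838.CFSum

/-!
# Murre's conjecture (B) with coefficients in a field
-/

set_option autoImplicit false
set_option linter.unusedSectionVars false

open CategoryTheory AlgebraicGeometry

universe u v w t

namespace Pool.Agent.H838.CF

open TensorProduct
open Pool.Agent.H914 Pool.Agent.H914.VarClass Pool.Agent.H914.VarClass.Obj Pool.Agent.W492.BB
  Pool.Agent.W550.Corr Pool.Agent.TH133

lemma finrank_eq (E : Type*) [Field E] [Algebra ℚ E] [FiniteDimensional ℚ E] :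
    ∃ n, Module.finrank ℚ E = n + 1 :=
  ⟨Module.finrank ℚ E - 1, by have := Module.finrank_pos (R := ℚ) (M := E); omega⟩

variable {k : Type u} [Field k] {𝒱 : VarClass k}

variable {C : TheoryData.{u, v, 0} 𝒱 ℚ} [hC : IsChowProj C] {K : Type w} [Field K]
  {H : WeilTheoryData.{u, v, w} C K} [hH : IsWeilProj H] {X Y : 𝒱.Obj}

include hC hH

/-! ### Rational decompositions -/

/-- A rational Chow-Kunneth decomposition as one with coefficients in `F`. -/
noncomputable def extCK (F : Type*) [Field F] [Algebra ℚ F] {π : ℕ → C.A (X.prod X)}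
    (hπ : IsCK H X π) (i : ℕ) : F ⊗[ℚ] cor0 C X := 1 ⊗ₜ ⟨(π i : Cor C X), hπ.deg i⟩

lemma isCKF_extCK (F : Type*) [Field F] [Algebra ℚ F] {π : ℕ → C.A (X.prod X)}
    (hπ : IsCK H X π) : IsCKF F H X (extCK F hπ) where
  mul i j := by
    unfold extCK
    rw [Algebra.TensorProduct.tmul_mul_tmul, one_mul]
    have h := hπ.mul_eq (P := π) i j
    split_ifs with hij
    · rw [if_pos hij] at h
      congr 1
      exact Subtype.ext h
    · rw [if_neg hij] at h
      have h1 : (⟨(π i : Cor C X), hπ.deg i⟩ : cor0 C X) * ⟨(π j : Cor C X), hπ.deg j⟩ = 0 :=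
        Subtype.ext h
      rw [h1, TensorProduct.tmul_zero]
  out i hi := by
    unfold extCK
    have h1 : (⟨(π i : Cor C X), hπ.deg i⟩ : cor0 C X) = 0 := Subtype.ext (hπ.out i hi)
    rw [h1, TensorProduct.tmul_zero]
  sum := by
    unfold extCK
    rw [← TensorProduct.tmul_sum]
    have h1 : ∑ i ∈ Finset.range (2 * X.dim + 1), (⟨(π i : Cor C X), hπ.deg i⟩ : cor0 C X) = 1 := by
      apply Subtype.ext
      rw [AddSubmonoidClass.coe_finsetSum]
      exact hπ.sum_eq (P := π)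
    rw [h1]
    rfl
  act i := by
    refine ⟨⟨(π i : Cor C X), hπ.deg i⟩, fun m a ha => hπ.actH_eq i m ha, ?_⟩
    unfold extCK
    rw [sub_self]
    exact Submodule.zero_mem _

lemma actS_extCK {F : Type*} [Field F] [Algebra ℚ F] {π : ℕ → C.A (X.prod X)}
    (hπ : IsCK H X π) (i : ℕ) (x : C.A X) :
    actS F (alp C X) (extCK F hπ i) (1 ⊗ₜ x) = 1 ⊗ₜ C.act (π i) x := by
  unfold extCK
  rw [actS_tmul, mul_one, alp_apply]

/-- (B) with coefficients in `F` contains (B). -/
theorem b0_of_b0F (F : Type*) [Field F] [Algebra ℚ F] (h : MurreB0F F H X) : MurreB0 H X := by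
  rw [b0F_iff] at h
  rw [murreB0_iff]
  intro π hπ i j x hx hj
  have h1 := h _ (isCKF_extCK F hπ) i j x hx hj
  rw [actS_extCK] at h1
  exact one_tmul_eq_zero (algebraMap ℚ F).injective h1

theorem b1_of_b1F (F : Type*) [Field F] [Algebra ℚ F] (h : MurreB1F F H X) : MurreB1 H X := by
  rw [b1F_iff] at h
  rw [b1_iff]
  intro π hπ i j x hx hj
  have h1 := h _ (isCKF_extCK F hπ) i j x hx hj
  rw [actS_extCK] at h1
  exact one_tmul_eq_zero (algebraMap ℚ F).injective h1

/-! ### One decomposition -/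

lemma ckFil_zero_iff {π : ℕ → C.A (X.prod X)} (hπ : IsCK H X π) (i : ℕ) :
    ckFil C π i 0 = C.gr X i ↔ ∀ j x, x ∈ C.gr X i → 2 * i < j → C.act (π j) x = 0 := by
  constructor
  · intro h j x hx hj
    rw [← h, hπ.mem_ckFil] at hx
    exact hx.2 j (by omega)
  · intro h
    ext x
    rw [hπ.mem_ckFil]
    exact ⟨fun h' => h'.1, fun hx => ⟨hx, fun j hj => h j x hx (by omega)⟩⟩

lemma ckFil_top_iff {π : ℕ → C.A (X.prod X)} (hπ : IsCK H X π) (i : ℕ) :
    ckFil C π i (i + 1) = ⊥ ↔ ∀ j x, x ∈ C.gr X i → j < i → C.act (π j) x = 0 := by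
  constructor
  · intro h j x hx hj
    have h1 : C.act (π j) x ∈ ckFil C π i (i + 1) := by
      rw [hπ.mem_ckFil]
      refine ⟨act_mem0 C (hπ.deg j) hx, fun m hm => ?_⟩
      rw [← C.act_comp, hπ.comp_eq, if_neg (by omega)]
      exact C.act_zero _
    rw [h] at h1
    exact (Submodule.mem_bot _).1 h1
  · intro h
    rw [eq_bot_iff]
    rintro _ ⟨z, hz, rfl⟩
    rw [Submodule.mem_bot, TheoryData.actL_apply, act_sum]
    refine Finset.sum_eq_zero fun j hj => ?_
    rw [Finset.mem_range] at hj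
    exact h j z hz (by omega)

lemma ckFilF_zero_iff {F : Type*} [Field F] [Algebra ℚ F] {p : ℕ → F ⊗[ℚ] cor0 C X}
    (hp : IsCKF F H X p) (i : ℕ) : ckFilF F C p i 0 = (C.gr X i).baseChange F ↔
      ∀ j x, x ∈ C.gr X i → 2 * i < j → actS F (alp C X) (p j) (1 ⊗ₜ x) = 0 := by
  constructor
  · intro h j x hx hj
    have h1 : (1 ⊗ₜ x : F ⊗[ℚ] C.A X) ∈ ckFilF F C p i 0 := by
      rw [h]
      exact Submodule.tmul_mem_baseChange_of_mem _ hx
    rw [hp.mem_ckFilF] at h1
    exact h1.2 j (by omega)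
  · intro h
    ext y
    rw [hp.mem_ckFilF]
    refine ⟨fun h1 => h1.1, fun h1 => ⟨h1, fun j hj => ?_⟩⟩
    exact actS_eq_zero (fun x hx => h j x hx (by omega)) h1

lemma ckFilF_top_iff {F : Type*} [Field F] [Algebra ℚ F] {p : ℕ → F ⊗[ℚ] cor0 C X}
    (hp : IsCKF F H X p) (i : ℕ) : ckFilF F C p i (i + 1) = ⊥ ↔
      ∀ j x, x ∈ C.gr X i → j < i → actS F (alp C X) (p j) (1 ⊗ₜ x) = 0 := by
  constructor
  · intro h j x hx hj
    have h1 : actS F (alp C X) (p j) (1 ⊗ₜ x) ∈ ckFilF F C p i (i + 1) := by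
      rw [hp.mem_ckFilF]
      refine ⟨actS_mem (fun a m hm => act_mem0 C a.2 hm) _
        (Submodule.tmul_mem_baseChange_of_mem _ hx), fun m hm => ?_⟩
      rw [← Module.End.mul_apply, ← map_mul, hp.mul, if_neg (by omega), map_zero]
      rfl
    rw [h] at h1
    exact (Submodule.mem_bot _).1 h1
  · intro h
    rw [eq_bot_iff]
    rintro _ ⟨z, hz, rfl⟩
    rw [Submodule.mem_bot, map_sum, LinearMap.sum_apply]
    refine Finset.sum_eq_zero fun j hj => ?_
    rw [Finset.mem_range] at hj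
    exact actS_eq_zero (fun x hx => h j x hx (by omega)) hz

/-- **One decomposition.** A Chow-Kunneth decomposition of `X` with coefficients in a number field
of degree `n + 1` gives a rational Chow-Kunneth decomposition of the power with `n + 1` factors,
and (B) for the latter implies (B) for the former. -/
theorem one_decomposition {F : Type*} [Field F] [Algebra ℚ F] [FiniteDimensional ℚ F] {n : ℕ}
    (hn : Module.finrank ℚ F = n + 1) {p : ℕ → F ⊗[ℚ] cor0 C X} (hp : IsCKF F H X p) :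
    ∃ P : ℕ → C.A ((pw X n).prod (pw X n)), IsCK H (pw X n) P ∧ ∀ i : ℕ,
      (ckFil C P i 0 = C.gr (pw X n) i → ckFilF F C p i 0 = (C.gr X i).baseChange F) ∧
      (ckFil C P i (i + 1) = ⊥ → ckFilF F C p i (i + 1) = ⊥) := by
  obtain ⟨δ, hδ⟩ := main_nf (H := H) X F hn
  obtain ⟨h1, h2⟩ := hδ p hp
  refine ⟨_, h1, fun i => ⟨fun h => ?_, fun h => ?_⟩⟩
  · rw [ckFil_zero_iff h1] at h
    rw [ckFilF_zero_iff hp]
    intro j x hx hj
    have h3 := h2 p hp (C.gr (pw X n) i) (Stb.gr (C := C) (H := H) i) j j (fun v hv => by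
      rw [map_mul, Module.End.mul_apply]
      have h4 : alp C (pw X n) (δ p j) v = 0 := h j v hv hj
      rw [h4, map_zero]) x (C.pull_mem _ hx)
    rwa [hp.mul, if_pos rfl] at h3
  · rw [ckFil_top_iff h1] at h
    rw [ckFilF_top_iff hp]
    intro j x hx hj
    have h3 := h2 p hp (C.gr (pw X n) i) (Stb.gr (C := C) (H := H) i) j j (fun v hv => by
      rw [map_mul, Module.End.mul_apply]
      have h4 : alp C (pw X n) (δ p j) v = 0 := h j v hv hj
      rw [h4, map_zero]) x (C.pull_mem _ hx)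
    rwa [hp.mul, if_pos rfl] at h3

/-! ### All decompositions -/

theorem b0F_nf {F : Type*} [Field F] [Algebra ℚ F] [FiniteDimensional ℚ F] {n : ℕ}
    (hn : Module.finrank ℚ F = n + 1) (h : MurreB0 H (pw X n)) : MurreB0F F H X := by
  intro p hp i
  obtain ⟨P, h1, h2⟩ := one_decomposition hn hp
  exact (h2 i).1 (h P h1 i)

theorem b1F_nf {F : Type*} [Field F] [Algebra ℚ F] [FiniteDimensional ℚ F] {n : ℕ}
    (hn : Module.finrank ℚ F = n + 1) (h : MurreB1 H (pw X n)) : MurreB1F F H X := by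
  intro p hp i
  obtain ⟨P, h1, h2⟩ := one_decomposition hn hp
  exact (h2 i).2 (h P h1 i)

theorem b0F_gen (F : Type t) [Field F] [Algebra ℚ F] (h : ∀ n, MurreB0 H (pw X n)) :
    MurreB0F F H X := by
  rw [b0F_iff]
  intro p hp i j x hx hj
  by_contra hz
  have hz' : actS F (alp C X) (p j * p j) (1 ⊗ₜ x) ≠ 0 := by rwa [hp.mul, if_pos rfl]
  obtain ⟨E, iE, aE, fE, P, hP, h2⟩ := spec_CK (κ := Unit) (p := fun _ => p) (fun _ => hp)
    (c := ()) (c' := ()) hz'
  obtain ⟨n, hn⟩ := finrank_eq E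
  have h3 := b0F_iff.1 (b0F_nf (F := E) hn (h n)) (P ()) (hP ()) i j x hx hj
  rw [(hP ()).mul, if_pos rfl] at h2
  exact h2 h3

theorem b1F_gen (F : Type t) [Field F] [Algebra ℚ F] (h : ∀ n, MurreB1 H (pw X n)) :
    MurreB1F F H X := by
  rw [b1F_iff]
  intro p hp i j x hx hj
  by_contra hz
  have hz' : actS F (alp C X) (p j * p j) (1 ⊗ₜ x) ≠ 0 := by rwa [hp.mul, if_pos rfl]
  obtain ⟨E, iE, aE, fE, P, hP, h2⟩ := spec_CK (κ := Unit) (p := fun _ => p) (fun _ => hp)
    (c := ()) (c' := ()) hz'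
  obtain ⟨n, hn⟩ := finrank_eq E
  have h3 := b1F_iff.1 (b1F_nf (F := E) hn (h n)) (P ()) (hP ()) i j x hx hj
  rw [(hP ()).mul, if_pos rfl] at h2
  exact h2 h3

/-! ### Existence -/

/-- Chow-Kunneth decompositions with coefficients in some field give Chow-Kunneth decompositions
with coefficients in a number field. -/
theorem exists_nf {F : Type t} [Field F] [Algebra ℚ F] {p : ℕ → F ⊗[ℚ] cor0 C X}
    (hp : IsCKF F H X p) : ∃ (E : Type t) (_ : Field E) (_ : Algebra ℚ E)
      (_ : FiniteDimensional ℚ E) (P : ℕ → E ⊗[ℚ] cor0 C X), IsCKF E H X P := by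
  have h1 : ∃ j, actS F (alp C X) (p j * p j) (1 ⊗ₜ 1) ≠ 0 := by
    by_contra h
    push Not at h
    have h2 : actS F (alp C X) (∑ i ∈ Finset.range (2 * X.dim + 1), p i) (1 ⊗ₜ 1) = 0 := by
      rw [map_sum, LinearMap.sum_apply]
      refine Finset.sum_eq_zero fun j _ => ?_
      have h3 := h j
      rwa [hp.mul, if_pos rfl] at h3
    rw [hp.sum, map_one] at h2
    have h4 : (1 : C.A X) = 0 := one_tmul_eq_zero (algebraMap ℚ F).injective h2
    have h5 : (1 : H.A X) = 0 := by rw [← map_one (H.cl (X := X)), h4, map_zero]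
    exact hH.one_ne_zero X h5
  obtain ⟨j, hj⟩ := h1
  obtain ⟨E, iE, aE, fE, P, hP, -⟩ := spec_CK (κ := Unit) (p := fun _ => p) (fun _ => hp)
    (c := ()) (c' := ()) hj
  exact ⟨E, iE, aE, fE, P (), hP ()⟩

/-- **Existence.** Under the first half of (B) for `Z × Z`, `Z` the power with `n + 1` factors, a
Chow-Kunneth decomposition with coefficients in a number field of degree `n + 1` gives a rational
one. -/
theorem exists_CK_nf {F : Type*} [Field F] [Algebra ℚ F] [FiniteDimensional ℚ F] {n : ℕ}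
    (hn : Module.finrank ℚ F = n + 1) (h : MurreB0 H ((pw X n).prod (pw X n)))
    {p : ℕ → F ⊗[ℚ] cor0 C X} (hp : IsCKF F H X p) :
    ∃ π : ℕ → C.A (X.prod X), IsCK H X π := by
  obtain ⟨P, h1, -⟩ := one_decomposition hn hp
  obtain ⟨ξ, h2, h3⟩ := exists_push_one (C := C) (X := X) n 0
  obtain ⟨a, b, ha, hb, hab⟩ := exists_retract h2 h3
  exact exists_CK_of_retract h h1 ha hb hab

theorem exists_CK_gen {F : Type t} [Field F] [Algebra ℚ F]
    (h : ∀ n, MurreB0 H ((pw X n).prod (pw X n))) {p : ℕ → F ⊗[ℚ] cor0 C X}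
    (hp : IsCKF F H X p) : ∃ π : ℕ → C.A (X.prod X), IsCK H X π := by
  obtain ⟨E, iE, aE, fE, P, hP⟩ := exists_nf hp
  obtain ⟨n, hn⟩ := finrank_eq E
  exact exists_CK_nf hn (h n) hP

end Pool.Agent.H838.CF
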