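import Pool.Agent.H838.CFAnti

/-!
# Sums of squares and square roots of the exchange
-/

set_option autoImplicit false
set_option linter.unusedSectionVars false
set_option linter.unusedSimpArgs false

namespace Pool.Agent.H838.CF

open TensorProduct Polynomial

section block

variable {R R' : Type*} [Ring R] [Ring R'] {B : R' → R' → R} {w : R}

/-- Multiplication of block matrices. -/
lemma block_mul (hB : ∀ x y x' y', B x y * B x' y' = B (x * x') (y * y'))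
    (hB0 : ∀ x, B 0 x = 0) (hw : w * w = 1)
    (hwB : ∀ x y, w * B x y = B y x * w) (hBa : ∀ x x' y, B (x + x') y = B x y + B x' y)
    (hBb : ∀ x y y', B x (y + y') = B x y + B x y') {f P Q V P' Q' V' : R'} (hf : f * f = f)
    (h1 : f * P = 0) (h2 : f * Q = 0) (h3 : f * V = 0) (h4 : P' * f = 0) (h5 : Q' * f = 0)
    (h6 : V' * f = 0) :
    (B P' f + B f Q' * w + B Q' f * w + B f V') * (B P f + B Q f * w + B f Q * w + B f V) =
      B (P' * P + Q' * Q) f + B f (Q' * Q + V' * V) +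
        (B (P' * Q + Q' * V) f * w + B f (Q' * P + V' * Q) * w) := by
  have r1 : ∀ x y x' y', B x y * w * B x' y' = B (x * y') (y * x') * w := fun x y x' y' => by
    rw [mul_assoc, hwB, ← mul_assoc, hB]
  have r2 : ∀ x y x' y', B x y * w * (B x' y' * w) = B (x * y') (y * x') := fun x y x' y' => by
    rw [← mul_assoc, r1, mul_assoc, hw, mul_one]
  have r3 : ∀ x y x' y', B x y * (B x' y' * w) = B (x * x') (y * y') * w := fun x y x' y' => by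
    rw [← mul_assoc, hB]
  simp only [add_mul, mul_add, hB, r1, r2, r3, hf, h1, h2, h3, h4, h5, h6, hB0, zero_mul,
    add_zero, zero_add, hBa, hBb]
  abel

end block

section step

variable {F : Type*} [Field F]

/-- Elements `S` of the corner of `e` with `t S * S = S * t S = c`. -/
structure LvS {R : Type*} [Ring R] [Algebra ℚ R] [Algebra F R] (t : R →ₗ[ℚ] R) (e : R) (c : F)
    (S : R) : Prop where
  left : e * S = S
  right : S * e = S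
  one : t S * S = c • e
  two : S * t S = c • e

variable {A B : Type*} [Ring A] [Algebra ℚ A] [Algebra F A] [Ring B] [Algebra ℚ B] [Algebra F B]

/-- **The multiplicativity of Pfister.** -/
theorem LvS.step {tX : A →ₗ[ℚ] A} (haX : IsAnti tX) (httX : ∀ a, tX (tX a) = a)
    (hsX : ∀ (c : F) a, tX (c • a) = c • tX a)
    {tZ : B →ₗ[ℚ] B} (haZ : IsAnti tZ) {j0 j1 : A →ₐ[F] B} (h0 : ∀ a, tZ (j0 a) = j0 (tX a))
    (h1 : ∀ a, tZ (j1 a) = j1 (tX a)) (hcomm : ∀ a b, j0 a * j1 b = j1 b * j0 a) {w : B}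
    (hw : w * w = 1) (htw : tZ w = w) (hw0 : ∀ a, w * j0 a = j1 a * w)
    (hw1 : ∀ a, w * j1 a = j0 a * w) {e : A} (he : e * e = e) (hte : tX e = e)
    {α β : F} {P Q : A} (hP : LvS tX e α P) (hQ : LvS tX e β Q) :
    ∃ S, LvS tZ (j0 e * j1 (1 - e) + j0 (1 - e) * j1 e) (α + β) S := by
  let f : A := 1 - e
  let Bk : A → A → B := fun x y => j0 x * j1 y
  have hff : f * f = f := by
    simp only [f]; rw [mul_sub, mul_one, sub_mul, he, one_mul, sub_self, sub_zero]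
  have hfe : f * e = 0 := by simp only [f]; rw [sub_mul, one_mul, he, sub_self]
  have hef : e * f = 0 := by simp only [f]; rw [mul_sub, mul_one, he, sub_self]
  have htf : tX f = f := by simp only [f]; rw [map_sub, haX.one, hte]
  have hB : ∀ x y x' y', Bk x y * Bk x' y' = Bk (x * x') (y * y') := by
    intro x y x' y'
    simp only [Bk]
    rw [map_mul, map_mul]
    calc j0 x * j1 y * (j0 x' * j1 y') = j0 x * (j1 y * j0 x') * j1 y' := by noncomm_ring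
      _ = j0 x * (j0 x' * j1 y) * j1 y' := by rw [hcomm]
      _ = _ := by noncomm_ring
  have hB0 : ∀ x, Bk 0 x = 0 := fun x => by simp only [Bk]; rw [map_zero, zero_mul]
  have hB1 : ∀ x, Bk x 0 = 0 := fun x => by simp only [Bk]; rw [map_zero, mul_zero]
  have hwB : ∀ x y, w * Bk x y = Bk y x * w := by
    intro x y
    simp only [Bk]
    rw [← mul_assoc, hw0, mul_assoc, hw1, ← mul_assoc, hcomm]
  have hBa : ∀ x x' y, Bk (x + x') y = Bk x y + Bk x' y := fun x x' y => by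
    simp only [Bk]; rw [map_add, add_mul]
  have hBb : ∀ x y y', Bk x (y + y') = Bk x y + Bk x y' := fun x y y' => by
    simp only [Bk]; rw [map_add, mul_add]
  have htB : ∀ x y, tZ (Bk x y) = Bk (tX x) (tX y) := fun x y => by
    simp only [Bk]; rw [haZ.mul, h0, h1, hcomm]
  have htBw : ∀ x y, tZ (Bk x y * w) = Bk (tX y) (tX x) * w := fun x y => by
    rw [haZ.mul, htw, htB, hwB]
  have key : ∀ V Q : A, e * Q = Q → Q * e = Q → e * V = V → V * e = V →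
      tX P * P + tX Q * Q = (α + β) • e → tX Q * Q + tX V * V = (α + β) • e →
      P * tX P + Q * tX Q = (α + β) • e → Q * tX Q + V * tX V = (α + β) • e →
      tX P * Q + tX Q * V = 0 → tX Q * P + tX V * Q = 0 → P * tX Q + Q * tX V = 0 →
      Q * tX P + V * tX Q = 0 →
      ∃ S, LvS tZ (j0 e * j1 f + j0 f * j1 e) (α + β) S := by
    intro V Q q1 q2 v1 v2 k1 k2 k3 k4 k5 k6 k7 k8
    have s1 : ∀ x, e * x = x → f * x = 0 := fun x hx => by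
      rw [← hx, ← mul_assoc, hfe, zero_mul]
    have s2 : ∀ x, x * e = x → x * f = 0 := fun x hx => by
      rw [← hx, mul_assoc, hef, mul_zero]
    have s3 : ∀ x, x * e = x → e * tX x = tX x := fun x hx => by
      conv_rhs => rw [← hx, haX.mul, hte]
    have s4 : ∀ x, e * x = x → tX x * e = tX x := fun x hx => by
      conv_rhs => rw [← hx, haX.mul, hte]
    have hE : Bk ((α + β) • e) f + Bk f ((α + β) • e) = (α + β) • (Bk e f + Bk f e) := by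
      simp only [Bk]
      rw [map_smul, map_smul, smul_mul_assoc, mul_smul_comm, smul_add]
    let S : B := Bk P f + Bk Q f * w + Bk f Q * w + Bk f V
    have hS : S = Bk P f + Bk f Q * w + Bk Q f * w + Bk f V := by simp only [S]; abel
    have htS : tZ S = Bk (tX P) f + Bk f (tX Q) * w + Bk (tX Q) f * w + Bk f (tX V) := by
      simp only [S]
      rw [map_add, map_add, map_add, htB, htBw, htBw, htB, htf]
    have htS' : tZ S = Bk (tX P) f + Bk (tX Q) f * w + Bk f (tX Q) * w + Bk f (tX V) := by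
      rw [htS]; abel
    refine ⟨S, ⟨?_, ?_, ?_, ?_⟩⟩
    · change (Bk e f + Bk f e) * S = S
      have r3 : ∀ x y x' y', Bk x y * (Bk x' y' * w) = Bk (x * x') (y * y') * w :=
        fun x y x' y' => by rw [← mul_assoc, hB]
      simp only [S, add_mul, mul_add, hB, r3, hP.left, q1, v1, hff, hef, s1 P hP.left,
        s1 Q q1, s1 V v1, hB0, zero_mul, add_zero, zero_add]
    · change S * (Bk e f + Bk f e) = S
      have r1 : ∀ x y x' y', Bk x y * w * Bk x' y' = Bk (x * y') (y * x') * w :=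
        fun x y x' y' => by rw [mul_assoc, hwB, ← mul_assoc, hB]
      simp only [S, add_mul, mul_add, hB, r1, hP.right, q2, v2, hff, hfe, s2 P hP.right,
        s2 Q q2, s2 V v2, hB0, zero_mul, add_zero, zero_add]
      abel
    · rw [htS]
      simp only [S]
      rw [block_mul hB hB0 hw hwB hBa hBb hff (s1 P hP.left) (s1 Q q1) (s1 V v1)
        (s2 _ (s4 P hP.left)) (s2 _ (s4 Q q1)) (s2 _ (s4 V v1)), k1, k2, k5, k6, hB0, hB1,
        zero_mul, add_zero, add_zero, hE]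
    · rw [htS', hS]
      rw [block_mul hB hB0 hw hwB hBa hBb hff (s1 _ (s3 P hP.right)) (s1 _ (s3 Q q2))
        (s1 _ (s3 V v2)) (s2 P hP.right) (s2 Q q2) (s2 V v2), k3, k4, k7, k8, hB0, hB1,
        zero_mul, add_zero, add_zero, hE]
  have t1 : tX P * e = tX P := by conv_rhs => rw [← hP.left, haX.mul, hte]
  have t2 : e * tX P = tX P := by conv_rhs => rw [← hP.right, haX.mul, hte]
  have t3 : tX Q * e = tX Q := by conv_rhs => rw [← hQ.left, haX.mul, hte]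
  have t4 : e * tX Q = tX Q := by conv_rhs => rw [← hQ.right, haX.mul, hte]
  by_cases hb : β = 0
  · refine key P 0 (mul_zero _) (zero_mul _) hP.left hP.right ?_ ?_ ?_ ?_ ?_ ?_ ?_ ?_
    · rw [map_zero, zero_mul, add_zero, hP.one, hb, add_zero]
    · rw [map_zero, zero_mul, zero_add, hP.one, hb, add_zero]
    · rw [map_zero, zero_mul, add_zero, hP.two, hb, add_zero]
    · rw [map_zero, zero_mul, zero_add, hP.two, hb, add_zero]
    · rw [map_zero, zero_mul, mul_zero, add_zero]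
    · rw [map_zero, zero_mul, mul_zero, add_zero]
    · rw [map_zero, zero_mul, mul_zero, add_zero]
    · rw [map_zero, zero_mul, mul_zero, add_zero]
  · have u1 : ∀ x, tX Q * (Q * x) = β • (e * x) := fun x => by
      rw [← mul_assoc, hQ.one, smul_mul_assoc]
    have u2 : ∀ x, Q * (tX Q * x) = β • (e * x) := fun x => by
      rw [← mul_assoc, hQ.two, smul_mul_assoc]
    have u3 : ∀ x, tX P * (P * x) = α • (e * x) := fun x => by
      rw [← mul_assoc, hP.one, smul_mul_assoc]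
    have u4 : ∀ x, P * (tX P * x) = α • (e * x) := fun x => by
      rw [← mul_assoc, hP.two, smul_mul_assoc]
    have u5 : ∀ x, e * (Q * x) = Q * x := fun x => by rw [← mul_assoc, hQ.left]
    have u6 : ∀ x, e * (P * x) = P * x := fun x => by rw [← mul_assoc, hP.left]
    have u7 : ∀ x, e * (tX Q * x) = tX Q * x := fun x => by rw [← mul_assoc, t4]
    have u8 : ∀ x, e * (tX P * x) = tX P * x := fun x => by rw [← mul_assoc, t2]
    have htV : tX (-(β⁻¹ • (Q * (tX P * Q)))) = -(β⁻¹ • (tX Q * (P * tX Q))) := by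
      rw [map_neg, hsX, haX.mul, haX.mul, httX, mul_assoc]
    have hbb : β⁻¹ * β = 1 := inv_mul_cancel₀ hb
    refine key (-(β⁻¹ • (Q * (tX P * Q)))) Q hQ.left hQ.right ?_ ?_ ?_ ?_ ?_ ?_ ?_ ?_ ?_ ?_
    · rw [mul_neg, mul_smul_comm, u5]
    · rw [neg_mul, smul_mul_assoc, mul_assoc, mul_assoc, hQ.right]
    · rw [hP.one, hQ.one, add_smul]
    · rw [htV, neg_mul_neg, hQ.one, smul_mul_smul_comm]
      simp only [mul_assoc, u1, u4, u8, hQ.one, mul_smul_comm, smul_smul, hQ.left]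
      rw [← add_smul]
      congr 1
      field_simp
      ring
    · rw [hP.two, hQ.two, add_smul]
    · rw [htV, neg_mul_neg, hQ.two, smul_mul_smul_comm]
      simp only [mul_assoc, u2, u3, u6, hQ.two, mul_smul_comm, smul_smul, t4]
      rw [← add_smul]
      congr 1
      field_simp
      ring
    · rw [mul_neg, mul_smul_comm, u1, u8, smul_smul, hbb, one_smul, add_neg_cancel]
    · rw [htV, neg_mul, smul_mul_assoc]
      simp only [mul_assoc, hQ.one, mul_smul_comm, hP.right, smul_smul, hbb, one_smul]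
      exact add_neg_cancel _
    · rw [htV, mul_neg, mul_smul_comm, u2, u6, smul_smul, hbb, one_smul, add_neg_cancel]
    · rw [neg_mul, smul_mul_assoc]
      simp only [mul_assoc, hQ.two, mul_smul_comm, t1, smul_smul, hbb, one_smul]
      exact add_neg_cancel _

end step

section tensor

variable {A B : Type*} [Ring A] [Algebra ℚ A] [Ring B] [Algebra ℚ B] {F : Type*} [Field F]
  [Algebra ℚ F]

/-- The spectrum of `D` is contained in `0, …, M` and the transposition takes `D` to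
`M - τ D τ`. -/
structure Skew (F : Type*) [Field F] [Algebra ℚ F] (tA : A →ₗ[ℚ] A) (M : ℕ) (τ : A)
    (D : F ⊗[ℚ] A) : Prop where
  invol : τ * τ = 1
  tau : tA τ = τ
  sp : Sp M D
  anti : tA.lTensor F D = algebraMap ℚ (F ⊗[ℚ] A) (M : ℚ) - (1 ⊗ₜ τ) * D * (1 ⊗ₜ τ)

/-- The projector to the odd part. -/
noncomputable def odd (τ : A) : A := (2⁻¹ : ℚ) • (1 - τ)

/-- `c` is represented in the odd part. -/
def Lv (F : Type*) [Field F] [Algebra ℚ F] (tA : A →ₗ[ℚ] A) (τ : A) (c : F) : Prop :=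
  ∃ S : F ⊗[ℚ] A, LvS (tA.lTensor F) (1 ⊗ₜ odd τ) c S

/-- The sums of `2 ^ n` squares. -/
def SS : ℕ → F → Prop
  | 0, c => ∃ u, c = u * u
  | n + 1, c => ∃ a b, SS n a ∧ SS n b ∧ c = a + b

lemma ss_zero : ∀ n, SS n (0 : F)
  | 0 => ⟨0, (mul_zero 0).symm⟩
  | n + 1 => ⟨0, 0, ss_zero n, ss_zero n, (add_zero 0).symm⟩

lemma ss_sq (u : F) : ∀ n, SS n (u * u)
  | 0 => ⟨u, rfl⟩
  | n + 1 => ⟨u * u, 0, ss_sq u n, ss_zero n, (add_zero _).symm⟩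

lemma exists_ss {c : F} (hc : IsSumSq c) : ∃ n, SS n c := by
  induction hc with
  | zero => exact ⟨0, ss_zero 0⟩
  | sq_add a hs ih =>
    obtain ⟨n, hn⟩ := ih
    exact ⟨n + 1, _, _, ss_sq a n, hn, rfl⟩

lemma odd_mul {τ : A} (h : τ * τ = 1) : odd τ * odd τ = odd τ := by
  rw [odd, smul_mul_smul_comm]
  have : (1 - τ) * (1 - τ) = (2 : ℚ) • (1 - τ) := by
    rw [mul_sub, mul_one, sub_mul, h, one_mul, two_smul]
    abel
  rw [this, smul_smul]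
  norm_num

lemma tA_odd {tA : A →ₗ[ℚ] A} (h : IsAnti tA) {τ : A} (ht : tA τ = τ) : tA (odd τ) = odd τ := by
  rw [odd, map_smul, map_sub, h.one, ht]

lemma lTensor_smul' (tA : A →ₗ[ℚ] A) (c : F) (x : F ⊗[ℚ] A) :
    tA.lTensor F (c • x) = c • tA.lTensor F x := by
  induction x with
  | zero => rw [smul_zero, map_zero, smul_zero]
  | tmul r a => rw [TensorProduct.smul_tmul', LinearMap.lTensor_tmul, LinearMap.lTensor_tmul,
      TensorProduct.smul_tmul']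
  | add x y hx hy => rw [smul_add, map_add, hx, hy, map_add, smul_add]

lemma lTensor_invol {tA : A →ₗ[ℚ] A} (h : ∀ a, tA (tA a) = a) (x : F ⊗[ℚ] A) :
    tA.lTensor F (tA.lTensor F x) = x := by
  rw [← LinearMap.comp_apply, ← LinearMap.lTensor_comp]
  have : tA ∘ₗ tA = LinearMap.id := LinearMap.ext h
  rw [this, LinearMap.lTensor_id]
  rfl

/-- Squares are represented. -/
lemma Lv.sq {tA : A →ₗ[ℚ] A} (h : IsAnti tA) {τ : A} (hτ : τ * τ = 1) (ht : tA τ = τ) (u : F) :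
    Lv F tA τ (u * u) := by
  have e1 : (1 ⊗ₜ odd τ : F ⊗[ℚ] A) * (1 ⊗ₜ odd τ) = 1 ⊗ₜ odd τ := by
    rw [Algebra.TensorProduct.tmul_mul_tmul, one_mul, odd_mul hτ]
  have e2 : tA.lTensor F (1 ⊗ₜ odd τ) = 1 ⊗ₜ odd τ := by
    rw [LinearMap.lTensor_tmul, tA_odd h ht]
  refine ⟨u • (1 ⊗ₜ odd τ), ?_, ?_, ?_, ?_⟩
  · rw [mul_smul_comm, e1]
  · rw [smul_mul_assoc, e1]
  · rw [lTensor_smul', e2, smul_mul_smul_comm, e1]
  · rw [lTensor_smul', e2, smul_mul_smul_comm, e1]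

variable {tX : A →ₗ[ℚ] A} {tZ : B →ₗ[ℚ] B} {ι₀ ι₁ : A →ₐ[ℚ] B} {s : B}

/-- A pair of embeddings exchanged by an involution. -/
structure Pair (tX : A →ₗ[ℚ] A) (tZ : B →ₗ[ℚ] B) (ι₀ ι₁ : A →ₐ[ℚ] B) (s : B) : Prop where
  aX : IsAnti tX
  ttX : ∀ a, tX (tX a) = a
  aZ : IsAnti tZ
  h0 : ∀ a, tZ (ι₀ a) = ι₀ (tX a)
  h1 : ∀ a, tZ (ι₁ a) = ι₁ (tX a)
  comm : ∀ a b, ι₀ a * ι₁ b = ι₁ b * ι₀ a
  ss : s * s = 1
  ts : tZ s = s
  s0 : ∀ a, s * ι₀ a = ι₁ a * s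
  s1 : ∀ a, s * ι₁ a = ι₀ a * s

lemma Pair.comm' (h : Pair tX tZ ι₀ ι₁ s) (x y : F ⊗[ℚ] A) :
    lt F ι₀ x * lt F ι₁ y = lt F ι₁ y * lt F ι₀ x := by
  induction x with
  | zero => rw [map_zero, zero_mul, mul_zero]
  | tmul x a =>
    induction y with
    | zero => rw [map_zero, zero_mul, mul_zero]
    | tmul y b =>
      rw [lt_tmul, lt_tmul, Algebra.TensorProduct.tmul_mul_tmul,
        Algebra.TensorProduct.tmul_mul_tmul, h.comm, mul_comm]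
    | add y z hy hz => rw [map_add, mul_add, add_mul, hy, hz]
  | add x z hx hz => rw [map_add, mul_add, add_mul, hx, hz]

lemma Pair.s0' (h : Pair tX tZ ι₀ ι₁ s) (x : F ⊗[ℚ] A) :
    (1 ⊗ₜ s) * lt F ι₀ x = lt F ι₁ x * (1 ⊗ₜ s) := by
  induction x with
  | zero => simp
  | tmul x a =>
    rw [lt_tmul, lt_tmul, Algebra.TensorProduct.tmul_mul_tmul,
      Algebra.TensorProduct.tmul_mul_tmul, h.s0, one_mul, mul_one]
  | add x y hx hy => rw [map_add, mul_add, hx, hy, map_add, add_mul]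

lemma Pair.s1' (h : Pair tX tZ ι₀ ι₁ s) (x : F ⊗[ℚ] A) :
    (1 ⊗ₜ s) * lt F ι₁ x = lt F ι₀ x * (1 ⊗ₜ s) := by
  induction x with
  | zero => simp
  | tmul x a =>
    rw [lt_tmul, lt_tmul, Algebra.TensorProduct.tmul_mul_tmul,
      Algebra.TensorProduct.tmul_mul_tmul, h.s1, one_mul, mul_one]
  | add x y hx hy => rw [map_add, mul_add, hx, hy, map_add, add_mul]

lemma lt_algebraMap (ι : A →ₐ[ℚ] B) (c : ℚ) :
    lt F ι (algebraMap ℚ _ c) = algebraMap ℚ _ c := ((lt F ι).restrictScalars ℚ).commutes c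

lemma lTensor_algebraMap (h : IsAnti tX) (c : ℚ) :
    tX.lTensor F (algebraMap ℚ (F ⊗[ℚ] A) c) = algebraMap ℚ _ c := by
  rw [Algebra.algebraMap_eq_smul_one, map_smul, (isAnti_lTensor (F := F) h).one]

/-- The degree operator of the square. -/
theorem Pair.square (h : Pair tX tZ ι₀ ι₁ s) {M : ℕ} {Γ : F ⊗[ℚ] A} (hΓ : Sp M Γ) :
    Skew F tZ (M + M) s (lt F ι₀ Γ + lt F ι₁ (algebraMap ℚ _ (M : ℚ) - tX.lTensor F Γ)) where
  invol := h.ss
  tau := h.ts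
  sp := (Sp.map ((lt F ι₀).restrictScalars ℚ) hΓ).add
    (Sp.map ((lt F ι₁).restrictScalars ℚ) ((isAnti_lTensor h.aX).sp hΓ).flip) (h.comm' _ _)
  anti := by
    have hτ : (1 ⊗ₜ s : F ⊗[ℚ] B) * (1 ⊗ₜ s) = 1 := by
      rw [Algebra.TensorProduct.tmul_mul_tmul, h.ss, one_mul]
      rfl
    rw [mul_add, h.s0', h.s1', ← add_mul, mul_assoc, hτ, mul_one, map_add, lTensor_lt h.h0,
      lTensor_lt h.h1, map_sub (tX.lTensor F), lTensor_algebraMap h.aX, lTensor_invol h.ttX,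
      map_sub (lt F ι₁), map_sub (lt F ι₀), lt_algebraMap, lt_algebraMap, Nat.cast_add, map_add]
    abel

/-- The degree operator of the next square. -/
theorem Pair.next (h : Pair tX tZ ι₀ ι₁ s) {M : ℕ} {τ : A} {D : F ⊗[ℚ] A} (hD : Skew F tX M τ D) :
    Skew F tZ (M + M) (ι₀ τ * ι₁ τ) (lt F ι₀ D + lt F ι₁ D) where
  invol := by
    calc ι₀ τ * ι₁ τ * (ι₀ τ * ι₁ τ) = ι₀ τ * (ι₁ τ * ι₀ τ) * ι₁ τ := by noncomm_ring
      _ = ι₀ τ * (ι₀ τ * ι₁ τ) * ι₁ τ := by rw [h.comm]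
      _ = (ι₀ τ * ι₀ τ) * (ι₁ τ * ι₁ τ) := by noncomm_ring
      _ = 1 := by rw [← map_mul, ← map_mul, hD.invol, map_one, map_one, one_mul]
  tau := by rw [h.aZ.mul, h.h0, h.h1, hD.tau, h.comm]
  sp := (Sp.map ((lt F ι₀).restrictScalars ℚ) hD.sp).add
    (Sp.map ((lt F ι₁).restrictScalars ℚ) hD.sp) (h.comm' _ _)
  anti := by
    have e0 : (1 ⊗ₜ (ι₀ τ * ι₁ τ) : F ⊗[ℚ] B) = lt F ι₀ (1 ⊗ₜ τ) * lt F ι₁ (1 ⊗ₜ τ) := by
      rw [lt_tmul, lt_tmul, Algebra.TensorProduct.tmul_mul_tmul, one_mul]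
    have e1 : ∀ ι : A →ₐ[ℚ] B, lt F ι (1 ⊗ₜ τ) * lt F ι (1 ⊗ₜ τ) = 1 := fun ι => by
      rw [← map_mul, Algebra.TensorProduct.tmul_mul_tmul, hD.invol, one_mul]
      exact map_one _
    have f0 : (1 ⊗ₜ (ι₀ τ * ι₁ τ) : F ⊗[ℚ] B) * lt F ι₀ D * (1 ⊗ₜ (ι₀ τ * ι₁ τ)) =
        lt F ι₀ ((1 ⊗ₜ τ) * D * (1 ⊗ₜ τ)) := by
      rw [e0, map_mul, map_mul]
      calc lt F ι₀ (1 ⊗ₜ τ) * lt F ι₁ (1 ⊗ₜ τ) * lt F ι₀ D *
            (lt F ι₀ (1 ⊗ₜ τ) * lt F ι₁ (1 ⊗ₜ τ)) =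
          lt F ι₀ (1 ⊗ₜ τ) * (lt F ι₁ (1 ⊗ₜ τ) * lt F ι₀ D) *
            (lt F ι₀ (1 ⊗ₜ τ) * lt F ι₁ (1 ⊗ₜ τ)) := by noncomm_ring
        _ = lt F ι₀ (1 ⊗ₜ τ) * (lt F ι₀ D * lt F ι₁ (1 ⊗ₜ τ)) *
            (lt F ι₁ (1 ⊗ₜ τ) * lt F ι₀ (1 ⊗ₜ τ)) := by rw [h.comm', h.comm']
        _ = lt F ι₀ (1 ⊗ₜ τ) * lt F ι₀ D * (lt F ι₁ (1 ⊗ₜ τ) * lt F ι₁ (1 ⊗ₜ τ)) *
            lt F ι₀ (1 ⊗ₜ τ) := by noncomm_ring
        _ = _ := by rw [e1, mul_one]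
    have f1 : (1 ⊗ₜ (ι₀ τ * ι₁ τ) : F ⊗[ℚ] B) * lt F ι₁ D * (1 ⊗ₜ (ι₀ τ * ι₁ τ)) =
        lt F ι₁ ((1 ⊗ₜ τ) * D * (1 ⊗ₜ τ)) := by
      rw [e0, map_mul, map_mul]
      calc lt F ι₀ (1 ⊗ₜ τ) * lt F ι₁ (1 ⊗ₜ τ) * lt F ι₁ D *
            (lt F ι₀ (1 ⊗ₜ τ) * lt F ι₁ (1 ⊗ₜ τ)) =
          (lt F ι₀ (1 ⊗ₜ τ) * lt F ι₁ (1 ⊗ₜ τ)) * lt F ι₁ D *
            (lt F ι₀ (1 ⊗ₜ τ) * lt F ι₁ (1 ⊗ₜ τ)) := rfl
        _ = (lt F ι₁ (1 ⊗ₜ τ) * lt F ι₀ (1 ⊗ₜ τ)) * lt F ι₁ D *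
            (lt F ι₀ (1 ⊗ₜ τ) * lt F ι₁ (1 ⊗ₜ τ)) := by rw [h.comm' (1 ⊗ₜ τ) (1 ⊗ₜ τ)]
        _ = lt F ι₁ (1 ⊗ₜ τ) * (lt F ι₀ (1 ⊗ₜ τ) * lt F ι₁ D) *
            (lt F ι₀ (1 ⊗ₜ τ) * lt F ι₁ (1 ⊗ₜ τ)) := by noncomm_ring
        _ = lt F ι₁ (1 ⊗ₜ τ) * (lt F ι₁ D * lt F ι₀ (1 ⊗ₜ τ)) *
            (lt F ι₀ (1 ⊗ₜ τ) * lt F ι₁ (1 ⊗ₜ τ)) := by rw [h.comm' (1 ⊗ₜ τ) D]
        _ = lt F ι₁ (1 ⊗ₜ τ) * lt F ι₁ D * (lt F ι₀ (1 ⊗ₜ τ) * lt F ι₀ (1 ⊗ₜ τ)) *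
            lt F ι₁ (1 ⊗ₜ τ) := by noncomm_ring
        _ = _ := by rw [e1, mul_one]
    rw [mul_add, add_mul, f0, f1, map_add, lTensor_lt h.h0, lTensor_lt h.h1, hD.anti,
      map_sub (lt F ι₀), map_sub (lt F ι₁), lt_algebraMap, lt_algebraMap, Nat.cast_add, map_add]
    abel

/-- Sums are represented in the next square. -/
theorem Pair.lv (h : Pair tX tZ ι₀ ι₁ s) {τ : A} (hτ : τ * τ = 1) (ht : tX τ = τ) {a b : F}
    (ha : Lv F tX τ a) (hb : Lv F tX τ b) : Lv F tZ (ι₀ τ * ι₁ τ) (a + b) := by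
  obtain ⟨P, hP⟩ := ha
  obtain ⟨Q, hQ⟩ := hb
  have e1 : (1 ⊗ₜ odd τ : F ⊗[ℚ] A) * (1 ⊗ₜ odd τ) = 1 ⊗ₜ odd τ := by
    rw [Algebra.TensorProduct.tmul_mul_tmul, one_mul, odd_mul hτ]
  have e2 : tX.lTensor F (1 ⊗ₜ odd τ) = 1 ⊗ₜ odd τ := by
    rw [LinearMap.lTensor_tmul, tA_odd h.aX ht]
  obtain ⟨S, hS⟩ := LvS.step (F := F) (isAnti_lTensor h.aX) (lTensor_invol h.ttX)
    (lTensor_smul' tX) (isAnti_lTensor h.aZ) (j0 := lt F ι₀) (j1 := lt F ι₁)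
    (lTensor_lt h.h0) (lTensor_lt h.h1) h.comm' (w := 1 ⊗ₜ s)
    (by rw [Algebra.TensorProduct.tmul_mul_tmul, h.ss, one_mul]; rfl)
    (by rw [LinearMap.lTensor_tmul, h.ts]) h.s0' h.s1' e1 e2 hP hQ
  have e3 : lt F ι₀ (1 ⊗ₜ odd τ) * lt F ι₁ (1 - 1 ⊗ₜ odd τ) +
      lt F ι₀ (1 - 1 ⊗ₜ odd τ) * lt F ι₁ (1 ⊗ₜ odd τ) =
        (1 ⊗ₜ odd (ι₀ τ * ι₁ τ) : F ⊗[ℚ] B) := by
    have e4 : (1 : F ⊗[ℚ] A) - 1 ⊗ₜ odd τ = 1 ⊗ₜ (1 - odd τ) := by
      rw [TensorProduct.tmul_sub]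
      rfl
    rw [e4, lt_tmul, lt_tmul, lt_tmul, lt_tmul, Algebra.TensorProduct.tmul_mul_tmul,
      Algebra.TensorProduct.tmul_mul_tmul, ← TensorProduct.tmul_add, one_mul]
    congr 1
    have e5 : (1 : A) - odd τ = (2⁻¹ : ℚ) • (1 + τ) := by
      rw [odd, smul_sub, smul_add]
      have : (1 : A) = (2⁻¹ : ℚ) • (1 : A) + (2⁻¹ : ℚ) • (1 : A) := by
        rw [← add_smul]; norm_num
      nth_rewrite 1 [this]
      abel
    rw [e5, odd, odd, map_smul, map_smul, map_smul, map_smul, smul_mul_smul_comm,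
      smul_mul_smul_comm, ← smul_add, map_sub, map_sub, map_add, map_add, map_one, map_one]
    have e6 : (1 - ι₀ τ) * (1 + ι₁ τ) + (1 + ι₀ τ) * (1 - ι₁ τ) =
        (2 : ℚ) • (1 - ι₀ τ * ι₁ τ) := by
      rw [two_smul]
      noncomm_ring
    rw [e6, smul_smul]
    norm_num
  rw [e3] at hS
  exact ⟨S, hS⟩

/-- **The self-dual degree operator.** -/
theorem Skew.conj {tA : A →ₗ[ℚ] A} (haA : IsAnti tA) (httA : ∀ a, tA (tA a) = a) {M : ℕ} {τ : A}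
    {D : F ⊗[ℚ] A} (h : Skew F tA M τ D) (hl : Lv F tA τ (-1)) :
    ∃ S S' : F ⊗[ℚ] A, S * S' = 1 ∧ S' * S = 1 ∧
      tA.lTensor F (S * D * S') = algebraMap ℚ _ (M : ℚ) - S * D * S' := by
  obtain ⟨P, hP⟩ := hl
  have haA' : IsAnti (tA.lTensor F : F ⊗[ℚ] A →ₗ[ℚ] F ⊗[ℚ] A) := isAnti_lTensor haA
  have e1 : (1 ⊗ₜ odd τ : F ⊗[ℚ] A) * (1 ⊗ₜ odd τ) = 1 ⊗ₜ odd τ := by
    rw [Algebra.TensorProduct.tmul_mul_tmul, one_mul, odd_mul h.invol]
  have e2 : tA.lTensor F (1 ⊗ₜ odd τ) = 1 ⊗ₜ odd τ := by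
    rw [LinearMap.lTensor_tmul, tA_odd haA h.tau]
  generalize hE : (1 ⊗ₜ odd τ : F ⊗[ℚ] A) = E at e1 e2 hP
  have hτE : (1 ⊗ₜ τ : F ⊗[ℚ] A) = 1 - E - E := by
    rw [← hE]
    have e3 : (1 : F ⊗[ℚ] A) - 1 ⊗ₜ odd τ - 1 ⊗ₜ odd τ = 1 ⊗ₜ (1 - odd τ - odd τ) := by
      rw [TensorProduct.tmul_sub, TensorProduct.tmul_sub]
      rfl
    rw [e3]
    congr 1
    rw [sub_sub, odd, ← add_smul]
    norm_num
  have hP1 : E * P = P := hP.left
  have hP2 : P * E = P := hP.right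
  have hP3 : E * tA.lTensor F P = tA.lTensor F P := by
    conv_rhs => rw [← hP2, haA'.mul, e2]
  have hP4 : tA.lTensor F P * E = tA.lTensor F P := by
    conv_rhs => rw [← hP1, haA'.mul, e2]
  have hP5 : tA.lTensor F P * P = -E := by rw [hP.one, neg_one_smul]
  have hP6 : P * tA.lTensor F P = -E := by rw [hP.two, neg_one_smul]
  have hS : tA.lTensor F (1 - E + P) = 1 - E + tA.lTensor F P := by
    rw [map_add, map_sub, haA'.one, e2]
  have h1 : tA.lTensor F (1 - E + P) * (1 - E + P) = 1 ⊗ₜ τ := by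
    rw [hS, hτE]
    simp only [mul_add, mul_sub, add_mul, sub_mul, one_mul, mul_one, e1, hP1, hP2, hP3, hP4, hP5]
    abel
  have h2 : (1 - E + P) * tA.lTensor F (1 - E + P) = 1 ⊗ₜ τ := by
    rw [hS, hτE]
    simp only [mul_add, mul_sub, add_mul, sub_mul, one_mul, mul_one, e1, hP1, hP2, hP3, hP4, hP6]
    abel
  obtain ⟨k1, k2, k3⟩ := selfDual_conj haA' (lTensor_invol httA) (τ := 1 ⊗ₜ τ)
    (by rw [Algebra.TensorProduct.tmul_mul_tmul, h.invol, one_mul]; rfl)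
    (by rw [LinearMap.lTensor_tmul, h.tau]) h1 h2 h.anti
  exact ⟨_, _, k1, k2, k3⟩

/-- Conjugation of elements congruent to a central one. -/
lemma conj_mem {N' : Submodule ℚ A} (hl : ∀ b, ∀ x ∈ N', b * x ∈ N')
    (hr : ∀ b, ∀ x ∈ N', x * b ∈ N') {D : F ⊗[ℚ] A} {Q : A}
    (hD : D - 1 ⊗ₜ Q ∈ N'.baseChange F) (hQ : ∀ b, b * Q - Q * b ∈ N') {S S' : F ⊗[ℚ] A}
    (hS : S * S' = 1) : S * D * S' - 1 ⊗ₜ Q ∈ N'.baseChange F := by
  have hc : ∀ x : F ⊗[ℚ] A, x * (1 ⊗ₜ Q) - (1 ⊗ₜ Q) * x ∈ N'.baseChange F := by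
    intro x
    induction x with
    | zero => simp
    | tmul x b =>
      rw [Algebra.TensorProduct.tmul_mul_tmul, Algebra.TensorProduct.tmul_mul_tmul, one_mul,
        mul_one, ← TensorProduct.tmul_sub]
      exact Submodule.tmul_mem_baseChange_of_mem _ (hQ b)
    | add x y hx hy =>
      rw [add_mul, mul_add, add_sub_add_comm]
      exact Submodule.add_mem _ hx hy
  have h5 : S * D * S' - 1 ⊗ₜ Q = S * (D - 1 ⊗ₜ Q) * S' +
      (S * (1 ⊗ₜ Q) - (1 ⊗ₜ Q) * S) * S' := by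
    rw [mul_sub, sub_mul, sub_mul, mul_assoc (1 ⊗ₜ Q) S S', hS, mul_one]
    abel
  rw [h5]
  exact Submodule.add_mem _ (mem_baseChange_mul hr _ (mul_mem_baseChange hl _ hD))
    (mem_baseChange_mul hr _ (hc S))

/-- The congruence for the square. -/
lemma square_mem {N : Submodule ℚ A} {N' : Submodule ℚ B} (hNt : ∀ a ∈ N, tX a ∈ N)
    (hN0 : ∀ a ∈ N, ι₀ a ∈ N') (hN1 : ∀ a ∈ N, ι₁ a ∈ N') {M : ℕ} {Γ : F ⊗[ℚ] A} {q : A}
    (hq : Γ - 1 ⊗ₜ q ∈ N.baseChange F) :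
    lt F ι₀ Γ + lt F ι₁ (algebraMap ℚ _ (M : ℚ) - tX.lTensor F Γ) -
      1 ⊗ₜ (ι₀ q + ι₁ (algebraMap ℚ A M - tX q)) ∈ N'.baseChange F := by
  have h5 : algebraMap ℚ _ (M : ℚ) - tX.lTensor F Γ - 1 ⊗ₜ (algebraMap ℚ A M - tX q) ∈
      N.baseChange F := by
    have h6 : tX.lTensor F (Γ - 1 ⊗ₜ q) ∈ N.baseChange F := lTensor_mem hNt hq
    rw [map_sub, LinearMap.lTensor_tmul] at h6
    have h7 : algebraMap ℚ _ (M : ℚ) - tX.lTensor F Γ - 1 ⊗ₜ (algebraMap ℚ A M - tX q) =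
        -(tX.lTensor F Γ - 1 ⊗ₜ tX q) := by
      rw [TensorProduct.tmul_sub]
      have h8 : (algebraMap ℚ (F ⊗[ℚ] A) (M : ℕ)) = 1 ⊗ₜ algebraMap ℚ A (M : ℕ) := by
        rw [map_natCast, map_natCast]
        exact (map_natCast (Algebra.TensorProduct.includeRight : A →ₐ[ℚ] F ⊗[ℚ] A) _).symm
      rw [h8]
      abel
    rw [h7]
    exact Submodule.neg_mem _ h6
  have h6 : lt F ι₀ Γ + lt F ι₁ (algebraMap ℚ _ (M : ℚ) - tX.lTensor F Γ) -
      1 ⊗ₜ (ι₀ q + ι₁ (algebraMap ℚ A M - tX q)) = lt F ι₀ (Γ - 1 ⊗ₜ q) +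
        lt F ι₁ (algebraMap ℚ _ (M : ℚ) - tX.lTensor F Γ - 1 ⊗ₜ (algebraMap ℚ A M - tX q)) := by
    generalize algebraMap ℚ _ (M : ℚ) - tX.lTensor F Γ = G'
    rw [map_sub (lt F ι₀), map_sub (lt F ι₁), lt_tmul, lt_tmul, TensorProduct.tmul_add]
    abel
  rw [h6, lt_eq_lTensor, lt_eq_lTensor]
  exact Submodule.add_mem _ (lTensor_mem hN0 hq) (lTensor_mem hN1 h5)

/-- The congruence for the next square. -/
lemma next_mem {N : Submodule ℚ A} {N' : Submodule ℚ B}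
    (hN0 : ∀ a ∈ N, ι₀ a ∈ N') (hN1 : ∀ a ∈ N, ι₁ a ∈ N') {D : F ⊗[ℚ] A} {q : A}
    (hq : D - 1 ⊗ₜ q ∈ N.baseChange F) :
    lt F ι₀ D + lt F ι₁ D - 1 ⊗ₜ (ι₀ q + ι₁ q) ∈ N'.baseChange F := by
  have h6 : lt F ι₀ D + lt F ι₁ D - 1 ⊗ₜ (ι₀ q + ι₁ q) = lt F ι₀ (D - 1 ⊗ₜ q) +
      lt F ι₁ (D - 1 ⊗ₜ q) := by
    rw [map_sub (lt F ι₀), map_sub (lt F ι₁), lt_tmul, lt_tmul, TensorProduct.tmul_add]
    abel
  rw [h6, lt_eq_lTensor, lt_eq_lTensor]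
  exact Submodule.add_mem _ (lTensor_mem hN0 hq) (lTensor_mem hN1 hq)

/-- **Self-dual systems.** -/
theorem Skew.system {tA : A →ₗ[ℚ] A} (haA : IsAnti tA) (httA : ∀ a, tA (tA a) = a) {M : ℕ}
    {τ : A} {D : F ⊗[ℚ] A} (h : Skew F tA M τ D) (hl : Lv F tA τ (-1)) {N' : Submodule ℚ A}
    (hl' : ∀ b, ∀ x ∈ N', b * x ∈ N') (hr' : ∀ b, ∀ x ∈ N', x * b ∈ N') {Q : A}
    (hD : D - 1 ⊗ₜ Q ∈ N'.baseChange F) (hQ : ∀ b, b * Q - Q * b ∈ N') :
    ∃ D' : F ⊗[ℚ] A, Sp M D' ∧ D' - 1 ⊗ₜ Q ∈ N'.baseChange F ∧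
      ∀ i ≤ M, tA.lTensor F (idem M D' i) = idem M D' (M - i) := by
  obtain ⟨S, S', e1, e2, e3⟩ := h.conj haA httA hl
  have hs : Sp M (S * D * S') := by
    rw [Sp, aeval_conj e2 e1, show aeval D (nod M) = 0 from h.sp, mul_zero, zero_mul]
  refine ⟨S * D * S', hs, conj_mem hl' hr' hD hQ e1, fun i hi => ?_⟩
  have h5 : tA.lTensor F (idem M (S * D * S') i) =
      idem M (algebraMap ℚ _ (M : ℚ) - S * D * S') i := by
    rw [← e3]
    exact (isAnti_lTensor haA).map_aeval _ _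
  rw [h5, idem_flip hs hi]

end tensor

end Pool.Agent.H838.CF
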