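import Pool.Graph.R_seed8.TH133.Murre
import Pool.Graph.R_seed8.TH133.Ext
import Pool.Agent.H838.CFDefs

/-!
# Powers of a variety, permutations of the factors and correspondences on one factor
-/

set_option autoImplicit false
set_option linter.unusedSectionVars false

open CategoryTheory AlgebraicGeometry

universe u v w

namespace Pool.Agent.H838.CF

open Pool.Agent.H914 Pool.Agent.H914.VarClass Pool.Agent.H914.VarClass.Obj Pool.Agent.W492.BB
  Pool.Agent.W550.Corr Pool.Agent.TH133

variable {k : Type u} [Field k] {𝒱 : VarClass k}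

section maps

variable {X W : 𝒱.Obj}

/-- The projections of the power to its factors. -/
noncomputable def pj (X : 𝒱.Obj) : (n : ℕ) → Fin (n + 1) → (pw X n ⟶ X)
  | 0 => fun _ => 𝟙 X
  | n + 1 => Fin.lastCases (snd (pw X n) X) (fun i => fst (pw X n) X ≫ pj X n i)

lemma pj_last (n : ℕ) : pj X (n + 1) (Fin.last (n + 1)) = snd (pw X n) X := by
  rw [pj]
  exact Fin.lastCases_last

lemma pj_castSucc (n : ℕ) (i : Fin (n + 1)) :
    pj X (n + 1) i.castSucc = fst (pw X n) X ≫ pj X n i := by
  rw [pj]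
  exact Fin.lastCases_castSucc _

/-- The morphism to the power with given components. -/
noncomputable def lf : (n : ℕ) → (Fin (n + 1) → (W ⟶ X)) → (W ⟶ pw X n)
  | 0 => fun f => f 0
  | n + 1 => fun f => Obj.lift (lf n (fun i => f i.castSucc)) (f (Fin.last (n + 1)))

lemma lf_pj : ∀ (n : ℕ) (f : Fin (n + 1) → (W ⟶ X)) (i : Fin (n + 1)), lf n f ≫ pj X n i = f i
  | 0, f, i => by
    obtain rfl : i = 0 := Fin.fin_one_eq_zero i
    exact Category.comp_id _
  | n + 1, f, i => by
    induction i using Fin.lastCases with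
    | last => rw [pj_last]; exact lift_snd _ _
    | cast i =>
      rw [pj_castSucc, ← Category.assoc]
      have h : lf (n + 1) f ≫ fst (pw X n) X = lf n (fun i => f i.castSucc) := lift_fst _ _
      rw [h, lf_pj n]

lemma pj_ext : ∀ (n : ℕ) {f g : W ⟶ pw X n}, (∀ i, f ≫ pj X n i = g ≫ pj X n i) → f = g
  | 0, f, g, h => by
    have h0 := h 0
    have e : ∀ f : W ⟶ pw X 0, f ≫ pj X 0 0 = f := fun f => Category.comp_id f
    rwa [e, e] at h0
  | n + 1, f, g, h => by
    apply prod_ext
    · apply pj_ext n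
      intro i
      have := h i.castSucc
      rw [pj_castSucc, ← Category.assoc, ← Category.assoc] at this
      exact this
    · have := h (Fin.last (n + 1))
      rwa [pj_last] at this

/-- The permutation of the factors. -/
noncomputable def pm (X : 𝒱.Obj) {n : ℕ} (σ : Equiv.Perm (Fin (n + 1))) : pw X n ⟶ pw X n :=
  lf n fun i => pj X n (σ i)

lemma pm_pj {n : ℕ} (σ : Equiv.Perm (Fin (n + 1))) (i : Fin (n + 1)) :
    pm X σ ≫ pj X n i = pj X n (σ i) := lf_pj n _ i

lemma pm_mul {n : ℕ} (σ τ : Equiv.Perm (Fin (n + 1))) : pm X σ ≫ pm X τ = pm X (σ * τ) := by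
  apply pj_ext n
  intro i
  rw [Category.assoc, pm_pj, pm_pj, pm_pj]
  rfl

lemma pm_one (n : ℕ) : pm X (1 : Equiv.Perm (Fin (n + 1))) = 𝟙 _ := by
  apply pj_ext n
  intro i
  rw [pm_pj, Category.id_comp]
  rfl

end maps

section chow

variable {C : TheoryData.{u, v, 0} 𝒱 ℚ} [hC : IsChowProj C] {X Y Z W : 𝒱.Obj}

include hC

/-- Composition with a graph on the left. -/
lemma graph_comp (f : X ⟶ Y) (Γ : C.A (Y.prod Z)) :
    C.comp (C.graph f) Γ = C.pull (prodMap f (𝟙 Z)) Γ := by
  rw [TheoryData.comp, TheoryData.graph, C.base_fst, ← C.proj_left, ← C.push_comp, map_one,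
    mul_one, ← C.pull_comp]
  have e1 : prodMap (Obj.lift (𝟙 X) f) (𝟙 Z) ≫ t13 X Y Z = 𝟙 _ := by
    apply prod_ext <;> simp [t13]
  have e2 : prodMap (Obj.lift (𝟙 X) f) (𝟙 Z) ≫ t23 X Y Z = prodMap f (𝟙 Z) := by
    apply prod_ext <;> simp [t23]
  rw [e1, e2, C.push_id]

/-- Composition with a graph on the right. -/
lemma comp_graph (f : Y ⟶ Z) (Γ : C.A (X.prod Y)) :
    C.comp Γ (C.graph f) = C.push (prodMap (𝟙 X) f) Γ := by
  rw [comp_eq_extR, extR_graph]

lemma graph_graph (f : X ⟶ Y) (g : Y ⟶ Z) : C.comp (C.graph f) (C.graph g) = C.graph (f ≫ g) := by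
  rw [comp_graph, TheoryData.graph, ← C.push_comp, TheoryData.graph]
  have e1 : Obj.lift (𝟙 X) f ≫ prodMap (𝟙 X) g = Obj.lift (𝟙 X) (f ≫ g) := by
    apply prod_ext <;> simp
  rw [e1]

lemma conj_graph (f g : Y ⟶ Y) (h1 : f ≫ g = 𝟙 Y) (h2 : g ≫ f = 𝟙 Y) (Γ : C.A (Y.prod Y)) :
    C.comp (C.comp (C.graph f) Γ) (C.graph g) = C.pull (prodMap f f) Γ := by
  have e1 : prodMap (𝟙 Y) f ≫ prodMap (𝟙 Y) g = 𝟙 (Y.prod Y) := by
    rw [prodMap_comp, h1, Category.id_comp]
    apply prod_ext <;> simp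
  have e2 : prodMap (𝟙 Y) g ≫ prodMap (𝟙 Y) f = 𝟙 (Y.prod Y) := by
    rw [prodMap_comp, h2, Category.id_comp]
    apply prod_ext <;> simp
  rw [graph_comp, comp_graph, ← pull_iso C (prodMap (𝟙 Y) f) (prodMap (𝟙 Y) g) e1 e2,
    ← C.pull_comp, prodMap_comp, Category.id_comp, Category.comp_id]

/-- The external product of self-correspondences of the factors. -/
noncomputable def T (n : ℕ) (γ : Fin (n + 1) → C.A (X.prod X)) :
    C.A ((pw X n).prod (pw X n)) :=
  (List.ofFn fun i => C.pull (prodMap (pj X n i) (pj X n i)) (γ i)).prod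

lemma T_zero (γ : Fin 1 → C.A (X.prod X)) : T (C := C) 0 γ = γ 0 := by
  have e1 : prodMap (𝟙 X) (𝟙 X) = 𝟙 (X.prod X) := by apply prod_ext <;> simp
  have h : T (C := C) 0 γ = C.pull (prodMap (𝟙 X) (𝟙 X)) (γ 0) := by
    simp only [T, List.ofFn_succ, List.ofFn_zero, List.prod_cons, List.prod_nil, mul_one]
    rfl
  rw [h, e1, C.pull_id]

lemma T_succ (n : ℕ) (γ : Fin (n + 2) → C.A (X.prod X)) :
    T (C := C) (n + 1) γ = tens C (T (C := C) n fun i => γ i.castSucc) (γ (Fin.last (n + 1))) := by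
  rw [T, List.ofFn_succ', List.concat_eq_append, List.prod_append, List.prod_singleton, tens, T,
    map_list_prod, List.map_ofFn, pj_last]
  congr 2
  congr 1
  funext i
  rw [Function.comp_apply, ← C.pull_comp, prodMap_comp, pj_castSucc]

lemma T_comp : ∀ (n : ℕ) (γ δ : Fin (n + 1) → C.A (X.prod X)),
    C.comp (T (C := C) n γ) (T (C := C) n δ) = T (C := C) n fun i => C.comp (γ i) (δ i)
  | 0, γ, δ => by rw [T_zero, T_zero, T_zero]
  | n + 1, γ, δ => by
    rw [T_succ, T_succ, T_succ, tens_comp', T_comp n]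

lemma T_dg : ∀ n : ℕ, T (C := C) n (fun _ => dg C X) = dg C (pw X n)
  | 0 => T_zero _
  | n + 1 => by rw [T_succ, T_dg n, tens_dg]

lemma T_perm (n : ℕ) (γ : Fin (n + 1) → C.A (X.prod X)) (σ : Equiv.Perm (Fin (n + 1))) :
    C.pull (prodMap (pm X σ) (pm X σ)) (T (C := C) n γ) = T (C := C) n (γ ∘ σ.symm) := by
  let G : Fin (n + 1) → C.A ((pw X n).prod (pw X n)) := fun i =>
    C.pull (prodMap (pj X n i) (pj X n i)) ((γ ∘ σ.symm) i)
  have h1 : C.pull (prodMap (pm X σ) (pm X σ)) (T (C := C) n γ) = (List.ofFn (G ∘ σ)).prod := by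
    rw [T, map_list_prod, List.map_ofFn]
    congr 2
    funext i
    simp only [G, Function.comp_apply, Equiv.symm_apply_apply]
    rw [← C.pull_comp, prodMap_comp, pm_pj]
  rw [h1]
  refine List.Perm.prod_eq' (Equiv.Perm.ofFn_comp_perm σ G) ?_
  refine List.Pairwise.imp_of_mem (R := fun _ _ => True) ?_ ?_
  · intro a b _ _ _
    exact ch_comm C a b
  · exact List.pairwise_of_forall fun _ _ => trivial

/-! ### Correspondences on one factor -/

/-- `a ↦ a × Δ`. -/
noncomputable def tl (C : TheoryData.{u, v, 0} 𝒱 ℚ) [hC : IsChowProj C] (X Y : 𝒱.Obj) :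
    Cor C X →ₐ[ℚ] Cor C (X.prod Y) :=
  AlgHom.ofLinearMap
    { toFun := fun a => tens C (X := X) (Y := X) a (dg C Y)
      map_add' := fun a b => by
        exact LinearMap.congr_fun (map_add (tensL (C := C) (X := X) (Y := X)) a b) (dg C Y)
      map_smul' := fun q a => by
        exact LinearMap.congr_fun (map_smul (tensL (C := C) (X := X) (Y := X)) q a) (dg C Y) }
    (tens_dg C X Y)
    (fun a b => by
      have h := tens_comp' (C := C) (X := X) (Z := Y) b a (dg C Y) (dg C Y)
      rw [comp_dg] at h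
      exact h.symm)

/-- `b ↦ Δ × b`. -/
noncomputable def tr (C : TheoryData.{u, v, 0} 𝒱 ℚ) [hC : IsChowProj C] (X Y : 𝒱.Obj) :
    Cor C Y →ₐ[ℚ] Cor C (X.prod Y) :=
  AlgHom.ofLinearMap
    { toFun := fun b => tens C (dg C X) b
      map_add' := fun a b => map_add (tensL (C := C) (X := X) (Y := X) (dg C X)) a b
      map_smul' := fun q a => map_smul (tensL (C := C) (X := X) (Y := X) (dg C X)) q a }
    (tens_dg C X Y)
    (fun a b => by
      have h := tens_comp' (C := C) (X := X) (Z := Y) (dg C X) (dg C X) b a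
      rw [comp_dg] at h
      exact h.symm)

lemma tl_apply (a : Cor C X) : tl C X Y a = tens C (X := X) (Y := X) a (dg C Y) := rfl

lemma tr_apply (b : Cor C Y) : tr C X Y b = tens C (dg C X) b := rfl

lemma comp_tens_left (a : C.A (X.prod X)) (b : C.A (Y.prod Y)) :
    C.comp (tens C (dg C X) b) (tens C a (dg C Y)) = tens C a b := by
  rw [tens_comp', dg_comp, comp_dg]

lemma comp_tens_right (a : C.A (X.prod X)) (b : C.A (Y.prod Y)) :
    C.comp (tens C a (dg C Y)) (tens C (dg C X) b) = tens C a b := by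
  rw [tens_comp', dg_comp, comp_dg]

lemma tl_tr (a : Cor C X) (b : Cor C Y) : tl C X Y a * tr C X Y b = tr C X Y b * tl C X Y a :=
  (comp_tens_left (C := C) (X := X) (Y := Y) a b).trans
    (comp_tens_right (C := C) (X := X) (Y := Y) a b).symm

/-- The self-correspondence `a` of the factor number `i` of the power. -/
noncomputable def inj (C : TheoryData.{u, v, 0} 𝒱 ℚ) [hC : IsChowProj C] (X : 𝒱.Obj) :
    (n : ℕ) → Fin (n + 1) → (Cor C X →ₐ[ℚ] Cor C (pw X n))
  | 0 => fun _ => AlgHom.id ℚ _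
  | n + 1 => Fin.lastCases (tr C (pw X n) X) (fun i => (tl C (pw X n) X).comp (inj C X n i))

lemma inj_last (n : ℕ) : inj C X (n + 1) (Fin.last (n + 1)) = tr C (pw X n) X := by
  rw [inj]
  exact Fin.lastCases_last

lemma inj_castSucc (n : ℕ) (i : Fin (n + 1)) :
    inj C X (n + 1) i.castSucc = (tl C (pw X n) X).comp (inj C X n i) := by
  rw [inj]
  exact Fin.lastCases_castSucc _

lemma inj_last_apply (n : ℕ) (a : Cor C X) :
    inj C X (n + 1) (Fin.last (n + 1)) a = tr C (pw X n) X a := by rw [inj_last]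

lemma inj_castSucc_apply (n : ℕ) (i : Fin (n + 1)) (a : Cor C X) :
    inj C X (n + 1) i.castSucc a = tl C (pw X n) X (inj C X n i a) := by
  rw [inj_castSucc]; rfl

/-- The family which is `a` in the place `i` and the diagonal in the other places. -/
noncomputable def single {n : ℕ} (i : Fin (n + 1)) (a : C.A (X.prod X)) :
    Fin (n + 1) → C.A (X.prod X) := fun j => if j = i then a else dg C X

lemma T_single_last (n : ℕ) (a : C.A (X.prod X)) :
    T (C := C) (n + 1) (single (C := C) (Fin.last (n + 1)) a) = tens C (dg C (pw X n)) a := by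
  rw [T_succ]
  have h1 : (fun i : Fin (n + 1) => single (C := C) (Fin.last (n + 1)) a i.castSucc) =
      fun _ => dg C X := by
    funext j
    rw [single, if_neg (Fin.castSucc_lt_last j).ne]
  rw [h1, T_dg, single, if_pos rfl]

lemma T_single_castSucc (n : ℕ) (i : Fin (n + 1)) (a : C.A (X.prod X)) :
    T (C := C) (n + 1) (single (C := C) i.castSucc a) =
      tens C (T (C := C) n (single (C := C) i a)) (dg C X) := by
  rw [T_succ]
  have h1 : (fun j : Fin (n + 1) => single (C := C) i.castSucc a j.castSucc) =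
      single (C := C) i a := by
    funext j
    simp only [single, Fin.castSucc_inj]
  rw [h1, single, if_neg (Fin.castSucc_lt_last i).ne']

lemma T_single_zero (a : C.A (X.prod X)) : T (C := C) 0 (single (C := C) 0 a) = a := by
  rw [T_zero, single, if_pos rfl]

lemma inj_eq_T : ∀ (n : ℕ) (i : Fin (n + 1)) (a : Cor C X),
    inj C X n i a = T (C := C) n (single (C := C) (X := X) i a)
  | 0, i, a => by
    obtain rfl : i = 0 := Fin.fin_one_eq_zero i
    exact (T_single_zero (C := C) (X := X) a).symm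
  | n + 1, i, a => by
    induction i using Fin.lastCases with
    | last =>
      exact (inj_last_apply n a).trans (T_single_last (C := C) (X := X) n a).symm
    | cast i =>
      have h1 := T_single_castSucc (C := C) (X := X) n i a
      rw [← inj_eq_T n i a] at h1
      exact (inj_castSucc_apply n i a).trans h1.symm

lemma inj_comm : ∀ (n : ℕ) (i j : Fin (n + 1)) (_ : i ≠ j) (a b : Cor C X),
    inj C X n i a * inj C X n j b = inj C X n j b * inj C X n i a
  | 0, i, j, hij, _, _ => absurd (Subsingleton.elim (α := Fin 1) i j) hij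
  | n + 1, i, j, hij, a, b => by
    induction i using Fin.lastCases with
    | last =>
      induction j using Fin.lastCases with
      | last => exact absurd rfl hij
      | cast j =>
        rw [inj_last_apply, inj_castSucc_apply]
        exact (tl_tr (C := C) (X := pw X n) (Y := X) (inj C X n j b) a).symm
    | cast i =>
      induction j using Fin.lastCases with
      | last =>
        rw [inj_last_apply, inj_castSucc_apply]
        exact tl_tr (C := C) (X := pw X n) (Y := X) (inj C X n i a) b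
      | cast j =>
        rw [inj_castSucc_apply, inj_castSucc_apply, ← map_mul,
          inj_comm n i j (fun h => hij (by rw [h])), map_mul]

/-- The permutations of the factors, as correspondences. -/
noncomputable def perm (C : TheoryData.{u, v, 0} 𝒱 ℚ) [hC : IsChowProj C] (X : 𝒱.Obj) (n : ℕ) :
    Equiv.Perm (Fin (n + 1)) →* Cor C (pw X n) where
  toFun σ := C.graph (pm X σ⁻¹)
  map_one' := by
    rw [inv_one, pm_one]
    rfl
  map_mul' σ τ := by
    rw [mul_inv_rev, ← pm_mul]
    exact (graph_graph _ _).symm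

lemma conj_T (n : ℕ) (σ : Equiv.Perm (Fin (n + 1))) (i : Fin (n + 1)) (a : C.A (X.prod X)) :
    C.comp (C.comp (C.graph (pm X σ)) (T (C := C) n (single (C := C) i a))) (C.graph (pm X σ⁻¹)) =
      T (C := C) n (single (C := C) (σ i) a) := by
  rw [conj_graph (C := C) (pm X σ) (pm X σ⁻¹)
      (by rw [pm_mul, mul_inv_cancel, pm_one]) (by rw [pm_mul, inv_mul_cancel, pm_one]), T_perm]
  congr 1
  funext j
  simp only [Function.comp_apply, single, Equiv.symm_apply_eq]

lemma perm_conj' (n : ℕ) (σ : Equiv.Perm (Fin (n + 1))) (i : Fin (n + 1)) (a : Cor C X) :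
    perm C X n σ * (inj C X n i a * perm C X n σ⁻¹) = inj C X n (σ i) a := by
  have h1 := conj_T (C := C) (X := X) n σ i a
  rw [← inj_eq_T n (σ i) a, ← inj_eq_T n i a] at h1
  have h2 : pm X (σ⁻¹)⁻¹ = pm X σ := by rw [inv_inv]
  rw [← h2] at h1
  exact h1

lemma perm_conj (n : ℕ) (σ : Equiv.Perm (Fin (n + 1))) (i : Fin (n + 1)) (a : Cor C X) :
    perm C X n σ * inj C X n i a = inj C X n (σ i) a * perm C X n σ := by
  rw [← perm_conj', mul_assoc, mul_assoc, ← map_mul, inv_mul_cancel, map_one, mul_one]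

/-! ### Degrees -/

lemma pw_dim : ∀ n : ℕ, (pw X n).dim = (n + 1) * X.dim
  | 0 => by simp
  | n + 1 => by rw [dim_prod, pw_dim n]; ring

lemma tl_mem {a : Cor C X} (ha : a ∈ cor0 C X) : tl C X Y a ∈ cor0 C (X.prod Y) := by
  have h := tens_mem C (X := X) (Y := X) (Z := Y) (W := Y) ha (dg_mem C Y)
  have e1 : (X.dim : ℤ) + Y.dim = (X.prod Y).dim := by rw [dim_prod]; push_cast; ring
  rw [e1] at h
  exact h

lemma tr_mem {b : Cor C Y} (hb : b ∈ cor0 C Y) : tr C X Y b ∈ cor0 C (X.prod Y) := by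
  have h := tens_mem C (X := X) (Y := X) (Z := Y) (W := Y) (dg_mem C X) hb
  have e1 : (X.dim : ℤ) + Y.dim = (X.prod Y).dim := by rw [dim_prod]; push_cast; ring
  rw [e1] at h
  exact h

lemma inj_mem : ∀ (n : ℕ) (i : Fin (n + 1)) {a : Cor C X} (_ : a ∈ cor0 C X),
    inj C X n i a ∈ cor0 C (pw X n)
  | 0, _, _, ha => ha
  | n + 1, i, a, ha => by
    induction i using Fin.lastCases with
    | last => rw [inj_last_apply]; exact tr_mem ha
    | cast i => rw [inj_castSucc_apply]; exact tl_mem (inj_mem n i ha)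

lemma graph_mem (f : X ⟶ X) : C.graph f ∈ C.gr (X.prod X) X.dim := by
  have h := C.push_mem (Obj.lift (𝟙 X) f) (C.one_mem X)
  have e1 : (0 : ℤ) + 1 * (((X.prod X).dim : ℤ) - (X.dim : ℤ)) = X.dim := by
    rw [dim_prod]; push_cast; ring
  rwa [e1] at h

lemma perm_mem (n : ℕ) (σ : Equiv.Perm (Fin (n + 1))) : perm C X n σ ∈ cor0 C (pw X n) :=
  graph_mem _

/-- The self-correspondences of degree zero of the factor number `i`. -/
noncomputable def inj0 (C : TheoryData.{u, v, 0} 𝒱 ℚ) [hC : IsChowProj C] (X : 𝒱.Obj) (n : ℕ)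
    (i : Fin (n + 1)) : cor0 C X →ₐ[ℚ] cor0 C (pw X n) :=
  ((inj C X n i).comp (cor0 C X).val).codRestrict (cor0 C (pw X n)) fun a => inj_mem n i a.2

lemma inj0_coe (n : ℕ) (i : Fin (n + 1)) (a : cor0 C X) :
    (inj0 C X n i a : Cor C (pw X n)) = inj C X n i a := rfl

/-- The permutations of the factors, as correspondences of degree zero. -/
noncomputable def perm0 (C : TheoryData.{u, v, 0} 𝒱 ℚ) [hC : IsChowProj C] (X : 𝒱.Obj) (n : ℕ) :
    Equiv.Perm (Fin (n + 1)) →* cor0 C (pw X n) where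
  toFun σ := ⟨perm C X n σ, perm_mem n σ⟩
  map_one' := Subtype.ext (map_one (perm C X n))
  map_mul' σ τ := Subtype.ext (map_mul (perm C X n) σ τ)

lemma inj0_comm (n : ℕ) (i j : Fin (n + 1)) (hij : i ≠ j) (a b : cor0 C X) :
    inj0 C X n i a * inj0 C X n j b = inj0 C X n j b * inj0 C X n i a :=
  Subtype.ext (inj_comm (C := C) (X := X) n i j hij (a : Cor C X) (b : Cor C X))

lemma perm0_conj (n : ℕ) (σ : Equiv.Perm (Fin (n + 1))) (i : Fin (n + 1)) (a : cor0 C X) :
    perm0 C X n σ * inj0 C X n i a = inj0 C X n (σ i) a * perm0 C X n σ :=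
  Subtype.ext (perm_conj (C := C) (X := X) n σ i (a : Cor C X))

end chow

section weil

variable {C : TheoryData.{u, v, 0} 𝒱 ℚ} [hC : IsChowProj C] {K : Type w} [Field K]
  (H : WeilTheoryData.{u, v, w} C K) [hH : IsWeilProj H] {X Y Z W : 𝒱.Obj}

include hC hH

lemma cl_tens_left {a : C.A (X.prod X)} (ha : H.cl a = 0) (b : C.A (Y.prod Y)) :
    H.cl (tens C a b) = 0 := by
  have h1 := cl_tens H a b
  rw [ha] at h1
  rw [h1]
  unfold tens
  rw [map_zero, zero_mul]

lemma cl_tens_right (a : C.A (X.prod X)) {b : C.A (Y.prod Y)} (hb : H.cl b = 0) :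
    H.cl (tens C a b) = 0 := by
  have h1 := cl_tens H a b
  rw [hb] at h1
  rw [h1]
  unfold tens
  rw [map_zero, mul_zero]

lemma cl_tl {a : Cor C X} (ha : H.cl (X := X.prod X) a = 0) :
    H.cl (X := (X.prod Y).prod (X.prod Y)) (tl C X Y a) = 0 :=
  cl_tens_left H (X := X) (Y := Y) (a := a) ha (dg C Y)

lemma cl_tr {b : Cor C Y} (hb : H.cl (X := Y.prod Y) b = 0) :
    H.cl (X := (X.prod Y).prod (X.prod Y)) (tr C X Y b) = 0 :=
  cl_tens_right H (X := X) (Y := Y) (dg C X) (b := b) hb

lemma cl_inj : ∀ (n : ℕ) (i : Fin (n + 1)) {a : Cor C X} (_ : H.cl (X := X.prod X) a = 0),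
    H.cl (X := (pw X n).prod (pw X n)) (inj C X n i a) = 0
  | 0, _, _, ha => ha
  | n + 1, i, a, ha => by
    induction i using Fin.lastCases with
    | last => rw [inj_last_apply]; exact cl_tr H ha
    | cast i => rw [inj_castSucc_apply]; exact cl_tl H (cl_inj n i ha)

omit hC hH in
/-- `a` acts on `H^m(X)` as multiplication by `m`. -/
def DegOp (a : C.A (X.prod X)) : Prop :=
  ∀ (m : ℤ) (x : H.A X), x ∈ H.gr X m → H.act (H.cl a) x = (m : K) • x

lemma degOp_tens {a : C.A (X.prod X)} {b : C.A (Y.prod Y)} (ha : DegOp H a) (hb : DegOp H b) :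
    DegOp H (tens C a (dg C Y) + tens C (dg C X) b) := by
  intro m c hc
  have h1 := H.kunneth X Y m hc
  clear hc
  rw [map_add, H.act_add]
  induction h1 using Submodule.span_induction with
  | mem x hx =>
    obtain ⟨l, y, z, hy, hz, rfl⟩ := hx
    have e1 : H.pull (fst X Y) y * H.pull (snd X Y) z = H.ext y z := rfl
    rw [e1, actH_tens_ext, actH_tens_ext, actH_dg, actH_dg, ha l y hy, hb (m - l) z hz]
    have e2 : H.ext ((l : K) • y) z = (l : K) • H.ext y z := by
      rw [TheoryData.ext, TheoryData.ext, map_smul, smul_mul_assoc]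
    have e3 : H.ext y (((m - l : ℤ) : K) • z) = ((m - l : ℤ) : K) • H.ext y z := by
      rw [TheoryData.ext, TheoryData.ext, map_smul, mul_smul_comm]
    rw [e2, e3, ← add_smul]
    congr 1
    push_cast
    ring
  | zero => rw [TheoryData.act_map_zero, TheoryData.act_map_zero, smul_zero, add_zero]
  | add x y _ _ hx hy =>
    rw [act_map_add, act_map_add, smul_add, ← hx, ← hy]
    abel
  | smul r x _ hx =>
    rw [act_map_smul, act_map_smul, ← smul_add, hx, smul_comm]

lemma degOp_tl_tr {a : Cor C X} {b : Cor C Y} (ha : DegOp H (X := X) a) (hb : DegOp H (X := Y) b) :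
    DegOp H (X := X.prod Y) (tl C X Y a + tr C X Y b : Cor C (X.prod Y)) :=
  degOp_tens H (X := X) (Y := Y) ha hb

lemma degOp_sum : ∀ (n : ℕ) (γ : Fin (n + 1) → Cor C X) (_ : ∀ i, DegOp H (X := X) (γ i)),
    DegOp H (X := pw X n) (∑ i, inj C X n i (γ i) : Cor C (pw X n))
  | 0, γ, h => by
    rw [Fin.sum_univ_one]
    exact h 0
  | n + 1, γ, h => by
    have h2 : ∀ i : Fin (n + 1), inj C X (n + 1) i.castSucc (γ i.castSucc) =
        tl C (pw X n) X (inj C X n i (γ i.castSucc)) := fun i => inj_castSucc_apply n i _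
    have h3 : (∑ i, inj C X (n + 1) i (γ i) : Cor C (pw X (n + 1))) =
        (tl C (pw X n) X (∑ i : Fin (n + 1), inj C X n i (γ i.castSucc)) +
          tr C (pw X n) X (γ (Fin.last (n + 1))) : Cor C ((pw X n).prod X)) := by
      rw [Fin.sum_univ_castSucc, Finset.sum_congr rfl fun i _ => h2 i, inj_last_apply,
        map_sum (tl C (pw X n) X)]
    rw [h3]
    exact degOp_tl_tr H (degOp_sum n (fun i => γ i.castSucc) fun i => h _) (h _)

end weil

end Pool.Agent.H838.CF
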