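import Pool.Agent.H838.CFAlg

/-!
# Specialization of the coefficients to a number field
-/

set_option autoImplicit false

universe t

namespace Pool.Agent.H838.CF

open TensorProduct

section lift

variable {F : Type t} [Field F] [Algebra ℚ F] {M : Type*} [AddCommGroup M] [Module ℚ M]

/-- An element of `F ⊗ M` is defined over a finitely generated subalgebra of `F`. -/
lemma exists_finset (y : F ⊗[ℚ] M) : ∃ S : Finset F, ∀ R : Subalgebra ℚ F, (S : Set F) ⊆ R →
    ∃ x : R ⊗[ℚ] M, bm M R.val x = y := by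
  classical
  induction y with
  | zero => exact ⟨∅, fun R _ => ⟨0, map_zero _⟩⟩
  | tmul a m =>
    refine ⟨{a}, fun R hR => ⟨(⟨a, hR (by simp)⟩ : R) ⊗ₜ m, ?_⟩⟩
    rw [bm_tmul]
    rfl
  | add y z hy hz =>
    obtain ⟨S, hS⟩ := hy
    obtain ⟨T, hT⟩ := hz
    refine ⟨S ∪ T, fun R hR => ?_⟩
    rw [Finset.coe_union, Set.union_subset_iff] at hR
    obtain ⟨x, hx⟩ := hS R hR.1
    obtain ⟨x', hx'⟩ := hT R hR.2
    exact ⟨x + x', by rw [map_add, hx, hx']⟩

lemma repr_bm {G E : Type*} [CommRing G] [Algebra ℚ G] [CommRing E] [Algebra ℚ E] {ι : Type*}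
    (b : Module.Basis ι ℚ M) (φ : G →ₐ[ℚ] E) (x : G ⊗[ℚ] M) (i : ι) :
    (b.baseChange E).repr (bm M φ x) i = φ ((b.baseChange G).repr x i) := by
  induction x with
  | zero => simp
  | tmul x a =>
    rw [bm_tmul]
    simp [Module.Basis.baseChange_repr_tmul]
  | add x y hx hy =>
    rw [map_add, map_add, Finsupp.add_apply, hx, hy, map_add, Finsupp.add_apply, map_add]

end lift

/-- **Specialization.** -/
theorem exists_spec {F : Type t} [Field F] [Algebra ℚ F] {A M : Type*} [Ring A] [Algebra ℚ A]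
    [AddCommGroup M] [Module ℚ M] {ι : Type*} [Finite ι] (N : Submodule ℚ A) (p : ι → F ⊗[ℚ] A)
    (q : ι → A) (hN : ∀ i, p i - 1 ⊗ₜ q i ∈ N.baseChange F) (z : F ⊗[ℚ] M) (hz : z ≠ 0) :
    ∃ (R : Subalgebra ℚ F) (E : Type t) (_ : Field E) (_ : Algebra ℚ E)
      (_ : FiniteDimensional ℚ E) (φ : R →ₐ[ℚ] E) (p' : ι → R ⊗[ℚ] A) (z' : R ⊗[ℚ] M),
        (∀ i, bc A R.val (p' i) = p i) ∧ bm M R.val z' = z ∧
          (∀ i, p' i - 1 ⊗ₜ q i ∈ N.baseChange R) ∧ bm M φ z' ≠ 0 := by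
  classical
  have : Fintype ι := Fintype.ofFinite ι
  choose n hn using hN
  choose Sp hSp using fun i => exists_finset (p i)
  choose Sn hSn using fun i => exists_finset (n i)
  obtain ⟨Sz, hSz⟩ := exists_finset z
  -- a coordinate of `z` which is not zero
  let b := Module.Basis.ofVectorSpace ℚ M
  have hc : (b.baseChange F).repr z ≠ 0 := by
    intro h
    exact hz ((LinearEquiv.map_eq_zero_iff _).1 h)
  obtain ⟨l, hl⟩ := Finsupp.ne_iff.1 hc
  rw [Finsupp.zero_apply] at hl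
  let r₀ := (b.baseChange F).repr z l
  let S : Finset F := (Finset.univ.biUnion Sp) ∪ (Finset.univ.biUnion Sn) ∪ Sz ∪ {r₀⁻¹}
  let R : Subalgebra ℚ F := Algebra.adjoin ℚ (S : Set F)
  have hS : (S : Set F) ⊆ R := Algebra.subset_adjoin
  have h1 : ∀ i, (Sp i : Set F) ⊆ R := fun i a ha => hS (by
    simp only [S, Finset.coe_union, Finset.coe_biUnion, Set.mem_union, Set.mem_iUnion]
    exact Or.inl (Or.inl (Or.inl ⟨i, by simp, ha⟩)))
  have h2 : ∀ i, (Sn i : Set F) ⊆ R := fun i a ha => hS (by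
    simp only [S, Finset.coe_union, Finset.coe_biUnion, Set.mem_union, Set.mem_iUnion]
    exact Or.inl (Or.inl (Or.inr ⟨i, by simp, ha⟩)))
  have h3 : (Sz : Set F) ⊆ R := fun a ha => hS (by
    simp only [S, Finset.coe_union, Finset.coe_biUnion, Set.mem_union, Set.mem_iUnion]
    exact Or.inl (Or.inr ha))
  have h4 : r₀⁻¹ ∈ R := hS (by simp [S])
  choose p' hp' using fun i => hSp i R (h1 i)
  choose n' hn' using fun i => hSn i R (h2 i)
  obtain ⟨z', hz'⟩ := hSz R h3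
  have hval : Function.Injective (R.val) := Subtype.val_injective
  have hft : Algebra.FiniteType ℚ R := (Subalgebra.fg_iff_finiteType R).1 ⟨S, rfl⟩
  obtain ⟨𝔪, h𝔪⟩ := Ideal.exists_maximal R
  let iE : Field (R ⧸ 𝔪) := Ideal.Quotient.field 𝔪
  have hfE : Algebra.FiniteType ℚ (R ⧸ 𝔪) :=
    hft.of_surjective (Ideal.Quotient.mkₐ ℚ 𝔪) (Ideal.Quotient.mkₐ_surjective ℚ 𝔪)
  have hE : Module.Finite ℚ (R ⧸ 𝔪) := finite_of_finite_type_of_isJacobsonRing ℚ (R ⧸ 𝔪)
  refine ⟨R, R ⧸ 𝔪, iE, inferInstance, hE, Ideal.Quotient.mkₐ ℚ 𝔪, p', z', fun i => ?_, hz',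
    fun i => ?_, ?_⟩
  · rw [bc_eq_bm]; exact hp' i
  · have h5 : p' i - 1 ⊗ₜ q i = (N.subtype.baseChange R) (n' i) := by
      apply bm_injective R.val hval
      rw [map_sub, hp' i, bm_tmul, map_one, ← hn i, ← hn' i]
      exact (bm_lTensor R.val N.subtype (n' i)).symm
    rw [h5]
    exact ⟨n' i, rfl⟩
  · intro h
    have h5 := repr_bm b (Ideal.Quotient.mkₐ ℚ 𝔪) z' l
    rw [h, map_zero, Finsupp.zero_apply] at h5
    have h6 : R.val ((b.baseChange R).repr z' l) = r₀ := by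
      rw [← repr_bm b R.val z' l, hz']
    have h7 : (b.baseChange R).repr z' l * ⟨r₀⁻¹, h4⟩ = 1 := by
      apply hval
      rw [map_mul, h6, map_one]
      exact mul_inv_cancel₀ hl
    have h8 := congrArg (Ideal.Quotient.mkₐ ℚ 𝔪) h7
    rw [map_mul, ← h5, zero_mul, map_one] at h8
    exact zero_ne_one h8

end Pool.Agent.H838.CF
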