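import Pool.Graph.R_seed8.TH133.Defs

/-!
# Chow-Kunneth decompositions with coefficients in a field: the definitions used in the statements
-/

set_option autoImplicit false

open CategoryTheory AlgebraicGeometry

universe u v w t

namespace Pool.Agent.H838.CF

open TensorProduct Pool.Agent.H914 Pool.Agent.H914.VarClass Pool.Agent.H914.VarClass.Obj
  Pool.Agent.W492.BB Pool.Agent.W550.Corr Pool.Agent.TH133

variable {k : Type u} [Field k] {𝒱 : VarClass k}

/-- The power of `X` with `n + 1` factors. -/
@[reducible] noncomputable def pw (X : 𝒱.Obj) : ℕ → 𝒱.Obj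
  | 0 => X
  | n + 1 => (pw X n).prod X

variable (F : Type t) [Field F] [Algebra ℚ F]

/-- The Chow groups `F ⊗ CH(X)` with coefficients in `F`, with the extended intersection product,
pull-backs and push-forwards. -/
noncomputable def ChF (C : TheoryData.{u, v, 0} 𝒱 ℚ) : TheoryData.{u, max t v, t} 𝒱 F where
  A X := F ⊗[ℚ] C.A X
  gr X i := (C.gr X i).baseChange F
  pull f := Algebra.TensorProduct.map (AlgHom.id F F) (C.pull f)
  push f := (C.push f).baseChange F

variable {C : TheoryData.{u, v, 0} 𝒱 ℚ} {X : 𝒱.Obj}

/-- The cycle `a` with rational coefficients, considered with coefficients in `F`. -/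
noncomputable def rat (a : C.A X) : (ChF F C).A X := (1 : F) ⊗ₜ[ℚ] a

variable (X) {K : Type w} [Field K] (H : WeilTheoryData.{u, v, w} C K)

/-- The homologically trivial cycles of codimension `i` with coefficients in `F`. -/
noncomputable def homF (i : ℤ) : Submodule F ((ChF F C).A X) :=
  Submodule.span F {y | ∃ a : C.A X, C.Deg i a ∧ H.cl a = 0 ∧ y = rat F a}

/-- The self-correspondence `q` induces the `i`-th Kunneth projector: it acts as the identity on
`H^i(X)` and as zero on `H^m(X)`, `m ≠ i`. -/
def IsProj (i : ℕ) (q : C.A (X.prod X)) : Prop :=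
  ∀ (m : ℤ) (a : H.A X), H.Deg m a → H.act (H.cl q) a = if m = i then a else 0

/-- A Chow-Kunneth decomposition of `X` with coefficients in the field `F`: self-correspondences
`p 0, …, p (2 dim X)` of degree zero with coefficients in `F` (`p i = 0` for `i > 2 dim X`) which are
mutually orthogonal idempotents with sum the diagonal, such that `p i` is the `i`-th Kunneth
projector modulo the homologically trivial correspondences with coefficients in `F`. -/
structure CKF (p : ℕ → (ChF F C).A (X.prod X)) : Prop where
  deg : ∀ i, (ChF F C).Deg X.dim (p i)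
  out : ∀ i, 2 * X.dim < i → p i = 0
  idem : ∀ i, (ChF F C).comp (p i) (p i) = p i
  orth : ∀ i j, i ≠ j → (ChF F C).comp (p i) (p j) = 0
  sum : ∑ i ∈ Finset.range (2 * X.dim + 1), p i = dg (ChF F C) X
  act : ∀ i, ∃ q : C.A (X.prod X), C.Deg X.dim q ∧ IsProj X H i q ∧
    p i - rat F q ∈ homF F (X.prod X) H X.dim

/-- The first half of Murre's conjecture (B) for `X` and all its Chow-Kunneth decompositions with
coefficients in `F`: `p j` acts as zero on `F ⊗ CH^i(X)` for `j > 2 i`. -/
def B0F : Prop := ∀ p, CKF F X H p → ∀ (i j : ℕ) (x : (ChF F C).A X), (ChF F C).Deg i x →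
  2 * i < j → (ChF F C).act (p j) x = 0

/-- The second half of Murre's conjecture (B) for `X` and all its Chow-Kunneth decompositions with
coefficients in `F`: `p j` acts as zero on `F ⊗ CH^i(X)` for `j < i`. -/
def B1F : Prop := ∀ p, CKF F X H p → ∀ (i j : ℕ) (x : (ChF F C).A X), (ChF F C).Deg i x →
  j < i → (ChF F C).act (p j) x = 0

end Pool.Agent.H838.CF
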