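import Pool.Agent.H838.CFAct

/-!
# The transfer of vanishing from the power with rational coefficients to the variety with
coefficients in a number field
-/

set_option autoImplicit false
set_option linter.unusedSectionVars false

open CategoryTheory AlgebraicGeometry

universe u v w

namespace Pool.Agent.H838.CF

open TensorProduct Polynomial
open Pool.Agent.H914 Pool.Agent.H914.VarClass Pool.Agent.H914.VarClass.Obj Pool.Agent.W492.BB
  Pool.Agent.W550.Corr Pool.Agent.TH133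

lemma aeval_intertwine {R M N : Type*} [CommRing R] [Algebra ℚ R] [AddCommGroup M] [Module R M]
    [AddCommGroup N] [Module R N] [Module ℚ M] [Module ℚ N] [IsScalarTower ℚ R M]
    [IsScalarTower ℚ R N] [SMulCommClass ℚ R M] [SMulCommClass ℚ R N]
    {f : Module.End R N} {g : Module.End R M} {e : M →ₗ[R] N}
    (h : ∀ y, f (e y) = e (g y)) (P : ℚ[X]) (y : M) : aeval f P (e y) = e (aeval g P y) := by
  have hp : ∀ (m : ℕ) (y : M), (f ^ m) (e y) = e ((g ^ m) y) := by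
    intro m
    induction m with
    | zero => intro y; rw [pow_zero, pow_zero]; rfl
    | succ m ih =>
      intro y
      rw [pow_succ, pow_succ, Module.End.mul_apply, Module.End.mul_apply, h, ih]
  induction P using Polynomial.induction_on' with
  | add P Q hP hQ => rw [map_add, map_add, LinearMap.add_apply, LinearMap.add_apply, hP, hQ, map_add]
  | monomial m c =>
    rw [aeval_monomial, aeval_monomial, Module.End.mul_apply, Module.End.mul_apply, hp,
      Module.algebraMap_end_apply, Module.algebraMap_end_apply, ← algebraMap_smul R c,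
      ← algebraMap_smul R c ((g ^ m) y), map_smul]

variable {k : Type u} [Field k] {𝒱 : VarClass k}

section chow

variable {C : TheoryData.{u, v, 0} 𝒱 ℚ} [hC : IsChowProj C] {X : 𝒱.Obj}
  {F L : Type*} [Field F] [Algebra ℚ F] [Field L] [Algebra ℚ L]

include hC

lemma actS_tw (n : ℕ) (j : Fin (n + 1)) (Φ : Fin (n + 1) → (F →ₐ[ℚ] L)) {Γ : F ⊗[ℚ] cor0 C X}
    (hΓ : actS F (alp C X) Γ (1 ⊗ₜ 1) = 0) (y : L ⊗[ℚ] C.A X) :
    actS L (alp C (pw X n)) (tw (inj0 C X n) Φ Γ) ((pb C X n j).lTensor L y) =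
      (pb C X n j).lTensor L (actS L (alp C X) (bc _ (Φ j) Γ) y) := by
  induction y with
  | zero => rw [map_zero, map_zero, map_zero, map_zero]
  | tmul s x =>
    rw [tw, map_sum, LinearMap.sum_apply, Finset.sum_eq_single j]
    · rw [actS_self]
    · intro i _ hij
      rw [actS_ne n hij]
      have h1 : actS L (alp C X) (bc _ (Φ i) Γ) (1 ⊗ₜ 1) = 0 := by
        have h2 := bm_actS (Φ i) (alp C X) Γ (1 ⊗ₜ 1)
        rw [hΓ, map_zero, bm_tmul, map_one] at h2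
        exact h2.symm
      rw [h1, map_zero, smul_zero]
    · intro h
      exact absurd (Finset.mem_univ j) h
  | add y z hy hz => rw [map_add, map_add, map_add, map_add, hy, hz]

/-- The subspace `V` of the cycles is stable under the self-correspondences of degree zero. -/
def Stb (C : TheoryData.{u, v, 0} 𝒱 ℚ) [hC : IsChowProj C] {Y : 𝒱.Obj}
    (V : Submodule ℚ (C.A Y)) : Prop := ∀ (a : cor0 C Y), ∀ v ∈ V, alp C Y a v ∈ V

/-- **Transfer.** -/
theorem transfer (n : ℕ) (j : Fin (n + 1)) (Φ : Fin (n + 1) → (F →ₐ[ℚ] L))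
    {g g' : L ⊗[ℚ] cor0 C (pw X n)} (h1 : g * g' = 1) (h2 : g' * g = 1)
    {Γ₁ Γ₂ : F ⊗[ℚ] cor0 C X} (hΓ₁ : actS F (alp C X) Γ₁ (1 ⊗ₜ 1) = 0)
    (hΓ₂ : actS F (alp C X) Γ₂ (1 ⊗ₜ 1) = 0) {D₁ D₂ : cor0 C (pw X n)}
    (hD₁ : g * tw (inj0 C X n) Φ Γ₁ * g' = 1 ⊗ₜ D₁)
    (hD₂ : g * tw (inj0 C X n) Φ Γ₂ * g' = 1 ⊗ₜ D₂) (P₁ P₂ : ℚ[X])
    {V : Submodule ℚ (C.A (pw X n))} (hV : Stb C V)
    (hkill : ∀ v ∈ V, alp C (pw X n) (aeval D₂ P₂ * aeval D₁ P₁) v = 0) {x : C.A X}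
    (hx : pb C X n j x ∈ V) : actS F (alp C X) (aeval Γ₂ P₂ * aeval Γ₁ P₁) (1 ⊗ₜ x) = 0 := by
  have haev : ∀ (D : cor0 C (pw X n)) (P : ℚ[X]),
      aeval (1 ⊗ₜ D : L ⊗[ℚ] cor0 C (pw X n)) P = 1 ⊗ₜ aeval D P := fun D P =>
    Polynomial.aeval_algHom_apply
      (Algebra.TensorProduct.includeRight : cor0 C (pw X n) →ₐ[ℚ] L ⊗[ℚ] cor0 C (pw X n)) D P
  have h3 : (1 ⊗ₜ (aeval D₂ P₂ * aeval D₁ P₁) : L ⊗[ℚ] cor0 C (pw X n)) =
      g * (aeval (tw (inj0 C X n) Φ Γ₂) P₂ * aeval (tw (inj0 C X n) Φ Γ₁) P₁) * g' := by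
    have e1 : (1 ⊗ₜ (aeval D₂ P₂ * aeval D₁ P₁) : L ⊗[ℚ] cor0 C (pw X n)) =
        (1 ⊗ₜ aeval D₂ P₂) * (1 ⊗ₜ aeval D₁ P₁) := by
      rw [Algebra.TensorProduct.tmul_mul_tmul, one_mul]
    rw [e1, ← haev, ← haev, ← hD₁, ← hD₂, aeval_conj h2 h1, aeval_conj h2 h1]
    calc _ = g * aeval (tw (inj0 C X n) Φ Γ₂) P₂ * (g' * g) *
          aeval (tw (inj0 C X n) Φ Γ₁) P₁ * g' := by simp only [mul_assoc]
      _ = _ := by rw [h2, mul_one]; simp only [mul_assoc]
  have h4 : aeval (tw (inj0 C X n) Φ Γ₂) P₂ * aeval (tw (inj0 C X n) Φ Γ₁) P₁ =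
      g' * (1 ⊗ₜ (aeval D₂ P₂ * aeval D₁ P₁)) * g := by
    rw [h3]
    calc _ = (g' * g) * (aeval (tw (inj0 C X n) Φ Γ₂) P₂ *
          aeval (tw (inj0 C X n) Φ Γ₁) P₁) * (g' * g) := by rw [h2, one_mul, mul_one]
      _ = _ := by simp only [mul_assoc]
  have h5 : actS L (alp C (pw X n))
      (aeval (tw (inj0 C X n) Φ Γ₂) P₂ * aeval (tw (inj0 C X n) Φ Γ₁) P₁)
        ((pb C X n j).lTensor L (1 ⊗ₜ x)) = 0 := by
    rw [h4, map_mul, map_mul, Module.End.mul_apply, Module.End.mul_apply]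
    have h6 : actS L (alp C (pw X n)) g ((pb C X n j).lTensor L (1 ⊗ₜ x)) ∈ V.baseChange L := by
      apply actS_mem hV
      rw [LinearMap.lTensor_tmul]
      exact Submodule.tmul_mem_baseChange_of_mem _ hx
    have h7 : actS L (alp C (pw X n)) (1 ⊗ₜ (aeval D₂ P₂ * aeval D₁ P₁))
        (actS L (alp C (pw X n)) g ((pb C X n j).lTensor L (1 ⊗ₜ x))) = 0 := by
      refine actS_eq_zero (P := V) (fun m hm => ?_) h6
      rw [actS_tmul, hkill m hm, TensorProduct.tmul_zero]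
    rw [h7, map_zero]
  have haS : ∀ (Δ : L ⊗[ℚ] cor0 C (pw X n)) (P : ℚ[X]), actS L (alp C (pw X n)) (aeval Δ P) =
      aeval (actS L (alp C (pw X n)) Δ) P := fun Δ P =>
    (Polynomial.aeval_algHom_apply ((actS L (alp C (pw X n))).restrictScalars ℚ) Δ P).symm
  have haS' : ∀ (Δ : L ⊗[ℚ] cor0 C X) (P : ℚ[X]), actS L (alp C X) (aeval Δ P) =
      aeval (actS L (alp C X) Δ) P := fun Δ P =>
    (Polynomial.aeval_algHom_apply ((actS L (alp C X)).restrictScalars ℚ) Δ P).symm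
  have hint : ∀ {Γ : F ⊗[ℚ] cor0 C X} (_ : actS F (alp C X) Γ (1 ⊗ₜ 1) = 0) (P : ℚ[X])
      (y : L ⊗[ℚ] C.A X), actS L (alp C (pw X n)) (aeval (tw (inj0 C X n) Φ Γ) P)
        ((pb C X n j).lTensor L y) =
          (pb C X n j).lTensor L (actS L (alp C X) (bc _ (Φ j) (aeval Γ P)) y) := by
    intro Γ hΓ P y
    have e1 : bc _ (Φ j) (aeval Γ P) = aeval (bc _ (Φ j) Γ) P :=
      (Polynomial.aeval_algHom_apply _ _ _).symm
    rw [e1, haS, haS']
    have e2 := aeval_intertwine (R := L) (e := (pb C X n j).baseChange L)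
      (f := actS L (alp C (pw X n)) (tw (inj0 C X n) Φ Γ))
      (g := actS L (alp C X) (bc _ (Φ j) Γ)) (fun y => actS_tw n j Φ hΓ y) P y
    exact e2
  rw [map_mul, Module.End.mul_apply, hint hΓ₁, hint hΓ₂] at h5
  have h8 := (lTensor_injective (L := L) (pb_injective (C := C) (X := X) n j))
    (h5.trans (map_zero _).symm)
  have h9 : bm (C.A X) (Φ j) (actS F (alp C X) (aeval Γ₂ P₂ * aeval Γ₁ P₁) (1 ⊗ₜ x)) = 0 := by
    rw [map_mul, Module.End.mul_apply, bm_actS, bm_actS, bm_tmul, map_one]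
    exact h8
  exact bm_injective (Φ j) (Φ j).injective (h9.trans (map_zero _).symm)

end chow

end Pool.Agent.H838.CF
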