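import Pool.Agent.H838.SmiMain
import Pool.Graph.R_seed8.W552.Main

/-!
# The discriminants of the lattices of numerical classes
-/

open CategoryTheory AlgebraicGeometry Finset

universe u v

namespace Pool.Agent.H838

open Pool.Agent.H914 Pool.Agent.H914.VarClass Pool.Agent.H914.VarClass.Obj
  Pool.Agent.H914.WeilCohomology

/-- A subgroup of `ℤ^r` is saturated at almost all prime numbers. -/
lemma exists_sat {ι : Type*} [Finite ι] (Λ : Submodule ℤ (ι → ℤ)) :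
    ∃ d : ℕ, 0 < d ∧ ∀ ℓ : ℕ, ℓ.Prime → ¬ ℓ ∣ d → ∀ v, (ℓ : ℤ) • v ∈ Λ → v ∈ Λ := by
  classical
  let T : Submodule ℤ (ι → ℤ) :=
    { carrier := {v | ∃ m : ℕ, 0 < m ∧ (m : ℤ) • v ∈ Λ}
      add_mem' := by
        rintro v w ⟨m, hm, hv⟩ ⟨n, hn, hw⟩
        refine ⟨m * n, Nat.mul_pos hm hn, ?_⟩
        have h1 : ((m * n : ℕ) : ℤ) • (v + w) = (n : ℤ) • ((m : ℤ) • v) + (m : ℤ) • ((n : ℤ) • w) := by
          push_cast
          module
        rw [h1]
        exact Λ.add_mem (Λ.smul_mem _ hv) (Λ.smul_mem _ hw)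
      zero_mem' := ⟨1, one_pos, by simp⟩
      smul_mem' := by
        rintro c v ⟨m, hm, hv⟩
        refine ⟨m, hm, ?_⟩
        rw [smul_comm]
        exact Λ.smul_mem _ hv }
  have hT : T.FG := IsNoetherian.noetherian T
  obtain ⟨s, hs⟩ := hT
  have hsT : ∀ v ∈ s, ∃ m : ℕ, 0 < m ∧ (m : ℤ) • v ∈ Λ := by
    intro v hv
    have : v ∈ T := by rw [← hs]; exact Submodule.subset_span hv
    exact this
  choose! m hm hmΛ using hsT
  refine ⟨∏ v ∈ s, m v, Finset.prod_pos hm, ?_⟩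
  have hd : ∀ v ∈ T, ((∏ v ∈ s, m v : ℕ) : ℤ) • v ∈ Λ := by
    intro v hv
    rw [← hs] at hv
    induction hv using Submodule.span_induction with
    | mem x hx =>
      rw [← Finset.prod_erase_mul s m hx]
      push_cast
      rw [mul_smul]
      exact Λ.smul_mem _ (hmΛ x hx)
    | zero => rw [smul_zero]; exact Λ.zero_mem
    | add x y _ _ hx hy => rw [smul_add]; exact Λ.add_mem hx hy
    | smul a x _ hx => rw [smul_comm]; exact Λ.smul_mem _ hx
  intro ℓ hℓ hdiv v hv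
  have hvT : v ∈ T := ⟨ℓ, hℓ.pos, hv⟩
  have h1 := hd v hvT
  have hcop : IsCoprime (ℓ : ℤ) ((∏ v ∈ s, m v : ℕ) : ℤ) :=
    Nat.isCoprime_iff_coprime.2 (hℓ.coprime_iff_not_dvd.2 hdiv)
  obtain ⟨a, b, hab⟩ := hcop
  have h2 : v = a • ((ℓ : ℤ) • v) + b • (((∏ v ∈ s, m v : ℕ) : ℤ) • v) := by
    rw [smul_smul, smul_smul, ← add_smul, hab, one_smul]
  rw [h2]
  exact Λ.add_mem (Λ.smul_mem _ hv) (Λ.smul_mem _ h1)

variable {k : Type u} [Field k] {𝒱 : VarClass k} {ops : CycleOps 𝒱}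
  {W : WeilCohomology.{u, v} ops} {X Y : 𝒱.Obj} {ℓ : ℕ}

/-- **The integral classes modulo numerical equivalence at almost all prime numbers.** If
homological and numerical equivalence agree on `Y`, then for almost all prime numbers `ℓ` each
integral cycle which is numerically trivial modulo `ℓ` is homologically equivalent to `ℓ` times an
integral cycle. -/
theorem exists_disc (hY : HomEqNum W Y) {p : ℕ} (hp : p ≤ Y.dim) :
    ∃ d : ℕ, 0 < d ∧ ∀ ℓ : ℕ, ℓ.Prime → ¬ ℓ ∣ d → ∀ z, IsIntegral Y z → Y.IsCyc p z →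
      (∀ w, IsIntegral Y w → Y.IsCyc (Y.dim - p) w →
        ∃ m : ℤ, Y.V.degCycle (ops.mul z w) = ℓ * m) →
      ∃ z', IsIntegral Y z' ∧ Y.IsCyc p z' ∧ W.cl Y z = (ℓ : W.K) • W.cl Y z' := by
  classical
  let C : Set (W.H Y) := {c | ∃ w, IsIntegral Y w ∧ Y.IsCyc (Y.dim - p) w ∧ W.cl Y w = c}
  obtain ⟨C₀, hC₀, hspan⟩ := Submodule.fg_span_iff_fg_span_finset_subset (R := W.K) C |>.1
    (IsNoetherian.noetherian _)
  have hC₀' : ∀ c : C₀, ∃ w, IsIntegral Y w ∧ Y.IsCyc (Y.dim - p) w ∧ W.cl Y w = c :=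
    fun c => hC₀ c.2
  choose w hw hwc hwcl using hC₀'
  let Λ : Submodule ℤ (C₀ → ℤ) :=
    { carrier := {v | ∃ z, IsIntegral Y z ∧ Y.IsCyc p z ∧
        ∀ c, (v c : W.K) = W.tr Y (W.cl Y z * W.cl Y (w c))}
      add_mem' := by
        rintro v v' ⟨z, hz, hzc, h⟩ ⟨z', hz', hzc', h'⟩
        refine ⟨z + z', hz.add hz', hzc.add hzc', fun c => ?_⟩
        rw [map_add, add_mul, map_add, ← h, ← h', Pi.add_apply, Int.cast_add]
      zero_mem' := ⟨0, isIntegral_zero, SmVar.IsCyc.zero _ _, fun c => by simp⟩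
      smul_mem' := by
        rintro a v ⟨z, hz, hzc, h⟩
        refine ⟨(a : ℚ) • z, hz.intSmul a, hzc.smul _, fun c => ?_⟩
        rw [cl_smul, smul_mul_assoc, map_smul, ← h, Pi.smul_apply, smul_eq_mul, smul_eq_mul]
        push_cast
        rfl }
  obtain ⟨d, hd, hsat⟩ := exists_sat Λ
  refine ⟨d, hd, fun ℓ hℓ hdiv z hz hzc hnum => ?_⟩
  have hm : ∀ c, ∃ m : ℤ, Y.V.degCycle (ops.mul z (w c)) = ℓ * m := fun c =>
    hnum (w c) (hw c) (hwc c)
  choose m hm using hm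
  have htr : ∀ {z w : Y.Cycles}, Y.IsCyc p z → Y.IsCyc (Y.dim - p) w →
      W.tr Y (W.cl Y z * W.cl Y w) = (Y.V.degCycle (ops.mul z w) : W.K) := by
    intro z w hz hw
    rw [← W.cl_mul, W.tr_cl]
    have := ops.mul_mem hz hw
    rwa [show p + (Y.dim - p) = Y.dim by omega] at this
  have h1 : m ∈ Λ := by
    apply hsat ℓ hℓ hdiv
    refine ⟨z, hz, hzc, fun c => ?_⟩
    rw [htr hzc (hwc c), hm c, Pi.smul_apply, smul_eq_mul]
    push_cast
    rfl
  obtain ⟨z', hz', hzc', h'⟩ := h1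
  refine ⟨z', hz', hzc', ?_⟩
  have hcyc : Y.IsCyc p (z + (-(ℓ : ℚ)) • z') := hzc.add (hzc'.smul _)
  have h2 : ∀ c ∈ Submodule.span W.K C, W.tr Y (W.cl Y (z + (-(ℓ : ℚ)) • z') * c) = 0 := by
    intro c hc
    rw [hspan] at hc
    induction hc using Submodule.span_induction with
    | mem x hx =>
      have h3 := h' ⟨x, hx⟩
      have h4 := htr hzc (hwc ⟨x, hx⟩)
      rw [hm ⟨x, hx⟩] at h4
      rw [hwcl] at h3 h4
      rw [map_add, cl_smul, add_mul, smul_mul_assoc, map_add, map_smul, ← h3, h4]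
      push_cast
      rw [smul_eq_mul]
      ring
    | zero => rw [mul_zero, map_zero]
    | add x y _ _ hx hy => rw [mul_add, map_add, hx, hy, add_zero]
    | smul a x _ hx => rw [mul_smul_comm, map_smul, hx, smul_zero]
  have h3 : W.cl Y (z + (-(ℓ : ℚ)) • z') = 0 := by
    apply hY p hp _ hcyc
    intro w' hw'
    obtain ⟨N, hN, hNw⟩ := exists_denominator Y w'
    have h4 := h2 (W.cl Y ((N : ℚ) • w')) (Submodule.subset_span ⟨_, hNw, hw'.smul _, rfl⟩)
    rw [cl_smul, mul_smul_comm, map_smul, htr hcyc hw', smul_eq_mul, mul_eq_zero] at h4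
    rcases h4 with h4 | h4
    · have h5 : (N : W.K) = 0 := by exact_mod_cast h4
      exact absurd (Nat.cast_eq_zero.1 h5) hN.ne'
    · exact_mod_cast h4
  rw [map_add, cl_smul] at h3
  have h4 : (((-(ℓ : ℚ)) : ℚ) : W.K) = -(ℓ : W.K) := by push_cast; rfl
  rw [h4, neg_smul] at h3
  exact add_neg_eq_zero.1 h3

end Pool.Agent.H838
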