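import Pool.Agent.H838.GoodDefs
import Pool.Agent.H838.Disc

/-!
# Homological and numerical equivalence on all powers, from one codimension modulo one prime
-/

open CategoryTheory AlgebraicGeometry Finset

universe u v

namespace Pool.Agent.H838

open Pool.Agent.H914 Pool.Agent.H914.VarClass Pool.Agent.H914.VarClass.Obj
  Pool.Agent.H914.WeilCohomology

variable {k : Type u} [Field k] {𝒱 : VarClass k} {ops : CycleOps 𝒱}
  {W : WeilCohomology.{u, v} ops} {X Y : 𝒱.Obj} {ℓ : ℕ}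

/-- The Lefschetz standard conjecture for `X` and the Hodge index theorem for the powers give
`hom = num` on the powers. -/
theorem homEqNum_of_lefschetzB {D : X.Cycles} (hD : X.IsCyc 1 D) (hHL : HardLefschetz W X D)
    (hB : LefschetzB W X D) {E : Y.Cycles} (hY : IsPower ops X D Y E) (hH : HodgeType W Y E) :
    HomEqNum W Y := by
  have h1 : ∃ f, W552.Fr W Y E f := by
    clear hH
    induction hY with
    | base =>
      obtain ⟨f, hf, _⟩ := W552.exists_fr hD hHL hB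
      exact ⟨f, hf⟩
    | prod _ _ h1 h2 =>
      obtain ⟨f, hf⟩ := h1
      obtain ⟨g, hg⟩ := h2
      exact ⟨_, hf.prod hg⟩
  obtain ⟨f, F⟩ := h1
  intro j hj z hz hnum
  exact (F.hodge hz fun h0 => F.bf_pos hH (W552.AS.of ⟨z, hz, rfl⟩) h0).2 hj hnum

/-- `hom = num` on `X × X` implies that numerical and homological equivalence agree modulo almost
all prime numbers. -/
theorem exists_numHomMod (h : HomEqNum W (X.prod X)) :
    ∃ N : ℕ, ∀ ℓ > N, ℓ.Prime → ∀ (S : IntegralStructure W X ℓ) (p : ℕ), S.NumHomMod p := by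
  classical
  have h1 : ∀ p, ∃ d : ℕ, 0 < d ∧ (p ≤ (X.prod X).dim → ∀ ℓ : ℕ, ℓ.Prime → ¬ ℓ ∣ d →
      ∀ z, IsIntegral (X.prod X) z → (X.prod X).IsCyc p z → NumZeroMod ops ℓ X p z →
      ∃ z', IsIntegral (X.prod X) z' ∧ (X.prod X).IsCyc p z' ∧
        W.cl (X.prod X) z = (ℓ : W.K) • W.cl (X.prod X) z') := by
    intro p
    by_cases hp : p ≤ (X.prod X).dim
    · obtain ⟨d, hd, h2⟩ := exists_disc (ops := ops) h hp
      exact ⟨d, hd, fun _ => h2⟩
    · exact ⟨1, one_pos, fun h => absurd h hp⟩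
  choose d hd h2 using h1
  refine ⟨∏ p ∈ Finset.range ((X.prod X).dim + 1), d p, ?_⟩
  intro ℓ hℓN hℓ S p z hz hzc hnum
  by_cases hp : p ≤ (X.prod X).dim
  · have hdiv : ¬ ℓ ∣ d p := by
      intro hdvd
      have h3 : d p ∣ ∏ p ∈ Finset.range ((X.prod X).dim + 1), d p :=
        Finset.dvd_prod_of_mem d (Finset.mem_range.2 (by omega))
      have h4 := Nat.le_of_dvd (Finset.prod_pos fun p _ => hd p) (hdvd.trans h3)
      omega
    obtain ⟨z', hz', hzc', h3⟩ := h2 p hp ℓ hℓ hdiv z hz hzc hnum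
    intro t ht
    have h4 : cycOp W X z = ((1 * ℓ : ℤ) : W.K) • cycOp W X z' := by
      rw [cycOp, h3]
      have : ((ℓ : W.K)) = (((ℓ : ℤ) : ℚ) : W.K) := by push_cast; rfl
      rw [one_mul, this]
      have h5 := cycOp_smul (W := W) (X := X) ((ℓ : ℤ) : ℚ) z'
      rw [cycOp, cl_smul] at h5
      rw [h5]
      push_cast
      rfl
    rw [h4, LinearMap.smul_apply]
    exact S.smul_mem_mT 1 (S.corr_mem z' hz' t ht)
  · have h3 : W.cl (X.prod X) z = 0 := by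
      have h4 := W.cl_mem hzc
      rw [W.gr_eq_bot _ _ (by omega)] at h4
      exact (Submodule.mem_bot _).1 h4
    intro t ht
    have h4 : cycOp W X z = 0 := by
      rw [cycOp, h3, corr_zero]
    rw [h4, LinearMap.zero_apply]
    exact Submodule.zero_mem _

/-- **Homological and numerical equivalence on the powers of `X`, modulo one prime number.** -/
theorem d_mod (hops : PreservesIntegral ops) (hdim : 1 ≤ X.dim) {D : X.Cycles}
    (hD : X.IsCyc 1 D) (hDint : IsIntegral X D) (hHL : HardLefschetz W X D)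
    (hH : ∀ Y E, IsPower ops X D Y E → HodgeType W Y E)
    (hE : ∀ N : ℕ, ∃ ℓ > N, ℓ.Prime ∧ ∃ S : IntegralStructure W X ℓ, S.IsGood D) :
    List.TFAE [
      ∀ Y E, IsPower ops X D Y E → HomEqNum W Y,
      HomEqNum W (X.prod X),
      ∃ N : ℕ, ∀ ℓ > N, ℓ.Prime → ∀ (S : IntegralStructure W X ℓ) (p : ℕ), S.NumHomMod p,
      ∃ ℓ > X.dim + 1, ℓ.Prime ∧ ∃ S : IntegralStructure W X ℓ, S.IsGood D ∧
        S.NumHomMod (X.dim + 1),
      ∃ ℓ, ℓ.Prime ∧ ∃ S : IntegralStructure W X ℓ, S.IsGood D ∧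
        ∀ c, 1 ≤ c → c ≤ X.dim → S.NumHomMod (X.dim + c)] := by
  tfae_have 1 → 2 := fun h => h _ _ (IsPower.prod IsPower.base IsPower.base)
  tfae_have 2 → 3 := exists_numHomMod
  tfae_have 3 → 4 := by
    rintro ⟨N, hN⟩
    obtain ⟨ℓ, hℓ, hp, S, hS⟩ := hE (max N (X.dim + 1))
    exact ⟨ℓ, lt_of_le_of_lt (le_max_right _ _) hℓ, hp, S, hS,
      hN ℓ (lt_of_le_of_lt (le_max_left _ _) hℓ) hp S _⟩
  tfae_have 3 → 5 := by
    rintro ⟨N, hN⟩
    obtain ⟨ℓ, hℓ, hp, S, hS⟩ := hE N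
    exact ⟨ℓ, hp, S, hS, fun c _ _ => hN ℓ hℓ hp S _⟩
  tfae_have 4 → 1 := by
    rintro ⟨ℓ, hn, hℓ, S, ⟨hS, hκ, hL⟩, hN⟩ Y E hY
    obtain ⟨z, -, hzc, hz⟩ := ((smirnov_mod hops hℓ hD hDint hHL hdim S hS hκ hL).1 hn).2 hN
    exact homEqNum_of_lefschetzB hD hHL ⟨z, hzc, hz⟩ hY (hH Y E hY)
  tfae_have 5 → 1 := by
    rintro ⟨ℓ, hℓ, S, ⟨hS, hκ, hL⟩, hN⟩ Y E hY
    obtain ⟨z, -, hzc, hz⟩ := (smirnov_mod hops hℓ hD hDint hHL hdim S hS hκ hL).2.2 hN
    exact homEqNum_of_lefschetzB hD hHL ⟨z, hzc, hz⟩ hY (hH Y E hY)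
  tfae_finish

end Pool.Agent.H838
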