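import Mathlib

/-!
# Lattices over valuation rings
-/

namespace Pool.Agent.H838

variable {K : Type*} [Field K] {V : Type*} [AddCommGroup V] [Module K V] (O : ValuationSubring K)

/-- The valuation of one of the coefficients is the largest. -/
lemma exists_dominant {ι : Type*} [Fintype ι] (g : ι → K) (hg : ∃ i, g i ≠ 0) :
    ∃ j, g j ≠ 0 ∧ ∀ i, g i / g j ∈ O := by
  classical
  obtain ⟨i₀, hi₀⟩ := hg
  obtain ⟨j, -, hj⟩ := Finset.exists_max_image Finset.univ (fun i => O.valuation (g i))
    ⟨i₀, Finset.mem_univ _⟩
  have hj0 : g j ≠ 0 := by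
    intro h0
    have h1 := hj i₀ (Finset.mem_univ _)
    rw [h0, map_zero, le_zero_iff, map_eq_zero] at h1
    exact hi₀ h1
  refine ⟨j, hj0, fun i => ?_⟩
  rw [← O.valuation_le_one_iff, map_div₀]
  have hv : O.valuation (g j) ≠ 0 := by simpa using hj0
  exact div_le_one_of_le₀ (hj i (Finset.mem_univ _)) zero_le

/-- A finitely generated module over a valuation ring in a vector space over the fraction field is
spanned by a linearly independent family. -/
lemma exists_indep (T : Submodule O V) (hT : T.FG) :
    ∃ (m : ℕ) (b : Fin m → V), LinearIndependent K b ∧ Submodule.span O (Set.range b) = T := by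
  classical
  have hex : ∃ m : ℕ, ∃ b : Fin m → V, Submodule.span O (Set.range b) = T := by
    obtain ⟨m, b, hb⟩ := Submodule.fg_iff_exists_fin_generating_family.1 hT
    exact ⟨m, b, hb⟩
  obtain ⟨b, hb⟩ := Nat.find_spec hex
  refine ⟨Nat.find hex, b, ?_, hb⟩
  have hmin := fun m hm => Nat.find_min hex (m := m) hm
  generalize Nat.find hex = N at b hb hmin
  by_contra hli
  rw [Fintype.linearIndependent_iff] at hli
  push Not at hli
  obtain ⟨g, hg, hne⟩ := hli
  obtain ⟨j, hj0, hj⟩ := exists_dominant O g hne
  cases N with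
  | zero => exact j.elim0
  | succ N =>
    apply hmin N (Nat.lt_succ_self N)
    refine ⟨fun i => b (j.succAbove i), ?_⟩
    apply le_antisymm
    · rw [Submodule.span_le]
      rintro _ ⟨i, rfl⟩
      rw [← hb]
      exact Submodule.subset_span ⟨_, rfl⟩
    · rw [← hb, Submodule.span_le]
      rintro _ ⟨i, rfl⟩
      by_cases hij : i = j
      · subst hij
        have h1 : b i = ∑ l : Fin N, (-(⟨g (i.succAbove l) / g i, hj _⟩ : O)) •
            b (i.succAbove l) := by
          rw [Fin.sum_univ_succAbove _ i] at hg
          have h2 : g i • b i = - ∑ l : Fin N, g (i.succAbove l) • b (i.succAbove l) :=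
            eq_neg_of_add_eq_zero_left hg
          have h3 : b i = (g i)⁻¹ • (g i • b i) := by rw [smul_smul, inv_mul_cancel₀ hj0, one_smul]
          rw [h3, h2, smul_neg, Finset.smul_sum, ← Finset.sum_neg_distrib]
          apply Finset.sum_congr rfl
          intro l _
          rw [neg_smul, smul_smul]
          congr 1
          change _ = (g (i.succAbove l) / g i) • b (i.succAbove l)
          rw [div_eq_inv_mul]
        rw [h1]
        apply Submodule.sum_mem
        intro l _
        exact Submodule.smul_mem _ _ (Submodule.subset_span ⟨l, rfl⟩)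
      · obtain ⟨l, rfl⟩ := Fin.exists_succAbove_eq hij
        exact Submodule.subset_span ⟨l, rfl⟩

/-- A nonzero vector has a multiple which lies in the lattice and is not divisible by the maximal
ideal. -/
lemma exists_primitive (T : Submodule O V) (hT : T.FG)
    (hspan : Submodule.span K (T : Set V) = ⊤) {x : V} (hx : x ≠ 0) :
    ∃ a : K, a • x ∈ T ∧ a • x ∉ IsLocalRing.maximalIdeal O • T := by
  classical
  obtain ⟨m, b, hli, hb⟩ := exists_indep O T hT
  have htop : Submodule.span K (Set.range b) = ⊤ := by
    rw [eq_top_iff, ← hspan, Submodule.span_le, ← hb]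
    intro t ht
    induction ht using Submodule.span_induction with
    | mem x hx => exact Submodule.subset_span hx
    | zero => exact Submodule.zero_mem _
    | add x y _ _ hx hy => exact Submodule.add_mem _ hx hy
    | smul a x _ hx => exact Submodule.smul_mem _ (a : K) hx
  have hxm : x ∈ Submodule.span K (Set.range b) := by rw [htop]; trivial
  obtain ⟨c, hc⟩ := (Submodule.mem_span_range_iff_exists_fun K).1 hxm
  have hne : ∃ i, c i ≠ 0 := by
    by_contra h
    push Not at h
    apply hx
    rw [← hc]
    simp [h]
  obtain ⟨j, hj0, hj⟩ := exists_dominant O c hne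
  have hax : (c j)⁻¹ • x = ∑ i, (c i / c j) • b i := by
    rw [← hc, Finset.smul_sum]
    apply Finset.sum_congr rfl
    intro i _
    rw [smul_smul, div_eq_inv_mul]
  refine ⟨(c j)⁻¹, ?_, ?_⟩
  · rw [hax, ← hb]
    apply Submodule.sum_mem
    intro i _
    exact Submodule.smul_mem _ (⟨c i / c j, hj i⟩ : O) (Submodule.subset_span ⟨i, rfl⟩)
  · intro hmem
    rw [← hb, Submodule.mem_ideal_smul_span_iff_exists_sum] at hmem
    obtain ⟨a, ha, hsum⟩ := hmem
    rw [hax] at hsum
    have h1 : ∑ i, ((a i : O) : K) • b i = ∑ i, (c i / c j) • b i := by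
      rw [← hsum, Finsupp.sum_fintype a (fun i c => c • b i) (fun i => zero_smul _ _)]
      rfl
    have h2 : ∑ i, (((a i : O) : K) - c i / c j) • b i = 0 := by
      simp_rw [sub_smul]
      rw [Finset.sum_sub_distrib, h1, sub_self]
    have h3 := Fintype.linearIndependent_iff.1 hli _ h2 j
    rw [div_self hj0, sub_eq_zero] at h3
    have h4 : a j = 1 := Subtype.ext h3
    have h5 := ha j
    rw [h4] at h5
    exact (Ideal.ne_top_iff_one _).1 (IsLocalRing.maximalIdeal.isMaximal O).ne_top h5

end Pool.Agent.H838
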