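import Pool.Agent.H838.PrimeDefs
import Pool.Agent.H838.ValLattice
import Pool.Graph.R_seed8.H914R2.ThetaB

/-!
# Operators preserving a lattice, with rational traces
-/

open Polynomial

namespace Pool.Agent.H838

open Pool.Agent.H914

namespace Lat

variable {K : Type*} [Field K] {V : Type*} [AddCommGroup V] [Module K V] {ℓ : ℕ}

/-- A lattice has a basis. -/
lemma exists_basis (S : Lat K V ℓ) :
    ∃ (m : ℕ) (b : Module.Basis (Fin m) K V), Submodule.span S.O (Set.range b) = S.T := by
  obtain ⟨m, b, hli, hb⟩ := exists_indep S.O S.T S.fg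
  have htop : ⊤ ≤ Submodule.span K (Set.range b) := by
    rw [← S.span_eq_top, Submodule.span_le, ← hb]
    intro t ht
    induction ht using Submodule.span_induction with
    | mem x hx => exact Submodule.subset_span hx
    | zero => exact Submodule.zero_mem _
    | add x y _ _ hx hy => exact Submodule.add_mem _ hx hy
    | smul a x _ hx => exact Submodule.smul_mem _ (a : K) hx
  refine ⟨m, Module.Basis.mk hli htop, ?_⟩
  rw [Module.Basis.coe_mk]
  exact hb

section Basis

variable {S : Lat K V ℓ} {m : ℕ} {b : Module.Basis (Fin m) K V}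
  (hb : Submodule.span S.O (Set.range b) = S.T)

include hb

lemma mem_iff_exists {t : V} : t ∈ S.T ↔ ∃ c : Fin m → S.O, ∑ i, (c i : K) • b i = t := by
  rw [← hb, Submodule.mem_span_range_iff_exists_fun]
  rfl

lemma sum_mem (c : Fin m → S.O) : ∑ i, (c i : K) • b i ∈ S.T := (mem_iff_exists hb).2 ⟨c, rfl⟩

lemma memMax_iff (c : Fin m → S.O) :
    S.MemMax (∑ i, (c i : K) • b i) ↔ ∀ i, c i ∈ IsLocalRing.maximalIdeal S.O := by
  constructor
  · intro h
    unfold MemMax at h
    rw [← hb, Submodule.mem_ideal_smul_span_iff_exists_sum] at h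
    obtain ⟨a, ha, hsum⟩ := h
    have h1 : ∑ i, ((a i : S.O) : K) • b i = ∑ i, (c i : K) • b i := by
      rw [← hsum, Finsupp.sum_fintype a (fun i c => c • b i) (fun i => zero_smul _ _)]
      rfl
    intro i
    have h2 : ((a i : S.O) : K) = c i := by
      have h3 := congrArg (fun t => b.repr t i) h1
      rw [b.repr_sum_self (fun i => ((a i : S.O) : K)), b.repr_sum_self (fun i => (c i : K))] at h3
      exact h3
    have h4 : a i = c i := Subtype.ext h2
    rw [← h4]
    exact ha i
  · intro h
    unfold MemMax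
    apply Submodule.sum_mem
    intro i _
    rw [← hb]
    exact Submodule.smul_mem_smul (h i) (Submodule.subset_span ⟨i, rfl⟩)

/-- The matrix of an operator which preserves the lattice. -/
lemma exists_matrix {E : V →ₗ[K] V} (hE : S.Preserves E) :
    ∃ A : Matrix (Fin m) (Fin m) S.O,
      LinearMap.toMatrix b b E = A.map (algebraMap S.O K) ∧
      ∀ c : Fin m → S.O, E (∑ i, (c i : K) • b i) = ∑ i, ((A.mulVec c i : S.O) : K) • b i := by
  have h1 : ∀ j, ∃ c : Fin m → S.O, ∑ i, (c i : K) • b i = E (b j) := by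
    intro j
    rw [← mem_iff_exists hb]
    apply hE
    rw [← hb]
    exact Submodule.subset_span ⟨j, rfl⟩
  choose c hc using h1
  refine ⟨Matrix.of fun i j => c j i, ?_, ?_⟩
  · ext i j
    rw [LinearMap.toMatrix_apply, ← hc j, b.repr_sum_self (fun i => (c j i : K))]
    rfl
  · intro a
    rw [map_sum]
    have h2 : ∀ j, E ((a j : K) • b j) = ∑ i, ((a j : K) * (c j i : K)) • b i := by
      intro j
      rw [map_smul, ← hc j, Finset.smul_sum]
      apply Finset.sum_congr rfl
      intro i _
      rw [smul_smul]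
    simp_rw [h2]
    rw [Finset.sum_comm]
    apply Finset.sum_congr rfl
    intro i _
    rw [← Finset.sum_smul]
    congr 1
    simp only [Matrix.mulVec, dotProduct, Matrix.of_apply]
    push_cast
    apply Finset.sum_congr rfl
    intro j _
    ring

end Basis

/-- The characteristic polynomial of an operator which preserves the lattice, and which is injective
modulo the maximal ideal, has coefficients in the valuation ring, and its constant coefficient is
a unit. -/
lemma exists_charpoly [Module.Finite K V] (S : Lat K V ℓ) {E : V →ₗ[K] V} (hE : S.Preserves E)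
    (hinj : ∀ t ∈ S.T, S.MemMax (E t) → S.MemMax t) :
    ∃ F : S.O[X], F.Monic ∧ F.map (algebraMap S.O K) = LinearMap.charpoly E ∧
      IsUnit (F.coeff 0) := by
  classical
  obtain ⟨m, b, hb⟩ := S.exists_basis
  obtain ⟨A, hA, hA'⟩ := exists_matrix hb hE
  refine ⟨A.charpoly, A.charpoly_monic, ?_, ?_⟩
  · rw [← Matrix.charpoly_map]
    rw [← LinearMap.charpoly_toMatrix E b, hA]
  · have hdet : IsUnit A.det := by
      by_contra hu
      have h1 : A.det ∈ IsLocalRing.maximalIdeal S.O := hu
      have h2 : (A.map (IsLocalRing.residue S.O)).det = 0 := by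
        have h3 := RingHom.map_det (IsLocalRing.residue S.O) A
        rw [RingHom.mapMatrix_apply] at h3
        rw [← h3]
        exact (IsLocalRing.residue_eq_zero_iff _).2 h1
      obtain ⟨v, hv, hv0⟩ := Matrix.exists_mulVec_eq_zero_iff.2 h2
      choose c hc using fun i => IsLocalRing.residue_surjective (v i)
      have h4 : ∀ i, A.mulVec c i ∈ IsLocalRing.maximalIdeal S.O := by
        intro i
        rw [← IsLocalRing.residue_eq_zero_iff]
        have h5 := congrFun hv0 i
        rw [Pi.zero_apply] at h5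
        rw [← h5]
        simp only [Matrix.mulVec, dotProduct, map_sum, map_mul, Matrix.map_apply, hc]
      have h6 : S.MemMax (∑ i, (c i : K) • b i) := by
        apply hinj _ (sum_mem hb c)
        rw [hA', memMax_iff hb]
        exact h4
      rw [memMax_iff hb] at h6
      apply hv
      funext i
      rw [← hc i, Pi.zero_apply, IsLocalRing.residue_eq_zero_iff]
      exact h6 i
    have h7 := A.det_eq_sign_charpoly_coeff
    rw [h7] at hdet
    exact isUnit_of_mul_isUnit_right hdet

/-- The natural number `N` is a unit in the valuation ring if it is prime to `ℓ`. -/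
lemma nat_isUnit' (S : Lat K V ℓ) {N : ℕ} (hN : N.Coprime ℓ) : IsUnit (N : S.O) := by
  by_contra hu
  have h1 : (N : S.O) ∈ IsLocalRing.maximalIdeal S.O := hu
  obtain ⟨a, b, hab⟩ := Nat.isCoprime_iff_coprime.2 hN
  have h3 : (1 : S.O) = (a : S.O) * (N : S.O) + (b : S.O) * (ℓ : S.O) := by
    have := congrArg (fun m : ℤ => (m : S.O)) hab
    push_cast at this
    exact this.symm
  have h4 : (1 : S.O) ∈ IsLocalRing.maximalIdeal S.O := by
    rw [h3]
    exact Ideal.add_mem _ (Ideal.mul_mem_left _ _ h1) (Ideal.mul_mem_left _ _ S.mem_max)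
  exact (Ideal.ne_top_iff_one _).1 (IsLocalRing.maximalIdeal.isMaximal S.O).ne_top h4

/-- Rational numbers in the valuation ring have denominators prime to `ℓ`. -/
lemma not_dvd_den [CharZero K] (S : Lat K V ℓ) {q : ℚ} (hq : (q : K) ∈ S.O) :
    ¬ ℓ ∣ q.den := by
  intro hd
  obtain ⟨d, hd⟩ := hd
  have hcop : q.num.natAbs.Coprime ℓ := by
    have := q.reduced
    rw [hd] at this
    exact Nat.Coprime.coprime_mul_right_right this
  have hu := S.nat_isUnit' hcop
  have h1 : (q : K) * (ℓ * d : ℕ) = q.num := by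
    rw [← hd]
    have := Rat.mul_den_eq_num q
    exact_mod_cast congrArg (fun x : ℚ => (x : K)) this
  have h2 : (q.num : S.O) ∈ IsLocalRing.maximalIdeal S.O := by
    have h3 : (q.num : S.O) = (⟨(q : K), hq⟩ * (d : S.O)) * (ℓ : S.O) := by
      apply Subtype.ext
      push_cast
      rw [← h1]
      push_cast
      ring
    rw [h3]
    exact Ideal.mul_mem_left _ _ S.mem_max
  have h4 : ((q.num.natAbs : ℕ) : S.O) ∈ IsLocalRing.maximalIdeal S.O := by
    rcases Int.natAbs_eq q.num with h | h
    · have : ((q.num.natAbs : ℕ) : S.O) = (q.num : S.O) := by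
        rw [← Int.cast_natCast, ← h]
      rw [this]; exact h2
    · have : ((q.num.natAbs : ℕ) : S.O) = ((-q.num : ℤ) : S.O) := by
        rw [← Int.cast_natCast]
        congr 1
        omega
      rw [this, Int.cast_neg]; exact (IsLocalRing.maximalIdeal S.O).neg_mem h2
  exact h4 hu

end Lat

section RatPoly

lemma exists_retract' (K : Type*) [Field K] [CharZero K] : ∃ ret : K →ₗ[ℚ] ℚ, ret 1 = 1 := by
  have hinj : LinearMap.ker (Algebra.linearMap ℚ K) = ⊥ := by
    rw [LinearMap.ker_eq_bot]
    exact (algebraMap ℚ K).injective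
  obtain ⟨g, hg⟩ := LinearMap.exists_leftInverse_of_injective (Algebra.linearMap ℚ K) hinj
  refine ⟨g, ?_⟩
  have := congrArg (fun F => F (1 : ℚ)) hg
  simpa using this

variable {K : Type*} [Field K] [CharZero K] {V : Type*} [AddCommGroup V] [Module K V]
  [Module.Finite K V]

/-- If the traces of the powers of `E` are rational then the monic polynomial of smallest degree
whose value at `E` is nilpotent has rational coefficients. -/
theorem exists_rat_radical {E : Module.End K V}
    (hE : ∀ r : ℕ, ∃ q : ℚ, LinearMap.trace K V (E ^ r) = q) :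
    ∃ f : ℚ[X], f.Monic ∧ IsNilpotent (ev E f) ∧
      ∀ G : K[X], IsNilpotent (aeval E G) → f.map (algebraMap ℚ K) ∣ G := by
  classical
  have hcommE : ∀ (G H : K[X]), Commute (aeval E G) (aeval E H) := by
    intro G H
    unfold Commute SemiconjBy
    rw [← map_mul, ← map_mul, mul_comm]
  -- a monic polynomial of smallest degree
  have hex : ∃ N : ℕ, ∃ F : K[X], F.Monic ∧ F.natDegree = N ∧ IsNilpotent (aeval E F) :=
    ⟨_, LinearMap.charpoly E, LinearMap.charpoly_monic E, rfl, by
      rw [LinearMap.aeval_self_charpoly]; exact IsNilpotent.zero⟩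
  obtain ⟨F, hmonic, hdeg, hnil⟩ := Nat.find_spec hex
  have hmin := fun m hm => Nat.find_min hex (m := m) hm
  generalize Nat.find hex = N at hdeg hmin
  have hdvd : ∀ G : K[X], IsNilpotent (aeval E G) → F ∣ G := by
    intro G hG
    rw [← Polynomial.modByMonic_eq_zero_iff_dvd hmonic]
    by_contra hr
    set r := G %ₘ F with hrdef
    have h1 : aeval E r = aeval E G - aeval E F * aeval E (G /ₘ F) := by
      have h2 : r = G - F * (G /ₘ F) := by
        rw [eq_sub_iff_add_eq]
        exact Polynomial.modByMonic_add_div G F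
      rw [h2, map_sub, map_mul]
    have h2 : IsNilpotent (aeval E r) := by
      rw [h1]
      apply Commute.isNilpotent_sub
      · rw [← map_mul]; exact hcommE _ _
      · exact hG
      · exact (hcommE _ _).isNilpotent_mul_right hnil
    have hF1 : F ≠ 1 := by
      intro h
      apply hr
      rw [hrdef, h, Polynomial.modByMonic_one]
    have h3 : r.natDegree < N := by
      rw [← hdeg]
      exact Polynomial.natDegree_modByMonic_lt G hmonic hF1
    apply hmin _ h3
    refine ⟨r * C r.leadingCoeff⁻¹, Polynomial.monic_mul_leadingCoeff_inv hr,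
      Polynomial.natDegree_mul_leadingCoeff_inv r hr, ?_⟩
    rw [map_mul]
    exact (hcommE _ _).isNilpotent_mul_right h2
  choose p hp using hE
  obtain ⟨ret, hret⟩ := exists_retract' K
  set f : ℚ[X] := ∑ s ∈ Finset.range (N + 1), C (ret (F.coeff s)) * X ^ s with hf
  have hFN : F.coeff N = 1 := by rw [← hdeg]; exact hmonic
  have hcoeff : ∀ j, f.coeff j = if j < N + 1 then ret (F.coeff j) else 0 := by
    intro j
    rw [hf, finsetSum_coeff]
    simp only [coeff_C_mul_X_pow]
    rw [Finset.sum_ite_eq]
    simp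
  have hfdeg : f.natDegree ≤ N := by
    rw [Polynomial.natDegree_le_iff_coeff_eq_zero]
    intro j hj
    rw [hcoeff, if_neg (by omega)]
  have hfN : f.coeff N = 1 := by rw [hcoeff, if_pos (by omega), hFN, hret]
  have hfmonic : f.Monic := Polynomial.monic_of_natDegree_le_of_coeff_eq_one N hfdeg hfN
  have hfdeg' : f.natDegree = N :=
    le_antisymm hfdeg (Polynomial.le_natDegree_of_ne_zero (by rw [hfN]; exact one_ne_zero))
  -- the traces of `f(E) E^r` vanish
  have hevf : ev E f = ∑ s ∈ Finset.range (N + 1), ((ret (F.coeff s) : ℚ) : K) • E ^ s := by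
    rw [hf, map_sum]
    apply Finset.sum_congr rfl
    intro s _
    rw [map_mul, map_pow, ev_C, ev_X, smul_mul_assoc, one_mul]
  have hzero : ∀ r : ℕ, LinearMap.trace K V (ev E f * E ^ r) = 0 := by
    intro r
    have h1 : aeval E F = ∑ s ∈ Finset.range (N + 1), F.coeff s • E ^ s := by
      rw [aeval_eq_sum_range, hdeg]
    have h2 : ∑ s ∈ Finset.range (N + 1), F.coeff s * (p (s + r) : K) = 0 := by
      have h3 : LinearMap.trace K V (aeval E F * E ^ r) = 0 := by
        have h4 : IsNilpotent (aeval E F * E ^ r) := by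
          have h5 := (hcommE F (X ^ r)).isNilpotent_mul_right hnil
          rwa [map_pow, aeval_X] at h5
        exact (LinearMap.isNilpotent_trace_of_isNilpotent h4).eq_zero
      rw [h1] at h3
      simp only [Finset.sum_mul, map_sum, smul_mul_assoc, map_smul,
        smul_eq_mul, ← pow_add, hp] at h3
      exact h3
    have h3 : ∑ s ∈ Finset.range (N + 1), ret (F.coeff s) * p (s + r) = 0 := by
      have h4 := congrArg ret h2
      rw [map_zero, map_sum] at h4
      rw [← h4]
      apply Finset.sum_congr rfl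
      intro s _
      have : F.coeff s * (p (s + r) : K) = p (s + r) • F.coeff s := by
        rw [Algebra.smul_def, mul_comm]; rfl
      rw [this, map_smul, smul_eq_mul, mul_comm]
    rw [hevf, Finset.sum_mul, map_sum]
    have h5 : ∀ s ∈ Finset.range (N + 1), LinearMap.trace K V
        ((((ret (F.coeff s) : ℚ) : K) • E ^ s) * E ^ r) =
        ((ret (F.coeff s) * p (s + r) : ℚ) : K) := by
      intro s _
      rw [smul_mul_assoc, map_smul, ← pow_add, hp, smul_eq_mul]
      push_cast; rfl
    rw [Finset.sum_congr rfl h5, ← Rat.cast_sum, h3, Rat.cast_zero]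
  have hzero' : ∀ g : ℚ[X], LinearMap.trace K V (ev E f * ev E g) = 0 := by
    intro g
    induction g using Polynomial.induction_on' with
    | add a b ha hb => rw [map_add, mul_add, map_add, ha, hb, add_zero]
    | monomial r c =>
      rw [← C_mul_X_pow_eq_monomial, map_mul (H914.ev E), map_pow (H914.ev E), ev_C, ev_X,
        smul_mul_assoc, one_mul, mul_smul_comm, map_smul, hzero, smul_zero]
  have hfnil : IsNilpotent (ev E f) := by
    apply isNilpotent_of_trace_pow
    intro r
    rw [pow_succ', ← map_pow]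
    exact hzero' _
  have hfF : f.map (algebraMap ℚ K) = F := by
    have h1 : F ∣ f.map (algebraMap ℚ K) := hdvd _ hfnil
    exact (Polynomial.eq_of_monic_of_dvd_of_natDegree_le hmonic (hfmonic.map _) h1
      (by rw [Polynomial.natDegree_map, hfdeg', hdeg]))
  exact ⟨f, hfmonic, hfnil, fun G hG => by rw [hfF]; exact hdvd G hG⟩

/-- **Inverses with local coefficients.** Let the operator `E` preserve a lattice at `ℓ`, let it be
injective modulo the maximal ideal, and let the traces of its powers be rational. Then its inverse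
is a polynomial in `E` with rational coefficients which lie in the valuation ring. -/
theorem exists_local_inverse {ℓ : ℕ} (S : Lat K V ℓ) {E : Module.End K V} (hE : S.Preserves E)
    (hinj : ∀ t ∈ S.T, S.MemMax (E t) → S.MemMax t)
    (htr : ∀ r : ℕ, ∃ q : ℚ, LinearMap.trace K V (E ^ r) = q) :
    ∃ q : ℚ[X], (∀ i, ((q.coeff i : ℚ) : K) ∈ S.O) ∧ ∀ x, ev E q (E x) = x := by
  obtain ⟨f, hfm, ⟨M, hM⟩, hdvd⟩ := exists_rat_radical htr
  obtain ⟨χ, hχm, hχ, hχ0⟩ := S.exists_charpoly hE hinj
  have h1 : f.map (algebraMap ℚ K) ∣ χ.map (algebraMap S.O K) := by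
    rw [hχ]
    apply hdvd
    rw [LinearMap.aeval_self_charpoly]
    exact IsNilpotent.zero
  obtain ⟨G, hG⟩ := h1
  obtain ⟨F', hF'⟩ := IsIntegrallyClosed.eq_map_mul_C_of_dvd K hχm
    (g := f.map (algebraMap ℚ K)) ⟨G, hG⟩
  obtain ⟨G', hG'⟩ := IsIntegrallyClosed.eq_map_mul_C_of_dvd K hχm
    (g := G) ⟨f.map (algebraMap ℚ K), by rw [hG, mul_comm]⟩
  have hFm : (f.map (algebraMap ℚ K)).Monic := hfm.map _
  have hGm : G.Monic := by
    have h2 : (χ.map (algebraMap S.O K)).Monic := hχm.map _
    rw [hG] at h2
    exact hFm.of_mul_monic_left h2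
  rw [hFm.leadingCoeff, C_1, mul_one] at hF'
  rw [hGm.leadingCoeff, C_1, mul_one] at hG'
  -- the constant coefficient is a unit
  have hinjO : Function.Injective (algebraMap S.O K) := Subtype.val_injective
  have hprod : χ = F' * G' := by
    apply Polynomial.map_injective _ hinjO
    rw [Polynomial.map_mul, hF', hG', hG]
  have hF0 : IsUnit (F'.coeff 0) := by
    rw [hprod, Polynomial.mul_coeff_zero] at hχ0
    exact isUnit_of_mul_isUnit_left hχ0
  have hf0 : ((f.coeff 0 : ℚ) : K) = (F'.coeff 0 : K) := by
    have := congrArg (fun P : K[X] => P.coeff 0) hF'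
    simp only [Polynomial.coeff_map] at this
    exact this.symm
  set h := f ^ M with hh
  have hhcoeff : ∀ i, ((h.coeff i : ℚ) : K) ∈ S.O := by
    intro i
    have h2 : h.map (algebraMap ℚ K) = (F' ^ M).map (algebraMap S.O K) := by
      rw [hh, Polynomial.map_pow, Polynomial.map_pow, hF']
    have h3 := congrArg (fun P : K[X] => P.coeff i) h2
    simp only [Polynomial.coeff_map] at h3
    have h4 : ((h.coeff i : ℚ) : K) = (((F' ^ M).coeff i : S.O) : K) := h3
    rw [h4]
    exact ((F' ^ M).coeff i).2
  have hh0 : h.coeff 0 = f.coeff 0 ^ M := by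
    rw [hh, coeff_zero_eq_eval_zero, coeff_zero_eq_eval_zero, eval_pow]
  obtain ⟨w, hw⟩ := hF0
  have hw0 : (F'.coeff 0 : K) ≠ 0 := by
    rw [← hw]
    intro h0
    have : (w : S.O) = 0 := Subtype.ext h0
    exact w.ne_zero this
  have hf00 : f.coeff 0 ≠ 0 := by
    intro h0
    rw [h0, Rat.cast_zero] at hf0
    exact hw0 hf0.symm
  have hh00 : h.coeff 0 ≠ 0 := by rw [hh0]; exact pow_ne_zero _ hf00
  have hinv : (((h.coeff 0)⁻¹ : ℚ) : K) ∈ S.O := by
    have h5 : ((w : S.O) : K) * (((w⁻¹ : S.Oˣ) : S.O) : K) = 1 := by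
      have h5 : ((w : S.O) * ((w⁻¹ : S.Oˣ) : S.O) : S.O) = 1 := Units.mul_inv w
      have h6 := congrArg (fun x : S.O => (x : K)) h5
      push_cast at h6
      exact h6
    have h2 : (((h.coeff 0)⁻¹ : ℚ) : K) = ((((w⁻¹ : S.Oˣ) : S.O) ^ M : S.O) : K) := by
      rw [Rat.cast_inv, hh0, Rat.cast_pow, hf0, ← hw, eq_comm]
      push_cast
      rw [eq_inv_of_mul_eq_one_right h5, inv_pow]
    rw [h2]
    exact (((w⁻¹ : S.Oˣ) : S.O) ^ M).2
  refine ⟨C (-(h.coeff 0)⁻¹) * h.divX, ?_, ?_⟩
  · intro i
    rw [coeff_C_mul, coeff_divX]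
    push_cast
    apply S.O.mul_mem
    · apply S.O.neg_mem
      have := hinv
      push_cast at this
      exact this
    · exact hhcoeff _
  · intro x
    have h2 : ev E h = 0 := by rw [hh, map_pow]; exact hM
    have h3 : ev E h.divX * E + ((h.coeff 0 : ℚ) : K) • 1 = 0 := by
      rw [← h2]
      conv_rhs => rw [← Polynomial.divX_mul_X_add h]
      rw [map_add, map_mul, ev_X, ev_C]
    have h4 : ev E h.divX (E x) = -(((h.coeff 0 : ℚ) : K) • x) := by
      have h5 := congrArg (fun F => F x) h3
      simp only [LinearMap.add_apply, Module.End.mul_apply, LinearMap.smul_apply,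
        Module.End.one_apply, LinearMap.zero_apply] at h5
      exact eq_neg_of_add_eq_zero_left h5
    rw [map_mul, ev_C, smul_mul_assoc, one_mul, LinearMap.smul_apply, h4, smul_neg, smul_smul,
      ← neg_smul]
    have h6 : -((((-(h.coeff 0)⁻¹ : ℚ)) : K) * ((h.coeff 0 : ℚ) : K)) = 1 := by
      rw [← Rat.cast_mul, neg_mul, inv_mul_cancel₀ hh00]
      simp
    rw [h6, one_smul]

end RatPoly

end Pool.Agent.H838
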