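import Pool.Graph.R_seed8.H914R2.ThetaB

/-!
# Graded rings of homogeneous operators

This is the part of the library file `H914R2/ThetaB.lean` which does not need rational multiples.
-/

open Polynomial Finset

namespace Pool.Agent.H838

open Pool.Agent.H914

variable {K : Type*} [Field K] [CharZero K] {V : Type*} [AddCommGroup V] [Module K V]
  {gr : ℕ → Submodule K V} {n : ℕ} {L : Module.End K V}

/-- A graded ring of homogeneous operators. -/
structure OpRing (gr : ℕ → Submodule K V) (R : ℤ → Module.End K V → Prop) : Prop where
  one : R 0 1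
  zero : ∀ d, R d 0
  add : ∀ {d y z}, R d y → R d z → R d (y + z)
  neg : ∀ {d y}, R d y → R d (-y)
  mul : ∀ {d e y z}, R d y → R e z → R (d + e) (y * z)
  hom : ∀ {d y}, R d y → IsHom gr (2 * d) y

namespace OpRing

variable {R : ℤ → Module.End K V → Prop} (hR : OpRing gr R)

include hR

omit [CharZero K] in
lemma cast {d e : ℤ} {y : Module.End K V} (h : R d y) (hde : d = e) : R e y := hde ▸ h

omit [CharZero K] in
lemma sub {d : ℤ} {y z : Module.End K V} (hy : R d y) (hz : R d z) : R d (y - z) := by
  rw [sub_eq_add_neg]; exact hR.add hy (hR.neg hz)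

omit [CharZero K] in
lemma sum {ι : Type*} {d : ℤ} {s : Finset ι} {y : ι → Module.End K V}
    (hy : ∀ i ∈ s, R d (y i)) : R d (∑ i ∈ s, y i) := by
  classical
  induction s using Finset.induction_on with
  | empty => simpa using hR.zero d
  | insert a s ha ih =>
    rw [Finset.sum_insert ha]
    exact hR.add (hy a (by simp)) (ih (fun i hi => hy i (by simp [hi])))

omit [CharZero K] in
lemma pow {d : ℤ} {y : Module.End K V} (hy : R d y) (m : ℕ) : R (m * d) (y ^ m) := by
  induction m with
  | zero => simpa using hR.one
  | succ m ih =>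
    rw [pow_succ]
    exact hR.cast (hR.mul ih hy) (by push_cast; ring)

/-- If there are operators in the algebra inverting the powers of `L`, then the projectors are in
the algebra. -/
lemma proj_mem_of_theta (h : DirectSum.IsInternal gr) (hbd : ∀ i, 2 * n + 1 ≤ i → gr i = ⊥)
    (hL : R 1 L) (hHL : HardLef gr n L) (θ : ℕ → Module.End K V)
    (hθR : ∀ c ≤ n, R (-c) (θ c)) (hθ : ∀ c ≤ n, ∀ a ∈ gr (n - c), θ c ((L ^ c) a) = a) :
    ∀ m ≤ n, ∀ c, c + m = n → R 0 (proj h (n - c)) ∧ R 0 (proj h (n + c)) := by
  have hLh : IsHom gr 2 L := by simpa using hR.hom hL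
  intro m
  induction m using Nat.strong_induction_on with
  | _ m ih =>
    intro hm c hc
    -- the truncated inverse
    set A : Module.End K V := 1 - ∑ l ∈ range m, proj h l with hA
    set B : Module.End K V := 1 - ∑ l ∈ range m, proj h (2 * n - l) with hB
    have hAR : R 0 A := by
      apply hR.sub hR.one
      apply hR.sum
      intro l hl
      rw [Finset.mem_range] at hl
      have := (ih l hl (by omega) (n - l) (by omega)).1
      rwa [show n - (n - l) = l by omega] at this
    have hBR : R 0 B := by
      apply hR.sub hR.one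
      apply hR.sum
      intro l hl
      rw [Finset.mem_range] at hl
      have := (ih l hl (by omega) (n - l) (by omega)).2
      rwa [show n + (n - l) = 2 * n - l by omega] at this
    set T := A * θ c * B with hT
    have hTR : R (-c) T := hR.cast (hR.mul (hR.mul hAR (hθR c (by omega))) hBR) (by ring)
    have hAlow : ∀ l < m, ∀ a ∈ gr l, A a = 0 := by
      intro l hl a ha
      rw [hA, LinearMap.sub_apply, Module.End.one_apply, LinearMap.sum_apply,
        Finset.sum_eq_single l, proj_same h ha, sub_self]
      · intro l' _ hl'; exact proj_ne h ha (Ne.symm hl')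
      · intro h'; exact absurd (Finset.mem_range.2 hl) h'
    have hAhigh : ∀ l, m ≤ l → ∀ a ∈ gr l, A a = a := by
      intro l hl a ha
      rw [hA, LinearMap.sub_apply, Module.End.one_apply, LinearMap.sum_apply,
        Finset.sum_eq_zero, sub_zero]
      intro l' hl'
      rw [Finset.mem_range] at hl'
      exact proj_ne h ha (by omega)
    have hBhigh : ∀ l, 2 * n - m < l → ∀ a ∈ gr l, B a = 0 := by
      intro l hl a ha
      by_cases hl2 : 2 * n < l
      · rw [hbd l (by omega)] at ha
        rw [(Submodule.mem_bot _).1 ha, map_zero]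
      · rw [hB, LinearMap.sub_apply, Module.End.one_apply, LinearMap.sum_apply,
          Finset.sum_eq_single (2 * n - l), show 2 * n - (2 * n - l) = l by omega,
          proj_same h ha, sub_self]
        · intro l' hl' hne
          rw [Finset.mem_range] at hl'
          exact proj_ne h ha (by omega)
        · intro h'; exact absurd (Finset.mem_range.2 (by omega)) h'
    have hBlow : ∀ l ≤ 2 * n - m, ∀ a ∈ gr l, B a = a := by
      intro l hl a ha
      rw [hB, LinearMap.sub_apply, Module.End.one_apply, LinearMap.sum_apply,
        Finset.sum_eq_zero, sub_zero]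
      intro l' hl'
      rw [Finset.mem_range] at hl'
      exact proj_ne h ha (by omega)
    -- `T` is supported in degree `n + c`
    have hTsupp : ∀ l, l ≠ n + c → ∀ a ∈ gr l, T a = 0 := by
      intro l hl a ha
      rw [hT, Module.End.mul_apply, Module.End.mul_apply]
      by_cases h1 : 2 * n - m < l
      · rw [hBhigh l h1 a ha, map_zero, map_zero]
      · rw [hBlow l (by omega) a ha]
        have h2 := hR.hom (hθR c (by omega)) l a (by rw [grZ_natCast]; exact ha)
        by_cases h3 : 2 * c ≤ l
        · rw [show (l : ℤ) + 2 * -(c : ℤ) = ((l - 2 * c : ℕ) : ℤ) by omega, grZ_natCast] at h2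
          exact hAlow _ (by omega) _ h2
        · rw [grZ_of_neg (by omega)] at h2
          rw [(Submodule.mem_bot _).1 h2, map_zero]
    have hTinv : ∀ a ∈ gr (n - c), T ((L ^ c) a) = a := by
      intro a ha
      have h1 := pow_L_mem hLh ha c
      rw [hT, Module.End.mul_apply, Module.End.mul_apply, hBlow _ (by omega) _ h1,
        hθ c (by omega) a ha, hAhigh _ (by omega) a ha]
    constructor
    · have e : proj h (n - c) = T * L ^ c := by
        apply gr_ext h
        intro l a ha
        rw [Module.End.mul_apply]
        by_cases hl : l = n - c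
        · subst hl
          rw [proj_same h ha, hTinv a ha]
        · rw [proj_ne h ha hl, hTsupp (l + 2 * c) (by omega) _ (pow_L_mem hLh ha c)]
      rw [e]
      exact hR.cast (hR.mul hTR (hR.pow hL c)) (by ring)
    · have e : proj h (n + c) = L ^ c * T := by
        apply gr_ext h
        intro l a ha
        rw [Module.End.mul_apply]
        by_cases hl : l = n + c
        · subst hl
          rw [proj_same h ha]
          obtain ⟨b, hb, hb'⟩ := (hHL (n - c) (by omega)).2 a
            (by rw [show 2 * n - (n - c) = n + c by omega]; exact ha)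
          rw [show n - (n - c) = c by omega] at hb'
          rw [← hb', hTinv b hb]
        · rw [proj_ne h ha hl, hTsupp l hl a ha, map_zero]
      rw [e]
      exact hR.cast (hR.mul (hR.pow hL c) hTR) (by ring)

/-- If there are operators in the algebra inverting the powers of `L`, then the Lambda operator is
in the algebra. -/
theorem exists_lam (h : DirectSum.IsInternal gr) (hbd : ∀ i, 2 * n + 1 ≤ i → gr i = ⊥)
    (hL : R 1 L) (hHL : HardLef gr n L)
    (hθ : ∀ c ≤ n, ∃ θ, R (-c) θ ∧ ∀ a ∈ gr (n - c), θ ((L ^ c) a) = a) :
    ∃ Φ, R (-1) Φ ∧ IsLam gr n L Φ := by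
  have hLh : IsHom gr 2 L := by simpa using hR.hom hL
  choose! θ hθR hθ using hθ
  have hproj := hR.proj_mem_of_theta h hbd hL hHL θ hθR hθ
  have hp1 : ∀ c ≤ n, R 0 (proj h (n - c)) := fun c hc => (hproj (n - c) (by omega) c (by omega)).1
  have hp2 : ∀ c ≤ n, R 0 (proj h (n + c)) := fun c hc => (hproj (n - c) (by omega) c (by omega)).2
  set Φ : Module.End K V := (∑ d ∈ range (n - 1), θ (d + 2) * L ^ (d + 1) * proj h (n - d)) +
    ∑ d ∈ range n, L ^ d * θ (d + 1) * proj h (n + (d + 1)) with hΦ
  refine ⟨Φ, ?_, ?_⟩
  · apply hR.add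
    · apply hR.sum
      intro d hd
      rw [Finset.mem_range] at hd
      exact hR.cast (hR.mul (hR.mul (hθR (d + 2) (by omega)) (hR.pow hL (d + 1)))
        (hp1 d (by omega))) (by push_cast; ring)
    · apply hR.sum
      intro d hd
      rw [Finset.mem_range] at hd
      exact hR.cast (hR.mul (hR.mul (hR.pow hL d) (hθR (d + 1) (by omega)))
        (hp2 (d + 1) (by omega))) (by push_cast; ring)
  have hΦlow : ∀ d ≤ n, ∀ y ∈ gr (n - d), Φ y =
      if d + 2 ≤ n then θ (d + 2) ((L ^ (d + 1)) y) else 0 := by
    intro d hd y hy
    rw [hΦ, LinearMap.add_apply, LinearMap.sum_apply, LinearMap.sum_apply]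
    have s2 : ∑ e ∈ range n, (L ^ e * θ (e + 1) * proj h (n + (e + 1))) y = 0 := by
      apply Finset.sum_eq_zero
      intro e he
      rw [Finset.mem_range] at he
      rw [Module.End.mul_apply, proj_ne h hy (by omega), map_zero]
    rw [s2, add_zero]
    by_cases h2 : d + 2 ≤ n
    · rw [if_pos h2, Finset.sum_eq_single d]
      · rw [Module.End.mul_apply, proj_same h hy, Module.End.mul_apply]
      · intro e he hed
        rw [Finset.mem_range] at he
        rw [Module.End.mul_apply, proj_ne h hy (by omega), map_zero]
      · intro he; exact absurd (Finset.mem_range.2 (by omega)) he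
    · rw [if_neg h2]
      apply Finset.sum_eq_zero
      intro e he
      rw [Finset.mem_range] at he
      rw [Module.End.mul_apply, proj_ne h hy (by omega), map_zero]
  have hΦhigh : ∀ d < n, ∀ y ∈ gr (n + (d + 1)), Φ y = (L ^ d) (θ (d + 1) y) := by
    intro d hd y hy
    rw [hΦ, LinearMap.add_apply, LinearMap.sum_apply, LinearMap.sum_apply]
    have s1 : ∑ e ∈ range (n - 1), (θ (e + 2) * L ^ (e + 1) * proj h (n - e)) y = 0 := by
      apply Finset.sum_eq_zero
      intro e he
      rw [Finset.mem_range] at he
      rw [Module.End.mul_apply, proj_ne h hy (by omega), map_zero]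
    rw [s1, zero_add, Finset.sum_eq_single d]
    · rw [Module.End.mul_apply, proj_same h hy, Module.End.mul_apply]
    · intro e he hed
      rw [Finset.mem_range] at he
      rw [Module.End.mul_apply, proj_ne h hy (by omega), map_zero]
    · intro he; exact absurd (Finset.mem_range.2 hd) he
  intro i hi a ha hprim
  constructor
  · rw [hΦlow (n - i) (by omega) a (by rw [show n - (n - i) = i by omega]; exact ha), hprim,
      map_zero]
    split_ifs <;> rfl
  · intro j hj
    have hmem := pow_L_mem hLh ha (j + 1)
    have hmem' := pow_L_mem hLh ha j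
    by_cases hw : i + 2 * (j + 1) ≤ n
    · set d := n - (i + 2 * (j + 1)) with hd
      rw [hΦlow d (by omega) _ (by rw [show n - d = i + 2 * (j + 1) by omega]; exact hmem),
        if_pos (by omega), ← Module.End.mul_apply (L ^ (d + 1)), ← pow_add,
        show d + 1 + (j + 1) = (d + 2) + j by ring, pow_add, Module.End.mul_apply]
      exact hθ (d + 2) (by omega) _ (by rw [show n - (d + 2) = i + 2 * j by omega]; exact hmem')
    · set d := i + 2 * (j + 1) - n - 1 with hd
      have hmem2 : (L ^ (j + 1)) a ∈ gr (n + (d + 1)) := by
        rw [show n + (d + 1) = i + 2 * (j + 1) by omega]; exact hmem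
      rw [hΦhigh d (by omega) _ hmem2]
      have e1 : (L ^ (j + 1)) a = (L ^ (d + 1)) ((L ^ (j - d)) a) := by
        rw [← Module.End.mul_apply, ← pow_add, show d + 1 + (j - d) = j + 1 by omega]
      have hmem3 := pow_L_mem hLh ha (j - d)
      rw [e1, hθ (d + 1) (by omega) _
        (by rw [show n - (d + 1) = i + 2 * (j - d) by omega]; exact hmem3),
        ← Module.End.mul_apply, ← pow_add, show d + (j - d) = j by omega]

end OpRing

end Pool.Agent.H838
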