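import Pool.Agent.H838.PrimeDefs
import Pool.Agent.H838.ValLattice
import Pool.Graph.R_seed8.H914R2.KLef
import Pool.Graph.R_seed8.H914R2.LefB

/-!
# The Lefschetz standard conjecture modulo one prime
-/

open CategoryTheory AlgebraicGeometry Finset

universe u v

namespace Pool.Agent.H838

open Pool.Agent.H914 Pool.Agent.H914.VarClass Pool.Agent.H914.WeilCohomology

variable {k : Type u} [Field k] {𝒱 : VarClass k} {ops : CycleOps 𝒱}

/-! ### Integral cycles -/

lemma coeff_smul (X : 𝒱.Obj) (q : ℚ) (z : X.Cycles) (x : X.V.X) :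
    X.V.coeff (q • z) x = q * X.V.coeff z x :=
  Finsupp.smul_apply (M := ℚ) (α := X.V.X) q z x

lemma IsIntegral.intSmul {X : 𝒱.Obj} {z : X.Cycles} (hz : IsIntegral X z) (m : ℤ) :
    IsIntegral X ((m : ℚ) • z) := by
  intro x
  obtain ⟨a, ha⟩ := hz x
  exact ⟨m * a, by rw [coeff_smul, ha]; push_cast; ring⟩

/-- Denominators can be cleared. -/
lemma exists_denominator (X : 𝒱.Obj) (z : X.Cycles) :
    ∃ N : ℕ, 0 < N ∧ IsIntegral X ((N : ℚ) • z) := by
  classical
  let s : Finset X.V.X := Finsupp.support (M := ℚ) (α := X.V.X) z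
  refine ⟨∏ x ∈ s, (X.V.coeff z x).den, Finset.prod_pos (fun x _ => Rat.den_pos _), ?_⟩
  intro x
  rw [coeff_smul]
  by_cases hx : x ∈ s
  · rw [← Finset.mul_prod_erase s _ hx]
    refine ⟨(∏ y ∈ s.erase x, (X.V.coeff z y).den : ℕ) * (X.V.coeff z x).num, ?_⟩
    push_cast
    have h1 : (((X.V.coeff z x).den : ℚ)) * X.V.coeff z x = (X.V.coeff z x).num := by
      rw [mul_comm]
      exact Rat.mul_den_eq_num _
    rw [← h1]
    ring
  · have h0 : X.V.coeff z x = 0 := Finsupp.notMem_support_iff.1 hx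
    exact ⟨0, by rw [h0]; simp⟩

/-! ### One prime is enough -/

namespace IntegralStructure

variable {W : WeilCohomology.{u, v} ops} {X : 𝒱.Obj} {ℓ : ℕ}

/-- A correspondence which is injective modulo `𝔪` is injective. -/
lemma InjectiveMod.injective {S : IntegralStructure W X ℓ} {i : ℕ} {z : (X.prod X).Cycles}
    (h : S.InjectiveMod i z) {x : W.H X} (hx : x ∈ W.gr X i)
    (h0 : W.corr (W.cl (X.prod X) z) x = 0) : x = 0 := by
  by_contra hne
  obtain ⟨a, ha, ha'⟩ := exists_primitive S.lat.O S.lat.T S.lat.fg S.lat.span_eq_top hne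
  apply ha'
  apply h _ ha (Submodule.smul_mem _ a hx)
  rw [map_smul, cycOp, h0, smul_zero]
  exact Submodule.zero_mem _

lemma nat_isUnit (S : IntegralStructure W X ℓ) {N : ℕ} (hN : N.Coprime ℓ) :
    IsUnit (N : S.lat.O) := by
  by_contra hu
  have h1 : (N : S.lat.O) ∈ IsLocalRing.maximalIdeal S.lat.O := hu
  have h2 := Nat.isCoprime_iff_coprime.2 hN
  obtain ⟨a, b, hab⟩ := h2
  have h3 : (1 : S.lat.O) = (a : S.lat.O) * (N : S.lat.O) + (b : S.lat.O) * (ℓ : S.lat.O) := by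
    have := congrArg (fun m : ℤ => (m : S.lat.O)) hab
    push_cast at this
    exact this.symm
  have h4 : (1 : S.lat.O) ∈ IsLocalRing.maximalIdeal S.lat.O := by
    rw [h3]
    exact Ideal.add_mem _ (Ideal.mul_mem_left _ _ h1) (Ideal.mul_mem_left _ _ S.lat.mem_max)
  exact (Ideal.ne_top_iff_one _).1 (IsLocalRing.maximalIdeal.isMaximal S.lat.O).ne_top h4

lemma mem_of_nat_smul (S : IntegralStructure W X ℓ) {N : ℕ} (hN : N.Coprime ℓ) {t : W.H X}
    (ht : (N : W.K) • t ∈ S.lat.T) : t ∈ S.lat.T := by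
  obtain ⟨u, hu⟩ := S.nat_isUnit hN
  have h1 : t = ((u⁻¹ : S.lat.Oˣ) : S.lat.O) • ((N : W.K) • t) := by
    have h2 : (N : W.K) • t = (N : S.lat.O) • t := rfl
    rw [h2, ← hu, smul_smul, Units.inv_mul, one_smul]
  rw [h1]
  exact Submodule.smul_mem _ _ ht

lemma smul_mem_mT (S : IntegralStructure W X ℓ) (m : ℤ) {t : W.H X} (ht : t ∈ S.lat.T) :
    S.lat.MemMax (((m * ℓ : ℤ) : W.K) • t) := by
  have h1 : ((m * ℓ : ℤ) : W.K) • t = ((m : S.lat.O) * (ℓ : S.lat.O)) • t := by
    change _ = (((m : S.lat.O) * (ℓ : S.lat.O) : S.lat.O) : W.K) • t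
    congr 1
    push_cast
    rfl
  rw [h1]
  exact Submodule.smul_mem_smul (Ideal.mul_mem_left _ _ S.lat.mem_max) ht

lemma mulPow_mem (S : IntegralStructure W X ℓ) {D : X.Cycles} (hD : IsIntegral X D) (c : ℕ)
    {t : W.H X} (ht : t ∈ S.lat.T) : W.cl X D ^ c * t ∈ S.lat.T := by
  induction c with
  | zero => simpa using ht
  | succ c ih => rw [pow_succ', mul_assoc]; exact S.mul_mem D hD _ ih

lemma mulPow_mem_mT (S : IntegralStructure W X ℓ) {D : X.Cycles} (hD : IsIntegral X D) (c : ℕ)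
    {t : W.H X} (ht : S.lat.MemMax t) : S.lat.MemMax (W.cl X D ^ c * t) := by
  unfold Lat.MemMax at ht ⊢
  induction ht using Submodule.smul_induction_on' with
  | smul r hr n hn =>
    have : W.cl X D ^ c * (r • n) = r • (W.cl X D ^ c * n) := by
      change W.cl X D ^ c * ((r : W.K) • n) = (r : W.K) • (W.cl X D ^ c * n)
      rw [mul_smul_comm]
    rw [this]
    exact Submodule.smul_mem_smul hr (S.mulPow_mem hD c hn)
  | add x _ y _ hx hy => rw [mul_add]; exact Submodule.add_mem _ hx hy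

/-- A correspondence which is inverse to a Lefschetz isomorphism modulo `𝔪` is injective modulo
`𝔪`. -/
lemma injectiveMod_of_inverseMod {S : IntegralStructure W X ℓ} {D : X.Cycles}
    (hD : IsIntegral X D) {c : ℕ} (hL : S.LefschetzMod D c) {z : (X.prod X).Cycles}
    (hz : S.InverseMod D c z) : S.InjectiveMod (X.dim + c) z := by
  intro t ht hgr h0
  obtain ⟨s, hs, hsgr, rfl⟩ := hL t ht hgr
  have h1 := hz s hs hsgr
  have h2 : S.lat.MemMax s := by
    have := Submodule.sub_mem _ h0 h1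
    unfold Lat.MemMax
    simpa using this
  exact S.mulPow_mem_mT hD c h2

end IntegralStructure

open IntegralStructure

lemma mulLeft_pow_apply (W : WeilCohomology.{u, v} ops) (X : 𝒱.Obj) (D : X.Cycles) (c : ℕ)
    (a : W.H X) : (LinearMap.mulLeft W.K (W.cl X D) ^ c) a = W.cl X D ^ c * a := by
  rw [LinearMap.pow_mulLeft, LinearMap.mulLeft_apply]

/-- The powers of `Λ` are induced by cycles, simultaneously for all theories for which `Z` induces
`Λ`. -/
lemma exists_power (X : 𝒱.Obj) (D : X.Cycles) (hD : X.IsCyc 1 D) (Z : (X.prod X).Cycles)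
    (hZ : (X.prod X).IsCyc (X.dim - 1) Z) {c : ℕ} (hc : c ≤ X.dim) :
    ∃ z, (X.prod X).IsCyc (X.dim - c) z ∧ ∀ W : WeilCohomology.{u, v} ops,
      HardLefschetz W X D → InducesLambda W X D Z →
      ∀ s ∈ W.gr X (X.dim - c), W.corr (W.cl (X.prod X) z) (W.cl X D ^ c * s) = s := by
  rcases Nat.eq_zero_or_pos c with rfl | hpos
  · obtain ⟨q, hq, z, hz, hY⟩ | ⟨hd, _⟩ := Realized.one (ops := ops) (X := X)
    · obtain rfl : q = X.dim := by omega
      refine ⟨z, hz, fun W _ _ s _ => ?_⟩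
      rw [pow_zero, one_mul, ← hY W, Module.End.one_apply]
    · omega
  · have h1 := (realized_corr (ops := ops) (X := X) (by omega) hZ).pow c
    obtain ⟨q, hq, z, hz, hY⟩ | ⟨hd, _⟩ := h1
    · obtain rfl : q = X.dim - c := by omega
      refine ⟨z, hz, fun W hHL hLam s hs => ?_⟩
      have h2 := lam_pow_L_pow (isHom_mulLeft W hD) (hbdW W) hHL hLam hc hs
      rw [mulLeft_pow_apply] at h2
      rw [← hY W]
      exact h2
    · omega

/-- If one rational cycle induces `Λ` for all the theories, then for almost all primes the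
Lefschetz isomorphisms are isomorphisms of the lattices and have algebraic inverses. -/
lemma almost_all {ι : Type*} {X : 𝒱.Obj} {D : X.Cycles} (hD : X.IsCyc 1 D)
    (ℓ : ι → ℕ) (hℓ : ∀ i, (ℓ i).Prime) (hinj : Function.Injective ℓ)
    (W : ι → WeilCohomology.{u, v} ops) (hHL : ∀ i, HardLefschetz (W i) X D)
    (S : ∀ i, IntegralStructure (W i) X (ℓ i))
    {Z : (X.prod X).Cycles} (hZ : (X.prod X).IsCyc (X.dim - 1) Z)
    (hLam : ∀ i, InducesLambda (W i) X D Z) :
    ∀ᶠ i in Filter.cofinite, ∀ c ≤ X.dim, (S i).LefschetzMod D c ∧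
      ∃ z, IsIntegral (X.prod X) z ∧ (X.prod X).IsCyc (X.dim - c) z ∧
        (S i).InverseMod D c z := by
  classical
  have key : ∀ c : ℕ, c ≤ X.dim → ∀ᶠ i in Filter.cofinite, (S i).LefschetzMod D c ∧
      ∃ z, IsIntegral (X.prod X) z ∧ (X.prod X).IsCyc (X.dim - c) z ∧
        (S i).InverseMod D c z := by
    intro c hc
    obtain ⟨z, hz, hinv⟩ := exists_power (ops := ops) X D hD Z hZ hc
    obtain ⟨N, hN, hint⟩ := exists_denominator (X.prod X) z
    have hfin : {i | ℓ i ∣ N}.Finite := by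
      refine Set.Finite.of_finite_image (f := ℓ) ?_ (hinj.injOn)
      refine (Set.finite_le_nat N).subset ?_
      rintro _ ⟨i, hi, rfl⟩
      exact Nat.le_of_dvd hN hi
    filter_upwards [hfin.compl_mem_cofinite] with i hi
    have hcop : N.Coprime (ℓ i) := ((hℓ i).coprime_iff_not_dvd.2 hi).symm
    have hz' := hinv (W i) (hHL i) (hLam i)
    refine ⟨?_, ?_⟩
    · intro t ht hgr
      obtain ⟨b, hb, hbt⟩ := (hHL i (X.dim - c) (by omega)).2 t
        (by rw [show 2 * X.dim - (X.dim - c) = X.dim + c by omega]; exact hgr)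
      rw [show X.dim - (X.dim - c) = c by omega, mulLeft_pow_apply] at hbt
      refine ⟨b, (S i).mem_of_nat_smul hcop ?_, hb, hbt⟩
      have h1 := (S i).corr_mem _ hint t ht
      rw [cycOp, cl_smul, corr_smul, LinearMap.smul_apply, ← hbt, hz' b hb] at h1
      simpa using h1
    · obtain ⟨a, b, hab⟩ := Nat.isCoprime_iff_coprime.2 hcop
      refine ⟨(a : ℚ) • ((N : ℚ) • z), hint.intSmul a, (hz.smul _).smul _, ?_⟩
      intro s hs hsgr
      have h1 : (W i).corr ((W i).cl (X.prod X) ((a : ℚ) • ((N : ℚ) • z)))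
          ((W i).cl X D ^ c * s) - s = ((-b * (ℓ i : ℤ) : ℤ) : (W i).K) • s := by
        rw [cl_smul, corr_smul, LinearMap.smul_apply, cl_smul, corr_smul, LinearMap.smul_apply,
          hz' s hsgr, smul_smul]
        have h2 : (((a : ℚ) : (W i).K) * ((N : ℚ) : (W i).K)) • s - s =
            (((a : ℚ) : (W i).K) * ((N : ℚ) : (W i).K) - 1) • s := by
          rw [sub_smul, one_smul]
        rw [h2]
        congr 1
        have h3 := congrArg (fun m : ℤ => (m : (W i).K)) hab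
        push_cast at h3 ⊢
        rw [← h3]
        ring
      change (S i).lat.MemMax ((W i).corr ((W i).cl (X.prod X) ((a : ℚ) • ((N : ℚ) • z)))
          ((W i).cl X D ^ c * s) - s)
      rw [h1]
      exact (S i).smul_mem_mT (-b) hs
  have h2 : ∀ᶠ i in Filter.cofinite, ∀ c ∈ Set.Iic X.dim, (S i).LefschetzMod D c ∧
      ∃ z, IsIntegral (X.prod X) z ∧ (X.prod X).IsCyc (X.dim - c) z ∧
        (S i).InverseMod D c z := by
    rw [Filter.eventually_all_finite (Set.finite_Iic X.dim)]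
    exact key
  exact h2

/-- **One prime is enough for the Lefschetz standard conjecture.** -/
theorem one_prime {ι : Type*} [Infinite ι] {X : 𝒱.Obj} {D : X.Cycles} (hD : X.IsCyc 1 D)
    (hDint : IsIntegral X D)
    (ℓ : ι → ℕ) (hℓ : ∀ i, (ℓ i).Prime) (hinj : Function.Injective ℓ)
    (W : ι → WeilCohomology.{u, v} ops) (hHL : ∀ i, HardLefschetz (W i) X D)
    (hbetti : ∀ i j m, (W i).betti X m = (W j).betti X m)
    (S : ∀ i, IntegralStructure (W i) X (ℓ i)) :
    List.TFAE [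
      ∃ i, LefschetzB (W i) X D,
      ∃ Z, (X.prod X).IsCyc (X.dim - 1) Z ∧ ∀ W' : WeilCohomology.{u, v} ops,
        (∃ i, ∀ m, W'.betti X m = (W i).betti X m) →
          HardLefschetz W' X D ∧ InducesLambda W' X D Z,
      ∃ i, ∀ c, 1 ≤ c → c ≤ X.dim → ∃ z, IsIntegral (X.prod X) z ∧
        (X.prod X).IsCyc (X.dim - c) z ∧ (S i).InjectiveMod (X.dim + c) z,
      ∀ᶠ i in Filter.cofinite, ∀ c ≤ X.dim, (S i).LefschetzMod D c ∧
        ∃ z, IsIntegral (X.prod X) z ∧ (X.prod X).IsCyc (X.dim - c) z ∧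
          (S i).InverseMod D c z] := by
  tfae_have 1 → 2 := by
    rintro ⟨i₀, hB⟩
    rcases Nat.eq_zero_or_pos X.dim with hn | hn
    · refine ⟨0, SmVar.IsCyc.zero _ _, fun W' _ => ⟨?_, ?_⟩⟩
      · intro j hj
        obtain rfl : j = 0 := by omega
        rw [hn]
        exact ⟨fun a _ h0 => h0, fun b hb => ⟨b, hb, rfl⟩⟩
      · intro j hj a ha _
        refine ⟨?_, fun l hl => by omega⟩
        rw [map_zero, corr_zero, LinearMap.zero_apply]
    · obtain ⟨Z, hZ, h⟩ := indep_weil hn D hD (W i₀) (hHL i₀) hB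
      refine ⟨Z, hZ, fun W' ⟨i, hi⟩ => ?_⟩
      exact ((h W').out 2 1).1 (fun m => (hi m).trans (hbetti i i₀ m))
  tfae_have 2 → 4 := by
    rintro ⟨Z, hZ, hLam⟩
    exact almost_all hD ℓ hℓ hinj W hHL S hZ (fun i => (hLam (W i) ⟨i, fun _ => rfl⟩).2)
  tfae_have 4 → 3 := by
    intro h
    obtain ⟨i, hi⟩ := h.exists
    refine ⟨i, fun c _ hc => ?_⟩
    obtain ⟨hL, z, hz, hzc, hinv⟩ := hi c hc
    exact ⟨z, hz, hzc, injectiveMod_of_inverseMod hDint hL hinv⟩
  tfae_have 3 → 1 := by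
    rintro ⟨i, h⟩
    refine ⟨i, ((lefschetzB_tfae hD (hHL i)).out 2 0).1 fun c hc => ?_⟩
    rcases Nat.eq_zero_or_pos c with rfl | hpos
    · obtain ⟨ν, hν, hinjν⟩ : ∃ ν ∈ KOp (W i) X X (-((0 : ℕ) : ℤ)),
          ∀ a ∈ (W i).gr X (X.dim + 0), ν a = 0 → a = 0 :=
        ⟨LinearMap.id, KOp.cast (KOp.id X) (by simp), fun a _ h0 => h0⟩
      obtain ⟨γ, hγ, rfl⟩ := mem_KOp_iff.1 hν
      exact ⟨γ, hγ, hinjν⟩
    · obtain ⟨z, -, hzc, hz⟩ := h c hpos hc
      refine ⟨(W i).cl (X.prod X) z, Submodule.subset_span ⟨X.dim - c, by omega, z, hzc, rfl⟩, ?_⟩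
      intro x hx h0
      exact hz.injective hx h0
  tfae_finish

end Pool.Agent.H838
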