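import Pool.Agent.H838.NakDefs
import Pool.Agent.H838.LatPoly
import Pool.Agent.H838.OpRing
import Pool.Agent.H838.PrimeMain

/-!
# Nakayama's lemma for the Lefschetz standard conjecture
-/

open CategoryTheory AlgebraicGeometry Finset Polynomial

universe u v

namespace Pool.Agent.H838

open Pool.Agent.H914 Pool.Agent.H914.VarClass Pool.Agent.H914.VarClass.Obj
  Pool.Agent.H914.WeilCohomology

variable {k : Type u} [Field k] {𝒱 : VarClass k} {ops : CycleOps 𝒱}

/-! ### Cycles with coefficients in the local ring at `ℓ` -/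

lemma den_add {ℓ : ℕ} (hℓ : ℓ.Prime) {q r : ℚ} (hq : ¬ ℓ ∣ q.den) (hr : ¬ ℓ ∣ r.den) :
    ¬ ℓ ∣ (q + r).den := fun h =>
  (hℓ.dvd_mul.1 (h.trans (Rat.add_den_dvd q r))).elim hq hr

lemma den_mul {ℓ : ℕ} (hℓ : ℓ.Prime) {q r : ℚ} (hq : ¬ ℓ ∣ q.den) (hr : ¬ ℓ ∣ r.den) :
    ¬ ℓ ∣ (q * r).den := fun h =>
  (hℓ.dvd_mul.1 (h.trans (Rat.mul_den_dvd q r))).elim hq hr

lemma coeff_add (X : 𝒱.Obj) (z w : X.Cycles) (x : X.V.X) :
    X.V.coeff (z + w) x = X.V.coeff z x + X.V.coeff w x :=
  Finsupp.add_apply (M := ℚ) (ι := X.V.X) z w x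

lemma coeff_zero' (X : 𝒱.Obj) (x : X.V.X) : X.V.coeff (0 : X.Cycles) x = 0 := rfl

section

variable {ℓ : ℕ} (hℓ : ℓ.Prime) {X : 𝒱.Obj}

include hℓ

lemma IsIntegral.at {z : X.Cycles} (hz : IsIntegral X z) : IsIntegralAt ℓ X z := by
  intro x
  obtain ⟨m, hm⟩ := hz x
  rw [hm, Rat.den_intCast, Nat.dvd_one]
  exact hℓ.one_lt.ne'

lemma isIntegralAt_zero : IsIntegralAt ℓ X (0 : X.Cycles) := by
  intro x
  rw [coeff_zero', Rat.den_zero, Nat.dvd_one]
  exact hℓ.one_lt.ne'

lemma IsIntegralAt.add {z w : X.Cycles} (hz : IsIntegralAt ℓ X z) (hw : IsIntegralAt ℓ X w) :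
    IsIntegralAt ℓ X (z + w) := by
  intro x
  rw [coeff_add]
  exact den_add hℓ (hz x) (hw x)

lemma IsIntegralAt.smul {z : X.Cycles} (hz : IsIntegralAt ℓ X z) {q : ℚ} (hq : ¬ ℓ ∣ q.den) :
    IsIntegralAt ℓ X (q • z) := by
  intro x
  rw [coeff_smul]
  exact den_mul hℓ hq (hz x)

/-- Denominators prime to `ℓ` can be cleared by a number prime to `ℓ`. -/
lemma IsIntegralAt.exists_denominator {z : X.Cycles} (hz : IsIntegralAt ℓ X z) :
    ∃ N : ℕ, ¬ ℓ ∣ N ∧ IsIntegral X ((N : ℚ) • z) := by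
  classical
  let s : Finset X.V.X := Finsupp.support (M := ℚ) (α := X.V.X) z
  refine ⟨∏ x ∈ s, (X.V.coeff z x).den, ?_, ?_⟩
  · rw [Prime.dvd_finsetProd_iff hℓ.prime]
    rintro ⟨x, -, hx⟩
    exact hz x hx
  intro x
  rw [coeff_smul]
  by_cases hx : x ∈ s
  · rw [← Finset.mul_prod_erase s _ hx]
    refine ⟨(∏ y ∈ s.erase x, (X.V.coeff z y).den : ℕ) * (X.V.coeff z x).num, ?_⟩
    push_cast
    have h1 : (((X.V.coeff z x).den : ℚ)) * X.V.coeff z x = (X.V.coeff z x).num := by
      rw [mul_comm]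
      exact Rat.mul_den_eq_num _
    rw [← h1]
    ring
  · have h0 : X.V.coeff z x = 0 := Finsupp.notMem_support_iff.1 hx
    exact ⟨0, by rw [h0]; simp⟩

omit hℓ in
lemma den_inv_nat {N : ℕ} (hN : ¬ ℓ ∣ N) : ¬ ℓ ∣ ((N : ℚ)⁻¹).den := by
  have hN0 : N ≠ 0 := by rintro rfl; exact hN (dvd_zero _)
  rw [Rat.inv_natCast_den_of_pos (Nat.pos_of_ne_zero hN0)]
  exact hN

end

/-- The operators of degree `2 d` given by cycles with coefficients in the local ring at `ℓ`. -/
def RInt (ℓ : ℕ) (W : WeilCohomology.{u, v} ops) (X : 𝒱.Obj) (d : ℤ)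
    (y : Module.End W.K (W.H X)) : Prop :=
  (∃ q : ℕ, (q : ℤ) = X.dim + d ∧ ∃ z, IsIntegralAt ℓ (X.prod X) z ∧ (X.prod X).IsCyc q z ∧
    y = cycOp W X z) ∨ ((X.dim : ℤ) + d < 0 ∧ y = 0)

variable {W : WeilCohomology.{u, v} ops} {X : 𝒱.Obj} {ℓ : ℕ}

lemma cycOp_smul (q : ℚ) (z : (X.prod X).Cycles) :
    cycOp W X (q • z) = (q : W.K) • cycOp W X z := by
  rw [cycOp, cl_smul, corr_smul]; rfl

lemma cycOp_add (z w : (X.prod X).Cycles) :
    cycOp W X (z + w) = cycOp W X z + cycOp W X w := by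
  rw [cycOp, map_add, corr_add]; rfl

lemma cycOp_zero : cycOp W X (0 : (X.prod X).Cycles) = 0 := by
  rw [cycOp, map_zero, corr_zero]

lemma RInt.rop {d : ℤ} {y : Module.End W.K (W.H X)} (h : RInt ℓ W X d y) : ROp W X d y := by
  rcases h with ⟨q, hq, z, -, hz, rfl⟩ | ⟨hd, rfl⟩
  · exact ⟨fun W => W.corr (W.cl _ z), Or.inl ⟨q, hq, z, hz, fun _ => rfl⟩, rfl⟩
  · exact ⟨fun W => 0, Or.inr ⟨hd, fun _ => rfl⟩, rfl⟩

lemma RInt.smul (hℓ : ℓ.Prime) {d : ℤ} {y : Module.End W.K (W.H X)} (h : RInt ℓ W X d y) {q : ℚ}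
    (hq : ¬ ℓ ∣ q.den) : RInt ℓ W X d ((q : W.K) • y) := by
  rcases h with ⟨p, hp, z, hz, hzc, rfl⟩ | ⟨hd, rfl⟩
  · exact Or.inl ⟨p, hp, q • z, hz.smul hℓ hq, hzc.smul q, (cycOp_smul q z).symm⟩
  · exact Or.inr ⟨hd, smul_zero _⟩

lemma isIntegral_fund (X : 𝒱.Obj) : IsIntegral X (X.V.fundCycle : X.Cycles) := by
  classical
  intro x
  by_cases h : x = genericPoint X.V.X
  · refine ⟨1, ?_⟩
    rw [h]
    have : X.V.coeff X.V.fundCycle (genericPoint X.V.X) = 1 :=
      Finsupp.single_eq_same (M := ℚ) (α := X.V.X)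
    rw [this, Int.cast_one]
  · refine ⟨0, ?_⟩
    have : X.V.coeff X.V.fundCycle x = 0 :=
      Finsupp.single_eq_of_ne (M := ℚ) (α := X.V.X) h
    rw [this, Int.cast_zero]

lemma compCyc_integral (hops : PreservesIntegral ops) {z w : (X.prod X).Cycles}
    (hz : IsIntegral _ z) (hw : IsIntegral _ w) : IsIntegral (X.prod X) (compCyc ops z w) :=
  hops.push _ (hops.mul (hops.pull _ hz) (hops.pull _ hw))

lemma rint_mulLeft (hops : PreservesIntegral ops) (hℓ : ℓ.Prime) {p : ℕ} {D : X.Cycles}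
    (hD : X.IsCyc p D) (hDint : IsIntegral X D) :
    RInt ℓ W X p (LinearMap.mulLeft W.K (W.cl X D)) := by
  refine Or.inl ⟨X.dim + p, by push_cast; ring, ops.push (diag X) D,
    (hops.push _ hDint).at hℓ, ops.push_mem _ hD (by simp only [dim_prod]; omega), ?_⟩
  apply LinearMap.ext
  intro a
  rw [cycOp, W.cl_push, corr_diag, LinearMap.mulLeft_apply]

lemma rint_opRing (hops : PreservesIntegral ops) (hℓ : ℓ.Prime) :
    OpRing (W.gr X) (RInt ℓ W X) where
  one := by
    have h := rint_mulLeft (W := W) hops hℓ X.V.fundCycle_mem (isIntegral_fund X)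
    have e : LinearMap.mulLeft W.K (W.cl X X.V.fundCycle) = (1 : Module.End W.K (W.H X)) := by
      apply LinearMap.ext
      intro a
      rw [LinearMap.mulLeft_apply, W.cl_fund, one_mul, Module.End.one_apply]
    rw [e] at h
    simpa using h
  zero d := by
    by_cases hd : (X.dim : ℤ) + d < 0
    · exact Or.inr ⟨hd, rfl⟩
    · exact Or.inl ⟨(X.dim + d).toNat, by omega, 0, isIntegralAt_zero hℓ, SmVar.IsCyc.zero _ _,
        cycOp_zero.symm⟩
  add := by
    rintro d y y' (⟨q, hq, z, hz, hzc, rfl⟩ | ⟨hd, rfl⟩) (⟨q', hq', z', hz', hzc', rfl⟩ | ⟨hd', rfl⟩)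
    · obtain rfl : q = q' := by omega
      exact Or.inl ⟨q, hq, z + z', hz.add hℓ hz', hzc.add hzc', (cycOp_add z z').symm⟩
    · omega
    · omega
    · exact Or.inr ⟨hd, add_zero _⟩
  neg := by
    intro d y hy
    have e : -y = ((-1 : ℚ) : W.K) • y := by
      rw [Rat.cast_neg, Rat.cast_one]
      exact (neg_one_smul W.K y).symm
    rw [e]
    exact hy.smul hℓ (q := -1) (by
      rw [Rat.den_neg_eq_den, Rat.den_one, Nat.dvd_one]; exact hℓ.one_lt.ne')
  mul := by
    intro d e y y' hy hy'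
    by_cases hde : (X.dim : ℤ) + (d + e) < 0
    · refine Or.inr ⟨hde, ?_⟩
      exact eq_zero_of_isHom (W.isInternal X) (W.gr_eq_bot X) (by omega)
        ((rop_opAlg.hom hy.rop).mul (rop_opAlg.hom hy'.rop))
    · rcases hy with ⟨q, hq, z, hz, hzc, rfl⟩ | ⟨hd, rfl⟩
      · rcases hy' with ⟨q', hq', z', hz', hzc', rfl⟩ | ⟨hd', rfl⟩
        · obtain ⟨N, hN, hNz⟩ := hz.exists_denominator hℓ
          obtain ⟨M, hM, hMz⟩ := hz'.exists_denominator hℓ
          have hN0 : (N : ℚ) ≠ 0 := by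
            intro h; apply hN; rw [Nat.cast_eq_zero] at h; rw [h]; exact dvd_zero _
          have hM0 : (M : ℚ) ≠ 0 := by
            intro h; apply hM; rw [Nat.cast_eq_zero] at h; rw [h]; exact dvd_zero _
          refine Or.inl ⟨(X.dim + (d + e)).toNat, by omega,
            ((N : ℚ)⁻¹ * (M : ℚ)⁻¹) • compCyc ops ((M : ℚ) • z') ((N : ℚ) • z), ?_, ?_, ?_⟩
          · exact ((compCyc_integral hops hMz hNz).at hℓ).smul hℓ
              (den_mul hℓ (den_inv_nat hN) (den_inv_nat hM))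
          · exact (compCyc_mem (hzc'.smul _) (hzc.smul _) (by omega)).smul _
          · have e3 : cycOp W X (compCyc ops ((M : ℚ) • z') ((N : ℚ) • z)) =
                W.corr (W.cl _ ((N : ℚ) • z)) ∘ₗ W.corr (W.cl _ ((M : ℚ) • z')) :=
              corr_compCyc W (hzc.smul _)
            rw [cycOp_smul, e3]
            have e1 : W.corr (W.cl (X.prod X) ((N : ℚ) • z)) = (((N : ℚ)) : W.K) • cycOp W X z :=
              cycOp_smul _ _
            have e2 : W.corr (W.cl (X.prod X) ((M : ℚ) • z')) =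
              (((M : ℚ)) : W.K) • cycOp W X z' := cycOp_smul _ _
            rw [e1, e2]
            have hN0' : ((N : ℚ) : W.K) ≠ 0 := by exact_mod_cast hN0
            have hM0' : ((M : ℚ) : W.K) ≠ 0 := by exact_mod_cast hM0
            rw [LinearMap.smul_comp, LinearMap.comp_smul, smul_smul, smul_smul]
            push_cast at hN0' hM0' ⊢
            have : ((N : W.K)⁻¹ * (M : W.K)⁻¹ * ((N : W.K) * (M : W.K))) = 1 := by
              field_simp
            rw [← mul_assoc] at this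
            rw [this, one_smul]
            rfl
        · refine Or.inl ⟨(X.dim + (d + e)).toNat, by omega, 0, isIntegralAt_zero hℓ,
            SmVar.IsCyc.zero _ _, ?_⟩
          rw [mul_zero, cycOp_zero]
      · refine Or.inl ⟨(X.dim + (d + e)).toNat, by omega, 0, isIntegralAt_zero hℓ,
          SmVar.IsCyc.zero _ _, ?_⟩
        rw [zero_mul, cycOp_zero]
  hom := fun hy => rop_opAlg.hom hy.rop

lemma RInt.ev (hops : PreservesIntegral ops) (hℓ : ℓ.Prime) {y : Module.End W.K (W.H X)}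
    (hy : RInt ℓ W X 0 y) (f : ℚ[X]) (hf : ∀ i, ¬ ℓ ∣ (f.coeff i).den) :
    RInt ℓ W X 0 (H914.ev y f) := by
  rw [f.as_sum_range_C_mul_X_pow, map_sum]
  apply (rint_opRing hops hℓ).sum
  intro i _
  rw [map_mul, map_pow, ev_C, ev_X, smul_mul_assoc, one_mul]
  apply RInt.smul hℓ _ (hf i)
  exact (rint_opRing hops hℓ).cast ((rint_opRing hops hℓ).pow hy i) (by simp)

section Rng

variable {A : Type*} [Ring A] {P u : A}

lemma cut_mul (hPP : P * P = P) (hcomm : u * P = P * u) : P * (u * P + (1 - P)) = u * P := by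
  rw [mul_add, mul_sub, mul_one, hPP, sub_self, add_zero, ← mul_assoc, ← hcomm, mul_assoc, hPP]

lemma cut_pow (hPP : P * P = P) (hcomm : u * P = P * u) (r : ℕ) :
    (u * P + (1 - P)) ^ r = P * u ^ r + (1 - P) := by
  induction r with
  | zero => rw [pow_zero, pow_zero, mul_one]; abel
  | succ r ih =>
    have hc' : Commute P (u ^ r) := (Commute.pow_right (show Commute P u from hcomm.symm) r)
    have e1 : (1 - P) * (u * P) = 0 := by
      rw [sub_mul, one_mul, ← mul_assoc, ← hcomm, mul_assoc, hPP, sub_self]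
    have e2 : (1 - P) * (1 - P) = 1 - P := by
      rw [sub_mul, mul_sub, mul_sub, hPP]; simp
    have e3 : P * u ^ r * (1 - P) = 0 := by
      rw [hc'.eq, mul_sub, mul_one, mul_assoc, hPP, sub_self]
    have e4 : P * u ^ r * (u * P) = P * u ^ (r + 1) := by
      rw [hcomm, ← mul_assoc, mul_assoc P, ← hc'.eq, ← mul_assoc, hPP, mul_assoc, pow_succ]
    rw [pow_succ, ih, add_mul, mul_add, mul_add, e1, e2, e3, e4, add_zero, zero_add]

end Rng

section Lin

variable {K : Type*} [Field K] [CharZero K] {V : Type*} [AddCommGroup V] [Module K V]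

lemma ev_eq_on {E u : Module.End K V} {U : Submodule K V} (hu : ∀ x ∈ U, u x ∈ U)
    (hE : ∀ x ∈ U, E x = u x) (f : ℚ[X]) : ∀ x ∈ U, ev E f x = ev u f x := by
  have hpow : ∀ (r : ℕ), ∀ x ∈ U, (E ^ r) x = (u ^ r) x ∧ (u ^ r) x ∈ U := by
    intro r
    induction r with
    | zero => intro x hx; exact ⟨rfl, hx⟩
    | succ r ih =>
      intro x hx
      rw [pow_succ', pow_succ', Module.End.mul_apply, Module.End.mul_apply, (ih x hx).1]
      exact ⟨hE _ (ih x hx).2, hu _ (ih x hx).2⟩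
  intro x hx
  induction f using Polynomial.induction_on' with
  | add a b ha hb => rw [map_add, map_add, LinearMap.add_apply, LinearMap.add_apply, ha, hb]
  | monomial r c =>
    rw [← C_mul_X_pow_eq_monomial, map_mul, map_pow, ev_C, ev_X, smul_mul_assoc, one_mul, map_mul,
      map_pow, ev_C, ev_X, smul_mul_assoc, one_mul, LinearMap.smul_apply, LinearMap.smul_apply,
      (hpow r x hx).1]

/-- The projectors preserve a graded lattice. -/
lemma Lat.IsGraded.proj_mem {ℓ : ℕ} {S : Lat K V ℓ} {gr : ℕ → Submodule K V}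
    (hS : S.IsGraded gr) (h : DirectSum.IsInternal gr) (i : ℕ) : S.Preserves (proj h i) := by
  intro t ht
  have h1 := hS t ht
  clear ht
  induction h1 using Submodule.span_induction with
  | mem x hx =>
    obtain ⟨hxT, j, hj⟩ := hx
    by_cases hij : j = i
    · subst hij; rw [proj_same h hj]; exact hxT
    · rw [proj_ne h hj hij]; exact Submodule.zero_mem _
  | zero => rw [map_zero]; exact Submodule.zero_mem _
  | add x y _ _ ihx ihy => rw [map_add]; exact Submodule.add_mem _ ihx ihy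
  | smul a x _ ih =>
    have : proj h i (a • x) = a • proj h i x := (proj h i).map_smul (a : K) x
    rw [this]
    exact Submodule.smul_mem _ _ ih

/-- An operator preserving the lattice preserves `𝔪 T`. -/
lemma Lat.Preserves.memMax {ℓ : ℕ} {S : Lat K V ℓ} {F : V →ₗ[K] V} (hF : S.Preserves F) {t : V}
    (ht : S.MemMax t) : S.MemMax (F t) := by
  unfold Lat.MemMax at ht ⊢
  induction ht using Submodule.smul_induction_on' with
  | smul r hr n hn =>
    have : F (r • n) = r • F n := F.map_smul (r : K) n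
    rw [this]
    exact Submodule.smul_mem_smul hr (hF n hn)
  | add x _ y _ hx hy => rw [map_add]; exact Submodule.add_mem _ hx hy

end Lin

lemma lefPow_eq (W : WeilCohomology.{u, v} ops) (X : 𝒱.Obj) (D : X.Cycles) (c : ℕ) :
    lefPow W X D c = LinearMap.mulLeft W.K (W.cl X D) ^ c := by
  rw [lefPow, LinearMap.pow_mulLeft]

/-- If `L ^ c` maps `T ∩ H^(n - c)` onto `T ∩ H^(n + c)` and is injective, then it is injective
modulo the maximal ideal. -/
lemma lefschetz_injMod {D : X.Cycles} (hD : X.IsCyc 1 D) (hHL : HardLefschetz W X D)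
    (S : IntegralStructure W X ℓ) (hS : S.lat.IsGraded (W.gr X)) {c : ℕ} (hc : c ≤ X.dim)
    (hL : S.LefschetzMod D c) {s : W.H X} (hs : s ∈ W.gr X (X.dim - c))
    (h0 : S.lat.MemMax (lefPow W X D c s)) : S.lat.MemMax s := by
  have hLs : lefPow W X D c s ∈ W.gr X (X.dim + c) := by
    have h1 := pow_L_mem (isHom_mulLeft W hD) hs c
    rw [lefPow_eq]
    rwa [show X.dim - c + 2 * c = X.dim + c by omega] at h1
  -- the image lies in `𝔪 T ∩ H^(n + c)`, hence is the image of an element of `𝔪 T`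
  have key : ∀ t, S.lat.MemMax t → ∃ r, S.lat.MemMax r ∧ r ∈ W.gr X (X.dim - c) ∧
      lefPow W X D c r = proj (W.isInternal X) (X.dim + c) t := by
    intro t ht
    unfold Lat.MemMax at ht
    induction ht using Submodule.smul_induction_on' with
    | smul a ha n hn =>
      obtain ⟨r, hr, hrgr, hrL⟩ := hL _ (hS.proj_mem (W.isInternal X) (X.dim + c) n hn)
        (H914.proj_mem _ _ _)
      refine ⟨(a : W.K) • r, Submodule.smul_mem_smul ha hr, Submodule.smul_mem _ _ hrgr, ?_⟩
      rw [map_smul, hrL]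
      exact ((proj (W.isInternal X) (X.dim + c)).map_smul (a : W.K) n).symm
    | add x _ y _ hx hy =>
      obtain ⟨r, hr, hrgr, hrL⟩ := hx
      obtain ⟨r', hr', hrgr', hrL'⟩ := hy
      exact ⟨r + r', Submodule.add_mem _ hr hr', Submodule.add_mem _ hrgr hrgr', by
        rw [map_add, hrL, hrL', map_add]⟩
  obtain ⟨r, hr, hrgr, hrL⟩ := key _ h0
  rw [proj_same _ hLs] at hrL
  have h2 : s = r := by
    rw [← sub_eq_zero]
    have h3 := (hHL (X.dim - c) (by omega)).1 (s - r) (Submodule.sub_mem _ hs hrgr)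
    apply h3
    rw [show X.dim - (X.dim - c) = c by omega, map_sub, ← lefPow_eq, hrL, sub_self]
  rw [h2]
  exact hr

/-- The main step: a correspondence which is injective modulo the maximal ideal can be corrected to
an inverse of the Lefschetz isomorphism. -/
lemma exists_theta (hops : PreservesIntegral ops) (hℓ : ℓ.Prime) {D : X.Cycles}
    (hD : X.IsCyc 1 D) (hDint : IsIntegral X D) (hHL : HardLefschetz W X D)
    (S : IntegralStructure W X ℓ) (hS : S.lat.IsGraded (W.gr X)) {c : ℕ} (hc : c ≤ X.dim)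
    (hL : S.LefschetzMod D c) (hP : ∀ i, ROp W X 0 (proj (W.isInternal X) i))
    {z : (X.prod X).Cycles} (hz : IsIntegral _ z) (hzc : (X.prod X).IsCyc (X.dim - c) z)
    (hinj : S.InjectiveMod (X.dim + c) z) :
    ∃ θ, RInt ℓ W X (-c) θ ∧ ∀ a ∈ W.gr X (X.dim - c),
      θ ((LinearMap.mulLeft W.K (W.cl X D) ^ c) a) = a := by
  have hR := rint_opRing (W := W) (X := X) hops hℓ
  have hLR : RInt ℓ W X 1 (LinearMap.mulLeft W.K (W.cl X D)) := by
    have := rint_mulLeft (W := W) hops hℓ hD hDint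
    simpa using this
  have hzR : RInt ℓ W X (-c) (cycOp W X z) :=
    Or.inl ⟨X.dim - c, by omega, z, hz.at hℓ, hzc, rfl⟩
  set L := LinearMap.mulLeft W.K (W.cl X D) with hLdef
  set h := W.isInternal X with hh
  obtain ⟨u, hu⟩ : ∃ u : Module.End W.K (W.H X), u = cycOp W X z * L ^ c := ⟨_, rfl⟩
  have huR : RInt ℓ W X 0 u := by
    rw [hu]; exact hR.cast (hR.mul hzR (hR.pow hLR c)) (by ring)
  have huhom : ∀ i, ∀ a ∈ W.gr X i, u a ∈ W.gr X i := by
    intro i a ha
    have h1 := hR.hom huR i a (by rw [grZ_natCast]; exact ha)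
    rw [mul_zero, add_zero, grZ_natCast] at h1
    exact h1
  obtain ⟨P, hPdef⟩ : ∃ P : Module.End W.K (W.H X), P = proj h (X.dim - c) := ⟨_, rfl⟩
  obtain ⟨E, hE⟩ : ∃ E : Module.End W.K (W.H X), E = u * P + (1 - P) := ⟨_, rfl⟩
  have hcomm : u * P = P * u := by
    apply gr_ext h
    intro i a ha
    rw [Module.End.mul_apply, Module.End.mul_apply]
    by_cases hi : i = X.dim - c
    · subst hi; rw [hPdef, proj_same h ha, proj_same h (huhom _ a ha)]
    · rw [hPdef, proj_ne h ha hi, proj_ne h (huhom _ a ha) hi, map_zero]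
  have hPP : P * P = P := by
    apply gr_ext h
    intro i a ha
    rw [Module.End.mul_apply]
    by_cases hi : i = X.dim - c
    · subst hi; rw [hPdef, proj_same h ha, proj_same h ha]
    · rw [hPdef, proj_ne h ha hi, map_zero]
  -- the lattice is preserved
  have hPT : S.lat.Preserves P := by rw [hPdef]; exact hS.proj_mem h _
  have hLT : S.lat.Preserves (L ^ c) := by
    intro t ht
    have := S.mulPow_mem hDint c ht
    rwa [← mulLeft_pow_apply] at this
  have hzT : S.lat.Preserves (cycOp W X z) := S.corr_mem z hz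
  have huT : S.lat.Preserves u := by rw [hu]; exact fun t ht => hzT _ (hLT t ht)
  have hET : S.lat.Preserves E := by
    intro t ht
    rw [hE, LinearMap.add_apply, LinearMap.sub_apply, Module.End.mul_apply, Module.End.one_apply]
    exact Submodule.add_mem _ (huT _ (hPT t ht)) (Submodule.sub_mem _ ht (hPT t ht))
  -- injectivity modulo the maximal ideal
  have hEinj : ∀ t ∈ S.lat.T, S.lat.MemMax (E t) → S.lat.MemMax t := by
    intro t ht h0
    have hPE : P (E t) = u (P t) := by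
      have e : P * E = u * P := by rw [hE]; exact cut_mul hPP hcomm
      have := congrArg (fun F => F t) e
      simpa [Module.End.mul_apply] using this
    have hQE : E t - P (E t) = t - P t := by
      rw [hPE, hE, LinearMap.add_apply, LinearMap.sub_apply, Module.End.mul_apply,
        Module.End.one_apply]
      abel
    have h1 : S.lat.MemMax (u (P t)) := by rw [← hPE]; exact hPT.memMax h0
    have h2 : S.lat.MemMax (t - P t) := by
      rw [← hQE]; exact Submodule.sub_mem _ h0 (hPT.memMax h0)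
    have hPt : P t ∈ W.gr X (X.dim - c) := by rw [hPdef]; exact H914.proj_mem h _ t
    have h3 : S.lat.MemMax (P t) := by
      apply lefschetz_injMod hD hHL S hS hc hL hPt
      have h4 : (L ^ c) (P t) ∈ W.gr X (X.dim + c) := by
        have h5 := pow_L_mem (isHom_mulLeft W hD) hPt c
        rwa [show X.dim - c + 2 * c = X.dim + c by omega] at h5
      rw [lefPow_eq]
      rw [hu] at h1
      exact hinj _ (hLT _ (hPT t ht)) h4 h1
    have h4 : t = P t + (t - P t) := by abel
    rw [h4]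
    exact Submodule.add_mem _ h3 h2
  -- rational traces
  have htr : ∀ r : ℕ, ∃ q : ℚ, LinearMap.trace W.K (W.H X) (E ^ r) = q := by
    have hEr : ∀ r : ℕ, E ^ r = P * u ^ r + (1 - P) := by
      rw [hE]; exact cut_pow hPP hcomm
    have hrat : ∀ y : Module.End W.K (W.H X), ROp W X 0 y →
        ∃ q : ℚ, LinearMap.trace W.K (W.H X) (P * y) = q := by
      intro y hy
      rw [hPdef]
      obtain ⟨q, hq⟩ := rop_str (proj h (X.dim - c) * y)
        (rop_opAlg.cast (rop_opAlg.mul (hP _) hy) (by simp))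
      refine ⟨(-1) ^ (X.dim - c) * q, ?_⟩
      rw [trace_proj_eq, hq]
      push_cast
      ring
    intro r
    obtain ⟨q, hq⟩ := hrat (u ^ r) (rop_opAlg.cast (rop_opAlg.pow huR.rop r) (by simp))
    obtain ⟨q', hq'⟩ := hrat 1 rop_opAlg.one
    refine ⟨q + Module.finrank W.K (W.H X) - q', ?_⟩
    rw [mul_one] at hq'
    rw [hEr, map_add, map_sub, hq, LinearMap.trace_one, hq']
    push_cast
    ring
  obtain ⟨q, hqO, hq⟩ := exists_local_inverse S.lat hET hEinj htr
  refine ⟨H914.ev u q * cycOp W X z, ?_, ?_⟩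
  · refine hR.cast (hR.mul (huR.ev hops hℓ q fun i => S.lat.not_dvd_den (hqO i)) hzR) (by ring)
  · intro a ha
    have hEu : ∀ x ∈ W.gr X (X.dim - c), E x = u x := by
      intro x hx
      rw [hE, LinearMap.add_apply, LinearMap.sub_apply, Module.End.mul_apply,
        Module.End.one_apply, hPdef, proj_same h hx, sub_self, add_zero]
    have h1 := hq a
    rw [hEu a ha, ev_eq_on (huhom _) hEu q _ (huhom _ a ha)] at h1
    rw [hu] at h1
    rw [Module.End.mul_apply, hu]
    exact h1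

/-- Injective correspondences modulo one prime imply the conjecture B. -/
lemma lefschetzB_of_injectiveMod {D : X.Cycles} (hD : X.IsCyc 1 D) (hHL : HardLefschetz W X D)
    (S : IntegralStructure W X ℓ)
    (h : ∀ c, 1 ≤ c → c ≤ X.dim → ∃ z, (X.prod X).IsCyc (X.dim - c) z ∧
      S.InjectiveMod (X.dim + c) z) : LefschetzB W X D := by
  refine ((lefschetzB_tfae hD hHL).out 2 0).1 fun c hc => ?_
  rcases Nat.eq_zero_or_pos c with rfl | hpos
  · obtain ⟨ν, hν, hinjν⟩ : ∃ ν ∈ KOp W X X (-((0 : ℕ) : ℤ)),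
        ∀ a ∈ W.gr X (X.dim + 0), ν a = 0 → a = 0 :=
      ⟨LinearMap.id, KOp.cast (KOp.id X) (by simp), fun a _ h0 => h0⟩
    obtain ⟨γ, hγ, rfl⟩ := mem_KOp_iff.1 hν
    exact ⟨γ, hγ, hinjν⟩
  · obtain ⟨z, hzc, hz⟩ := h c hpos hc
    refine ⟨W.cl (X.prod X) z, Submodule.subset_span ⟨X.dim - c, by omega, z, hzc, rfl⟩, ?_⟩
    intro x hx h0
    exact hz.injective hx h0

/-- **Nakayama's lemma for the Lefschetz standard conjecture.** -/
theorem nakayama (hops : PreservesIntegral ops) (hℓ : ℓ.Prime) {D : X.Cycles}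
    (hD : X.IsCyc 1 D) (hDint : IsIntegral X D) (hHL : HardLefschetz W X D)
    (S : IntegralStructure W X ℓ) (hS : S.lat.IsGraded (W.gr X))
    (hL : ∀ c ≤ X.dim, S.LefschetzMod D c) :
    List.TFAE [
      ∀ c, 1 ≤ c → c ≤ X.dim → ∃ z, IsIntegral (X.prod X) z ∧
        (X.prod X).IsCyc (X.dim - c) z ∧ S.InjectiveMod (X.dim + c) z,
      ∀ c ≤ X.dim, ∃ z, IsIntegralAt ℓ (X.prod X) z ∧ (X.prod X).IsCyc (X.dim - c) z ∧
        InducesInverse W X D c z,
      (∃ z, IsIntegralAt ℓ (X.prod X) z ∧ (X.prod X).IsCyc (X.dim - 1) z ∧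
        InducesLambda W X D z) ∧
      ∀ i, ∃ P, IsIntegralAt ℓ (X.prod X) P ∧ (X.prod X).IsCyc X.dim P ∧
        InducesProjector W X i P] := by
  have hR := rint_opRing (W := W) (X := X) hops hℓ
  have hLR : RInt ℓ W X 1 (LinearMap.mulLeft W.K (W.cl X D)) := by
    have := rint_mulLeft (W := W) hops hℓ hD hDint
    simpa using this
  tfae_have 1 → 2 := by
    intro h1 c hc
    have hB : LefschetzB W X D := lefschetzB_of_injectiveMod hD hHL S
      fun c hc hc' => by obtain ⟨z, _, hz⟩ := h1 c hc hc'; exact ⟨z, hz⟩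
    obtain ⟨Φ, hΦ, hLam⟩ := lefschetzB_iff_rop.1 hB
    have hP : ∀ i, ROp W X 0 (proj (W.isInternal X) i) := fun i =>
      rop_opAlg.proj_mem (W.isInternal X) W_hbd (rop_mulLeft hD) hHL hΦ hLam i
    obtain ⟨θ, hθR, hθ⟩ : ∃ θ, RInt ℓ W X (-c) θ ∧ ∀ a ∈ W.gr X (X.dim - c),
        θ ((LinearMap.mulLeft W.K (W.cl X D) ^ c) a) = a := by
      rcases Nat.eq_zero_or_pos c with rfl | hpos
      · exact ⟨1, hR.cast hR.one (by simp), fun a _ => rfl⟩
      · obtain ⟨z, hz, hzc, hzi⟩ := h1 c hpos hc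
        exact exists_theta hops hℓ hD hDint hHL S hS hc (hL c hc) hP hz hzc hzi
    obtain ⟨q, hq, z, hz, hzc, rfl⟩ | ⟨hd, rfl⟩ := hθR
    · obtain rfl : q = X.dim - c := by omega
      exact ⟨z, hz, hzc, fun s hs => by rw [lefPow_eq]; exact hθ s hs⟩
    · omega
  tfae_have 2 → 3 := by
    intro h2
    have hθ : ∀ c ≤ X.dim, ∃ θ, RInt ℓ W X (-c) θ ∧ ∀ a ∈ W.gr X (X.dim - c),
        θ ((LinearMap.mulLeft W.K (W.cl X D) ^ c) a) = a := by
      intro c hc
      obtain ⟨z, hz, hzc, hzi⟩ := h2 c hc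
      refine ⟨cycOp W X z, Or.inl ⟨X.dim - c, by omega, z, hz, hzc, rfl⟩, fun a ha => ?_⟩
      have := hzi a ha
      rwa [lefPow_eq] at this
    constructor
    · obtain ⟨Φ, hΦ, hLam⟩ := hR.exists_lam (W.isInternal X) W_hbd hLR hHL hθ
      obtain ⟨q, hq, z, hz, hzc, rfl⟩ | ⟨hd, rfl⟩ := hΦ
      · obtain rfl : q = X.dim - 1 := by omega
        exact ⟨z, hz, hzc, hLam⟩
      · refine ⟨0, isIntegralAt_zero hℓ, SmVar.IsCyc.zero _ _, ?_⟩
        rw [InducesLambda, map_zero, corr_zero]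
        exact hLam
    · choose! θ hθR hθ' using hθ
      have hproj := hR.proj_mem_of_theta (W.isInternal X) W_hbd hLR hHL θ hθR hθ'
      have hall : ∀ i, RInt ℓ W X 0 (proj (W.isInternal X) i) := by
        intro i
        rcases le_or_gt i X.dim with hi | hi
        · have := (hproj i hi (X.dim - i) (by omega)).1
          rwa [show X.dim - (X.dim - i) = i by omega] at this
        · rcases le_or_gt i (2 * X.dim) with hi' | hi'
          · have := (hproj (2 * X.dim - i) (by omega) (i - X.dim) (by omega)).2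
            rwa [show X.dim + (i - X.dim) = i by omega] at this
          · have : proj (W.isInternal X) i = 0 := by
              apply gr_ext (W.isInternal X)
              intro j a ha
              by_cases hj : j = i
              · subst hj
                rw [W.gr_eq_bot X j (by omega)] at ha
                rw [(Submodule.mem_bot _).1 ha, map_zero, map_zero]
              · rw [proj_ne _ ha hj, LinearMap.zero_apply]
            rw [this]
            exact hR.zero 0
      intro i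
      obtain ⟨q, hq, z, hz, hzc, he⟩ | ⟨hd, _⟩ := hall i
      · obtain rfl : q = X.dim := by omega
        refine ⟨z, hz, hzc, fun j a ha => ?_⟩
        have he' : W.corr (W.cl (X.prod X) z) = proj (W.isInternal X) i := he.symm
        rw [he']
        split_ifs with hj
        · subst hj; rw [proj_same _ ha]
        · rw [proj_ne _ ha hj]
      · omega
  tfae_have 3 → 2 := by
    rintro ⟨⟨z, hz, hzc, hLam⟩, -⟩ c hc
    rcases Nat.eq_zero_or_pos c with rfl | hpos
    · obtain ⟨q, hq, w, hw, hwc, he⟩ | ⟨hd, _⟩ := hR.one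
      · obtain rfl : q = X.dim := by omega
        refine ⟨w, hw, hwc, fun s hs => ?_⟩
        rw [← he, lefPow_eq, pow_zero, Module.End.one_apply, Module.End.one_apply]
      · omega
    · have hzR : RInt ℓ W X (-1) (cycOp W X z) :=
        Or.inl ⟨X.dim - 1, by omega, z, hz, hzc, rfl⟩
      obtain ⟨q, hq, w, hw, hwc, he⟩ | ⟨hd, _⟩ := hR.cast (hR.pow hzR c)
        (show (c : ℤ) * -1 = -c by ring)
      · obtain rfl : q = X.dim - c := by omega
        refine ⟨w, hw, hwc, fun s hs => ?_⟩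
        rw [← he, lefPow_eq]
        exact lam_pow_L_pow (isHom_mulLeft W hD) (hbdW W) hHL hLam hc hs
      · omega
  tfae_have 2 → 1 := by
    intro h2 c _ hc
    obtain ⟨z, hz, hzc, hzi⟩ := h2 c hc
    obtain ⟨N, hN, hNz⟩ := hz.exists_denominator hℓ
    refine ⟨(N : ℚ) • z, hNz, hzc.smul _, ?_⟩
    intro t ht htgr h0
    obtain ⟨s, hs, hsgr, rfl⟩ := hL c hc t ht htgr
    rw [cycOp_smul, LinearMap.smul_apply, hzi s hsgr] at h0
    have hcop : N.Coprime ℓ := (hℓ.coprime_iff_not_dvd.2 hN).symm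
    obtain ⟨w, hw⟩ := S.nat_isUnit hcop
    have h1 : S.lat.MemMax s := by
      have h2 : s = ((w⁻¹ : S.lat.Oˣ) : S.lat.O) • ((((N : ℚ)) : W.K) • s) := by
        have h3 : (((N : ℚ)) : W.K) • s = (N : S.lat.O) • s := by
          rw [Rat.cast_natCast]; rfl
        rw [h3, ← hw, smul_smul, Units.inv_mul, one_smul]
      rw [h2]
      exact Submodule.smul_mem _ _ h0
    have h3 := S.mulPow_mem_mT hDint c h1
    exact h3
  tfae_finish

end Pool.Agent.H838
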