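import Pool.Agent.H838.SemiDefs
import Pool.Agent.H838.NakMain

/-!
# Semisimplicity modulo one prime number and the Lefschetz standard conjecture
-/

open CategoryTheory AlgebraicGeometry Finset

universe u v

namespace Pool.Agent.H838

open Pool.Agent.H914 Pool.Agent.H914.VarClass Pool.Agent.H914.VarClass.Obj
  Pool.Agent.H914.WeilCohomology

variable {k : Type u} [Field k] {𝒱 : VarClass k} {ops : CycleOps 𝒱}
  {W : WeilCohomology.{u, v} ops} {X : 𝒱.Obj} {ℓ : ℕ}

/-- The operators of degree `2 d` given by integral cycles. -/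
def RZ (W : WeilCohomology.{u, v} ops) (X : 𝒱.Obj) (d : ℤ) (y : Module.End W.K (W.H X)) : Prop :=
  (∃ q : ℕ, (q : ℤ) = X.dim + d ∧ y ∈ intOps W X q) ∨ ((X.dim : ℤ) + d < 0 ∧ y = 0)

lemma isIntegral_zero : IsIntegral X (0 : X.Cycles) := fun x => ⟨0, by simp [coeff_zero']⟩

lemma IsIntegral.add {z w : X.Cycles} (hz : IsIntegral X z) (hw : IsIntegral X w) :
    IsIntegral X (z + w) := by
  intro x
  obtain ⟨a, ha⟩ := hz x
  obtain ⟨b, hb⟩ := hw x
  exact ⟨a + b, by rw [coeff_add, ha, hb]; push_cast; rfl⟩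

lemma RZ.rop {d : ℤ} {y : Module.End W.K (W.H X)} (h : RZ W X d y) : ROp W X d y := by
  rcases h with ⟨q, hq, z, ⟨-, hz⟩, rfl⟩ | ⟨hd, rfl⟩
  · exact ⟨fun W => W.corr (W.cl _ z), Or.inl ⟨q, hq, z, hz, fun _ => rfl⟩, rfl⟩
  · exact ⟨fun W => 0, Or.inr ⟨hd, fun _ => rfl⟩, rfl⟩

lemma rz_mulLeft (hops : PreservesIntegral ops) {p : ℕ} {D : X.Cycles}
    (hD : X.IsCyc p D) (hDint : IsIntegral X D) :
    RZ W X p (LinearMap.mulLeft W.K (W.cl X D)) := by
  refine Or.inl ⟨X.dim + p, by push_cast; ring, ops.push (diag X) D,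
    ⟨hops.push _ hDint, ops.push_mem _ hD (by simp only [dim_prod]; omega)⟩, ?_⟩
  apply LinearMap.ext
  intro a
  rw [cycOp, W.cl_push, corr_diag, LinearMap.mulLeft_apply]

lemma rz_intSmul {d : ℤ} {y : Module.End W.K (W.H X)} (h : RZ W X d y) (m : ℤ) :
    RZ W X d ((m : W.K) • y) := by
  rcases h with ⟨q, hq, z, ⟨hz, hzc⟩, rfl⟩ | ⟨hd, rfl⟩
  · exact Or.inl ⟨q, hq, (m : ℚ) • z, ⟨hz.intSmul m, hzc.smul _⟩, by
      rw [cycOp_smul, Rat.cast_intCast]⟩
  · exact Or.inr ⟨hd, smul_zero _⟩

lemma rz_opRing (hops : PreservesIntegral ops) : OpRing (W.gr X) (RZ W X) where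
  one := by
    have h := rz_mulLeft (W := W) hops X.V.fundCycle_mem (isIntegral_fund X)
    have e : LinearMap.mulLeft W.K (W.cl X X.V.fundCycle) = (1 : Module.End W.K (W.H X)) := by
      apply LinearMap.ext
      intro a
      rw [LinearMap.mulLeft_apply, W.cl_fund, one_mul, Module.End.one_apply]
    rw [e] at h
    simpa using h
  zero d := by
    by_cases hd : (X.dim : ℤ) + d < 0
    · exact Or.inr ⟨hd, rfl⟩
    · exact Or.inl ⟨(X.dim + d).toNat, by omega, 0, ⟨isIntegral_zero, SmVar.IsCyc.zero _ _⟩,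
        cycOp_zero⟩
  add := by
    rintro d y y' (⟨q, hq, z, ⟨hz, hzc⟩, rfl⟩ | ⟨hd, rfl⟩)
      (⟨q', hq', z', ⟨hz', hzc'⟩, rfl⟩ | ⟨hd', rfl⟩)
    · obtain rfl : q = q' := by omega
      exact Or.inl ⟨q, hq, z + z', ⟨hz.add hz', hzc.add hzc'⟩, cycOp_add z z'⟩
    · omega
    · omega
    · exact Or.inr ⟨hd, add_zero _⟩
  neg := by
    intro d y hy
    have e : -y = ((-1 : ℤ) : W.K) • y := by
      rw [Int.cast_neg, Int.cast_one]
      exact (neg_one_smul W.K y).symm
    rw [e]
    exact rz_intSmul hy (-1)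
  mul := by
    intro d e y y' hy hy'
    by_cases hde : (X.dim : ℤ) + (d + e) < 0
    · refine Or.inr ⟨hde, ?_⟩
      exact eq_zero_of_isHom (W.isInternal X) (W.gr_eq_bot X) (by omega)
        ((rop_opAlg.hom hy.rop).mul (rop_opAlg.hom hy'.rop))
    · rcases hy with ⟨q, hq, z, ⟨hz, hzc⟩, rfl⟩ | ⟨hd, rfl⟩
      · rcases hy' with ⟨q', hq', z', ⟨hz', hzc'⟩, rfl⟩ | ⟨hd', rfl⟩
        · refine Or.inl ⟨(X.dim + (d + e)).toNat, by omega, compCyc ops z' z,
            ⟨compCyc_integral hops hz' hz, compCyc_mem hzc' hzc (by omega)⟩, ?_⟩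
          exact corr_compCyc W hzc
        · refine Or.inl ⟨(X.dim + (d + e)).toNat, by omega, 0, ⟨isIntegral_zero,
            SmVar.IsCyc.zero _ _⟩, ?_⟩
          rw [mul_zero, cycOp_zero]
      · refine Or.inl ⟨(X.dim + (d + e)).toNat, by omega, 0, ⟨isIntegral_zero,
          SmVar.IsCyc.zero _ _⟩, ?_⟩
        rw [zero_mul, cycOp_zero]
  hom := fun hy => rop_opAlg.hom hy.rop

lemma mem_intOps_of_rz {d : ℤ} {y : Module.End W.K (W.H X)} (h : RZ W X d y) {q : ℕ}
    (hq : (q : ℤ) = X.dim + d) : y ∈ intOps W X q := by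
  rcases h with ⟨q', hq', hy⟩ | ⟨hd, _⟩
  · obtain rfl : q = q' := by omega
    exact hy
  · omega

lemma preserves_of_rz (S : IntegralStructure W X ℓ) {d : ℤ} {y : Module.End W.K (W.H X)}
    (h : RZ W X d y) : S.lat.Preserves y := by
  rcases h with ⟨q, hq, z, ⟨hz, hzc⟩, rfl⟩ | ⟨hd, rfl⟩
  · exact S.corr_mem z hz
  · intro t _
    exact Submodule.zero_mem _

lemma rz_apply_mem {c : ℕ} {y : Module.End W.K (W.H X)} (h : RZ W X (-c) y) (hc : c ≤ X.dim)
    {t : W.H X} (ht : t ∈ W.gr X (X.dim + c)) : y t ∈ W.gr X (X.dim - c) := by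
  have h1 := rop_opAlg.hom h.rop _ t (by rw [grZ_natCast]; exact ht)
  rwa [show ((X.dim + c : ℕ) : ℤ) + 2 * -(c : ℤ) = ((X.dim - c : ℕ) : ℤ) by omega,
    grZ_natCast] at h1

lemma lefPow_mem {D : X.Cycles} (hD : X.IsCyc 1 D) {c : ℕ} (hc : c ≤ X.dim)
    {t : W.H X} (ht : t ∈ W.gr X (X.dim - c)) : lefPow W X D c t ∈ W.gr X (X.dim + c) := by
  have h1 := pow_L_mem (isHom_mulLeft W hD) ht c
  rw [lefPow_eq]
  rwa [show X.dim - c + 2 * c = X.dim + c by omega] at h1

/-- From inverses at single classes to an inverse, modulo the maximal ideal. -/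
lemma exists_global (hops : PreservesIntegral ops) {D : X.Cycles}
    (hD : X.IsCyc 1 D) (hDint : IsIntegral X D)
    (S : IntegralStructure W X ℓ) {c : ℕ} (hc : c ≤ X.dim)
    (hpt : S.lat.PointwiseInvMod (W.gr X (X.dim + c)) (intOps W X (X.dim - c))
      (lefPow W X D c)) (s : Finset (W.H X))
    (hs : ∀ y ∈ s, y ∈ S.lat.T ∧ y ∈ W.gr X (X.dim + c)) :
    ∃ G ∈ intOps W X (X.dim - c), ∀ y ∈ s, S.lat.MemMax (lefPow W X D c (G y) - y) := by
  classical
  have hR := rz_opRing (W := W) (X := X) hops
  have hLR : RZ W X c (lefPow W X D c) := by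
    have h1 := rz_mulLeft (W := W) hops hD hDint
    rw [lefPow_eq]
    exact hR.cast (hR.pow h1 c) (by push_cast; ring)
  have hLT : S.lat.Preserves (lefPow W X D c) := preserves_of_rz S hLR
  induction s using Finset.induction_on with
  | empty =>
    exact ⟨0, mem_intOps_of_rz (hR.zero (-c)) (by omega), fun y hy => by simp at hy⟩
  | insert y s hy ih =>
    obtain ⟨G, hG, hGs⟩ := ih fun x hx => hs x (Finset.mem_insert_of_mem hx)
    obtain ⟨hyT, hygr⟩ := hs y (Finset.mem_insert_self _ _)
    have hGR : RZ W X (-c) G := Or.inl ⟨X.dim - c, by omega, hG⟩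
    have hGT := preserves_of_rz S hGR
    obtain ⟨G', hG', hG's⟩ := hpt (y - lefPow W X D c (G y))
      (Submodule.sub_mem _ hyT (hLT _ (hGT _ hyT)))
      (Submodule.sub_mem _ hygr (lefPow_mem hD hc (rz_apply_mem hGR hc hygr)))
    have hG'R : RZ W X (-c) G' := Or.inl ⟨X.dim - c, by omega, hG'⟩
    refine ⟨G' + G - G' * lefPow W X D c * G, mem_intOps_of_rz (d := -c) ?_ (by omega), ?_⟩
    · apply hR.sub (hR.add hG'R hGR)
      exact hR.cast (hR.mul (hR.mul hG'R hLR) hGR) (by ring)
    · have key : ∀ x, lefPow W X D c ((G' + G - G' * lefPow W X D c * G) x) - x =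
          lefPow W X D c (G' (x - lefPow W X D c (G x))) - (x - lefPow W X D c (G x)) := by
        intro x
        rw [LinearMap.sub_apply, LinearMap.add_apply, Module.End.mul_apply, Module.End.mul_apply]
        simp only [map_sub, map_add]
        abel
      intro x hx
      rw [key]
      rcases Finset.mem_insert.1 hx with rfl | hx
      · exact hG's
      · have h1 : S.lat.MemMax (x - lefPow W X D c (G x)) := by
          have := hGs x hx
          have h2 := Submodule.neg_mem _ this
          rwa [neg_sub] at h2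
        apply Submodule.sub_mem _ _ h1
        exact hLT.memMax ((preserves_of_rz S hG'R).memMax h1)

section Lin

variable {K : Type*} [Field K] {V : Type*} [AddCommGroup V] [Module K V]
  {gr : ℕ → Submodule K V} {S : Lat K V ℓ} {Φ : Set (V →ₗ[K] V)} {U : Submodule S.O V}

/-- The projectors preserve submodules spanned by homogeneous elements. -/
lemma proj_mem_of_graded (h : DirectSum.IsInternal gr)
    (hU : ∀ t ∈ U, t ∈ Submodule.span S.O {s | s ∈ U ∧ ∃ i, s ∈ gr i}) (i : ℕ) :
    ∀ t ∈ U, proj h i t ∈ U := by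
  intro t ht
  have h1 := hU t ht
  clear ht
  induction h1 using Submodule.span_induction with
  | mem x hx =>
    obtain ⟨hxT, j, hj⟩ := hx
    by_cases hij : j = i
    · subst hij; rw [proj_same h hj]; exact hxT
    · rw [proj_ne h hj hij]; exact Submodule.zero_mem _
  | zero => rw [map_zero]; exact Submodule.zero_mem _
  | add x y _ _ ihx ihy => rw [map_add]; exact Submodule.add_mem _ ihx ihy
  | smul a x _ ih =>
    have : proj h i (a • x) = a • proj h i x := (proj h i).map_smul (a : K) x
    rw [this]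
    exact Submodule.smul_mem _ _ ih

end Lin

lemma mem_allIntOps_of_rz (hops : PreservesIntegral ops) {d : ℤ}
    {y : Module.End W.K (W.H X)} (h : RZ W X d y) : y ∈ allIntOps W X := by
  rcases h with ⟨q, hq, hy⟩ | ⟨hd, rfl⟩
  · exact Set.mem_iUnion.2 ⟨q, hy⟩
  · refine Set.mem_iUnion.2 ⟨X.dim, mem_intOps_of_rz ((rz_opRing hops).zero 0) (by simp)⟩

lemma rz_of_mem_allIntOps {y : Module.End W.K (W.H X)} (h : y ∈ allIntOps W X) :
    ∃ d, RZ W X d y := by
  obtain ⟨q, hq⟩ := Set.mem_iUnion.1 h
  exact ⟨(q : ℤ) - X.dim, Or.inl ⟨q, by ring, hq⟩⟩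

lemma smul_mem_mT' (S : IntegralStructure W X ℓ) {a : S.lat.O}
    (ha : a ∈ IsLocalRing.maximalIdeal S.lat.O) {t : W.H X} (ht : t ∈ S.lat.T) :
    S.lat.MemMax (a • t) := Submodule.smul_mem_smul ha ht

lemma memMax_mem (S : IntegralStructure W X ℓ) {t : W.H X} (ht : S.lat.MemMax t) :
    t ∈ S.lat.T := Submodule.smul_le_right ht

/-- Λ given by a cycle with local coefficients gives inverses with local coefficients. -/
lemma inverse_of_lambda (hops : PreservesIntegral ops) (hℓ : ℓ.Prime) {D : X.Cycles}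
    (hD : X.IsCyc 1 D) (hHL : HardLefschetz W X D)
    {z : (X.prod X).Cycles} (hz : IsIntegralAt ℓ _ z) (hzc : (X.prod X).IsCyc (X.dim - 1) z)
    (hLam : InducesLambda W X D z) {c : ℕ} (hc : c ≤ X.dim) :
    ∃ z, IsIntegralAt ℓ (X.prod X) z ∧ (X.prod X).IsCyc (X.dim - c) z ∧
        InducesInverse W X D c z := by
  have hR := rint_opRing (W := W) (X := X) hops hℓ
  rcases Nat.eq_zero_or_pos c with rfl | hpos
  · obtain ⟨q, hq, w, hw, hwc, he⟩ | ⟨hd, _⟩ := hR.one
    · obtain rfl : q = X.dim := by omega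
      refine ⟨w, hw, hwc, fun s hs => ?_⟩
      rw [← he, lefPow_eq, pow_zero, Module.End.one_apply, Module.End.one_apply]
    · omega
  · have hzR : RInt ℓ W X (-1) (cycOp W X z) :=
      Or.inl ⟨X.dim - 1, by omega, z, hz, hzc, rfl⟩
    obtain ⟨q, hq, w, hw, hwc, he⟩ | ⟨hd, _⟩ := hR.cast (hR.pow hzR c)
      (show (c : ℤ) * -1 = -c by ring)
    · obtain rfl : q = X.dim - c := by omega
      refine ⟨w, hw, hwc, fun s hs => ?_⟩
      rw [← he, lefPow_eq]
      exact lam_pow_L_pow (isHom_mulLeft W hD) (hbdW W) hHL hLam hc hs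
    · omega

/-- **Stable submodules modulo one prime number.** -/
theorem stable_mod (hops : PreservesIntegral ops) (hℓ : ℓ.Prime) {D : X.Cycles}
    (hD : X.IsCyc 1 D) (hDint : IsIntegral X D) (hHL : HardLefschetz W X D)
    (S : IntegralStructure W X ℓ) (hS : S.lat.IsGraded (W.gr X))
    (hκ : S.lat.HasPrimeResidueField) (hL : ∀ c ≤ X.dim, S.LefschetzMod D c) :
    List.TFAE [
      ∃ z, IsIntegralAt ℓ (X.prod X) z ∧ (X.prod X).IsCyc (X.dim - 1) z ∧
        InducesLambda W X D z,
      ∀ c ≤ X.dim, S.lat.PointwiseInvMod (W.gr X (X.dim + c)) (intOps W X (X.dim - c))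
        (lefPow W X D c),
      ∀ c ≤ X.dim, S.lat.OntoOnStable (W.gr X) (allIntOps W X) (X.dim - c) (X.dim + c)
        (lefPow W X D c)] := by
  classical
  have hR := rz_opRing (W := W) (X := X) hops
  have h := W.isInternal X
  tfae_have 1 → 3 := by
    rintro ⟨z, hz, hzc, hLam⟩ c hc U hU y hy hygr
    obtain ⟨w, hw, hwc, hwi⟩ := inverse_of_lambda hops hℓ hD hHL hz hzc hLam hc
    obtain ⟨N, hN, hNw⟩ := hw.exists_denominator hℓ
    obtain ⟨b, hb, hby⟩ := (hHL (X.dim - c) (by omega)).2 y
      (by rw [show 2 * X.dim - (X.dim - c) = X.dim + c by omega]; exact hygr)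
    rw [show X.dim - (X.dim - c) = c by omega, ← lefPow_eq] at hby
    have hbU : b ∈ U := by
      have h1 : cycOp W X ((N : ℚ) • w) y ∈ U :=
        hU.stable _ (Set.mem_iUnion.2 ⟨_, _, ⟨hNw, hwc.smul _⟩, rfl⟩) y hy
      rw [cycOp_smul, LinearMap.smul_apply, ← hby, hwi b hb] at h1
      have hcop : N.Coprime ℓ := (hℓ.coprime_iff_not_dvd.2 hN).symm
      obtain ⟨w, hw⟩ := S.nat_isUnit hcop
      have h2 : b = ((w⁻¹ : S.lat.Oˣ) : S.lat.O) • ((((N : ℚ)) : W.K) • b) := by
        have h3 : (((N : ℚ)) : W.K) • b = (N : S.lat.O) • b := by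
          rw [Rat.cast_natCast]; rfl
        rw [h3, ← hw, smul_smul, Units.inv_mul, one_smul]
      rw [h2]
      exact Submodule.smul_mem _ _ h1
    refine ⟨b, hbU, hb, ?_⟩
    rw [hby, sub_self]
    exact Submodule.zero_mem _
  tfae_have 3 → 2 := by
    intro h3 c hc y hyT hygr
    set M : Submodule S.lat.O (W.H X) := IsLocalRing.maximalIdeal S.lat.O • S.lat.T with hM
    set U : Submodule S.lat.O (W.H X) :=
      Submodule.span S.lat.O {t | ∃ F ∈ allIntOps W X, F y = t} ⊔ M with hUdef
    have hUle : U ≤ S.lat.T := by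
      rw [hUdef]
      apply sup_le
      · rw [Submodule.span_le]
        rintro _ ⟨F, hF, rfl⟩
        obtain ⟨d, hd⟩ := rz_of_mem_allIntOps hF
        exact preserves_of_rz S hd y hyT
      · exact Submodule.smul_le_right
    have hU : S.lat.IsStableSub (W.gr X) (allIntOps W X) U := by
      refine ⟨fun t ht => (le_sup_right : M ≤ U) ht, hUle, ?_, ?_⟩
      · intro F hF t ht
        obtain ⟨d, hd⟩ := rz_of_mem_allIntOps hF
        obtain ⟨a, ha, b, hb, rfl⟩ := Submodule.mem_sup.1 ht
        clear ht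
        rw [map_add]
        apply Submodule.add_mem
        · refine (le_sup_left : _ ≤ U) ?_
          induction ha using Submodule.span_induction with
          | mem x hx =>
            obtain ⟨G, hG, rfl⟩ := hx
            obtain ⟨e, he⟩ := rz_of_mem_allIntOps hG
            exact Submodule.subset_span ⟨F * G, mem_allIntOps_of_rz hops (hR.mul hd he), rfl⟩
          | zero => rw [map_zero]; exact Submodule.zero_mem _
          | add x x' _ _ hx hx' =>
            rw [map_add]
            exact Submodule.add_mem _ hx hx'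
          | smul a x _ hx =>
            have : F (a • x) = a • F x := F.map_smul (a : W.K) x
            rw [this]
            exact Submodule.smul_mem _ _ hx
        · exact (le_sup_right : M ≤ U) ((preserves_of_rz S hd).memMax hb)
      · intro t ht
        obtain ⟨a, ha, b, hb, rfl⟩ := Submodule.mem_sup.1 ht
        apply Submodule.add_mem
        · refine Submodule.span_mono ?_ ha
          rintro _ ⟨F, hF, rfl⟩
          refine ⟨(le_sup_left : _ ≤ U) (Submodule.subset_span ⟨F, hF, rfl⟩), ?_⟩
          obtain ⟨d, hd⟩ := rz_of_mem_allIntOps hF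
          have h1 := rop_opAlg.hom hd.rop _ y (by rw [grZ_natCast]; exact hygr)
          by_cases hneg : 0 ≤ ((X.dim + c : ℕ) : ℤ) + 2 * d
          · refine ⟨(((X.dim + c : ℕ) : ℤ) + 2 * d).toNat, ?_⟩
            rw [← Int.toNat_of_nonneg hneg, grZ_natCast] at h1
            exact h1
          · rw [grZ_of_neg (by omega)] at h1
            exact ⟨0, by rw [(Submodule.mem_bot _).1 h1]; exact Submodule.zero_mem _⟩
        · clear ht
          induction hb using Submodule.smul_induction_on' with
          | smul r hr n hn =>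
            have h1 := hS n hn
            clear hn
            induction h1 using Submodule.span_induction with
            | mem x hx =>
              obtain ⟨hxT, i, hi⟩ := hx
              refine Submodule.subset_span ⟨(le_sup_right : M ≤ U)
                (Submodule.smul_mem_smul hr hxT), i, ?_⟩
              exact Submodule.smul_mem _ (r : W.K) hi
            | zero => rw [smul_zero]; exact Submodule.zero_mem _
            | add x x' _ _ hx hx' => rw [smul_add]; exact Submodule.add_mem _ hx hx'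
            | smul a x _ hx => rw [smul_comm]; exact Submodule.smul_mem _ _ hx
          | add x _ y _ hx hy => exact Submodule.add_mem _ hx hy
    have hyU : y ∈ U := by
      refine (le_sup_left : _ ≤ U) (Submodule.subset_span ⟨1, ?_, rfl⟩)
      exact mem_allIntOps_of_rz hops hR.one
    obtain ⟨s, hsU, hsgr, hs⟩ := h3 c hc U hU y hyU hygr
    -- the degree `n - c` part of an element of `U`
    have key : ∀ s ∈ U, ∃ G ∈ intOps W X (X.dim - c),
        S.lat.MemMax (proj h (X.dim - c) s - G y) := by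
      have hzero : (0 : Module.End W.K (W.H X)) ∈ intOps W X (X.dim - c) :=
        mem_intOps_of_rz (hR.zero (-c)) (by omega)
      have hadd : ∀ s s', (∃ G ∈ intOps W X (X.dim - c),
          S.lat.MemMax (proj h (X.dim - c) s - G y)) → (∃ G ∈ intOps W X (X.dim - c),
          S.lat.MemMax (proj h (X.dim - c) s' - G y)) → ∃ G ∈ intOps W X (X.dim - c),
          S.lat.MemMax (proj h (X.dim - c) (s + s') - G y) := by
        rintro s s' ⟨G, hG, hGs⟩ ⟨G', hG', hGs'⟩
        refine ⟨G + G', mem_intOps_of_rz (d := -c) (hR.add (Or.inl ⟨X.dim - c, by omega, hG⟩)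
          (Or.inl ⟨X.dim - c, by omega, hG'⟩)) (by omega), ?_⟩
        have : proj h (X.dim - c) (s + s') - (G + G') y =
            (proj h (X.dim - c) s - G y) + (proj h (X.dim - c) s' - G' y) := by
          rw [map_add, LinearMap.add_apply]; abel
        rw [this]
        exact Submodule.add_mem _ hGs hGs'
      intro s hs
      obtain ⟨a, ha, b, hb, rfl⟩ := Submodule.mem_sup.1 hs
      apply hadd
      · clear hs
        induction ha using Submodule.span_induction with
        | mem x hx =>
          obtain ⟨F, hF, rfl⟩ := hx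
          obtain ⟨p, hp⟩ := Set.mem_iUnion.1 hF
          have hFR : RZ W X ((p : ℤ) - X.dim) F := Or.inl ⟨p, by ring, hp⟩
          have h1 := rop_opAlg.hom hFR.rop _ y (by rw [grZ_natCast]; exact hygr)
          by_cases hpc : p = X.dim - c
          · refine ⟨F, hpc ▸ hp, ?_⟩
            rw [show ((X.dim + c : ℕ) : ℤ) + 2 * ((p : ℤ) - X.dim) = ((X.dim - c : ℕ) : ℤ) by omega,
              grZ_natCast] at h1
            rw [proj_same h h1, sub_self]
            exact Submodule.zero_mem _
          · refine ⟨0, hzero, ?_⟩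
            have h2 : proj h (X.dim - c) (F y) = 0 := by
              by_cases hneg : 0 ≤ ((X.dim + c : ℕ) : ℤ) + 2 * ((p : ℤ) - X.dim)
              · rw [← Int.toNat_of_nonneg hneg, grZ_natCast] at h1
                exact proj_ne h h1 (by omega)
              · rw [grZ_of_neg (by omega)] at h1
                rw [(Submodule.mem_bot _).1 h1, map_zero]
            rw [h2, LinearMap.zero_apply, sub_self]
            exact Submodule.zero_mem _
        | zero =>
          refine ⟨0, hzero, ?_⟩
          rw [map_zero, LinearMap.zero_apply, sub_self]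
          exact Submodule.zero_mem _
        | add x x' _ _ hx hx' => exact hadd _ _ hx hx'
        | smul a x _ hx =>
          obtain ⟨G, hG, hGx⟩ := hx
          obtain ⟨m, hm⟩ := hκ a
          have hGR : RZ W X (-c) G := Or.inl ⟨X.dim - c, by omega, hG⟩
          refine ⟨(m : W.K) • G, mem_intOps_of_rz (rz_intSmul hGR m) (by omega), ?_⟩
          have e1 : proj h (X.dim - c) (a • x) = a • proj h (X.dim - c) x :=
            (proj h (X.dim - c)).map_smul (a : W.K) x
          have e2 : (m : W.K) • G y = ((m : S.lat.O)) • G y := rfl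
          have e3 : proj h (X.dim - c) (a • x) - ((m : W.K) • G) y =
              a • (proj h (X.dim - c) x - G y) + (a - (m : S.lat.O)) • G y := by
            rw [e1, LinearMap.smul_apply, e2, smul_sub, sub_smul]
            abel
          rw [e3]
          exact Submodule.add_mem _ (Submodule.smul_mem _ _ hGx)
            (smul_mem_mT' S hm (preserves_of_rz S hGR y hyT))
      · refine ⟨0, hzero, ?_⟩
        rw [LinearMap.zero_apply, sub_zero]
        exact (hS.proj_mem h _).memMax hb
    obtain ⟨G, hG, hGs⟩ := key s hsU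
    rw [proj_same h hsgr] at hGs
    refine ⟨G, hG, ?_⟩
    have hLR : RZ W X c (lefPow W X D c) := by
      have h1 := rz_mulLeft (W := W) hops hD hDint
      rw [lefPow_eq]
      exact hR.cast (hR.pow h1 c) (by push_cast; ring)
    have h1 := (preserves_of_rz S hLR).memMax hGs
    have h2 : lefPow W X D c (G y) - y = (lefPow W X D c s - y) - lefPow W X D c (s - G y) := by
      rw [map_sub]; abel
    rw [h2]
    exact Submodule.sub_mem _ hs h1
  tfae_have 2 → 1 := by
    intro h2
    have hN := ((nakayama hops hℓ hD hDint hHL S hS hL).out 0 2 :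
      (∀ c, 1 ≤ c → c ≤ X.dim → ∃ z, IsIntegral (X.prod X) z ∧
        (X.prod X).IsCyc (X.dim - c) z ∧ S.InjectiveMod (X.dim + c) z) ↔
      (∃ z, IsIntegralAt ℓ (X.prod X) z ∧ (X.prod X).IsCyc (X.dim - 1) z ∧
        InducesLambda W X D z) ∧
      ∀ i, ∃ P, IsIntegralAt ℓ (X.prod X) P ∧ (X.prod X).IsCyc X.dim P ∧
        InducesProjector W X i P)
    refine (hN.1 ?_).1
    intro c _ hc
    obtain ⟨m, g, hg⟩ := Submodule.fg_iff_exists_fin_generating_family.1 S.lat.fg
    obtain ⟨G, hG, hGs⟩ := exists_global hops hD hDint S hc (h2 c hc)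
      (Finset.univ.image fun j => proj h (X.dim + c) (g j)) (by
        intro y hy
        obtain ⟨j, -, rfl⟩ := Finset.mem_image.1 hy
        refine ⟨hS.proj_mem h _ _ ?_, H914.proj_mem h _ _⟩
        rw [← hg]
        exact Submodule.subset_span ⟨j, rfl⟩)
    obtain ⟨z, ⟨hz, hzc⟩, rfl⟩ := hG
    refine ⟨z, hz, hzc, ?_⟩
    have hLR : RZ W X c (lefPow W X D c) := by
      have h1 := rz_mulLeft (W := W) hops hD hDint
      rw [lefPow_eq]
      exact hR.cast (hR.pow h1 c) (by push_cast; ring)
    have hall : ∀ t ∈ S.lat.T, S.lat.MemMax (lefPow W X D c (cycOp W X z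
        (proj h (X.dim + c) t)) - proj h (X.dim + c) t) := by
      intro t ht
      rw [← hg] at ht
      induction ht using Submodule.span_induction with
      | mem x hx =>
        obtain ⟨j, rfl⟩ := hx
        exact hGs _ (Finset.mem_image.2 ⟨j, Finset.mem_univ _, rfl⟩)
      | zero => simp only [map_zero, sub_self]; exact Submodule.zero_mem _
      | add x y _ _ hx hy =>
        have := Submodule.add_mem _ hx hy
        simp only [map_add]
        unfold Lat.MemMax at this ⊢
        convert this using 1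
        abel
      | smul a x _ hx =>
        have e1 : ∀ F : W.H X →ₗ[W.K] W.H X, ∀ x, F (a • x) = a • F x := fun F x =>
          F.map_smul (a : W.K) x
        rw [e1, e1, e1, ← smul_sub]
        exact Submodule.smul_mem _ _ hx
    intro t ht htgr h0
    have h1 := hall t ht
    rw [proj_same h htgr] at h1
    have h3 := (preserves_of_rz S hLR).memMax h0
    have h4 := Submodule.sub_mem _ h3 h1
    unfold Lat.MemMax
    simpa using h4
  tfae_finish

/-- **Semisimplicity modulo one prime number implies the Lefschetz standard conjecture.** -/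
theorem semisimple_mod (hops : PreservesIntegral ops) (hℓ : ℓ.Prime) {D : X.Cycles}
    (hD : X.IsCyc 1 D) (hDint : IsIntegral X D) (hHL : HardLefschetz W X D)
    (S : IntegralStructure W X ℓ) (hS : S.lat.IsGraded (W.gr X))
    (hκ : S.lat.HasPrimeResidueField) (hL : ∀ c ≤ X.dim, S.LefschetzMod D c)
    (hss : S.lat.SemisimpleMod (W.gr X) (allIntOps W X)) :
    ∃ z, IsIntegralAt ℓ (X.prod X) z ∧ (X.prod X).IsCyc (X.dim - 1) z ∧
        InducesLambda W X D z := by
  have hR := rz_opRing (W := W) (X := X) hops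
  have h := W.isInternal X
  refine ((stable_mod hops hℓ hD hDint hHL S hS hκ hL).out 2 0).1 ?_
  intro c hc U hU y hy hygr
  have hLR : RZ W X c (lefPow W X D c) := by
    have h1 := rz_mulLeft (W := W) hops hD hDint
    rw [lefPow_eq]
    exact hR.cast (hR.pow h1 c) (by push_cast; ring)
  obtain ⟨U', hU', hint, hsup⟩ := hss U hU
  obtain ⟨t, ht, htgr, hty⟩ := hL c hc y (hU.le hy) hygr
  obtain ⟨s, hs, s', hs', hss'⟩ := Submodule.mem_sup.1 (hsup ht)
  have hps : proj h (X.dim - c) s ∈ U := proj_mem_of_graded h hU.graded _ s hs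
  have hps' : proj h (X.dim - c) s' ∈ U' := proj_mem_of_graded h hU'.graded _ s' hs'
  have h1 : t = proj h (X.dim - c) s + proj h (X.dim - c) s' := by
    rw [← map_add, hss', proj_same h htgr]
  have h2 : lefPow W X D c (proj h (X.dim - c) s') =
      y - lefPow W X D c (proj h (X.dim - c) s) := by
    rw [← hty]
    conv_rhs => rw [h1]
    rw [map_add]
    abel
  have hLmem := mem_allIntOps_of_rz hops hLR
  have h3 : S.lat.MemMax (lefPow W X D c (proj h (X.dim - c) s')) := by
    apply hint
    · rw [h2]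
      exact Submodule.sub_mem _ hy (hU.stable _ hLmem _ hps)
    · exact hU'.stable _ hLmem _ hps'
  refine ⟨_, hps, H914.proj_mem h _ _, ?_⟩
  have h4 := Submodule.neg_mem _ h3
  rw [h2, neg_sub] at h4
  exact h4

end Pool.Agent.H838
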