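import Pool.Agent.H838.LefMod
import Pool.Agent.H838.SemiMain
import Mathlib.LinearAlgebra.Trace

/-!
# Duality modulo the maximal ideal
-/

namespace Pool.Agent.H838

open Pool.Agent.H914

variable {K : Type*} [Field K] {V : Type*} [AddCommGroup V] [Module K V] {ℓ : ℕ}

/-- A ring of operators which preserves a lattice, with a parity operator `ϖ`. -/
structure OpDual (S : Lat K V ℓ) (gr : ℕ → Submodule K V) (R : ℤ → Module.End K V → Prop)
    (ϖ : Module.End K V) : Prop where
  ring : OpRing gr R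
  pres : ∀ {d y}, R d y → S.Preserves y
  presPi : S.Preserves ϖ
  comm : ∀ {d y}, R d y → ϖ * y = y * ϖ

/-- The operators of degree `d` which are orthogonal to those of degree `- d` are zero modulo the
maximal ideal. -/
def NondegAt (S : Lat K V ℓ) (R : ℤ → Module.End K V → Prop) (ϖ : Module.End K V) (d : ℤ) :
    Prop :=
  ∀ y, R d y → (∀ x, R (-d) x → ∃ r ∈ IsLocalRing.maximalIdeal S.O,
    ((r : S.O) : K) = LinearMap.trace K V (ϖ * (y * x))) → S.IsZeroMod y

namespace OpRing

variable {gr : ℕ → Submodule K V} {R : ℤ → Module.End K V → Prop}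

lemma zsmul (hR : OpRing gr R) {d : ℤ} {y : Module.End K V} (hy : R d y) (m : ℤ) :
    R d (m • y) := by
  induction m with
  | zero => rw [zero_smul]; exact hR.zero d
  | succ m ih => rw [add_smul, one_smul]; exact hR.add ih hy
  | pred m ih => rw [sub_smul, one_smul]; exact hR.sub ih hy

end OpRing

section

variable [Module.Finite K V] {S : Lat K V ℓ} {gr : ℕ → Submodule K V}
  {R : ℤ → Module.End K V → Prop} {ϖ : Module.End K V}

/-- **Solving linear equations by duality.** Let `Ψ` be an additive map from the operators of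
degree `-d` to the operators of degree `d` which is self-adjoint for the trace form. An operator
`t` of degree `d` which is orthogonal to the kernel of `Ψ` is in the image of `Ψ`. -/
theorem OpDual.exists_preimage (hR : OpDual S gr R ϖ) (hres : S.HasPrimeResidueField) {d : ℤ}
    (hND : NondegAt S R ϖ d) (Ψ : Module.End K V →+ Module.End K V)
    (hΨ : ∀ y, R (-d) y → R d (Ψ y))
    (hadj : ∀ x y, R (-d) x → R (-d) y →
      LinearMap.trace K V (ϖ * (Ψ x * y)) = LinearMap.trace K V (ϖ * (Ψ y * x)))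
    {t : Module.End K V} (ht : R d t)
    (hkey : ∀ y, R (-d) y → S.IsZeroMod (Ψ y) → ∃ r ∈ IsLocalRing.maximalIdeal S.O,
      ((r : S.O) : K) = LinearMap.trace K V (ϖ * (t * y))) :
    ∃ x, R (-d) x ∧ S.IsZeroMod (Ψ x - t) := by
  obtain ⟨m, b, hb⟩ := S.exists_basis
  have hint : ∀ (c : IsLocalRing.ResidueField S.O), ∃ m : ℤ, c = (m : IsLocalRing.ResidueField S.O) := by
    intro c
    obtain ⟨a, rfl⟩ := IsLocalRing.residue_surjective c
    obtain ⟨m, hm⟩ := hres a
    refine ⟨m, ?_⟩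
    rw [← IsLocalRing.residue_eq_zero_iff, map_sub, sub_eq_zero, map_intCast] at hm
    exact hm
  have hrho : ∀ {y : Module.End K V} (hy : S.Preserves y) (m : ℤ),
      S.rho b (m • y) = (m : IsLocalRing.ResidueField S.O) • S.rho b y := by
    intro y hy m
    have h1 : m • y = (((m : S.O) : K)) • y := by
      rw [show (((m : S.O)) : K) = (m : K) by push_cast; rfl, Int.cast_smul_eq_zsmul]
    rw [h1, Lat.rho_smul hb hy, map_intCast]
  -- the spaces of reductions
  let A : ℤ → Submodule (IsLocalRing.ResidueField S.O)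
      (Matrix (Fin m) (Fin m) (IsLocalRing.ResidueField S.O)) := fun e =>
    { carrier := {M | ∃ y, R e y ∧ S.rho b y = M}
      add_mem' := by
        rintro _ _ ⟨y, hy, rfl⟩ ⟨z, hz, rfl⟩
        exact ⟨y + z, hR.ring.add hy hz, Lat.rho_add hb (hR.pres hy) (hR.pres hz)⟩
      zero_mem' := ⟨0, hR.ring.zero e, Lat.rho_zero hb⟩
      smul_mem' := by
        rintro c _ ⟨y, hy, rfl⟩
        obtain ⟨m, rfl⟩ := hint c
        exact ⟨m • y, hR.ring.zsmul hy m, hrho (hR.pres hy) m⟩ }
  let Wd : Submodule (IsLocalRing.ResidueField S.O)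
      (Matrix (Fin m) (Fin m) (IsLocalRing.ResidueField S.O)) :=
    { carrier := {M | ∃ y, R (-d) y ∧ S.rho b (Ψ y) = M}
      add_mem' := by
        rintro _ _ ⟨y, hy, rfl⟩ ⟨z, hz, rfl⟩
        exact ⟨y + z, hR.ring.add hy hz, by
          rw [map_add]; exact Lat.rho_add hb (hR.pres (hΨ y hy)) (hR.pres (hΨ z hz))⟩
      zero_mem' := ⟨0, hR.ring.zero _, by rw [map_zero]; exact Lat.rho_zero hb⟩
      smul_mem' := by
        rintro c _ ⟨y, hy, rfl⟩
        obtain ⟨m, rfl⟩ := hint c
        exact ⟨m • y, hR.ring.zsmul hy m, by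
          rw [map_zsmul]; exact hrho (hR.pres (hΨ y hy)) m⟩ }
  let β : Matrix (Fin m) (Fin m) (IsLocalRing.ResidueField S.O) →ₗ[IsLocalRing.ResidueField S.O]
      Matrix (Fin m) (Fin m) (IsLocalRing.ResidueField S.O) →ₗ[IsLocalRing.ResidueField S.O]
        IsLocalRing.ResidueField S.O :=
    LinearMap.mk₂ _ (fun x y => (S.rho b ϖ * (x * y)).trace)
      (fun x x' y => by rw [add_mul, mul_add, Matrix.trace_add])
      (fun c x y => by rw [smul_mul_assoc, mul_smul_comm, Matrix.trace_smul])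
      (fun x y y' => by rw [mul_add, mul_add, Matrix.trace_add])
      (fun c x y => by rw [mul_smul_comm, mul_smul_comm, Matrix.trace_smul])
  have hβ : ∀ {x y : Module.End K V}, S.Preserves x → S.Preserves y →
      (β (S.rho b x) (S.rho b y) = 0 ↔ ∃ r ∈ IsLocalRing.maximalIdeal S.O,
        ((r : S.O) : K) = LinearMap.trace K V (ϖ * (x * y))) := by
    intro x y hx hy
    change (S.rho b ϖ * (S.rho b x * S.rho b y)).trace = 0 ↔ _
    rw [← Lat.rho_mul hb hx hy, ← Lat.rho_mul hb hR.presPi (hx.mul hy)]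
    exact Lat.trace_rho_eq_zero_iff hb (hR.presPi.mul (hx.mul hy))
  have hmem : S.rho b t ∈ Wd := by
    refine mem_of_orthogonal β (A := A d) (B := A (-d)) (W := Wd) ?_ ?_ ⟨t, ht, rfl⟩ ?_
    · rintro _ ⟨y, hy, rfl⟩
      exact ⟨Ψ y, hΨ y hy, rfl⟩
    · rintro _ ⟨y, hy, rfl⟩ h
      rw [Lat.rho_eq_zero_iff hb (hR.pres hy)]
      apply hND y hy
      intro x hx
      exact (hβ (hR.pres hy) (hR.pres hx)).1 (h _ ⟨x, hx, rfl⟩)
    · rintro _ ⟨y, hy, rfl⟩ h
      rw [hβ (hR.pres ht) (hR.pres hy)]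
      apply hkey y hy
      apply hND _ (hΨ y hy)
      intro x hx
      obtain ⟨r, hr, hr'⟩ := (hβ (hR.pres (hΨ x hx)) (hR.pres hy)).1 (h _ ⟨x, hx, rfl⟩)
      exact ⟨r, hr, by rw [hr', hadj x y hx hy]⟩
  obtain ⟨x, hx, hxt⟩ := hmem
  refine ⟨x, hx, ?_⟩
  rw [← Lat.rho_eq_zero_iff hb ((hR.pres (hΨ x hx)).sub (hR.pres ht)),
    Lat.rho_sub hb (hR.pres (hΨ x hx)) (hR.pres ht), hxt, sub_self]

/-- The trace of an operator which is nilpotent modulo the maximal ideal. -/
lemma trace_of_nilp {F : Module.End K V} (hF : S.Preserves F) (h : S.IsZeroMod (F ^ 2)) :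
    ∃ r ∈ IsLocalRing.maximalIdeal S.O, ((r : S.O) : K) = LinearMap.trace K V F := by
  obtain ⟨m, b, hb⟩ := S.exists_basis
  rw [← Lat.trace_rho_eq_zero_iff hb hF]
  rw [← Lat.rho_eq_zero_iff hb (hF.pow 2), Lat.rho_pow hb hF] at h
  exact (Matrix.isNilpotent_trace_of_isNilpotent ⟨2, h⟩).eq_zero

/-- **The Lefschetz inverse modulo the maximal ideal by duality.** -/
theorem OpDual.exists_inverse (hR : OpDual S gr R ϖ) (hres : S.HasPrimeResidueField)
    {L : Module.End K V} (hL : R 1 L) {c : ℕ} (hND : NondegAt S R ϖ c) :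
    ∃ f, R (-c) f ∧ S.IsZeroMod (L ^ c * f * L ^ c - L ^ c) := by
  have hLc : R c (L ^ c) := by
    have := hR.ring.pow hL c
    rwa [mul_one] at this
  have hcyc : ∀ a b : Module.End K V,
      LinearMap.trace K V (a * b) = LinearMap.trace K V (b * a) := LinearMap.trace_mul_comm K
  refine hR.exists_preimage hres hND
    ((AddMonoidHom.mulRight (L ^ c)).comp (AddMonoidHom.mulLeft (L ^ c))) ?_ ?_ hLc ?_
  · intro y hy
    exact hR.ring.cast (hR.ring.mul (hR.ring.mul hLc hy) hLc) (by ring)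
  · intro x y hx hy
    change LinearMap.trace K V (ϖ * (L ^ c * x * L ^ c * y)) =
      LinearMap.trace K V (ϖ * (L ^ c * y * L ^ c * x))
    have e1 : ϖ * (L ^ c * x * L ^ c * y) = (L ^ c * x) * (ϖ * (L ^ c * y)) := by
      have h1 : ϖ * (L ^ c * x) = L ^ c * x * ϖ := hR.comm (hR.ring.mul hLc hx)
      calc ϖ * (L ^ c * x * L ^ c * y) = (ϖ * (L ^ c * x)) * (L ^ c * y) := by noncomm_ring
        _ = (L ^ c * x) * (ϖ * (L ^ c * y)) := by rw [h1]; noncomm_ring
    rw [e1, hcyc, mul_assoc ϖ, ← mul_assoc (L ^ c * y)]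
  · intro y hy h0
    change S.IsZeroMod (L ^ c * y * L ^ c) at h0
    have hyT := hR.pres hy
    have hLT := hR.pres hLc
    have h1 : ϖ * (L ^ c * y) = (L ^ c * y) * ϖ := hR.comm (hR.ring.mul hLc hy)
    apply trace_of_nilp (hR.presPi.mul (hLT.mul hyT))
    have e1 : (ϖ * (L ^ c * y)) ^ 2 = ϖ * (L ^ c * y * L ^ c) * (y * ϖ) := by
      rw [pow_two]
      calc ϖ * (L ^ c * y) * (ϖ * (L ^ c * y)) = ϖ * (L ^ c * y) * ((L ^ c * y) * ϖ) := by rw [h1]
        _ = ϖ * (L ^ c * y * L ^ c) * (y * ϖ) := by noncomm_ring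
    rw [e1]
    intro s hs
    exact hR.presPi.max (h0 _ (hyT _ (hR.presPi _ hs)))

/-- **Smirnov's argument modulo the maximal ideal.** -/
theorem OpDual.exists_low (hR : OpDual S gr R ϖ) (hres : S.HasPrimeResidueField)
    {L : Module.End K V} (hL : R 1 L) (hND : NondegAt S R ϖ 1)
    (hinj : ∀ y, R (-1) y → S.IsZeroMod (L * (L * y - y * L) - (L * y - y * L) * L) →
      S.IsZeroMod y) (m : ℤ) :
    ∃ f, R (-1) f ∧ S.IsZeroMod (L * (L * f - f * L) - (L * f - f * L) * L + m • L) := by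
  have hcyc : ∀ a b : Module.End K V,
      LinearMap.trace K V (a * b) = LinearMap.trace K V (b * a) := LinearMap.trace_mul_comm K
  let ad : Module.End K V →+ Module.End K V := AddMonoidHom.mulLeft L - AddMonoidHom.mulRight L
  have had : ∀ y, (ad.comp ad) y = L * (L * y - y * L) - (L * y - y * L) * L := fun y => rfl
  have hdeg : ∀ y, R (-1) y → R 1 (L * (L * y - y * L) - (L * y - y * L) * L) := by
    intro y hy
    have h1 : R 0 (L * y - y * L) := hR.ring.sub (hR.ring.cast (hR.ring.mul hL hy) (by ring))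
      (hR.ring.cast (hR.ring.mul hy hL) (by ring))
    exact hR.ring.sub (hR.ring.cast (hR.ring.mul hL h1) (by ring))
      (hR.ring.cast (hR.ring.mul h1 hL) (by ring))
  suffices hmain : ∃ f, R (-1) f ∧ S.IsZeroMod ((ad.comp ad) f - (-m) • L) by
    obtain ⟨f, hf, hf'⟩ := hmain
    refine ⟨f, hf, ?_⟩
    rw [had] at hf'
    rwa [neg_smul, sub_neg_eq_add] at hf'
  refine hR.exists_preimage hres hND (ad.comp ad)
    (fun y hy => by rw [had]; exact hdeg y hy) ?_ (t := (-m) • L) (hR.ring.zsmul hL _) ?_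
  · intro x y hx hy
    rw [had, had]
    have hPL : ϖ * L = L * ϖ := hR.comm hL
    have hPx : ϖ * x = x * ϖ := hR.comm hx
    have e1 : ∀ a b : Module.End K V, ϖ * a = a * ϖ →
        LinearMap.trace K V (ϖ * (a * b)) = LinearMap.trace K V (ϖ * (b * a)) := by
      intro a b ha
      calc LinearMap.trace K V (ϖ * (a * b)) = LinearMap.trace K V (a * (ϖ * b)) := by
            rw [← mul_assoc, ha, mul_assoc]
        _ = LinearMap.trace K V (ϖ * (b * a)) := by rw [hcyc, mul_assoc]
    have h1 : ϖ * ((L * (L * x - x * L) - (L * x - x * L) * L) * y) =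
        ϖ * (L * (L * (x * y))) - 2 • (ϖ * (L * (x * (L * y)))) + ϖ * (x * (L * (L * y))) := by
      noncomm_ring
    have h2 : ϖ * ((L * (L * y - y * L) - (L * y - y * L) * L) * x) =
        ϖ * ((L * (L * y)) * x) - 2 • (ϖ * ((L * (y * L)) * x)) + ϖ * ((y * (L * L)) * x) := by
      noncomm_ring
    rw [h1, h2, map_add, map_sub, map_nsmul, map_add, map_sub, map_nsmul]
    have hPy : ϖ * y = y * ϖ := hR.comm hy
    have hc : ∀ {a b : Module.End K V}, ϖ * a = a * ϖ → ϖ * b = b * ϖ →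
        ϖ * (a * b) = (a * b) * ϖ := by
      intro a b ha hb
      rw [← mul_assoc, ha, mul_assoc, hb, mul_assoc]
    have t1 : LinearMap.trace K V (ϖ * (x * (L * (L * y)))) =
        LinearMap.trace K V (ϖ * ((L * (L * y)) * x)) := e1 _ _ hPx
    have t2 : LinearMap.trace K V (ϖ * (L * (x * (L * y)))) =
        LinearMap.trace K V (ϖ * ((L * (y * L)) * x)) := by
      rw [show ϖ * (L * (x * (L * y))) = ϖ * ((L * x) * (L * y)) by noncomm_ring,
        e1 _ _ (hc hPL hPx)]
      rfl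
    have t3 : LinearMap.trace K V (ϖ * (L * (L * (x * y)))) =
        LinearMap.trace K V (ϖ * ((y * (L * L)) * x)) := by
      rw [show ϖ * (L * (L * (x * y))) = ϖ * ((L * (L * x)) * y) by noncomm_ring,
        e1 _ _ (hc hPL (hc hPL hPx))]
      rfl
    rw [t1, t2, t3]
    abel
  · intro y hy h0
    rw [had] at h0
    have hyz := hinj y hy h0
    obtain ⟨m', b, hb⟩ := S.exists_basis
    have hpres : S.Preserves (ϖ * ((-m) • L * y)) :=
      hR.presPi.mul (((hR.pres hL).zsmul _).mul (hR.pres hy))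
    rw [← Lat.trace_rho_eq_zero_iff hb hpres]
    have : S.rho b (ϖ * ((-m) • L * y)) = 0 := by
      rw [Lat.rho_eq_zero_iff hb hpres]
      intro s hs
      exact hR.presPi.max (((hR.pres hL).zsmul _).max (hyz s hs))
    rw [this]
    exact Matrix.trace_zero _ _

end

end Pool.Agent.H838
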