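import Pool.Agent.H838.SmiDefs

/-!
# Good integral structures and the powers of a variety: definitions
-/

open CategoryTheory AlgebraicGeometry

universe u v

namespace Pool.Agent.H838

open Pool.Agent.H914 Pool.Agent.H914.VarClass Pool.Agent.H914.VarClass.Obj

variable {k : Type u} [Field k] {𝒱 : VarClass k} {ops : CycleOps 𝒱}

/-- The integral structure at `ℓ` in the cohomology of `X` is graded, the residue field has `ℓ`
elements, and for `c ≤ n = dim X` the cup product with `D ^ c` is an isomorphism between the lattices
in the degrees `n - c` and `n + c`. -/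
def IntegralStructure.IsGood {W : WeilCohomology.{u, v} ops} {X : 𝒱.Obj} {ℓ : ℕ}
    (S : IntegralStructure W X ℓ) (D : X.Cycles) : Prop :=
  S.lat.IsGraded (W.gr X) ∧ S.lat.HasPrimeResidueField ∧ ∀ c ≤ X.dim, S.LefschetzMod D c

/-- `Y` is an iterated product of `X` with itself (a power of `X`, with some bracketing), and `E` is
the sum of the pull-backs of the divisor `D` on `X` along the projections. -/
inductive IsPower (ops : CycleOps 𝒱) (X : 𝒱.Obj) (D : X.Cycles) : (Y : 𝒱.Obj) → Y.Cycles → Prop
  | base : IsPower ops X D X D
  | prod {Y Z : 𝒱.Obj} {E : Y.Cycles} {F : Z.Cycles} : IsPower ops X D Y E →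
      IsPower ops X D Z F → IsPower ops X D (Y.prod Z) (ops.pull (fst Y Z) E + ops.pull (snd Y Z) F)

end Pool.Agent.H838
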