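import Pool.Agent.H838.LefMod
import Pool.Graph.R_seed8.TH133.PW.CasB

/-!
# Lifting an idempotent which is given modulo the maximal ideal

Let `e` be an idempotent which preserves the lattice `T` and commutes with the operator `E`, which
also preserves `T`. If `E` is congruent to `e` modulo `𝔪 T`, and the differences of the traces of the
powers of `E` on the image and on the kernel of `e` are rational numbers, then `e` is a polynomial in
`E` whose coefficients are rational numbers in the valuation ring.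
-/

open Polynomial

namespace Pool.Agent.H838

open Pool.Agent.H914

section Gen

variable {K : Type*} [Field K] {V : Type*} [AddCommGroup V] [Module K V] {ℓ : ℕ}
  {S : Lat K V ℓ}

lemma Lat.Preserves.aeval {E : Module.End K V} (hE : S.Preserves E) (q : S.O[X]) :
    S.Preserves (Polynomial.aeval E (q.map (algebraMap S.O K))) := by
  induction q using Polynomial.induction_on' with
  | add p q hp hq => rw [Polynomial.map_add, map_add]; exact hp.add hq
  | monomial r c =>
    rw [Polynomial.map_monomial, Polynomial.aeval_monomial, Algebra.algebraMap_eq_smul_one,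
      smul_mul_assoc, one_mul]
    exact (hE.pow r).smul c

/-- Congruence to the identity implies injectivity modulo the maximal ideal. -/
lemma Lat.injMod_of_one {E : Module.End K V} (h : S.IsZeroMod (E - 1)) :
    ∀ t ∈ S.T, S.MemMax (E t) → S.MemMax t := by
  intro t ht hEt
  have h1 := h t ht
  rw [LinearMap.sub_apply, Module.End.one_apply] at h1
  have h2 := hEt.sub h1
  rwa [sub_sub_cancel] at h2

/-- The inverse of an operator which is injective modulo the maximal ideal is a polynomial with
coefficients in the valuation ring. -/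
lemma exists_inverse_O [Module.Finite K V] {E : Module.End K V} (hE : S.Preserves E)
    (hinj : ∀ t ∈ S.T, S.MemMax (E t) → S.MemMax t) :
    ∃ q : S.O[X], Polynomial.aeval E (q.map (algebraMap S.O K)) * E = 1 := by
  obtain ⟨F, -, hF, ⟨u, hu⟩⟩ := S.exists_charpoly hE hinj
  refine ⟨C (-((u⁻¹ : S.Oˣ) : S.O)) * F.divX, ?_⟩
  have h0 : Polynomial.aeval E (F.map (algebraMap S.O K)) = 0 := by
    rw [hF]; exact LinearMap.aeval_self_charpoly E
  have h1 : F.divX * X + C (F.coeff 0) = F := Polynomial.divX_mul_X_add F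
  have h2 : (C (-((u⁻¹ : S.Oˣ) : S.O)) * F.divX) * X = C (-((u⁻¹ : S.Oˣ) : S.O)) * F + 1 := by
    have h3 : C (-((u⁻¹ : S.Oˣ) : S.O)) * C (F.coeff 0) = (-1 : S.O[X]) := by
      rw [← C_mul, ← hu, neg_mul, Units.inv_mul, C_neg, C_1]
    calc (C (-((u⁻¹ : S.Oˣ) : S.O)) * F.divX) * X
        = C (-((u⁻¹ : S.Oˣ) : S.O)) * (F.divX * X + C (F.coeff 0)) -
            C (-((u⁻¹ : S.Oˣ) : S.O)) * C (F.coeff 0) := by ring
      _ = C (-((u⁻¹ : S.Oˣ) : S.O)) * F + 1 := by rw [h1, h3]; ring
  have h3 : Polynomial.aeval E (((C (-((u⁻¹ : S.Oˣ) : S.O)) * F.divX) * X).map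
      (algebraMap S.O K)) = 1 := by
    rw [h2, Polynomial.map_add, Polynomial.map_mul, map_add, map_mul, h0, mul_zero, zero_add,
      Polynomial.map_one, map_one]
  rw [Polynomial.map_mul, map_mul, Polynomial.map_X, Polynomial.aeval_X] at h3
  exact h3

end Gen

section Idem

variable {K : Type*} [Field K] {V : Type*} [AddCommGroup V] [Module K V] {ℓ : ℕ}
  {S : Lat K V ℓ} {E e : Module.End K V}

/-- The operator which is `E` on the image of `e` and the identity on its kernel. -/
lemma cutOp_sub_one (hee : e * e = e) : (E * e + (1 - e)) - 1 = (E - e) * e := by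
  rw [sub_mul, hee]; abel

lemma cutOp_pow_mul (hee : e * e = e) (hc : E * e = e * E) (r : ℕ) :
    (E * e + (1 - e)) ^ r * e = E ^ r * e := by
  induction r with
  | zero => rw [pow_zero, pow_zero]
  | succ r ih =>
    rw [pow_succ, mul_assoc]
    have h1 : (E * e + (1 - e)) * e = e * E := by
      rw [add_mul, mul_assoc, hee, sub_mul, one_mul, hee, sub_self, add_zero, hc]
    rw [h1, ← mul_assoc, ih, mul_assoc, ← hc, ← mul_assoc, ← pow_succ]

lemma cutOp_pow (hee : e * e = e) (hc : E * e = e * E) (r : ℕ) :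
    (E * e + (1 - e)) ^ r = E ^ r * e + (1 - e) := by
  have h0 : (E * e + (1 - e)) * (1 - e) = 1 - e := by
    rw [add_mul, mul_assoc, mul_sub, mul_one, hee, sub_self, mul_zero, zero_add, sub_mul, one_mul,
      mul_sub, mul_one, hee, sub_self, sub_zero]
  have h1 : ∀ r : ℕ, (E * e + (1 - e)) ^ r * (1 - e) = 1 - e := by
    intro r
    induction r with
    | zero => rw [pow_zero, one_mul]
    | succ r ih => rw [pow_succ, mul_assoc, h0, ih]
  calc (E * e + (1 - e)) ^ r = (E * e + (1 - e)) ^ r * e + (E * e + (1 - e)) ^ r * (1 - e) := by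
        rw [← mul_add, add_sub_cancel, mul_one]
    _ = _ := by rw [cutOp_pow_mul hee hc, h1]

lemma cutOp_aeval_mul (hee : e * e = e) (hc : E * e = e * E) (q : K[X]) :
    Polynomial.aeval (E * e + (1 - e)) q * e = Polynomial.aeval E q * e := by
  induction q using Polynomial.induction_on' with
  | add p q hp hq => rw [map_add, map_add, add_mul, add_mul, hp, hq]
  | monomial r c =>
    rw [Polynomial.aeval_monomial, Polynomial.aeval_monomial, mul_assoc, mul_assoc,
      cutOp_pow_mul hee hc]

variable [Module.Finite K V]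

omit [Module.Finite K V] in
lemma cutOp_preserves (hE : S.Preserves E) (he : S.Preserves e) :
    S.Preserves (E * e + (1 - e)) := (hE.mul he).add (Lat.Preserves.one.sub he)

omit [Module.Finite K V] in
lemma cutOp_inj (he : S.Preserves e) (hee : e * e = e) (hmod : S.IsZeroMod (E - e)) :
    ∀ t ∈ S.T, S.MemMax ((E * e + (1 - e)) t) → S.MemMax t := by
  apply Lat.injMod_of_one
  rw [cutOp_sub_one hee]
  exact hmod.mul_right he

/-- A polynomial in `E` which is the identity on the image of `e`. -/
lemma exists_one_on_O (hE : S.Preserves E) (he : S.Preserves e) (hee : e * e = e)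
    (hc : E * e = e * E) (hmod : S.IsZeroMod (E - e)) :
    ∃ q : S.O[X], Polynomial.aeval E (q.map (algebraMap S.O K)) * E * e = e := by
  obtain ⟨q, hq⟩ := exists_inverse_O (cutOp_preserves hE he) (cutOp_inj he hee hmod)
  refine ⟨q, ?_⟩
  have h1 : Polynomial.aeval (E * e + (1 - e)) (q.map (algebraMap S.O K)) *
      (E * e + (1 - e)) * e = 1 * e := by rw [hq]
  rw [one_mul] at h1
  have h2 : (E * e + (1 - e)) * e = e * E := by
    rw [add_mul, mul_assoc, hee, sub_mul, one_mul, hee, sub_self, add_zero, hc]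
  rw [mul_assoc, h2, ← mul_assoc, cutOp_aeval_mul hee hc, mul_assoc, ← hc, ← mul_assoc] at h1
  exact h1

omit [Module.Finite K V] in
lemma aeval_comm (hc : E * e = e * E) (q : K[X]) :
    Polynomial.aeval E q * e = e * Polynomial.aeval E q := by
  have hpow : ∀ r : ℕ, E ^ r * e = e * E ^ r := by
    intro r
    induction r with
    | zero => rw [pow_zero, one_mul, mul_one]
    | succ r ih => rw [pow_succ, mul_assoc, hc, ← mul_assoc, ih, mul_assoc]
  induction q using Polynomial.induction_on' with
  | add p q hp hq => rw [map_add, add_mul, mul_add, hp, hq]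
  | monomial r c =>
    rw [Polynomial.aeval_monomial, Algebra.algebraMap_eq_smul_one, smul_mul_assoc, one_mul,
      smul_mul_assoc, mul_smul_comm, hpow]

omit [Module.Finite K V] in
lemma one_sub_comm {w : Module.End K V} (hwc : w * e = e * w) :
    (1 - w) * (1 - e) = (1 - e) * (1 - w) := by
  have h1 : Commute w e := hwc
  exact ((Commute.one_left (1 - e)).sub_left ((Commute.one_right w).sub_right h1)).eq

omit [Module.Finite K V] in
lemma mod_compl (he : S.Preserves e) (hee : e * e = e) (hmod : S.IsZeroMod (E - e))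
    {Q w : Module.End K V} (hQ : S.Preserves Q) (hw : w = Q * E) (hwe : w * e = e) :
    S.IsZeroMod ((1 - w) - (1 - e)) := by
  have h1 : (1 - w) - (1 - e) = -(Q * ((E - e) * (1 - e))) := by
    have h2 : (E - e) * (1 - e) = E * (1 - e) := by
      rw [sub_mul, mul_sub e, mul_one, hee, sub_self, sub_zero]
    rw [h2, ← mul_assoc, ← hw, mul_sub, mul_one, hwe]
    abel
  rw [h1]
  exact ((hmod.mul_right (Lat.Preserves.one.sub he)).mul_left hQ).neg

/-- The idempotent is a polynomial in `E` with coefficients in the valuation ring. -/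
lemma exists_aeval_idem_O (hE : S.Preserves E) (he : S.Preserves e) (hee : e * e = e)
    (hc : E * e = e * E) (hmod : S.IsZeroMod (E - e)) :
    ∃ G : S.O[X], e = Polynomial.aeval E (G.map (algebraMap S.O K)) := by
  obtain ⟨q, hq⟩ := exists_one_on_O hE he hee hc hmod
  obtain ⟨w, hw⟩ : ∃ w, w = Polynomial.aeval E (q.map (algebraMap S.O K)) * E := ⟨_, rfl⟩
  have hwT : S.Preserves w := by rw [hw]; exact (hE.aeval q).mul hE
  have hwc : w * e = e * w := by
    rw [hw, mul_assoc, hc, ← mul_assoc, aeval_comm hc, mul_assoc]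
  rw [← hw] at hq
  have hee' : (1 - e) * (1 - e) = 1 - e := by rw [mul_sub, sub_mul, sub_mul, hee]; simp
  have hc' : (1 - w) * (1 - e) = (1 - e) * (1 - w) := one_sub_comm hwc
  obtain ⟨q', hq'⟩ := exists_one_on_O (S := S) (E := 1 - w) (e := 1 - e)
    (Lat.Preserves.one.sub hwT) (Lat.Preserves.one.sub he) hee' hc'
    (mod_compl he hee hmod (hE.aeval q) hw hq)
  have h1 : (1 - w) * e = 0 := by rw [sub_mul, one_mul, hq, sub_self]
  have h2 : Polynomial.aeval (1 - w) (q'.map (algebraMap S.O K)) * (1 - w) = 1 - e := by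
    calc Polynomial.aeval (1 - w) (q'.map (algebraMap S.O K)) * (1 - w)
        = Polynomial.aeval (1 - w) (q'.map (algebraMap S.O K)) * (1 - w) * (1 - e) +
          Polynomial.aeval (1 - w) (q'.map (algebraMap S.O K)) * ((1 - w) * e) := by
          rw [← mul_assoc, ← mul_add, sub_add_cancel, mul_one]
      _ = 1 - e := by rw [hq', h1, mul_zero, add_zero]
  refine ⟨1 - (q' * X).comp (1 - q * X), ?_⟩
  rw [Polynomial.map_sub, Polynomial.map_one, Polynomial.map_comp, Polynomial.map_mul,
    Polynomial.map_X, Polynomial.map_sub, Polynomial.map_one, Polynomial.map_mul,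
    Polynomial.map_X]
  have h3 : Polynomial.aeval E (1 - q.map (algebraMap S.O K) * X) = 1 - w := by
    rw [map_sub, map_one, map_mul, Polynomial.aeval_X, ← hw]
  rw [map_sub, map_one, Polynomial.aeval_comp, h3, map_mul, Polynomial.aeval_X, h2,
    sub_sub_cancel]

/-- The idempotent is a polynomial in `E` with coefficients in `K`. -/
lemma exists_aeval_idem (hE : S.Preserves E) (he : S.Preserves e) (hee : e * e = e)
    (hc : E * e = e * E) (hmod : S.IsZeroMod (E - e)) :
    ∃ G : K[X], e = Polynomial.aeval E G := by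
  obtain ⟨G, hG⟩ := exists_aeval_idem_O hE he hee hc hmod
  exact ⟨_, hG⟩

end Idem

section Rat

variable {K : Type*} [Field K] [CharZero K] {V : Type*} [AddCommGroup V] [Module K V]
  [Module.Finite K V] {ℓ : ℕ} {S : Lat K V ℓ} {E e : Module.End K V}

/-- **Descent to the rational numbers.** An idempotent polynomial `e` in `E` has rational
coefficients if the differences of the traces of the powers of `E` on the image and on the kernel of
`e` are rational. -/
theorem exists_ev_idem (hee : e * e = e) (he : ∃ G : K[X], e = Polynomial.aeval E G)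
    (htr : ∀ r : ℕ, ∃ q : ℚ, LinearMap.trace K V (E ^ r * e) -
      LinearMap.trace K V (E ^ r * (1 - e)) = (q : K)) :
    ∃ g : ℚ[X], e = ev E g := by
  obtain ⟨G, hG⟩ := he
  have htr' : ∀ g : ℚ[X], ∃ q : ℚ, LinearMap.trace K V (ev E g * e) -
      LinearMap.trace K V (ev E g * (1 - e)) = (q : K) := by
    intro g
    induction g using Polynomial.induction_on' with
    | add a b ha hb =>
      obtain ⟨p, hp⟩ := ha
      obtain ⟨q, hq⟩ := hb
      refine ⟨p + q, ?_⟩
      rw [map_add, add_mul, add_mul, map_add, map_add, Rat.cast_add, ← hp, ← hq]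
      ring
    | monomial r c =>
      obtain ⟨q, hq⟩ := htr r
      refine ⟨c * q, ?_⟩
      rw [← C_mul_X_pow_eq_monomial, map_mul (ev E), map_pow (ev E), ev_C, ev_X, smul_mul_assoc,
        one_mul, smul_mul_assoc, smul_mul_assoc, map_smul, map_smul, ← smul_sub, hq, smul_eq_mul]
      push_cast; rfl
  let R : Subalgebra K (Module.End K V) := Algebra.adjoin K {E}
  have hER : E ∈ R := Algebra.subset_adjoin (Set.mem_singleton E)
  have hR : ∀ x : R, ∃ G : K[X], (x : Module.End K V) = Polynomial.aeval E G := by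
    intro x
    have h1 : (x : Module.End K V) ∈ Algebra.adjoin K {E} := x.2
    rw [Algebra.adjoin_singleton_eq_range_aeval] at h1
    obtain ⟨G, hG⟩ := h1
    exact ⟨G, hG.symm⟩
  have hcomm : ∀ x y : R, x * y = y * x := by
    intro x y
    obtain ⟨F, hF⟩ := hR x
    obtain ⟨H, hH⟩ := hR y
    apply Subtype.ext
    change (x : Module.End K V) * y = y * x
    rw [hF, hH, ← map_mul, ← map_mul, mul_comm]
  have hmemR : ∀ G : K[X], Polynomial.aeval E G ∈ R := fun G =>
    Polynomial.aeval_mem_adjoin_singleton K E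
  have hevR : ∀ g : ℚ[X], ev E g ∈ R := fun g => hmemR _
  let A : Set R := {x | ∃ g : ℚ[X], (x : Module.End K V) = ev E g}
  have heR : e ∈ R := by rw [hG]; exact hmemR G
  have hmem : (⟨e, heR⟩ : R) ∈ A := by
    apply Pool.Agent.TH133.PW.central_idem_mem (K := K) (V := V) (A := A)
      ⟨1, by rw [map_one]; rfl⟩
      (fun x hx y hy => by
        obtain ⟨g, hg⟩ := hx
        obtain ⟨g', hg'⟩ := hy
        exact ⟨g + g', by rw [map_add, ← hg, ← hg']; rfl⟩)
      (fun q x hx => by
        obtain ⟨g, hg⟩ := hx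
        refine ⟨C q * g, ?_⟩
        rw [map_mul, ev_C, smul_mul_assoc, one_mul, ← hg]
        rfl)
      (fun x hx y hy => by
        obtain ⟨g, hg⟩ := hx
        obtain ⟨g', hg'⟩ := hy
        exact ⟨g * g', by rw [map_mul, ← hg, ← hg']; rfl⟩)
      ?_ R.val Subtype.val_injective
    · exact Subtype.ext hee
    · exact fun x => hcomm _ _
    · rintro x ⟨g, hg⟩
      obtain ⟨q, hq⟩ := htr' g
      refine ⟨q, ?_⟩
      have e1 : R.val ((⟨e, heR⟩ : R) * x) = e * x.1 := rfl
      have e2 : R.val ((1 - (⟨e, heR⟩ : R)) * x) = (1 - e) * x.1 := rfl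
      rw [e1, e2, LinearMap.trace_mul_comm K e, LinearMap.trace_mul_comm K (1 - e), hg, hq]
    · rw [eq_top_iff]
      rintro x -
      obtain ⟨F, hF⟩ := hR x
      have h1 : ∀ F : K[X], (⟨Polynomial.aeval E F, hmemR F⟩ : R) ∈ Submodule.span K A := by
        intro F
        induction F using Polynomial.induction_on' with
        | add p q hp hq =>
          have h2 : (⟨Polynomial.aeval E (p + q), hmemR _⟩ : R) =
              ⟨Polynomial.aeval E p, hmemR _⟩ + ⟨Polynomial.aeval E q, hmemR _⟩ :=
            Subtype.ext (map_add _ _ _)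
          rw [h2]
          exact Submodule.add_mem _ hp hq
        | monomial r c =>
          have h2 : (⟨Polynomial.aeval E (monomial r c), hmemR _⟩ : R) =
              c • (⟨ev E (X ^ r), hevR _⟩ : R) := by
            apply Subtype.ext
            change Polynomial.aeval E (monomial r c) = c • ev E (X ^ r)
            rw [Polynomial.aeval_monomial, Algebra.algebraMap_eq_smul_one, smul_mul_assoc, one_mul,
              map_pow, ev_X]
          rw [h2]
          exact Submodule.smul_mem _ _ (Submodule.subset_span ⟨_, rfl⟩)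
      have h2 : x = ⟨Polynomial.aeval E F, hmemR F⟩ := Subtype.ext hF
      rw [h2]
      exact h1 F
  exact hmem

lemma cutOp_trace (hee : e * e = e) (hc : E * e = e * E)
    (htr : ∀ r : ℕ, ∃ q : ℚ, LinearMap.trace K V (E ^ r * e) = (q : K)) (r : ℕ) :
    ∃ q : ℚ, LinearMap.trace K V ((E * e + (1 - e)) ^ r) = (q : K) := by
  obtain ⟨p, hp⟩ := htr r
  obtain ⟨q, hq⟩ := htr 0
  rw [pow_zero, one_mul] at hq
  refine ⟨p + (Module.finrank K V - q), ?_⟩
  rw [cutOp_pow hee hc, map_add, map_sub, hp, hq, LinearMap.trace_one]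
  push_cast
  rfl

/-- A polynomial in `E` with coefficients in the local ring which is the identity on the image
of `e`. -/
lemma exists_one_on_Q (hE : S.Preserves E) (he : S.Preserves e) (hee : e * e = e)
    (hc : E * e = e * E) (hmod : S.IsZeroMod (E - e))
    (htr : ∀ r : ℕ, ∃ q : ℚ, LinearMap.trace K V (E ^ r * e) = (q : K)) :
    ∃ q : ℚ[X], (∀ i, ((q.coeff i : ℚ) : K) ∈ S.O) ∧ ev E q * E * e = e := by
  obtain ⟨q, hqO, hq⟩ := exists_local_inverse S (cutOp_preserves hE he) (cutOp_inj he hee hmod)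
    (cutOp_trace hee hc htr)
  refine ⟨q, hqO, ?_⟩
  have hq' : ev (E * e + (1 - e)) q * (E * e + (1 - e)) = 1 := by
    apply LinearMap.ext
    intro x
    exact hq x
  have h1 : ev (E * e + (1 - e)) q * (E * e + (1 - e)) * e = 1 * e := by rw [hq']
  rw [one_mul] at h1
  have h2 : (E * e + (1 - e)) * e = e * E := by
    rw [add_mul, mul_assoc, hee, sub_mul, one_mul, hee, sub_self, add_zero, hc]
  rw [mul_assoc, h2, ← mul_assoc, ev_apply, cutOp_aeval_mul hee hc, mul_assoc, ← hc,
    ← mul_assoc] at h1
  exact h1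

/-- **Idempotents given modulo the maximal ideal.** Let `E` and the idempotent `e` preserve the
lattice and commute, let `E` be congruent to `e` modulo the maximal ideal, and let the differences of
the traces of the powers of `E` on the image and on the kernel of `e` be rational. Then `1 - e` is
`q(f(E)) f(E)` for polynomials `f` and `q` with rational coefficients in the valuation ring. -/
theorem exists_local_idem (hE : S.Preserves E) (he : S.Preserves e) (hee : e * e = e)
    (hc : E * e = e * E) (hmod : S.IsZeroMod (E - e))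
    (htr : ∀ r : ℕ, ∃ q : ℚ, LinearMap.trace K V (E ^ r * e) -
      LinearMap.trace K V (E ^ r * (1 - e)) = (q : K)) :
    ∃ f q : ℚ[X], (∀ i, ((f.coeff i : ℚ) : K) ∈ S.O) ∧ (∀ i, ((q.coeff i : ℚ) : K) ∈ S.O) ∧
      1 - e = ev (1 - ev E f * E) q * (1 - ev E f * E) := by
  obtain ⟨g, hg⟩ := exists_ev_idem hee (exists_aeval_idem hE he hee hc hmod) htr
  have hcev : ∀ p : ℚ[X], ev E p * e = e * ev E p := fun p => aeval_comm hc _
  have hee' : (1 - e) * (1 - e) = 1 - e := by rw [mul_sub, sub_mul, sub_mul, hee]; simp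
  have h0 : e * (1 - e) = 0 := by rw [mul_sub, mul_one, hee, sub_self]
  have htrev : ∀ p : ℚ[X], ∃ q : ℚ, LinearMap.trace K V (ev E p * e) -
      LinearMap.trace K V (ev E p * (1 - e)) = (q : K) := by
    intro p
    induction p using Polynomial.induction_on' with
    | add a b ha hb =>
      obtain ⟨p, hp⟩ := ha
      obtain ⟨q, hq⟩ := hb
      refine ⟨p + q, ?_⟩
      rw [map_add, add_mul, add_mul, map_add, map_add, Rat.cast_add, ← hp, ← hq]
      ring
    | monomial r c =>
      obtain ⟨q, hq⟩ := htr r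
      refine ⟨c * q, ?_⟩
      rw [← C_mul_X_pow_eq_monomial, map_mul (ev E), map_pow (ev E), ev_C, ev_X, smul_mul_assoc,
        one_mul, smul_mul_assoc, smul_mul_assoc, map_smul, map_smul, ← smul_sub, hq, smul_eq_mul]
      push_cast; rfl
  have ht1 : ∀ p : ℚ[X], ∃ q : ℚ, LinearMap.trace K V (ev E p * e) = (q : K) := by
    intro p
    obtain ⟨q, hq⟩ := htrev (p * g)
    refine ⟨q, ?_⟩
    have h2 : ev E (p * g) = ev E p * e := by rw [map_mul, ← hg]
    rw [h2, mul_assoc, hee, mul_assoc, h0, mul_zero, map_zero, sub_zero] at hq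
    exact hq
  have ht2 : ∀ p : ℚ[X], ∃ q : ℚ, LinearMap.trace K V (ev E p * (1 - e)) = (q : K) := by
    intro p
    obtain ⟨a, ha⟩ := ht1 p
    obtain ⟨b, hb⟩ := htrev p
    refine ⟨a - b, ?_⟩
    rw [Rat.cast_sub, ← ha, ← hb]
    ring
  obtain ⟨f, hf, hfe⟩ := exists_one_on_Q hE he hee hc hmod (fun r => by
    obtain ⟨q, hq⟩ := ht1 (X ^ r)
    rw [map_pow, ev_X] at hq
    exact ⟨q, hq⟩)
  obtain ⟨w, hw⟩ : ∃ w, w = ev E f * E := ⟨_, rfl⟩
  have hEvT : ∀ p : ℚ[X], (∀ i, ((p.coeff i : ℚ) : K) ∈ S.O) → S.Preserves (ev E p) := by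
    intro p hp t ht
    have h1 : ev E p = ∑ i ∈ p.support, ((p.coeff i : ℚ) : K) • E ^ i := by
      conv_lhs => rw [p.as_sum_support_C_mul_X_pow]
      rw [map_sum]
      apply Finset.sum_congr rfl
      intro i _
      rw [map_mul, map_pow, ev_C, ev_X, smul_mul_assoc, one_mul]
    rw [h1, LinearMap.sum_apply]
    apply Submodule.sum_mem
    intro i _
    exact (hE.pow i).smul ⟨_, hp i⟩ t ht
  have hwT : S.Preserves w := by rw [hw]; exact (hEvT f hf).mul hE
  have hwc : w * e = e * w := by
    rw [hw, mul_assoc, hc, ← mul_assoc, hcev, mul_assoc]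
  rw [← hw] at hfe
  have hc' : (1 - w) * (1 - e) = (1 - e) * (1 - w) := one_sub_comm hwc
  obtain ⟨q, hq, hqe⟩ := exists_one_on_Q (S := S) (E := 1 - w) (e := 1 - e)
    (Lat.Preserves.one.sub hwT) (Lat.Preserves.one.sub he) hee' hc'
    (mod_compl he hee hmod (hEvT f hf) hw hfe)
    (fun r => by
      obtain ⟨q, hq⟩ := ht2 ((1 - f * X) ^ r)
      have h2 : ev E ((1 - f * X) ^ r) = (1 - w) ^ r := by
        rw [map_pow, map_sub, map_one, map_mul, ev_X, ← hw]
      rw [h2] at hq
      exact ⟨q, hq⟩)
  refine ⟨f, q, hf, hq, ?_⟩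
  have h1 : (1 - w) * e = 0 := by rw [sub_mul, one_mul, hfe, sub_self]
  rw [← hw]
  calc 1 - e = ev (1 - w) q * (1 - w) * (1 - e) := hqe.symm
    _ = ev (1 - w) q * (1 - w) - ev (1 - w) q * ((1 - w) * e) := by
        rw [mul_sub, mul_one, mul_assoc]
    _ = ev (1 - w) q * (1 - w) := by rw [h1, mul_zero, sub_zero]

end Rat

end Pool.Agent.H838
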