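import Pool.Agent.H838.NumMain

/-!
# The Lefschetz standard conjecture and intersection numbers modulo one prime number: main theorem
-/

open CategoryTheory AlgebraicGeometry Finset

universe u v

namespace Pool.Agent.H838

open Pool.Agent.H914 Pool.Agent.H914.VarClass Pool.Agent.H914.VarClass.Obj
  Pool.Agent.H914.WeilCohomology

variable {k : Type u} [Field k] {𝒱 : VarClass k} {ops : CycleOps 𝒱}
  {W : WeilCohomology.{u, v} ops} {X Y : 𝒱.Obj} {ℓ : ℕ}

lemma cycOp_sub (z w : (X.prod X).Cycles) :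
    cycOp W X (z - w) = cycOp W X z - cycOp W X w := by
  have h1 := cycOp_add (W := W) (z - w) w
  rw [sub_add_cancel] at h1
  rw [h1, add_sub_cancel_right]

lemma InducesWeight.eq {N : ℤ} {h : (X.prod X).Cycles} (hw : InducesWeight W X N h) :
    cycOp W X h = N • wt (W.isInternal X) X.dim := by
  apply gr_ext (W.isInternal X)
  intro i s hs
  rw [hw i s hs, LinearMap.smul_apply, wt, scal_apply _ _ hs, mul_smul]
  congr 1
  unfold node
  rw [← Int.cast_smul_eq_zsmul W.K]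
  congr 1
  push_cast
  ring

lemma isCyc_sub {Y : 𝒱.Obj} {p : ℕ} {z w : Y.Cycles} (hz : Y.IsCyc p z) (hw : Y.IsCyc p w) :
    Y.IsCyc p (z - w) := by
  have h1 := hz.add (hw.smul (-1))
  rwa [neg_smul, one_smul, ← sub_eq_add_neg] at h1

/-- A lowering cycle shows that the weight cycle is a multiple of the divisor modulo `ℓ`. -/
lemma dividesMod_of_low (hops : PreservesIntegral ops) (hℓ : ℓ.Prime) {D : X.Cycles}
    (hD : X.IsCyc 1 D) (hDint : IsIntegral X D) (hdim : 1 ≤ X.dim) {N : ℤ}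
    {h : (X.prod X).Cycles} (hh : IsIntegral (X.prod X) h) (hhc : (X.prod X).IsCyc X.dim h)
    (hw : InducesWeight W X N h) {f : (X.prod X).Cycles} (hf : (X.prod X).IsCyc (X.dim - 1) f)
    (hcomm : LinearMap.mulLeft W.K (W.cl X D) * cycOp W X f -
      cycOp W X f * LinearMap.mulLeft W.K (W.cl X D) = wt (W.isInternal X) X.dim) {M : ℕ}
    (hMf : IsIntegral (X.prod X) ((M : ℚ) • f)) (hM : ¬ ℓ ∣ M) : DividesMod ops X D h ℓ := by
  have hdim2 : (X.prod X).dim = X.dim + X.dim := dim_prod X X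
  have hcop : IsCoprime (M : ℤ) (ℓ : ℤ) := by
    rw [Nat.isCoprime_iff_coprime]
    exact (hℓ.coprime_iff_not_dvd.2 hM).symm
  obtain ⟨a, b, hab⟩ := hcop
  have hFc : (X.prod X).IsCyc (X.dim - 1) (((N * a : ℤ) : ℚ) • ((M : ℚ) • f)) :=
    (hf.smul _).smul _
  have hFi : IsIntegral (X.prod X) (((N * a : ℤ) : ℚ) • ((M : ℚ) • f)) := hMf.intSmul _
  refine ⟨_, hFi, hFc, ?_⟩
  set F := (((N * a : ℤ) : ℚ) • ((M : ℚ) • f)) with hF
  have e1 : cycOp W X F = (N * a * M) • cycOp W X f := by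
    rw [hF, cycOp_smul, cycOp_smul, smul_smul, ← Int.cast_smul_eq_zsmul W.K]
    push_cast
    rfl
  have e2 : cycOp W X (diffMul ops X D F - h) = (-(b * ℓ)) • cycOp W X h := by
    have e3 : (N * a * M) • (LinearMap.mulLeft W.K (W.cl X D) * cycOp W X f) -
        (N * a * M) • (cycOp W X f * LinearMap.mulLeft W.K (W.cl X D)) =
        (N * a * M) • wt (W.isInternal X) X.dim := by
      rw [← hcomm]
      exact (smul_sub _ _ _).symm
    have e4 : N * a * M = N - b * ℓ * N := by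
      have : a * M = 1 - b * ℓ := by rw [← hab]; ring
      rw [mul_assoc, this]
      ring
    rw [cycOp_sub, cycOp_diffMul hD, e1, mul_smul_comm, smul_mul_assoc, e3, hw.eq, smul_smul, e4]
    module
  have hdc : (X.prod X).IsCyc X.dim (diffMul ops X D F) := by
    have := isCyc_diffMul (ops := ops) hD hFc
    rwa [Nat.sub_add_cancel hdim] at this
  have hzc : (X.prod X).IsCyc X.dim (diffMul ops X D F - h) := isCyc_sub hdc hhc
  intro w hwi hwc
  rw [show (X.prod X).dim - X.dim = X.dim by omega] at hwc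
  obtain ⟨m, hm⟩ := degCycle_int (hops.mul hh hwi)
  refine ⟨-(b * m), ?_⟩
  have key : (((X.prod X).V.degCycle (ops.mul (diffMul ops X D F - h) w) : ℚ) : W.K) =
      (-(b * ℓ) : ℤ) • (((X.prod X).V.degCycle (ops.mul h w) : ℚ) : W.K) := by
    have hwc' := ops.pull_mem (swap X X) hwc
    have h1 : ∀ {z : (X.prod X).Cycles}, (X.prod X).IsCyc X.dim z →
        (((X.prod X).V.degCycle (ops.mul z w) : ℚ) : W.K) = LinearMap.trace W.K (W.H X)
          (par (W.isInternal X) * (cycOp W X z * cycOp W X (ops.pull (swap X X) w))) := by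
      intro z hz
      have e3 : LinearMap.trace W.K (W.H X) (par (W.isInternal X) * (cycOp W X z *
          cycOp W X (ops.pull (swap X X) w))) =
          W.tr (X.prod X) (W.cl _ z * W.map (swap X X) (W.cl _ (ops.pull (swap X X) w))) :=
        Pool.Agent.Y133.Half.trace_corr_corr _ _
      rw [e3, W.cl_pull, Pool.Agent.Y133.Half.swap_swap, tr_mul_cyc rfl hz hwc]
    rw [h1 hzc, h1 hhc, e2, smul_mul_assoc, mul_smul_comm, map_zsmul]
  rw [hm] at key
  have h2 : (((X.prod X).V.degCycle (ops.mul (diffMul ops X D F - h) w) : ℚ) : W.K) =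
      ((((ℓ : ℕ) : ℚ) * (((-(b * m) : ℤ)) : ℚ) : ℚ) : W.K) := by
    rw [key, zsmul_eq_mul]
    push_cast
    ring
  exact_mod_cast h2

/-- If the weight cycle is a multiple of the divisor modulo `ℓ` then it is orthogonal to the cycles
killed by the divisor. -/
lemma orthogonal_of_divides (W : WeilCohomology.{u, v} ops) {D : X.Cycles} (hD : X.IsCyc 1 D)
    (hdim : 1 ≤ X.dim) {h : (X.prod X).Cycles} (hhc : (X.prod X).IsCyc X.dim h)
    (hdiv : DividesMod ops X D h ℓ) : OrthogonalMod ops X D h ℓ := by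
  have hdim2 : (X.prod X).dim = X.dim + X.dim := dim_prod X X
  obtain ⟨f, hf, hfc, hnum⟩ := hdiv
  intro y hy hyc hy0
  obtain ⟨m₁, hm₁⟩ := hnum y hy (by rwa [show (X.prod X).dim - X.dim = X.dim by omega])
  obtain ⟨m₂, hm₂⟩ := hy0 f hf (by
    rwa [show (X.prod X).dim - (X.dim + 1) = X.dim - 1 by omega])
  have hdf : (X.prod X).IsCyc X.dim (diffMul ops X D f) := by
    have := isCyc_diffMul (ops := ops) hD hfc
    rwa [Nat.sub_add_cancel hdim] at this
  have hdy : (X.prod X).IsCyc (X.dim + 1) (diffMul ops X D y) := isCyc_diffMul hD hyc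
  have hδ : (X.prod X).IsCyc 1 (ops.pull (snd X X) D - ops.pull (fst X X) D) :=
    isCyc_sub (ops.pull_mem _ hD) (ops.pull_mem _ hD)
  refine ⟨m₂ - m₁, ?_⟩
  have h1 := tr_mul_cyc (W := W) rfl (isCyc_sub hdf hhc) hyc
  have h2 := tr_mul_cyc (W := W) (by omega) hdy hfc
  have h3 := tr_mul_cyc (W := W) rfl hhc hyc
  have h4 : W.tr (X.prod X) (W.cl _ (diffMul ops X D f) * W.cl _ y) =
      W.tr (X.prod X) (W.cl _ (diffMul ops X D y) * W.cl _ f) := by
    rw [diffMul, diffMul, W.cl_mul, W.cl_mul, mul_assoc, mul_assoc,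
      W.even_comm (W.cl_mem hfc) (W.cl _ y)]
  rw [map_sub, sub_mul, map_sub, h4, h2, h3, hm₁, hm₂] at h1
  have h5 : (((X.prod X).V.degCycle (ops.mul h y) : ℚ) : W.K) =
      (((ℓ : ℚ) * ((m₂ - m₁ : ℤ) : ℚ) : ℚ) : W.K) := by
    have h6 : (((X.prod X).V.degCycle (ops.mul h y) : ℚ) : W.K) =
        (((ℓ : ℚ) * (m₂ : ℚ) : ℚ) : W.K) - (((ℓ : ℚ) * (m₁ : ℚ) : ℚ) : W.K) := by
      rw [← h1]; ring
    rw [h6]
    push_cast
    ring
  exact_mod_cast h5

/-- Numerical triviality is invariant under the exchange of the factors. -/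
lemma numZeroMod_swap (hops : PreservesIntegral ops) (W : WeilCohomology.{u, v} ops)
    {D : X.Cycles} (hD : X.IsCyc 1 D) (hdim : 1 ≤ X.dim) {y : (X.prod X).Cycles}
    (hyc : (X.prod X).IsCyc X.dim y) (h0 : NumZeroMod ops ℓ X (X.dim + 1) (diffMul ops X D y)) :
    NumZeroMod ops ℓ X (X.dim + 1) (diffMul ops X D (ops.pull (swap X X) y)) := by
  have hdim2 : (X.prod X).dim = X.dim + X.dim := dim_prod X X
  intro w hw hwc
  rw [show (X.prod X).dim - (X.dim + 1) = X.dim - 1 by omega] at hwc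
  have hwc' := ops.pull_mem (swap X X) hwc
  obtain ⟨m, hm⟩ := h0 (ops.pull (swap X X) w) (hops.pull _ hw) (by
    rwa [show (X.prod X).dim - (X.dim + 1) = X.dim - 1 by omega])
  refine ⟨-m, ?_⟩
  have hyc' := ops.pull_mem (swap X X) hyc
  have h1 := tr_mul_cyc (W := W) (by omega) (isCyc_diffMul (ops := ops) hD hyc') hwc
  have h2 := tr_mul_cyc (W := W) (by omega) (isCyc_diffMul (ops := ops) hD hyc) hwc'
  have h3 : W.map (swap X X) (W.cl (X.prod X) (ops.pull (snd X X) D - ops.pull (fst X X) D)) =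
      - W.cl (X.prod X) (ops.pull (snd X X) D - ops.pull (fst X X) D) := by
    rw [map_sub, map_sub, W.cl_pull, W.cl_pull, ← W.map_comp, ← W.map_comp, swap_fst, swap_snd,
      neg_sub]
  have h4 : W.tr (X.prod X) (W.cl _ (diffMul ops X D (ops.pull (swap X X) y)) * W.cl _ w) =
      - W.tr (X.prod X) (W.cl _ (diffMul ops X D y) * W.cl _ (ops.pull (swap X X) w)) := by
    rw [← tr_swap, diffMul, diffMul, W.cl_mul, W.cl_mul, W.cl_pull, W.cl_pull,
      map_mul (W.map (swap X X)), map_mul (W.map (swap X X)), h3,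
      Pool.Agent.Y133.Half.swap_swap, neg_mul, neg_mul, map_neg]
  rw [h1, h2, hm] at h4
  have h5 : (((X.prod X).V.degCycle (ops.mul (diffMul ops X D (ops.pull (swap X X) y)) w) : ℚ) :
      W.K) = (((ℓ : ℚ) * ((-m : ℤ) : ℚ) : ℚ) : W.K) := by
    rw [h4]
    push_cast
    ring
  exact_mod_cast h5

/-- Duality. -/
lemma divides_of_orthogonal (hops : PreservesIntegral ops) (hℓ : ℓ.Prime) {D : X.Cycles}
    (hD : X.IsCyc 1 D) (hDint : IsIntegral X D) (hdim : 1 ≤ X.dim) {h : (X.prod X).Cycles}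
    (hh : IsIntegral (X.prod X) h) (hhc : (X.prod X).IsCyc X.dim h)
    (S : IntegralStructure W X ℓ) (hS : S.lat.IsGraded (W.gr X))
    (hres : S.lat.HasPrimeResidueField) (horth : OrthogonalMod ops X D h ℓ) :
    DividesMod ops X D h ℓ := by
  have hdim2 : (X.prod X).dim = X.dim + X.dim := dim_prod X X
  have hhR : RZ W X 0 (cycOp W X h) := Or.inl ⟨X.dim, by omega, h, ⟨hh, hhc⟩, rfl⟩
  obtain ⟨f, hf, hnum⟩ := (opDual hops S hS).exists_comm_num hres
    (rz_mulLeft_one hops hD hDint) hhR (by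
      intro y hy hy1
      rcases hy with ⟨q, hq, z, ⟨hz, hzc⟩, rfl⟩ | ⟨hd, rfl⟩
      · obtain rfl : q = X.dim := by omega
        rw [trace_cyc rfl hhc hzc]
        rw [← cycOp_diffMul hD, ← numZeroMod_iff hops hℓ S (p := X.dim + 1) (by omega)
          (integral_diffMul hops hDint hz) (isCyc_diffMul hD hzc) (by push_cast; ring)] at hy1
        obtain ⟨m, hm⟩ := horth _ (hops.pull (swap X X) hz) (ops.pull_mem _ hzc)
          (numZeroMod_swap hops W hD hdim hzc hy1)
        rw [hm]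
        obtain ⟨r, hr, hr'⟩ := (intCast_mem_max_iff hℓ S.lat (ℓ * m)).2 (dvd_mul_right _ _)
        exact ⟨r, hr, by rw [hr']; push_cast; rfl⟩
      · exact ⟨0, Ideal.zero_mem _, by rw [mul_zero, mul_zero, map_zero]; rfl⟩)
  rcases hf with ⟨q, hq, z, ⟨hz, hzc⟩, rfl⟩ | ⟨hd, rfl⟩
  · obtain rfl : q = X.dim - 1 := by omega
    refine ⟨z, hz, hzc, ?_⟩
    have hdf : (X.prod X).IsCyc X.dim (diffMul ops X D z) := by
      have := isCyc_diffMul (ops := ops) hD hzc
      rwa [Nat.sub_add_cancel hdim] at this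
    rw [numZeroMod_iff hops hℓ S (by omega) ((integral_diffMul hops hDint hz).sub hh)
      (isCyc_sub hdf hhc) (d := 0) (by simp), cycOp_sub, cycOp_diffMul hD]
    exact hnum
  · omega

/-- **From a divisibility modulo numerical equivalence modulo `ℓ` to the conjecture B.** -/
theorem lambda_of_divides (hops : PreservesIntegral ops) (hℓ : ℓ.Prime) {D : X.Cycles}
    (hD : X.IsCyc 1 D) (hDint : IsIntegral X D) (hHL : HardLefschetz W X D) (hdim : 1 ≤ X.dim)
    {N : ℤ} {h : (X.prod X).Cycles} (hh : IsIntegral (X.prod X) h)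
    (hhc : (X.prod X).IsCyc X.dim h) (hw : InducesWeight W X N h) (hN : ¬ (ℓ : ℤ) ∣ N)
    (hn : 2 * X.dim < ℓ) (hbetti : ∀ i, Module.finrank W.K (W.gr X i) < ℓ)
    (S : IntegralStructure W X ℓ) (hS : S.lat.IsGraded (W.gr X))
    (hL : ∀ c ≤ X.dim, S.LefschetzMod D c) (hdiv : DividesMod ops X D h ℓ) :
    ∃ z, IsIntegralAt ℓ (X.prod X) z ∧ (X.prod X).IsCyc (X.dim - 1) z ∧ InducesLambda W X D z := by
  have hnak := (nakayama hops hℓ hD hDint hHL S hS hL).out 0 2
  refine (hnak.1 fun c hc1 hc => ?_).1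
  have hRZ := rz_opRing (W := W) (X := X) hops
  have hLR := rz_mulLeft_one (W := W) hops hD hDint
  have hhR : RZ W X 0 (cycOp W X h) := Or.inl ⟨X.dim, by omega, h, ⟨hh, hhc⟩, rfl⟩
  obtain ⟨f, hf, hfc, hnum⟩ := hdiv
  have hfR : RZ W X (-1) (cycOp W X f) := Or.inl ⟨X.dim - 1, by omega, f, ⟨hf, hfc⟩, rfl⟩
  have hdf : (X.prod X).IsCyc X.dim (diffMul ops X D f) := by
    have := isCyc_diffMul (ops := ops) hD hfc
    rwa [Nat.sub_add_cancel hdim] at this
  rw [numZeroMod_iff hops hℓ S (by omega) ((integral_diffMul hops hDint hf).sub hh)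
      (isCyc_sub hdf hhc) (d := 0) (by simp), cycOp_sub, cycOp_diffMul hD] at hnum
  have hcop : IsCoprime N (ℓ : ℤ) :=
    ((Nat.prime_iff_prime_int.1 hℓ).coprime_iff_not_dvd.2 hN).symm
  obtain ⟨a, b, hab⟩ := hcop
  have hwT : S.lat.Preserves (wt (W.isInternal X) X.dim) := by
    rw [wt, scal_eq_sum (W.isInternal X) (N := 2 * X.dim + 1) (W.gr_eq_bot X)]
    apply Lat.Preserves.sum'
    intro i _
    have h1 : (((node X.dim i : ℚ) : W.K)) = ((((i : ℤ) - X.dim : ℤ) : S.lat.O) : W.K) := by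
      unfold node
      push_cast
      ring
    rw [h1]
    exact (hS.proj_mem (W.isInternal X) i).smul _
  have hR := opDual hops S hS
  have hinj := injMod_of_numLow (W.isInternal X) (W.gr_eq_bot X) hS hℓ (by omega) hbetti hR
    (exists_projMod (W.isInternal X) (W.gr_eq_bot X) hS hℓ hn hRZ hhR hN hw) hLR
    (hRZ.zsmul hfR a) (by
      intro y hy
      obtain ⟨r, hr, hr'⟩ := hnum y (by rwa [neg_zero])
      have hyT := preserves_of_rz S hy
      have hzero : S.lat.IsZeroMod ((-(b * ℓ)) •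
          (par (W.isInternal X) * (wt (W.isInternal X) X.dim * y))) := by
        intro t ht
        rw [LinearMap.smul_apply]
        exact Lat.memMax_zsmul_dvd (by
          rw [dvd_neg]
          exact dvd_mul_left _ _) ((hR.presPi.mul (hwT.mul hyT)) t ht)
      obtain ⟨r', hr1, hr2⟩ := trace_of_zeroMod
        ((hR.presPi.mul (hwT.mul hyT)).zsmul (-(b * ℓ))) hzero
      refine ⟨(a : S.lat.O) * r + r', Ideal.add_mem _ (Ideal.mul_mem_left _ _ hr) hr1, ?_⟩
      have e1 : par (W.isInternal X) * ((LinearMap.mulLeft W.K (W.cl X D) * a • cycOp W X f -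
          a • cycOp W X f * LinearMap.mulLeft W.K (W.cl X D) -
            wt (W.isInternal X) X.dim) * y) =
          a • (par (W.isInternal X) * ((LinearMap.mulLeft W.K (W.cl X D) * cycOp W X f -
            cycOp W X f * LinearMap.mulLeft W.K (W.cl X D) - cycOp W X h) * y)) +
          (-(b * ℓ)) • (par (W.isInternal X) * (wt (W.isInternal X) X.dim * y)) := by
        rw [hw.eq]
        have e2 : (-(b * ℓ) : ℤ) = a * N - 1 := by rw [← hab]; ring
        rw [e2]
        simp only [mul_smul_comm, smul_mul_assoc, sub_mul, mul_sub, smul_sub, sub_smul, one_smul,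
          mul_smul]
        abel
      rw [e1, map_add, map_zsmul, ← hr', ← hr2]
      push_cast
      rw [zsmul_eq_mul]) hc
  have h2 : RZ W X (-c) ((a • cycOp W X f) ^ c) := by
    have := hRZ.pow (hRZ.zsmul hfR a) c
    rwa [mul_neg_one] at this
  rcases h2 with ⟨q, hq, z, ⟨hz, hzc⟩, he⟩ | ⟨hd, _⟩
  · obtain rfl : q = X.dim - c := by omega
    refine ⟨z, hz, hzc, ?_⟩
    rw [← he] at hinj
    exact hinj
  · omega

/-- The lowering operator from the operator `Λ`. -/
lemma exists_low {R : ℤ → Module.End W.K (W.H X) → Prop} (hR : OpRing (W.gr X) R)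
    {D : X.Cycles} (hD : X.IsCyc 1 D) (hHL : HardLefschetz W X D)
    (hLR : R 1 (LinearMap.mulLeft W.K (W.cl X D))) {Φ : Module.End W.K (W.H X)} (hΦ : R (-1) Φ)
    (hLam : IsLam (W.gr X) X.dim (LinearMap.mulLeft W.K (W.cl X D)) Φ) :
    ∃ f, R (-1) f ∧ LinearMap.mulLeft W.K (W.cl X D) * f -
      f * LinearMap.mulLeft W.K (W.cl X D) = wt (W.isInternal X) X.dim := by
  set L := LinearMap.mulLeft W.K (W.cl X D) with hLdef
  have hwt := sum_comm_eq_wt (W.isInternal X) (isHom_mulLeft W hD) W_hbd hHL hLam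
  refine ⟨∑ m ∈ range X.dim, ∑ a ∈ range (m + 1), L ^ a * Φ ^ (m + 1) * L ^ (m - a), ?_, ?_⟩
  · apply hR.sum
    intro m _
    apply hR.sum
    intro a ha
    rw [Finset.mem_range] at ha
    refine hR.cast (hR.mul (hR.mul (hR.pow hLR a) (hR.pow hΦ (m + 1))) (hR.pow hLR (m - a))) ?_
    have : ((m - a : ℕ) : ℤ) = m - a := by omega
    rw [this]
    push_cast
    ring
  · rw [← hwt, Finset.mul_sum, Finset.sum_mul, ← Finset.sum_sub_distrib]
    exact Finset.sum_congr rfl fun m _ => Pool.Agent.E8helper99.SM.comm_sum L Φ m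

/-- The rational operators form a ring. -/
lemma rop_opRing : OpRing (W.gr X) (ROp W X) where
  one := rop_opAlg.one
  zero := rop_opAlg.zero
  add := rop_opAlg.add
  neg := rop_opAlg.neg
  mul := rop_opAlg.mul
  hom := rop_opAlg.hom

/-- **The conjecture B with coefficients in `ℤ_(ℓ)` and intersection numbers modulo `ℓ`.** -/
theorem num_mod (hops : PreservesIntegral ops) (hℓ : ℓ.Prime) {D : X.Cycles}
    (hD : X.IsCyc 1 D) (hDint : IsIntegral X D) (hHL : HardLefschetz W X D) (hdim : 1 ≤ X.dim)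
    {N : ℤ} {h : (X.prod X).Cycles} (hh : IsIntegral (X.prod X) h)
    (hhc : (X.prod X).IsCyc X.dim h) (hw : InducesWeight W X N h) (hN : ¬ (ℓ : ℤ) ∣ N)
    (hn : 2 * X.dim < ℓ) (hbetti : ∀ i, Module.finrank W.K (W.gr X i) < ℓ)
    (S : IntegralStructure W X ℓ) (hS : S.IsGood D) :
    List.TFAE [
      ∃ z, IsIntegralAt ℓ (X.prod X) z ∧ (X.prod X).IsCyc (X.dim - 1) z ∧ InducesLambda W X D z,
      DividesMod ops X D h ℓ,
      OrthogonalMod ops X D h ℓ] := by
  tfae_have 1 → 2 := by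
    rintro ⟨z, hz, hzc, hLam⟩
    have hΦ : RInt ℓ W X (-1) (cycOp W X z) := Or.inl ⟨X.dim - 1, by omega, z, hz, hzc, rfl⟩
    obtain ⟨f, hf, hcomm⟩ := exists_low (rint_opRing (W := W) (X := X) hops hℓ) hD hHL (by
      have := rint_mulLeft (W := W) hops hℓ hD hDint
      simpa using this) hΦ hLam
    rcases hf with ⟨q, hq, w, hwi, hwc, rfl⟩ | ⟨hd, _⟩
    · obtain rfl : q = X.dim - 1 := by omega
      obtain ⟨M, hM, hMw⟩ := hwi.exists_denominator hℓ
      exact dividesMod_of_low hops hℓ hD hDint hdim hh hhc hw hwc hcomm hMw hM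
    · omega
  tfae_have 2 → 3 := orthogonal_of_divides W hD hdim hhc
  tfae_have 3 → 2 := divides_of_orthogonal hops hℓ hD hDint hdim hh hhc S hS.1 hS.2.1
  tfae_have 2 → 1 := lambda_of_divides hops hℓ hD hDint hHL hdim hh hhc hw hN hn hbetti S hS.1
    hS.2.2
  tfae_finish

/-- The conjecture B gives the divisibility for almost all prime numbers. -/
theorem almost_all_of_lefschetzB (hops : PreservesIntegral ops) {D : X.Cycles}
    (hD : X.IsCyc 1 D) (hDint : IsIntegral X D) (hHL : HardLefschetz W X D) (hdim : 1 ≤ X.dim)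
    {N : ℤ} {h : (X.prod X).Cycles} (hh : IsIntegral (X.prod X) h)
    (hhc : (X.prod X).IsCyc X.dim h) (hw : InducesWeight W X N h)
    (hB : LefschetzB W X D) : ∃ M : ℕ, ∀ ℓ > M, ℓ.Prime → DividesMod ops X D h ℓ := by
  obtain ⟨Φ, hΦ, hLam⟩ := lefschetzB_iff_rop.1 hB
  obtain ⟨f, ⟨Y, hY, hYf⟩, hcomm⟩ := exists_low rop_opRing hD hHL (rop_mulLeft hD) hΦ hLam
  rcases hY with ⟨q, hq, z, hz, hY⟩ | ⟨hd, _⟩
  · obtain rfl : q = X.dim - 1 := by omega
    obtain ⟨M, hM, hMz⟩ := exists_denominator (X.prod X) z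
    refine ⟨M, fun ℓ hℓM hℓ => ?_⟩
    have e1 : cycOp W X z = f := by rw [← hYf, hY]; rfl
    rw [← e1] at hcomm
    exact dividesMod_of_low hops hℓ hD hDint hdim hh hhc hw hz hcomm hMz fun hdvd => by
      have := Nat.le_of_dvd hM hdvd
      omega
  · omega

/-- **The conjecture B and intersection numbers modulo one prime number.** -/
theorem num_main (hops : PreservesIntegral ops) {ι : Type*}
    (W : ι → WeilCohomology.{u, v} ops) (ℓ : ι → ℕ) (hdim : 1 ≤ X.dim) {D : X.Cycles}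
    (hD : X.IsCyc 1 D) (hDint : IsIntegral X D) (hHL : ∀ i, HardLefschetz (W i) X D) {N : ℤ}
    {h : (X.prod X).Cycles} (hh : IsIntegral (X.prod X) h) (hhc : (X.prod X).IsCyc X.dim h)
    (hw : ∀ i, InducesWeight (W i) X N h)
    (hE : ∀ M : ℕ, ∃ i, M < ℓ i ∧ IsLarge (W i) X D N (ℓ i)) :
    (∀ i, IsLarge (W i) X D N (ℓ i) → List.TFAE [
      LambdaAt (W i) X D (ℓ i),
      DividesMod ops X D h (ℓ i),
      OrthogonalMod ops X D h (ℓ i)]) ∧
    List.TFAE [
      ∃ i, LefschetzB (W i) X D,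
      ∃ M : ℕ, ∀ i, M < ℓ i → IsLarge (W i) X D N (ℓ i) → LambdaAt (W i) X D (ℓ i),
      ∃ M : ℕ, ∀ p > M, p.Prime → DividesMod ops X D h p,
      ∃ M : ℕ, ∀ p > M, p.Prime → OrthogonalMod ops X D h p,
      ∃ i, IsLarge (W i) X D N (ℓ i) ∧ DividesMod ops X D h (ℓ i),
      ∃ i, IsLarge (W i) X D N (ℓ i) ∧ OrthogonalMod ops X D h (ℓ i)] := by
  have main : ∀ i, IsLarge (W i) X D N (ℓ i) → List.TFAE [
      LambdaAt (W i) X D (ℓ i),
      DividesMod ops X D h (ℓ i),
      OrthogonalMod ops X D h (ℓ i)] := by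
    rintro i ⟨hℓ, hN, hn, hb, S, hS⟩
    exact num_mod hops hℓ hD hDint (hHL i) hdim hh hhc (hw i) hN hn hb S hS
  have hB : ∀ i, LambdaAt (W i) X D (ℓ i) → LefschetzB (W i) X D := by
    rintro i ⟨z, -, hzc, hz⟩
    exact ⟨z, hzc, hz⟩
  refine ⟨main, ?_⟩
  tfae_have 1 → 3 := by
    rintro ⟨i, hi⟩
    exact almost_all_of_lefschetzB hops hD hDint (hHL i) hdim hh hhc (hw i) hi
  tfae_have 3 → 2 := by
    rintro ⟨M, hM⟩
    exact ⟨M, fun i hi hl => ((main i hl).out 1 0).1 (hM _ hi hl.1)⟩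
  tfae_have 2 → 1 := by
    rintro ⟨M, hM⟩
    obtain ⟨i, hi, hl⟩ := hE M
    exact ⟨i, hB i (hM i hi hl)⟩
  tfae_have 3 → 4 := by
    rintro ⟨M, hM⟩
    obtain ⟨i, -, -⟩ := hE 0
    exact ⟨M, fun p hp hpp => orthogonal_of_divides (W i) hD hdim hhc (hM p hp hpp)⟩
  tfae_have 4 → 6 := by
    rintro ⟨M, hM⟩
    obtain ⟨i, hi, hl⟩ := hE M
    exact ⟨i, hl, hM _ hi hl.1⟩
  tfae_have 6 → 5 := by
    rintro ⟨i, hl, ho⟩
    exact ⟨i, hl, ((main i hl).out 2 1).1 ho⟩
  tfae_have 5 → 1 := by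
    rintro ⟨i, hl, hd⟩
    exact ⟨i, hB i (((main i hl).out 1 0).1 hd)⟩
  tfae_finish

end Pool.Agent.H838
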