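import Pool.Agent.H838.JanMod
import Pool.Agent.H838.DiscMain
import Pool.Graph.R_seed8.H447R3.DegB

/-!
# Semisimplicity modulo almost all prime numbers
-/

open CategoryTheory AlgebraicGeometry Finset

universe u v

namespace Pool.Agent.H838

open Pool.Agent.H914 Pool.Agent.H914.VarClass Pool.Agent.H914.VarClass.Obj
  Pool.Agent.H914.WeilCohomology

variable {k : Type u} [Field k] {𝒱 : VarClass k} {ops : CycleOps 𝒱}
  {W : WeilCohomology.{u, v} ops} {X Y : 𝒱.Obj} {ℓ : ℕ}

/-- Nondegeneracy in all degrees. -/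
lemma nondeg_all (hops : PreservesIntegral ops) (hℓ : ℓ.Prime) (S : IntegralStructure W X ℓ)
    (hN : ∀ p, S.NumHomMod p) (d : ℤ) :
    NondegAt S.lat (RZ W X) (par (W.isInternal X)) d := by
  intro y hy h
  rcases hy with ⟨q, hq, z, ⟨hz, hzc⟩, rfl⟩ | ⟨hd, rfl⟩
  · have hdim : (X.prod X).dim = X.dim + X.dim := dim_prod X X
    by_cases hq2 : q ≤ X.dim + X.dim
    · apply hN q z hz hzc
      intro w hw hwc
      obtain ⟨r, hr, hr'⟩ := h (cycOp W X (ops.pull (swap X X) w))
        (Or.inl ⟨X.dim + X.dim - q, by omega, _, ⟨hops.pull _ hw, ops.pull_mem _ (by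
          rwa [hdim] at hwc)⟩, rfl⟩)
      have e1 : LinearMap.trace W.K (W.H X) (par (W.isInternal X) *
          (cycOp W X z * cycOp W X (ops.pull (swap X X) w))) =
          W.tr (X.prod X) (W.cl _ z * W.map (swap X X) (W.cl _ (ops.pull (swap X X) w))) :=
        Pool.Agent.Y133.Half.trace_corr_corr _ _
      have h2 := ops.mul_mem hzc hwc
      rw [show q + ((X.prod X).dim - q) = (X.prod X).dim by omega] at h2
      rw [e1, W.cl_pull, Pool.Agent.Y133.Half.swap_swap, ← W.cl_mul, W.tr_cl h2] at hr'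
      obtain ⟨m, hm⟩ := degCycle_int (hops.mul hz hw)
      rw [hm] at hr' ⊢
      by_cases hdiv : (ℓ : ℤ) ∣ m
      · obtain ⟨a, rfl⟩ := hdiv
        exact ⟨a, by push_cast; ring⟩
      · exfalso
        have hu := S.lat.int_isUnit hℓ hdiv
        have h3 : (m : S.lat.O) = r := by
          apply Subtype.ext
          rw [hr']
          push_cast
          rfl
        rw [h3] at hu
        exact (IsLocalRing.mem_maximalIdeal _).1 hr hu
    · have h3 : W.cl (X.prod X) z = 0 := by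
        have h4 := W.cl_mem hzc
        rw [W.gr_eq_bot _ _ (by omega)] at h4
        exact (Submodule.mem_bot _).1 h4
      have h4 : cycOp W X z = 0 := by
        rw [cycOp, h3, corr_zero]
      rw [h4]
      exact Lat.IsZeroMod.zero
  · exact Lat.IsZeroMod.zero

/-- The Kunneth projectors have bounded denominators. -/
lemma exists_projectors {D : X.Cycles} (hD : X.IsCyc 1 D) (hHL : HardLefschetz W X D)
    (hB : LefschetzB W X D) : ∃ N : ℕ, ∀ ℓ > N, ℓ.Prime → ∀ S : IntegralStructure W X ℓ,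
      S.lat.IsGraded (W.gr X) → ∀ i, ∃ y, RZ W X 0 y ∧
        S.lat.IsZeroMod (y - proj (W.isInternal X) i) := by
  classical
  obtain ⟨Φ, hΦ, hLam⟩ := lefschetzB_iff_rop.1 hB
  have h1 : ∀ i, ∃ P, (X.prod X).IsCyc X.dim P ∧ cycOp W X P = proj (W.isInternal X) i := by
    intro i
    obtain ⟨Y, hY, hY'⟩ :=
      rop_opAlg.proj_mem (W.isInternal X) W_hbd (rop_mulLeft hD) hHL hΦ hLam i
    rcases hY with ⟨q, hq, z, hz, hY⟩ | ⟨hd, _⟩
    · obtain rfl : q = X.dim := by omega
      exact ⟨z, hz, by rw [← hY', hY]; rfl⟩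
    · omega
  choose P hP hP' using h1
  choose N hN hN' using fun i => exists_denominator (X.prod X) (P i)
  refine ⟨∏ i ∈ Finset.range (2 * X.dim + 1), N i, ?_⟩
  intro ℓ hℓN hℓ S hS i
  by_cases hi : i < 2 * X.dim + 1
  · have hdiv : ¬ ℓ ∣ N i := by
      intro hdvd
      have h3 : N i ∣ ∏ i ∈ Finset.range (2 * X.dim + 1), N i :=
        Finset.dvd_prod_of_mem N (Finset.mem_range.2 hi)
      have h4 := Nat.le_of_dvd (Finset.prod_pos fun i _ => hN i) (hdvd.trans h3)
      omega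
    have hcop : IsCoprime (N i : ℤ) (ℓ : ℤ) := by
      rw [Nat.isCoprime_iff_coprime]
      exact (hℓ.coprime_iff_not_dvd.2 hdiv).symm
    obtain ⟨a, b, hab⟩ := hcop
    refine ⟨cycOp W X ((a : ℚ) • ((N i : ℚ) • P i)), Or.inl ⟨X.dim, by omega, _,
      ⟨(hN' i).intSmul a, ((hP i).smul _).smul _⟩, rfl⟩, ?_⟩
    have e1 : cycOp W X ((a : ℚ) • ((N i : ℚ) • P i)) = (a * N i) • proj (W.isInternal X) i := by
      rw [cycOp_smul, cycOp_smul, smul_smul, ← Int.cast_smul_eq_zsmul W.K, hP']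
      push_cast
      rfl
    have e2 : (a * N i) • proj (W.isInternal X) i - proj (W.isInternal X) i =
        (-(b * ℓ)) • proj (W.isInternal X) i := by
      have e4 : (a * N i : ℤ) = 1 - b * ℓ := by rw [← hab]; ring
      rw [e4, sub_smul, one_smul, neg_smul]
      abel
    rw [e1, e2]
    intro t ht
    rw [LinearMap.smul_apply]
    exact Lat.memMax_zsmul_dvd (by
      rw [dvd_neg]
      exact dvd_mul_left _ _) (hS.proj_mem (W.isInternal X) i t ht)
  · refine ⟨0, Or.inl ⟨X.dim, by omega, mem_intOps_of_rz (d := 0) ?_ (by omega)⟩, ?_⟩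
    · exact Or.inl ⟨X.dim, by omega, 0, ⟨isIntegral_zero, SmVar.IsCyc.zero _ _⟩, cycOp_zero⟩
    · have h3 : proj (W.isInternal X) i = 0 := by
        apply LinearMap.ext
        intro a
        have h4 := proj_mem (W.isInternal X) i a
        rw [W.gr_eq_bot X i (by omega)] at h4
        exact (Submodule.mem_bot _).1 h4
      rw [h3, sub_zero]
      exact Lat.IsZeroMod.zero

lemma allIntOps_eq (hops : PreservesIntegral ops) :
    allIntOps W X = {y | ∃ d, RZ W X d y} := by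
  ext y
  exact ⟨fun h => rz_of_mem_allIntOps h, fun ⟨_, h⟩ => mem_allIntOps_of_rz hops h⟩

/-- **Jannsen's theorem modulo almost all prime numbers.** -/
theorem semisimple_almost_all (hops : PreservesIntegral ops) {D : X.Cycles} (hD : X.IsCyc 1 D)
    (hHL : HardLefschetz W X D) (hB : LefschetzB W X D) (hnum : HomEqNum W (X.prod X)) :
    ∃ N : ℕ, ∀ ℓ > N, ℓ.Prime → ∀ S : IntegralStructure W X ℓ, S.lat.IsGraded (W.gr X) →
      S.lat.HasPrimeResidueField → S.lat.SemisimpleMod (W.gr X) (allIntOps W X) := by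
  obtain ⟨N₁, h₁⟩ := exists_numHomMod hnum
  obtain ⟨N₂, h₂⟩ := exists_projectors hD hHL hB
  refine ⟨max N₁ N₂, fun ℓ hℓN hℓ S hS hκ => ?_⟩
  rw [allIntOps_eq hops]
  exact semisimpleMod_of_nondeg (W.isInternal X) (N := 2 * X.dim + 1)
    (fun i hi => W.gr_eq_bot X i (by omega)) hS hκ (opDual hops S hS)
    (nondeg_all hops hℓ S (h₁ ℓ (lt_of_le_of_lt (le_max_left _ _) hℓN) hℓ S))
    (h₂ ℓ (lt_of_le_of_lt (le_max_right _ _) hℓN) hℓ S hS)

/-- `hom = num` on `X × X` implies semisimplicity modulo almost all prime numbers. -/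
theorem semisimple_of_homEqNum (hops : PreservesIntegral ops) {D : X.Cycles} (hD : X.IsCyc 1 D)
    (hHL : HardLefschetz W X D) (hnum : HomEqNum W (X.prod X)) :
    ∃ N : ℕ, ∀ ℓ > N, ℓ.Prime → ∀ S : IntegralStructure W X ℓ, S.lat.IsGraded (W.gr X) →
      S.lat.HasPrimeResidueField → S.lat.SemisimpleMod (W.gr X) (allIntOps W X) := by
  have h2 := ((H447.d_tfae hD hHL).out 0 2 : HomEqNum W (X.prod X) ↔
    H447.HomEqNumIn W (X.prod X) X.dim ∧ LefschetzB W X D)
  have hB : LefschetzB W X D := (h2.1 hnum).2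
  exact semisimple_almost_all hops hD hHL hB hnum

/-- **The Lefschetz standard conjecture and semisimplicity modulo prime numbers.** -/
theorem lefschetzB_mod (hops : PreservesIntegral ops) {D : X.Cycles} (hD : X.IsCyc 1 D)
    (hDint : IsIntegral X D) (hHL : HardLefschetz W X D)
    (hH : HodgeType W (X.prod X) (boxSum ops D))
    (hE : ∀ N : ℕ, ∃ ℓ > N, ℓ.Prime ∧ ∃ S : IntegralStructure W X ℓ, S.IsGood D) :
    List.TFAE [
      LefschetzB W X D,
      ∃ N : ℕ, ∀ ℓ > N, ℓ.Prime → ∀ S : IntegralStructure W X ℓ, S.lat.IsGraded (W.gr X) →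
        S.lat.HasPrimeResidueField → S.lat.SemisimpleMod (W.gr X) (allIntOps W X),
      ∃ ℓ, ℓ.Prime ∧ ∃ S : IntegralStructure W X ℓ, S.IsGood D ∧
        S.lat.SemisimpleMod (W.gr X) (allIntOps W X)] := by
  tfae_have 1 → 2 := fun hB => semisimple_almost_all hops hD hHL hB
    (homEqNum_of_lefschetzB hD hHL hB (IsPower.prod IsPower.base IsPower.base) hH)
  tfae_have 2 → 3 := by
    rintro ⟨N, hN⟩
    obtain ⟨ℓ, hℓN, hℓ, S, hS⟩ := hE N
    exact ⟨ℓ, hℓ, S, hS, hN ℓ hℓN hℓ S hS.1 hS.2.1⟩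
  tfae_have 3 → 1 := by
    rintro ⟨ℓ, hℓ, S, ⟨hS, hκ, hL⟩, hss⟩
    obtain ⟨z, -, hzc, hz⟩ := semisimple_mod hops hℓ hD hDint hHL S hS hκ hL hss
    exact ⟨z, hzc, hz⟩
  tfae_finish

end Pool.Agent.H838
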