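import Pool.Agent.H838.SmiMain
import Mathlib.RingTheory.Artinian.Ring
import Mathlib.RingTheory.Jacobson.Semiprimary

/-!
# Semisimplicity from nondegeneracy modulo the maximal ideal
-/

namespace Pool.Agent.H838

open Pool.Agent.H914 Finset

/-- A finite dimensional algebra without nilpotent ideals is semisimple. -/
lemma isSemisimpleRing_of_nil {κ : Type*} [Field κ] {A : Type*} [Ring A] [Algebra κ A]
    [Module.Finite κ A] (H : ∀ x : A, (∀ y z : A, IsNilpotent (z * x * y)) → x = 0) :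
    IsSemisimpleRing A := by
  have : IsArtinianRing A := IsArtinianRing.of_finite κ A
  rw [IsArtinianRing.isSemisimpleRing_iff_jacobson, eq_bot_iff]
  intro x hx
  rw [Submodule.mem_bot]
  apply H
  intro y z
  obtain ⟨n, hn⟩ := IsSemiprimaryRing.isNilpotent (R := A)
  refine ⟨n, ?_⟩
  have h1 : z * x * y ∈ Ring.jacobson A :=
    Ideal.mul_mem_right _ _ (Ideal.mul_mem_left _ _ hx)
  have h2 := Ideal.pow_mem_pow h1 n
  rw [hn] at h2
  exact h2

/-- Stable complements for a semisimple algebra of operators. -/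
lemma exists_compl_of_semisimple {κ M : Type*} [Field κ] [AddCommGroup M] [Module κ M]
    (B : Subalgebra κ (Module.End κ M)) [IsSemisimpleRing B] (U : Submodule κ M)
    (hU : ∀ x ∈ B, ∀ v ∈ U, x v ∈ U) :
    ∃ W : Submodule κ M, (∀ x ∈ B, ∀ v ∈ W, x v ∈ W) ∧ IsCompl U W := by
  let Ub : Submodule B M :=
    { carrier := U
      add_mem' := U.add_mem
      zero_mem' := U.zero_mem
      smul_mem' := fun x v hv => hU x.1 x.2 v hv }
  obtain ⟨Wb, hWb⟩ := exists_isCompl Ub
  let W : Submodule κ M :=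
    { carrier := Wb
      add_mem' := Wb.add_mem
      zero_mem' := Wb.zero_mem
      smul_mem' := by
        intro c v hv
        have h1 := Wb.smul_mem (⟨algebraMap κ _ c, B.algebraMap_mem c⟩ : B) hv
        exact h1 }
  refine ⟨W, fun x hx v hv => Wb.smul_mem (⟨x, hx⟩ : B) hv, ?_⟩
  rw [isCompl_iff, disjoint_iff, codisjoint_iff]
  constructor
  · rw [eq_bot_iff]
    rintro v ⟨h1, h2⟩
    have h3 : v ∈ Ub ⊓ Wb := ⟨h1, h2⟩
    rw [hWb.inf_eq_bot] at h3
    exact (Submodule.mem_bot _).2 ((Submodule.mem_bot _).1 h3)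
  · rw [eq_top_iff]
    intro v _
    have h3 : v ∈ Ub ⊔ Wb := by rw [hWb.sup_eq_top]; trivial
    obtain ⟨a, ha, w, hw, rfl⟩ := Submodule.mem_sup.1 h3
    exact Submodule.mem_sup.2 ⟨a, ha, w, hw, rfl⟩

variable {K : Type*} [Field K] {V : Type*} [AddCommGroup V] [Module K V] {ℓ : ℕ}

section

variable [CharZero K] [Module.Finite K V] {S : Lat K V ℓ} {gr : ℕ → Submodule K V}
  {R : ℤ → Module.End K V → Prop}

/-- **Jannsen's theorem modulo the maximal ideal.** -/
theorem semisimpleMod_of_nondeg (h : DirectSum.IsInternal gr) {N : ℕ}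
    (hN : ∀ i, N ≤ i → gr i = ⊥) (hS : S.IsGraded gr) (hκ : S.HasPrimeResidueField)
    (hR : OpDual S gr R (par h)) (hND : ∀ d, NondegAt S R (par h) d)
    (hproj : ∀ i, ∃ y, R 0 y ∧ S.IsZeroMod (y - proj h i)) :
    S.SemisimpleMod gr {y | ∃ d, R d y} := by
  classical
  obtain ⟨m, b, hb⟩ := S.exists_basis
  have hP : ∀ i, S.Preserves (proj h i) := hS.proj_mem h
  have hint : ∀ (c : IsLocalRing.ResidueField S.O),
      ∃ m : ℤ, c = (m : IsLocalRing.ResidueField S.O) := by
    intro c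
    obtain ⟨a, rfl⟩ := IsLocalRing.residue_surjective c
    obtain ⟨m, hm⟩ := hκ a
    refine ⟨m, ?_⟩
    rw [← IsLocalRing.residue_eq_zero_iff, map_sub, sub_eq_zero, map_intCast] at hm
    exact hm
  have hrho : ∀ {y : Module.End K V} (hy : S.Preserves y) (m : ℤ),
      S.rho b (m • y) = (m : IsLocalRing.ResidueField S.O) • S.rho b y := by
    intro y hy m
    have h1 : m • y = (((m : S.O) : K)) • y := by
      rw [show (((m : S.O)) : K) = (m : K) by push_cast; rfl, Int.cast_smul_eq_zsmul]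
    rw [h1, Lat.rho_smul hb hy, map_intCast]
  choose q hq hq' using hproj
  have hρq : ∀ i, S.rho b (q i) = S.rho b (proj h i) := by
    intro i
    have h1 := (Lat.rho_eq_zero_iff hb ((hR.pres (hq i)).sub (hP i))).2 (hq' i)
    rwa [Lat.rho_sub hb (hR.pres (hq i)) (hP i), sub_eq_zero] at h1
  -- the algebra
  let Msub : Submonoid (Matrix (Fin m) (Fin m) (IsLocalRing.ResidueField S.O)) :=
    { carrier := {M | ∃ d y, R d y ∧ S.rho b y = M}
      one_mem' := ⟨0, 1, hR.ring.one, Lat.rho_one hb⟩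
      mul_mem' := by
        rintro _ _ ⟨d, y, hy, rfl⟩ ⟨e, z, hz, rfl⟩
        exact ⟨d + e, y * z, hR.ring.mul hy hz, Lat.rho_mul hb (hR.pres hy) (hR.pres hz)⟩ }
  let B : Subalgebra (IsLocalRing.ResidueField S.O)
      (Matrix (Fin m) (Fin m) (IsLocalRing.ResidueField S.O)) := Algebra.adjoin _ (Msub : Set _)
  have hB : ∀ x, x ∈ B ↔ x ∈ Submodule.span (IsLocalRing.ResidueField S.O)
      (Msub : Set (Matrix (Fin m) (Fin m) (IsLocalRing.ResidueField S.O))) := by
    intro x
    have h1 := Algebra.adjoin_eq_span (IsLocalRing.ResidueField S.O)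
      (Msub : Set (Matrix (Fin m) (Fin m) (IsLocalRing.ResidueField S.O)))
    rw [Submonoid.closure_eq] at h1
    rw [← h1]
    rfl
  have hmemB : ∀ {d y}, R d y → S.rho b y ∈ B := fun {d y} hy =>
    Algebra.subset_adjoin ⟨d, y, hy, rfl⟩
  have hpB : ∀ i, S.rho b (proj h i) ∈ B := fun i => by rw [← hρq]; exact hmemB (hq i)
  -- the homogeneous pieces
  have hzero : ∀ {d y}, R d y → ∀ i j : ℕ, 2 * d ≠ (i : ℤ) - j → proj h i * y * proj h j = 0 := by
    intro d y hy i j hd
    apply LinearMap.ext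
    intro a
    rw [Module.End.mul_apply, Module.End.mul_apply, LinearMap.zero_apply]
    have h1 := hR.ring.hom hy j (proj h j a) (by rw [grZ_natCast]; exact proj_mem h j a)
    by_cases hneg : 0 ≤ (j : ℤ) + 2 * d
    · rw [← Int.toNat_of_nonneg hneg, grZ_natCast] at h1
      exact proj_ne h h1 (by omega)
    · rw [grZ_of_neg (by omega)] at h1
      rw [(Submodule.mem_bot _).1 h1, map_zero]
  have hpiece : ∀ x ∈ B, ∀ i j : ℕ, ∃ y, R (((i : ℤ) - j) / 2) y ∧
      S.rho b y = S.rho b (proj h i) * x * S.rho b (proj h j) := by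
    intro x hx i j
    rw [hB] at hx
    induction hx using Submodule.span_induction with
    | mem x hx =>
      obtain ⟨d, y, hy, rfl⟩ := hx
      by_cases hd : 2 * d = (i : ℤ) - j
      · refine ⟨q i * y * q j, hR.ring.cast (hR.ring.mul (hR.ring.mul (hq i) hy) (hq j))
          (by omega), ?_⟩
        rw [Lat.rho_mul hb ((hR.pres (hq i)).mul (hR.pres hy)) (hR.pres (hq j)),
          Lat.rho_mul hb (hR.pres (hq i)) (hR.pres hy), hρq, hρq]
      · refine ⟨0, hR.ring.zero _, ?_⟩
        rw [← Lat.rho_mul hb (hP i) (hR.pres hy),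
          ← Lat.rho_mul hb ((hP i).mul (hR.pres hy)) (hP j), hzero hy i j hd]
    | zero => exact ⟨0, hR.ring.zero _, by rw [Lat.rho_zero hb, mul_zero, zero_mul]⟩
    | add x x' _ _ hx hx' =>
      obtain ⟨y, hy, hyx⟩ := hx
      obtain ⟨y', hy', hyx'⟩ := hx'
      exact ⟨y + y', hR.ring.add hy hy', by
        rw [Lat.rho_add hb (hR.pres hy) (hR.pres hy'), hyx, hyx', mul_add, add_mul]⟩
    | smul c x _ hx =>
      obtain ⟨y, hy, hyx⟩ := hx
      obtain ⟨n, rfl⟩ := hint c
      exact ⟨n • y, hR.ring.zsmul hy n, by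
        rw [hrho (hR.pres hy), hyx, mul_smul_comm, smul_mul_assoc]⟩
  -- semisimplicity of the algebra
  have hsumρ : ∀ s : Finset ℕ, S.rho b (∑ i ∈ s, proj h i) = ∑ i ∈ s, S.rho b (proj h i) := by
    intro s
    induction s using Finset.induction_on with
    | empty => rw [Finset.sum_empty, Finset.sum_empty, Lat.rho_zero hb]
    | insert a s ha ih =>
      rw [Finset.sum_insert ha, Finset.sum_insert ha,
        Lat.rho_add hb (hP a) (Lat.Preserves.sum' s fun i _ => hP i), ih]
  have hone : ∑ i ∈ range N, S.rho b (proj h i) = 1 := by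
    rw [← hsumρ, sum_proj h hN, Lat.rho_one hb]
  have hBss : IsSemisimpleRing B := by
    apply isSemisimpleRing_of_nil (κ := IsLocalRing.ResidueField S.O)
    intro x hx
    have h0 : ∀ i j : ℕ, S.rho b (proj h i) * x.1 * S.rho b (proj h j) = 0 := by
      intro i j
      obtain ⟨y, hy, hyx⟩ := hpiece x.1 x.2 i j
      rw [← hyx, Lat.rho_eq_zero_iff hb (hR.pres hy)]
      apply hND _ y hy
      intro z hz
      rw [← Lat.trace_rho_eq_zero_iff hb (hR.presPi.mul ((hR.pres hy).mul (hR.pres hz))),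
        Lat.rho_mul hb hR.presPi ((hR.pres hy).mul (hR.pres hz)),
        Lat.rho_mul hb (hR.pres hy) (hR.pres hz)]
      have hnil : IsNilpotent (S.rho b y * S.rho b z) := by
        obtain ⟨r, hr⟩ := hx (⟨_, hpB j⟩ * ⟨_, hmemB hz⟩) ⟨_, hpB i⟩
        refine ⟨r, ?_⟩
        have h1 := congrArg Subtype.val hr
        simp only [SubmonoidClass.coe_pow, Subalgebra.coe_mul, ZeroMemClass.coe_zero] at h1
        rw [hyx]
        rw [← mul_assoc] at h1
        exact h1
      have hcomm : Commute (S.rho b (par h)) (S.rho b y * S.rho b z) := by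
        rw [← Lat.rho_mul hb (hR.pres hy) (hR.pres hz)]
        have h1 : par h * (y * z) = (y * z) * par h := hR.comm (hR.ring.mul hy hz)
        change S.rho b (par h) * S.rho b (y * z) = S.rho b (y * z) * S.rho b (par h)
        rw [← Lat.rho_mul hb hR.presPi ((hR.pres hy).mul (hR.pres hz)), h1,
          Lat.rho_mul hb ((hR.pres hy).mul (hR.pres hz)) hR.presPi]
      exact (Matrix.isNilpotent_trace_of_isNilpotent (hcomm.isNilpotent_mul_left hnil)).eq_zero
    apply Subtype.ext
    calc x.1 = (∑ i ∈ range N, S.rho b (proj h i)) * x.1 *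
        (∑ j ∈ range N, S.rho b (proj h j)) := by rw [hone, one_mul, mul_one]
      _ = 0 := by
        rw [Finset.sum_mul, Finset.sum_mul]
        apply Finset.sum_eq_zero
        intro i _
        rw [Finset.mul_sum]
        exact Finset.sum_eq_zero fun j _ => h0 i j
  -- the module
  let e : Matrix (Fin m) (Fin m) (IsLocalRing.ResidueField S.O) ≃ₐ[IsLocalRing.ResidueField S.O]
      Module.End (IsLocalRing.ResidueField S.O) (Fin m → IsLocalRing.ResidueField S.O) :=
    Matrix.toLinAlgEquiv'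
  let B' : Subalgebra (IsLocalRing.ResidueField S.O)
      (Module.End (IsLocalRing.ResidueField S.O) (Fin m → IsLocalRing.ResidueField S.O)) :=
    B.map e.toAlgHom
  have hB' : ∀ x ∈ B', ∃ y ∈ B, ∀ v, x v = y.mulVec v := by
    rintro _ ⟨y, hy, rfl⟩
    exact ⟨y, hy, fun v => Matrix.toLin'_apply y v⟩
  have : IsSemisimpleRing B' :=
    (B.equivMapOfInjective e.toAlgHom e.injective).toRingEquiv.isSemisimpleRing
  intro U hU
  -- coordinates
  let comb : (Fin m → S.O) → V := fun c => ∑ i, (c i : K) • b i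
  let res : (Fin m → S.O) → (Fin m → IsLocalRing.ResidueField S.O) :=
    fun c i => IsLocalRing.residue S.O (c i)
  have hcadd : ∀ c c', comb (c + c') = comb c + comb c' := by
    intro c c'
    simp only [comb, Pi.add_apply]
    rw [← Finset.sum_add_distrib]
    refine Finset.sum_congr rfl fun i _ => ?_
    push_cast
    rw [add_smul]
  have hcsmul : ∀ (a : S.O) c, comb (a • c) = a • comb c := by
    intro a c
    simp only [comb, Pi.smul_apply]
    rw [Finset.smul_sum]
    refine Finset.sum_congr rfl fun i _ => ?_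
    rw [smul_eq_mul]
    push_cast
    rw [mul_smul]
    rfl
  have hcsub : ∀ c c', comb (c - c') = comb c - comb c' := by
    intro c c'
    have h1 := hcadd (c - c') c'
    rw [sub_add_cancel] at h1
    rw [h1, add_sub_cancel_right]
  have hradd : ∀ c c', res (c + c') = res c + res c' := by
    intro c c'; funext i; simp [res]
  have hrsub : ∀ c c', res (c - c') = res c - res c' := by
    intro c c'; funext i; simp [res]
  have hrsmul : ∀ (a : S.O) c, res (a • c) = IsLocalRing.residue S.O a • res c := by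
    intro a c; funext i; simp [res]
  have hmax : ∀ c, S.MemMax (comb c) ↔ res c = 0 := by
    intro c
    rw [Lat.memMax_iff hb c, funext_iff]
    exact forall_congr' fun i => (IsLocalRing.residue_eq_zero_iff _).symm
  have hmat : ∀ {F : Module.End K V}, S.Preserves F → ∀ c,
      ∃ c', F (comb c) = comb c' ∧ res c' = (S.rho b F).mulVec (res c) := by
    intro F hF c
    obtain ⟨A, hA, hA'⟩ := Lat.exists_matrix hb hF
    refine ⟨A.mulVec c, hA' c, ?_⟩
    rw [Lat.rho, Lat.mat_eq hA]
    funext i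
    simp only [res, Matrix.mulVec, dotProduct, Matrix.map_apply, map_sum, map_mul]
  -- the reduction of `U`
  have hUκ : ∀ (c : IsLocalRing.ResidueField S.O) v, (∃ a, comb a ∈ U ∧ res a = v) →
      ∃ a, comb a ∈ U ∧ res a = c • v := by
    rintro c _ ⟨a, ha, rfl⟩
    obtain ⟨e, rfl⟩ := IsLocalRing.residue_surjective c
    exact ⟨e • a, by rw [hcsmul]; exact Submodule.smul_mem _ _ ha, hrsmul e a⟩
  let Ub : Submodule (IsLocalRing.ResidueField S.O) (Fin m → IsLocalRing.ResidueField S.O) :=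
    { carrier := {v | ∃ a, comb a ∈ U ∧ res a = v}
      add_mem' := by
        rintro _ _ ⟨a, ha, rfl⟩ ⟨a', ha', rfl⟩
        exact ⟨a + a', by rw [hcadd]; exact Submodule.add_mem _ ha ha', hradd a a'⟩
      zero_mem' := ⟨0, by
        have : comb 0 = 0 := by simp [comb]
        rw [this]; exact Submodule.zero_mem _, by funext i; simp [res]⟩
      smul_mem' := fun c v hv => hUκ c v hv }
  have hUstab : ∀ x ∈ B', ∀ v ∈ Ub, x v ∈ Ub := by
    intro x' hx' v hv
    obtain ⟨x, hx, hxv⟩ := hB' x' hx'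
    rw [hxv]
    rw [hB] at hx
    clear hxv
    revert v
    induction hx using Submodule.span_induction with
    | mem x hx =>
      obtain ⟨d, y, hy, rfl⟩ := hx
      rintro _ ⟨a, ha, rfl⟩
      obtain ⟨c', h1, h2⟩ := hmat (hR.pres hy) a
      exact ⟨c', by rw [← h1]; exact hU.stable y ⟨d, hy⟩ _ ha, h2⟩
    | zero =>
      rintro v -
      rw [Matrix.zero_mulVec]
      exact Ub.zero_mem
    | add x x' _ _ ih ih' =>
      intro v hv
      rw [Matrix.add_mulVec]
      exact Ub.add_mem (ih v hv) (ih' v hv)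
    | smul c x _ ih =>
      intro v hv
      rw [Matrix.smul_mulVec]
      exact Ub.smul_mem c (ih v hv)
  obtain ⟨Wb, hWstab, hWb⟩ := exists_compl_of_semisimple B' Ub hUstab
  have hWκ : ∀ (c : IsLocalRing.ResidueField S.O), ∀ v ∈ Wb, c • v ∈ Wb :=
    fun c v hv => Wb.smul_mem c hv
  let U' : Submodule S.O V :=
    { carrier := {t | ∃ c, comb c = t ∧ res c ∈ Wb}
      add_mem' := by
        rintro _ _ ⟨a, rfl, ha⟩ ⟨a', rfl, ha'⟩
        exact ⟨a + a', hcadd a a', by rw [hradd]; exact Wb.add_mem ha ha'⟩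
      zero_mem' := ⟨0, by simp [comb], by
        have : res 0 = 0 := by funext i; simp [res]
        rw [this]; exact Wb.zero_mem⟩
      smul_mem' := by
        rintro e _ ⟨a, rfl, ha⟩
        exact ⟨e • a, hcsmul e a, by rw [hrsmul]; exact hWκ _ _ ha⟩ }
  have hU'le : U' ≤ S.T := by
    rintro _ ⟨c, rfl, -⟩
    exact Lat.sum_mem hb c
  have hU'stab : ∀ {F : Module.End K V}, S.Preserves F → S.rho b F ∈ B → ∀ t ∈ U', F t ∈ U' := by
    rintro F hF hFB _ ⟨c, rfl, hc⟩
    obtain ⟨c', h1, h2⟩ := hmat hF c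
    refine ⟨c', h1.symm, ?_⟩
    rw [h2]
    exact hWstab _ ⟨_, hFB, rfl⟩ _ hc
  refine ⟨U', ⟨?_, hU'le, ?_, ?_⟩, ?_, ?_⟩
  · intro t ht
    obtain ⟨c, rfl⟩ := (Lat.mem_iff_exists hb).1 (Lat.memMax_mem' ht)
    refine ⟨c, rfl, ?_⟩
    rw [(hmax c).1 ht]
    exact Wb.zero_mem
  · rintro F ⟨d, hF⟩
    exact hU'stab (hR.pres hF) (hmemB hF)
  · intro t ht
    have h1 : t = ∑ i ∈ range N, proj h i t := by
      have := congrArg (fun F => F t) (sum_proj h hN)
      simp only [LinearMap.sum_apply, Module.End.one_apply] at this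
      exact this.symm
    rw [h1]
    apply Submodule.sum_mem
    intro i _
    exact Submodule.subset_span ⟨hU'stab (hP i) (hpB i) t ht, i, proj_mem h i t⟩
  · rintro t htU ⟨c, rfl, hc⟩
    rw [hmax]
    have h1 : res c ∈ Ub := ⟨c, htU, rfl⟩
    have h2 : res c ∈ Ub ⊓ Wb := ⟨h1, hc⟩
    rw [hWb.inf_eq_bot] at h2
    exact (Submodule.mem_bot _).1 h2
  · intro t ht
    obtain ⟨c, rfl⟩ := (Lat.mem_iff_exists hb).1 ht
    have h1 : res c ∈ Ub ⊔ Wb := by rw [hWb.sup_eq_top]; trivial
    obtain ⟨_, ⟨a, ha, rfl⟩, w, hw, hsum⟩ := Submodule.mem_sup.1 h1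
    refine Submodule.mem_sup.2 ⟨comb a, ha, comb (c - a), ⟨c - a, rfl, ?_⟩, ?_⟩
    · rw [hrsub, ← hsum, add_sub_cancel_left]
      exact hw
    · rw [← hcadd, add_sub_cancel]

end

end Pool.Agent.H838
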