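import Pool.Agent.H838.SemiDefs

/-!
# Numerical and homological equivalence modulo a prime number: definitions
-/

open CategoryTheory AlgebraicGeometry

universe u v

namespace Pool.Agent.H838

open Pool.Agent.H914 Pool.Agent.H914.VarClass

namespace Lat

variable {K : Type*} [Field K] {V : Type*} [AddCommGroup V] [Module K V] {ℓ : ℕ}

/-- The operator maps the lattice `T` into `𝔪 T`. -/
def IsZeroMod (S : Lat K V ℓ) (F : Module.End K V) : Prop := ∀ t ∈ S.T, S.MemMax (F t)

/-- The operator `F` satisfies `[L, [L, F]] = - 2 L` modulo `𝔪`. -/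
def IsLowMod (S : Lat K V ℓ) (L F : Module.End K V) : Prop :=
  S.IsZeroMod (L * (L * F - F * L) - (L * F - F * L) * L + (2 : ℤ) • L)

end Lat

variable {k : Type u} [Field k] {𝒱 : VarClass k} {ops : CycleOps 𝒱}

/-- The integral cycle `z` of codimension `p` on `X × X` is numerically trivial modulo `ℓ`: its
intersection numbers with the integral cycles of the complementary codimension are divisible
by `ℓ`. -/
def NumZeroMod (ops : CycleOps 𝒱) (ℓ : ℕ) (X : 𝒱.Obj) (p : ℕ) (z : (X.prod X).Cycles) : Prop :=
  ∀ w, IsIntegral (X.prod X) w → (X.prod X).IsCyc ((X.prod X).dim - p) w →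
    ∃ m : ℤ, (X.prod X).V.degCycle (ops.mul z w) = ℓ * m

/-- Numerical and homological equivalence modulo the prime agree for the integral cycles of
codimension `p` on `X × X`: if such a cycle is numerically trivial modulo `ℓ`, then it acts as zero
on `T / 𝔪 T`. -/
def IntegralStructure.NumHomMod {W : WeilCohomology.{u, v} ops} {X : 𝒱.Obj} {ℓ : ℕ}
    (S : IntegralStructure W X ℓ) (p : ℕ) : Prop :=
  ∀ z, IsIntegral (X.prod X) z → (X.prod X).IsCyc p z → NumZeroMod ops ℓ X p z →
    S.lat.IsZeroMod (cycOp W X z)

end Pool.Agent.H838
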