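import Pool.Agent.H838.LatPoly
import Pool.Agent.H838.SmiDefs

/-!
# Reduction of operators modulo the maximal ideal
-/

namespace Pool.Agent.H838

open Pool.Agent.H914

namespace Lat

variable {K : Type*} [Field K] {V : Type*} [AddCommGroup V] [Module K V] {ℓ : ℕ}
  {S : Lat K V ℓ} {m : ℕ} {b : Module.Basis (Fin m) K V}

lemma memMax_mem' {t : V} (ht : S.MemMax t) : t ∈ S.T := Submodule.smul_le_right ht

lemma Preserves.add {F G : Module.End K V} (hF : S.Preserves F) (hG : S.Preserves G) :
    S.Preserves (F + G) := fun t ht => Submodule.add_mem _ (hF t ht) (hG t ht)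

lemma Preserves.neg {F : Module.End K V} (hF : S.Preserves F) :
    S.Preserves (-F) := fun t ht => Submodule.neg_mem _ (hF t ht)

lemma Preserves.sub {F G : Module.End K V} (hF : S.Preserves F) (hG : S.Preserves G) :
    S.Preserves (F - G) := fun t ht => Submodule.sub_mem _ (hF t ht) (hG t ht)

lemma Preserves.mul {F G : Module.End K V} (hF : S.Preserves F) (hG : S.Preserves G) :
    S.Preserves (F * G) := fun t ht => hF _ (hG t ht)

lemma Preserves.one : S.Preserves 1 := fun _ ht => ht

lemma Preserves.zero : S.Preserves 0 := fun _ _ => Submodule.zero_mem _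

lemma Preserves.smul {F : Module.End K V} (hF : S.Preserves F) (a : S.O) :
    S.Preserves ((a : K) • F) := fun t ht => Submodule.smul_mem S.T a (hF t ht)

lemma Preserves.pow {F : Module.End K V} (hF : S.Preserves F) (r : ℕ) :
    S.Preserves (F ^ r) := by
  induction r with
  | zero => exact Preserves.one
  | succ r ih => rw [pow_succ]; exact ih.mul hF

open Classical in
/-- The matrix of an operator with respect to a basis of the lattice (with zero instead of the
entries which are not in the valuation ring). -/
noncomputable def mat (S : Lat K V ℓ) (b : Module.Basis (Fin m) K V) (F : Module.End K V) :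
    Matrix (Fin m) (Fin m) S.O :=
  Matrix.of fun i j => if h : b.repr (F (b j)) i ∈ S.O then ⟨_, h⟩ else 0

/-- The reduction of the matrix of an operator modulo the maximal ideal. -/
noncomputable def rho (S : Lat K V ℓ) (b : Module.Basis (Fin m) K V) (F : Module.End K V) :
    Matrix (Fin m) (Fin m) (IsLocalRing.ResidueField S.O) :=
  (mat S b F).map (IsLocalRing.residue S.O)

lemma mat_eq {F : Module.End K V} {A : Matrix (Fin m) (Fin m) S.O}
    (h : LinearMap.toMatrix b b F = A.map (algebraMap S.O K)) : mat S b F = A := by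
  ext i j
  have h1 : b.repr (F (b j)) i = (A i j : K) := by
    have := congrFun (congrFun h i) j
    rw [LinearMap.toMatrix_apply] at this
    exact this
  have h2 : b.repr (F (b j)) i ∈ S.O := by rw [h1]; exact (A i j).2
  simp only [mat, Matrix.of_apply]
  rw [dif_pos h2]
  exact h1

section

variable (hb : Submodule.span S.O (Set.range b) = S.T)

include hb

lemma mat_map {F : Module.End K V} (hF : S.Preserves F) :
    LinearMap.toMatrix b b F = (mat S b F).map (algebraMap S.O K) := by
  obtain ⟨A, hA, -⟩ := exists_matrix hb hF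
  rw [mat_eq hA, hA]

lemma mat_add {F G : Module.End K V} (hF : S.Preserves F) (hG : S.Preserves G) :
    mat S b (F + G) = mat S b F + mat S b G := by
  apply mat_eq
  rw [map_add, mat_map hb hF, mat_map hb hG]
  ext i j
  simp

lemma mat_mul {F G : Module.End K V} (hF : S.Preserves F) (hG : S.Preserves G) :
    mat S b (F * G) = mat S b F * mat S b G := by
  apply mat_eq
  rw [LinearMap.toMatrix_mul, mat_map hb hF, mat_map hb hG, Matrix.map_mul]

lemma mat_smul {F : Module.End K V} (hF : S.Preserves F) (a : S.O) :
    mat S b ((a : K) • F) = a • mat S b F := by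
  apply mat_eq
  rw [map_smul, mat_map hb hF]
  ext i j
  simp only [Matrix.smul_apply, Matrix.map_apply, smul_eq_mul, map_mul]
  rfl

lemma rho_add {F G : Module.End K V} (hF : S.Preserves F) (hG : S.Preserves G) :
    rho S b (F + G) = rho S b F + rho S b G := by
  rw [rho, mat_add hb hF hG]
  ext i j
  simp [rho]

lemma rho_mul {F G : Module.End K V} (hF : S.Preserves F) (hG : S.Preserves G) :
    rho S b (F * G) = rho S b F * rho S b G := by
  rw [rho, mat_mul hb hF hG, Matrix.map_mul, rho, rho]

lemma rho_smul {F : Module.End K V} (hF : S.Preserves F) (a : S.O) :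
    rho S b ((a : K) • F) = IsLocalRing.residue S.O a • rho S b F := by
  rw [rho, mat_smul hb hF]
  ext i j
  simp [rho]

lemma rho_zero : rho S b (0 : Module.End K V) = 0 := by
  have h1 : mat S b (0 : Module.End K V) = 0 := by
    apply mat_eq
    ext i j
    simp
  rw [rho, h1]
  ext i j
  simp

lemma rho_neg {F : Module.End K V} (hF : S.Preserves F) : rho S b (-F) = - rho S b F := by
  rw [eq_neg_iff_add_eq_zero, ← rho_add hb hF.neg hF, neg_add_cancel, rho_zero hb]

lemma rho_sub {F G : Module.End K V} (hF : S.Preserves F) (hG : S.Preserves G) :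
    rho S b (F - G) = rho S b F - rho S b G := by
  rw [sub_eq_add_neg, rho_add hb hF hG.neg, rho_neg hb hG, sub_eq_add_neg]

lemma rho_one : rho S b (1 : Module.End K V) = 1 := by
  have h1 : mat S b (1 : Module.End K V) = 1 := by
    apply mat_eq
    rw [LinearMap.toMatrix_one]
    ext i j
    simp [Matrix.one_apply]
  rw [rho, h1]
  ext i j
  simp [Matrix.one_apply]

lemma rho_pow {F : Module.End K V} (hF : S.Preserves F) (r : ℕ) :
    rho S b (F ^ r) = rho S b F ^ r := by
  induction r with
  | zero => rw [pow_zero, pow_zero, rho_one hb]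
  | succ r ih => rw [pow_succ, pow_succ, rho_mul hb (hF.pow r) hF, ih]

lemma rho_eq_zero_iff {F : Module.End K V} (hF : S.Preserves F) :
    rho S b F = 0 ↔ S.IsZeroMod F := by
  obtain ⟨A, hA, hA'⟩ := exists_matrix hb hF
  have hmat := mat_eq hA
  constructor
  · intro h t ht
    obtain ⟨c, rfl⟩ := (mem_iff_exists hb).1 ht
    rw [hA', memMax_iff hb]
    intro i
    simp only [Matrix.mulVec, dotProduct]
    apply Ideal.sum_mem
    intro j _
    apply Ideal.mul_mem_right
    rw [← IsLocalRing.residue_eq_zero_iff]
    have := congrFun (congrFun h i) j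
    rw [rho, hmat] at this
    exact this
  · intro h
    ext i j
    rw [rho, hmat, Matrix.map_apply, Matrix.zero_apply, IsLocalRing.residue_eq_zero_iff]
    classical
    have h1 : ∑ l, (((Pi.single j 1 : Fin m → S.O) l : S.O) : K) • b l = b j := by
      rw [Finset.sum_eq_single j]
      · rw [Pi.single_eq_same]; simp
      · intro l _ hl
        rw [Pi.single_eq_of_ne hl]; simp
      · intro h'; exact absurd (Finset.mem_univ _) h'
    have h2 := h (b j) (by rw [← h1]; exact sum_mem hb _)
    rw [← h1, hA', memMax_iff hb] at h2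
    have h3 := h2 i
    rwa [Matrix.mulVec_single_one] at h3

lemma trace_eq {F : Module.End K V} (hF : S.Preserves F) :
    LinearMap.trace K V F = (((mat S b F).trace : S.O) : K) := by
  rw [LinearMap.trace_eq_matrix_trace K b, mat_map hb hF]
  simp only [Matrix.trace, Matrix.diag_apply, Matrix.map_apply]
  push_cast
  rfl

lemma trace_rho_eq_zero_iff {F : Module.End K V} (hF : S.Preserves F) :
    (rho S b F).trace = 0 ↔
      ∃ r ∈ IsLocalRing.maximalIdeal S.O, ((r : S.O) : K) = LinearMap.trace K V F := by
  have h1 : (rho S b F).trace = IsLocalRing.residue S.O (mat S b F).trace := by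
    simp [rho, Matrix.trace, Matrix.diag_apply, Matrix.map_apply]
  rw [h1, IsLocalRing.residue_eq_zero_iff]
  constructor
  · intro h
    exact ⟨_, h, (trace_eq hb hF).symm⟩
  · rintro ⟨r, hr, hr'⟩
    rw [trace_eq hb hF] at hr'
    rw [← Subtype.ext hr']
    exact hr

end

end Lat

/-- **Duality.** Let `β` be a bilinear form for which no nonzero element of `A` is orthogonal to
`B`, and let `W` be a subspace of `A`. An element `a` of `A` which is orthogonal to all elements of
`B` orthogonal to `W` lies in `W`. -/
theorem mem_of_orthogonal {F : Type*} [Field F] {M : Type*} [AddCommGroup M] [Module F M]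
    [Module.Finite F M] (β : M →ₗ[F] M →ₗ[F] F) {A B W : Submodule F M} (hWA : W ≤ A)
    (hβ : ∀ x ∈ A, (∀ y ∈ B, β x y = 0) → x = 0) {a : M} (ha : a ∈ A)
    (h : ∀ y ∈ B, (∀ w ∈ W, β w y = 0) → β a y = 0) : a ∈ W := by
  by_contra hne
  -- a functional
  obtain ⟨f, hfa, hfW⟩ := Submodule.exists_le_ker_of_notMem hne
  -- the form as a map from `A` to the dual of `B`
  let g : A →ₗ[F] Module.Dual F B := (β.domRestrict₁₂ A B)
  have hg : Function.Injective g := by
    rw [injective_iff_map_eq_zero]
    intro x hx
    apply Subtype.ext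
    apply hβ x.1 x.2
    intro y hy
    exact congrArg (fun φ : Module.Dual F B => φ ⟨y, hy⟩) hx
  have hsurj : Function.Surjective g.dualMap := LinearMap.dualMap_surjective_of_injective hg
  obtain ⟨Φ, hΦ⟩ := hsurj (f ∘ₗ A.subtype)
  obtain ⟨y, hy⟩ := (Module.evalEquiv F B).surjective Φ
  have key : ∀ x : A, f x = β x y := by
    intro x
    have h1 := congrArg (fun φ : Module.Dual F A => φ x) hΦ
    rw [← hy] at h1
    exact h1.symm
  apply hfa
  have h2 := key ⟨a, ha⟩
  change f a = β a y at h2
  rw [h2]
  apply h y y.2
  intro w hw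
  have h3 := key ⟨w, hWA hw⟩
  change f w = β w y at h3
  rw [← h3]
  exact hfW hw

end Pool.Agent.H838
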