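import Pool.Agent.H838.LatRho
import Pool.Agent.H838.NakMain

/-!
# Lowering operators modulo the maximal ideal
-/

namespace Pool.Agent.H838

open Pool.Agent.H914 Finset

namespace Lat

variable {K : Type*} [Field K] {V : Type*} [AddCommGroup V] [Module K V] {ℓ : ℕ}
  {S : Lat K V ℓ}

/-! ### Congruences -/

lemma MemMax.add {a b : V} (ha : S.MemMax a) (hb : S.MemMax b) : S.MemMax (a + b) :=
  Submodule.add_mem _ ha hb

lemma MemMax.sub {a b : V} (ha : S.MemMax a) (hb : S.MemMax b) : S.MemMax (a - b) :=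
  Submodule.sub_mem _ ha hb

lemma MemMax.neg {a : V} (ha : S.MemMax a) : S.MemMax (-a) := Submodule.neg_mem _ ha

lemma MemMax.zero : S.MemMax (0 : V) := Submodule.zero_mem _

lemma MemMax.zsmul {a : V} (ha : S.MemMax a) (m : ℤ) : S.MemMax (m • a) :=
  zsmul_mem (show a ∈ IsLocalRing.maximalIdeal S.O • S.T from ha) m

lemma zsmul_mem_T {a : V} (ha : a ∈ S.T) (m : ℤ) : m • a ∈ S.T := zsmul_mem ha m

/-- Integers which are not divisible by `ℓ` are units. -/
lemma int_isUnit (S : Lat K V ℓ) (hℓ : ℓ.Prime) {m : ℤ} (hm : ¬ (ℓ : ℤ) ∣ m) :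
    IsUnit (m : S.O) := by
  have h1 : ¬ ℓ ∣ m.natAbs := fun h => hm (Int.natCast_dvd.2 h)
  have h2 : m.natAbs.Coprime ℓ := ((hℓ.coprime_iff_not_dvd).2 h1).symm
  have h3 := S.nat_isUnit' h2
  obtain ⟨k, hk⟩ : ∃ k : ℕ, k = m.natAbs := ⟨_, rfl⟩
  rw [← hk] at h3
  rcases Int.natAbs_eq m with h | h
  · rw [h, ← hk, Int.cast_natCast]; exact h3
  · rw [h, ← hk, Int.cast_neg, Int.cast_natCast]; exact h3.neg

lemma memMax_of_zsmul (hℓ : ℓ.Prime) {m : ℤ} (hm : ¬ (ℓ : ℤ) ∣ m) {a : V}
    (h : S.MemMax (m • a)) : S.MemMax a := by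
  obtain ⟨w, hw⟩ := S.int_isUnit hℓ hm
  have h1 : a = ((w⁻¹ : S.Oˣ) : S.O) • (m • a) := by
    have h2 : m • a = (m : S.O) • a := by
      rw [Int.cast_smul_eq_zsmul]
    rw [h2, ← hw, smul_smul, Units.inv_mul, one_smul]
  rw [h1]
  exact Submodule.smul_mem _ _ h

lemma memMax_zsmul_dvd {m : ℤ} (hm : (ℓ : ℤ) ∣ m) {a : V} (ha : a ∈ S.T) :
    S.MemMax (m • a) := by
  obtain ⟨r, rfl⟩ := hm
  have h2 : ((ℓ : ℤ) * r) • a = (ℓ : S.O) • (r • a) := by
    rw [mul_smul, ← Int.cast_smul_eq_zsmul S.O (ℓ : ℤ)]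
    push_cast
    rfl
  rw [h2]
  exact Submodule.smul_mem_smul S.mem_max (zsmul_mem_T ha r)

lemma Preserves.zsmul {F : Module.End K V} (hF : S.Preserves F) (m : ℤ) :
    S.Preserves (m • F) := fun t ht => by
  rw [LinearMap.smul_apply]; exact zsmul_mem_T (hF t ht) m

lemma Preserves.max {F : Module.End K V} (hF : S.Preserves F) {t : V}
    (ht : S.MemMax t) : S.MemMax (F t) := by
  unfold Lat.MemMax at ht ⊢
  induction ht using Submodule.smul_induction_on' with
  | smul r hr n hn =>
    have : F (r • n) = r • F n := F.map_smul (r : K) n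
    rw [this]
    exact Submodule.smul_mem_smul hr (hF n hn)
  | add x _ y _ hx hy => rw [map_add]; exact Submodule.add_mem _ hx hy

lemma IsZeroMod.mul_right {F G : Module.End K V} (hF : S.IsZeroMod F) (hG : S.Preserves G) :
    S.IsZeroMod (F * G) := fun t ht => hF _ (hG t ht)

lemma IsZeroMod.mul_left {F G : Module.End K V} (hG : S.IsZeroMod G) (hF : S.Preserves F) :
    S.IsZeroMod (F * G) := fun t ht => hF.max (hG t ht)

lemma IsZeroMod.add {F G : Module.End K V} (hF : S.IsZeroMod F) (hG : S.IsZeroMod G) :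
    S.IsZeroMod (F + G) := fun t ht => (hF t ht).add (hG t ht)

lemma IsZeroMod.sub {F G : Module.End K V} (hF : S.IsZeroMod F) (hG : S.IsZeroMod G) :
    S.IsZeroMod (F - G) := fun t ht => (hF t ht).sub (hG t ht)

lemma IsZeroMod.neg {F : Module.End K V} (hF : S.IsZeroMod F) :
    S.IsZeroMod (-F) := fun t ht => (hF t ht).neg

lemma IsZeroMod.zsmul {F : Module.End K V} (hF : S.IsZeroMod F) (m : ℤ) :
    S.IsZeroMod (m • F) := fun t ht => (hF t ht).zsmul m

lemma IsZeroMod.zero : S.IsZeroMod 0 := fun _ _ => MemMax.zero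

/-! ### The Lefschetz property modulo the maximal ideal -/

/-- The operator `L` of degree `2` has the Lefschetz property on the lattice. -/
structure LefMod (S : Lat K V ℓ) (gr : ℕ → Submodule K V) (n : ℕ) (L : Module.End K V) :
    Prop where
  pres : S.Preserves L
  deg : ∀ i, ∀ a ∈ gr i, L a ∈ gr (i + 2)
  surj : ∀ c ≤ n, S.OntoLat (gr (n - c)) (gr (n + c)) (L ^ c)
  inj : ∀ c ≤ n, ∀ s ∈ S.T, s ∈ gr (n - c) → S.MemMax ((L ^ c) s) → S.MemMax s
  bot : ∀ i, 2 * n + 1 ≤ i → gr i = ⊥

/-- Primitive elements. -/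
structure IsPrim (S : Lat K V ℓ) (gr : ℕ → Submodule K V) (n : ℕ) (L : Module.End K V) (c : ℕ)
    (p : V) : Prop where
  mem : p ∈ S.T
  prim : (L ^ (c + 1)) p = 0
  deg : c ≤ n → p ∈ gr (n - c)
  zero : n < c → p = 0

variable {gr : ℕ → Submodule K V} {n : ℕ} {L e : Module.End K V}

namespace LefMod

lemma pow_deg (H : S.LefMod gr n L) (c : ℕ) {i : ℕ} {a : V} (ha : a ∈ gr i) :
    (L ^ c) a ∈ gr (i + 2 * c) := by
  induction c with
  | zero => simpa using ha
  | succ c ih =>
    rw [pow_succ', Module.End.mul_apply, show i + 2 * (c + 1) = i + 2 * c + 2 by ring]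
    exact H.deg _ _ ih

lemma pow_mem (H : S.LefMod gr n L) (c : ℕ) {a : V} (ha : a ∈ S.T) : (L ^ c) a ∈ S.T :=
  (H.pres.pow c) a ha

lemma pow_max (H : S.LefMod gr n L) (c : ℕ) {a : V} (ha : S.MemMax a) : S.MemMax ((L ^ c) a) :=
  (H.pres.pow c).max ha

/-- The primitive decomposition over the valuation ring. -/
lemma prim_decomp (H : S.LefMod gr n L) : ∀ r c : ℕ, c + r = n → ∀ y ∈ S.T, y ∈ gr (n - c) →
    ∃ (N : ℕ) (p : ℕ → V), (∀ j, S.IsPrim gr n L (c + 2 * j) (p j)) ∧
      y = ∑ j ∈ range N, (L ^ j) (p j) := by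
  intro r
  induction r using Nat.strong_induction_on with
  | _ r ih =>
    intro c hc y hy hygr
    have h1 : (L ^ (c + 1)) y ∈ gr (n + (c + 2)) := by
      have := H.pow_deg (c + 1) hygr
      rwa [show n - c + 2 * (c + 1) = n + (c + 2) by omega] at this
    by_cases hr : c + 2 ≤ n
    · obtain ⟨y', hy', hy'gr, hyy'⟩ := H.surj (c + 2) hr _ (H.pow_mem (c + 1) hy) h1
      obtain ⟨N, p, hp, hsum⟩ := ih (r - 2) (by omega) (c + 2) (by omega) y' hy' hy'gr
      refine ⟨N + 1, fun j => Nat.casesOn j (y - L y') p, ?_, ?_⟩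
      · intro j
        cases j with
        | zero =>
          refine ⟨Submodule.sub_mem _ hy (H.pres _ hy'), ?_, ?_, ?_⟩
          · change (L ^ (c + 2 * 0 + 1)) (y - L y') = 0
            rw [mul_zero, add_zero, map_sub, ← hyy', sub_eq_zero, ← Module.End.mul_apply,
              ← pow_succ]
          · intro _
            change y - L y' ∈ gr (n - (c + 2 * 0))
            rw [mul_zero, add_zero]
            refine Submodule.sub_mem _ hygr ?_
            have := H.deg _ _ hy'gr
            rwa [show n - (c + 2) + 2 = n - c by omega] at this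
          · intro h; omega
        | succ j =>
          have := hp j
          rwa [show c + 2 + 2 * j = c + 2 * (j + 1) by ring] at this
      · rw [Finset.sum_range_succ']
        have e1 : ∀ j, (L ^ (j + 1)) (p j) = L ((L ^ j) (p j)) := by
          intro j; rw [pow_succ', Module.End.mul_apply]
        change y = ∑ j ∈ range N, (L ^ (j + 1)) (p j) + (L ^ 0) (y - L y')
        simp only [e1]
        rw [← map_sum, ← hsum, pow_zero, Module.End.one_apply]
        abel
    · refine ⟨1, fun j => Nat.casesOn j y (fun _ => 0), ?_, ?_⟩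
      · intro j
        cases j with
        | zero =>
          refine ⟨hy, ?_, ?_, ?_⟩
          · change (L ^ (c + 2 * 0 + 1)) y = 0
            rw [mul_zero, add_zero]
            rw [H.bot _ (by omega)] at h1
            exact (Submodule.mem_bot _).1 h1
          · intro _
            change y ∈ gr (n - (c + 2 * 0))
            rwa [mul_zero, add_zero]
          · intro h; omega
        | succ j =>
          exact ⟨Submodule.zero_mem _, map_zero _, fun _ => Submodule.zero_mem _, fun _ => rfl⟩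
      · rw [Finset.sum_range_one]
        rfl

/-- The primitive components are independent modulo the maximal ideal. -/
lemma indep (H : S.LefMod gr n L) (c : ℕ) (p : ℕ → V)
    (hp : ∀ j, S.IsPrim gr n L (c + 2 * j) (p j)) : ∀ N : ℕ,
    S.MemMax (∑ j ∈ range N, (L ^ j) (p j)) → ∀ j < N, S.MemMax (p j) := by
  intro N
  induction N with
  | zero => intro _ j hj; omega
  | succ N ih =>
    intro h
    have h1 : S.MemMax (p N) := by
      have h2 := H.pow_max (c + N) h
      rw [map_sum, Finset.sum_range_succ] at h2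
      have h3 : ∑ j ∈ range N, (L ^ (c + N)) ((L ^ j) (p j)) = 0 := by
        apply Finset.sum_eq_zero
        intro j hj
        rw [Finset.mem_range] at hj
        rw [← Module.End.mul_apply, ← pow_add,
          show c + N + j = (N - 1 - j) + (c + 2 * j + 1) by omega, pow_add, Module.End.mul_apply,
          (hp j).prim, map_zero]
      rw [h3, zero_add, ← Module.End.mul_apply, ← pow_add,
        show c + N + N = c + 2 * N by ring] at h2
      by_cases hN : c + 2 * N ≤ n
      · exact H.inj _ hN _ (hp N).mem ((hp N).deg hN) h2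
      · rw [(hp N).zero (by omega)]; exact MemMax.zero
    have h2 : S.MemMax (∑ j ∈ range N, (L ^ j) (p j)) := by
      have h3 := h.sub (H.pow_max N h1)
      rwa [Finset.sum_range_succ, add_sub_cancel_right] at h3
    intro j hj
    rcases Nat.lt_succ_iff_lt_or_eq.1 hj with hj' | rfl
    · exact ih h2 j hj'
    · exact h1

end LefMod

/-- The operator `e` of degree `-2` satisfies modulo the maximal ideal
`[L, [L, e]] = - 2 s L`. -/
structure LowMod (S : Lat K V ℓ) (gr : ℕ → Submodule K V) (L e : Module.End K V) (s : ℤ) :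
    Prop where
  pres : S.Preserves e
  deg : ∀ i, ∀ a ∈ gr (i + 2), e a ∈ gr i
  deg0 : ∀ i < 2, ∀ a ∈ gr i, e a = 0
  comm : S.IsZeroMod (L * (L * e - e * L) - (L * e - e * L) * L + (2 * s) • L)

section Ring

variable {s : ℤ}

lemma LowMod.pow_L (H : S.LefMod gr n L) (he : S.LowMod gr L e s) (k : ℕ) :
    S.IsZeroMod (e * L ^ (k + 1) - L ^ (k + 1) * e + ((k : ℤ) + 1) • (L ^ k * (L * e - e * L)) +
      (s * (k + 1) * k) • L ^ k) := by
  induction k with
  | zero =>
    have : (e * L ^ (0 + 1) - L ^ (0 + 1) * e + (((0 : ℕ) : ℤ) + 1) • (L ^ 0 * (L * e - e * L)) +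
      (s * ((0 : ℕ) + 1) * (0 : ℕ)) • L ^ 0) = 0 := by
      simp
    rw [this]
    exact IsZeroMod.zero
  | succ k ih =>
    have h1 := ih.mul_right H.pres
    have h2 := (he.comm.mul_left (H.pres.pow k)).zsmul ((k : ℤ) + 1)
    have h3 := h1.add h2
    have e1 : e * L ^ (k + 1 + 1) - L ^ (k + 1 + 1) * e +
        (((k + 1 : ℕ) : ℤ) + 1) • (L ^ (k + 1) * (L * e - e * L)) +
        (s * ((k + 1 : ℕ) + 1) * (k + 1 : ℕ)) • L ^ (k + 1) =
        (e * L ^ (k + 1) - L ^ (k + 1) * e + ((k : ℤ) + 1) • (L ^ k * (L * e - e * L)) +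
          (s * (k + 1) * k) • L ^ k) * L +
        ((k : ℤ) + 1) • (L ^ k * (L * (L * e - e * L) - (L * e - e * L) * L + (2 * s) • L)) := by
      have hc : L ^ k * L = L ^ (k + 1) := (pow_succ L k).symm
      simp only [pow_succ, mul_add, add_mul, mul_sub, sub_mul, mul_assoc, smul_mul_assoc,
        mul_smul_comm, smul_sub, smul_add, smul_smul]
      push_cast
      module
    rw [e1]
    exact h3

/-- The action of `e` on the powers of `L` on a primitive element. -/
lemma LowMod.prim (hℓ : ℓ.Prime) (hn : n + 1 < ℓ) (H : S.LefMod gr n L)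
    (he : S.LowMod gr L e s) {c : ℕ} {p : V} (hp : S.IsPrim gr n L c p) :
    S.MemMax (e p) ∧ ∀ k : ℕ, S.MemMax (e ((L ^ (k + 1)) p) -
      (s * (k + 1) * ((c : ℤ) - k)) • (L ^ k) p) := by
  by_cases hc : n < c
  · rw [hp.zero hc]
    refine ⟨by rw [map_zero]; exact MemMax.zero, fun k => ?_⟩
    rw [map_zero, map_zero, map_zero, smul_zero, sub_zero]
    exact MemMax.zero
  · rw [not_lt] at hc
    have hpgr := hp.deg hc
    obtain ⟨x, hx⟩ : ∃ x : Module.End K V, x = L * e - e * L := ⟨_, rfl⟩
    have hxT : S.Preserves x := by rw [hx]; exact (H.pres.mul he.pres).sub (he.pres.mul H.pres)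
    -- the congruences applied to `p`
    have hk : ∀ k : ℕ, S.MemMax (e ((L ^ (k + 1)) p) - (L ^ (k + 1)) (e p) +
        ((k : ℤ) + 1) • (L ^ k) (x p) + (s * (k + 1) * k) • (L ^ k) p) := by
      intro k
      have := LowMod.pow_L H he k p hp.mem
      rw [← hx] at this
      exact this
    have hep : e p ∈ S.T := he.pres _ hp.mem
    -- `e p` has degree `n - c - 2`
    have hpc : ∀ m, (L ^ (c + 1 + m)) p = 0 := by
      intro m
      rw [add_comm, pow_add, Module.End.mul_apply, hp.prim, map_zero]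
    have h1 := hk (c + 1)
    rw [hpc 1, map_zero, show (L ^ (c + 1)) p = 0 from hp.prim, smul_zero, add_zero, zero_sub] at h1
    have h2 := hk c
    rw [hp.prim, map_zero, zero_sub] at h2
    have hLp : ∀ (k : ℕ) (y : V), L ((L ^ k) y) = (L ^ (k + 1)) y := fun k y => by
      rw [pow_succ', Module.End.mul_apply]
    have h3 := H.pres.max h2
    rw [map_add, map_add, map_neg, map_zsmul, map_zsmul, hLp, hLp, hLp,
      hp.prim, smul_zero, add_zero] at h3
    have h4 : S.MemMax ((L ^ (c + 1)) (x p)) := by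
      have h5 := h1.sub h3
      have h6 : -(L ^ (c + 1 + 1)) (e p) + (((c + 1 : ℕ) : ℤ) + 1) • (L ^ (c + 1)) (x p) -
          (-(L ^ (c + 1 + 1)) (e p) + ((c : ℤ) + 1) • (L ^ (c + 1)) (x p)) =
          (L ^ (c + 1)) (x p) := by
        push_cast
        module
      rwa [h6] at h5
    have h5 : S.MemMax ((L ^ (c + 2)) (e p)) := by
      have h6 := (h4.zsmul ((c : ℤ) + 1)).sub h3
      have h7 : ((c : ℤ) + 1) • (L ^ (c + 1)) (x p) - (-(L ^ (c + 1 + 1)) (e p) +
          ((c : ℤ) + 1) • (L ^ (c + 1)) (x p)) = (L ^ (c + 2)) (e p) := by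
        rw [show c + 1 + 1 = c + 2 from rfl]
        module
      rwa [h7] at h6
    have h6 : S.MemMax (e p) := by
      by_cases hc2 : c + 2 ≤ n
      · apply H.inj _ hc2 _ hep _ h5
        apply he.deg
        rwa [show n - (c + 2) + 2 = n - c by omega]
      · rw [he.deg0 (n - c) (by omega) p hpgr]
        exact MemMax.zero
    -- `x p = - s c p`
    have hxp : S.MemMax (x p + (s * c) • p) := by
      apply H.inj c hc
      · exact Submodule.add_mem _ (hxT _ hp.mem) (zsmul_mem_T hp.mem _)
      · refine Submodule.add_mem _ ?_ (zsmul_mem hpgr _)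
        rw [hx, LinearMap.sub_apply, Module.End.mul_apply, Module.End.mul_apply]
        refine Submodule.sub_mem _ ?_ ?_
        · by_cases hc2 : c + 2 ≤ n
          · have := H.deg _ _ (he.deg (n - (c + 2)) p (by
              rwa [show n - (c + 2) + 2 = n - c by omega]))
            rwa [show n - (c + 2) + 2 = n - c by omega] at this
          · rw [he.deg0 (n - c) (by omega) p hpgr, map_zero]
            exact Submodule.zero_mem _
        · exact he.deg _ _ (H.deg _ _ hpgr)
      · have hu : ¬ (ℓ : ℤ) ∣ ((c : ℤ) + 1) := by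
          intro h
          have h7 : ℓ ∣ c + 1 := by exact_mod_cast h
          have := Nat.le_of_dvd (Nat.succ_pos c) h7
          omega
        apply memMax_of_zsmul hℓ hu
        have h7 := h2.add (H.pow_max (c + 1) h6)
        have h8 : -(L ^ (c + 1)) (e p) + ((c : ℤ) + 1) • (L ^ c) (x p) +
            (s * (c + 1) * c) • (L ^ c) p + (L ^ (c + 1)) (e p) =
            ((c : ℤ) + 1) • (L ^ c) (x p + (s * c) • p) := by
          rw [map_add, map_zsmul]
          module
        rwa [h8] at h7
    refine ⟨h6, fun k => ?_⟩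
    have h7 := ((hk k).add (H.pow_max (k + 1) h6)).sub ((H.pow_max k hxp).zsmul ((k : ℤ) + 1))
    have h8 : e ((L ^ (k + 1)) p) - (L ^ (k + 1)) (e p) +
        ((k : ℤ) + 1) • (L ^ k) (x p) + (s * (k + 1) * k) • (L ^ k) p + (L ^ (k + 1)) (e p) -
        ((k : ℤ) + 1) • (L ^ k) (x p + (s * c) • p) = e ((L ^ (k + 1)) p) -
        (s * (k + 1) * ((c : ℤ) - k)) • (L ^ k) p := by
      rw [map_add, map_zsmul]
      module
    rwa [h8] at h7

/-- If `s = 0`, then `e` is zero modulo the maximal ideal. -/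
theorem LowMod.eq_zero (hℓ : ℓ.Prime) (hn : n + 1 < ℓ) (H : S.LefMod gr n L)
    (hS : S.IsGraded gr) (he : S.LowMod gr L e 0) : S.IsZeroMod e := by
  -- on the powers of `L` on primitive elements
  have h1 : ∀ {c : ℕ} {p : V}, S.IsPrim gr n L c p → ∀ k, S.MemMax (e ((L ^ k) p)) := by
    intro c p hp k
    have h2 := he.prim hℓ hn H hp
    cases k with
    | zero => simpa using h2.1
    | succ k =>
      have h3 := h2.2 k
      simpa using h3
  -- in degrees at most `n`
  have h2 : ∀ c ≤ n, ∀ m, ∀ y ∈ S.T, y ∈ gr (n - c) → S.MemMax (e ((L ^ m) y)) := by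
    intro c hc m y hy hygr
    obtain ⟨N, p, hp, rfl⟩ := H.prim_decomp (n - c) c (by omega) y hy hygr
    rw [map_sum, map_sum]
    unfold MemMax
    apply Submodule.sum_mem
    intro j _
    rw [← Module.End.mul_apply (L ^ m) (L ^ j), ← pow_add]
    exact h1 (hp j) _
  intro t ht
  have h3 := hS t ht
  induction h3 using Submodule.span_induction with
  | mem y hy =>
    obtain ⟨hyT, i, hi⟩ := hy
    rcases le_or_gt i n with hin | hin
    · have := h2 (n - i) (by omega) 0 y hyT (by rwa [show n - (n - i) = i by omega])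
      simpa using this
    · by_cases hi2 : i ≤ 2 * n
      · have h4 : y ∈ gr (n + (i - n)) := by rwa [show n + (i - n) = i by omega]
        obtain ⟨y', hy', hy'gr, rfl⟩ := H.surj (i - n) (by omega) y hyT h4
        exact h2 (i - n) (by omega) _ y' hy' hy'gr
      · rw [H.bot i (by omega)] at hi
        rw [(Submodule.mem_bot _).1 hi, map_zero]
        exact MemMax.zero
  | zero => rw [map_zero]; exact MemMax.zero
  | add x y hx hy ihx ihy =>
    have hxT : x ∈ S.T := by
      have : Submodule.span S.O {s | s ∈ S.T ∧ ∃ i, s ∈ gr i} ≤ S.T :=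
        Submodule.span_le.2 fun _ h => h.1
      exact this hx
    have hyT : y ∈ S.T := by
      have : Submodule.span S.O {s | s ∈ S.T ∧ ∃ i, s ∈ gr i} ≤ S.T :=
        Submodule.span_le.2 fun _ h => h.1
      exact this hy
    rw [map_add]
    exact (ihx hxT).add (ihy hyT)
  | smul a x hx ih =>
    have hxT : x ∈ S.T := by
      have : Submodule.span S.O {s | s ∈ S.T ∧ ∃ i, s ∈ gr i} ≤ S.T :=
        Submodule.span_le.2 fun _ h => h.1
      exact this hx
    have : e (a • x) = a • e x := e.map_smul (a : K) x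
    rw [this]
    exact Submodule.smul_mem _ _ (ih hxT)

/-- If `s` is prime to `ℓ`, then the powers of `e` are injective modulo the maximal ideal. -/
theorem LowMod.injMod (hℓ : ℓ.Prime) (hn : n + 1 < ℓ) (H : S.LefMod gr n L)
    (he : S.LowMod gr L e s) (hs : ¬ (ℓ : ℤ) ∣ s) {c : ℕ} (hc : c ≤ n) :
    S.InjMod (gr (n + c)) (e ^ c) := by
  intro t ht htgr h0
  obtain ⟨y, hy, hygr, rfl⟩ := H.surj c hc t ht htgr
  obtain ⟨N, p, hp, rfl⟩ := H.prim_decomp (n - c) c (by omega) y hy hygr
  -- the powers of `e`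
  have hpow : ∀ j, ∀ k, k ≤ c → ∃ a : ℤ, ¬ (ℓ : ℤ) ∣ a ∧
      S.MemMax ((e ^ k) ((L ^ (c + j)) (p j)) - a • (L ^ (c + j - k)) (p j)) := by
    intro j k
    induction k with
    | zero =>
      intro _
      refine ⟨1, ?_, ?_⟩
      · intro h
        have := Int.le_of_dvd one_pos h
        have := hℓ.two_le
        omega
      · rw [pow_zero, Module.End.one_apply, one_smul, Nat.sub_zero, sub_self]
        exact MemMax.zero
    | succ k ih =>
      intro hk
      obtain ⟨a, ha, hak⟩ := ih (by omega)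
      by_cases hjn : c + 2 * j ≤ n
      · have h1 := (he.prim hℓ hn H (hp j)).2 (c + j - k - 1)
        rw [show c + j - k - 1 + 1 = c + j - k by omega] at h1
        obtain ⟨b, hb⟩ : ∃ b : ℤ, b = s * (((c + j - k - 1 : ℕ) : ℤ) + 1) *
          (((c + 2 * j : ℕ) : ℤ) - ((c + j - k - 1 : ℕ) : ℤ)) := ⟨_, rfl⟩
        rw [← hb] at h1
        have hb' : b = s * ((c + j - k : ℕ) : ℤ) * ((j + k + 1 : ℕ) : ℤ) := by
          rw [hb]
          have e1 : ((c + j - k - 1 : ℕ) : ℤ) = (c : ℤ) + j - k - 1 := by omega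
          have e2 : ((c + j - k : ℕ) : ℤ) = (c : ℤ) + j - k := by omega
          rw [e1, e2]
          push_cast
          ring
        have hprime : Prime (ℓ : ℤ) := Nat.prime_iff_prime_int.1 hℓ
        have hbn : ¬ (ℓ : ℤ) ∣ b := by
          rw [hb']
          intro h
          rcases hprime.dvd_or_dvd h with h | h
          · rcases hprime.dvd_or_dvd h with h | h
            · exact hs h
            · have h' : ℓ ∣ c + j - k := by exact_mod_cast h
              have := Nat.le_of_dvd (by omega) h'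
              omega
          · have h' : ℓ ∣ j + k + 1 := by exact_mod_cast h
            have := Nat.le_of_dvd (by omega) h'
            omega
        refine ⟨a * b, ?_, ?_⟩
        · intro h
          rcases hprime.dvd_or_dvd h with h | h
          · exact ha h
          · exact hbn h
        · have h2 := (he.pres.max hak).add (h1.zsmul a)
          rw [map_sub, map_zsmul, ← Module.End.mul_apply, ← pow_succ', smul_sub, smul_smul] at h2
          rw [show c + j - (k + 1) = c + j - k - 1 by omega]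
          have h3 : (e ^ (k + 1)) ((L ^ (c + j)) (p j)) - a • e ((L ^ (c + j - k)) (p j)) +
              (a • e ((L ^ (c + j - k)) (p j)) - (a * b) • (L ^ (c + j - k - 1)) (p j)) =
              (e ^ (k + 1)) ((L ^ (c + j)) (p j)) - (a * b) • (L ^ (c + j - k - 1)) (p j) := by
            abel
          rwa [h3] at h2
      · refine ⟨1, ?_, ?_⟩
        · intro h
          have := Int.le_of_dvd one_pos h
          have := hℓ.two_le
          omega
        · rw [(hp j).zero (by omega)]
          simp only [map_zero, smul_zero, sub_zero]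
          exact MemMax.zero
  choose a ha hak using fun j => hpow j c le_rfl
  have h1 : S.MemMax (∑ j ∈ range N, (L ^ j) (a j • p j)) := by
    have h2 : ∑ j ∈ range N, (L ^ j) (a j • p j) =
        (e ^ c) ((L ^ c) (∑ j ∈ range N, (L ^ j) (p j))) -
        ∑ j ∈ range N, ((e ^ c) ((L ^ (c + j)) (p j)) - a j • (L ^ (c + j - c)) (p j)) := by
      rw [map_sum, map_sum, Finset.sum_sub_distrib]
      have e1 : ∀ j, (L ^ c) ((L ^ j) (p j)) = (L ^ (c + j)) (p j) := by
        intro j; rw [pow_add, Module.End.mul_apply]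
      simp only [e1, map_zsmul, Nat.add_sub_cancel_left]
      abel
    rw [h2]
    refine h0.sub ?_
    unfold MemMax
    exact Submodule.sum_mem _ fun j _ => hak j
  have hp' : ∀ j, S.IsPrim gr n L (c + 2 * j) (a j • p j) := by
    intro j
    refine ⟨zsmul_mem_T (hp j).mem _, ?_, fun h => zsmul_mem ((hp j).deg h) _, fun h => ?_⟩
    · rw [map_zsmul, (hp j).prim, smul_zero]
    · rw [(hp j).zero h, smul_zero]
  have h2 := H.indep c _ hp' N h1
  apply H.pow_max c
  unfold MemMax
  apply Submodule.sum_mem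
  intro j hj
  exact H.pow_max j (memMax_of_zsmul hℓ (ha j) (h2 j (Finset.mem_range.1 hj)))

end Ring

end Lat

end Pool.Agent.H838
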