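import Pool.Agent.H838.PrimeDefs

/-!
# Cycles with coefficients in the local ring at a prime number: definitions
-/

open CategoryTheory AlgebraicGeometry

universe u v

namespace Pool.Agent.H838

open Pool.Agent.H914 Pool.Agent.H914.VarClass

/-- The lattice is spanned by homogeneous elements: it is the direct sum of its intersections with
the subspaces `gr i`. -/
def Lat.IsGraded {K : Type*} [Field K] {V : Type*} [AddCommGroup V] [Module K V] {ℓ : ℕ}
    (S : Lat K V ℓ) (gr : ℕ → Submodule K V) : Prop :=
  ∀ t ∈ S.T, t ∈ Submodule.span S.O {s | s ∈ S.T ∧ ∃ i, s ∈ gr i}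

variable {k : Type u} [Field k] {𝒱 : VarClass k} {ops : CycleOps 𝒱}

/-- The coefficients of the cycle `z` are rational numbers whose denominators are not divisible
by `ℓ`. -/
def IsIntegralAt (ℓ : ℕ) (X : 𝒱.Obj) (z : X.Cycles) : Prop :=
  ∀ x : X.V.X, ¬ ℓ ∣ (X.V.coeff z x).den

/-- The operations on cycles (intersection product, pull-back, push-forward) map integral cycles to
integral cycles. -/
structure PreservesIntegral (ops : CycleOps 𝒱) : Prop where
  mul : ∀ {X : 𝒱.Obj} {z w : X.Cycles}, IsIntegral X z → IsIntegral X w →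
    IsIntegral X (ops.mul z w)
  pull : ∀ {X Y : 𝒱.Obj} (f : X ⟶ Y) {z : Y.Cycles}, IsIntegral Y z → IsIntegral X (ops.pull f z)
  push : ∀ {X Y : 𝒱.Obj} (f : X ⟶ Y) {z : X.Cycles}, IsIntegral X z → IsIntegral Y (ops.push f z)

/-- The cycle `z` on `X × X` induces the inverse of the cup product with the `c`-th power of the
class of `D` from `H^(n - c)(X)` to `H^(n + c)(X)`, where `n = dim X`. -/
def InducesInverse (W : WeilCohomology.{u, v} ops) (X : 𝒱.Obj) (D : X.Cycles) (c : ℕ)
    (z : (X.prod X).Cycles) : Prop :=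
  ∀ s ∈ W.gr X (X.dim - c), cycOp W X z (lefPow W X D c s) = s

end Pool.Agent.H838
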