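import Pool.Agent.H838.NilMod

/-!
# Lowering operators modulo numerical equivalence modulo the maximal ideal
-/

namespace Pool.Agent.H838

open Pool.Agent.H914 Finset Polynomial

variable {K : Type*} [Field K] {V : Type*} [AddCommGroup V] [Module K V] {ℓ : ℕ}

section

variable [CharZero K] [Module.Finite K V] {S : Lat K V ℓ} {gr : ℕ → Submodule K V}
  {R : ℤ → Module.End K V → Prop} {m : ℕ} {b : Module.Basis (Fin m) K V}

omit [Module.Finite K V] in
lemma rho_proj_mem (h : DirectSum.IsInternal gr) (hb : Submodule.span S.O (Set.range b) = S.T)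
    (hS : S.IsGraded gr) (hR : OpDual S gr R (par h))
    (hproj : ∀ i, ∃ y, R 0 y ∧ S.IsZeroMod (y - proj h i)) (i : ℕ) :
    S.rho b (proj h i) ∈ redAlg S b R := by
  obtain ⟨y, hy, hy'⟩ := hproj i
  have h1 := (Lat.rho_eq_zero_iff hb ((hR.pres hy).sub (hS.proj_mem h i))).2 hy'
  rw [Lat.rho_sub hb (hR.pres hy) (hS.proj_mem h i), sub_eq_zero] at h1
  rw [← h1]
  exact rho_mem_redAlg hy

/-- The reduction of the projector onto the part of weight `w`. -/
noncomputable def wtProj (h : DirectSum.IsInternal gr) (n : ℕ) (w : ℤ) : Module.End K V :=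
  if 0 ≤ (n : ℤ) + w then proj h ((n : ℤ) + w).toNat else 0

omit [CharZero K] [Module.Finite K V] in
lemma wtProj_apply (h : DirectSum.IsInternal gr) (n : ℕ) (w : ℤ) {a : V}
    (ha : a ∈ grZ gr (n + w)) : wtProj h n w a = a := by
  unfold wtProj
  by_cases hw : 0 ≤ (n : ℤ) + w
  · rw [if_pos hw]
    apply proj_same
    rw [grZ, if_pos hw] at ha
    exact ha
  · rw [grZ, if_neg hw] at ha
    rw [(Submodule.mem_bot _).1 ha, map_zero]

omit [CharZero K] [Module.Finite K V] in
lemma wtProj_mem (h : DirectSum.IsInternal gr) (n : ℕ) (w : ℤ) (a : V) :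
    wtProj h n w a ∈ grZ gr (n + w) := by
  unfold wtProj
  by_cases hw : 0 ≤ (n : ℤ) + w
  · rw [if_pos hw, grZ, if_pos hw]
    exact proj_mem h _ a
  · rw [if_neg hw, LinearMap.zero_apply]
    exact Submodule.zero_mem _

omit [CharZero K] [Module.Finite K V] in
lemma wtProj_hom (h : DirectSum.IsInternal gr) (n : ℕ) (w : ℤ) {d : ℤ} {y : Module.End K V}
    (hy : IsHom gr d y) : y * wtProj h n w = wtProj h n (w + d) * (y * wtProj h n w) := by
  apply LinearMap.ext
  intro a
  rw [Module.End.mul_apply, Module.End.mul_apply, Module.End.mul_apply]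
  have h1 := hy _ _ (wtProj_mem h n w a)
  rw [wtProj_apply h n (w + d) (by rw [← add_assoc]; exact h1)]

omit [Module.Finite K V] in
lemma wt_wtProj (h : DirectSum.IsInternal gr) (n : ℕ) (w : ℤ) :
    wt h n * wtProj h n w = w • wtProj h n w := by
  apply LinearMap.ext
  intro a
  unfold wtProj
  by_cases hw : 0 ≤ (n : ℤ) + w
  · rw [if_pos hw, Module.End.mul_apply, wt, scal_apply h _ (proj_mem h _ a),
      LinearMap.smul_apply, ← Int.cast_smul_eq_zsmul K]
    congr 1
    have h1 : ((((n : ℤ) + w).toNat : ℕ) : ℤ) = n + w := Int.toNat_of_nonneg hw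
    unfold node
    have h2 : ((((n : ℤ) + w).toNat : ℕ) : ℚ) = n + w := by
      have := congrArg (fun m : ℤ => (m : ℚ)) h1
      push_cast at this
      exact this
    rw [h2]
    push_cast
    ring
  · rw [if_neg hw, mul_zero, smul_zero]

omit [Module.Finite K V] in
lemma preserves_wtProj (h : DirectSum.IsInternal gr) (hS : S.IsGraded gr) (n : ℕ) (w : ℤ) :
    S.Preserves (wtProj h n w) := by
  unfold wtProj
  by_cases hw : 0 ≤ (n : ℤ) + w
  · rw [if_pos hw]; exact hS.proj_mem h _
  · rw [if_neg hw]; exact Lat.Preserves.zero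

/-- The trace of an operator of nonzero degree. -/
lemma trace_eq_zero_of_hom (h : DirectSum.IsInternal gr) {d : ℤ} {y : Module.End K V}
    (hy : IsHom gr d y) (hd : d ≠ 0) : LinearMap.trace K V y = 0 := by
  have h1 := trace_comm_wt (v := 1) h 0 hy
  rw [mul_one, one_mul, sub_self, zero_mul, map_zero] at h1
  rcases mul_eq_zero.1 h1.symm with h2 | h2
  · exact absurd (Int.cast_eq_zero.1 h2) hd
  · exact h2

/-- **Lowering operators modulo numerical equivalence.** Let `f` be an operator of degree `-1` in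
the ring for which the commutator `[L, f]` is numerically equivalent, modulo the maximal ideal, to
the weight operator. Then `f ^ c` is injective modulo the maximal ideal in degree `n + c`. -/
theorem injMod_of_numLow (h : DirectSum.IsInternal gr) {n : ℕ} (hbd : ∀ i, 2 * n + 1 ≤ i → gr i = ⊥)
    (hS : S.IsGraded gr) (hℓ : ℓ.Prime) (hn : n < ℓ)
    (hbetti : ∀ i, Module.finrank K (gr i) < ℓ) (hR : OpDual S gr R (par h))
    (hproj : ∀ i, ∃ y, R 0 y ∧ S.IsZeroMod (y - proj h i)) {L f : Module.End K V} (hL : R 1 L)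
    (hf : R (-1) f)
    (hnum : ∀ y, R 0 y → ∃ r ∈ IsLocalRing.maximalIdeal S.O,
      ((r : S.O) : K) = LinearMap.trace K V (par h * ((L * f - f * L - wt h n) * y)))
    {c : ℕ} (hc : c ≤ n) : S.InjMod (gr (n + c)) (f ^ c) := by
  obtain ⟨m, b, hb⟩ := S.exists_basis
  have hP : ∀ i, S.Preserves (proj h i) := hS.proj_mem h
  have hPm := rho_proj_mem h hb hS hR hproj
  have hLT := hR.pres hL
  have hfT := hR.pres hf
  have hwT : S.Preserves (wt h n) := by
    rw [wt, scal_eq_sum h hbd]
    apply Lat.Preserves.sum'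
    intro i _
    have h1 : (((node n i : ℚ) : K)) = ((((i : ℤ) - n : ℤ) : S.O) : K) := by
      unfold node
      push_cast
      ring
    rw [h1]
    exact (hP i).smul _
  have hwtm : S.rho b (wt h n) ∈ redAlg S b R := by
    rw [wt, scal_eq_sum h hbd]
    have key : ∀ s : Finset ℕ, S.rho b (∑ i ∈ s, ((node n i : ℚ) : K) • proj h i) ∈
        redAlg S b R ∧ S.Preserves (∑ i ∈ s, ((node n i : ℚ) : K) • proj h i) := by
      intro s
      induction s using Finset.induction_on with
      | empty =>
        rw [Finset.sum_empty, Lat.rho_zero hb]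
        exact ⟨Subalgebra.zero_mem _, Lat.Preserves.zero⟩
      | insert a s ha ih =>
        have h1 : (((node n a : ℚ) : K)) = ((((a : ℤ) - n : ℤ) : S.O) : K) := by
          unfold node
          push_cast
          ring
        rw [Finset.sum_insert ha, h1]
        rw [Lat.rho_add hb ((hP a).smul _) ih.2, Lat.rho_smul hb (hP a)]
        exact ⟨Subalgebra.add_mem _ (Subalgebra.smul_mem _ (hPm a) _) ih.1,
          ((hP a).smul _).add ih.2⟩
    exact (key _).1
  have hwPT := preserves_wtProj h hS n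
  have hwPm : ∀ w, S.rho b (wtProj h n w) ∈ redAlg S b R := by
    intro w
    unfold wtProj
    by_cases hw : 0 ≤ (n : ℤ) + w
    · rw [if_pos hw]; exact hPm _
    · rw [if_neg hw, Lat.rho_zero hb]; exact Subalgebra.zero_mem _
  -- elements of the algebra
  let eL : redAlg S b R := ⟨S.rho b L, rho_mem_redAlg hL⟩
  let ef : redAlg S b R := ⟨S.rho b f, rho_mem_redAlg hf⟩
  let ew : redAlg S b R := ⟨S.rho b (wt h n), hwtm⟩
  let ep : ℤ → redAlg S b R := fun w => ⟨S.rho b (wtProj h n w), hwPm w⟩
  let N := numRad S b R (par h)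
  have hcomm : eL * ef - ef * eL - ew ∈ N := by
    rw [mem_numRad_iff hb hR]
    intro d y hy
    change (S.rho b (par h) * ((S.rho b L * S.rho b f - S.rho b f * S.rho b L -
      S.rho b (wt h n)) * S.rho b y)).trace = 0
    have hT : S.Preserves (L * f - f * L - wt h n) := ((hLT.mul hfT).sub (hfT.mul hLT)).sub hwT
    rw [← Lat.rho_mul hb hLT hfT, ← Lat.rho_mul hb hfT hLT,
      ← Lat.rho_sub hb (hLT.mul hfT) (hfT.mul hLT),
      ← Lat.rho_sub hb ((hLT.mul hfT).sub (hfT.mul hLT)) hwT, ← Lat.rho_mul hb hT (hR.pres hy),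
      ← Lat.rho_mul hb hR.presPi (hT.mul (hR.pres hy)),
      Lat.trace_rho_eq_zero_iff hb (hR.presPi.mul (hT.mul (hR.pres hy)))]
    by_cases hd : d = 0
    · subst hd
      exact hnum y hy
    · refine ⟨0, Ideal.zero_mem _, ?_⟩
      have h1 : IsHom gr (2 * d) (par h * ((L * f - f * L - wt h n) * y)) := by
        have e1 := hR.ring.hom hL
        have e2 := hR.ring.hom hf
        have e3 : IsHom gr 0 (L * f - f * L - wt h n) := by
          have h5 := e1.mul e2
          have h6 := e2.mul e1
          rw [show (2 * 1 + 2 * -1 : ℤ) = 0 by norm_num] at h5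
          rw [show (2 * -1 + 2 * 1 : ℤ) = 0 by norm_num] at h6
          exact (h5.sub h6).sub (isHom_scal h _)
        have h7 := (isHom_scal h (fun i => (-1 : K) ^ i)).mul (e3.mul (hR.ring.hom hy))
        rwa [zero_add, zero_add] at h7
      rw [ZeroMemClass.coe_zero]
      exact (trace_eq_zero_of_hom h h1 (by omega)).symm
  have hNl : ∀ a : redAlg S b R, N ≤ N.comap (LinearMap.mulLeft _ a) := fun a x hx =>
    numRad_mul_left hb hR hx a
  let E : Module.End (IsLocalRing.ResidueField S.O) (redAlg S b R ⧸ N) :=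
    N.mapQ N (LinearMap.mulLeft _ eL) (hNl eL)
  let F : Module.End (IsLocalRing.ResidueField S.O) (redAlg S b R ⧸ N) :=
    N.mapQ N (LinearMap.mulLeft _ ef) (hNl ef)
  have hE : ∀ x, E (N.mkQ x) = N.mkQ (eL * x) := fun x => Submodule.mapQ_apply _ _ _ _
  have hF : ∀ x, F (N.mkQ x) = N.mkQ (ef * x) := fun x => Submodule.mapQ_apply _ _ _ _
  have hsl : SlRel E F (fun w => (LinearMap.range (LinearMap.mulLeft
      (IsLocalRing.ResidueField S.O) (ep w))).map N.mkQ) n := by
    constructor
    · rintro w _ ⟨_, ⟨x, rfl⟩, rfl⟩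
      refine ⟨_, ⟨eL * (ep w * x), rfl⟩, ?_⟩
      rw [hE, LinearMap.mulLeft_apply, LinearMap.mulLeft_apply]
      congr 1
      rw [← mul_assoc eL, ← mul_assoc (ep (w + 2))]
      congr 1
      apply Subtype.ext
      change S.rho b (wtProj h n (w + 2)) * (S.rho b L * S.rho b (wtProj h n w)) =
        S.rho b L * S.rho b (wtProj h n w)
      rw [← Lat.rho_mul hb hLT (hwPT w), ← Lat.rho_mul hb (hwPT _) (hLT.mul (hwPT w))]
      have := wtProj_hom h n w (hR.ring.hom hL)
      rw [mul_one] at this
      rw [← this]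
    · rintro w _ ⟨_, ⟨x, rfl⟩, rfl⟩
      refine ⟨_, ⟨ef * (ep w * x), rfl⟩, ?_⟩
      rw [hF, LinearMap.mulLeft_apply, LinearMap.mulLeft_apply]
      congr 1
      rw [← mul_assoc ef, ← mul_assoc (ep (w - 2))]
      congr 1
      apply Subtype.ext
      change S.rho b (wtProj h n (w - 2)) * (S.rho b f * S.rho b (wtProj h n w)) =
        S.rho b f * S.rho b (wtProj h n w)
      rw [← Lat.rho_mul hb hfT (hwPT w), ← Lat.rho_mul hb (hwPT _) (hfT.mul (hwPT w))]
      have := wtProj_hom h n w (hR.ring.hom hf)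
      rw [show w + 2 * -1 = w - 2 by ring] at this
      rw [← this]
    · rintro w _ ⟨_, ⟨x, rfl⟩, rfl⟩
      rw [hF, hE, hE, hF, LinearMap.mulLeft_apply, ← map_sub, ← map_smul, ← sub_eq_zero,
        ← map_sub, Submodule.mkQ_apply, Submodule.Quotient.mk_eq_zero]
      have h1 : ew * ep w = (w : IsLocalRing.ResidueField S.O) • ep w := by
        apply Subtype.ext
        change S.rho b (wt h n) * S.rho b (wtProj h n w) =
          (w : IsLocalRing.ResidueField S.O) • S.rho b (wtProj h n w)
        rw [← Lat.rho_mul hb hwT (hwPT w), wt_wtProj, ← Int.cast_smul_eq_zsmul K]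
        have h2 : ((w : ℤ) : K) = (((w : ℤ) : S.O) : K) := by push_cast; rfl
        rw [h2, Lat.rho_smul hb (hwPT w), map_intCast]
      have h2 : eL * (ef * (ep w * x)) - ef * (eL * (ep w * x)) -
          (w : IsLocalRing.ResidueField S.O) • (ep w * x) =
          (eL * ef - ef * eL - ew) * (ep w * x) := by
        have h3 : ew * (ep w * x) = (w : IsLocalRing.ResidueField S.O) • (ep w * x) := by
          rw [← mul_assoc, h1, smul_mul_assoc]
        rw [← h3, sub_mul, sub_mul, mul_assoc, mul_assoc]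
      rw [h2]
      exact numRad_mul_right hcomm _
    · intro w hw
      rw [eq_bot_iff]
      rintro _ ⟨_, ⟨x, rfl⟩, rfl⟩
      have h1 : ep w = 0 := by
        apply Subtype.ext
        change S.rho b (wtProj h n w) = 0
        have h2 : wtProj h n w = 0 := by
          apply LinearMap.ext
          intro a
          have h3 := wtProj_mem h n w a
          have h4 : 0 ≤ (n : ℤ) + w := by omega
          rw [grZ, if_pos h4, hbd _ (by omega)] at h3
          exact (Submodule.mem_bot _).1 h3
        rw [h2, Lat.rho_zero hb]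
      rw [LinearMap.mulLeft_apply, h1, zero_mul, map_zero]
      exact Submodule.zero_mem _
  have hκ : ∀ m : ℕ, 0 < m → m ≤ n → (m : IsLocalRing.ResidueField S.O) ≠ 0 :=
    fun m h0 hm => natCast_ne_zero S hℓ h0 (lt_of_le_of_lt hm hn)
  obtain ⟨α, hα⟩ := exists_inv_poly hκ hc
  have hEpow : ∀ (j : ℕ) x, (E ^ j) (N.mkQ x) = N.mkQ (eL ^ j * x) := by
    intro j x
    induction j with
    | zero => simp
    | succ j ih => rw [pow_succ', Module.End.mul_apply, ih, hE, pow_succ', mul_assoc]
  have hFpow : ∀ (j : ℕ) x, (F ^ j) (N.mkQ x) = N.mkQ (ef ^ j * x) := by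
    intro j x
    induction j with
    | zero => simp
    | succ j ih => rw [pow_succ', Module.End.mul_apply, ih, hF, pow_succ', mul_assoc]
  have hΩ : ∀ (j : ℕ) x, ((E * F) ^ j) (N.mkQ x) = N.mkQ ((eL * ef) ^ j * x) := by
    intro j x
    induction j with
    | zero => simp
    | succ j ih =>
      rw [pow_succ', Module.End.mul_apply, ih, Module.End.mul_apply, hF, hE, pow_succ']
      congr 1
      rw [mul_assoc, mul_assoc]
  have haev : ∀ (p : (IsLocalRing.ResidueField S.O)[X]) x, aeval (E * F) p (N.mkQ x) =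
      N.mkQ (aeval (eL * ef) p * x) := by
    intro p x
    induction p using Polynomial.induction_on' with
    | add p q hp hq => rw [map_add, map_add, LinearMap.add_apply, hp, hq, add_mul, map_add]
    | monomial k c =>
      rw [aeval_monomial, aeval_monomial, Module.End.mul_apply, Module.algebraMap_end_apply, hΩ,
        ← map_smul, ← Algebra.smul_def, smul_mul_assoc]
  have hmain := hα hsl (N.mkQ (ep c)) ⟨ep c * 1, ⟨1, rfl⟩, by rw [mul_one]⟩
  rw [hFpow, hEpow, haev, ← sub_eq_zero, ← map_sub, Submodule.mkQ_apply,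
    Submodule.Quotient.mk_eq_zero] at hmain
  have hmain' : ep c * (aeval (eL * ef) α * (eL ^ c * (ef ^ c * ep c)) - ep c) ∈ N :=
    numRad_mul_left hb hR hmain _
  have hpc : wtProj h n c = proj h (n + c) := by
    unfold wtProj
    rw [if_pos (by omega)]
    congr 1
  have hidem : ep c * ep c = ep c := by
    apply Subtype.ext
    change S.rho b (wtProj h n c) * S.rho b (wtProj h n c) = S.rho b (wtProj h n c)
    rw [hpc, ← Lat.rho_mul hb (hP _) (hP _), proj_mul_proj]
  have hnil := isNilpotent_of_numRad h hb hS hℓ (hbetti (n + c)) hmain' (by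
    rw [← hpc]
    change (ep c).1 * _ = _
    rw [← Subalgebra.coe_mul, ← mul_assoc, hidem]) hR
  -- conclusion
  intro t ht htc hmax
  obtain ⟨v, hv⟩ := Lat.exists_res hb ht
  have h1 := hv.apply hb (hfT.pow c)
  have h2 := (h1.memMax_iff hb).1 hmax
  have h3 : (ep c).1.mulVec v = v := by
    have h4 := hv.apply hb (hP (n + c))
    rw [proj_same h htc] at h4
    obtain ⟨a, ha, ha'⟩ := hv
    obtain ⟨a', e1, e2⟩ := h4
    have h5 : S.Res b (t - t) (v - (S.rho b (proj h (n + c))).mulVec v) := by
      have h6 : S.Res b t v := ⟨a, ha, ha'⟩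
      have h7 : S.Res b t ((S.rho b (proj h (n + c))).mulVec v) := ⟨a', e1, e2⟩
      have h8 := h6.add (h7.smul (-1))
      rw [map_neg, map_one, neg_smul, one_smul, ← sub_eq_add_neg] at h8
      have h9 : t + (((-1 : S.O) : S.O) : K) • t = t - t := by
        push_cast
        rw [neg_smul, one_smul, sub_eq_add_neg]
      rwa [h9] at h8
    rw [sub_self] at h5
    have h6 := (h5.memMax_iff hb).1 Lat.MemMax.zero
    change (S.rho b (wtProj h n c)).mulVec v = v
    rw [hpc]
    exact (sub_eq_zero.1 h6).symm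
  have h4 : (ef ^ c : redAlg S b R).1.mulVec v = 0 := by
    rw [SubmonoidClass.coe_pow]
    change (S.rho b f ^ c).mulVec v = 0
    rw [← Lat.rho_pow hb hfT]
    exact h2
  rw [hv.memMax_iff hb]
  obtain ⟨r, hr⟩ := hnil
  have h5 : (ep c * (aeval (eL * ef) α * (eL ^ c * (ef ^ c * ep c)) - ep c)).1.mulVec v = -v := by
    have h6 : (ep c * (aeval (eL * ef) α * (eL ^ c * (ef ^ c * ep c)) - ep c)) =
        (ep c * aeval (eL * ef) α * eL ^ c) * ef ^ c * ep c - ep c := by
      rw [mul_sub, hidem]
      congr 1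
      simp only [mul_assoc]
    rw [h6, Subalgebra.coe_sub, Matrix.sub_mulVec, Subalgebra.coe_mul, ← Matrix.mulVec_mulVec, h3,
      Subalgebra.coe_mul, ← Matrix.mulVec_mulVec, h4, Matrix.mulVec_zero, zero_sub]
  have h6 : ∀ j : ℕ, ((ep c * (aeval (eL * ef) α * (eL ^ c * (ef ^ c * ep c)) - ep c)).1 ^ j).mulVec
      v = (-1 : IsLocalRing.ResidueField S.O) ^ j • v := by
    intro j
    induction j with
    | zero => simp
    | succ j ih =>
      rw [pow_succ, ← Matrix.mulVec_mulVec, h5, Matrix.mulVec_neg, ih, pow_succ, mul_neg, mul_one,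
        neg_smul]
  have h7 := h6 r
  rw [hr, Matrix.zero_mulVec] at h7
  have h8 := h7.symm
  rw [smul_eq_zero] at h8
  rcases h8 with h8 | h8
  · exact absurd h8 (pow_ne_zero _ (by simp))
  · exact h8

end

end Pool.Agent.H838
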