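import Mathlib

/-!
# Weight modules and nilpotent operators in positive characteristic
-/

namespace Pool.Agent.H838

open Finset Polynomial

/-! ### Weight modules -/

/-- Operators `E` and `F` on a module with weight spaces `P w` which satisfy the relations of
`sl 2`; the weights are at most `n`. -/
structure SlRel {κ M : Type*} [Field κ] [AddCommGroup M] [Module κ M] (E F : Module.End κ M)
    (P : ℤ → Submodule κ M) (n : ℕ) : Prop where
  up : ∀ w, ∀ x ∈ P w, E x ∈ P (w + 2)
  down : ∀ w, ∀ x ∈ P w, F x ∈ P (w - 2)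
  comm : ∀ w, ∀ x ∈ P w, E (F x) - F (E x) = (w : κ) • x
  bot : ∀ w : ℤ, (n : ℤ) < w → P w = ⊥

namespace SlRel

variable {κ M : Type*} [Field κ] [AddCommGroup M] [Module κ M] {E F : Module.End κ M}
  {P : ℤ → Submodule κ M} {n : ℕ}

lemma pow_up (H : SlRel E F P n) (j : ℕ) {w : ℤ} {x : M} (hx : x ∈ P w) :
    (E ^ j) x ∈ P (w + 2 * j) := by
  induction j with
  | zero => simpa using hx
  | succ j ih =>
    rw [pow_succ', Module.End.mul_apply]
    have := H.up _ _ ih
    rwa [show w + 2 * (j : ℤ) + 2 = w + 2 * ((j + 1 : ℕ) : ℤ) by push_cast; ring] at this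

lemma pow_down (H : SlRel E F P n) (j : ℕ) {w : ℤ} {x : M} (hx : x ∈ P w) :
    (F ^ j) x ∈ P (w - 2 * j) := by
  induction j with
  | zero => simpa using hx
  | succ j ih =>
    rw [pow_succ', Module.End.mul_apply]
    have := H.down _ _ ih
    rwa [show w - 2 * (j : ℤ) - 2 = w - 2 * ((j + 1 : ℕ) : ℤ) by push_cast; ring] at this

lemma omega_mem (H : SlRel E F P n) {w : ℤ} {x : M} (hx : x ∈ P w) : (E * F) x ∈ P w := by
  have := H.up _ _ (H.down _ _ hx)
  rwa [sub_add_cancel] at this

lemma comm_down (H : SlRel E F P n) (j : ℕ) {w : ℤ} {x : M} (hx : x ∈ P w) :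
    E (F ((F ^ j) x)) = (F ^ j) (E (F x)) + ((j * (w - 1 - j) : ℤ) : κ) • (F ^ j) x := by
  induction j with
  | zero => simp
  | succ j ih =>
    have h1 := H.comm _ _ (H.pow_down (j + 1) hx)
    have h2 : (F ^ (j + 1)) x = F ((F ^ j) x) := by rw [pow_succ', Module.End.mul_apply]
    have h3 : (F ^ (j + 1)) (E (F x)) = F ((F ^ j) (E (F x))) := by
      rw [pow_succ', Module.End.mul_apply]
    rw [sub_eq_iff_eq_add] at h1
    rw [h1, h3]
    have h4 : F (E ((F ^ (j + 1)) x)) =
        F ((F ^ j) (E (F x))) + ((j * (w - 1 - j) : ℤ) : κ) • (F ^ (j + 1)) x := by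
      rw [h2, ih, map_add, map_smul]
    rw [h4]
    push_cast
    module

lemma comm_up (H : SlRel E F P n) (j : ℕ) {w : ℤ} {x : M} (hx : x ∈ P w) :
    F (E ((E ^ j) x)) = (E ^ j) (F (E x)) - ((j * (w + j + 1) : ℤ) : κ) • (E ^ j) x := by
  induction j with
  | zero => simp
  | succ j ih =>
    have h1 := H.comm _ _ (H.pow_up (j + 1) hx)
    have h2 : (E ^ (j + 1)) x = E ((E ^ j) x) := by rw [pow_succ', Module.End.mul_apply]
    have h3 : (E ^ (j + 1)) (F (E x)) = E ((E ^ j) (F (E x))) := by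
      rw [pow_succ', Module.End.mul_apply]
    have h5 : F (E ((E ^ (j + 1)) x)) =
        E (F ((E ^ (j + 1)) x)) - ((w + 2 * (j + 1 : ℕ) : ℤ) : κ) • (E ^ (j + 1)) x := by
      rw [← h1]; abel
    have h4 : E (F ((E ^ (j + 1)) x)) =
        E ((E ^ j) (F (E x))) - ((j * (w + j + 1) : ℤ) : κ) • (E ^ (j + 1)) x := by
      rw [h2, ih, map_sub, map_smul]
    rw [h5, h4, h3]
    push_cast
    module

omit [Module κ M] in
lemma aeval_mul_apply [Module κ M] (Ω : Module.End κ M) (p q : κ[X]) (x : M) :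
    aeval Ω (p * q) x = aeval Ω p (aeval Ω q x) := by
  rw [map_mul, Module.End.mul_apply]

/-- On vectors of weight `w` the operator `E ^ a F ^ a` is a polynomial in `E F`. -/
lemma aeval_down (H : SlRel E F P n) (a : ℕ) {w : ℤ} {x : M} (hx : x ∈ P w) :
    (E ^ a) ((F ^ a) x) =
      aeval (E * F) (∏ j ∈ range a, (X - C (((-(j * (w - 1 - j)) : ℤ)) : κ))) x := by
  induction a generalizing x with
  | zero => simp
  | succ a ih =>
    have h1 : (E ^ (a + 1)) ((F ^ (a + 1)) x) = (E ^ a) (E (F ((F ^ a) x))) := by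
      rw [pow_succ, pow_succ', Module.End.mul_apply, Module.End.mul_apply]
    have h2 : E (F ((F ^ a) x)) =
        (F ^ a) ((E * F) x + ((a * (w - 1 - a) : ℤ) : κ) • x) := by
      rw [H.comm_down a hx, map_add, map_smul, Module.End.mul_apply]
    rw [h1, h2, ih (Submodule.add_mem _ (H.omega_mem hx) (Submodule.smul_mem _ _ hx)),
      prod_range_succ, aeval_mul_apply]
    congr 1
    rw [map_sub, aeval_X, aeval_C, LinearMap.sub_apply, Module.algebraMap_end_apply]
    push_cast
    module

/-- On vectors of weight `w` the operator `F ^ a E ^ a` is a polynomial in `E F`. -/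
lemma aeval_up (H : SlRel E F P n) (a : ℕ) {w : ℤ} {x : M} (hx : x ∈ P w) :
    (F ^ a) ((E ^ a) x) =
      aeval (E * F) (∏ j ∈ range a, (X - C ((((j + 1) * (w + j)) : ℤ) : κ))) x := by
  induction a generalizing x with
  | zero => simp
  | succ a ih =>
    have h1 : (F ^ (a + 1)) ((E ^ (a + 1)) x) = (F ^ a) (F (E ((E ^ a) x))) := by
      rw [pow_succ, pow_succ', Module.End.mul_apply, Module.End.mul_apply]
    have h2 : F (E ((E ^ a) x)) =
        (E ^ a) ((E * F) x - (((a + 1) * (w + a) : ℤ) : κ) • x) := by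
      have h3 := H.comm _ _ hx
      have h4 : F (E x) = (E * F) x - (w : κ) • x := by
        rw [Module.End.mul_apply, ← h3]; abel
      rw [H.comm_up a hx, h4, map_sub, map_sub, map_smul, map_smul]
      push_cast
      module
    rw [h1, h2, ih (Submodule.sub_mem _ (H.omega_mem hx) (Submodule.smul_mem _ _ hx)),
      prod_range_succ, aeval_mul_apply]
    congr 1
    rw [map_sub, aeval_X, aeval_C, LinearMap.sub_apply, Module.algebraMap_end_apply]

end SlRel

/-- The polynomial which inverts `E ^ c F ^ c` on the vectors of weight `c`. -/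
lemma exists_inv_poly {κ : Type*} [Field κ] {n : ℕ} (hκ : ∀ m : ℕ, 0 < m → m ≤ n → (m : κ) ≠ 0)
    {c : ℕ} (hc : c ≤ n) :
    ∃ α : κ[X], ∀ {M : Type*} [AddCommGroup M] [Module κ M] {E F : Module.End κ M}
      {P : ℤ → Submodule κ M}, SlRel E F P n → ∀ x ∈ P c,
        aeval (E * F) α ((E ^ c) ((F ^ c) x)) = x := by
  obtain ⟨m, hm1, hm2⟩ : ∃ m : ℕ, n < c + 2 * m ∧ c + 2 * m ≤ n + 2 :=
    ⟨(n - c) / 2 + 1, by omega, by omega⟩
  have hcop : IsCoprime
      (∏ j ∈ range c, (X - C (((-(j * (((c : ℕ) : ℤ) - 1 - j)) : ℤ)) : κ)))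
      (∏ j ∈ range m, (X - C ((((j + 1) * (((c : ℕ) : ℤ) + j)) : ℤ) : κ))) := by
    apply IsCoprime.prod_left
    intro j hj
    apply IsCoprime.prod_right
    intro k hk
    rw [mem_range] at hj hk
    apply isCoprime_X_sub_C_of_isUnit_sub
    rw [← Int.cast_sub]
    have h1 : (-((j : ℤ) * (((c : ℕ) : ℤ) - 1 - j)) - (((k : ℤ) + 1) * (((c : ℕ) : ℤ) + k)) : ℤ) =
        -(((c + k - j : ℕ) : ℤ) * ((k + 1 + j : ℕ) : ℤ)) := by
      have : ((c + k - j : ℕ) : ℤ) = (c : ℤ) + k - j := by omega
      rw [this]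
      push_cast
      ring
    rw [h1]
    apply IsUnit.mk0
    push_cast
    rw [neg_ne_zero]
    apply mul_ne_zero
    · exact hκ _ (by omega) (by omega)
    · have := hκ (k + 1 + j) (by omega) (by omega)
      push_cast at this
      exact this
  obtain ⟨α, β, hαβ⟩ := hcop
  refine ⟨α, ?_⟩
  intro M _ _ E F P H x hx
  rw [H.aeval_down c hx]
  have h1 : aeval (E * F) (∏ j ∈ range m, (X - C ((((j + 1) * (((c : ℕ) : ℤ) + j)) : ℤ) : κ))) x =
      0 := by
    rw [← H.aeval_up m hx]
    have h2 := H.pow_up m hx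
    rw [H.bot _ (by omega)] at h2
    rw [(Submodule.mem_bot _).1 h2, map_zero]
  have h2 := congrArg (fun p => aeval (E * F) p x) hαβ
  simp only [map_add, map_mul, map_one, LinearMap.add_apply, Module.End.mul_apply,
    Module.End.one_apply] at h2
  rw [h1, map_zero, add_zero] at h2
  exact h2

/-! ### Nilpotence and traces -/

/-- An operator of small rank for which the traces of all powers vanish is nilpotent. -/
lemma isNilpotent_of_trace {κ N : Type*} [Field κ] [AddCommGroup N] [Module κ N]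
    [Module.Finite κ N] {x : Module.End κ N}
    (hx : ∀ k : ℕ, LinearMap.trace κ N (x ^ (k + 1)) = 0)
    (hr : ∀ r : ℕ, 0 < r → r ≤ Module.finrank κ (LinearMap.range x) → (r : κ) ≠ 0) :
    IsNilpotent x := by
  have hp0 : LinearMap.charpoly x ≠ 0 := (LinearMap.charpoly_monic x).ne_zero
  obtain ⟨q, hq, hqd⟩ := exists_eq_pow_rootMultiplicity_mul_and_not_dvd _ hp0 (0 : κ)
  generalize (LinearMap.charpoly x).rootMultiplicity 0 = a at hq
  rw [C_0, sub_zero] at hq hqd
  have hcop : IsCoprime (X ^ (a + 1)) q :=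
    ((Polynomial.irreducible_X.coprime_iff_not_dvd).2 hqd).pow_left
  obtain ⟨u, v, huv⟩ := hcop
  have hCH : x ^ a * aeval x q = 0 := by
    have h1 := LinearMap.aeval_self_charpoly x
    rw [hq, map_mul, map_pow, aeval_X] at h1
    exact h1
  have hcomm : ∀ (G H : κ[X]), aeval x G * aeval x H = aeval x H * aeval x G := by
    intro G H
    rw [← map_mul, ← map_mul, mul_comm]
  obtain ⟨g, hg⟩ : ∃ g, g = aeval x (u * X ^ (a + 1)) := ⟨_, rfl⟩
  obtain ⟨g', hg'⟩ : ∃ g', g' = aeval x (v * q) := ⟨_, rfl⟩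
  have hsum : g + g' = 1 := by
    rw [hg, hg', ← map_add, huv, map_one]
  have hprod : g * g' = 0 := by
    rw [hg, hg', ← map_mul]
    have h1 : u * X ^ (a + 1) * (v * q) = (u * v * X) * (X ^ a * q) := by ring
    rw [h1, map_mul, map_mul (aeval x) (X ^ a) q, map_pow, aeval_X, hCH, mul_zero]
  have hgg : g * g = g := by
    have h1 : g' = 1 - g := by rw [← hsum]; abel
    rw [h1, mul_sub, mul_one, sub_eq_zero] at hprod
    exact hprod.symm
  have hproj : LinearMap.IsProj (LinearMap.range g) g := by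
    constructor
    · intro y
      exact LinearMap.mem_range_self g y
    · rintro _ ⟨y, rfl⟩
      rw [← Module.End.mul_apply, hgg]
  have htr0 : LinearMap.trace κ N g = 0 := by
    rw [hg, map_mul, map_pow, aeval_X]
    have h1 : ∀ u : κ[X], LinearMap.trace κ N (aeval x u * x ^ (a + 1)) = 0 := by
      intro u
      induction u using Polynomial.induction_on' with
      | add p q hp hq => rw [map_add, add_mul, map_add, hp, hq, add_zero]
      | monomial k c =>
        rw [aeval_monomial, mul_assoc, ← pow_add, Module.algebraMap_end_eq_smul_id,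
          smul_mul_assoc]
        have : (LinearMap.id : Module.End κ N) * x ^ (k + (a + 1)) = x ^ (k + (a + 1)) := rfl
        rw [this, map_smul, ← add_assoc, hx, smul_zero]
    exact h1 u
  have hle : LinearMap.range g ≤ LinearMap.range x := by
    rintro _ ⟨y, rfl⟩
    rw [hg, pow_succ', ← mul_assoc, mul_comm u X, mul_assoc, map_mul, aeval_X,
      Module.End.mul_apply]
    exact LinearMap.mem_range_self x _
  have hfin : Module.finrank κ (LinearMap.range g) = 0 := by
    by_contra h0
    have h1 := hr _ (Nat.pos_of_ne_zero h0) (Submodule.finrank_mono hle)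
    rw [← hproj.trace, htr0] at h1
    exact h1 rfl
  have hg0 : g = 0 := by
    rw [Submodule.finrank_eq_zero, LinearMap.range_eq_bot] at hfin
    exact hfin
  rw [hg0, zero_add, hg', map_mul] at hsum
  refine ⟨a, ?_⟩
  calc x ^ a = x ^ a * (aeval x v * aeval x q) := by rw [hsum, mul_one]
    _ = (x ^ a * aeval x q) * aeval x v := by rw [hcomm v q, mul_assoc]
    _ = 0 := by rw [hCH, zero_mul]

end Pool.Agent.H838
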