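import Pool.Agent.H838.JanMod
import Pool.Agent.H838.SlPoly

/-!
# Numerically trivial operators modulo the maximal ideal are nilpotent
-/

namespace Pool.Agent.H838

open Pool.Agent.H914 Finset Polynomial

variable {K : Type*} [Field K] {V : Type*} [AddCommGroup V] [Module K V] {ℓ : ℕ}

/-! ### Reduction of vectors -/

namespace Lat

variable {S : Lat K V ℓ} {m : ℕ} {b : Module.Basis (Fin m) K V}

/-- The vector `t` of the lattice has the reduction `v`. -/
def Res (S : Lat K V ℓ) (b : Module.Basis (Fin m) K V) (t : V)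
    (v : Fin m → IsLocalRing.ResidueField S.O) : Prop :=
  ∃ a : Fin m → S.O, ∑ i, (a i : K) • b i = t ∧ (fun i => IsLocalRing.residue S.O (a i)) = v

lemma exists_lift (v : Fin m → IsLocalRing.ResidueField S.O) : ∃ t, S.Res b t v := by
  choose a ha using fun i => IsLocalRing.residue_surjective (v i)
  exact ⟨_, a, rfl, funext ha⟩

lemma Res.add {t t' : V} {v v' : Fin m → IsLocalRing.ResidueField S.O} (h : S.Res b t v)
    (h' : S.Res b t' v') : S.Res b (t + t') (v + v') := by
  obtain ⟨a, rfl, rfl⟩ := h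
  obtain ⟨a', rfl, rfl⟩ := h'
  refine ⟨a + a', ?_, ?_⟩
  · rw [← Finset.sum_add_distrib]
    refine Finset.sum_congr rfl fun i _ => ?_
    rw [Pi.add_apply]
    push_cast
    rw [add_smul]
  · funext i
    simp

lemma Res.smul {t : V} {v : Fin m → IsLocalRing.ResidueField S.O} (h : S.Res b t v) (e : S.O) :
    S.Res b ((e : K) • t) (IsLocalRing.residue S.O e • v) := by
  obtain ⟨a, rfl, rfl⟩ := h
  refine ⟨e • a, ?_, ?_⟩
  · rw [Finset.smul_sum]
    refine Finset.sum_congr rfl fun i _ => ?_
    rw [Pi.smul_apply, smul_eq_mul]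
    push_cast
    rw [mul_smul]
  · funext i
    simp

lemma Res.sum {ι : Type*} (s : Finset ι) {t : ι → V}
    {v : ι → Fin m → IsLocalRing.ResidueField S.O} (h : ∀ i ∈ s, S.Res b (t i) (v i)) :
    S.Res b (∑ i ∈ s, t i) (∑ i ∈ s, v i) := by
  classical
  induction s using Finset.induction_on with
  | empty =>
    refine ⟨0, by simp, ?_⟩
    funext i
    simp
  | insert a s ha ih =>
    rw [Finset.sum_insert ha, Finset.sum_insert ha]
    exact (h a (by simp)).add (ih fun i hi => h i (by simp [hi]))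

section

variable (hb : Submodule.span S.O (Set.range b) = S.T)

include hb

lemma Res.mem {t : V} {v : Fin m → IsLocalRing.ResidueField S.O} (h : S.Res b t v) : t ∈ S.T := by
  obtain ⟨a, rfl, -⟩ := h
  exact sum_mem hb a

lemma exists_res {t : V} (ht : t ∈ S.T) : ∃ v, S.Res b t v := by
  obtain ⟨a, rfl⟩ := (mem_iff_exists hb).1 ht
  exact ⟨_, a, rfl, rfl⟩

lemma Res.memMax_iff {t : V} {v : Fin m → IsLocalRing.ResidueField S.O} (h : S.Res b t v) :
    S.MemMax t ↔ v = 0 := by
  obtain ⟨a, rfl, rfl⟩ := h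
  rw [Lat.memMax_iff hb a, funext_iff]
  exact forall_congr' fun i => (IsLocalRing.residue_eq_zero_iff _).symm

lemma Res.apply {F : Module.End K V} (hF : S.Preserves F) {t : V}
    {v : Fin m → IsLocalRing.ResidueField S.O} (h : S.Res b t v) :
    S.Res b (F t) ((S.rho b F).mulVec v) := by
  obtain ⟨a, rfl, rfl⟩ := h
  obtain ⟨A, hA, hA'⟩ := Lat.exists_matrix hb hF
  refine ⟨A.mulVec a, (hA' a).symm, ?_⟩
  rw [Lat.rho, Lat.mat_eq hA]
  funext i
  simp only [Matrix.mulVec, dotProduct, Matrix.map_apply, map_sum, map_mul]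

/-- The rank of the reduction of an operator is at most its rank. -/
lemma finrank_range_rho [Module.Finite K V] {F : Module.End K V} (hF : S.Preserves F) :
    Module.finrank (IsLocalRing.ResidueField S.O)
      (LinearMap.range (Matrix.toLin' (S.rho b F))) ≤ Module.finrank K (LinearMap.range F) := by
  classical
  let B := Module.finBasis (IsLocalRing.ResidueField S.O)
    (LinearMap.range (Matrix.toLin' (S.rho b F)))
  have h1 : ∀ j, ∃ u, Matrix.toLin' (S.rho b F) u = (B j).1 := fun j => (B j).2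
  choose u hu using h1
  choose t ht using fun j => exists_lift (S := S) (b := b) (u j)
  have hFt : ∀ j, S.Res b (F (t j)) (B j).1 := by
    intro j
    have := (ht j).apply hb hF
    rwa [← Matrix.toLin'_apply, hu] at this
  have hli : LinearIndependent K (fun j => (⟨F (t j), LinearMap.mem_range_self F _⟩ :
      LinearMap.range F)) := by
    rw [Fintype.linearIndependent_iff]
    intro g hg
    by_contra hne
    push Not at hne
    obtain ⟨j, hj0, hj⟩ := exists_dominant S.O g hne
    have h2 : ∑ i, ((⟨g i / g j, hj i⟩ : S.O) : K) • F (t i) = 0 := by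
      have h3 := congrArg Subtype.val hg
      rw [Submodule.coe_sum, ZeroMemClass.coe_zero] at h3
      have h4 : ∑ i, ((⟨g i / g j, hj i⟩ : S.O) : K) • F (t i) =
          (g j)⁻¹ • ∑ i, g i • F (t i) := by
        rw [Finset.smul_sum]
        refine Finset.sum_congr rfl fun i _ => ?_
        rw [smul_smul]
        change (g i / g j) • _ = _
        rw [div_eq_inv_mul]
      rw [h4]
      have h5 : ∑ i, g i • F (t i) = 0 := h3
      rw [h5, smul_zero]
    have h3 : S.Res b (∑ i, ((⟨g i / g j, hj i⟩ : S.O) : K) • F (t i))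
        (∑ i, IsLocalRing.residue S.O (⟨g i / g j, hj i⟩ : S.O) • (B i).1) :=
      Res.sum _ fun i _ => (hFt i).smul _
    rw [h2] at h3
    have h4 := (h3.memMax_iff hb).1 MemMax.zero
    have h5 : ∑ i, IsLocalRing.residue S.O (⟨g i / g j, hj i⟩ : S.O) • B i = 0 := by
      apply Subtype.ext
      rw [Submodule.coe_sum, ZeroMemClass.coe_zero]
      exact h4
    have h6 := Fintype.linearIndependent_iff.1 B.linearIndependent _ h5 j
    have h7 : (⟨g j / g j, hj j⟩ : S.O) = 1 := Subtype.ext (div_self hj0)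
    rw [h7, map_one] at h6
    exact one_ne_zero h6
  have := hli.fintype_card_le_finrank
  rwa [Fintype.card_fin] at this

end

end Lat

/-! ### The algebra of the reductions -/

/-- The algebra generated by the reductions of the operators of the ring. -/
noncomputable def redAlg (S : Lat K V ℓ) {m : ℕ} (b : Module.Basis (Fin m) K V)
    (R : ℤ → Module.End K V → Prop) : Subalgebra (IsLocalRing.ResidueField S.O)
      (Matrix (Fin m) (Fin m) (IsLocalRing.ResidueField S.O)) :=
  Algebra.adjoin _ {M | ∃ d y, R d y ∧ S.rho b y = M}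

/-- The numerically trivial elements of the algebra. -/
noncomputable def numRad (S : Lat K V ℓ) {m : ℕ} (b : Module.Basis (Fin m) K V)
    (R : ℤ → Module.End K V → Prop) (ϖ : Module.End K V) :
    Submodule (IsLocalRing.ResidueField S.O) (redAlg S b R) where
  carrier := {x | ∀ y : redAlg S b R, (S.rho b ϖ * (x.1 * y.1)).trace = 0}
  add_mem' := by
    intro x x' hx hx' y
    rw [Subalgebra.coe_add, add_mul, mul_add, Matrix.trace_add, hx y, hx' y, add_zero]
  zero_mem' := by
    intro y
    rw [ZeroMemClass.coe_zero, zero_mul, mul_zero, Matrix.trace_zero]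
  smul_mem' := by
    intro c x hx y
    rw [Subalgebra.coe_smul, smul_mul_assoc, mul_smul_comm, Matrix.trace_smul, hx y, smul_zero]

section

variable {S : Lat K V ℓ} {gr : ℕ → Submodule K V} {R : ℤ → Module.End K V → Prop}
  {ϖ : Module.End K V} {m : ℕ} {b : Module.Basis (Fin m) K V}

lemma rho_mem_redAlg {d : ℤ} {y : Module.End K V} (hy : R d y) : S.rho b y ∈ redAlg S b R :=
  Algebra.subset_adjoin ⟨d, y, hy, rfl⟩

lemma mem_redAlg_iff (hb : Submodule.span S.O (Set.range b) = S.T) (hR : OpDual S gr R ϖ)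
    (x : Matrix (Fin m) (Fin m) (IsLocalRing.ResidueField S.O)) :
    x ∈ redAlg S b R ↔ x ∈ Submodule.span (IsLocalRing.ResidueField S.O)
      {M | ∃ d y, R d y ∧ S.rho b y = M} := by
  let Msub : Submonoid (Matrix (Fin m) (Fin m) (IsLocalRing.ResidueField S.O)) :=
    { carrier := {M | ∃ d y, R d y ∧ S.rho b y = M}
      one_mem' := ⟨0, 1, hR.ring.one, Lat.rho_one hb⟩
      mul_mem' := by
        rintro _ _ ⟨d, y, hy, rfl⟩ ⟨e, z, hz, rfl⟩
        exact ⟨d + e, y * z, hR.ring.mul hy hz, Lat.rho_mul hb (hR.pres hy) (hR.pres hz)⟩ }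
  have h1 := Algebra.adjoin_eq_span (IsLocalRing.ResidueField S.O)
    (Msub : Set (Matrix (Fin m) (Fin m) (IsLocalRing.ResidueField S.O)))
  rw [Submonoid.closure_eq] at h1
  have hM : (Msub : Set (Matrix (Fin m) (Fin m) (IsLocalRing.ResidueField S.O))) =
      {M | ∃ d y, R d y ∧ S.rho b y = M} := rfl
  rw [hM] at h1
  rw [redAlg, ← h1, Subalgebra.mem_toSubmodule]

lemma rho_comm_redAlg (hb : Submodule.span S.O (Set.range b) = S.T) (hR : OpDual S gr R ϖ)
    {x : Matrix (Fin m) (Fin m) (IsLocalRing.ResidueField S.O)} (hx : x ∈ redAlg S b R) :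
    S.rho b ϖ * x = x * S.rho b ϖ := by
  rw [mem_redAlg_iff hb hR] at hx
  induction hx using Submodule.span_induction with
  | mem x hx =>
    obtain ⟨d, y, hy, rfl⟩ := hx
    rw [← Lat.rho_mul hb hR.presPi (hR.pres hy), hR.comm hy,
      Lat.rho_mul hb (hR.pres hy) hR.presPi]
  | zero => rw [mul_zero, zero_mul]
  | add x x' _ _ hx hx' => rw [mul_add, add_mul, hx, hx']
  | smul c x _ hx => rw [mul_smul_comm, smul_mul_assoc, hx]

lemma numRad_mul_right {x : redAlg S b R} (hx : x ∈ numRad S b R ϖ) (y : redAlg S b R) :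
    x * y ∈ numRad S b R ϖ := by
  intro z
  have := hx (y * z)
  rwa [Subalgebra.coe_mul, ← mul_assoc x.1] at this

lemma numRad_mul_left (hb : Submodule.span S.O (Set.range b) = S.T) (hR : OpDual S gr R ϖ)
    {x : redAlg S b R} (hx : x ∈ numRad S b R ϖ) (y : redAlg S b R) :
    y * x ∈ numRad S b R ϖ := by
  intro z
  have h1 := hx (z * y)
  have h2 : S.rho b ϖ * ((y * x : redAlg S b R).1 * z.1) = y.1 * (S.rho b ϖ * (x.1 * z.1)) := by
    rw [Subalgebra.coe_mul, mul_assoc y.1, ← mul_assoc, rho_comm_redAlg hb hR y.2, mul_assoc]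
  rw [h2, Matrix.trace_mul_comm, mul_assoc, mul_assoc]
  exact h1

/-- Membership in the radical can be tested on the operators of the ring. -/
lemma mem_numRad_iff (hb : Submodule.span S.O (Set.range b) = S.T) (hR : OpDual S gr R ϖ)
    {x : redAlg S b R} : x ∈ numRad S b R ϖ ↔
      ∀ d y, R d y → (S.rho b ϖ * (x.1 * S.rho b y)).trace = 0 := by
  constructor
  · intro hx d y hy
    exact hx ⟨_, rho_mem_redAlg hy⟩
  · rintro hx ⟨y, hy⟩
    change (S.rho b ϖ * (x.1 * y)).trace = 0
    rw [mem_redAlg_iff hb hR] at hy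
    induction hy using Submodule.span_induction with
    | mem y hy =>
      obtain ⟨d, y, hy, rfl⟩ := hy
      exact hx d y hy
    | zero => rw [mul_zero, mul_zero, Matrix.trace_zero]
    | add y y' _ _ hy hy' => rw [mul_add, mul_add, Matrix.trace_add, hy, hy', add_zero]
    | smul c y _ hy => rw [mul_smul_comm, mul_smul_comm, Matrix.trace_smul, hy, smul_zero]

end

section

variable [CharZero K] [Module.Finite K V] {S : Lat K V ℓ} {gr : ℕ → Submodule K V}
  {R : ℤ → Module.End K V → Prop} {m : ℕ} {b : Module.Basis (Fin m) K V}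

omit [CharZero K] [Module.Finite K V] in
lemma natCast_ne_zero (S : Lat K V ℓ) (hℓ : ℓ.Prime) {r : ℕ} (h0 : 0 < r) (hr : r < ℓ) :
    (r : IsLocalRing.ResidueField S.O) ≠ 0 := by
  have h1 : r.Coprime ℓ := (Nat.coprime_comm.1 ((hℓ.coprime_iff_not_dvd).2 fun h =>
    absurd (Nat.le_of_dvd h0 h) (by omega)))
  have h2 := S.nat_isUnit' h1
  intro h3
  rw [← map_natCast (IsLocalRing.residue S.O), IsLocalRing.residue_eq_zero_iff] at h3
  exact (IsLocalRing.mem_maximalIdeal _).1 h3 h2

/-- Numerically trivial operators of degree zero are nilpotent modulo the maximal ideal. -/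
lemma isNilpotent_of_numRad (h : DirectSum.IsInternal gr)
    (hb : Submodule.span S.O (Set.range b) = S.T) (hS : S.IsGraded gr) (hℓ : ℓ.Prime)
    {i : ℕ} (hi : Module.finrank K (gr i) < ℓ) {x : redAlg S b R}
    (hx : x ∈ numRad S b R (par h)) (hxi : S.rho b (proj h i) * x.1 = x.1)
    (hR : OpDual S gr R (par h)) : IsNilpotent x.1 := by
  have hP : ∀ i, S.Preserves (proj h i) := hS.proj_mem h
  have hsign : S.rho b (par h) * S.rho b (proj h i) =
      (-1 : IsLocalRing.ResidueField S.O) ^ i • S.rho b (proj h i) := by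
    rw [← Lat.rho_mul hb hR.presPi (hP i), par_mul_proj]
    have h1 : ((-1 : K) ^ i) = (((-1 : S.O) ^ i : S.O) : K) := by push_cast; rfl
    rw [h1, Lat.rho_smul hb (hP i), map_pow, map_neg, map_one]
  have htr : ∀ k : ℕ, (x.1 ^ (k + 1)).trace = 0 := by
    intro k
    have h1 := hx (x ^ k)
    have h2 : S.rho b (par h) * (x.1 * (x ^ k : redAlg S b R).1) =
        (-1 : IsLocalRing.ResidueField S.O) ^ i • x.1 ^ (k + 1) := by
      rw [SubmonoidClass.coe_pow, ← pow_succ']
      have h3 : x.1 ^ (k + 1) = S.rho b (proj h i) * x.1 ^ (k + 1) := by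
        rw [pow_succ', ← mul_assoc, hxi]
      rw [h3, ← mul_assoc, hsign, smul_mul_assoc]
    rw [h2, Matrix.trace_smul, smul_eq_zero] at h1
    rcases h1 with h1 | h1
    · exact absurd h1 (pow_ne_zero _ (by simp))
    · exact h1
  have hnil : IsNilpotent (Matrix.toLin' x.1) := by
    apply isNilpotent_of_trace
    · intro k
      have h1 : (Matrix.toLin' x.1) ^ (k + 1) = Matrix.toLin' (x.1 ^ (k + 1)) :=
        (Matrix.toLin'_pow _ _).symm
      rw [h1, Matrix.trace_toLin'_eq]
      exact htr k
    · intro r hr0 hr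
      apply natCast_ne_zero S hℓ hr0
      refine lt_of_le_of_lt (hr.trans ?_) hi
      have h1 : Module.finrank (IsLocalRing.ResidueField S.O) (LinearMap.range
          (Matrix.toLin' x.1)) ≤ Module.finrank (IsLocalRing.ResidueField S.O)
            (LinearMap.range (Matrix.toLin' (S.rho b (proj h i)))) := by
        apply Submodule.finrank_mono
        rintro _ ⟨v, rfl⟩
        rw [← hxi, Matrix.toLin'_mul]
        exact LinearMap.mem_range_self _ _
      refine h1.trans ((Lat.finrank_range_rho hb (hP i)).trans ?_)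
      rw [range_proj]
  obtain ⟨r, hr⟩ := hnil
  refine ⟨r, ?_⟩
  apply Matrix.toLin'.injective
  rw [Matrix.toLin'_pow, hr, map_zero]

end

end Pool.Agent.H838
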