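import Pool.Agent.H838.GoodDefs

/-!
# The weight cycle and multiplication by a divisor modulo a prime number: definitions
-/

open CategoryTheory AlgebraicGeometry

universe u v

namespace Pool.Agent.H838

open Pool.Agent.H914 Pool.Agent.H914.VarClass Pool.Agent.H914.VarClass.Obj

variable {k : Type u} [Field k] {𝒱 : VarClass k} {ops : CycleOps 𝒱}

/-- The cycle `h` on `X × X` induces the multiplication by `N (i - dim X)` on `H^i(X)`. -/
def InducesWeight (W : WeilCohomology.{u, v} ops) (X : 𝒱.Obj) (N : ℤ) (h : (X.prod X).Cycles) :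
    Prop :=
  ∀ i, ∀ s ∈ W.gr X i, cycOp W X h s = (N * ((i : ℤ) - X.dim)) • s

/-- The product of the cycle `y` on `X × X` with the divisor `X × D - D × X`. -/
noncomputable def diffMul (ops : CycleOps 𝒱) (X : 𝒱.Obj) (D : X.Cycles)
    (y : (X.prod X).Cycles) : (X.prod X).Cycles :=
  ops.mul (ops.pull (snd X X) D - ops.pull (fst X X) D) y

/-- Modulo `ℓ` and numerical equivalence the cycle `h` is a multiple of the divisor
`X × D - D × X`. -/
def DividesMod (ops : CycleOps 𝒱) (X : 𝒱.Obj) (D : X.Cycles) (h : (X.prod X).Cycles) (ℓ : ℕ) :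
    Prop :=
  ∃ f, IsIntegral (X.prod X) f ∧ (X.prod X).IsCyc (X.dim - 1) f ∧
    NumZeroMod ops ℓ X X.dim (diffMul ops X D f - h)

/-- The intersection number of `h` with `y` is divisible by `ℓ` for each integral cycle `y` of
codimension `dim X` on `X × X` whose product with the divisor `X × D - D × X` is numerically trivial
modulo `ℓ`. -/
def OrthogonalMod (ops : CycleOps 𝒱) (X : 𝒱.Obj) (D : X.Cycles) (h : (X.prod X).Cycles) (ℓ : ℕ) :
    Prop :=
  ∀ y, IsIntegral (X.prod X) y → (X.prod X).IsCyc X.dim y →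
    NumZeroMod ops ℓ X (X.dim + 1) (diffMul ops X D y) →
    ∃ m : ℤ, (X.prod X).V.degCycle (ops.mul h y) = ℓ * m

/-- The number `ℓ` is a prime number which does not divide `N` and is larger than `2 dim X` and than
the Betti numbers of `X` in the theory `W`, and there is an integral structure at `ℓ` in `H(X)` which
is good for the divisor `D`. -/
def IsLarge (W : WeilCohomology.{u, v} ops) (X : 𝒱.Obj) (D : X.Cycles) (N : ℤ) (ℓ : ℕ) : Prop :=
  ℓ.Prime ∧ ¬ (ℓ : ℤ) ∣ N ∧ 2 * X.dim < ℓ ∧ (∀ i, Module.finrank W.K (W.gr X i) < ℓ) ∧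
    ∃ S : IntegralStructure W X ℓ, S.IsGood D

/-- The operator `Λ` is induced by a cycle whose coefficients have denominators prime to `ℓ`. -/
def LambdaAt (W : WeilCohomology.{u, v} ops) (X : 𝒱.Obj) (D : X.Cycles) (ℓ : ℕ) : Prop :=
  ∃ z, IsIntegralAt ℓ (X.prod X) z ∧ (X.prod X).IsCyc (X.dim - 1) z ∧ InducesLambda W X D z

end Pool.Agent.H838
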