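import Pool.Agent.H838.NilLow
import Pool.Agent.H838.NumDefs
import Pool.Agent.H838.JanMain
import Pool.Graph.R_pool_sql_team_seeded_b677cdb8.E8helper99.SM.Cyc

/-!
# The Lefschetz standard conjecture and intersection numbers modulo one prime number
-/

open CategoryTheory AlgebraicGeometry Finset

universe u v

namespace Pool.Agent.H838

open Pool.Agent.H914 Pool.Agent.H914.VarClass Pool.Agent.H914.VarClass.Obj
  Pool.Agent.H914.WeilCohomology

/-! ### Duality modulo numerical equivalence -/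

section Dual

variable {K : Type*} [Field K] {V : Type*} [AddCommGroup V] [Module K V] {ℓ : ℕ}

/-- **Duality.** Let `β` be a bilinear form and `W` a subspace of `A` which contains all elements of
`A` orthogonal to `B`. An element `a` of `A` which is orthogonal to all elements of `B` orthogonal
to `W` lies in `W`. -/
theorem mem_of_orthogonal' {F : Type*} [Field F] {M : Type*} [AddCommGroup M] [Module F M]
    [Module.Finite F M] (β : M →ₗ[F] M →ₗ[F] F) {A B W : Submodule F M} (hWA : W ≤ A)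
    (hβ : ∀ x ∈ A, (∀ y ∈ B, β x y = 0) → x ∈ W) {a : M} (ha : a ∈ A)
    (h : ∀ y ∈ B, (∀ w ∈ W, β w y = 0) → β a y = 0) : a ∈ W := by
  by_contra hne
  obtain ⟨f, hfa, hfW⟩ := Submodule.exists_le_ker_of_notMem hne
  let g : A →ₗ[F] Module.Dual F B := (β.domRestrict₁₂ A B)
  have hmem : (f ∘ₗ A.subtype : Module.Dual F A) ∈ LinearMap.range g.dualMap := by
    rw [LinearMap.range_dualMap_eq_dualAnnihilator_ker, Submodule.mem_dualAnnihilator]
    rintro ⟨x, hx⟩ hxk
    apply hfW
    apply hβ x hx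
    intro y hy
    exact congrArg (fun φ : Module.Dual F B => φ ⟨y, hy⟩) (LinearMap.mem_ker.1 hxk)
  obtain ⟨Φ, hΦ⟩ := hmem
  obtain ⟨y, hy⟩ := (Module.evalEquiv F B).surjective Φ
  have key : ∀ x : A, f x = β x y := by
    intro x
    have h1 := congrArg (fun φ : Module.Dual F A => φ x) hΦ
    rw [← hy] at h1
    exact h1.symm
  apply hfa
  have h2 := key ⟨a, ha⟩
  change f a = β a y at h2
  rw [h2]
  apply h y y.2
  intro w hw
  have h3 := key ⟨w, hWA hw⟩
  change f w = β w y at h3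
  rw [← h3]
  exact hfW hw

/-- The operator `y` of degree `d` is numerically trivial modulo the maximal ideal. -/
def NumTriv (S : Lat K V ℓ) (R : ℤ → Module.End K V → Prop) (ϖ : Module.End K V) (d : ℤ)
    (y : Module.End K V) : Prop :=
  ∀ x, R (-d) x → ∃ r ∈ IsLocalRing.maximalIdeal S.O,
    ((r : S.O) : K) = LinearMap.trace K V (ϖ * (y * x))

variable [Module.Finite K V] {S : Lat K V ℓ} {gr : ℕ → Submodule K V}
  {R : ℤ → Module.End K V → Prop} {ϖ : Module.End K V}

/-- **Solving linear equations modulo numerical equivalence.** -/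
theorem OpDual.exists_preimage_num (hR : OpDual S gr R ϖ) (hres : S.HasPrimeResidueField) {d e : ℤ}
    (Ψ Ψ' : Module.End K V →+ Module.End K V)
    (hΨ : ∀ y, R e y → R d (Ψ y)) (hΨ' : ∀ y, R (-d) y → R (-e) (Ψ' y))
    (hadj : ∀ x y, R e x → R (-d) y →
      LinearMap.trace K V (ϖ * (Ψ x * y)) = LinearMap.trace K V (ϖ * (Ψ' y * x)))
    {t : Module.End K V} (ht : R d t)
    (hkey : ∀ y, R (-d) y → NumTriv S R ϖ (-e) (Ψ' y) → ∃ r ∈ IsLocalRing.maximalIdeal S.O,
      ((r : S.O) : K) = LinearMap.trace K V (ϖ * (t * y))) :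
    ∃ x, R e x ∧ NumTriv S R ϖ d (Ψ x - t) := by
  obtain ⟨m, b, hb⟩ := S.exists_basis
  have hint : ∀ (c : IsLocalRing.ResidueField S.O), ∃ m : ℤ, c = (m : IsLocalRing.ResidueField S.O) := by
    intro c
    obtain ⟨a, rfl⟩ := IsLocalRing.residue_surjective c
    obtain ⟨m, hm⟩ := hres a
    refine ⟨m, ?_⟩
    rw [← IsLocalRing.residue_eq_zero_iff, map_sub, sub_eq_zero, map_intCast] at hm
    exact hm
  have hrho : ∀ {y : Module.End K V} (hy : S.Preserves y) (m : ℤ),
      S.rho b (m • y) = (m : IsLocalRing.ResidueField S.O) • S.rho b y := by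
    intro y hy m
    have h1 : m • y = (((m : S.O) : K)) • y := by
      rw [show (((m : S.O)) : K) = (m : K) by push_cast; rfl, Int.cast_smul_eq_zsmul]
    rw [h1, Lat.rho_smul hb hy, map_intCast]
  -- the spaces of reductions
  let A : ℤ → Submodule (IsLocalRing.ResidueField S.O)
      (Matrix (Fin m) (Fin m) (IsLocalRing.ResidueField S.O)) := fun e =>
    { carrier := {M | ∃ y, R e y ∧ S.rho b y = M}
      add_mem' := by
        rintro _ _ ⟨y, hy, rfl⟩ ⟨z, hz, rfl⟩
        exact ⟨y + z, hR.ring.add hy hz, Lat.rho_add hb (hR.pres hy) (hR.pres hz)⟩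
      zero_mem' := ⟨0, hR.ring.zero e, Lat.rho_zero hb⟩
      smul_mem' := by
        rintro c _ ⟨y, hy, rfl⟩
        obtain ⟨m, rfl⟩ := hint c
        exact ⟨m • y, hR.ring.zsmul hy m, hrho (hR.pres hy) m⟩ }
  let Wd : Submodule (IsLocalRing.ResidueField S.O)
      (Matrix (Fin m) (Fin m) (IsLocalRing.ResidueField S.O)) :=
    { carrier := {M | ∃ y, R e y ∧ S.rho b (Ψ y) = M}
      add_mem' := by
        rintro _ _ ⟨y, hy, rfl⟩ ⟨z, hz, rfl⟩
        exact ⟨y + z, hR.ring.add hy hz, by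
          rw [map_add]; exact Lat.rho_add hb (hR.pres (hΨ y hy)) (hR.pres (hΨ z hz))⟩
      zero_mem' := ⟨0, hR.ring.zero _, by rw [map_zero]; exact Lat.rho_zero hb⟩
      smul_mem' := by
        rintro c _ ⟨y, hy, rfl⟩
        obtain ⟨m, rfl⟩ := hint c
        exact ⟨m • y, hR.ring.zsmul hy m, by
          rw [map_zsmul]; exact hrho (hR.pres (hΨ y hy)) m⟩ }
  let β : Matrix (Fin m) (Fin m) (IsLocalRing.ResidueField S.O) →ₗ[IsLocalRing.ResidueField S.O]
      Matrix (Fin m) (Fin m) (IsLocalRing.ResidueField S.O) →ₗ[IsLocalRing.ResidueField S.O]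
        IsLocalRing.ResidueField S.O :=
    LinearMap.mk₂ _ (fun x y => (S.rho b ϖ * (x * y)).trace)
      (fun x x' y => by rw [add_mul, mul_add, Matrix.trace_add])
      (fun c x y => by rw [smul_mul_assoc, mul_smul_comm, Matrix.trace_smul])
      (fun x y y' => by rw [mul_add, mul_add, Matrix.trace_add])
      (fun c x y => by rw [mul_smul_comm, mul_smul_comm, Matrix.trace_smul])
  have hβ : ∀ {x y : Module.End K V}, S.Preserves x → S.Preserves y →
      (β (S.rho b x) (S.rho b y) = 0 ↔ ∃ r ∈ IsLocalRing.maximalIdeal S.O,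
        ((r : S.O) : K) = LinearMap.trace K V (ϖ * (x * y))) := by
    intro x y hx hy
    change (S.rho b ϖ * (S.rho b x * S.rho b y)).trace = 0 ↔ _
    rw [← Lat.rho_mul hb hx hy, ← Lat.rho_mul hb hR.presPi (hx.mul hy)]
    exact Lat.trace_rho_eq_zero_iff hb (hR.presPi.mul (hx.mul hy))
  let Rad : Submodule (IsLocalRing.ResidueField S.O)
      (Matrix (Fin m) (Fin m) (IsLocalRing.ResidueField S.O)) :=
    { carrier := {M | M ∈ A d ∧ ∀ y ∈ A (-d), β M y = 0}
      add_mem' := by
        rintro x x' ⟨hx, h⟩ ⟨hx', h'⟩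
        exact ⟨(A d).add_mem hx hx', fun y hy => by
          rw [map_add, LinearMap.add_apply, h y hy, h' y hy, add_zero]⟩
      zero_mem' := ⟨(A d).zero_mem, fun y hy => by rw [map_zero, LinearMap.zero_apply]⟩
      smul_mem' := by
        rintro c x ⟨hx, h⟩
        exact ⟨(A d).smul_mem c hx, fun y hy => by
          rw [map_smul, LinearMap.smul_apply, h y hy, smul_zero]⟩ }
  have hmem : S.rho b t ∈ Wd ⊔ Rad := by
    refine mem_of_orthogonal' β (A := A d) (B := A (-d)) (W := Wd ⊔ Rad) ?_ ?_ ⟨t, ht, rfl⟩ ?_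
    · apply sup_le
      · rintro _ ⟨y, hy, rfl⟩
        exact ⟨Ψ y, hΨ y hy, rfl⟩
      · exact fun x hx => hx.1
    · intro x hx h
      exact Submodule.mem_sup_right ⟨hx, h⟩
    · rintro _ ⟨y, hy, rfl⟩ h
      rw [hβ (hR.pres ht) (hR.pres hy)]
      apply hkey y hy
      intro x hx
      rw [neg_neg] at hx
      obtain ⟨r, hr, hr'⟩ := (hβ (hR.pres (hΨ x hx)) (hR.pres hy)).1
        (h _ (Submodule.mem_sup_left ⟨x, hx, rfl⟩))
      exact ⟨r, hr, by rw [hr', hadj x y hx hy]⟩
  obtain ⟨_, ⟨x, hx, rfl⟩, a, ⟨-, ha⟩, hsum⟩ := Submodule.mem_sup.1 hmem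
  refine ⟨x, hx, ?_⟩
  intro y hy
  rw [← hβ ((hR.pres (hΨ x hx)).sub (hR.pres ht)) (hR.pres hy),
    Lat.rho_sub hb (hR.pres (hΨ x hx)) (hR.pres ht)]
  have h1 : S.rho b (Ψ x) - S.rho b t = -a := by rw [← hsum]; abel
  rw [h1, map_neg, LinearMap.neg_apply, ha _ ⟨y, hy, rfl⟩, neg_zero]

/-- The equation `[L, f] = w` modulo numerical equivalence. -/
theorem OpDual.exists_comm_num (hR : OpDual S gr R ϖ) (hres : S.HasPrimeResidueField)
    {L : Module.End K V} (hL : R 1 L) {w : Module.End K V} (hw : R 0 w)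
    (hkey : ∀ y, R 0 y → NumTriv S R ϖ 1 (L * y - y * L) → ∃ r ∈ IsLocalRing.maximalIdeal S.O,
      ((r : S.O) : K) = LinearMap.trace K V (ϖ * (w * y))) :
    ∃ f, R (-1) f ∧ NumTriv S R ϖ 0 (L * f - f * L - w) := by
  have hcyc : ∀ a b : Module.End K V,
      LinearMap.trace K V (a * b) = LinearMap.trace K V (b * a) := LinearMap.trace_mul_comm K
  refine hR.exists_preimage_num (d := 0) (e := -1) hres
    (AddMonoidHom.mulLeft L - AddMonoidHom.mulRight L)
    (AddMonoidHom.mulRight L - AddMonoidHom.mulLeft L) ?_ ?_ ?_ hw ?_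
  · intro y hy
    exact hR.ring.sub (hR.ring.cast (hR.ring.mul hL hy) (by ring))
      (hR.ring.cast (hR.ring.mul hy hL) (by ring))
  · intro y hy
    exact hR.ring.sub (hR.ring.cast (hR.ring.mul hy hL) (by ring))
      (hR.ring.cast (hR.ring.mul hL hy) (by ring))
  · intro x y hx hy
    change LinearMap.trace K V (ϖ * ((L * x - x * L) * y)) =
      LinearMap.trace K V (ϖ * ((y * L - L * y) * x))
    have e1 : ϖ * ((L * x - x * L) * y) = ϖ * (L * (x * y)) - ϖ * (x * (L * y)) := by
      noncomm_ring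
    have e2 : ϖ * ((y * L - L * y) * x) = ϖ * (y * (L * x)) - ϖ * ((L * y) * x) := by
      noncomm_ring
    have h1 : ∀ a b : Module.End K V, ϖ * a = a * ϖ →
        LinearMap.trace K V (ϖ * (a * b)) = LinearMap.trace K V (ϖ * (b * a)) := by
      intro a b ha
      calc LinearMap.trace K V (ϖ * (a * b)) = LinearMap.trace K V (a * (ϖ * b)) := by
            rw [← mul_assoc, ha, mul_assoc]
        _ = LinearMap.trace K V (ϖ * (b * a)) := by rw [hcyc, mul_assoc]
    have hPL : ϖ * L = L * ϖ := hR.comm hL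
    have hPx : ϖ * x = x * ϖ := hR.comm hx
    have hPLx : ϖ * (L * x) = L * x * ϖ := hR.comm (hR.ring.mul hL hx)
    rw [e1, e2, map_sub, map_sub, h1 x (L * y) hPx, ← mul_assoc L x y, h1 (L * x) y hPLx]
  · intro y hy h
    rw [neg_zero] at hy
    apply hkey y hy
    intro x hx
    obtain ⟨r, hr, hr'⟩ := h x hx
    refine ⟨-r, neg_mem hr, ?_⟩
    change ((r : S.O) : K) = LinearMap.trace K V (ϖ * ((y * L - L * y) * x)) at hr'
    have e1 : ϖ * ((L * y - y * L) * x) = -(ϖ * ((y * L - L * y) * x)) := by noncomm_ring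
    rw [e1, map_neg, ← hr']
    push_cast
    rfl

end Dual

/-! ### Lemmas on lattices and rings of operators -/

section Aux

variable {K : Type*} [Field K] {V : Type*} [AddCommGroup V] [Module K V] {ℓ : ℕ}

/-- The trace of an operator which is zero modulo the maximal ideal. -/
lemma trace_of_zeroMod [Module.Finite K V] {S : Lat K V ℓ} {F : Module.End K V}
    (hF : S.Preserves F) (h : S.IsZeroMod F) :
    ∃ r ∈ IsLocalRing.maximalIdeal S.O, ((r : S.O) : K) = LinearMap.trace K V F := by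
  obtain ⟨m, b, hb⟩ := S.exists_basis
  rw [← Lat.trace_rho_eq_zero_iff hb hF, (Lat.rho_eq_zero_iff hb hF).2 h]
  exact Matrix.trace_zero _ _

lemma OpRing.aeval_int {gr : ℕ → Submodule K V} {R : ℤ → Module.End K V → Prop}
    (hR : OpRing gr R) {y : Module.End K V} (hy : R 0 y) (p : Polynomial ℤ) :
    R 0 (Polynomial.aeval y p) := by
  induction p using Polynomial.induction_on' with
  | add p q hp hq => rw [map_add]; exact hR.add hp hq
  | monomial r c =>
    rw [Polynomial.aeval_monomial, eq_intCast, ← zsmul_one, smul_mul_assoc, one_mul]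
    exact hR.zsmul (hR.cast (hR.pow hy r) (by simp)) c

lemma aeval_apply_of {y : Module.End K V} {s : V} {c : ℤ} (h : y s = c • s)
    (p : Polynomial ℤ) : Polynomial.aeval y p s = p.eval c • s := by
  have hpow : ∀ r : ℕ, (y ^ r) s = c ^ r • s := by
    intro r
    induction r with
    | zero => simp
    | succ r ih => rw [pow_succ', Module.End.mul_apply, ih, map_zsmul, h, smul_smul, pow_succ]
  induction p using Polynomial.induction_on' with
  | add p q hp hq => rw [map_add, LinearMap.add_apply, hp, hq, Polynomial.eval_add, add_smul]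
  | monomial r a =>
    rw [Polynomial.aeval_monomial, eq_intCast, ← zsmul_one, smul_mul_assoc, one_mul,
      LinearMap.smul_apply, hpow, smul_smul, Polynomial.eval_monomial]

/-- The projectors modulo the maximal ideal, from the weight operator. -/
lemma exists_projMod [CharZero K] [Module.Finite K V] {S : Lat K V ℓ} {gr : ℕ → Submodule K V}
    {R : ℤ → Module.End K V → Prop} (h : DirectSum.IsInternal gr) {n : ℕ}
    (hbd : ∀ i, 2 * n + 1 ≤ i → gr i = ⊥) (hS : S.IsGraded gr) (hℓ : ℓ.Prime)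
    (hn : 2 * n < ℓ) (hR : OpRing gr R) {w : Module.End K V} (hw : R 0 w) {N : ℤ}
    (hN : ¬ (ℓ : ℤ) ∣ N) (hwt : ∀ i, ∀ s ∈ gr i, w s = (N * ((i : ℤ) - n)) • s) (i : ℕ) :
    ∃ y, R 0 y ∧ S.IsZeroMod (y - proj h i) := by
  by_cases hi : i < 2 * n + 1
  · obtain ⟨p, hp⟩ : ∃ p : Polynomial ℤ, p = ∏ j ∈ (range (2 * n + 1)).erase i,
        (Polynomial.X - Polynomial.C (N * ((j : ℤ) - n))) := ⟨_, rfl⟩
    obtain ⟨c, hc⟩ : ∃ c : ℤ, c = p.eval (N * ((i : ℤ) - n)) := ⟨_, rfl⟩
    have hcdiv : ¬ (ℓ : ℤ) ∣ c := by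
      rw [hc, hp, Polynomial.eval_prod]
      rw [Prime.dvd_finset_prod_iff (Nat.prime_iff_prime_int.1 hℓ)]
      rintro ⟨j, hj, hdvd⟩
      rw [mem_erase, mem_range] at hj
      rw [Polynomial.eval_sub, Polynomial.eval_X, Polynomial.eval_C, ← mul_sub] at hdvd
      rcases (Nat.prime_iff_prime_int.1 hℓ).dvd_or_dvd hdvd with h1 | h1
      · exact hN h1
      · have h2 : ((i : ℤ) - n - (j - n)) = i - j := by ring
        rw [h2] at h1
        have h3 := Int.eq_zero_of_abs_lt_dvd h1 (by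
          rw [abs_lt]
          constructor <;> omega)
        exact hj.1 (by omega)
    have hact : Polynomial.aeval w p = c • proj h i := by
      apply gr_ext h
      intro j s hs
      rw [aeval_apply_of (hwt j s hs), LinearMap.smul_apply]
      by_cases hji : j = i
      · subst hji
        rw [proj_same h hs, ← hc]
      · rw [proj_ne h hs hji, smul_zero]
        by_cases hj : j < 2 * n + 1
        · have h1 : p.eval (N * ((j : ℤ) - n)) = 0 := by
            rw [hp, Polynomial.eval_prod]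
            apply Finset.prod_eq_zero (mem_erase.2 ⟨hji, mem_range.2 hj⟩)
            rw [Polynomial.eval_sub, Polynomial.eval_X, Polynomial.eval_C, sub_self]
          rw [h1, zero_smul]
        · rw [hbd j (by omega)] at hs
          rw [(Submodule.mem_bot _).1 hs, smul_zero]
    have hcop : IsCoprime c (ℓ : ℤ) :=
      ((Nat.prime_iff_prime_int.1 hℓ).coprime_iff_not_dvd.2 hcdiv).symm
    obtain ⟨a, b, hab⟩ := hcop
    refine ⟨a • Polynomial.aeval w p, hR.zsmul (hR.aeval_int hw p) a, ?_⟩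
    have e1 : a • Polynomial.aeval w p - proj h i = (-(b * ℓ)) • proj h i := by
      rw [hact, smul_smul]
      have e2 : a * c = 1 - b * ℓ := by rw [← hab]; ring
      rw [e2, sub_smul, one_smul, neg_smul]
      abel
    rw [e1]
    intro t ht
    rw [LinearMap.smul_apply]
    exact Lat.memMax_zsmul_dvd (by
      rw [dvd_neg]
      exact dvd_mul_left _ _) (hS.proj_mem h i t ht)
  · refine ⟨0, hR.zero 0, ?_⟩
    have h3 : proj h i = 0 := by
      apply LinearMap.ext
      intro a
      have h4 := proj_mem h i a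
      rw [hbd i (by omega)] at h4
      exact (Submodule.mem_bot _).1 h4
    rw [h3, sub_zero]
    exact Lat.IsZeroMod.zero

end Aux

/-! ### Intersection numbers and traces -/

variable {k : Type u} [Field k] {𝒱 : VarClass k} {ops : CycleOps 𝒱}
  {W : WeilCohomology.{u, v} ops} {X Y : 𝒱.Obj} {ℓ : ℕ}

lemma tr_mul_cyc {p q : ℕ} {z w : (X.prod X).Cycles} (hpq : p + q = X.dim + X.dim)
    (hz : (X.prod X).IsCyc p z) (hw : (X.prod X).IsCyc q w) :
    W.tr (X.prod X) (W.cl _ z * W.cl _ w) = ((X.prod X).V.degCycle (ops.mul z w) : W.K) := by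
  have hdim : (X.prod X).dim = X.dim + X.dim := dim_prod X X
  have h2 := ops.mul_mem hz hw
  rw [show p + q = (X.prod X).dim by omega] at h2
  rw [← W.cl_mul, W.tr_cl h2]

/-- Intersection numbers as traces. -/
lemma trace_cyc {p q : ℕ} {z y : (X.prod X).Cycles} (hpq : p + q = X.dim + X.dim)
    (hz : (X.prod X).IsCyc p z) (hy : (X.prod X).IsCyc q y) :
    LinearMap.trace W.K (W.H X) (par (W.isInternal X) * (cycOp W X z * cycOp W X y)) =
      ((X.prod X).V.degCycle (ops.mul z (ops.pull (swap X X) y)) : W.K) := by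
  have e1 : LinearMap.trace W.K (W.H X) (par (W.isInternal X) * (cycOp W X z * cycOp W X y)) =
      W.tr (X.prod X) (W.cl _ z * W.map (swap X X) (W.cl _ y)) :=
    Pool.Agent.Y133.Half.trace_corr_corr _ _
  rw [e1, ← W.cl_pull, tr_mul_cyc hpq hz (ops.pull_mem _ hy)]

lemma cycOp_swap_swap (w : (X.prod X).Cycles) :
    cycOp W X (ops.pull (swap X X) (ops.pull (swap X X) w)) = cycOp W X w := by
  rw [cycOp, W.cl_pull, W.cl_pull, Pool.Agent.Y133.Half.swap_swap]
  rfl

lemma intCast_mem_max_iff (hℓ : ℓ.Prime) (S : Lat W.K (W.H X) ℓ) (m : ℤ) :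
    (∃ r ∈ IsLocalRing.maximalIdeal S.O, ((r : S.O) : W.K) = m) ↔ (ℓ : ℤ) ∣ m := by
  constructor
  · rintro ⟨r, hr, hr'⟩
    by_contra hdiv
    have hu := S.int_isUnit hℓ hdiv
    have h3 : (m : S.O) = r := by
      apply Subtype.ext
      rw [hr']
      push_cast
      rfl
    rw [h3] at hu
    exact (IsLocalRing.mem_maximalIdeal _).1 hr hu
  · rintro ⟨a, rfl⟩
    refine ⟨(ℓ : S.O) * (a : S.O), Ideal.mul_mem_right _ _ S.mem_max, ?_⟩
    push_cast
    rfl

/-- Numerical triviality modulo the prime in terms of traces. -/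
lemma numZeroMod_iff (hops : PreservesIntegral ops) (hℓ : ℓ.Prime) (S : IntegralStructure W X ℓ)
    {p : ℕ} (hp : p ≤ X.dim + X.dim) {z : (X.prod X).Cycles} (hz : IsIntegral (X.prod X) z)
    (hzc : (X.prod X).IsCyc p z) {d : ℤ} (hd : (p : ℤ) = X.dim + d) :
    NumZeroMod ops ℓ X p z ↔
      NumTriv S.lat (RZ W X) (par (W.isInternal X)) d (cycOp W X z) := by
  have hdim : (X.prod X).dim = X.dim + X.dim := dim_prod X X
  constructor
  · intro h y hy
    rcases hy with ⟨q, hq, w, ⟨hw, hwc⟩, rfl⟩ | ⟨hd', rfl⟩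
    · have hpq : p + q = X.dim + X.dim := by omega
      rw [trace_cyc hpq hzc hwc]
      obtain ⟨m, hm⟩ := h (ops.pull (swap X X) w) (hops.pull _ hw) (by
        have := ops.pull_mem (swap X X) hwc
        rwa [show q = (X.prod X).dim - p by omega] at this)
      rw [hm]
      have h1 := (intCast_mem_max_iff hℓ S.lat (ℓ * m)).2 (dvd_mul_right _ _)
      obtain ⟨r, hr, hr'⟩ := h1
      exact ⟨r, hr, by rw [hr']; push_cast; rfl⟩
    · exact ⟨0, Ideal.zero_mem _, by rw [mul_zero, mul_zero, map_zero]; rfl⟩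
  · intro h w hw hwc
    rw [show (X.prod X).dim - p = X.dim + X.dim - p by omega] at hwc
    have h1 := h (cycOp W X (ops.pull (swap X X) w))
      (Or.inl ⟨X.dim + X.dim - p, by omega, _, ⟨hops.pull _ hw, ops.pull_mem _ hwc⟩, rfl⟩)
    rw [trace_cyc (q := X.dim + X.dim - p) (by omega) hzc (ops.pull_mem _ hwc)] at h1
    have h2 : (((X.prod X).V.degCycle (ops.mul z (ops.pull (swap X X)
        (ops.pull (swap X X) w))) : ℚ) : W.K) = ((X.prod X).V.degCycle (ops.mul z w) : W.K) := by
      rw [← tr_mul_cyc (W := W) (q := X.dim + X.dim - p) (by omega) hzc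
        (ops.pull_mem _ (ops.pull_mem _ hwc)), W.cl_pull, W.cl_pull,
        Pool.Agent.Y133.Half.swap_swap, tr_mul_cyc (by omega) hzc hwc]
    obtain ⟨m, hm⟩ := degCycle_int (hops.mul hz hw)
    rw [h2, hm] at h1
    have h3 : (ℓ : ℤ) ∣ m := (intCast_mem_max_iff hℓ S.lat m).1 (by
      obtain ⟨r, hr, hr'⟩ := h1
      exact ⟨r, hr, by rw [hr']; push_cast; rfl⟩)
    obtain ⟨a, rfl⟩ := h3
    exact ⟨a, by rw [hm]; push_cast; rfl⟩

/-! ### The divisor `X × D - D × X` -/

lemma cycOp_diffMul {D : X.Cycles} (hD : X.IsCyc 1 D) (y : (X.prod X).Cycles) :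
    cycOp W X (diffMul ops X D y) = LinearMap.mulLeft W.K (W.cl X D) * cycOp W X y -
      cycOp W X y * LinearMap.mulLeft W.K (W.cl X D) := by
  rw [cycOp, diffMul, W.cl_mul]
  exact Pool.Agent.E8helper99.SM.corr_boxDiff hD _

lemma isCyc_diffMul {D : X.Cycles} (hD : X.IsCyc 1 D) {p : ℕ} {y : (X.prod X).Cycles}
    (hy : (X.prod X).IsCyc p y) : (X.prod X).IsCyc (p + 1) (diffMul ops X D y) := by
  have := ops.mul_mem (Pool.Agent.E8helper99.SM.isCyc_boxDiff (ops := ops) hD) hy
  rwa [add_comm] at this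

lemma IsIntegral.sub {z w : X.Cycles} (hz : IsIntegral X z) (hw : IsIntegral X w) :
    IsIntegral X (z - w) := by
  have h1 := hw.intSmul (-1)
  have h2 := hz.add h1
  have h3 : z + ((-1 : ℤ) : ℚ) • w = z - w := by
    push_cast
    rw [neg_smul, one_smul, sub_eq_add_neg]
  rwa [h3] at h2

lemma integral_diffMul (hops : PreservesIntegral ops) {D : X.Cycles} (hD : IsIntegral X D)
    {y : (X.prod X).Cycles} (hy : IsIntegral (X.prod X) y) :
    IsIntegral (X.prod X) (diffMul ops X D y) :=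
  hops.mul ((hops.pull _ hD).sub (hops.pull _ hD)) hy

end Pool.Agent.H838
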