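import Pool.Agent.H838.SemiMain
import Pool.Graph.R_seed8.TH122.KmC

/-!
# One degree and one prime number
-/

open CategoryTheory AlgebraicGeometry Finset Polynomial

universe u v

namespace Pool.Agent.H838

open Pool.Agent.H914 Pool.Agent.H914.VarClass Pool.Agent.H914.VarClass.Obj
  Pool.Agent.H914.WeilCohomology

variable {k : Type u} [Field k] {𝒱 : VarClass k} {ops : CycleOps 𝒱}
  {W : WeilCohomology.{u, v} ops} {X : 𝒱.Obj} {ℓ : ℕ}

/-! ### Operators given by one cycle for all theories -/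

/-- The operators of degree `2 d` given by one cycle with coefficients in the local ring at `ℓ`, for
all theories. -/
def RAll (ℓ : ℕ) (ops : CycleOps 𝒱) (X : 𝒱.Obj) (d : ℤ)
    (Y : ∀ W : WeilCohomology.{u, v} ops, Module.End W.K (W.H X)) : Prop :=
  (∃ q : ℕ, (q : ℤ) = X.dim + d ∧ ∃ z, IsIntegralAt ℓ (X.prod X) z ∧ (X.prod X).IsCyc q z ∧
    ∀ W : WeilCohomology.{u, v} ops, Y W = cycOp W X z) ∨
  ((X.dim : ℤ) + d < 0 ∧ ∀ W : WeilCohomology.{u, v} ops, Y W = 0)

namespace RAll

variable {d e : ℤ} {Y Y' : ∀ W : WeilCohomology.{u, v} ops, Module.End W.K (W.H X)}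

lemma cast (h : RAll ℓ ops X d Y) (hde : d = e) : RAll ℓ ops X e Y := hde ▸ h

lemma congr (h : RAll ℓ ops X d Y) (h' : ∀ W, Y' W = Y W) : RAll ℓ ops X d Y' := by
  have : Y' = Y := funext h'
  rw [this]; exact h

lemma rint (h : RAll ℓ ops X d Y) (W : WeilCohomology.{u, v} ops) : RInt ℓ W X d (Y W) := by
  rcases h with ⟨q, hq, z, hz, hzc, h⟩ | ⟨hd, h⟩
  · exact Or.inl ⟨q, hq, z, hz, hzc, h W⟩
  · exact Or.inr ⟨hd, h W⟩

lemma mulLeft (hops : PreservesIntegral ops) (hℓ : ℓ.Prime) {p : ℕ} {D : X.Cycles}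
    (hD : X.IsCyc p D) (hDint : IsIntegral X D) :
    RAll ℓ ops X p (fun W => LinearMap.mulLeft W.K (W.cl X D)) := by
  refine Or.inl ⟨X.dim + p, by push_cast; ring, ops.push (diag X) D,
    (hops.push _ hDint).at hℓ, ops.push_mem _ hD (by simp only [dim_prod]; omega), fun W => ?_⟩
  apply LinearMap.ext
  intro a
  rw [cycOp, W.cl_push, corr_diag, LinearMap.mulLeft_apply]

lemma one (hops : PreservesIntegral ops) (hℓ : ℓ.Prime) :
    RAll ℓ ops X 0 (fun W : WeilCohomology.{u, v} ops => (1 : Module.End W.K (W.H X))) := by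
  have h := mulLeft.{u, v} (ops := ops) hops hℓ X.V.fundCycle_mem (isIntegral_fund X)
  have h' := h.congr (Y' := fun W : WeilCohomology.{u, v} ops => (1 : Module.End W.K (W.H X)))
    fun W => by
    apply LinearMap.ext
    intro a
    rw [LinearMap.mulLeft_apply, W.cl_fund, one_mul, Module.End.one_apply]
  simpa using h'

lemma zero (hℓ : ℓ.Prime) (d : ℤ) :
    RAll ℓ ops X d (fun W : WeilCohomology.{u, v} ops => (0 : Module.End W.K (W.H X))) := by
  by_cases hd : (X.dim : ℤ) + d < 0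
  · exact Or.inr ⟨hd, fun _ => rfl⟩
  · exact Or.inl ⟨(X.dim + d).toNat, by omega, 0, isIntegralAt_zero hℓ, SmVar.IsCyc.zero _ _,
      fun _ => cycOp_zero.symm⟩

lemma add (hℓ : ℓ.Prime) (h : RAll ℓ ops X d Y) (h' : RAll ℓ ops X d Y') :
    RAll ℓ ops X d (fun W => Y W + Y' W) := by
  rcases h with ⟨q, hq, z, hz, hzc, h⟩ | ⟨hd, h⟩
  · rcases h' with ⟨q', hq', z', hz', hzc', h'⟩ | ⟨hd', h'⟩
    · obtain rfl : q = q' := by omega
      exact Or.inl ⟨q, hq, z + z', hz.add hℓ hz', hzc.add hzc', fun W => by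
        beta_reduce; rw [h, h', cycOp_add]⟩
    · omega
  · rcases h' with ⟨q', hq', z', hz', hzc', h'⟩ | ⟨hd', h'⟩
    · omega
    · exact Or.inr ⟨hd, fun W => by beta_reduce; rw [h, h', add_zero]⟩

lemma smul (hℓ : ℓ.Prime) (h : RAll ℓ ops X d Y) {q : ℚ} (hq : ¬ ℓ ∣ q.den) :
    RAll ℓ ops X d (fun W => (q : W.K) • Y W) := by
  rcases h with ⟨p, hp, z, hz, hzc, h⟩ | ⟨hd, h⟩
  · exact Or.inl ⟨p, hp, q • z, hz.smul hℓ hq, hzc.smul q, fun W => by
      beta_reduce; rw [h, cycOp_smul]⟩
  · exact Or.inr ⟨hd, fun W => by beta_reduce; rw [h, smul_zero]⟩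

lemma sum (hℓ : ℓ.Prime) {ι : Type*} (s : Finset ι)
    {Z : ι → ∀ W : WeilCohomology.{u, v} ops, Module.End W.K (W.H X)}
    (h : ∀ i ∈ s, RAll ℓ ops X d (Z i)) : RAll ℓ ops X d (fun W => ∑ i ∈ s, Z i W) := by
  classical
  induction s using Finset.induction_on with
  | empty => simpa using zero hℓ d
  | insert a s ha ih =>
    have h1 := (h a (Finset.mem_insert_self _ _)).add hℓ
      (ih fun i hi => h i (Finset.mem_insert_of_mem hi))
    exact h1.congr fun W => Finset.sum_insert ha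

lemma mul (hops : PreservesIntegral ops) (hℓ : ℓ.Prime) (h : RAll ℓ ops X d Y)
    (h' : RAll ℓ ops X e Y') : RAll ℓ ops X (d + e) (fun W => Y W * Y' W) := by
  by_cases hde : (X.dim : ℤ) + (d + e) < 0
  · refine Or.inr ⟨hde, fun W => ?_⟩
    exact eq_zero_of_isHom (W.isInternal X) (W.gr_eq_bot X) (by omega)
      ((rop_opAlg.hom (h.rint W).rop).mul (rop_opAlg.hom (h'.rint W).rop))
  · rcases h with ⟨q, hq, z, hz, hzc, h⟩ | ⟨hd, h⟩
    · rcases h' with ⟨q', hq', z', hz', hzc', h'⟩ | ⟨hd', h'⟩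
      · obtain ⟨N, hN, hNz⟩ := hz.exists_denominator hℓ
        obtain ⟨M, hM, hMz⟩ := hz'.exists_denominator hℓ
        have hN0 : (N : ℚ) ≠ 0 := by
          intro h; apply hN; rw [Nat.cast_eq_zero] at h; rw [h]; exact dvd_zero _
        have hM0 : (M : ℚ) ≠ 0 := by
          intro h; apply hM; rw [Nat.cast_eq_zero] at h; rw [h]; exact dvd_zero _
        refine Or.inl ⟨(X.dim + (d + e)).toNat, by omega,
          ((N : ℚ)⁻¹ * (M : ℚ)⁻¹) • compCyc ops ((M : ℚ) • z') ((N : ℚ) • z), ?_, ?_, ?_⟩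
        · exact ((compCyc_integral hops hMz hNz).at hℓ).smul hℓ
            (den_mul hℓ (den_inv_nat hN) (den_inv_nat hM))
        · exact (compCyc_mem (hzc'.smul _) (hzc.smul _) (by omega)).smul _
        · intro W
          beta_reduce
          rw [h, h']
          have e3 : cycOp W X (compCyc ops ((M : ℚ) • z') ((N : ℚ) • z)) =
              W.corr (W.cl _ ((N : ℚ) • z)) ∘ₗ W.corr (W.cl _ ((M : ℚ) • z')) :=
            corr_compCyc W (hzc.smul _)
          rw [cycOp_smul, e3]
          have e1 : W.corr (W.cl (X.prod X) ((N : ℚ) • z)) = (((N : ℚ)) : W.K) • cycOp W X z :=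
            cycOp_smul _ _
          have e2 : W.corr (W.cl (X.prod X) ((M : ℚ) • z')) =
            (((M : ℚ)) : W.K) • cycOp W X z' := cycOp_smul _ _
          rw [e1, e2]
          have hN0' : ((N : ℚ) : W.K) ≠ 0 := by exact_mod_cast hN0
          have hM0' : ((M : ℚ) : W.K) ≠ 0 := by exact_mod_cast hM0
          rw [LinearMap.smul_comp, LinearMap.comp_smul, smul_smul, smul_smul]
          push_cast at hN0' hM0' ⊢
          have : ((N : W.K)⁻¹ * (M : W.K)⁻¹ * ((N : W.K) * (M : W.K))) = 1 := by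
            field_simp
          rw [← mul_assoc] at this
          rw [this, one_smul]
          rfl
      · exact Or.inl ⟨(X.dim + (d + e)).toNat, by omega, 0, isIntegralAt_zero hℓ,
          SmVar.IsCyc.zero _ _, fun W => by
            beta_reduce; rw [h', mul_zero, cycOp_zero]⟩
    · exact Or.inl ⟨(X.dim + (d + e)).toNat, by omega, 0, isIntegralAt_zero hℓ,
        SmVar.IsCyc.zero _ _, fun W => by
          beta_reduce; rw [h, zero_mul, cycOp_zero]⟩

lemma pow (hops : PreservesIntegral ops) (hℓ : ℓ.Prime) (h : RAll ℓ ops X d Y) (m : ℕ) :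
    RAll ℓ ops X (m * d) (fun W => Y W ^ m) := by
  induction m with
  | zero => simpa using one.{u, v} (ops := ops) (X := X) hops hℓ
  | succ m ih =>
    exact ((ih.mul hops hℓ h).cast (by push_cast; ring)).congr fun W => pow_succ _ _

lemma ev (hops : PreservesIntegral ops) (hℓ : ℓ.Prime) (h : RAll ℓ ops X 0 Y) (f : ℚ[X])
    (hf : ∀ i, ¬ ℓ ∣ (f.coeff i).den) : RAll ℓ ops X 0 (fun W => H914.ev (Y W) f) := by
  have h1 : ∀ W : WeilCohomology.{u, v} ops, H914.ev (Y W) f =
      ∑ i ∈ range (f.natDegree + 1), ((f.coeff i : ℚ) : W.K) • Y W ^ i := by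
    intro W
    conv_lhs => rw [f.as_sum_range_C_mul_X_pow]
    rw [map_sum]
    apply Finset.sum_congr rfl
    intro i _
    rw [map_mul, map_pow, ev_C, ev_X, smul_mul_assoc, one_mul]
  refine (sum hℓ (range (f.natDegree + 1)) fun i _ => ?_).congr h1
  exact ((h.pow hops hℓ i).cast (by simp)).smul hℓ (hf i)

end RAll

/-! ### Polynomials with coefficients in the local ring -/

/-- The local ring at the prime number `ℓ`. -/
def locRing (ℓ : ℕ) (hℓ : ℓ.Prime) : Subring ℚ where
  carrier := {q | ¬ ℓ ∣ q.den}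
  mul_mem' h h' := den_mul hℓ h h'
  one_mem' := by
    change ¬ ℓ ∣ (1 : ℚ).den
    rw [Rat.den_one, Nat.dvd_one]; exact hℓ.one_lt.ne'
  add_mem' h h' := den_add hℓ h h'
  zero_mem' := by
    change ¬ ℓ ∣ (0 : ℚ).den
    rw [Rat.den_zero, Nat.dvd_one]; exact hℓ.one_lt.ne'
  neg_mem' := by
    intro q hq
    change ¬ ℓ ∣ (-q).den
    rw [Rat.den_neg_eq_den]; exact hq

lemma mem_liftsRing_iff (hℓ : ℓ.Prime) (f : ℚ[X]) :
    f ∈ Polynomial.liftsRing (locRing ℓ hℓ).subtype ↔ ∀ i, ¬ ℓ ∣ (f.coeff i).den := by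
  constructor
  · intro h i
    have h1 := (Polynomial.lifts_iff_coeff_lifts _).1 h i
    obtain ⟨x, hx⟩ := h1
    rw [← hx]
    exact x.2
  · intro h
    exact (Polynomial.lifts_iff_coeff_lifts _).2 fun i => ⟨⟨f.coeff i, h i⟩, rfl⟩

/-! ### The main step in one degree -/

lemma lefschetz_injMod' {D : X.Cycles} (hD : X.IsCyc 1 D)
    (S : IntegralStructure W X ℓ) (hS : S.lat.IsGraded (W.gr X)) {c : ℕ} (hc : c ≤ X.dim)
    (hinj : ∀ a ∈ W.gr X (X.dim - c), lefPow W X D c a = 0 → a = 0)
    (hL : S.LefschetzMod D c) {s : W.H X} (hs : s ∈ W.gr X (X.dim - c))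
    (h0 : S.lat.MemMax (lefPow W X D c s)) : S.lat.MemMax s := by
  have hLs : lefPow W X D c s ∈ W.gr X (X.dim + c) := lefPow_mem hD hc hs
  have key : ∀ t, S.lat.MemMax t → ∃ r, S.lat.MemMax r ∧ r ∈ W.gr X (X.dim - c) ∧
      lefPow W X D c r = proj (W.isInternal X) (X.dim + c) t := by
    intro t ht
    unfold Lat.MemMax at ht
    induction ht using Submodule.smul_induction_on' with
    | smul a ha n hn =>
      obtain ⟨r, hr, hrgr, hrL⟩ := hL _ (hS.proj_mem (W.isInternal X) (X.dim + c) n hn)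
        (H914.proj_mem _ _ _)
      refine ⟨(a : W.K) • r, Submodule.smul_mem_smul ha hr, Submodule.smul_mem _ _ hrgr, ?_⟩
      rw [map_smul, hrL]
      exact ((proj (W.isInternal X) (X.dim + c)).map_smul (a : W.K) n).symm
    | add x _ y _ hx hy =>
      obtain ⟨r, hr, hrgr, hrL⟩ := hx
      obtain ⟨r', hr', hrgr', hrL'⟩ := hy
      exact ⟨r + r', Submodule.add_mem _ hr hr', Submodule.add_mem _ hrgr hrgr', by
        rw [map_add, hrL, hrL', map_add]⟩
  obtain ⟨r, hr, hrgr, hrL⟩ := key _ h0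
  rw [proj_same _ hLs] at hrL
  have h2 : s = r := by
    rw [← sub_eq_zero]
    apply hinj (s - r) (Submodule.sub_mem _ hs hrgr)
    rw [map_sub, hrL, sub_self]
  rw [h2]
  exact hr

open Pool.Agent.TH122.Km in
/-- A correspondence which is injective modulo the maximal ideal can be corrected to an inverse of
the Lefschetz isomorphism in one degree, for all theories with the same traces. -/
lemma exists_all (hops : PreservesIntegral ops) (hℓ : ℓ.Prime) {D : X.Cycles}
    (hD : X.IsCyc 1 D) (hDint : IsIntegral X D)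
    {𝒲 : Set (WeilCohomology.{u, v} ops)} {c : ℕ} (hc : c ≤ X.dim)
    (h𝒲 : SameTraces 𝒲 X (X.dim - c)) (hW : W ∈ 𝒲)
    (S : IntegralStructure W X ℓ) (hS : S.lat.IsGraded (W.gr X))
    (hinjL : ∀ a ∈ W.gr X (X.dim - c), lefPow W X D c a = 0 → a = 0)
    (hL : S.LefschetzMod D c)
    {z : (X.prod X).Cycles} (hz : IsIntegral _ z) (hzc : (X.prod X).IsCyc (X.dim - c) z)
    (hinj : S.InjectiveMod (X.dim + c) z) :
    ∃ w, IsIntegralAt ℓ (X.prod X) w ∧ (X.prod X).IsCyc (X.dim - c) w ∧
      ∀ W' ∈ 𝒲, ∀ a ∈ W'.gr X (X.dim - c), cycOp W' X w (lefPow W' X D c a) = a := by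
  classical
  -- the operators `u W` of degree zero
  obtain ⟨u, hu⟩ : ∃ u : ∀ W : WeilCohomology.{u, v} ops, Module.End W.K (W.H X),
    u = fun W => cycOp W X z * LinearMap.mulLeft W.K (W.cl X D) ^ c := ⟨_, rfl⟩
  have hLR : RAll ℓ ops X 1 (fun W : WeilCohomology.{u, v} ops =>
      LinearMap.mulLeft W.K (W.cl X D)) := by
    have := RAll.mulLeft.{u, v} (ops := ops) hops hℓ hD hDint
    simpa using this
  have hzR : RAll ℓ ops X (-c) (fun W : WeilCohomology.{u, v} ops => cycOp W X z) :=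
    Or.inl ⟨X.dim - c, by omega, z, hz.at hℓ, hzc, fun _ => rfl⟩
  have huR : RAll ℓ ops X 0 u := by
    rw [hu]
    exact (hzR.mul hops hℓ (hLR.pow hops hℓ c)).cast (by ring)
  have huhom : ∀ W : WeilCohomology.{u, v} ops, ∀ i, ∀ a ∈ W.gr X i, u W a ∈ W.gr X i := by
    intro W i a ha
    have h1 := rop_opAlg.hom (huR.rint W).rop i a (by rw [grZ_natCast]; exact ha)
    rw [mul_zero, add_zero, grZ_natCast] at h1
    exact h1
  have hcommW : ∀ W : WeilCohomology.{u, v} ops,
      Commute (proj (W.isInternal X) (X.dim - c)) (u W) := by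
    intro W
    have h1 : IsHom (W.gr X) 0 (u W) := by
      simpa using rop_opAlg.hom (huR.rint W).rop
    exact h1.proj_comm (W.isInternal X) _
  -- the traces
  have hcyc : ∀ r : ℕ, ∃ y, (X.prod X).IsCyc X.dim y ∧ ∀ W : WeilCohomology.{u, v} ops,
      u W ^ r = cycOp W X y := by
    intro r
    obtain ⟨q, hq, y, -, hy, hyW⟩ | ⟨hd, _⟩ := (huR.pow hops hℓ r).cast (mul_zero (r : ℤ))
    · obtain rfl : q = X.dim := by omega
      exact ⟨y, hy, hyW⟩
    · omega
  choose y hy hyW using hcyc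
  choose q hq using fun r => h𝒲 (y r) (hy r)
  have hproj : ∀ W' : WeilCohomology.{u, v} ops,
      IsProjector (W'.gr X) (X.dim - c) (proj (W'.isInternal X) (X.dim - c)) := by
    intro W' j a ha
    split_ifs with hj
    · subst hj; exact proj_same _ ha
    · exact proj_ne _ ha hj
  have htrW : ∀ W' ∈ 𝒲, ∀ r, LinearMap.trace W'.K (W'.H X)
      (proj (W'.isInternal X) (X.dim - c) * u W' ^ r) = (q r : W'.K) := by
    intro W' hW' r
    rw [hyW, LinearMap.trace_mul_comm]
    exact hq r W' hW' _ (hproj W')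
  have hb : ∀ W' ∈ 𝒲, Module.finrank W'.K (W'.gr X (X.dim - c)) =
      Module.finrank W.K (W.gr X (X.dim - c)) := by
    intro W' hW'
    have e1 := htrW W' hW' 0
    have e2 := htrW W hW 0
    rw [pow_zero, mul_one, trace_proj] at e1 e2
    have e3 : ((Module.finrank W.K (W.gr X (X.dim - c)) : ℕ) : ℚ) = q 0 := by exact_mod_cast e2
    have e4 : ((Module.finrank W'.K (W'.gr X (X.dim - c)) : ℕ) : ℚ) = q 0 := by
      exact_mod_cast e1
    rw [← e3] at e4
    exact_mod_cast e4
  -- the operator `E`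
  set h := W.isInternal X with hh
  obtain ⟨P, hPdef⟩ : ∃ P : Module.End W.K (W.H X), P = proj h (X.dim - c) := ⟨_, rfl⟩
  obtain ⟨E, hE⟩ : ∃ E : Module.End W.K (W.H X), E = u W * P + (1 - P) := ⟨_, rfl⟩
  have hcomm : u W * P = P * u W := by rw [hPdef]; exact (hcommW W).symm
  have hPP : P * P = P := by rw [hPdef, proj_mul_proj]
  have hPT : S.lat.Preserves P := by rw [hPdef]; exact hS.proj_mem h _
  have hLT : S.lat.Preserves (LinearMap.mulLeft W.K (W.cl X D) ^ c) := by
    intro t ht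
    have := S.mulPow_mem hDint c ht
    rwa [← mulLeft_pow_apply] at this
  have hzT : S.lat.Preserves (cycOp W X z) := S.corr_mem z hz
  have huT : S.lat.Preserves (u W) := by rw [hu]; exact fun t ht => hzT _ (hLT t ht)
  have hET : S.lat.Preserves E := by
    intro t ht
    rw [hE, LinearMap.add_apply, LinearMap.sub_apply, Module.End.mul_apply, Module.End.one_apply]
    exact Submodule.add_mem _ (huT _ (hPT t ht)) (Submodule.sub_mem _ ht (hPT t ht))
  have hEinj : ∀ t ∈ S.lat.T, S.lat.MemMax (E t) → S.lat.MemMax t := by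
    intro t ht h0
    have hPE : P (E t) = u W (P t) := by
      have e : P * E = u W * P := by rw [hE]; exact cut_mul hPP hcomm
      have := congrArg (fun F => F t) e
      simpa [Module.End.mul_apply] using this
    have hQE : E t - P (E t) = t - P t := by
      rw [hPE, hE, LinearMap.add_apply, LinearMap.sub_apply, Module.End.mul_apply,
        Module.End.one_apply]
      abel
    have h1 : S.lat.MemMax (u W (P t)) := by rw [← hPE]; exact hPT.memMax h0
    have h2 : S.lat.MemMax (t - P t) := by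
      rw [← hQE]; exact Submodule.sub_mem _ h0 (hPT.memMax h0)
    have hPt : P t ∈ W.gr X (X.dim - c) := by rw [hPdef]; exact H914.proj_mem h _ t
    have h3 : S.lat.MemMax (P t) := by
      apply lefschetz_injMod' hD S hS hc hinjL hL hPt
      have h4 : lefPow W X D c (P t) ∈ W.gr X (X.dim + c) := lefPow_mem hD hc hPt
      have h5 : u W (P t) = cycOp W X z (lefPow W X D c (P t)) := by
        rw [hu, lefPow_eq, Module.End.mul_apply]
      rw [h5] at h1
      rw [lefPow_eq] at h1 h4 ⊢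
      exact hinj _ (hLT _ (hPT t ht)) h4 h1
    have h4 : t = P t + (t - P t) := by abel
    rw [h4]
    exact Submodule.add_mem _ h3 h2
  have htr : ∀ r : ℕ, ∃ q : ℚ, LinearMap.trace W.K (W.H X) (E ^ r) = q := by
    intro r
    refine ⟨q r + Module.finrank W.K (W.H X) - q 0, ?_⟩
    have h1 := htrW W hW r
    have h2 := htrW W hW 0
    rw [pow_zero, mul_one] at h2
    rw [hE, cut_pow hPP hcomm r, map_add, map_sub, LinearMap.trace_one, hPdef, h1, h2]
    push_cast
    ring
  obtain ⟨g, hgO, hg⟩ := exists_local_inverse S.lat hET hEinj htr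
  have hgloc : g ∈ Polynomial.liftsRing (locRing ℓ hℓ).subtype :=
    (mem_liftsRing_iff hℓ g).2 fun i => S.lat.not_dvd_den (hgO i)
  -- `1 - t g(t)` vanishes at `u W` on the graded piece
  have hEu : ∀ x ∈ W.gr X (X.dim - c), E x = u W x := by
    intro x hx
    rw [hE, LinearMap.add_apply, LinearMap.sub_apply, Module.End.mul_apply,
      Module.End.one_apply, hPdef, proj_same h hx, sub_self, add_zero]
  have hgu : ∀ a ∈ W.gr X (X.dim - c), H914.ev (u W) g (u W a) = a := by
    intro a ha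
    have h1 := hg a
    rwa [hEu a ha, ev_eq_on (huhom W _) hEu g _ (huhom W _ a ha)] at h1
  set p : ℚ[X] := 1 - g * Polynomial.X with hp
  have hpu : ∀ a ∈ W.gr X (X.dim - c), H914.ev (u W) p a = 0 := by
    intro a ha
    rw [hp, map_sub, map_one, map_mul, ev_X, LinearMap.sub_apply, Module.End.one_apply,
      Module.End.mul_apply, hgu a ha, sub_self]
  have htau : ∀ r : ℚ[X], tau q (p * r) = 0 := by
    intro r
    have h1 := trace_ev (htrW W hW) (p * r)
    have hcomm' : ∀ f : ℚ[X], Commute (proj (W.isInternal X) (X.dim - c))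
        (H914.ev (u W) f) := by
      intro f
      induction f using Polynomial.induction_on' with
      | add p p' hp hp' => rw [map_add]; exact hp.add_right hp'
      | monomial a c => rw [ev_monomial]; exact ((hcommW W).pow_right a).smul_right _
    have h2 : proj (W.isInternal X) (X.dim - c) * H914.ev (u W) (p * r) = 0 := by
      apply LinearMap.ext
      intro x
      rw [map_mul, ← mul_assoc, (hcomm' p).eq, mul_assoc, (hcomm' r).eq, Module.End.mul_apply,
        Module.End.mul_apply, LinearMap.zero_apply]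
      have h3 : H914.ev (u W) r (proj (W.isInternal X) (X.dim - c) x) ∈ W.gr X (X.dim - c) := by
        have h4 := congrArg (fun F => F x) (hcomm' r).eq
        simp only [Module.End.mul_apply] at h4
        rw [← h4]
        exact H914.proj_mem _ _ _
      exact hpu _ h3
    rw [h2, map_zero] at h1
    exact_mod_cast h1.symm
  obtain ⟨M, hM⟩ : ∃ M, M = Module.finrank W.K (W.gr X (X.dim - c)) := ⟨_, rfl⟩
  -- the polynomial `g'` with `1 - t g' = p ^ M`
  set f : ℚ[X] := 1 - p ^ M with hf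
  have hploc : p ∈ Polynomial.liftsRing (locRing ℓ hℓ).subtype := by
    rw [hp]
    refine sub_mem (one_mem _) (mul_mem hgloc ?_)
    exact Polynomial.X_mem_lifts (locRing ℓ hℓ).subtype
  have hfloc : f ∈ Polynomial.liftsRing (locRing ℓ hℓ).subtype :=
    sub_mem (one_mem _) (pow_mem hploc M)
  have hf0 : f.coeff 0 = 0 := by
    rw [hf, Polynomial.coeff_sub, Polynomial.coeff_zero_eq_eval_zero (p ^ M),
      Polynomial.eval_pow, hp]
    simp
  have hfX : f.divX * Polynomial.X = f := by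
    have := Polynomial.divX_mul_X_add f
    rwa [hf0, Polynomial.C_0, add_zero] at this
  have hdloc : ∀ i, ¬ ℓ ∣ (f.divX.coeff i).den := by
    intro i
    rw [Polynomial.coeff_divX]
    exact (mem_liftsRing_iff hℓ f).1 hfloc _
  obtain ⟨q', hq', w, hw, hwc, hwW⟩ | ⟨hd, _⟩ := ((huR.ev hops hℓ f.divX hdloc).mul hops hℓ
    hzR).cast (zero_add (-(c : ℤ)))
  · obtain rfl : q' = X.dim - c := by omega
    refine ⟨w, hw, hwc, fun W' hW' a ha => ?_⟩
    rw [← hwW W']
    have h2 := kill (W'.isInternal X) (hcommW W') (htrW W' hW') htau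
      (M := M) (by rw [hM]; exact (hb W' hW').le) a ha
    have h3 : H914.ev (u W') f.divX (u W' a) = a := by
      have h4 : H914.ev (u W') f a = a := by
        rw [hf, map_sub, map_one, map_pow, LinearMap.sub_apply, h2, sub_zero,
          Module.End.one_apply]
      rw [← hfX, map_mul, ev_X, Module.End.mul_apply] at h4
      exact h4
    rw [hu] at h3
    rw [Module.End.mul_apply, lefPow_eq, hu]
    exact h3
  · omega

end Pool.Agent.H838
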