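import Pool.Graph.R_seed8.H914R2.KDefs2

/-!
# Integral structures in Weil cohomology: definitions
-/

open CategoryTheory AlgebraicGeometry

universe u v

namespace Pool.Agent.H838

section Linear

/-- A lattice in the vector space `V` over `K` at the number `ℓ`: a valuation ring `O` of `K` whose
maximal ideal contains `ℓ`, and a finitely generated `O`-submodule `T` of `V` which spans `V` over
`K`. -/
structure Lat (K : Type*) [Field K] (V : Type*) [AddCommGroup V] [Module K V] (ℓ : ℕ) where
  /-- the valuation ring -/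
  O : ValuationSubring K
  /-- the lattice -/
  T : Submodule O V
  mem_max : (ℓ : O) ∈ IsLocalRing.maximalIdeal O
  fg : T.FG
  span_eq_top : Submodule.span K (T : Set V) = ⊤

namespace Lat

variable {K : Type*} [Field K] {V : Type*} [AddCommGroup V] [Module K V] {ℓ : ℕ}

/-- The vector `t` lies in `𝔪 T`, where `𝔪` is the maximal ideal of the valuation ring. -/
def MemMax (S : Lat K V ℓ) (t : V) : Prop := t ∈ IsLocalRing.maximalIdeal S.O • S.T

/-- The operator `F` preserves the lattice. -/
def Preserves (S : Lat K V ℓ) (F : Module.End K V) : Prop := ∀ t ∈ S.T, F t ∈ S.T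

/-- The operator `F` is injective modulo `𝔪` on `T ∩ U`. -/
def InjMod (S : Lat K V ℓ) (U : Submodule K V) (F : Module.End K V) : Prop :=
  ∀ t ∈ S.T, t ∈ U → S.MemMax (F t) → S.MemMax t

/-- The operator `F` maps a subset of `T ∩ U` onto `T ∩ U'`. -/
def OntoLat (S : Lat K V ℓ) (U U' : Submodule K V) (F : Module.End K V) : Prop :=
  ∀ t ∈ S.T, t ∈ U' → ∃ s ∈ S.T, s ∈ U ∧ F s = t

/-- The operator `G` is modulo `𝔪` a left inverse of the operator `F` on `T ∩ U`. -/
def InvMod (S : Lat K V ℓ) (U : Submodule K V) (F G : Module.End K V) : Prop :=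
  ∀ s ∈ S.T, s ∈ U → S.MemMax (G (F s) - s)

end Lat

end Linear

open Pool.Agent.H914 Pool.Agent.H914.VarClass

variable {k : Type u} [Field k] {𝒱 : VarClass k} {ops : CycleOps 𝒱}

/-- The cycle `z` has integral coefficients. -/
def IsIntegral (X : 𝒱.Obj) (z : X.Cycles) : Prop := ∀ x : X.V.X, ∃ m : ℤ, X.V.coeff z x = m

/-- Cup product with the `c`-th power of the class of `D`. -/
noncomputable def lefPow (W : WeilCohomology.{u, v} ops) (X : 𝒱.Obj) (D : X.Cycles) (c : ℕ) :
    Module.End W.K (W.H X) :=
  LinearMap.mulLeft W.K (W.cl X D ^ c)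

/-- The operator on `H(X)` given by the cycle `z` on `X × X`. -/
noncomputable def cycOp (W : WeilCohomology.{u, v} ops) (X : 𝒱.Obj) (z : (X.prod X).Cycles) :
    Module.End W.K (W.H X) :=
  W.corr (W.cl (X.prod X) z)

/-- An integral structure at the number `ℓ` (in the intended use: at the prime number `ℓ`) in the
cohomology `H(X)`: a lattice in `H(X)` at `ℓ` which is preserved by the cup product with the classes
of integral cycles on `X` and by the operators given by integral cycles on `X × X`. For the `ℓ`-adic
cohomology and the valuation ring `ℤ_ℓ` one takes for the lattice the image of the cohomology with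
coefficients `ℤ_ℓ`. -/
structure IntegralStructure (W : WeilCohomology.{u, v} ops) (X : 𝒱.Obj) (ℓ : ℕ) where
  /-- the lattice -/
  lat : Lat W.K (W.H X) ℓ
  mul_mem : ∀ z : X.Cycles, IsIntegral X z → lat.Preserves (LinearMap.mulLeft W.K (W.cl X z))
  corr_mem : ∀ z : (X.prod X).Cycles, IsIntegral (X.prod X) z → lat.Preserves (cycOp W X z)

namespace IntegralStructure

variable {W : WeilCohomology.{u, v} ops} {X : 𝒱.Obj} {ℓ : ℕ}

/-- The correspondence `z` is injective modulo `𝔪` on `T ∩ H^i(X)`. -/
def InjectiveMod (S : IntegralStructure W X ℓ) (i : ℕ) (z : (X.prod X).Cycles) : Prop :=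
  S.lat.InjMod (W.gr X i) (cycOp W X z)

/-- Cup product with the `c`-th power of the class of `D` maps `T ∩ H^(n - c)(X)` onto
`T ∩ H^(n + c)(X)`, where `n = dim X`. -/
def LefschetzMod (S : IntegralStructure W X ℓ) (D : X.Cycles) (c : ℕ) : Prop :=
  S.lat.OntoLat (W.gr X (X.dim - c)) (W.gr X (X.dim + c)) (lefPow W X D c)

/-- The correspondence `z` is, modulo `𝔪`, an inverse of the cup product with the `c`-th power of
the class of `D` on `T ∩ H^(n - c)(X)`, where `n = dim X`. -/
def InverseMod (S : IntegralStructure W X ℓ) (D : X.Cycles) (c : ℕ) (z : (X.prod X).Cycles) :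
    Prop :=
  S.lat.InvMod (W.gr X (X.dim - c)) (lefPow W X D c) (cycOp W X z)

end IntegralStructure

end Pool.Agent.H838
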