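import Pool.Agent.H838.NakDefs

/-!
# Stable submodules of the cohomology modulo a prime number: definitions
-/

open CategoryTheory AlgebraicGeometry

universe u v

namespace Pool.Agent.H838

open Pool.Agent.H914 Pool.Agent.H914.VarClass

namespace Lat

variable {K : Type*} [Field K] {V : Type*} [AddCommGroup V] [Module K V] {ℓ : ℕ}

/-- The residue field of the valuation ring is the prime field: every element of the valuation ring
is congruent to an integer modulo the maximal ideal. -/
def HasPrimeResidueField (S : Lat K V ℓ) : Prop :=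
  ∀ a : S.O, ∃ m : ℤ, a - m ∈ IsLocalRing.maximalIdeal S.O

/-- The submodule `U` lies between `𝔪 T` and `T`, it is stable under the operators in `Φ` and it is
spanned by homogeneous elements; so `U / 𝔪 T` is a graded stable subspace of `T / 𝔪 T`. -/
structure IsStableSub (S : Lat K V ℓ) (gr : ℕ → Submodule K V) (Φ : Set (Module.End K V))
    (U : Submodule S.O V) : Prop where
  max_le : ∀ t, S.MemMax t → t ∈ U
  le : U ≤ S.T
  stable : ∀ F ∈ Φ, ∀ t ∈ U, F t ∈ U
  graded : ∀ t ∈ U, t ∈ Submodule.span S.O {s | s ∈ U ∧ ∃ i, s ∈ gr i}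

/-- On each graded stable subspace of `T / 𝔪 T` the operator `F` maps the part in degree `i` onto
the part in degree `j`. -/
def OntoOnStable (S : Lat K V ℓ) (gr : ℕ → Submodule K V) (Φ : Set (Module.End K V)) (i j : ℕ)
    (F : Module.End K V) : Prop :=
  ∀ U : Submodule S.O V, S.IsStableSub gr Φ U →
    ∀ y ∈ U, y ∈ gr j → ∃ s ∈ U, s ∈ gr i ∧ S.MemMax (F s - y)

/-- The graded vector space `T / 𝔪 T` is semisimple under the operators in `Φ`: each graded stable
subspace has a graded stable complement. -/
def SemisimpleMod (S : Lat K V ℓ) (gr : ℕ → Submodule K V) (Φ : Set (Module.End K V)) : Prop :=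
  ∀ U : Submodule S.O V, S.IsStableSub gr Φ U → ∃ U' : Submodule S.O V,
    S.IsStableSub gr Φ U' ∧ (∀ t ∈ U, t ∈ U' → S.MemMax t) ∧ S.T ≤ U ⊔ U'

/-- For each `y` in `T ∩ U` there is an operator `G` in `Φ`, which may depend on `y`, such that
`F (G y)` is congruent to `y` modulo `𝔪 T`. -/
def PointwiseInvMod (S : Lat K V ℓ) (U : Submodule K V) (Φ : Set (Module.End K V)) (F : Module.End K V) :
    Prop :=
  ∀ y ∈ S.T, y ∈ U → ∃ G ∈ Φ, S.MemMax (F (G y) - y)

end Lat

variable {k : Type u} [Field k] {𝒱 : VarClass k} {ops : CycleOps 𝒱}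

/-- The operators on `H(X)` given by integral cycles of codimension `p` on `X × X`. -/
def intOps (W : WeilCohomology.{u, v} ops) (X : 𝒱.Obj) (p : ℕ) :
    Set (Module.End W.K (W.H X)) :=
  cycOp W X '' {z | IsIntegral (X.prod X) z ∧ (X.prod X).IsCyc p z}

/-- The operators on `H(X)` given by integral cycles on `X × X` of some codimension. -/
def allIntOps (W : WeilCohomology.{u, v} ops) (X : 𝒱.Obj) : Set (Module.End W.K (W.H X)) :=
  ⋃ p, intOps W X p

end Pool.Agent.H838
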