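import Pool.Agent.H838.SmiDefs
import Pool.Graph.R_seed8.H447R3.SpDefs

/-!
# The sign conjecture modulo a prime number: definitions
-/

open CategoryTheory AlgebraicGeometry

universe u v

namespace Pool.Agent.H838

open Pool.Agent.H914 Pool.Agent.H914.VarClass Pool.Agent.H914.VarClass.Obj Pool.Agent.H447

namespace Lat

variable {K : Type*} [Field K] {V : Type*} [AddCommGroup V] [Module K V] {ℓ : ℕ}

/-- The operator `F` acts on `T / 𝔪 T` as the projector onto the even part: as the identity on
`T ∩ gr i` if `i` is even, and as zero if `i` is odd. -/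
def IsEvenProjMod (S : Lat K V ℓ) (gr : ℕ → Submodule K V) (F : Module.End K V) : Prop :=
  ∀ i, ∀ t ∈ S.T, t ∈ gr i → S.MemMax (F t - if Even i then t else 0)

/-- For all `t` in `T ∩ gr i`, `i` even, and `t'` in `T ∩ gr j`, `j` odd, some operator in `Φ`, which
may depend on `t` and `t'`, fixes `t` and kills `t'` modulo `𝔪`. -/
def SeparatesParityMod (S : Lat K V ℓ) (gr : ℕ → Submodule K V) (Φ : Set (Module.End K V)) :
    Prop :=
  ∀ i j, Even i → Odd j → ∀ t ∈ S.T, t ∈ gr i → ∀ t' ∈ S.T, t' ∈ gr j →
    ∃ F ∈ Φ, S.MemMax (F t - t) ∧ S.MemMax (F t')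

/-- Every submodule `U` with `𝔪 T ≤ U ≤ T` which is stable under the operators in `Φ` is stable under
the projector onto the sum of the `gr i`, `i` even. -/
def StableParityMod (S : Lat K V ℓ) (gr : ℕ → Submodule K V) (Φ : Set (Module.End K V)) : Prop :=
  ∀ U : Submodule S.O V, (∀ t, S.MemMax t → t ∈ U) → U ≤ S.T →
    (∀ F ∈ Φ, ∀ t ∈ U, F t ∈ U) → ∀ P : Module.End K V, IsEvenProj gr P → ∀ t ∈ U, P t ∈ U

/-- The linear combinations of the operators in `Φ` with coefficients in the valuation ring. -/
def spanO (S : Lat K V ℓ) (Φ : Set (Module.End K V)) : AddSubgroup (Module.End K V) :=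
  AddSubgroup.closure {x | ∃ c : S.O, ∃ F ∈ Φ, x = (c : K) • F}

/-- The projector onto the sum of the `gr i`, `i` even, is a linear combination of operators in `Φ`
with coefficients in the valuation ring. -/
def EvenProjInSpanO (S : Lat K V ℓ) (gr : ℕ → Submodule K V) (Φ : Set (Module.End K V)) : Prop :=
  ∃ P ∈ S.spanO Φ, IsEvenProj gr P

/-- The statement `Q` is equivalent to each of the following: some operator in `Φ` acts on `T / 𝔪 T`
as the projector onto the even part; the operators in `Φ` separate the even and the odd vectors of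
`T / 𝔪 T`. -/
structure TestsParity (S : Lat K V ℓ) (gr : ℕ → Submodule K V) (Φ : Set (Module.End K V))
    (Q : Prop) : Prop where
  proj : Q ↔ ∃ F ∈ Φ, S.IsEvenProjMod gr F
  separates : Q ↔ S.SeparatesParityMod gr Φ

end Lat

variable {k : Type u} [Field k] {𝒱 : VarClass k} {ops : CycleOps 𝒱}

/-- The sign conjecture with coefficients in the local ring at `ℓ`: the projector onto the even
cohomology is given by a cycle on `X × X` whose coefficients are rational numbers with denominators
not divisible by `ℓ`. -/
def SignAt (W : WeilCohomology.{u, v} ops) (X : 𝒱.Obj) (ℓ : ℕ) : Prop :=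
  ∃ z, IsIntegralAt ℓ (X.prod X) z ∧ (X.prod X).IsCyc X.dim z ∧
    IsEvenProj (W.gr X) (cycOp W X z)

/-- There is an integral correspondence `z` of degree zero such that `z ∘ z` is numerically
equivalent to the diagonal `Δ` modulo `ℓ`, and the intersection number `z . Δ` is congruent to `b`
modulo `ℓ`. -/
def SignNumMod (ops : CycleOps 𝒱) (X : 𝒱.Obj) (b ℓ : ℕ) : Prop :=
  ∃ z, IsIntegral (X.prod X) z ∧ (X.prod X).IsCyc X.dim z ∧
    NumZeroMod ops ℓ X X.dim (compCyc ops z z - ops.push (diag X) X.V.fundCycle) ∧
    ∃ m : ℤ, (X.prod X).V.degCycle (ops.mul z (ops.push (diag X) X.V.fundCycle)) = b + ℓ * m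

namespace IntegralStructure

variable {W : WeilCohomology.{u, v} ops} {X : 𝒱.Obj} {ℓ : ℕ}

/-- The projector `π⁺` onto the even cohomology is a linear combination, with coefficients in the
valuation ring, of operators given by integral correspondences of degree zero. -/
def SignO (S : IntegralStructure W X ℓ) : Prop :=
  S.lat.EvenProjInSpanO (W.gr X) (intOps W X X.dim)

/-- Every submodule between `𝔪 T` and `T` which is stable under the integral correspondences of
degree zero is stable under `π⁺`. -/
def StableParity (S : IntegralStructure W X ℓ) : Prop :=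
  S.lat.StableParityMod (W.gr X) (intOps W X X.dim)

/-- The statement `Q` is tested modulo `𝔪` by the operators given by integral correspondences of
degree zero. -/
def Tests (S : IntegralStructure W X ℓ) (Q : Prop) : Prop :=
  S.lat.TestsParity (W.gr X) (intOps W X X.dim) Q

/-- The statement `Q` is tested modulo `𝔪` by the combinations, with coefficients in the valuation
ring, of the operators given by integral correspondences of degree zero. -/
def TestsO (S : IntegralStructure W X ℓ) (Q : Prop) : Prop :=
  S.lat.TestsParity (W.gr X) (S.lat.spanO (intOps W X X.dim)) Q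

/-- The criteria for the sign conjecture for `X` and the theory `W₀` which are provided by an
integral structure at `ℓ` in the cohomology `W` of `X`. -/
structure SignCriteria (S : IntegralStructure W X ℓ) (W₀ : WeilCohomology.{u, v} ops) : Prop where
  integral : S.Tests (SignAt W₀ X ℓ)
  span : S.TestsO S.SignO
  stable : S.SignO ↔ S.StableParity
  sign : S.SignO → SignStd W₀ X
  prime : S.lat.HasPrimeResidueField → (S.SignO ↔ SignAt W₀ X ℓ)

end IntegralStructure

end Pool.Agent.H838
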