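import Pool.Agent.H838.SgnMod
import Pool.Agent.H838.NilMod
import Pool.Agent.H838.NumMain

/-!
# The numerical criterion for idempotents modulo the maximal ideal
-/

open Polynomial

namespace Pool.Agent.H838

open Pool.Agent.H914

section Char0

variable {κ M : Type*} [Field κ] [AddCommGroup M] [Module κ M] {R U : Module.End κ M}

/-- Both sides. -/
theorem idem_of_traces' [Module.Finite κ M] (hR : R * R = R) (hU : U * R = R * U)
    (h2 : (2 : κ) ≠ 0) (hdim : ∀ r : ℕ, 0 < r → r ≤ Module.finrank κ M → (r : κ) ≠ 0)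
    (ht : ∀ r : ℕ, LinearMap.trace κ M (((2 : κ) • R - 1) * U ^ r) =
      LinearMap.trace κ M (((2 : κ) • R - 1) * ((2 : κ) • R - 1) ^ r)) :
    ∃ a : ℕ, (U - 1) ^ a * R = 0 ∧ (U + 1) ^ a * (1 - R) = 0 := by
  obtain ⟨a, ha⟩ := idem_of_traces hR hU h2 hdim ht
  have hR' : (1 - R) * (1 - R) = 1 - R := by rw [mul_sub, sub_mul, sub_mul, hR]; simp
  have hpar : (2 : κ) • (1 - R) - 1 = -((2 : κ) • R - 1) := by
    rw [smul_sub, two_smul κ (1 : Module.End κ M)]; abel
  obtain ⟨c, hc⟩ := idem_of_traces (R := 1 - R) (U := -U) hR'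
    (by rw [mul_sub, sub_mul, mul_one, one_mul, neg_mul, mul_neg, hU]) h2 hdim
    (by
      intro r
      rw [hpar, neg_pow U, neg_pow ((2 : κ) • R - 1)]
      have e1 : ∀ x : Module.End κ M, -((2 : κ) • R - 1) * ((-1) ^ r * x) =
          ((-1 : κ) ^ (r + 1)) • (((2 : κ) • R - 1) * x) := by
        intro x
        have e2 : ((-1 : Module.End κ M) ^ r) = ((-1 : κ) ^ r) • 1 := by
          rw [← neg_one_smul κ (1 : Module.End κ M), _root_.smul_pow, one_pow]
        rw [e2, smul_mul_assoc, one_mul, mul_smul_comm, neg_mul, pow_succ, mul_smul,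
          neg_one_smul, smul_neg]
      rw [e1, e1, map_smul, map_smul, ht])
  have h1 : (U - 1) ^ (a + c) * R = 0 := by
    rw [add_comm, pow_add, mul_assoc, ha, mul_zero]
  have h3 : (-U - 1) ^ (a + c) * (1 - R) = 0 := by rw [pow_add, mul_assoc, hc, mul_zero]
  refine ⟨a + c, h1, ?_⟩
  have h4 : U + 1 = -(-U - 1) := by abel
  rw [h4, neg_pow, mul_assoc, h3, mul_zero]

/-- An integral polynomial which gives the idempotent. -/
lemma idem_eq_of_nilp {x : Module.End κ M} {a : ℕ}
    (h1 : (x - 1) ^ a * R = 0) (h0 : x ^ a * (1 - R) = 0) : 1 - (1 - x ^ a) ^ a = R := by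
  have h3 : (1 - x ^ a) ^ a * R = 0 := by
    obtain ⟨y, hy⟩ : ∃ y, y = ∑ i ∈ Finset.range a, x ^ i := ⟨_, rfl⟩
    have h4 : (1 - x ^ a) = y * (-(x - 1)) := by
      rw [hy, mul_neg, geom_sum_mul, neg_sub]
    have h5 : Commute y (-(x - 1)) := by
      rw [hy]
      apply Commute.neg_right
      apply Commute.sum_left
      intro i _
      exact ((Commute.refl x).pow_left i).sub_right (Commute.one_right _)
    rw [h4, h5.mul_pow, neg_pow, mul_assoc, mul_assoc, h1, mul_zero, mul_zero]
  have h6 : ∀ r : ℕ, (1 - x ^ a) ^ r * (1 - R) = 1 - R := by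
    intro r
    induction r with
    | zero => rw [pow_zero, one_mul]
    | succ r ih =>
      rw [pow_succ, mul_assoc, sub_mul, one_mul, h0, sub_zero, ih]
  calc 1 - (1 - x ^ a) ^ a = 1 - ((1 - x ^ a) ^ a * R + (1 - x ^ a) ^ a * (1 - R)) := by
        rw [← mul_add, add_sub_cancel, mul_one]
    _ = R := by rw [h3, h6, zero_add, sub_sub_cancel]

end Char0

section Lat

variable {K : Type*} [Field K] [CharZero K] {V : Type*} [AddCommGroup V] [Module K V]
  [Module.Finite K V] {ℓ : ℕ} {S : Lat K V ℓ} {A : Subring (Module.End K V)}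
  {e : Module.End K V}

/-- The element `u` of `A` is an involution up to the radical modulo the maximal ideal of the
difference of the traces on the image and on the kernel of `e`, and this difference for `u` is
congruent to the dimension. -/
structure IsNumPar (S : Lat K V ℓ) (A : Subring (Module.End K V)) (e u : Module.End K V) :
    Prop where
  sq : ∀ y ∈ A, InMax S (LinearMap.trace K V (((2 : K) • e - 1) * ((u * u - 1) * y)))
  dim : InMax S (LinearMap.trace K V (((2 : K) • e - 1) * u) - Module.finrank K V)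

omit [CharZero K] [Module.Finite K V] in
lemma parE_preserves (H : IdemSetup S A e) : S.Preserves ((2 : K) • e - 1) := by
  have h1 : (2 : K) • e = ((2 : S.O) : K) • e := rfl
  rw [h1]
  exact (H.presE.smul 2).sub Lat.Preserves.one

omit [CharZero K] in
/-- **The numerical criterion.** -/
theorem mod_of_num (hℓ : ℓ.Prime) (h2 : ℓ ≠ 2) (hdim : Module.finrank K V < ℓ)
    (H : IdemSetup S A e) {u : Module.End K V} (hu : u ∈ A) (h : IsNumPar S A e u) :
    ∃ a ∈ A, S.IsZeroMod (a - e) := by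
  classical
  obtain ⟨m, b, hb⟩ := S.exists_basis
  obtain ⟨p, hp⟩ : ∃ p, p = (2 : K) • e - 1 := ⟨_, rfl⟩
  have hpT : S.Preserves p := by rw [hp]; exact parE_preserves H
  have huT : S.Preserves u := H.pres u hu
  have hpp : p * p = 1 := by rw [hp]; exact par_sq H.idem
  have hrp : S.rho b p = (2 : IsLocalRing.ResidueField S.O) • S.rho b e - 1 := by
    rw [hp, Lat.rho_sub hb (by exact H.presE.smul 2) Lat.Preserves.one, Lat.rho_one hb]
    congr 1
    have h1 := Lat.rho_smul hb H.presE (2 : S.O)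
    rw [map_ofNat] at h1
    exact h1
  have hree : S.rho b e * S.rho b e = S.rho b e := by
    rw [← Lat.rho_mul hb H.presE H.presE, H.idem]
  have hrue : S.rho b u * S.rho b e = S.rho b e * S.rho b u := by
    rw [← Lat.rho_mul hb huT H.presE, H.comm u hu, Lat.rho_mul hb H.presE huT]
  have hrpp : S.rho b p * S.rho b p = 1 := by
    rw [← Lat.rho_mul hb hpT hpT, hpp, Lat.rho_one hb]
  -- the traces
  have htr : ∀ r : ℕ, (S.rho b p * S.rho b u ^ r).trace = (S.rho b p * S.rho b p ^ r).trace ∧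
      (S.rho b p * S.rho b u ^ (r + 1)).trace = (S.rho b p * S.rho b p ^ (r + 1)).trace := by
    intro r
    induction r with
    | zero =>
      refine ⟨by rw [pow_zero, pow_zero], ?_⟩
      rw [zero_add, pow_one, pow_one, hrpp]
      have h1 : (S.rho b (p * u - 1)).trace = 0 := by
        rw [Lat.trace_rho_eq_zero_iff hb ((hpT.mul huT).sub Lat.Preserves.one)]
        obtain ⟨r, hr, hr'⟩ := h.dim
        refine ⟨r, hr, ?_⟩
        rw [hr', map_sub, LinearMap.trace_one, hp]
      rw [Lat.rho_sub hb (hpT.mul huT) Lat.Preserves.one, Lat.rho_one hb, Matrix.trace_sub,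
        sub_eq_zero, Lat.rho_mul hb hpT huT] at h1
      exact h1
    | succ r ih =>
      refine ⟨ih.2, ?_⟩
      have h1 : (S.rho b (p * ((u * u - 1) * u ^ r))).trace = 0 := by
        rw [Lat.trace_rho_eq_zero_iff hb (hpT.mul (((huT.mul huT).sub
          Lat.Preserves.one).mul (huT.pow r)))]
        have h3 := h.sq (u ^ r) (A.pow_mem hu r)
        rw [← hp] at h3
        exact h3
      have h3 : S.rho b (p * ((u * u - 1) * u ^ r)) =
          S.rho b p * S.rho b u ^ (r + 1 + 1) - S.rho b p * S.rho b u ^ r := by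
        rw [Lat.rho_mul hb hpT (((huT.mul huT).sub Lat.Preserves.one).mul (huT.pow r)),
          Lat.rho_mul hb ((huT.mul huT).sub Lat.Preserves.one) (huT.pow r),
          Lat.rho_sub hb (huT.mul huT) Lat.Preserves.one, Lat.rho_one hb, Lat.rho_mul hb huT huT,
          Lat.rho_pow hb huT, ← mul_sub, sub_mul, one_mul]
        congr 2
        rw [pow_succ', pow_succ', mul_assoc]
      rw [h3, Matrix.trace_sub, sub_eq_zero] at h1
      rw [h1, ih.1, pow_succ, pow_succ, mul_assoc _ (S.rho b p) (S.rho b p), hrpp, mul_one]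
  -- the operators on the reduction
  have hlin : ∀ F : Matrix (Fin m) (Fin m) (IsLocalRing.ResidueField S.O), ∀ r : ℕ,
      (Matrix.toLin' F) ^ r = Matrix.toLin' (F ^ r) := fun F r => (Matrix.toLin'_pow _ _).symm
  have hmul : ∀ F G : Matrix (Fin m) (Fin m) (IsLocalRing.ResidueField S.O),
      Matrix.toLin' F * Matrix.toLin' G = Matrix.toLin' (F * G) := fun F G =>
    (Matrix.toLin'_mul _ _).symm
  have hone : Matrix.toLin' (1 : Matrix (Fin m) (Fin m) (IsLocalRing.ResidueField S.O)) = 1 :=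
    Matrix.toLin'_one
  have hpar : (2 : IsLocalRing.ResidueField S.O) • Matrix.toLin' (S.rho b e) - 1 =
      Matrix.toLin' (S.rho b p) := by
    rw [hrp, map_sub, map_smul, hone]
  have hfin : Module.finrank (IsLocalRing.ResidueField S.O)
      (Fin m → IsLocalRing.ResidueField S.O) = Module.finrank K V := by
    rw [Module.finrank_fin_fun, Module.finrank_eq_card_basis b, Fintype.card_fin]
  obtain ⟨a, ha1, ha2⟩ := idem_of_traces' (R := Matrix.toLin' (S.rho b e))
    (U := Matrix.toLin' (S.rho b u)) (by rw [hmul, hree]) (by rw [hmul, hmul, hrue])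
    (by
      have h3 := natCast_ne_zero S hℓ (r := 2) two_pos
        (lt_of_le_of_ne hℓ.two_le (Ne.symm h2))
      rw [Nat.cast_ofNat] at h3
      exact h3)
    (by
      intro r h0 hr
      rw [hfin] at hr
      exact natCast_ne_zero S hℓ h0 (lt_of_le_of_lt hr hdim))
    (by
      intro r
      rw [hpar, hlin, hlin, hmul, hmul, Matrix.trace_toLin'_eq, Matrix.trace_toLin'_eq]
      exact (htr r).1)
  have : Fact ℓ.Prime := ⟨hℓ⟩
  have : CharP (IsLocalRing.ResidueField S.O) ℓ := by
    rw [CharP.charP_iff_prime_eq_zero hℓ, ← map_natCast (IsLocalRing.residue S.O),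
      IsLocalRing.residue_eq_zero_iff]
    exact S.mem_max
  have hodd : Odd ℓ := hℓ.odd_of_ne_two h2
  obtain ⟨q, hq⟩ : ∃ q, q = ℓ ^ a := ⟨_, rfl⟩
  have haq : a ≤ q := by rw [hq]; exact (Nat.lt_pow_self hℓ.one_lt).le
  obtain ⟨U, hU⟩ : ∃ U, U = Matrix.toLin' (S.rho b u) := ⟨_, rfl⟩
  obtain ⟨R, hR⟩ : ∃ R, R = Matrix.toLin' (S.rho b e) := ⟨_, rfl⟩
  rw [← hU, ← hR] at ha1 ha2
  have hU1 : U ^ q * R = R := by
    have h3 : ((X - 1 : (IsLocalRing.ResidueField S.O)[X])) ^ q = X ^ q - 1 := by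
      rw [hq, sub_pow_char_pow, one_pow]
    have h4 := congrArg (Polynomial.aeval U) h3
    rw [map_pow, map_sub, map_sub, map_pow, Polynomial.aeval_X, map_one] at h4
    obtain ⟨j, hj⟩ := Nat.exists_eq_add_of_le haq
    have h5 : (U - 1) ^ q * R = 0 := by rw [hj, add_comm, pow_add, mul_assoc, ha1, mul_zero]
    rw [h4, sub_mul, one_mul, sub_eq_zero] at h5
    exact h5
  have hU2 : U ^ q * (1 - R) = -(1 - R) := by
    have h3 : ((X + 1 : (IsLocalRing.ResidueField S.O)[X])) ^ q = X ^ q + 1 := by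
      rw [hq, add_pow_char_pow, one_pow]
    have h4 := congrArg (Polynomial.aeval U) h3
    rw [map_pow, map_add, map_add, map_pow, Polynomial.aeval_X, map_one] at h4
    obtain ⟨j, hj⟩ := Nat.exists_eq_add_of_le haq
    have h5 : (U + 1) ^ q * (1 - R) = 0 := by
      rw [hj, add_comm a j, pow_add, mul_assoc, ha2, mul_zero]
    rw [h4, add_mul, one_mul] at h5
    exact eq_neg_of_add_eq_zero_left h5
  have hUq : U ^ q = (2 : IsLocalRing.ResidueField S.O) • R - 1 := by
    calc U ^ q = U ^ q * R + U ^ q * (1 - R) := by rw [← mul_add, add_sub_cancel, mul_one]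
      _ = _ := by rw [hU1, hU2, two_smul]; abel
  have hzero : S.IsZeroMod (u ^ q - p) := by
    rw [← Lat.rho_eq_zero_iff hb ((huT.pow q).sub hpT), Lat.rho_sub hb (huT.pow q) hpT,
      Lat.rho_pow hb huT, sub_eq_zero]
    apply Matrix.toLin'.injective
    rw [← hlin, ← hU, hUq, hR, hpar]
  obtain ⟨c, hc⟩ := hodd
  refine ⟨(c + 1) • (u ^ q + 1), A.nsmul_mem (A.add_mem (A.pow_mem hu q) A.one_mem) _, ?_⟩
  have h3 : (c + 1) • (u ^ q + 1) - e = ((c + 1 : ℕ) : ℤ) • (u ^ q - p) + (ℓ : ℤ) • e := by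
    have h4 : p + 1 = e + e := by rw [hp, sub_add_cancel, two_smul]
    have h5 : u ^ q + 1 = (u ^ q - p) + (e + e) := by rw [← h4]; abel
    rw [natCast_zsmul, natCast_zsmul, h5, smul_add, add_sub_assoc]
    congr 1
    rw [hc, ← two_nsmul e, smul_smul, add_smul (2 * c) 1, one_smul, add_one_mul, mul_comm c 2,
      add_smul, two_nsmul e]
    abel
  rw [h3]
  apply (hzero.zsmul _).add
  intro t ht
  rw [LinearMap.smul_apply]
  exact Lat.memMax_zsmul_dvd (dvd_refl _) (H.presE t ht)

/-- The converse. -/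
theorem num_of_mod (H : IdemSetup S A e) {a : Module.End K V} (ha : a ∈ A)
    (hmod : S.IsZeroMod (a - e)) : IsNumPar S A e ((2 : ℤ) • a - 1) := by
  have haT : S.Preserves a := H.pres a ha
  have hpT := parE_preserves H
  have huT : S.Preserves ((2 : ℤ) • a - 1) := (haT.zsmul 2).sub Lat.Preserves.one
  have h1 : S.IsZeroMod (a * a - a) := by
    have h2 : a * a - a = ((a - e) * a + e * (a - e)) - (a - e) := by
      rw [sub_mul, mul_sub, H.idem]; abel
    rw [h2]
    exact ((hmod.mul_right haT).add (hmod.mul_left H.presE)).sub hmod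
  refine ⟨fun y hy => ?_, ?_⟩
  · have h2 : ((2 : ℤ) • a - 1) * ((2 : ℤ) • a - 1) - 1 = (4 : ℤ) • (a * a - a) := by
      simp only [mul_sub, sub_mul, mul_one, one_mul, smul_mul_assoc, mul_smul_comm, smul_smul,
        smul_sub]
      rw [show (4 : ℤ) • a = (2 : ℤ) • a + (2 : ℤ) • a by rw [← add_smul]; norm_num]
      norm_num
      abel
    rw [h2]
    have hz : S.IsZeroMod (((2 : K) • e - 1) * ((4 : ℤ) • (a * a - a) * y)) :=
      ((h1.zsmul 4).mul_right (H.pres y hy)).mul_left hpT
    exact trace_of_zeroMod (hpT.mul ((((haT.mul haT).sub haT).zsmul 4).mul (H.pres y hy))) hz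
  · have h2 : LinearMap.trace K V (((2 : K) • e - 1) * ((2 : ℤ) • a - 1)) - Module.finrank K V =
        LinearMap.trace K V (((2 : K) • e - 1) * ((2 : ℤ) • (a - e))) := by
      have h3 : ((2 : ℤ) • (a - e)) = ((2 : ℤ) • a - 1) - ((2 : K) • e - 1) := by
        have h4 : (2 : K) • e = (2 : ℤ) • e := by
          rw [two_smul, two_smul]
        rw [h4, smul_sub]; abel
      rw [h3, mul_sub ((2 : K) • e - 1) ((2 : ℤ) • a - 1), map_sub, par_sq H.idem,
        LinearMap.trace_one]
    rw [h2]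
    exact trace_of_zeroMod (hpT.mul ((haT.sub H.presE).zsmul 2)) ((hmod.zsmul 2).mul_left hpT)

end Lat

end Pool.Agent.H838
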