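import Pool.Agent.H838.SgnDefs
import Pool.Agent.H838.SgnNum
import Pool.Agent.H838.OneDeg
import Pool.Agent.H838.NumThm
import Pool.Graph.R_seed8.H578R3.SgnCyc
import Pool.Graph.R_seed8.TH133.PW.Ev

/-!
# The sign conjecture modulo a prime number
-/

open CategoryTheory AlgebraicGeometry Polynomial

universe u v

namespace Pool.Agent.H838

open Pool.Agent.H914 Pool.Agent.H914.VarClass Pool.Agent.H914.VarClass.Obj
  Pool.Agent.H914.WeilCohomology Pool.Agent.H447 Pool.Agent.H578R3

variable {k : Type u} [Field k] {𝒱 : VarClass k} {ops : CycleOps 𝒱}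
  {W : WeilCohomology.{u, v} ops} {X : 𝒱.Obj} {ℓ : ℕ}

lemma rz_zero_iff {y : Module.End W.K (W.H X)} : RZ W X 0 y ↔ y ∈ intOps W X X.dim := by
  constructor
  · rintro (⟨q, hq, h⟩ | ⟨hd, -⟩)
    · obtain rfl : q = X.dim := by omega
      exact h
    · omega
  · intro h
    exact Or.inl ⟨X.dim, by simp, h⟩

/-- The ring of the operators given by integral correspondences of degree zero. -/
def intRing (W : WeilCohomology.{u, v} ops) (X : 𝒱.Obj) (hops : PreservesIntegral ops) :
    Subring (Module.End W.K (W.H X)) where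
  carrier := {y | RZ W X 0 y}
  mul_mem' h h' := (rz_opRing hops).cast ((rz_opRing hops).mul h h') (by ring)
  one_mem' := (rz_opRing hops).one
  add_mem' h h' := (rz_opRing hops).add h h'
  zero_mem' := (rz_opRing hops).zero 0
  neg_mem' h := (rz_opRing hops).neg h

lemma mem_intRing {hops : PreservesIntegral ops} {y : Module.End W.K (W.H X)} :
    y ∈ intRing W X hops ↔ RZ W X 0 y := Iff.rfl

lemma evenProj_apply {i : ℕ} {a : W.H X} (ha : a ∈ W.gr X i) :
    evenProj (W.isInternal X) a = if Even i then a else 0 :=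
  (isEvenProj_iff.2 rfl : IsEvenProj (W.gr X) (evenProj (W.isInternal X))) i a ha

lemma graded_induction {S : Lat W.K (W.H X) ℓ} (hS : S.IsGraded (W.gr X))
    {U : Submodule S.O (W.H X)} {F : Module.End W.K (W.H X)}
    (h : ∀ i, ∀ t ∈ S.T, t ∈ W.gr X i → F t ∈ U) : ∀ t ∈ S.T, F t ∈ U := by
  intro t ht
  have h1 := hS t ht
  clear ht
  induction h1 using Submodule.span_induction with
  | mem x hx =>
    obtain ⟨hx, i, hi⟩ := hx
    exact h i x hx hi
  | zero => rw [map_zero]; exact Submodule.zero_mem _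
  | add x y _ _ hx hy => rw [map_add]; exact Submodule.add_mem _ hx hy
  | smul c x _ hx =>
    have h1 : F (c • x) = c • F x := F.map_smul (c : W.K) x
    rw [h1]
    exact Submodule.smul_mem _ _ hx

lemma evenProj_preserves {S : Lat W.K (W.H X) ℓ} (hS : S.IsGraded (W.gr X)) :
    S.Preserves (evenProj (W.isInternal X)) := by
  apply graded_induction hS
  intro i t ht hti
  rw [evenProj_apply hti]
  split_ifs
  · exact ht
  · exact Submodule.zero_mem _

lemma idemSetup (hops : PreservesIntegral ops) (S : IntegralStructure W X ℓ)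
    (hS : S.lat.IsGraded (W.gr X)) :
    IdemSetup S.lat (intRing W X hops) (evenProj (W.isInternal X)) where
  pres a ha := preserves_of_rz S ha
  presE := evenProj_preserves hS
  idem := Sgn.evenProj_idem _
  comm a ha := by
    have h1 : IsHom (W.gr X) 0 a := by
      have h2 := rop_opAlg.hom (RZ.rop ha)
      simpa using h2
    exact (Sgn.evenProj_comm _ h1).eq

lemma two_smul_evenProj : (2 : W.K) • evenProj (W.isInternal X) - 1 = par (W.isInternal X) := by
  rw [Sgn.par_eq, two_smul]; abel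

lemma sgn_trace (hops : PreservesIntegral ops) :
    ∀ a ∈ intRing W X hops, ∃ q : ℚ,
      LinearMap.trace W.K (W.H X) (a * evenProj (W.isInternal X)) -
      LinearMap.trace W.K (W.H X) (a * (1 - evenProj (W.isInternal X))) = (q : W.K) := by
  intro a ha
  obtain ⟨q, hq⟩ := rop_str a (RZ.rop ha)
  refine ⟨q, ?_⟩
  rw [← hq, ← map_sub, ← mul_sub, ← Sgn.par_eq, LinearMap.trace_mul_comm]

lemma signMod_iff (hops : PreservesIntegral ops) (S : IntegralStructure W X ℓ)
    (hS : S.lat.IsGraded (W.gr X)) : (∃ F ∈ intOps W X X.dim, S.lat.IsEvenProjMod (W.gr X) F) ↔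
      ∃ a ∈ intRing W X hops, S.lat.IsZeroMod (a - evenProj (W.isInternal X)) := by
  constructor
  · rintro ⟨_, ⟨z, ⟨hz, hzc⟩, rfl⟩, h⟩
    refine ⟨cycOp W X z, rz_zero_iff.2 ⟨z, ⟨hz, hzc⟩, rfl⟩, ?_⟩
    apply graded_induction hS
    intro i t ht hti
    rw [LinearMap.sub_apply, evenProj_apply hti]
    exact h i t ht hti
  · rintro ⟨a, ha, hmod⟩
    refine ⟨a, rz_zero_iff.1 ha, fun i t ht hti => ?_⟩
    have h1 := hmod t ht
    rwa [LinearMap.sub_apply, evenProj_apply hti] at h1

lemma signAt_iff (hops : PreservesIntegral ops) (hℓ : ℓ.Prime) : SignAt W X ℓ ↔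
    MemLoc (intRing W X hops) ℓ (evenProj (W.isInternal X)) := by
  constructor
  · rintro ⟨z, hz, hzc, h⟩
    obtain ⟨N, hN, hNz⟩ := hz.exists_denominator hℓ
    refine ⟨N, hN, rz_zero_iff.2 ⟨(N : ℚ) • z, ⟨hNz, hzc.smul _⟩, ?_⟩⟩
    rw [cycOp_smul, isEvenProj_iff.1 h, Rat.cast_natCast, Nat.cast_smul_eq_nsmul]
  · rintro ⟨N, hN, hNe⟩
    obtain ⟨z, ⟨hz, hzc⟩, hze⟩ := rz_zero_iff.1 hNe
    have hN0 : (N : W.K) ≠ 0 := by
      intro h0
      apply hN
      rw [Nat.cast_eq_zero] at h0
      rw [h0]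
      exact dvd_zero _
    refine ⟨(N : ℚ)⁻¹ • z, (hz.at hℓ).smul hℓ (den_inv_nat hN), hzc.smul _, ?_⟩
    rw [isEvenProj_iff, cycOp_smul, hze, ← Nat.cast_smul_eq_nsmul W.K, smul_smul]
    push_cast
    rw [inv_mul_cancel₀ hN0, one_smul]

theorem signAt_iff_signMod (hops : PreservesIntegral ops) (hℓ : ℓ.Prime)
    (S : IntegralStructure W X ℓ) (hS : S.lat.IsGraded (W.gr X)) :
    SignAt W X ℓ ↔ ∃ F ∈ intOps W X X.dim, S.lat.IsEvenProjMod (W.gr X) F := by
  have H := idemSetup hops S hS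
  rw [signMod_iff hops S hS, signAt_iff hops hℓ]
  constructor
  · exact mod_of_memLoc hℓ H
  · rintro ⟨a, ha, hmod⟩
    exact memLoc_of_mod hℓ H (sgn_trace hops) ha hmod

theorem signMod_iff_separates (hops : PreservesIntegral ops)
    (S : IntegralStructure W X ℓ) (hS : S.lat.IsGraded (W.gr X)) :
    (∃ F ∈ intOps W X X.dim, S.lat.IsEvenProjMod (W.gr X) F) ↔
      S.lat.SeparatesParityMod (W.gr X) (intOps W X X.dim) := by
  have H := idemSetup hops S hS
  constructor
  · rintro ⟨F, hF, h⟩ i j hi hj t ht hti t' ht' hti'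
    refine ⟨F, hF, ?_, ?_⟩
    · have h1 := h i t ht hti
      rwa [if_pos hi] at h1
    · have h1 := h j t' ht' hti'
      rwa [if_neg (Nat.not_even_iff_odd.2 hj), sub_zero] at h1
  · intro h
    rw [signMod_iff hops S hS]
    have hdeg : ∀ a ∈ intRing W X hops, ∀ i, ∀ t ∈ W.gr X i, a t ∈ W.gr X i := by
      intro a ha i t ht
      have h2 := rop_opAlg.hom (RZ.rop ha) i t (by rw [grZ_natCast]; exact ht)
      rw [mul_zero, add_zero, grZ_natCast] at h2
      exact h2
    apply mod_of_pointwise (HP := {t | t ∈ S.lat.T ∧ ∃ i, Even i ∧ t ∈ W.gr X i})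
      (HN := {t | t ∈ S.lat.T ∧ ∃ i, Odd i ∧ t ∈ W.gr X i}) H
    · rintro t ⟨ht, i, hi, hti⟩ a ha
      exact ⟨Submodule.sub_mem _ ht (H.pres a ha t ht), i, hi,
        Submodule.sub_mem _ hti (hdeg a ha i t hti)⟩
    · rintro t ⟨ht, i, hi, hti⟩ a ha
      exact ⟨H.pres a ha t ht, i, hi, hdeg a ha i t hti⟩
    · rintro t ⟨ht, i, hi, hti⟩
      rw [evenProj_apply hti, if_pos hi]
    · rintro t ⟨ht, i, hi, hti⟩
      rw [evenProj_apply hti, if_neg (Nat.not_even_iff_odd.2 hi)]
    · apply le_antisymm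
      · intro t ht
        refine Submodule.span_mono ?_ (hS t ht)
        rintro s ⟨hs, i, hi⟩
        rcases Nat.even_or_odd i with h1 | h1
        · exact Or.inl ⟨hs, i, h1, hi⟩
        · exact Or.inr ⟨hs, i, h1, hi⟩
      · rw [Submodule.span_le]
        rintro s (⟨hs, -⟩ | ⟨hs, -⟩)
        · exact hs
        · exact hs
    · rintro t ⟨ht, i, hi, hti⟩ t' ⟨ht', j, hj, hti'⟩
      obtain ⟨F, hF, h1, h2⟩ := h i j hi hj t ht hti t' ht' hti'
      exact ⟨F, rz_zero_iff.2 hF, h1, h2⟩

theorem signMod_iff_stable (hops : PreservesIntegral ops)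
    (S : IntegralStructure W X ℓ) (hS : S.lat.IsGraded (W.gr X))
    (hκ : S.lat.HasPrimeResidueField) :
    (∃ F ∈ intOps W X X.dim, S.lat.IsEvenProjMod (W.gr X) F) ↔
      S.lat.StableParityMod (W.gr X) (intOps W X X.dim) := by
  have H := idemSetup hops S hS
  constructor
  · intro h U hU hUT hst P hP
    obtain ⟨a, ha, hmod⟩ := (signMod_iff hops S hS).1 h
    rw [isEvenProj_iff.1 hP]
    exact stable_of_mod hmod hU hUT (hst a (rz_zero_iff.1 ha))
  · intro h
    rw [signMod_iff_separates hops S hS]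
    intro i j hi hj t ht hti t' ht' hti'
    obtain ⟨a, ha, h1, h2⟩ := pointwise_of_stable (hκ_of_prime hκ H) H (fun U hU hUT hst =>
      h U hU hUT (fun F hF => hst F (rz_zero_iff.2 hF)) _ (isEvenProj_iff.2 rfl)) ht ht'
      (by rw [evenProj_apply hti, if_pos hi])
      (by rw [evenProj_apply hti', if_neg (Nat.not_even_iff_odd.2 hj)])
    exact ⟨a, rz_zero_iff.1 ha, h1, h2⟩

/-! ### Coefficients in the valuation ring -/

lemma spanO_intOps (hops : PreservesIntegral ops) (S : IntegralStructure W X ℓ)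
    {x : Module.End W.K (W.H X)} :
    x ∈ spanRing S.lat (intRing W X hops) ↔ x ∈ S.lat.spanO (intOps W X X.dim) := by
  have h1 : ((intRing W X hops : Subring _) : Set (Module.End W.K (W.H X))) = intOps W X X.dim := by
    ext y
    exact rz_zero_iff
  rw [mem_spanRing, h1]

/-- The criteria with coefficients in the valuation ring. -/
theorem spanO_tests (hops : PreservesIntegral ops) (S : IntegralStructure W X ℓ)
    (hS : S.lat.IsGraded (W.gr X)) :
    S.lat.TestsParity (W.gr X) (S.lat.spanO (intOps W X X.dim))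
      (S.lat.EvenProjInSpanO (W.gr X) (intOps W X X.dim)) ∧
    (S.lat.EvenProjInSpanO (W.gr X) (intOps W X X.dim) ↔
      S.lat.StableParityMod (W.gr X) (intOps W X X.dim)) := by
  have H := idemSetup hops S hS
  have H' := spanRing_setup H
  have hdeg : ∀ a ∈ spanRing S.lat (intRing W X hops), ∀ i, ∀ t ∈ W.gr X i, a t ∈ W.gr X i := by
    intro a ha i t ht
    rw [mem_spanRing] at ha
    unfold Lat.spanO at ha
    induction ha using AddSubgroup.closure_induction with
    | mem x hx =>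
      obtain ⟨c, F, hF, rfl⟩ := hx
      have h2 := rop_opAlg.hom (RZ.rop hF) i t (by rw [grZ_natCast]; exact ht)
      rw [mul_zero, add_zero, grZ_natCast] at h2
      exact Submodule.smul_mem _ _ h2
    | zero => exact Submodule.zero_mem _
    | add x y _ _ hx hy => exact Submodule.add_mem _ hx hy
    | neg x _ hx => exact Submodule.neg_mem _ hx
  have h12 : S.lat.EvenProjInSpanO (W.gr X) (intOps W X X.dim) →
      ∃ F ∈ (S.lat.spanO (intOps W X X.dim) : Set (Module.End W.K (W.H X))),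
        S.lat.IsEvenProjMod (W.gr X) F := by
    rintro ⟨P, hP, hP'⟩
    refine ⟨P, hP, fun i t _ hti => ?_⟩
    rw [hP' i t hti, sub_self]
    exact Lat.MemMax.zero
  have h23 : (∃ F ∈ (S.lat.spanO (intOps W X X.dim) : Set (Module.End W.K (W.H X))),
        S.lat.IsEvenProjMod (W.gr X) F) →
      S.lat.SeparatesParityMod (W.gr X) (S.lat.spanO (intOps W X X.dim)) := by
    rintro ⟨F, hF, h⟩ i j hi hj t ht hti t' ht' hti'
    refine ⟨F, hF, ?_, ?_⟩
    · have h1 := h i t ht hti
      rwa [if_pos hi] at h1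
    · have h1 := h j t' ht' hti'
      rwa [if_neg (Nat.not_even_iff_odd.2 hj), sub_zero] at h1
  have h31 : S.lat.SeparatesParityMod (W.gr X) (S.lat.spanO (intOps W X X.dim)) →
      S.lat.EvenProjInSpanO (W.gr X) (intOps W X X.dim) := by
    intro h
    obtain ⟨a, ha, hmod⟩ := mod_of_pointwise
      (HP := {t | t ∈ S.lat.T ∧ ∃ i, Even i ∧ t ∈ W.gr X i})
      (HN := {t | t ∈ S.lat.T ∧ ∃ i, Odd i ∧ t ∈ W.gr X i}) H'
      (by
        rintro t ⟨ht, i, hi, hti⟩ a ha
        exact ⟨Submodule.sub_mem _ ht (H'.pres a ha t ht), i, hi,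
          Submodule.sub_mem _ hti (hdeg a ha i t hti)⟩)
      (by
        rintro t ⟨ht, i, hi, hti⟩ a ha
        exact ⟨H'.pres a ha t ht, i, hi, hdeg a ha i t hti⟩)
      (by
        rintro t ⟨ht, i, hi, hti⟩
        rw [evenProj_apply hti, if_pos hi])
      (by
        rintro t ⟨ht, i, hi, hti⟩
        rw [evenProj_apply hti, if_neg (Nat.not_even_iff_odd.2 hi)])
      (by
        apply le_antisymm
        · intro t ht
          refine Submodule.span_mono ?_ (hS t ht)
          rintro s ⟨hs, i, hi⟩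
          rcases Nat.even_or_odd i with h1 | h1
          · exact Or.inl ⟨hs, i, h1, hi⟩
          · exact Or.inr ⟨hs, i, h1, hi⟩
        · rw [Submodule.span_le]
          rintro s (⟨hs, -⟩ | ⟨hs, -⟩)
          · exact hs
          · exact hs)
      (by
        rintro t ⟨ht, i, hi, hti⟩ t' ⟨ht', j, hj, hti'⟩
        obtain ⟨F, hF, h1, h2⟩ := h i j hi hj t ht hti t' ht' hti'
        exact ⟨F, (spanO_intOps hops S).2 hF, h1, h2⟩)
    exact ⟨_, (spanO_intOps hops S).1 (mem_spanRing_of_mod H ha hmod), isEvenProj_iff.2 rfl⟩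
  have h24 : S.lat.EvenProjInSpanO (W.gr X) (intOps W X X.dim) →
      S.lat.StableParityMod (W.gr X) (intOps W X X.dim) := by
    rintro ⟨P, hP, hP'⟩ U hU hUT hst Q hQ t ht
    have hPQ : P = Q := by rw [isEvenProj_iff.1 hP', isEvenProj_iff.1 hQ]
    rw [← hPQ]
    clear hP' hPQ hQ
    unfold Lat.spanO at hP
    induction hP using AddSubgroup.closure_induction generalizing t with
    | mem x hx =>
      obtain ⟨c, F, hF, rfl⟩ := hx
      exact Submodule.smul_mem U c (hst F hF t ht)
    | zero => exact Submodule.zero_mem _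
    | add x y _ _ hx hy => exact Submodule.add_mem _ (hx t ht) (hy t ht)
    | neg x _ hx => exact Submodule.neg_mem _ (hx t ht)
  have h43 : S.lat.StableParityMod (W.gr X) (intOps W X X.dim) →
      S.lat.SeparatesParityMod (W.gr X) (S.lat.spanO (intOps W X X.dim)) := by
    intro h i j hi hj t ht hti t' ht' hti'
    obtain ⟨a, ha, h1, h2⟩ := pointwise_of_stable hκ_spanRing H' (fun U hU hUT hst =>
      h U hU hUT (fun F hF => hst F (subset_spanO (rz_zero_iff.2 hF))) _
        (isEvenProj_iff.2 rfl)) ht ht'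
      (by rw [evenProj_apply hti, if_pos hi])
      (by rw [evenProj_apply hti', if_neg (Nat.not_even_iff_odd.2 hj)])
    exact ⟨a, (spanO_intOps hops S).1 ha, h1, h2⟩
  exact ⟨⟨⟨h12, fun h => h31 (h23 h)⟩, ⟨fun h => h23 (h12 h), h31⟩⟩, ⟨h24, fun h => h31 (h43 h)⟩⟩

/-- With coefficients in the valuation ring one gets the sign conjecture. -/
lemma signStd_of_spanO {S : Lat W.K (W.H X) ℓ}
    (h : S.EvenProjInSpanO (W.gr X) (intOps W X X.dim)) : SignStd W X := by
  obtain ⟨P, hP, hP'⟩ := h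
  apply Pool.Agent.TH133.PW.signStd_of_span
  refine ⟨P, ?_, hP'⟩
  clear hP'
  unfold Lat.spanO at hP
  induction hP using AddSubgroup.closure_induction with
  | mem x hx =>
    obtain ⟨c, F, ⟨z, ⟨-, hz⟩, rfl⟩, rfl⟩ := hx
    exact Submodule.smul_mem _ _ (Submodule.subset_span ⟨z, hz, rfl⟩)
  | zero => exact Submodule.zero_mem _
  | add x y _ _ hx hy => exact Submodule.add_mem _ hx hy
  | neg x _ hx => exact Submodule.neg_mem _ hx

/-! ### The numerical criterion -/

/-- Intersection numbers as traces. -/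
lemma deg_trace (W : WeilCohomology.{u, v} ops) {p q : ℕ} {z w : (X.prod X).Cycles}
    (hpq : p + q = X.dim + X.dim) (hz : (X.prod X).IsCyc p z) (hw : (X.prod X).IsCyc q w) :
    (((X.prod X).V.degCycle (ops.mul z w) : ℚ) : W.K) = LinearMap.trace W.K (W.H X)
      (par (W.isInternal X) * (cycOp W X z * cycOp W X (ops.pull (swap X X) w))) := by
  have e3 : LinearMap.trace W.K (W.H X) (par (W.isInternal X) * (cycOp W X z *
      cycOp W X (ops.pull (swap X X) w))) =
      W.tr (X.prod X) (W.cl _ z * W.map (swap X X) (W.cl _ (ops.pull (swap X X) w))) :=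
    Pool.Agent.Y133.Half.trace_corr_corr _ _
  rw [e3, W.cl_pull, Pool.Agent.Y133.Half.swap_swap, tr_mul_cyc hpq hz hw]

lemma isCyc_diag (ops : CycleOps 𝒱) (X : 𝒱.Obj) :
    (X.prod X).IsCyc X.dim (ops.push (diag X) X.V.fundCycle) :=
  ops.push_mem _ X.V.fundCycle_mem (by simp only [dim_prod]; omega)

lemma integral_diag (hops : PreservesIntegral ops) (X : 𝒱.Obj) :
    IsIntegral (X.prod X) (ops.push (diag X) X.V.fundCycle) := hops.push _ (isIntegral_fund X)

lemma cycOp_diag : cycOp W X (ops.push (diag X) X.V.fundCycle) = 1 := by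
  apply LinearMap.ext
  intro a
  rw [cycOp, W.cl_push, corr_diag, W.cl_fund, one_mul, Module.End.one_apply]

lemma map_diag_swap (c : W.H (X.prod X)) :
    W.map (diag X) (W.map (swap X X) c) = W.map (diag X) c := by
  have e1 : diag X ≫ snd X X = 𝟙 X := Obj.lift_snd _ _
  have e2 : diag X ≫ fst X X = 𝟙 X := Obj.lift_fst _ _
  refine W.kunneth_induction (p := fun c => W.map (diag X) (W.map (swap X X) c) =
    W.map (diag X) c) ?_ ?_ c
  · intro a b ha hb
    rw [map_add, map_add, map_add, ha, hb]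
  · intro i j a _ b _
    simp only [map_mul, ← W.map_comp, swap_fst, swap_snd, e1, e2]

lemma cycOp_swap_diag :
    cycOp W X (ops.pull (swap X X) (ops.push (diag X) X.V.fundCycle)) = 1 := by
  have h1 : W.cl _ (ops.pull (swap X X) (ops.push (diag X) X.V.fundCycle)) =
      W.cl _ (ops.push (diag X) X.V.fundCycle) := by
    rw [← sub_eq_zero]
    apply W.nondeg
    intro b
    have e0 : W.tr (X.prod X) (W.map (swap X X) (W.push (diag X) 1) * b) =
        W.tr (X.prod X) (W.push (diag X) 1 * b) := by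
      have e1 : W.map (swap X X) (W.push (diag X) 1) * b =
          W.map (swap X X) (W.push (diag X) 1 * W.map (swap X X) b) := by
        rw [map_mul (W.map (swap X X)), map_swap_swap]
      rw [e1, tr_swap, W.tr_push, map_diag_swap, W.tr_push]
    rw [sub_mul, map_sub, W.cl_pull, W.cl_push, W.cl_fund, e0, sub_self]
  rw [cycOp, h1]
  exact cycOp_diag

lemma deg_diag (W : WeilCohomology.{u, v} ops) {z : (X.prod X).Cycles}
    (hz : (X.prod X).IsCyc X.dim z) :
    (((X.prod X).V.degCycle (ops.mul z (ops.push (diag X) X.V.fundCycle)) : ℚ) : W.K) =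
      LinearMap.trace W.K (W.H X) (par (W.isInternal X) * cycOp W X z) := by
  rw [deg_trace W rfl hz (isCyc_diag ops X), cycOp_swap_diag, mul_one]

lemma cycOp_sq_sub {z : (X.prod X).Cycles} (hz : (X.prod X).IsCyc X.dim z) :
    cycOp W X (compCyc ops z z - ops.push (diag X) X.V.fundCycle) =
      cycOp W X z * cycOp W X z - 1 := by
  have h2 : cycOp W X (compCyc ops z z) = cycOp W X z * cycOp W X z := corr_compCyc W hz
  rw [cycOp_sub, h2, cycOp_diag]

lemma isNumPar_iff (hops : PreservesIntegral ops) (hℓ : ℓ.Prime) (S : IntegralStructure W X ℓ)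
    {z : (X.prod X).Cycles} (hz : IsIntegral (X.prod X) z) (hzc : (X.prod X).IsCyc X.dim z) :
    IsNumPar S.lat (intRing W X hops) (evenProj (W.isInternal X)) (cycOp W X z) ↔
      NumZeroMod ops ℓ X X.dim (compCyc ops z z - ops.push (diag X) X.V.fundCycle) ∧
      ∃ m : ℤ, (X.prod X).V.degCycle (ops.mul z (ops.push (diag X) X.V.fundCycle)) =
        Module.finrank W.K (W.H X) + ℓ * m := by
  have hint : IsIntegral (X.prod X) (compCyc ops z z - ops.push (diag X) X.V.fundCycle) :=
    (compCyc_integral hops hz hz).sub (integral_diag hops X)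
  have hcyc : (X.prod X).IsCyc X.dim (compCyc ops z z - ops.push (diag X) X.V.fundCycle) :=
    isCyc_sub (compCyc_mem hzc hzc rfl) (isCyc_diag ops X)
  have h1 := numZeroMod_iff (W := W) hops hℓ S (p := X.dim) (by omega) hint hcyc (d := 0)
    (by simp)
  rw [cycOp_sq_sub hzc] at h1
  have h2 : (∀ y ∈ intRing W X hops, InMax S.lat (LinearMap.trace W.K (W.H X)
      (((2 : W.K) • evenProj (W.isInternal X) - 1) *
        ((cycOp W X z * cycOp W X z - 1) * y)))) ↔
      NumZeroMod ops ℓ X X.dim (compCyc ops z z - ops.push (diag X) X.V.fundCycle) := by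
    rw [h1, two_smul_evenProj]
    constructor
    · intro h y hy
      rw [neg_zero] at hy
      exact h y hy
    · intro h y hy
      refine h y ?_
      rw [neg_zero]
      exact hy
  have h3 : InMax S.lat (LinearMap.trace W.K (W.H X)
      (((2 : W.K) • evenProj (W.isInternal X) - 1) * cycOp W X z) -
        Module.finrank W.K (W.H X)) ↔
      ∃ m : ℤ, (X.prod X).V.degCycle (ops.mul z (ops.push (diag X) X.V.fundCycle)) =
        Module.finrank W.K (W.H X) + ℓ * m := by
    obtain ⟨d, hd⟩ := degCycle_int (hops.mul hz (integral_diag hops X))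
    rw [two_smul_evenProj, ← deg_diag W hzc, hd]
    have h4 : (((d : ℚ)) : W.K) - (Module.finrank W.K (W.H X) : W.K) =
        ((d - (Module.finrank W.K (W.H X) : ℤ) : ℤ) : W.K) := by
      push_cast; rfl
    rw [h4]
    have h5 := intCast_mem_max_iff hℓ S.lat (d - (Module.finrank W.K (W.H X) : ℤ))
    unfold InMax
    rw [h5]
    constructor
    · rintro ⟨m, hm⟩
      refine ⟨m, ?_⟩
      have h6 : d = (Module.finrank W.K (W.H X) : ℤ) + ℓ * m := by rw [← hm]; ring
      rw [h6]; push_cast; rfl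
    · rintro ⟨m, hm⟩
      refine ⟨m, ?_⟩
      have h6 : d = (Module.finrank W.K (W.H X) : ℤ) + ℓ * m := by exact_mod_cast hm
      rw [h6]; ring
  constructor
  · intro h
    exact ⟨h2.1 h.sq, h3.1 h.dim⟩
  · rintro ⟨h4, h5⟩
    exact ⟨h2.2 h4, h3.2 h5⟩

theorem signMod_iff_num (hops : PreservesIntegral ops) (hℓ : ℓ.Prime) (hℓ2 : ℓ ≠ 2)
    (hb : Module.finrank W.K (W.H X) < ℓ)
    (S : IntegralStructure W X ℓ) (hS : S.lat.IsGraded (W.gr X)) :
    (∃ F ∈ intOps W X X.dim, S.lat.IsEvenProjMod (W.gr X) F) ↔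
      SignNumMod ops X (Module.finrank W.K (W.H X)) ℓ := by
  have H := idemSetup hops S hS
  rw [signMod_iff hops S hS]
  constructor
  · rintro ⟨a, ha, hmod⟩
    have hu : (2 : ℤ) • a - 1 ∈ intRing W X hops :=
      (intRing W X hops).sub_mem ((intRing W X hops).zsmul_mem ha 2) (intRing W X hops).one_mem
    obtain ⟨z, ⟨hz, hzc⟩, hze⟩ := rz_zero_iff.1 hu
    have h1 := num_of_mod H ha hmod
    rw [← hze] at h1
    obtain ⟨h2, h3⟩ := (isNumPar_iff hops hℓ S hz hzc).1 h1
    exact ⟨z, hz, hzc, h2, h3⟩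
  · rintro ⟨z, hz, hzc, h2, h3⟩
    exact mod_of_num hℓ hℓ2 hb H (rz_zero_iff.2 ⟨z, ⟨hz, hzc⟩, rfl⟩)
      ((isNumPar_iff hops hℓ S hz hzc).2 ⟨h2, h3⟩)

/-! ### Independence of the theory -/

lemma cast_two_sub {F M : Type*} [Field F] [CharZero F] [AddCommGroup M] [Module F M]
    (y : Module.End F M) : ((2 : ℚ) : F) • y + ((-1 : ℚ) : F) • (1 : Module.End F M) =
      (2 : F) • y - 1 := by
  push_cast
  rw [neg_one_smul, sub_eq_add_neg]

open Pool.Agent.H914 in
/-- The sign conjecture with coefficients in the local ring does not depend on the theory. -/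
theorem signAt_indep (hops : PreservesIntegral ops) (hℓ : ℓ.Prime)
    {W W' : WeilCohomology.{u, v} ops}
    (hb : Module.finrank W.K (W.H X) = Module.finrank W'.K (W'.H X))
    (h : SignAt W X ℓ) : SignAt W' X ℓ := by
  obtain ⟨z, hz, hzc, hze⟩ := h
  rw [isEvenProj_iff] at hze
  have hP := relOp_pairRel X W W'
  obtain ⟨x, hx⟩ : ∃ x, x = cycOp W' X z := ⟨_, rfl⟩
  have hrel : relOp X W W' (cycOp W X z) (cycOp W' X z) :=
    ⟨fun W => W.corr (W.cl _ z), Or.inl ⟨X.dim, by simp, z, hzc, fun _ => rfl⟩, rfl, rfl⟩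
  rw [hze, ← hx] at hrel
  obtain ⟨e, he⟩ : ∃ e, e = evenProj (W'.isInternal X) := ⟨_, rfl⟩
  have hee : e * e = e := by rw [he]; exact Sgn.evenProj_idem _
  have hxe : x * e = e * x := by
    rw [he, hx]
    have h1 : IsHom (W'.gr X) 0 (cycOp W' X z) := by
      have h2 : RInt ℓ W' X 0 (cycOp W' X z) := Or.inl ⟨X.dim, by simp, z, hz, hzc, rfl⟩
      simpa using rop_opAlg.hom h2.rop
    exact (Sgn.evenProj_comm _ h1).eq
  have hpar : relOp X W W' (par (W.isInternal X)) ((2 : W'.K) • x - 1) := by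
    have h1 := hP.add (hP.smul 2 hrel) (hP.smul (-1) hP.one)
    have h2 : ((2 : ℚ) : W.K) • evenProj (W.isInternal X) + ((-1 : ℚ) : W.K) • 1 =
        par (W.isInternal X) := by
      rw [← two_smul_evenProj]
      exact cast_two_sub _
    have h3 : ((2 : ℚ) : W'.K) • x + ((-1 : ℚ) : W'.K) • 1 = (2 : W'.K) • x - 1 := cast_two_sub x
    rw [h2, h3] at h1
    exact h1
  have hpow : ∀ r : ℕ, relOp X W W' (par (W.isInternal X) ^ r) (((2 : W'.K) • x - 1) ^ r) := by
    intro r
    induction r with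
    | zero => rw [pow_zero, pow_zero]; exact hP.one
    | succ r ih => rw [pow_succ, pow_succ]; exact hP.mul ih hpar
  have hpp : ∀ (W : WeilCohomology.{u, v} ops), par (W.isInternal X) * par (W.isInternal X) = 1 :=
    fun W => par_mul_par _
  have htr : ∀ r : ℕ,
      LinearMap.trace W'.K (W'.H X) (par (W'.isInternal X) * ((2 : W'.K) • x - 1) ^ r) =
        LinearMap.trace W'.K (W'.H X) (par (W'.isInternal X) * par (W'.isInternal X) ^ r) ∧
      LinearMap.trace W'.K (W'.H X) (par (W'.isInternal X) * ((2 : W'.K) • x - 1) ^ (r + 1)) =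
        LinearMap.trace W'.K (W'.H X)
          (par (W'.isInternal X) * par (W'.isInternal X) ^ (r + 1)) := by
    intro r
    induction r with
    | zero =>
      refine ⟨by rw [pow_zero, pow_zero], ?_⟩
      obtain ⟨q, hq, hq'⟩ := hP.tr (hpow 1)
      rw [zero_add, hq', pow_one, hpp, LinearMap.trace_one]
      rw [pow_one, hpp, LinearMap.trace_one] at hq
      have h1 : q = Module.finrank W.K (W.H X) := by exact_mod_cast hq.symm
      rw [h1, hb]
      push_cast; rfl
    | succ r ih =>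
      refine ⟨ih.2, ?_⟩
      obtain ⟨q, hq, hq'⟩ := hP.tr (hpow r)
      obtain ⟨q₂, hq₂, hq₂'⟩ := hP.tr (hpow (r + 1 + 1))
      have h1 : q₂ = q := by
        have h2 : (q₂ : W.K) = q := by
          rw [← hq, ← hq₂, pow_succ, pow_succ, mul_assoc (par (W.isInternal X) ^ r), hpp, mul_one]
        exact_mod_cast h2
      rw [hq₂', h1, ← hq', ih.1, pow_succ, pow_succ, mul_assoc (par (W'.isInternal X) ^ r), hpp,
        mul_one]
  obtain ⟨a, ha1, ha2⟩ := idem_of_traces' (κ := W'.K) (R := e) (U := (2 : W'.K) • x - 1) hee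
    (by rw [sub_mul, mul_sub, smul_mul_assoc, mul_smul_comm, hxe, one_mul, mul_one])
    two_ne_zero (fun r h0 _ => by exact_mod_cast h0.ne')
    (fun r => by rw [he, two_smul_evenProj]; exact (htr r).1)
  have h2 : (2 : W'.K) ≠ 0 := two_ne_zero
  have hG : 1 - (1 - x ^ a) ^ a = e := by
    apply idem_eq_of_nilp
    · have h3 : (2 : W'.K) • x - 1 - 1 = (2 : W'.K) • (x - 1) := by
        rw [smul_sub, two_smul _ (1 : Module.End W'.K (W'.H X))]; abel
      rw [h3, _root_.smul_pow, smul_mul_assoc, smul_eq_zero] at ha1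
      rcases ha1 with h4 | h4
      · exact absurd h4 (pow_ne_zero _ h2)
      · exact h4
    · have h3 : (2 : W'.K) • x - 1 + 1 = (2 : W'.K) • x := by rw [sub_add_cancel]
      rw [h3, _root_.smul_pow, smul_mul_assoc, smul_eq_zero] at ha2
      rcases ha2 with h4 | h4
      · exact absurd h4 (pow_ne_zero _ h2)
      · exact h4
  have hR := rint_opRing (W := W') (X := X) hops hℓ
  have hxR : RInt ℓ W' X 0 x := by rw [hx]; exact Or.inl ⟨X.dim, by simp, z, hz, hzc, rfl⟩
  have h1x : RInt ℓ W' X 0 (1 - x ^ a) :=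
    hR.sub hR.one (hR.cast (hR.pow hxR a) (by simp))
  have heR : RInt ℓ W' X 0 e := by
    rw [← hG]
    exact hR.sub hR.one (hR.cast (hR.pow h1x a) (by simp))
  rcases heR with ⟨q, hq, w, hw, hwc, hwe⟩ | ⟨hd, -⟩
  · obtain rfl : q = X.dim := by omega
    exact ⟨w, hw, hwc, isEvenProj_iff.2 (by rw [← hwe, he])⟩
  · omega

/-! ### All primes -/

lemma signStd_of_signAt (h : SignAt W X ℓ) : SignStd W X := by
  obtain ⟨z, -, hz, h⟩ := h
  exact ⟨z, hz, h⟩

lemma signAt_of_signStd (h : SignStd W X) :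
    ∃ N : ℕ, 0 < N ∧ ∀ ℓ : ℕ, ℓ.Prime → ¬ ℓ ∣ N → SignAt W X ℓ := by
  obtain ⟨z, hz, h⟩ := h
  obtain ⟨N, hN0, hNz⟩ := exists_denominator (X.prod X) z
  refine ⟨N, hN0, fun ℓ hℓ hdvd => ⟨z, ?_, hz, h⟩⟩
  have h1 : z = (N : ℚ)⁻¹ • ((N : ℚ) • z) := by
    rw [smul_smul, inv_mul_cancel₀ (by exact_mod_cast hN0.ne'), one_smul]
  rw [h1]
  exact (hNz.at hℓ).smul hℓ (den_inv_nat hdvd)

/-- The sign conjecture does not depend on the theory. -/
lemma signStd_indep (hops : PreservesIntegral ops) {W W' : WeilCohomology.{u, v} ops}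
    (hb : Module.finrank W.K (W.H X) = Module.finrank W'.K (W'.H X)) (h : SignStd W X) :
    SignStd W' X := by
  obtain ⟨N, hN, h1⟩ := signAt_of_signStd h
  obtain ⟨p, hp1, hp2⟩ := Nat.exists_infinite_primes (N + 1)
  exact signStd_of_signAt (signAt_indep hops hp2 hb (h1 p hp2 (fun hdvd => by
    have := Nat.le_of_dvd hN hdvd
    omega)))

/-- **The sign conjecture modulo a prime number.** -/
theorem sgn_main (hops : PreservesIntegral ops) (X : 𝒱.Obj) (W₀ W : WeilCohomology.{u, v} ops)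
    (hb : Module.finrank W.K (W.H X) = Module.finrank W₀.K (W₀.H X))
    {ℓ : ℕ} (hℓ : ℓ.Prime) (S : IntegralStructure W X ℓ) (hS : S.lat.IsGraded (W.gr X)) :
    S.SignCriteria W₀ ∧
    (Module.finrank W₀.K (W₀.H X) < ℓ → ℓ ≠ 2 →
      (SignAt W₀ X ℓ ↔ SignNumMod ops X (Module.finrank W₀.K (W₀.H X)) ℓ)) := by
  have h0 : SignAt W₀ X ℓ ↔ SignAt W X ℓ :=
    ⟨signAt_indep hops hℓ hb.symm, signAt_indep hops hℓ hb⟩
  have h1 := signAt_iff_signMod hops hℓ S hS
  have h2 := spanO_tests hops S hS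
  refine ⟨⟨⟨h0.trans h1, (h0.trans h1).trans (signMod_iff_separates hops S hS)⟩, h2.1, h2.2,
    fun h => signStd_indep hops hb (signStd_of_spanO h), fun hκ => ?_⟩, fun hlt hℓ2 => ?_⟩
  · exact h2.2.trans ((signMod_iff_stable hops S hS hκ).symm.trans (h0.trans h1).symm)
  · rw [← hb] at hlt ⊢
    exact (h0.trans h1).trans (signMod_iff_num hops hℓ hℓ2 hlt S hS)

end Pool.Agent.H838
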