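import Pool.Agent.H838.IdemMod
import Pool.Agent.H838.SgnDefs

/-!
# Idempotents modulo the maximal ideal and rings of operators

`A` is a ring of operators which preserve a lattice `T` and commute with an idempotent `e`.
-/

open Polynomial

namespace Pool.Agent.H838

open Pool.Agent.H914

section Num

variable {κ M : Type*} [Field κ] [AddCommGroup M] [Module κ M] {R U : Module.End κ M}

lemma par_sq (hR : R * R = R) : ((2 : κ) • R - 1) * ((2 : κ) • R - 1) = 1 := by
  rw [mul_sub, mul_one, sub_mul, one_mul, smul_mul_assoc, mul_smul_comm, hR, smul_smul,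
    ← sub_add, sub_sub]
  have h1 : ((2 : κ) * 2) • R = (2 : κ) • R + (2 : κ) • R := by rw [← add_smul]; norm_num
  rw [h1]
  abel

lemma par_pow_succ_succ (hR : R * R = R) (r : ℕ) :
    ((2 : κ) • R - 1) ^ (r + 2) = ((2 : κ) • R - 1) ^ r := by
  rw [pow_add, pow_two, par_sq hR, mul_one]

lemma aeval_par (hR : R * R = R) (G : κ[X]) :
    Polynomial.aeval ((2 : κ) • R - 1) G = (G.eval 1) • R + (G.eval (-1)) • (1 - R) := by
  have h0 : ∀ r : ℕ, ((2 : κ) • R - 1) ^ r = R + ((-1 : κ) ^ r) • (1 - R) := by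
    intro r
    induction r with
    | zero => rw [pow_zero, pow_zero, one_smul]; abel
    | succ r ih =>
      have e1 : R * ((2 : κ) • R - 1) = R := by
        rw [mul_sub, mul_smul_comm, hR, mul_one, two_smul]; abel
      have e2 : (1 - R) * ((2 : κ) • R - 1) = - (1 - R) := by
        rw [sub_mul, one_mul, e1, two_smul]; abel
      rw [pow_succ, ih, add_mul, smul_mul_assoc, e1, e2, pow_succ, mul_neg_one, neg_smul, smul_neg]
  induction G using Polynomial.induction_on' with
  | add p q hp hq =>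
    rw [map_add, hp, hq, Polynomial.eval_add, Polynomial.eval_add, add_smul, add_smul]; abel
  | monomial r c =>
    rw [Polynomial.aeval_monomial, Algebra.algebraMap_eq_smul_one, smul_mul_assoc, one_mul, h0,
      Polynomial.eval_monomial, Polynomial.eval_monomial, one_pow, mul_one, smul_add, smul_smul]

/-- **Idempotents from traces.** -/
theorem idem_of_traces [Module.Finite κ M] (hR : R * R = R) (hU : U * R = R * U)
    (h2 : (2 : κ) ≠ 0) (hdim : ∀ r : ℕ, 0 < r → r ≤ Module.finrank κ M → (r : κ) ≠ 0)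
    (ht : ∀ r : ℕ, LinearMap.trace κ M (((2 : κ) • R - 1) * U ^ r) =
      LinearMap.trace κ M (((2 : κ) • R - 1) * ((2 : κ) • R - 1) ^ r)) :
    ∃ a : ℕ, (U - 1) ^ a * R = 0 := by
  have hp0 : LinearMap.charpoly U * ((X + C 1) * (X - C 1)) ≠ 0 :=
    mul_ne_zero (LinearMap.charpoly_monic U).ne_zero
      (mul_ne_zero (Polynomial.X_add_C_ne_zero _) (Polynomial.X_sub_C_ne_zero _))
  obtain ⟨h, hF, hd⟩ := exists_eq_pow_rootMultiplicity_mul_and_not_dvd _ hp0 (1 : κ)
  have ha : 0 < (LinearMap.charpoly U * ((X + C 1) * (X - C 1))).rootMultiplicity 1 := by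
    rw [Polynomial.rootMultiplicity_pos hp0, Polynomial.IsRoot]
    simp
  generalize (LinearMap.charpoly U * ((X + C 1) * (X - C 1))).rootMultiplicity 1 = a at hF ha
  have hcop : IsCoprime ((X - C (1 : κ)) ^ a) h :=
    (((Polynomial.irreducible_X_sub_C (1 : κ)).coprime_iff_not_dvd).2 hd).pow_left
  obtain ⟨s, t, hst⟩ := hcop
  have hh : h.eval (-1) = 0 := by
    have h1 := congrArg (fun P : κ[X] => P.eval (-1)) hF
    simp only [Polynomial.eval_mul, Polynomial.eval_add, Polynomial.eval_sub, Polynomial.eval_X,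
      Polynomial.eval_C, Polynomial.eval_pow] at h1
    rw [neg_add_cancel, zero_mul, mul_zero] at h1
    have h3 : (-1 - 1 : κ) ≠ 0 := by
      intro h4
      apply h2
      have : (2 : κ) = -(-1 - 1) := by ring
      rw [this, h4, neg_zero]
    rcases mul_eq_zero.1 h1.symm with h4 | h4
    · exact absurd h4 (pow_ne_zero _ h3)
    · exact h4
  have hFU : Polynomial.aeval U ((X - C (1 : κ)) ^ a * h) = 0 := by
    rw [← hF, map_mul, LinearMap.aeval_self_charpoly, zero_mul]
  obtain ⟨P, hP⟩ : ∃ P, P = Polynomial.aeval U (t * h) := ⟨_, rfl⟩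
  have hPP : P * P = P := by
    rw [hP, ← map_mul, ← sub_eq_zero, ← map_sub]
    have h1 : t * h * (t * h) - t * h = -(t * s) * ((X - C 1) ^ a * h) := by
      have h3 : t * h = 1 - s * (X - C 1) ^ a := by rw [← hst]; ring
      calc t * h * (t * h) - t * h = t * h * (t * h - 1) := by ring
        _ = t * h * ((1 - s * (X - C 1) ^ a) - 1) := by rw [← h3]
        _ = _ := by ring
    rw [h1, map_mul, hFU, mul_zero]
  have hPR : P * R = R * P := by
    rw [hP]
    exact aeval_comm hU _
  have hev1 : (t * h).eval 1 = 1 := by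
    have h1 := congrArg (fun P : κ[X] => P.eval 1) hst
    simp only [Polynomial.eval_mul, Polynomial.eval_add, Polynomial.eval_sub, Polynomial.eval_X,
      Polynomial.eval_C, Polynomial.eval_pow, Polynomial.eval_one, sub_self] at h1
    rw [zero_pow ha.ne', mul_zero, zero_add] at h1
    rw [Polynomial.eval_mul]
    exact h1
  have hev2 : (t * h).eval (-1) = 0 := by rw [Polynomial.eval_mul, hh, mul_zero]
  have htG : ∀ G : κ[X], LinearMap.trace κ M (((2 : κ) • R - 1) * Polynomial.aeval U G) =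
      LinearMap.trace κ M (((2 : κ) • R - 1) * Polynomial.aeval ((2 : κ) • R - 1) G) := by
    intro G
    induction G using Polynomial.induction_on' with
    | add p q hp hq => rw [map_add, map_add, mul_add, mul_add, map_add, map_add, hp, hq]
    | monomial r c =>
      rw [Polynomial.aeval_monomial, Polynomial.aeval_monomial, Algebra.algebraMap_eq_smul_one,
        smul_mul_assoc, smul_mul_assoc, one_mul, one_mul, mul_smul_comm, mul_smul_comm, map_smul,
        map_smul, ht]
  have hRR : ((2 : κ) • R - 1) * R = R := by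
    rw [sub_mul, smul_mul_assoc, hR, one_mul, two_smul, add_sub_cancel_right]
  have htP : LinearMap.trace κ M (((2 : κ) • R - 1) * P) = LinearMap.trace κ M R := by
    rw [hP, htG, aeval_par hR, hev1, hev2, one_smul, zero_smul, add_zero, hRR]
  -- the symmetric difference
  obtain ⟨Q, hQ⟩ : ∃ Q, Q = R + P - (2 : κ) • (R * P) := ⟨_, rfl⟩
  have hQQ : Q * Q = Q := by
    have e1 : R * (R * P) = R * P := by rw [← mul_assoc, hR]
    have e2 : R * P * R = R * P := by rw [mul_assoc, hPR, e1]
    have e3 : P * (R * P) = R * P := by rw [← mul_assoc, hPR, mul_assoc, hPP]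
    have e4 : R * P * P = R * P := by rw [mul_assoc, hPP]
    have e5 : R * P * (R * P) = R * P := by rw [← mul_assoc, e2, e4]
    rw [hQ]
    simp only [mul_sub, sub_mul, mul_add, add_mul, e1, e2, e3, e4, e5, hR, hPP, hPR, two_smul]
    abel
  have htQ : LinearMap.trace κ M Q = 0 := by
    have h1 : Q = R - ((2 : κ) • R - 1) * P := by
      rw [hQ, sub_mul, smul_mul_assoc, one_mul]; abel
    rw [h1, map_sub, htP, sub_self]
  have hQproj : LinearMap.IsProj (LinearMap.range Q) Q := by
    constructor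
    · intro y
      exact LinearMap.mem_range_self Q y
    · rintro _ ⟨y, rfl⟩
      rw [← Module.End.mul_apply, hQQ]
  have hfin : Module.finrank κ (LinearMap.range Q) = 0 := by
    by_contra h0
    have h1 := hdim _ (Nat.pos_of_ne_zero h0) (Submodule.finrank_le _)
    rw [← hQproj.trace, htQ] at h1
    exact h1 rfl
  have hQ0 : Q = 0 := by
    rw [Submodule.finrank_eq_zero, LinearMap.range_eq_bot] at hfin
    exact hfin
  have hRP : R = R * P := by
    have h1 : R * Q = R - R * P := by
      rw [hQ, mul_sub, mul_add, hR, mul_smul_comm, ← mul_assoc, hR, two_smul]; abel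
    rw [hQ0, mul_zero] at h1
    exact sub_eq_zero.1 h1.symm
  have hPeq : P = R := by
    have h1 : R + P - (2 : κ) • (R * P) = 0 := by rw [← hQ, hQ0]
    rw [← hRP, two_smul] at h1
    have h3 : P - R = R + P - (R + R) := by abel
    rw [← sub_eq_zero, h3, h1]
  refine ⟨a, ?_⟩
  rw [← hPeq, hP]
  have h1 : (U - 1) ^ a = Polynomial.aeval U ((X - C (1 : κ)) ^ a) := by
    rw [map_pow, map_sub, Polynomial.aeval_X, Polynomial.aeval_C, map_one]
  rw [h1, ← map_mul]
  have h3 : (X - C (1 : κ)) ^ a * (t * h) = t * ((X - C 1) ^ a * h) := by ring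
  rw [h3, map_mul, hFU, mul_zero]

end Num

section Ring

variable {K : Type*} [Field K] {V : Type*} [AddCommGroup V] [Module K V] {ℓ : ℕ}

/-- The ring `A` of operators and the idempotent `e` preserve the lattice and commute. -/
structure IdemSetup (S : Lat K V ℓ) (A : Subring (Module.End K V)) (e : Module.End K V) :
    Prop where
  pres : ∀ a ∈ A, S.Preserves a
  presE : S.Preserves e
  idem : e * e = e
  comm : ∀ a ∈ A, a * e = e * a

/-- The operators which have a multiple in `A` by a number prime to `ℓ`. -/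
def MemLoc (A : Subring (Module.End K V)) (ℓ : ℕ) (x : Module.End K V) : Prop :=
  ∃ n : ℕ, ¬ ℓ ∣ n ∧ n • x ∈ A

/-- The element lies in the maximal ideal. -/
def InMax (S : Lat K V ℓ) (x : K) : Prop :=
  ∃ r ∈ IsLocalRing.maximalIdeal S.O, ((r : S.O) : K) = x

variable {S : Lat K V ℓ} {A : Subring (Module.End K V)} {e : Module.End K V}

lemma InMax.add {x y : K} (hx : InMax S x) (hy : InMax S y) : InMax S (x + y) := by
  obtain ⟨a, ha, rfl⟩ := hx
  obtain ⟨b, hb, rfl⟩ := hy
  exact ⟨a + b, Ideal.add_mem _ ha hb, by push_cast; rfl⟩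

lemma InMax.neg {x : K} (hx : InMax S x) : InMax S (-x) := by
  obtain ⟨a, ha, rfl⟩ := hx
  exact ⟨-a, (Ideal.neg_mem_iff _).2 ha, by push_cast; rfl⟩

lemma MemLoc.of_mem (hℓ : ℓ.Prime) {x : Module.End K V} (hx : x ∈ A) : MemLoc A ℓ x :=
  ⟨1, hℓ.one_lt.ne' ∘ Nat.dvd_one.1, by rw [one_smul]; exact hx⟩

lemma MemLoc.add (hℓ : ℓ.Prime) {x y : Module.End K V} (hx : MemLoc A ℓ x)
    (hy : MemLoc A ℓ y) : MemLoc A ℓ (x + y) := by
  obtain ⟨n, hn, hnx⟩ := hx
  obtain ⟨m, hm, hmy⟩ := hy
  refine ⟨n * m, fun h => (hℓ.dvd_mul.1 h).elim hn hm, ?_⟩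
  have h1 : (n * m) • (x + y) = m • (n • x) + n • (m • y) := by
    rw [smul_add, mul_smul, mul_comm, mul_smul, smul_smul, smul_smul, smul_smul, smul_smul,
      mul_comm m n]
  rw [h1]
  exact A.add_mem (A.nsmul_mem hnx m) (A.nsmul_mem hmy n)

lemma MemLoc.neg {x : Module.End K V} (hx : MemLoc A ℓ x) : MemLoc A ℓ (-x) := by
  obtain ⟨n, hn, hnx⟩ := hx
  exact ⟨n, hn, by rw [smul_neg]; exact A.neg_mem hnx⟩

lemma MemLoc.mul (hℓ : ℓ.Prime) {x y : Module.End K V} (hx : MemLoc A ℓ x)
    (hy : MemLoc A ℓ y) : MemLoc A ℓ (x * y) := by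
  obtain ⟨n, hn, hnx⟩ := hx
  obtain ⟨m, hm, hmy⟩ := hy
  refine ⟨n * m, fun h => (hℓ.dvd_mul.1 h).elim hn hm, ?_⟩
  have h1 : (n * m) • (x * y) = (n • x) * (m • y) := by
    rw [smul_mul_smul_comm]
  rw [h1]
  exact A.mul_mem hnx hmy

lemma MemLoc.one_sub (hℓ : ℓ.Prime) {x : Module.End K V} (hx : MemLoc A ℓ x) :
    MemLoc A ℓ (1 - x) := by
  rw [sub_eq_add_neg]
  exact MemLoc.add hℓ (MemLoc.of_mem hℓ A.one_mem) hx.neg

lemma MemLoc.pow (hℓ : ℓ.Prime) {x : Module.End K V} (hx : MemLoc A ℓ x) (r : ℕ) :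
    MemLoc A ℓ (x ^ r) := by
  induction r with
  | zero => rw [pow_zero]; exact MemLoc.of_mem hℓ A.one_mem
  | succ r ih => rw [pow_succ]; exact MemLoc.mul hℓ ih hx

lemma MemLoc.ratSmul [CharZero K] (hℓ : ℓ.Prime) {x : Module.End K V} (hx : MemLoc A ℓ x) {q : ℚ}
    (hq : ¬ ℓ ∣ q.den) : MemLoc A ℓ ((q : K) • x) := by
  obtain ⟨n, hn, hnx⟩ := hx
  refine ⟨q.den * n, fun h => (hℓ.dvd_mul.1 h).elim hq hn, ?_⟩
  have h1 : (q.den * n) • ((q : K) • x) = q.num • (n • x) := by
    rw [← Nat.cast_smul_eq_nsmul K, smul_smul, ← Nat.cast_smul_eq_nsmul K n,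
      ← Int.cast_smul_eq_zsmul K, smul_smul]
    congr 1
    have h2 : (q.den : K) * (q : K) = q.num := by
      have h3 := Rat.den_mul_eq_num q
      have h4 := congrArg (fun x : ℚ => (x : K)) h3
      push_cast at h4
      exact h4
    push_cast
    rw [mul_right_comm, h2]
  rw [h1]
  exact A.zsmul_mem hnx _

lemma MemLoc.sum {ι : Type*} (hℓ : ℓ.Prime) (s : Finset ι) {x : ι → Module.End K V}
    (hx : ∀ i ∈ s, MemLoc A ℓ (x i)) : MemLoc A ℓ (∑ i ∈ s, x i) := by
  classical
  induction s using Finset.induction_on with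
  | empty => rw [Finset.sum_empty]; exact MemLoc.of_mem hℓ A.zero_mem
  | insert a s ha ih =>
    rw [Finset.sum_insert ha]
    exact MemLoc.add hℓ (hx a (Finset.mem_insert_self a s))
      (ih fun i hi => hx i (Finset.mem_insert_of_mem hi))

lemma MemLoc.ev [CharZero K] (hℓ : ℓ.Prime) {x : Module.End K V} (hx : MemLoc A ℓ x) (f : ℚ[X])
    (hf : ∀ i, ¬ ℓ ∣ (f.coeff i).den) : MemLoc A ℓ (H914.ev x f) := by
  rw [f.as_sum_range_C_mul_X_pow, map_sum]
  apply MemLoc.sum hℓ
  intro i _
  rw [map_mul, map_pow, ev_C, ev_X, smul_mul_assoc, one_mul]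
  exact (hx.pow hℓ i).ratSmul hℓ (hf i)

/-- **From the maximal ideal to the local ring.** -/
theorem memLoc_of_mod [CharZero K] [Module.Finite K V] (hℓ : ℓ.Prime) (H : IdemSetup S A e)
    (htr : ∀ a ∈ A, ∃ q : ℚ, LinearMap.trace K V (a * e) -
      LinearMap.trace K V (a * (1 - e)) = (q : K))
    {a : Module.End K V} (ha : a ∈ A) (hmod : S.IsZeroMod (a - e)) : MemLoc A ℓ e := by
  obtain ⟨f, q, hf, hq, hfq⟩ := exists_local_idem (H.pres a ha) H.presE H.idem (H.comm a ha) hmod
    (fun r => htr _ (A.pow_mem ha r))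
  have h1 : MemLoc A ℓ (1 - H914.ev a f * a) :=
    MemLoc.one_sub hℓ (MemLoc.mul hℓ (MemLoc.ev hℓ (MemLoc.of_mem hℓ ha) f
      (fun i => S.not_dvd_den (hf i))) (MemLoc.of_mem hℓ ha))
  have h2 : MemLoc A ℓ (1 - e) := by
    rw [hfq]
    exact MemLoc.mul hℓ (MemLoc.ev hℓ h1 q (fun i => S.not_dvd_den (hq i))) h1
  have h3 := MemLoc.one_sub hℓ h2
  rwa [sub_sub_cancel] at h3

/-- A multiple prime to `ℓ` gives an operator of the ring congruent to `e`. -/
lemma mod_of_memLoc (hℓ : ℓ.Prime) (H : IdemSetup S A e) (h : MemLoc A ℓ e) :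
    ∃ a ∈ A, S.IsZeroMod (a - e) := by
  obtain ⟨n, hn, hne⟩ := h
  have hcop : Nat.Coprime ℓ n := (hℓ.coprime_iff_not_dvd).2 hn
  obtain ⟨x, y, hxy⟩ := Nat.isCoprime_iff_coprime.2 hcop
  refine ⟨y • (n • e), A.zsmul_mem hne y, ?_⟩
  have h1 : y • (n • e) - e = (-x) • ((ℓ : ℤ) • e) := by
    have h2 : y • (n • e) = (y * n) • e := by rw [mul_smul, natCast_zsmul]
    have h3 : y * (n : ℤ) = 1 - x * ℓ := by rw [← hxy]; ring
    rw [h2, h3, sub_smul, one_smul, mul_smul, neg_smul]
    abel
  rw [h1]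
  apply Lat.IsZeroMod.zsmul
  intro t ht
  rw [LinearMap.smul_apply]
  exact Lat.memMax_zsmul_dvd (dvd_refl _) (H.presE t ht)

/-! ### Pointwise -/

/-- One even vector after the other. -/
lemma exists_on_list {HP HN : Set V} (H : IdemSetup S A e)
    (hP : ∀ t ∈ HP, ∀ a ∈ A, t - a t ∈ HP)
    (hPN : ∀ t ∈ HP, ∀ t' ∈ HN, ∃ a ∈ A, S.MemMax (a t - t) ∧ S.MemMax (a t'))
    (L : List V) (hL : ∀ t ∈ L, t ∈ HP) {t' : V} (ht' : t' ∈ HN) :
    ∃ a ∈ A, (∀ t ∈ L, S.MemMax (a t - t)) ∧ S.MemMax (a t') := by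
  induction L with
  | nil =>
    refine ⟨0, A.zero_mem, fun t ht => absurd ht List.not_mem_nil, ?_⟩
    rw [LinearMap.zero_apply]
    exact Lat.MemMax.zero
  | cons t L ih =>
    obtain ⟨z, hz, hzL, hzt'⟩ := ih fun s hs => hL s (List.mem_cons_of_mem t hs)
    obtain ⟨y, hy, hyt, hyt'⟩ := hPN _ (hP t (hL t List.mem_cons_self) z hz) t' ht'
    refine ⟨z + y * (1 - z), A.add_mem hz (A.mul_mem hy (A.sub_mem A.one_mem hz)), ?_, ?_⟩
    · intro s hs
      rcases List.mem_cons.1 hs with rfl | hs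
      · have h1 : (z + y * (1 - z)) s - s = y (s - z s) - (s - z s) := by
          rw [LinearMap.add_apply, Module.End.mul_apply, LinearMap.sub_apply,
            Module.End.one_apply]
          abel
        rw [h1]
        exact hyt
      · have h1 : (z + y * (1 - z)) s - s = (z s - s) - y (z s - s) := by
          rw [LinearMap.add_apply, Module.End.mul_apply, LinearMap.sub_apply,
            Module.End.one_apply, map_sub, map_sub]
          abel
        rw [h1]
        exact (hzL s hs).sub ((H.pres y hy).max (hzL s hs))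
    · have h1 : (z + y * (1 - z)) t' = z t' + (y t' - y (z t')) := by
        rw [LinearMap.add_apply, Module.End.mul_apply, LinearMap.sub_apply,
          Module.End.one_apply, map_sub]
      rw [h1]
      exact hzt'.add (hyt'.sub ((H.pres y hy).max hzt'))

/-- All vectors of two lists at once. -/
lemma exists_on_lists {HP HN : Set V} (H : IdemSetup S A e)
    (hP : ∀ t ∈ HP, ∀ a ∈ A, t - a t ∈ HP) (hN : ∀ t ∈ HN, ∀ a ∈ A, a t ∈ HN)
    (hPN : ∀ t ∈ HP, ∀ t' ∈ HN, ∃ a ∈ A, S.MemMax (a t - t) ∧ S.MemMax (a t'))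
    (L : List V) (hL : ∀ t ∈ L, t ∈ HP) (L' : List V) (hL' : ∀ t ∈ L', t ∈ HN) :
    ∃ a ∈ A, (∀ t ∈ L, S.MemMax (a t - t)) ∧ ∀ t ∈ L', S.MemMax (a t) := by
  induction L' with
  | nil =>
    refine ⟨1, A.one_mem, fun t _ => ?_, fun t ht => absurd ht List.not_mem_nil⟩
    rw [Module.End.one_apply, sub_self]
    exact Lat.MemMax.zero
  | cons t' L' ih =>
    obtain ⟨z, hz, hzL, hzL'⟩ := ih fun s hs => hL' s (List.mem_cons_of_mem t' hs)
    obtain ⟨y, hy, hyL, hyt'⟩ := exists_on_list H hP hPN L hL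
      (hN t' (hL' t' List.mem_cons_self) z hz)
    refine ⟨y * z, A.mul_mem hy hz, ?_, ?_⟩
    · intro s hs
      have h1 : (y * z) s - s = y (z s - s) + (y s - s) := by
        rw [Module.End.mul_apply, map_sub]; abel
      rw [h1]
      exact ((H.pres y hy).max (hzL s hs)).add (hyL s hs)
    · intro s hs
      rw [Module.End.mul_apply]
      rcases List.mem_cons.1 hs with rfl | hs
      · exact hyt'
      · exact (H.pres y hy).max (hzL' s hs)

/-- **From the pointwise statement.** Let the lattice be spanned by vectors in `HP`, which are fixed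
by `e`, and vectors in `HN`, which are killed by `e`. -/
theorem mod_of_pointwise {HP HN : Set V} (H : IdemSetup S A e)
    (hP : ∀ t ∈ HP, ∀ a ∈ A, t - a t ∈ HP) (hN : ∀ t ∈ HN, ∀ a ∈ A, a t ∈ HN)
    (heP : ∀ t ∈ HP, e t = t) (heN : ∀ t ∈ HN, e t = 0)
    (hspan : S.T = Submodule.span S.O (HP ∪ HN))
    (hPN : ∀ t ∈ HP, ∀ t' ∈ HN, ∃ a ∈ A, S.MemMax (a t - t) ∧ S.MemMax (a t')) :
    ∃ a ∈ A, S.IsZeroMod (a - e) := by
  classical
  have hfg : (Submodule.span S.O (HP ∪ HN)).FG := by rw [← hspan]; exact S.fg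
  obtain ⟨s, hs, hspan'⟩ := (Submodule.fg_span_iff_fg_span_finset_subset _).1 hfg
  obtain ⟨a, ha, haL, haL'⟩ := exists_on_lists H hP hN hPN
    (s.filter (fun t => t ∈ HP)).toList (fun t ht => by
      rw [Finset.mem_toList, Finset.mem_filter] at ht; exact ht.2)
    (s.filter (fun t => t ∈ HN)).toList (fun t ht => by
      rw [Finset.mem_toList, Finset.mem_filter] at ht; exact ht.2)
  refine ⟨a, ha, fun t ht => ?_⟩
  rw [hspan, hspan'] at ht
  induction ht using Submodule.span_induction with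
  | mem x hx =>
    rw [LinearMap.sub_apply]
    rcases hs hx with h1 | h1
    · rw [heP x h1]
      exact haL x (by rw [Finset.mem_toList, Finset.mem_filter]; exact ⟨hx, h1⟩)
    · rw [heN x h1, sub_zero]
      exact haL' x (by rw [Finset.mem_toList, Finset.mem_filter]; exact ⟨hx, h1⟩)
  | zero => rw [map_zero]; exact Lat.MemMax.zero
  | add x y _ _ hx hy => rw [map_add]; exact hx.add hy
  | smul c x _ hx =>
    have h1 : (a - e) (c • x) = c • (a - e) x := (a - e).map_smul (c : K) x
    rw [h1]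
    exact Submodule.smul_mem _ _ hx

/-- **From the stable submodules to pairs of vectors.** -/
theorem pointwise_of_stable (hκ : ∀ c : S.O, ∀ a ∈ A, ∃ a' ∈ A, ∀ t ∈ S.T,
      S.MemMax (a' t - (c : K) • a t)) (H : IdemSetup S A e)
    (hst : ∀ U : Submodule S.O V, (∀ t, S.MemMax t → t ∈ U) → U ≤ S.T →
      (∀ a ∈ A, ∀ t ∈ U, a t ∈ U) → ∀ t ∈ U, e t ∈ U)
    {t t' : V} (ht : t ∈ S.T) (ht' : t' ∈ S.T) (het : e t = t) (het' : e t' = 0) :
    ∃ a ∈ A, S.MemMax (a t - t) ∧ S.MemMax (a t') := by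
  set M : Submodule S.O V := IsLocalRing.maximalIdeal S.O • S.T with hM
  set N : Submodule S.O V := Submodule.span S.O {s | ∃ a ∈ A, a (t + t') = s} with hN
  have hNle : N ≤ S.T := by
    rw [hN, Submodule.span_le]
    rintro _ ⟨a, ha, rfl⟩
    exact H.pres a ha _ (Submodule.add_mem _ ht ht')
  have hNst : ∀ a ∈ A, ∀ s ∈ N, a s ∈ N := by
    intro a ha s hs
    rw [hN] at hs
    induction hs using Submodule.span_induction with
    | mem x hx =>
      obtain ⟨b, hb, rfl⟩ := hx
      exact Submodule.subset_span ⟨a * b, A.mul_mem ha hb, rfl⟩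
    | zero => rw [map_zero]; exact Submodule.zero_mem _
    | add x y _ _ hx hy => rw [map_add]; exact Submodule.add_mem _ hx hy
    | smul c x _ hx =>
      have h1 : a (c • x) = c • a x := a.map_smul (c : K) x
      rw [h1]
      exact Submodule.smul_mem _ _ hx
  have h1 := hst (N ⊔ M) (fun s hs => (le_sup_right : M ≤ N ⊔ M) hs)
    (sup_le hNle Submodule.smul_le_right)
    (by
      intro a ha s hs
      obtain ⟨x, hx, y, hy, rfl⟩ := Submodule.mem_sup.1 hs
      rw [map_add]
      exact Submodule.add_mem _ ((le_sup_left : N ≤ N ⊔ M) (hNst a ha x hx))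
        ((le_sup_right : M ≤ N ⊔ M) ((H.pres a ha).max hy)))
    (t + t') ((le_sup_left : N ≤ N ⊔ M) (Submodule.subset_span ⟨1, A.one_mem, rfl⟩))
  rw [map_add, het, het', add_zero] at h1
  -- integral coefficients
  have h2 : ∀ s ∈ N, ∃ a ∈ A, S.MemMax (a (t + t') - s) := by
    intro s hs
    rw [hN] at hs
    induction hs using Submodule.span_induction with
    | mem x hx =>
      obtain ⟨b, hb, rfl⟩ := hx
      exact ⟨b, hb, by rw [sub_self]; exact Lat.MemMax.zero⟩
    | zero => exact ⟨0, A.zero_mem, by rw [LinearMap.zero_apply, sub_self]; exact Lat.MemMax.zero⟩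
    | add x y _ _ hx hy =>
      obtain ⟨a, ha, hax⟩ := hx
      obtain ⟨b, hb, hby⟩ := hy
      refine ⟨a + b, A.add_mem ha hb, ?_⟩
      rw [LinearMap.add_apply, add_sub_add_comm]
      exact hax.add hby
    | smul c x hx' hx =>
      obtain ⟨a, ha, hax⟩ := hx
      obtain ⟨a', ha', haa⟩ := hκ c a ha
      refine ⟨a', ha', ?_⟩
      have h3 : a' (t + t') - c • x =
          (a' (t + t') - (c : K) • a (t + t')) + c • (a (t + t') - x) := by
        rw [smul_sub]
        have h4 : (c : K) • a (t + t') = c • a (t + t') := rfl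
        rw [h4]
        abel
      rw [h3]
      exact (haa _ (Submodule.add_mem _ ht ht')).add (Submodule.smul_mem _ _ hax)
  obtain ⟨x, hx, y, hy, hxy⟩ := Submodule.mem_sup.1 h1
  obtain ⟨a, ha, hax⟩ := h2 x hx
  have h3 : S.MemMax (a (t + t') - t) := by
    have h4 : a (t + t') - t = (a (t + t') - x) - y := by rw [← hxy]; abel
    rw [h4]
    exact hax.sub hy
  have hae : ∀ s, e (a s) = a (e s) := by
    intro s
    have h5 := congrArg (fun F : Module.End K V => F s) (H.comm a ha)
    exact h5.symm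
  have h4 : S.MemMax (a t - t) := by
    have h5 := H.presE.max h3
    rw [map_sub, map_add, map_add, hae, hae, het, het', map_zero, add_zero] at h5
    exact h5
  refine ⟨a, ha, h4, ?_⟩
  have h5 : a t' = (a (t + t') - t) - (a t - t) := by rw [map_add]; abel
  rw [h5]
  exact h3.sub h4

lemma hκ_of_prime (hκ : S.HasPrimeResidueField) (H : IdemSetup S A e) :
    ∀ c : S.O, ∀ a ∈ A, ∃ a' ∈ A, ∀ t ∈ S.T, S.MemMax (a' t - (c : K) • a t) := by
  intro c a ha
  obtain ⟨n, hn⟩ := hκ c
  refine ⟨n • a, A.zsmul_mem ha n, fun t ht => ?_⟩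
  have h3 : (n • a) t - (c : K) • a t = -((c - (n : S.O)) • a t) := by
    rw [LinearMap.smul_apply, sub_smul]
    have h4 : (n : S.O) • a t = n • a t := by
      rw [Int.cast_smul_eq_zsmul]
    have h5 : (c : K) • a t = c • a t := rfl
    rw [h4, h5]
    abel
  rw [h3]
  exact Lat.MemMax.neg (Submodule.smul_mem_smul hn (H.pres a ha t ht))

/-- Stable submodules are stable under the idempotent. -/
lemma stable_of_mod {a : Module.End K V} (hmod : S.IsZeroMod (a - e))
    {U : Submodule S.O V} (hU : ∀ t, S.MemMax t → t ∈ U) (hUT : U ≤ S.T)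
    (hst : ∀ t ∈ U, a t ∈ U) : ∀ t ∈ U, e t ∈ U := by
  intro t ht
  have h1 := hU _ (hmod t (hUT ht))
  rw [LinearMap.sub_apply] at h1
  have h2 := Submodule.sub_mem _ (hst t ht) h1
  rwa [sub_sub_cancel] at h2

/-! ### Coefficients in the valuation ring -/

lemma spanO_smul (c : S.O) {Φ : Set (Module.End K V)} {x : Module.End K V}
    (hx : x ∈ S.spanO Φ) : (c : K) • x ∈ S.spanO Φ := by
  unfold Lat.spanO at hx ⊢
  induction hx using AddSubgroup.closure_induction with
  | mem x hx =>
    obtain ⟨d, F, hF, rfl⟩ := hx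
    exact AddSubgroup.subset_closure ⟨c * d, F, hF, by rw [smul_smul]; push_cast; rfl⟩
  | zero => rw [smul_zero]; exact AddSubgroup.zero_mem _
  | add x y _ _ hx hy => rw [smul_add]; exact AddSubgroup.add_mem _ hx hy
  | neg x _ hx => rw [smul_neg]; exact AddSubgroup.neg_mem _ hx

lemma subset_spanO {Φ : Set (Module.End K V)} {x : Module.End K V} (hx : x ∈ Φ) :
    x ∈ S.spanO Φ :=
  AddSubgroup.subset_closure ⟨1, x, hx, by rw [OneMemClass.coe_one, one_smul]⟩

/-- The ring of the linear combinations of the operators in `A` with coefficients in the valuation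
ring. -/
def spanRing (S : Lat K V ℓ) (A : Subring (Module.End K V)) : Subring (Module.End K V) where
  carrier := S.spanO (A : Set (Module.End K V))
  mul_mem' := by
    intro x y hx hy
    change x ∈ S.spanO (A : Set (Module.End K V)) at hx
    change y ∈ S.spanO (A : Set (Module.End K V)) at hy
    change x * y ∈ S.spanO (A : Set (Module.End K V))
    have key : ∀ a ∈ A, ∀ y ∈ S.spanO (A : Set (Module.End K V)),
        a * y ∈ S.spanO (A : Set (Module.End K V)) := by
      intro a ha y hy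
      unfold Lat.spanO at hy ⊢
      induction hy using AddSubgroup.closure_induction with
      | mem y hy =>
        obtain ⟨d, F, hF, rfl⟩ := hy
        exact AddSubgroup.subset_closure ⟨d, a * F, A.mul_mem ha hF, by rw [mul_smul_comm]⟩
      | zero => rw [mul_zero]; exact AddSubgroup.zero_mem _
      | add x y _ _ hx hy => rw [mul_add]; exact AddSubgroup.add_mem _ hx hy
      | neg x _ hx => rw [mul_neg]; exact AddSubgroup.neg_mem _ hx
    have hx' := hx
    unfold Lat.spanO at hx'
    induction hx' using AddSubgroup.closure_induction with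
    | mem x hx1 =>
      obtain ⟨c, F, hF, rfl⟩ := hx1
      rw [smul_mul_assoc]
      exact spanO_smul c (key F hF y hy)
    | zero => rw [zero_mul]; exact AddSubgroup.zero_mem _
    | add x x' hx1 hx2 h1 h2 => rw [add_mul]; exact AddSubgroup.add_mem _ (h1 hx1) (h2 hx2)
    | neg x hx1 h1 =>
      rw [neg_mul]
      exact AddSubgroup.neg_mem _ (h1 hx1)
  one_mem' := subset_spanO A.one_mem
  add_mem' h h' := AddSubgroup.add_mem _ h h'
  zero_mem' := AddSubgroup.zero_mem _
  neg_mem' h := AddSubgroup.neg_mem _ h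

lemma mem_spanRing {x : Module.End K V} :
    x ∈ spanRing S A ↔ x ∈ S.spanO (A : Set (Module.End K V)) := Iff.rfl

lemma spanRing_setup (H : IdemSetup S A e) : IdemSetup S (spanRing S A) e where
  pres x hx := by
    rw [mem_spanRing] at hx
    unfold Lat.spanO at hx
    induction hx using AddSubgroup.closure_induction with
    | mem x hx =>
      obtain ⟨c, F, hF, rfl⟩ := hx
      exact (H.pres F hF).smul c
    | zero => exact Lat.Preserves.zero
    | add x y _ _ hx hy => exact hx.add hy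
    | neg x _ hx => exact hx.neg
  presE := H.presE
  idem := H.idem
  comm x hx := by
    rw [mem_spanRing] at hx
    unfold Lat.spanO at hx
    induction hx using AddSubgroup.closure_induction with
    | mem x hx =>
      obtain ⟨c, F, hF, rfl⟩ := hx
      rw [smul_mul_assoc, mul_smul_comm, H.comm F hF]
    | zero => rw [zero_mul, mul_zero]
    | add x y _ _ hx hy => rw [add_mul, mul_add, hx, hy]
    | neg x _ hx => rw [neg_mul, mul_neg, hx]

/-- A combination congruent to the idempotent gives the idempotent as a combination. -/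
theorem mem_spanRing_of_mod [Module.Finite K V] (H : IdemSetup S A e) {x : Module.End K V}
    (hx : x ∈ spanRing S A) (hmod : S.IsZeroMod (x - e)) : e ∈ spanRing S A := by
  have H' := spanRing_setup H
  obtain ⟨G, hG⟩ := exists_aeval_idem_O (H'.pres x hx) H'.presE H'.idem (H'.comm x hx) hmod
  rw [hG]
  clear hG
  induction G using Polynomial.induction_on' with
  | add p q hp hq => rw [Polynomial.map_add, map_add]; exact Subring.add_mem _ hp hq
  | monomial r c =>
    rw [Polynomial.map_monomial, Polynomial.aeval_monomial, Algebra.algebraMap_eq_smul_one,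
      smul_mul_assoc, one_mul]
    exact spanO_smul c (Subring.pow_mem _ hx r)

lemma hκ_spanRing : ∀ c : S.O, ∀ a ∈ spanRing S A, ∃ a' ∈ spanRing S A, ∀ t ∈ S.T,
    S.MemMax (a' t - (c : K) • a t) := by
  intro c a ha
  refine ⟨(c : K) • a, spanO_smul c ha, fun t _ => ?_⟩
  rw [LinearMap.smul_apply, sub_self]
  exact Lat.MemMax.zero

end Ring

end Pool.Agent.H838
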