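import Pool.Agent.H838.DualMod
import Pool.Graph.R_seed8.Y133.Half.Sys
import Pool.Graph.R_pool_sql_team_seeded_b677cdb8.E8helper99.SM.Abs

/-!
# Smirnov's theorem modulo one prime number
-/

open CategoryTheory AlgebraicGeometry Finset

universe u v

namespace Pool.Agent.H838

open Pool.Agent.H914 Pool.Agent.H914.VarClass Pool.Agent.H914.VarClass.Obj
  Pool.Agent.H914.WeilCohomology

variable {k : Type u} [Field k] {𝒱 : VarClass k} {ops : CycleOps 𝒱}
  {W : WeilCohomology.{u, v} ops} {X : 𝒱.Obj} {ℓ : ℕ}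

/-- The degree of an integral cycle is an integer. -/
lemma degCycle_int {Y : 𝒱.Obj} {z : Y.Cycles} (hz : IsIntegral Y z) :
    ∃ m : ℤ, Y.V.degCycle z = m := by
  classical
  choose m hm using hz
  refine ⟨∑ x ∈ Finsupp.support (M := ℚ) (α := Y.V.X) z, m x, ?_⟩
  rw [Int.cast_sum]
  exact Finset.sum_congr rfl fun x _ => hm x

lemma rz_mulLeft_one (hops : PreservesIntegral ops) {D : X.Cycles}
    (hD : X.IsCyc 1 D) (hDint : IsIntegral X D) :
    RZ W X 1 (LinearMap.mulLeft W.K (W.cl X D)) := by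
  have := rz_mulLeft (W := W) hops hD hDint
  simpa using this

lemma lefMod {D : X.Cycles} (hD : X.IsCyc 1 D) (hDint : IsIntegral X D)
    (hHL : HardLefschetz W X D) (S : IntegralStructure W X ℓ) (hS : S.lat.IsGraded (W.gr X))
    (hL : ∀ c ≤ X.dim, S.LefschetzMod D c) :
    S.lat.LefMod (W.gr X) X.dim (LinearMap.mulLeft W.K (W.cl X D)) where
  pres := S.mul_mem D hDint
  deg i a ha := by
    have h1 := pow_L_mem (isHom_mulLeft W hD) ha 1
    rwa [pow_one, mul_one] at h1
  surj c hc := by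
    have := hL c hc
    rw [IntegralStructure.LefschetzMod, lefPow_eq] at this
    exact this
  inj c hc s _ hs h0 := by
    apply lefschetz_injMod hD hHL S hS hc (hL c hc) hs
    rwa [lefPow_eq]
  bot := W.gr_eq_bot X

lemma lowMod (S : IntegralStructure W X ℓ) {D : X.Cycles} {y : Module.End W.K (W.H X)}
    (hy : RZ W X (-1) y) {s : ℤ}
    (h : S.lat.IsZeroMod (LinearMap.mulLeft W.K (W.cl X D) *
      (LinearMap.mulLeft W.K (W.cl X D) * y - y * LinearMap.mulLeft W.K (W.cl X D)) -
      (LinearMap.mulLeft W.K (W.cl X D) * y - y * LinearMap.mulLeft W.K (W.cl X D)) *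
      LinearMap.mulLeft W.K (W.cl X D) + (2 * s) • LinearMap.mulLeft W.K (W.cl X D))) :
    S.lat.LowMod (W.gr X) (LinearMap.mulLeft W.K (W.cl X D)) y s where
  pres := preserves_of_rz S hy
  deg i a ha := by
    have h1 := rop_opAlg.hom hy.rop _ a (by rw [grZ_natCast]; exact ha)
    rwa [show ((i + 2 : ℕ) : ℤ) + 2 * -1 = (i : ℤ) by push_cast; ring, grZ_natCast] at h1
  deg0 i hi a ha := by
    have h1 := rop_opAlg.hom hy.rop _ a (by rw [grZ_natCast]; exact ha)
    rw [grZ_of_neg (by omega)] at h1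
    exact (Submodule.mem_bot _).1 h1
  comm := h

lemma Lat.Preserves.sum' {K : Type*} [Field K] {V : Type*} [AddCommGroup V] [Module K V]
    {S : Lat K V ℓ} {ι : Type*} (s : Finset ι) {F : ι → Module.End K V}
    (hF : ∀ i ∈ s, S.Preserves (F i)) : S.Preserves (∑ i ∈ s, F i) := by
  intro t ht
  rw [LinearMap.sum_apply]
  exact Submodule.sum_mem _ fun i hi => hF i hi t ht

lemma opDual (hops : PreservesIntegral ops) (S : IntegralStructure W X ℓ)
    (hS : S.lat.IsGraded (W.gr X)) :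
    OpDual S.lat (W.gr X) (RZ W X) (par (W.isInternal X)) where
  ring := rz_opRing hops
  pres := preserves_of_rz S
  presPi := by
    rw [par, scal_eq_sum (W.isInternal X) (N := 2 * X.dim + 1) (W.gr_eq_bot X)]
    apply Lat.Preserves.sum'
    intro i _
    have h1 : ((-1 : W.K) ^ i) = (((-1 : S.lat.O) ^ i : S.lat.O) : W.K) := by push_cast; rfl
    rw [h1]
    exact Lat.Preserves.smul (hS.proj_mem (W.isInternal X) i) _
  comm := fun hy => IsHom.par_comm (W.isInternal X) ((rz_opRing hops).hom hy)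

lemma nondegAt (hops : PreservesIntegral ops) (hℓ : ℓ.Prime) (S : IntegralStructure W X ℓ)
    {c : ℕ} (hc : c ≤ X.dim) (hN : S.NumHomMod (X.dim + c)) :
    NondegAt S.lat (RZ W X) (par (W.isInternal X)) c := by
  intro y hy h
  rcases hy with ⟨q, hq, z, ⟨hz, hzc⟩, rfl⟩ | ⟨hd, rfl⟩
  · obtain rfl : q = X.dim + c := by omega
    apply hN z hz hzc
    intro w hw hwc
    have hdim : (X.prod X).dim = X.dim + X.dim := dim_prod X X
    obtain ⟨r, hr, hr'⟩ := h (cycOp W X (ops.pull (swap X X) w))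
      (Or.inl ⟨X.dim - c, by omega, _, ⟨hops.pull _ hw, ops.pull_mem _ (by
        rwa [hdim, show X.dim + X.dim - (X.dim + c) = X.dim - c by omega] at hwc)⟩, rfl⟩)
    have e1 : LinearMap.trace W.K (W.H X) (par (W.isInternal X) *
        (cycOp W X z * cycOp W X (ops.pull (swap X X) w))) =
        W.tr (X.prod X) (W.cl _ z * W.map (swap X X) (W.cl _ (ops.pull (swap X X) w))) :=
      Pool.Agent.Y133.Half.trace_corr_corr _ _
    have h2 := ops.mul_mem hzc hwc
    rw [show X.dim + c + ((X.prod X).dim - (X.dim + c)) = (X.prod X).dim by omega] at h2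
    rw [e1, W.cl_pull, Pool.Agent.Y133.Half.swap_swap, ← W.cl_mul, W.tr_cl h2] at hr'
    obtain ⟨m, hm⟩ := degCycle_int (hops.mul hz hw)
    rw [hm] at hr' ⊢
    by_cases hdiv : (ℓ : ℤ) ∣ m
    · obtain ⟨a, rfl⟩ := hdiv
      exact ⟨a, by push_cast; ring⟩
    · exfalso
      have hu := S.lat.int_isUnit hℓ hdiv
      have h3 : (m : S.lat.O) = r := by
        apply Subtype.ext
        rw [hr']
        push_cast
        rfl
      rw [h3] at hu
      exact (IsLocalRing.mem_maximalIdeal _).1 hr hu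
  · omega

/-- An integral cycle which inverts the Lefschetz isomorphism modulo the maximal ideal. -/
theorem exists_inverseMod (hops : PreservesIntegral ops) (hℓ : ℓ.Prime) {D : X.Cycles}
    (hD : X.IsCyc 1 D) (hDint : IsIntegral X D) (hHL : HardLefschetz W X D)
    (S : IntegralStructure W X ℓ) (hS : S.lat.IsGraded (W.gr X))
    (hres : S.lat.HasPrimeResidueField) {c : ℕ} (hc : c ≤ X.dim)
    (hL : S.LefschetzMod D c) (hN : S.NumHomMod (X.dim + c)) :
    ∃ z, IsIntegral (X.prod X) z ∧ (X.prod X).IsCyc (X.dim - c) z ∧ S.InverseMod D c z := by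
  obtain ⟨f, hf, hf'⟩ := (opDual hops S hS).exists_inverse hres (rz_mulLeft_one hops hD hDint)
    (nondegAt hops hℓ S hc hN)
  have hfz := hf
  rcases hfz with ⟨q, hq, z, ⟨hz, hzc⟩, rfl⟩ | ⟨hd, rfl⟩
  · obtain rfl : q = X.dim - c := by omega
    refine ⟨z, hz, hzc, ?_⟩
    intro s hs hsgr
    have h1 := hf' s hs
    rw [← lefPow_eq] at h1
    have h2 : lefPow W X D c s ∈ W.gr X (X.dim + c) := lefPow_mem hD hc hsgr
    have h3 : cycOp W X z (lefPow W X D c s) ∈ W.gr X (X.dim - c) := rz_apply_mem hf hc h2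
    apply lefschetz_injMod hD hHL S hS hc hL (Submodule.sub_mem _ h3 hsgr)
    rw [map_sub]
    exact h1
  · omega

/-- **Smirnov's theorem modulo one prime number.** -/
theorem smirnov_mod (hops : PreservesIntegral ops) (hℓ : ℓ.Prime) {D : X.Cycles}
    (hD : X.IsCyc 1 D) (hDint : IsIntegral X D) (hHL : HardLefschetz W X D)
    (hdim : 1 ≤ X.dim)
    (S : IntegralStructure W X ℓ) (hS : S.lat.IsGraded (W.gr X))
    (hres : S.lat.HasPrimeResidueField) (hL : ∀ c ≤ X.dim, S.LefschetzMod D c) :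
    (X.dim + 1 < ℓ →
      ((∃ z, IsIntegralAt ℓ (X.prod X) z ∧ (X.prod X).IsCyc (X.dim - 1) z ∧
          InducesLambda W X D z) ↔
        ∃ z, IsIntegral (X.prod X) z ∧ (X.prod X).IsCyc (X.dim - 1) z ∧
          S.lat.IsLowMod (lefPow W X D 1) (cycOp W X z)) ∧
      (S.NumHomMod (X.dim + 1) → ∃ z, IsIntegralAt ℓ (X.prod X) z ∧
        (X.prod X).IsCyc (X.dim - 1) z ∧ InducesLambda W X D z)) ∧
    (∀ c, 1 ≤ c → c ≤ X.dim → S.NumHomMod (X.dim + c) →
      ∃ z, IsIntegral (X.prod X) z ∧ (X.prod X).IsCyc (X.dim - c) z ∧ S.InverseMod D c z) ∧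
    ((∀ c, 1 ≤ c → c ≤ X.dim → S.NumHomMod (X.dim + c)) →
      ∃ z, IsIntegralAt ℓ (X.prod X) z ∧ (X.prod X).IsCyc (X.dim - 1) z ∧
        InducesLambda W X D z) := by
  have hnak := (nakayama hops hℓ hD hDint hHL S hS hL).out 0 2
  have hLM := lefMod hD hDint hHL S hS hL
  have hLR := rz_mulLeft_one (W := W) hops hD hDint
  have hRZ := rz_opRing (W := W) (X := X) hops
  have hlef1 : lefPow W X D 1 = LinearMap.mulLeft W.K (W.cl X D) := by
    rw [lefPow_eq, pow_one]
  -- from a lowering operator modulo the prime to `Λ`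
  have hback : X.dim + 1 < ℓ → (∃ f, RZ W X (-1) f ∧
      S.lat.IsLowMod (LinearMap.mulLeft W.K (W.cl X D)) f) →
      ∃ z, IsIntegralAt ℓ (X.prod X) z ∧ (X.prod X).IsCyc (X.dim - 1) z ∧
        InducesLambda W X D z := by
    rintro hn ⟨f, hf, hlow⟩
    refine (hnak.1 fun c hc1 hc => ?_).1
    have hlow' := lowMod S (s := 1) hf hlow
    have h1 := hlow'.injMod hℓ hn hLM (by
      intro h
      have := Int.le_of_dvd one_pos h
      have := hℓ.two_le
      omega) hc
    have h2 : RZ W X (-c) (f ^ c) := by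
      have := hRZ.pow hf c
      rwa [mul_neg_one] at this
    rcases h2 with ⟨q, hq, z, ⟨hz, hzc⟩, he⟩ | ⟨hd, _⟩
    · obtain rfl : q = X.dim - c := by omega
      refine ⟨z, hz, hzc, ?_⟩
      rw [← he] at h1
      exact h1
    · omega
  refine ⟨fun hn => ⟨⟨?_, ?_⟩, ?_⟩, ?_, ?_⟩
  · -- from `Λ` to a lowering operator
    rintro ⟨z, hz, hzc, hLam⟩
    have hRI := rint_opRing (W := W) (X := X) hops hℓ
    have hΦ : RInt ℓ W X (-1) (cycOp W X z) := Or.inl ⟨X.dim - 1, by omega, z, hz, hzc, rfl⟩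
    have hLI : RInt ℓ W X 1 (LinearMap.mulLeft W.K (W.cl X D)) := by
      have := rint_mulLeft (W := W) hops hℓ hD hDint
      simpa using this
    set L := LinearMap.mulLeft W.K (W.cl X D) with hLdef
    have hwt := sum_comm_eq_wt (W.isInternal X) (isHom_mulLeft W hD) W_hbd hHL hLam
    obtain ⟨f, hfdef⟩ : ∃ f, f = ∑ m ∈ range X.dim, ∑ a ∈ range (m + 1),
      L ^ a * cycOp W X z ^ (m + 1) * L ^ (m - a) := ⟨_, rfl⟩
    have hf : RInt ℓ W X (-1) f := by
      rw [hfdef]
      apply hRI.sum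
      intro m _
      apply hRI.sum
      intro a ha
      rw [Finset.mem_range] at ha
      refine hRI.cast (hRI.mul (hRI.mul (hRI.pow hLI a) (hRI.pow hΦ (m + 1)))
        (hRI.pow hLI (m - a))) ?_
      have : ((m - a : ℕ) : ℤ) = m - a := by omega
      rw [this]
      push_cast
      ring
    have hLf : L * f - f * L = wt (W.isInternal X) X.dim := by
      rw [← hwt, hfdef, Finset.mul_sum, Finset.sum_mul, ← Finset.sum_sub_distrib]
      exact Finset.sum_congr rfl fun m _ =>
        Pool.Agent.E8helper99.SM.comm_sum L (cycOp W X z) m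
    have hLLf : L * (L * f - f * L) - (L * f - f * L) * L = -((2 : ℤ) • L) := by
      rw [hLf, (isHom_mulLeft W hD).wt_comm (W.isInternal X) X.dim]
      have h2 : (((2 : ℤ)) : W.K) • L = (2 : ℤ) • L := Int.cast_smul_eq_zsmul W.K 2 L
      rw [h2]
      abel
    rcases hf with ⟨q, hq, w, hw, hwc, rfl⟩ | ⟨hd, _⟩
    · obtain rfl : q = X.dim - 1 := by omega
      obtain ⟨N, hN, hNw⟩ := hw.exists_denominator hℓ
      have hcop : IsCoprime (N : ℤ) (ℓ : ℤ) := by
        rw [Nat.isCoprime_iff_coprime]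
        exact (hℓ.coprime_iff_not_dvd.2 hN).symm
      obtain ⟨a, b, hab⟩ := hcop
      refine ⟨(a : ℚ) • ((N : ℚ) • w), hNw.intSmul a, (hwc.smul _).smul _, ?_⟩
      rw [hlef1]
      have e1 : cycOp W X ((a : ℚ) • ((N : ℚ) • w)) = (a * N) • cycOp W X w := by
        rw [cycOp_smul, cycOp_smul, smul_smul, ← Int.cast_smul_eq_zsmul W.K]
        push_cast
        rfl
      rw [e1, Lat.IsLowMod]
      have e2 : L * (L * ((a * N) • cycOp W X w) - ((a * N) • cycOp W X w) * L) -
          (L * ((a * N) • cycOp W X w) - ((a * N) • cycOp W X w) * L) * L + (2 : ℤ) • L =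
          (ℓ * (2 * b) : ℤ) • L := by
        have e3 : L * (L * ((a * N) • cycOp W X w) - ((a * N) • cycOp W X w) * L) -
          (L * ((a * N) • cycOp W X w) - ((a * N) • cycOp W X w) * L) * L =
          (a * N) • (L * (L * cycOp W X w - cycOp W X w * L) -
            (L * cycOp W X w - cycOp W X w * L) * L) := by
          simp only [mul_smul_comm, smul_mul_assoc, smul_sub, mul_sub, sub_mul]
        rw [e3, hLLf]
        have e4 : (1 : ℤ) - a * N = b * ℓ := by rw [← hab]; ring
        have e5 : (a * N) • (-((2 : ℤ) • L)) + (2 : ℤ) • L = (2 * (1 - a * N)) • L := by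
          module
        rw [e5, e4]
        congr 1
        ring
      rw [e2]
      intro t ht
      rw [LinearMap.smul_apply]
      exact Lat.memMax_zsmul_dvd (dvd_mul_right _ _) (S.mul_mem D hDint t ht)
    · omega
  · -- from a lowering operator to `Λ`
    rintro ⟨z, hz, hzc, hlow⟩
    rw [hlef1] at hlow
    exact hback hn ⟨cycOp W X z, Or.inl ⟨X.dim - 1, by omega, z, ⟨hz, hzc⟩, rfl⟩, hlow⟩
  · -- duality
    intro hN
    apply hback hn
    have hND := nondegAt hops hℓ S hdim hN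
    rw [Nat.cast_one] at hND
    refine (opDual hops S hS).exists_low hres hLR hND ?_ 2
    intro y hy h0
    refine (lowMod S (s := 0) (D := D) hy ?_).eq_zero hℓ hn hLM hS
    rw [mul_zero, zero_smul, add_zero]
    exact h0
  · intro c _ hc hN
    exact exists_inverseMod hops hℓ hD hDint hHL S hS hres hc (hL c hc) hN
  · intro hN
    refine (hnak.1 fun c hc1 hc => ?_).1
    obtain ⟨z, hz, hzc, hinv⟩ := exists_inverseMod hops hℓ hD hDint hHL S hS hres hc (hL c hc)
      (hN c hc1 hc)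
    exact ⟨z, hz, hzc, IntegralStructure.injectiveMod_of_inverseMod hDint (hL c hc) hinv⟩

end Pool.Agent.H838
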